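import Pool.Agent.ChP.IvDefs

/-!
# Finiteness and purity

* `card_le`: affinely independent points of `ℝ^n`.
* `star_finite`: let `F` be as in `cocompact` and `v ∈ σ`.  For `τ ⊇ σ` there is `γ` with
  `γ • τ ∈ F`; `γ • v` is one of the finitely many elements of the union of `F`, and `γ` is
  determined by `γ • v` (freeness applied to the simplex `{v}`).
* `exists_top`: the directions `x` which enter a simplex `τ ⊇ σ` (in the sense of `local_homeo`)
  with `τ.card ≤ n` lie in a proper subspace (the direction space of the affine span of `τ`);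
  finitely many proper subspaces do not cover `ℝ^n`.
* `chains_finite`: all intervals of a chain starting at `(σ, σ)` have `U ∈ star σ`, `L ⊆ σ`.
* `exists_reps`: take a minimal (or choose from) `F ∩ faces`; uniqueness from freeness.
* `eulerChar_eq`: the orbits of `k`-simplices correspond to the `σ ∈ R` with `σ.card = k + 1`, and
  `σ.card ≤ n + 1`.
-/

namespace Pool.Agent.ChP

open Matrix
open scoped Pointwise

namespace AffineTriangulation

variable {n : ℕ} (K : AffineTriangulation n)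

theorem card_le {σ : Finset K.V} (hσ : σ ∈ K.faces) : σ.card ≤ n + 1 := by
  have h := (K.indep σ hσ).card_le_finrank_succ
  have h2 := Submodule.finrank_le (vectorSpan ℝ (Set.range fun v : σ => K.dev v))
  rw [Fintype.card_coe] at h
  rw [Module.finrank_fin_fun] at h2
  omega

private theorem Star_inj {v : K.V} {γ δ : K.Γ} (h : γ • v = δ • v) : γ = δ := by
  have h1 : (δ⁻¹ * γ) • ({v} : Finset K.V) = {v} := by
    rw [Finset.smul_finset_singleton, mul_smul, h, inv_smul_smul]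
  have h2 := K.free _ _ (K.singleton_mem v) h1
  rw [inv_mul_eq_one] at h2
  exact h2.symm

theorem star_finite {σ : Finset K.V} (hσ : σ ∈ K.faces) :
    {τ : Finset K.V | τ ∈ K.faces ∧ σ ⊆ τ}.Finite := by
  classical
  obtain ⟨v, hv⟩ := K.nonempty_of_mem σ hσ
  obtain ⟨F, hF⟩ := K.cocompact
  choose! g hg using hF
  refine Set.Finite.of_injOn (f := fun τ => (g τ • τ, g τ • v))
    (t := ((F ×ˢ F.biUnion id : Finset (Finset K.V × K.V)) : Set (Finset K.V × K.V))) ?_ ?_
    (Finset.finite_toSet _)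
  · rintro τ ⟨hτ, hsub⟩
    simp only [Finset.coe_product, Set.mem_prod, Finset.mem_coe, Finset.mem_biUnion, id]
    exact ⟨hg τ hτ, g τ • τ, hg τ hτ, Finset.smul_mem_smul_finset (hsub hv)⟩
  · rintro τ ⟨hτ, hsub⟩ τ' ⟨hτ', hsub'⟩ h
    simp only [Prod.mk.injEq] at h
    have h3 := K.Star_inj h.2
    have h4 := h.1
    rw [h3] at h4
    exact (MulAction.injective (g τ')) h4

theorem exists_top {σ : Finset K.V} (hσ : σ ∈ K.faces) :
    ∃ τ ∈ K.faces, σ ⊆ τ ∧ τ.card = n + 1 := by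
  classical
  by_contra hcon
  push Not at hcon
  have hfin := K.star_finite hσ
  haveI : Finite {τ : Finset K.V | τ ∈ K.faces ∧ σ ⊆ τ} := hfin
  have hcov : (⋃ τ : {τ : Finset K.V | τ ∈ K.faces ∧ σ ⊆ τ},
      ((vectorSpan ℝ (Set.range fun v : τ.1 => K.dev v) : Submodule ℝ (Fin n → ℝ)) :
        Set (Fin n → ℝ))) = Set.univ := by
    rw [Set.eq_univ_iff_forall]
    intro x
    obtain ⟨τ, ⟨hτ, hsub, c, hc0, -, hcx⟩, -⟩ := K.local_homeo σ hσ x
    rw [Set.mem_iUnion]
    refine ⟨⟨τ, hτ, hsub⟩, ?_⟩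
    obtain ⟨v0, hv0⟩ := K.nonempty_of_mem τ hτ
    have hx : x = ∑ v ∈ τ, c v • (K.dev v - K.dev v0) := by
      simp only [smul_sub]
      rw [Finset.sum_sub_distrib, ← Finset.sum_smul, hc0, zero_smul, sub_zero, hcx]
    rw [hx]
    refine Submodule.sum_mem _ fun v hv => Submodule.smul_mem _ _ ?_
    exact vsub_mem_vectorSpan ℝ ⟨⟨v, hv⟩, rfl⟩ ⟨⟨v0, hv0⟩, rfl⟩
  obtain ⟨⟨τ, hτ, hsub⟩, htop⟩ := Subspace.exists_eq_top_of_iUnion_eq_univ hcov
  have hne := K.nonempty_of_mem τ hτ
  have hcard : Fintype.card τ = (τ.card - 1) + 1 := by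
    rw [Fintype.card_coe]
    have := hne.card_pos
    omega
  have h1 := (K.indep τ hτ).finrank_vectorSpan hcard
  have htop' : vectorSpan ℝ (Set.range fun v : τ => K.dev v) = ⊤ := htop
  rw [htop', finrank_top, Module.finrank_fin_fun] at h1
  have := hne.card_pos
  exact hcon τ hτ hsub (by omega)

theorem IsChain.lower_zero {K : AffineTriangulation n} {t : Fin (n + 1) → K.Iv}
    (ht : K.IsChain t) : (t 0).1.1 = (t 0).1.2 := by
  have h := ht.card 0
  simp only [Fin.val_zero, add_zero] at h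
  exact Finset.eq_of_subset_of_card_le (t 0).2.2.1 h.le

theorem chains_finite (σ : Finset K.V) :
    {t : Fin (n + 1) → K.Iv | K.IsChain t ∧ (t 0).1.1 = σ}.Finite := by
  classical
  by_cases hσ : σ ∈ K.faces
  · have hS : {x : K.Iv | x.1.1 ⊆ σ ∧ σ ⊆ x.1.2}.Finite := by
      have h1 : ((σ.powerset : Set (Finset K.V)) ×ˢ
          {τ : Finset K.V | τ ∈ K.faces ∧ σ ⊆ τ}).Finite :=
        (Finset.finite_toSet _).prod (K.star_finite hσ)
      refine Set.Finite.of_injOn (f := fun x : K.Iv => x.1) ?_ Subtype.val_injective.injOn h1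
      rintro x ⟨h2, h3⟩
      exact ⟨by simpa using h2, x.2.2.2, h3⟩
    refine (Set.Finite.pi' (fun _ : Fin (n + 1) => hS)).subset ?_
    rintro t ⟨ht, h0⟩ i
    have h4 := ht.anti 0 i (Fin.zero_le _)
    have h5 := ht.mono 0 i (Fin.zero_le _)
    have h6 := ht.lower_zero
    exact ⟨h0 ▸ h4, by rw [← h0, h6]; exact h5⟩
  · convert Set.finite_empty
    rw [Set.eq_empty_iff_forall_notMem]
    rintro t ⟨ht, h0⟩
    apply hσ
    rw [← h0, ht.lower_zero]
    exact (t 0).2.2.2

/-- the finite set of the chains starting at `(σ, σ)` -/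
noncomputable def chainsFrom (σ : Finset K.V) : Finset (Fin (n + 1) → K.Iv) :=
  (K.chains_finite σ).toFinset

theorem mem_chainsFrom {σ : Finset K.V} {t : Fin (n + 1) → K.Iv} :
    t ∈ K.chainsFrom σ ↔ K.IsChain t ∧ (t 0).1.1 = σ := by
  simp [chainsFrom]

theorem IsChain.card_last {K : AffineTriangulation n} {t : Fin (n + 1) → K.Iv}
    (ht : K.IsChain t) : (t (Fin.last n)).1.1.card = 1 ∧ (t (Fin.last n)).1.2.card = n + 1 := by
  have h := ht.card (Fin.last n)
  have h1 := K.card_le (t (Fin.last n)).2.2.2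
  have h2 := (t (Fin.last n)).2.1.card_pos
  simp only [Fin.val_last] at h
  omega

theorem IsChain.smul {K : AffineTriangulation n} {t : Fin (n + 1) → K.Iv}
    (ht : K.IsChain t) (γ : K.Γ) : K.IsChain (fun i => γ • t i) := by
  refine ⟨fun i => ?_, fun i j hij => ?_, fun i j hij => ?_⟩
  · rw [K.smul_lower, K.smul_upper, Finset.card_smul_finset, Finset.card_smul_finset]
    exact ht.card i
  · rw [K.smul_lower, K.smul_lower]
    exact Finset.smul_finset_subset_smul_finset (ht.anti i j hij)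
  · rw [K.smul_upper, K.smul_upper]
    exact Finset.smul_finset_subset_smul_finset (ht.mono i j hij)

theorem exists_reps : ∃ R : Finset (Finset K.V), K.Reps R := by
  classical
  obtain ⟨F, hF⟩ := K.cocompact
  let r : Finset K.V → Finset K.V := fun A =>
    Quotient.out (Quotient.mk (MulAction.orbitRel K.Γ (Finset K.V)) A)
  have hr : ∀ A, ∃ δ : K.Γ, δ • r A = A := by
    intro A
    have h1 : (MulAction.orbitRel K.Γ (Finset K.V)) (r A) A := Quotient.mk_out A
    rw [MulAction.orbitRel_apply, MulAction.mem_orbit_iff] at h1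
    obtain ⟨δ, hδ⟩ := h1
    exact ⟨δ⁻¹, by rw [← hδ, inv_smul_smul]⟩
  have hrs : ∀ (γ : K.Γ) A, r (γ • A) = r A := by
    intro γ A
    have h1 : (Quotient.mk (MulAction.orbitRel K.Γ (Finset K.V)) (γ • A)) =
        Quotient.mk (MulAction.orbitRel K.Γ (Finset K.V)) A := by
      apply Quotient.sound
      exact ⟨γ, rfl⟩
    simp only [r, h1]
  have hrr : ∀ A, r (r A) = r A := by
    intro A
    obtain ⟨δ, hδ⟩ := hr A
    have := hrs δ (r A)
    rw [hδ] at this
    exact this.symm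
  refine ⟨(F.filter (· ∈ K.faces)).image r, ?_, ?_⟩
  · intro σ hσ
    rw [Finset.mem_image] at hσ
    obtain ⟨A, hA, rfl⟩ := hσ
    rw [Finset.mem_filter] at hA
    obtain ⟨δ, hδ⟩ := hr A
    have h1 : r A = δ⁻¹ • A := by
      rw [← hδ, hrs, hrr, inv_smul_smul]
    rw [h1]
    exact K.smul_mem _ _ hA.2
  · intro τ hτ
    obtain ⟨γ, hγ⟩ := hF τ hτ
    obtain ⟨δ, hδ⟩ := hr τ
    refine ⟨(δ, r τ), ⟨?_, hδ⟩, ?_⟩
    · simp only
      rw [Finset.mem_image]
      exact ⟨γ • τ, Finset.mem_filter.2 ⟨hγ, K.smul_mem _ _ hτ⟩, hrs _ _⟩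
    · rintro ⟨p, A⟩ ⟨hA, hpA⟩
      simp only at hA hpA
      rw [Finset.mem_image] at hA
      obtain ⟨B, -, rfl⟩ := hA
      have h1 : r B = r τ := by rw [← hpA, hrs, hrr]
      have h2 : r τ ∈ K.faces := by
        have : r τ = δ⁻¹ • τ := by
          conv_rhs => rw [← hδ]
          rw [inv_smul_smul]
        rw [this]
        exact K.smul_mem _ _ hτ
      rw [h1] at hpA
      have h3 : (δ⁻¹ * p) • r τ = r τ := by
        rw [mul_smul, hpA]
        conv_lhs => rw [← hδ]
        rw [inv_smul_smul]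
      have h4 := K.free _ _ h2 h3
      rw [inv_mul_eq_one] at h4
      rw [h1, h4]

theorem eulerChar_eq {R : Finset (Finset K.V)} (hR : K.Reps R) :
    K.eulerChar = ∑ σ ∈ R, (-1 : ℤ) ^ (σ.card + 1) := by
  classical
  have hnum : ∀ k, K.numSimplices k = (R.filter fun σ => σ.card = k + 1).card := by
    intro k
    have hset : {O : Set (Finset K.V) | ∃ σ ∈ K.faces, σ.card = k + 1 ∧
        O = MulAction.orbit K.Γ σ} =
        (((R.filter fun σ => σ.card = k + 1).image fun σ => MulAction.orbit K.Γ σ :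
          Finset (Set (Finset K.V))) : Set (Set (Finset K.V))) := by
      ext O
      simp only [Set.mem_setOf_eq, Finset.coe_image, Set.mem_image, Finset.coe_filter]
      constructor
      · rintro ⟨σ, hσ, hc, rfl⟩
        obtain ⟨⟨γ, A⟩, ⟨hA, hγ⟩, -⟩ := hR.2 σ hσ
        simp only at hA hγ
        refine ⟨A, ⟨hA, ?_⟩, ?_⟩
        · rw [← hc, ← hγ, Finset.card_smul_finset]
        · rw [← hγ, MulAction.orbit_smul]
      · rintro ⟨A, ⟨hA, hc⟩, rfl⟩
        exact ⟨A, hR.1 A hA, hc, rfl⟩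
    unfold numSimplices
    rw [hset, Set.ncard_coe_finset, Finset.card_image_of_injOn]
    intro A hA B hB h
    simp only [Finset.coe_filter, Set.mem_setOf_eq] at hA hB
    have h1 : A ∈ MulAction.orbit K.Γ B := by
      have h2 : MulAction.orbit K.Γ A = MulAction.orbit K.Γ B := h
      rw [← h2]
      exact MulAction.mem_orbit_self A
    obtain ⟨γ, hγ⟩ := h1
    have h3 := (hR.2 A (hR.1 A hA.1)).unique (y₁ := ((1 : K.Γ), A)) (y₂ := (γ, B))
      ⟨hA.1, one_smul _ _⟩ ⟨hB.1, hγ⟩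
    exact congrArg Prod.snd h3
  unfold eulerChar
  have hmaps : ∀ σ ∈ R, σ.card - 1 ∈ Finset.range (n + 1) := by
    intro σ hσ
    have := K.card_le (hR.1 σ hσ)
    rw [Finset.mem_range]
    omega
  rw [← Finset.sum_fiberwise_of_maps_to hmaps]
  refine Finset.sum_congr rfl fun k _ => ?_
  rw [hnum]
  have hfil : (R.filter fun σ => σ.card = k + 1) = R.filter fun σ => σ.card - 1 = k := by
    apply Finset.filter_congr
    intro σ hσ
    have := (K.nonempty_of_mem σ (hR.1 σ hσ)).card_pos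
    omega
  rw [← hfil]
  rw [Finset.sum_congr rfl (g := fun _ => (-1 : ℤ) ^ k)]
  · rw [Finset.sum_const, nsmul_eq_mul, mul_comm]
  · intro σ hσ
    rw [Finset.mem_filter] at hσ
    rw [hσ.2]
    ring

private theorem Star_hol (γ : K.Γ) (x : Fin n → ℝ) :
    K.hol γ x = K.lin γ *ᵥ x + K.hol γ 0 := by
  have h1 : K.lin γ *ᵥ x = (K.hol γ).linear x := by
    change LinearMap.toMatrix' ((K.hol γ).linear : (Fin n → ℝ) →ₗ[ℝ] (Fin n → ℝ)) *ᵥ x = _
    rw [LinearMap.toMatrix'_mulVec]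
    rfl
  rw [h1]
  have h2 := (K.hol γ).map_vadd 0 x
  simpa using h2

theorem bary_smul (γ : K.Γ) {σ : Finset K.V} (hσ : σ.Nonempty) :
    K.bary (γ • σ) = K.hol γ (K.bary σ) := by
  have hc : (σ.card : ℝ) ≠ 0 := by
    have := hσ.card_pos
    positivity
  unfold bary
  rw [Finset.card_smul_finset]
  have h1 : ∑ v ∈ γ • σ, K.dev v = ∑ v ∈ σ, K.dev (γ • v) := by
    change ∑ v ∈ σ.image (fun v => γ • v), K.dev v = _
    rw [Finset.sum_image]
    intro a _ b _ h
    exact MulAction.injective γ h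
  rw [h1, K.Star_hol γ ((σ.card : ℝ)⁻¹ • ∑ v ∈ σ, K.dev v)]
  have h2 : ∑ v ∈ σ, K.dev (γ • v) = K.lin γ *ᵥ (∑ v ∈ σ, K.dev v) + (σ.card : ℝ) • K.hol γ 0 := by
    rw [Matrix.mulVec_sum]
    simp only [K.dev_smul]
    rw [Finset.sum_congr rfl fun v _ => K.Star_hol γ (K.dev v), Finset.sum_add_distrib,
      Finset.sum_const, ← Nat.cast_smul_eq_nsmul ℝ]
  rw [h2, smul_add, smul_smul, inv_mul_cancel₀ hc, one_smul, Matrix.mulVec_smul]

theorem lin_mulVec (γ : K.Γ) (x y : Fin n → ℝ) :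
    K.lin γ *ᵥ (x - y) = K.hol γ x - K.hol γ y := by
  rw [K.Star_hol γ x, K.Star_hol γ y, Matrix.mulVec_sub]
  abel

theorem pos_smul_sub (γ : K.Γ) (x y : K.Iv) :
    K.pos (γ • x) - K.pos (γ • y) = K.lin γ *ᵥ (K.pos x - K.pos y) := by
  have hx1 := K.bary_smul γ x.2.1
  have hx2 := K.bary_smul γ (x.2.1.mono x.2.2.1)
  have hy1 := K.bary_smul γ y.2.1
  have hy2 := K.bary_smul γ (y.2.1.mono y.2.2.1)
  unfold pos
  rw [K.smul_lower, K.smul_upper, K.smul_lower, K.smul_upper, hx1, hx2, hy1, hy2]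
  have h : K.bary x.1.1 + K.bary x.1.2 - (K.bary y.1.1 + K.bary y.1.2) =
      (K.bary x.1.1 - K.bary y.1.1) + (K.bary x.1.2 - K.bary y.1.2) := by abel
  rw [h, Matrix.mulVec_add, K.lin_mulVec, K.lin_mulVec]
  abel

theorem det_lin_ne_zero (γ : K.Γ) : (K.lin γ).det ≠ 0 := by
  have h : (K.lin γ).det * (K.lin γ⁻¹).det = 1 := by
    rw [← Matrix.det_mul, ← map_mul, mul_inv_cancel, map_one, Matrix.det_one]
  exact left_ne_zero_of_mul_eq_one h

end AffineTriangulation

end Pool.Agent.ChP
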