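import Pool.Agent.ChP.CCBasic

/-!
# Independence of the choice of the equivariant densities

Prism operator.  For `y : Fin n → X` put
`φ y = ∑ i : Fin n, (-1)^i * c (a y_0, ..., a y_i, b y_i, ..., b y_{n-1})`.
If `c` is a cocycle, then summing the cocycle identity for
`(a t_0, ..., a t_i, b t_i, ..., b t_n)` over `i` with sign `(-1)^i` gives
`∑ j, (-1)^j φ (t ∘ j.succAbove) = c (b ∘ t) - c (a ∘ t)`
(chain level: `∂ P = b - a - P ∂`).  For `CC_indep` take `Y` = integrable densities of total mass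
`1` (a subtype; `CC_cocycle` is then the cocycle identity), `a = μ`, `b = μ'`; by `CC_push`
(`chi ρ γ = sign det (ρ γ)`) the function `φ` is `χ`-equivariant.  Apply `WCycle` to `φ`.
-/

namespace Pool.Agent.ChP

open MeasureTheory Matrix

/-- The prism operator applied to the cochain `c`. -/
noncomputable def prismPhi {n : ℕ} {X Y : Type*} (c : (Fin (n + 1) → Y) → ℝ) (a b : X → Y)
    (y : Fin n → X) : ℝ :=
  ∑ i : Fin n, (-1) ^ (i : ℕ) * c (fun k : Fin (n + 1) =>
    if h : (k : ℕ) ≤ i then a (y ⟨k, lt_of_le_of_lt h i.2⟩) else b (y ⟨k - 1, by omega⟩))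

/-- The map `succAbove` on natural numbers. -/
private def Prism_sA (j x : ℕ) : ℕ := if x < j then x else x + 1

private theorem Prism_sA_eq {n : ℕ} (j : Fin (n + 1)) (x : Fin n) :
    ((j.succAbove x : Fin (n + 1)) : ℕ) = Prism_sA j x := by
  unfold Prism_sA
  by_cases h : (x : ℕ) < j
  · rw [if_pos h, Fin.succAbove_of_castSucc_lt _ _ (by rw [Fin.lt_def]; exact h)]
    rfl
  · rw [if_neg h, Fin.succAbove_of_le_castSucc _ _ (by rw [Fin.le_def]; simpa using h)]
    rfl

/-- The tuple `t`, extended to natural numbers. -/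
private def Prism_tN {n : ℕ} {X : Type*} (t : Fin (n + 1) → X) (k : ℕ) : X :=
  if h : k < n + 1 then t ⟨k, h⟩ else t 0

private theorem Prism_tN_coe {n : ℕ} {X : Type*} (t : Fin (n + 1) → X) (k : Fin (n + 1)) :
    Prism_tN t k = t k := by
  unfold Prism_tN
  rw [dif_pos k.2]

private theorem Prism_tN_succAbove {n : ℕ} {X : Type*} (t : Fin (n + 1) → X) (j : Fin (n + 1))
    (x : ℕ) (hx : x < n) : t (j.succAbove ⟨x, hx⟩) = Prism_tN t (Prism_sA j x) := by
  rw [← Prism_tN_coe t, Prism_sA_eq]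

/-- The tuple `(a t_0, ..., a t_i, b t_i, ..., b t_n)`. -/
private def Prism_T {n : ℕ} {X Y : Type*} (a b : X → Y) (t : Fin (n + 1) → X) (i : ℕ) (k : ℕ) :
    Y :=
  if k ≤ i then a (Prism_tN t k) else b (Prism_tN t (k - 1))

private theorem Prism_phi {n : ℕ} {X Y : Type*} (c : (Fin (n + 1) → Y) → ℝ) (a b : X → Y)
    (t : Fin (n + 1) → X) (j : Fin (n + 1)) :
    prismPhi c a b (fun i => t (j.succAbove i)) = ∑ i : Fin n, (-1) ^ (i : ℕ) *
      c (fun k : Fin (n + 1) => if (k : ℕ) ≤ i then a (Prism_tN t (Prism_sA j k))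
        else b (Prism_tN t (Prism_sA j (k - 1)))) := by
  unfold prismPhi
  refine Finset.sum_congr rfl fun i _ => ?_
  congr 2
  funext k
  by_cases h : (k : ℕ) ≤ i
  · rw [dif_pos h, if_pos h]
    exact congrArg a (Prism_tN_succAbove t j k _)
  · rw [dif_neg h, if_neg h]
    exact congrArg b (Prism_tN_succAbove t j ((k : ℕ) - 1) _)

private theorem Prism_key {n : ℕ} {X Y : Type*} (c : (Fin (n + 1) → Y) → ℝ) (a b : X → Y)
    (t : Fin (n + 1) → X) (i : Fin (n + 1)) (q : Fin n) :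
    (-1) ^ (i : ℕ) * ((-1) ^ ((i.castSucc.succAbove (i.succAbove q) : Fin (n + 2)) : ℕ) *
      c (fun k => Prism_T a b t i ((i.castSucc.succAbove (i.succAbove q)).succAbove k))) =
    -((-1) ^ ((i.succAbove q : Fin (n + 1)) : ℕ) * ((-1) ^ ((q.predAbove i : Fin n) : ℕ) *
      c (fun k : Fin (n + 1) => if (k : ℕ) ≤ (q.predAbove i : Fin n) then
          a (Prism_tN t (Prism_sA (i.succAbove q : Fin (n + 1)) k))
        else b (Prism_tN t (Prism_sA (i.succAbove q : Fin (n + 1)) (k - 1)))))) := by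
  by_cases h : (q : ℕ) < i
  · have e1 : ((i.succAbove q : Fin (n + 1)) : ℕ) = q := by
      rw [Prism_sA_eq, Prism_sA, if_pos h]
    have e2 : ((i.castSucc.succAbove (i.succAbove q) : Fin (n + 2)) : ℕ) = q := by
      rw [Prism_sA_eq, e1, Prism_sA, Fin.val_castSucc, if_pos h]
    have e3 : ((q.predAbove i : Fin n) : ℕ) = (i : ℕ) - 1 := by
      rw [Fin.predAbove_of_castSucc_lt _ _ (by rw [Fin.lt_def]; exact h), Fin.val_pred]
    have e4 : (fun k : Fin (n + 1) => Prism_T a b t i
        (((i.castSucc.succAbove (i.succAbove q)).succAbove k : Fin (n + 2)) : ℕ)) =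
        (fun k : Fin (n + 1) => if (k : ℕ) ≤ (q.predAbove i : Fin n) then
          a (Prism_tN t (Prism_sA (i.succAbove q : Fin (n + 1)) k))
        else b (Prism_tN t (Prism_sA (i.succAbove q : Fin (n + 1)) (k - 1)))) := by
      funext k
      rw [Prism_sA_eq, e1, e2, e3]
      unfold Prism_T Prism_sA
      by_cases h1 : (k : ℕ) < q
      · rw [if_pos h1, if_pos (by omega), if_pos (by omega)]
      · rw [if_neg h1]
        by_cases h2 : (k : ℕ) + 1 ≤ i
        · rw [if_pos h2, if_pos (by omega)]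
        · rw [if_neg h2, if_neg (by omega)]
          have h3 : ¬ ((k : ℕ) - 1 < q) := by omega
          rw [if_neg h3]
          congr 2
          omega
    rw [e4, e1, e2, e3]
    obtain ⟨m, hm⟩ : ∃ m, (i : ℕ) = m + 1 := ⟨(i : ℕ) - 1, by omega⟩
    rw [hm, Nat.add_sub_cancel, pow_succ]
    ring
  · have e1 : ((i.succAbove q : Fin (n + 1)) : ℕ) = q + 1 := by
      rw [Prism_sA_eq, Prism_sA, if_neg h]
    have e2 : ((i.castSucc.succAbove (i.succAbove q) : Fin (n + 2)) : ℕ) = q + 2 := by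
      rw [Prism_sA_eq, e1, Prism_sA, Fin.val_castSucc, if_neg (by omega)]
    have e3 : ((q.predAbove i : Fin n) : ℕ) = (i : ℕ) := by
      rw [Fin.predAbove_of_le_castSucc _ _ (by rw [Fin.le_def]; simpa using h)]
      rfl
    have e4 : (fun k : Fin (n + 1) => Prism_T a b t i
        (((i.castSucc.succAbove (i.succAbove q)).succAbove k : Fin (n + 2)) : ℕ)) =
        (fun k : Fin (n + 1) => if (k : ℕ) ≤ (q.predAbove i : Fin n) then
          a (Prism_tN t (Prism_sA (i.succAbove q : Fin (n + 1)) k))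
        else b (Prism_tN t (Prism_sA (i.succAbove q : Fin (n + 1)) (k - 1)))) := by
      funext k
      rw [Prism_sA_eq, e1, e2, e3]
      unfold Prism_T Prism_sA
      by_cases h1 : (k : ℕ) < q + 2
      · rw [if_pos h1]
        by_cases h2 : (k : ℕ) ≤ i
        · rw [if_pos h2, if_pos h2, if_pos (by omega)]
        · rw [if_neg h2, if_neg h2, if_pos (by omega)]
      · rw [if_neg h1, if_neg (by omega), if_neg (by omega), if_neg (by omega)]
        congr 2
        omega
    rw [e4, e1, e2, e3, pow_succ, pow_succ]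
    ring

/-- The prism identity for an arbitrary cocycle `c`. -/
theorem prism {n : ℕ} {X Y : Type*} (c : (Fin (n + 1) → Y) → ℝ)
    (hc : ∀ y : Fin (n + 2) → Y, ∑ j : Fin (n + 2), (-1) ^ (j : ℕ) *
      c (fun i => y (j.succAbove i)) = 0) (a b : X → Y) (t : Fin (n + 1) → X) :
    ∑ j : Fin (n + 1), (-1) ^ (j : ℕ) * prismPhi c a b (fun i => t (j.succAbove i)) =
      c (fun i => b (t i)) - c (fun i => a (t i)) := by
  -- the tuples `E_i = (a t_0, ..., a t_{i-1}, b t_i, ..., b t_n)`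
  let E : ℕ → Fin (n + 1) → Y := fun i k => if (k : ℕ) < i then a (t k) else b (t k)
  have hE0 : E 0 = fun i => b (t i) := by
    funext k
    simp [E]
  have hE1 : E (n + 1) = fun i => a (t i) := by
    funext k
    simp [E, k.2]
  have hT : ∀ i : Fin (n + 1), ∑ j : Fin (n + 2), (-1) ^ (j : ℕ) *
      c (fun k => Prism_T a b t i ((j.succAbove k : Fin (n + 2)) : ℕ)) = 0 := fun i =>
    hc (fun k => Prism_T a b t i k)
  have hsplit : ∀ i : Fin (n + 1), (-1 : ℝ) ^ (i : ℕ) * (∑ j : Fin (n + 2), (-1) ^ (j : ℕ) *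
      c (fun k => Prism_T a b t i ((j.succAbove k : Fin (n + 2)) : ℕ))) =
      (c (E i) - c (E (i + 1))) + ∑ q : Fin n, (-1) ^ (i : ℕ) *
        ((-1) ^ ((i.castSucc.succAbove (i.succAbove q) : Fin (n + 2)) : ℕ) *
      c (fun k => Prism_T a b t i ((i.castSucc.succAbove (i.succAbove q)).succAbove k))) := by
    intro i
    rw [Fin.sum_univ_succAbove _ i.castSucc, Fin.sum_univ_succAbove _ i]
    have e0 : (i.castSucc.succAbove i : Fin (n + 2)) = i.succ := by
      rw [Fin.succAbove_castSucc_self]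
    have e1 : (fun k : Fin (n + 1) => Prism_T a b t i
        ((i.castSucc.succAbove k : Fin (n + 2)) : ℕ)) = E i := by
      funext k
      rw [Prism_sA_eq]
      simp only [E, Prism_T, Prism_sA, Fin.val_castSucc]
      by_cases h : (k : ℕ) < i
      · rw [if_pos h, if_pos h, if_pos (by omega), Prism_tN_coe]
      · rw [if_neg h, if_neg h, if_neg (by omega), Nat.add_sub_cancel, Prism_tN_coe]
    have e2 : (fun k : Fin (n + 1) => Prism_T a b t i
        ((i.succ.succAbove k : Fin (n + 2)) : ℕ)) = E (i + 1) := by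
      funext k
      rw [Prism_sA_eq]
      simp only [E, Prism_T, Prism_sA, Fin.val_succ]
      by_cases h : (k : ℕ) < (i : ℕ) + 1
      · rw [if_pos h, if_pos h, if_pos (by omega), Prism_tN_coe]
      · rw [if_neg h, if_neg h, if_neg (by omega), Nat.add_sub_cancel, Prism_tN_coe]
    rw [e0, e1, e2, Fin.val_castSucc, Fin.val_succ, mul_add, mul_add, Finset.mul_sum, pow_succ]
    have hs : ((-1 : ℝ) ^ (i : ℕ)) * (-1) ^ (i : ℕ) = 1 := by
      rw [← mul_pow]
      norm_num
    linear_combination (c (E i) - c (E (i + 1))) * hs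
  have htel : ∑ i : Fin (n + 1), (c (E i) - c (E (i + 1))) = c (E 0) - c (E (n + 1)) := by
    rw [Fin.sum_univ_eq_sum_range (fun i => c (E i) - c (E (i + 1))) (n + 1),
      Finset.sum_range_sub']
  have hsum : ∑ i : Fin (n + 1), ((c (E i) - c (E (i + 1))) + ∑ q : Fin n, (-1) ^ (i : ℕ) *
        ((-1) ^ ((i.castSucc.succAbove (i.succAbove q) : Fin (n + 2)) : ℕ) *
      c (fun k => Prism_T a b t i ((i.castSucc.succAbove (i.succAbove q)).succAbove k)))) = 0 := by
    rw [← Finset.sum_congr rfl fun i _ => hsplit i]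
    refine Finset.sum_eq_zero fun i _ => ?_
    rw [hT i, mul_zero]
  rw [Finset.sum_add_distrib, htel, hE0, hE1] at hsum
  have hre : ∑ i : Fin (n + 1), ∑ q : Fin n, (-1) ^ (i : ℕ) *
        ((-1) ^ ((i.castSucc.succAbove (i.succAbove q) : Fin (n + 2)) : ℕ) *
      c (fun k => Prism_T a b t i ((i.castSucc.succAbove (i.succAbove q)).succAbove k))) =
      -∑ j : Fin (n + 1), (-1) ^ (j : ℕ) * prismPhi c a b (fun i => t (j.succAbove i)) := by
    simp_rw [Prism_phi, Finset.mul_sum, ← Finset.sum_neg_distrib]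
    rw [← Finset.sum_product', ← Finset.sum_product']
    refine Finset.sum_bij' (fun x _ => (x.1.succAbove x.2, x.2.predAbove x.1))
      (fun x _ => (x.1.succAbove x.2, x.2.predAbove x.1)) (fun x _ => by simp) (fun x _ => by simp)
      ?_ ?_ ?_
    · rintro ⟨i, q⟩ _
      simp only [Fin.succAbove_succAbove_predAbove, Fin.predAbove_predAbove_succAbove]
    · rintro ⟨i, q⟩ _
      simp only [Fin.succAbove_succAbove_predAbove, Fin.predAbove_predAbove_succAbove]
    · rintro ⟨i, q⟩ _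
      exact Prism_key c a b t i q
  rw [hre] at hsum
  linarith

private theorem Prism_det_ne {n : ℕ} {Γ : Type*} [Group Γ]
    (ρ : Γ →* Matrix (Fin n) (Fin n) ℝ) (γ : Γ) : (ρ γ).det ≠ 0 := by
  have h : (ρ γ).det * (ρ γ⁻¹).det = 1 := by
    rw [← Matrix.det_mul, ← map_mul, mul_inv_cancel, map_one, Matrix.det_one]
  exact left_ne_zero_of_mul_eq_one h

theorem CC_indep {n : ℕ} {Γ X ι : Type*} [Group Γ] [MulAction Γ X] [Fintype ι]
    (ρ : Γ →* Matrix (Fin n) (Fin n) ℝ) (t : ι → Fin (n + 1) → X) (m : ι → ℝ)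
    (h : WCycle (chi ρ) t m) (μ μ' : X → (Fin n → ℝ) → ℝ)
    (hi : ∀ x, Integrable (μ x)) (hi' : ∀ x, Integrable (μ' x))
    (h1 : ∀ x, ∫ y, μ x y = 1) (h1' : ∀ x, ∫ y, μ' x y = 1)
    (he : ∀ (γ : Γ) (x : X), μ (γ • x) = push (ρ γ) (μ x))
    (he' : ∀ (γ : Γ) (x : X), μ' (γ • x) = push (ρ γ) (μ' x)) :
    ∑ k, m k * CC (fun i => μ (t k i)) = ∑ k, m k * CC (fun i => μ' (t k i)) := by
  let Y := {p : (Fin n → ℝ) → ℝ // Integrable p ∧ ∫ y, p y = 1}
  let c : (Fin (n + 1) → Y) → ℝ := fun y => CC (fun i => (y i).1)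
  let a : X → Y := fun x => ⟨μ x, hi x, h1 x⟩
  let b : X → Y := fun x => ⟨μ' x, hi' x, h1' x⟩
  have hc : ∀ y : Fin (n + 2) → Y, ∑ j : Fin (n + 2), (-1) ^ (j : ℕ) *
      c (fun i => y (j.succAbove i)) = 0 := by
    intro y
    have h2 := CC_cocycle (fun i => (y i).1) (fun i => (y i).2.1)
    rw [← h2]
    refine Finset.sum_congr rfl fun j _ => ?_
    have h3 : ∫ x, (y j).1 x = 1 := (y j).2.2
    rw [h3, one_mul]
  have hφ : ∀ (γ : Γ) (y : Fin n → X), prismPhi c a b (fun i => γ • y i) =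
      chi ρ γ * prismPhi c a b y := by
    intro γ y
    unfold prismPhi
    rw [Finset.mul_sum]
    refine Finset.sum_congr rfl fun i _ => ?_
    have e : c (fun k : Fin (n + 1) =>
        if h : (k : ℕ) ≤ i then a (γ • y ⟨k, lt_of_le_of_lt h i.2⟩)
        else b (γ • y ⟨k - 1, by omega⟩)) = chi ρ γ * c (fun k : Fin (n + 1) =>
        if h : (k : ℕ) ≤ i then a (y ⟨k, lt_of_le_of_lt h i.2⟩)
        else b (y ⟨k - 1, by omega⟩)) := by
      have e1 := CC_push (ρ γ) (Prism_det_ne ρ γ) (fun k : Fin (n + 1) =>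
        (if h : (k : ℕ) ≤ i then a (y ⟨k, lt_of_le_of_lt h i.2⟩)
        else b (y ⟨k - 1, by omega⟩) : Y).1)
      change CC _ = Real.sign (ρ γ).det * CC _
      rw [← e1]
      congr 1
      funext k
      beta_reduce
      by_cases hk : (k : ℕ) ≤ i
      · rw [dif_pos hk, dif_pos hk]
        exact he γ _
      · rw [dif_neg hk, dif_neg hk]
        exact he' γ _
    rw [e]
    ring
  have key := h (prismPhi c a b) hφ
  have h4 : ∀ k, ∑ j : Fin (n + 1), (-1) ^ (j : ℕ) *
      prismPhi c a b (fun i => t k (j.succAbove i)) =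
      CC (fun i => μ' (t k i)) - CC (fun i => μ (t k i)) := fun k => prism c hc a b (t k)
  simp_rw [h4, mul_sub, Finset.sum_sub_distrib] at key
  linarith

end Pool.Agent.ChP
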