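import Pool.Agent.ChP.Star

/-!
# Finite coverings of triangulated affine manifolds
-/

namespace Pool.Agent.ChP

open Matrix
open scoped Pointwise

namespace AffineTriangulation

variable {n : ℕ} (K : AffineTriangulation n)

/-- The finite covering given by a subgroup of finite index. -/
noncomputable def restrict (H : Subgroup K.Γ) [hH : H.FiniteIndex] : AffineTriangulation n where
  Γ := H
  V := K.V
  faces := K.faces
  nonempty_of_mem := K.nonempty_of_mem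
  singleton_mem := K.singleton_mem
  down_closed := K.down_closed
  smul_mem γ σ hσ := K.smul_mem (γ : K.Γ) σ hσ
  free γ σ hσ h := Subtype.ext (K.free (γ : K.Γ) σ hσ h)
  cocompact := by
    classical
    have : Fintype (K.Γ ⧸ H) := Fintype.ofFinite _
    obtain ⟨F, hF⟩ := K.cocompact
    refine ⟨Finset.univ.biUnion fun q : K.Γ ⧸ H => F.image fun σ => (q.out)⁻¹ • σ, ?_⟩
    intro σ hσ
    obtain ⟨γ, hγ⟩ := hF σ hσ
    have h1 : ((QuotientGroup.mk γ : K.Γ ⧸ H).out)⁻¹ * γ ∈ H := by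
      rw [← QuotientGroup.eq, QuotientGroup.out_eq']
    refine ⟨⟨_, h1⟩, ?_⟩
    rw [Finset.mem_biUnion]
    refine ⟨QuotientGroup.mk γ, Finset.mem_univ _, ?_⟩
    rw [Finset.mem_image]
    exact ⟨γ • σ, hγ, (mul_smul _ _ _).symm⟩
  dev := K.dev
  hol := K.hol.comp H.subtype
  dev_smul γ v := K.dev_smul (γ : K.Γ) v
  indep := K.indep
  local_homeo := K.local_homeo

theorem restrict_eulerChar (H : Subgroup K.Γ) [hH : H.FiniteIndex] :
    (K.restrict H).eulerChar = (H.index : ℤ) * K.eulerChar := by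
  classical
  have : Fintype (K.Γ ⧸ H) := Fintype.ofFinite _
  obtain ⟨R, hR⟩ := K.exists_reps
  have hinj : ∀ a ∈ (Finset.univ : Finset (K.Γ ⧸ H)) ×ˢ R, ∀ b ∈ (Finset.univ : Finset (K.Γ ⧸ H)) ×ˢ R,
      ∀ h1 h2 : H, (h1 : K.Γ) • ((a.1.out)⁻¹ • a.2) = (h2 : K.Γ) • ((b.1.out)⁻¹ • b.2) →
      a = b ∧ h1 = h2 := by
    rintro ⟨q1, σ1⟩ ha ⟨q2, σ2⟩ hb h1 h2 h
    simp only [Finset.mem_product, Finset.mem_univ, true_and] at ha hb
    simp only at h
    rw [← mul_smul, ← mul_smul] at h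
    have h3 := (hR.2 (((h1 : K.Γ) * (q1.out)⁻¹) • σ1) (K.smul_mem _ _ (hR.1 _ ha))).unique
      (y₁ := ((h1 : K.Γ) * (q1.out)⁻¹, σ1)) (y₂ := ((h2 : K.Γ) * (q2.out)⁻¹, σ2))
      ⟨ha, rfl⟩ ⟨hb, h.symm⟩
    have h4 : (h1 : K.Γ) * (q1.out)⁻¹ = (h2 : K.Γ) * (q2.out)⁻¹ := congrArg Prod.fst h3
    have h5 : σ1 = σ2 := congrArg Prod.snd h3
    have h6 : q1 = q2 := by
      rw [← QuotientGroup.out_eq' q1, ← QuotientGroup.out_eq' q2, QuotientGroup.eq]
      have h7 : (q1.out)⁻¹ * q2.out = (h1 : K.Γ)⁻¹ * (h2 : K.Γ) := by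
        have h8 : (q1.out)⁻¹ = (h1 : K.Γ)⁻¹ * ((h2 : K.Γ) * (q2.out)⁻¹) := by
          rw [← h4, inv_mul_cancel_left]
        rw [h8]
        group
      rw [h7]
      exact H.mul_mem (H.inv_mem h1.2) h2.2
    subst h6
    subst h5
    refine ⟨rfl, Subtype.ext ?_⟩
    exact mul_right_cancel h4
  obtain ⟨R', hR'⟩ : ∃ R' : Finset (Finset K.V), R' =
    ((Finset.univ : Finset (K.Γ ⧸ H)) ×ˢ R).image (fun a => (a.1.out)⁻¹ • a.2) := ⟨_, rfl⟩
  have hmem : ∀ A : Finset K.V, A ∈ R' ↔ ∃ a ∈ (Finset.univ : Finset (K.Γ ⧸ H)) ×ˢ R,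
      (a.1.out)⁻¹ • a.2 = A := by
    intro A
    rw [hR', Finset.mem_image]
  have hReps : (K.restrict H).Reps R' := by
    refine ⟨?_, ?_⟩
    · intro σ hσ
      obtain ⟨a, ha, rfl⟩ := (hmem σ).1 hσ
      rw [Finset.mem_product] at ha
      exact K.smul_mem _ _ (hR.1 _ ha.2)
    · intro τ hτ
      obtain ⟨⟨γ, σ⟩, ⟨hσ, hγ⟩, -⟩ := hR.2 τ hτ
      simp only at hσ hγ
      set q : K.Γ ⧸ H := QuotientGroup.mk γ⁻¹ with hq
      have h1 : (q.out)⁻¹ * γ⁻¹ ∈ H := by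
        rw [← QuotientGroup.eq, QuotientGroup.out_eq']
      have h2 : γ * q.out ∈ H := by
        have := H.inv_mem h1
        rwa [_root_.mul_inv_rev, inv_inv, inv_inv] at this
      refine ⟨((⟨γ * q.out, h2⟩ : H), (q.out)⁻¹ • σ), ⟨?_, ?_⟩, ?_⟩
      · exact (hmem _).2 ⟨(q, σ), Finset.mem_product.2 ⟨Finset.mem_univ _, hσ⟩, rfl⟩
      · show (γ * q.out) • ((q.out)⁻¹ • σ) = τ
        rw [← mul_smul, mul_assoc, mul_inv_cancel, mul_one, hγ]
      · rintro ⟨(h' : H), (A : Finset K.V)⟩ ⟨hA, hA2⟩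
        obtain ⟨a, ha, rfl⟩ := (hmem A).1 hA
        have h3 := hinj a ha (q, σ) (Finset.mem_product.2 ⟨Finset.mem_univ _, hσ⟩) h'
          ⟨γ * q.out, h2⟩ (by
            have h4 : (h' : K.Γ) • ((a.1.out)⁻¹ • a.2) = τ := hA2
            rw [h4]
            show τ = (γ * q.out) • ((q.out)⁻¹ • σ)
            rw [← mul_smul, mul_assoc, mul_inv_cancel, mul_one, hγ])
        obtain ⟨h5, h6⟩ := h3
        rw [h5, h6]
  have hsum : ∑ σ ∈ R', (-1 : ℤ) ^ (σ.card + 1) =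
      (H.index : ℤ) * ∑ σ ∈ R, (-1 : ℤ) ^ (σ.card + 1) := by
    rw [hR', Finset.sum_image, Finset.sum_product]
    · have h1 : ∀ q : K.Γ ⧸ H, ∑ σ ∈ R, (-1 : ℤ) ^ (((q.out)⁻¹ • σ).card + 1) =
          ∑ σ ∈ R, (-1 : ℤ) ^ (σ.card + 1) := by
        intro q
        refine Finset.sum_congr rfl fun σ _ => ?_
        rw [Finset.card_smul_finset]
      have h2 : ∑ q : K.Γ ⧸ H, ∑ σ ∈ R, (-1 : ℤ) ^ (((q.out)⁻¹ • σ).card + 1) =
          ∑ q : K.Γ ⧸ H, ∑ σ ∈ R, (-1 : ℤ) ^ (σ.card + 1) :=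
        Finset.sum_congr rfl fun q _ => h1 q
      have h3 : (H.index : ℤ) = (Fintype.card (K.Γ ⧸ H) : ℤ) := by
        rw [Subgroup.index, Nat.card_eq_fintype_card]
      rw [h3]
      refine h2.trans ?_
      rw [Finset.sum_const, Finset.card_univ, nsmul_eq_mul]
    · intro a ha b hb hab
      exact (hinj a ha b hb 1 1 (by
        show (1 : K.Γ) • _ = (1 : K.Γ) • _
        rw [one_smul, one_smul]
        exact hab)).1
  rw [K.eulerChar_eq hR, ← hsum]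
  exact (K.restrict H).eulerChar_eq hReps

end AffineTriangulation

end Pool.Agent.ChP
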