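import Pool.Agent.ChP.Defs

/-!
# Algebra of the elementary Euler cocycle

`tco s i` is the determinant of the `(n+1) × (n+1)` matrix whose rows are `(δ_{ij}, s_j)`,
`j = 0, ..., n` (expansion along the first column); more generally
`∑ i, c i * tco s i = det (c_j, s_j)_j`.  This gives the behaviour under permutations, and
`∑ i, tco s i • s i = 0` (repeated columns).

Cocycle identity.  For `n + 2` vectors put, for `k < j`, `a k j = (-1)^(k+j) * det` (the rows
without `k` and `j`), `a j k = - a k j`.  Then, for the tuple `s ∘ j.succAbove`, the signed minor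
belonging to the vector `s k` is `(-1)^j * a k j` (check the two cases `k < j`, `k > j`).  Hence
`(-1)^j * eps (s ∘ j.succAbove) = [a k j > 0 for all k ≠ j] - [a k j < 0 for all k ≠ j]`
for both parities of `j`.  Say `k ≺ j` iff `a k j > 0`; all `a k j` are non-zero by the genericity
hypothesis.  At most one `j` is a top (all `k ≺ j`), at most one is a bottom.  If `j` is a top,
the three term Plücker relation `a k m * a l j = a l m * a k j + a m j * a k l` shows that
`x k l = a k l / (a k j * a l j)` satisfies `x k m = x k l + x l m`, so `≺` restricted to the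
indices different from `j` is a (strict) total order, and its smallest element is a bottom.
Symmetrically a bottom gives a top.  So the sum is `0`.  Plücker relation: for each `j` the vector
`(a k j)_k` is a linear relation between the `s k` (Cramer), the relation
`r_m - (a l m / a l j) r_j - (a j m / a j l) r_l` has zero coefficients at `j` and `l`, hence is a
relation between `n` linearly independent vectors, so it is `0`; look at coordinate `k`.
-/

namespace Pool.Agent.ChP

open MeasureTheory Matrix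

private theorem EpsAlg_pn {a b : ℝ} (ha : 0 < a) : a * b < 0 ↔ b < 0 := by
  constructor
  · intro h
    by_contra hb
    exact absurd h (not_lt.2 (mul_nonneg ha.le (not_lt.1 hb)))
  · exact fun h => mul_neg_of_pos_of_neg ha h

private theorem EpsAlg_np {a b : ℝ} (ha : a < 0) : 0 < a * b ↔ b < 0 := by
  constructor
  · intro h
    by_contra hb
    exact absurd h (not_lt.2 (mul_nonpos_of_nonpos_of_nonneg ha.le (not_lt.1 hb)))
  · exact fun h => mul_pos_of_neg_of_neg ha h

private theorem EpsAlg_nn {a b : ℝ} (ha : a < 0) : a * b < 0 ↔ 0 < b := by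
  constructor
  · intro h
    by_contra hb
    exact absurd h (not_lt.2 (mul_nonneg_of_nonpos_of_nonpos ha.le (not_lt.1 hb)))
  · exact fun h => mul_neg_of_neg_of_pos ha h

private theorem EpsAlg_sum {n : ℕ} (c : Fin (n + 1) → ℝ) (s : Fin (n + 1) → Fin n → ℝ) :
    Matrix.det (Matrix.of fun i : Fin (n + 1) => (Fin.cons (c i) (s i) : Fin (n + 1) → ℝ)) =
      ∑ i, c i * tco s i := by
  rw [Matrix.det_succ_column_zero]
  refine Finset.sum_congr rfl fun i _ => ?_
  unfold tco
  have h1 : (Matrix.of fun i : Fin (n + 1) => (Fin.cons (c i) (s i) : Fin (n + 1) → ℝ)) i 0 = c i :=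
    rfl
  have h2 : (Matrix.of fun i : Fin (n + 1) => (Fin.cons (c i) (s i) : Fin (n + 1) → ℝ)).submatrix
      i.succAbove Fin.succ = Matrix.of fun a b : Fin n => s (i.succAbove a) b := by
    ext a b
    rfl
  rw [h1, h2]
  ring

private theorem EpsAlg_rel {n : ℕ} (s : Fin (n + 1) → Fin n → ℝ) (b : Fin n) :
    ∑ i, s i b * tco s i = 0 := by
  rw [← EpsAlg_sum (fun i => s i b) s]
  refine Matrix.det_zero_of_column_eq (i := 0) (j := b.succ) (Fin.succ_ne_zero b).symm ?_
  intro k
  rfl

theorem eps_smul {n : ℕ} (c : Fin (n + 1) → ℝ) (hc : ∀ i, 0 < c i) (s : Fin (n + 1) → Fin n → ℝ) :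
    eps (fun i => c i • s i) = eps s := by
  have h : ∀ i, tco (fun i => c i • s i) i = (∏ a : Fin n, c (i.succAbove a)) * tco s i := by
    intro i
    unfold tco
    have h1 : (Matrix.of fun a b : Fin n => (c (i.succAbove a) • s (i.succAbove a)) b) =
        Matrix.of fun a b : Fin n => c (i.succAbove a) *
          (Matrix.of fun a b : Fin n => s (i.succAbove a) b) a b := by
      ext a b
      rfl
    rw [h1, Matrix.det_mul_column]
    ring
  have hp : ∀ i : Fin (n + 1), 0 < ∏ a : Fin n, c (i.succAbove a) := fun i =>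
    Finset.prod_pos fun a _ => hc _
  have e1 : (∀ i, 0 < tco (fun i => c i • s i) i) ↔ ∀ i, 0 < tco s i := by
    refine forall_congr' fun i => ?_
    rw [h i]
    exact mul_pos_iff_of_pos_left (hp i)
  have e2 : (∀ i, tco (fun i => c i • s i) i < 0) ↔ ∀ i, tco s i < 0 := by
    refine forall_congr' fun i => ?_
    rw [h i]
    exact EpsAlg_pn (hp i)
  unfold eps
  simp only [e1, e2]

theorem eps_mulVec {n : ℕ} (g : Matrix (Fin n) (Fin n) ℝ) (s : Fin (n + 1) → Fin n → ℝ) :
    eps (fun i => g *ᵥ s i) = Real.sign g.det * eps s := by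
  have h : ∀ i, tco (fun i => g *ᵥ s i) i = g.det * tco s i := by
    intro i
    unfold tco
    have h1 : (Matrix.of fun a b : Fin n => (g *ᵥ s (i.succAbove a)) b) =
        (Matrix.of fun a b : Fin n => s (i.succAbove a) b) * gᵀ := by
      ext a b
      simp only [Matrix.of_apply, Matrix.mulVec, dotProduct, Matrix.mul_apply,
        Matrix.transpose_apply]
      exact Finset.sum_congr rfl fun x _ => mul_comm _ _
    rw [h1, Matrix.det_mul, Matrix.det_transpose]
    ring
  rcases lt_trichotomy g.det 0 with hg | hg | hg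
  · have e1 : (∀ i, 0 < tco (fun i => g *ᵥ s i) i) ↔ ∀ i, tco s i < 0 := by
      refine forall_congr' fun i => ?_
      rw [h i]
      exact EpsAlg_np hg
    have e2 : (∀ i, tco (fun i => g *ᵥ s i) i < 0) ↔ ∀ i, 0 < tco s i := by
      refine forall_congr' fun i => ?_
      rw [h i]
      exact EpsAlg_nn hg
    unfold eps
    simp only [e1, e2]
    rw [Real.sign_of_neg hg]
    ring
  · have e1 : ¬ (∀ i, 0 < tco (fun i => g *ᵥ s i) i) := by
      intro h0
      have := h0 0
      rw [h 0, hg, zero_mul] at this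
      exact lt_irrefl _ this
    have e2 : ¬ (∀ i, tco (fun i => g *ᵥ s i) i < 0) := by
      intro h0
      have := h0 0
      rw [h 0, hg, zero_mul] at this
      exact lt_irrefl _ this
    rw [hg, Real.sign_zero, zero_mul]
    unfold eps
    rw [if_neg e1, if_neg e2, sub_zero]
  · have e1 : (∀ i, 0 < tco (fun i => g *ᵥ s i) i) ↔ ∀ i, 0 < tco s i := by
      refine forall_congr' fun i => ?_
      rw [h i]
      exact mul_pos_iff_of_pos_left hg
    have e2 : (∀ i, tco (fun i => g *ᵥ s i) i < 0) ↔ ∀ i, tco s i < 0 := by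
      refine forall_congr' fun i => ?_
      rw [h i]
      exact EpsAlg_pn hg
    unfold eps
    simp only [e1, e2]
    rw [Real.sign_of_pos hg, one_mul]

private theorem EpsAlg_perm {n : ℕ} (σ : Equiv.Perm (Fin (n + 1))) (s : Fin (n + 1) → Fin n → ℝ)
    (i : Fin (n + 1)) :
    tco (fun i => s (σ i)) i = ((Equiv.Perm.sign σ : ℤ) : ℝ) * tco s (σ i) := by
  have h1 : tco (fun i => s (σ i)) i =
      ∑ k, (if k = i then 1 else 0) * tco (fun i => s (σ i)) k := by
    simp
  have h2 : tco s (σ i) = ∑ k, (if σ.symm k = i then 1 else 0) * tco s k := by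
    rw [Finset.sum_eq_single (σ i)]
    · simp
    · intro k _ hk
      rw [if_neg, zero_mul]
      intro h0
      exact hk (by rw [← h0, Equiv.apply_symm_apply])
    · intro h0
      exact absurd (Finset.mem_univ _) h0
  rw [h1, h2, ← EpsAlg_sum, ← EpsAlg_sum]
  have h3 : (Matrix.of fun k : Fin (n + 1) =>
      (Fin.cons (if k = i then (1 : ℝ) else 0) (s (σ k)) : Fin (n + 1) → ℝ)) =
      (Matrix.of fun k : Fin (n + 1) =>
        (Fin.cons (if σ.symm k = i then (1 : ℝ) else 0) (s k) : Fin (n + 1) → ℝ)).submatrix σ id := by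
    ext a b
    simp only [Matrix.of_apply, Matrix.submatrix_apply, id, Equiv.symm_apply_apply]
  rw [h3, Matrix.det_permute]

theorem eps_perm {n : ℕ} (σ : Equiv.Perm (Fin (n + 1))) (s : Fin (n + 1) → Fin n → ℝ) :
    eps (fun i => s (σ i)) = ((Equiv.Perm.sign σ : ℤ) : ℝ) * eps s := by
  have h := EpsAlg_perm σ s
  rcases Int.units_eq_one_or (Equiv.Perm.sign σ) with hs | hs
  · rw [hs] at h ⊢
    simp only [Units.val_one, Int.cast_one, one_mul] at h ⊢
    have e1 : (∀ i, 0 < tco (fun i => s (σ i)) i) ↔ ∀ i, 0 < tco s i := by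
      simp only [h]
      exact ⟨fun h0 i => by simpa using h0 (σ.symm i), fun h0 i => h0 _⟩
    have e2 : (∀ i, tco (fun i => s (σ i)) i < 0) ↔ ∀ i, tco s i < 0 := by
      simp only [h]
      exact ⟨fun h0 i => by simpa using h0 (σ.symm i), fun h0 i => h0 _⟩
    unfold eps
    simp only [e1, e2]
  · rw [hs] at h ⊢
    simp only [Units.val_neg, Units.val_one, Int.cast_neg, Int.cast_one, neg_mul, one_mul] at h ⊢
    have e1 : (∀ i, 0 < tco (fun i => s (σ i)) i) ↔ ∀ i, tco s i < 0 := by
      simp only [h, Left.neg_pos_iff]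
      exact ⟨fun h0 i => by simpa using h0 (σ.symm i), fun h0 i => h0 _⟩
    have e2 : (∀ i, tco (fun i => s (σ i)) i < 0) ↔ ∀ i, 0 < tco s i := by
      simp only [h, Left.neg_neg_iff]
      exact ⟨fun h0 i => by simpa using h0 (σ.symm i), fun h0 i => h0 _⟩
    unfold eps
    simp only [e1, e2]
    ring

private theorem EpsAlg_cons_zero {n : ℕ} (x : Fin n → ℝ) (s : Fin n → Fin n → ℝ) :
    tco (Fin.cons x s : Fin (n + 1) → Fin n → ℝ) 0 = Matrix.det (Matrix.of s) := by
  unfold tco
  rw [Fin.val_zero, pow_zero, one_mul]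
  congr 1

theorem eps_cons_of_det_eq_zero {n : ℕ} (x : Fin n → ℝ) (s : Fin n → Fin n → ℝ)
    (h : Matrix.det (Matrix.of s) = 0) :
    eps (Fin.cons x s : Fin (n + 1) → Fin n → ℝ) = 0 := by
  have h0 := EpsAlg_cons_zero x s
  rw [h] at h0
  unfold eps
  rw [if_neg, if_neg, sub_zero]
  · intro h1
    have := h1 0
    rw [h0] at this
    exact lt_irrefl _ this
  · intro h1
    have := h1 0
    rw [h0] at this
    exact lt_irrefl _ this

theorem eps_cons {n : ℕ} (s : Fin n → Fin n → ℝ) (u : Fin n → ℝ) :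
    eps (Fin.cons (-(∑ i, u i • s i)) s : Fin (n + 1) → Fin n → ℝ) =
      if ∀ i, 0 < u i then Real.sign (Matrix.det (Matrix.of s)) else 0 := by
  by_cases hd : Matrix.det (Matrix.of s) = 0
  · rw [eps_cons_of_det_eq_zero _ _ hd, hd, Real.sign_zero, ite_self]
  set S : Fin (n + 1) → Fin n → ℝ := Fin.cons (-(∑ i, u i • s i)) s with hS
  have h0 : tco S 0 = Matrix.det (Matrix.of s) := EpsAlg_cons_zero _ s
  have h1 : ∀ j : Fin n, tco S j.succ = u j * Matrix.det (Matrix.of s) := by
    have h2 : (fun j : Fin n => tco S j.succ - u j * tco S 0) ᵥ* (Matrix.of s) = 0 := by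
      ext b
      have h3 := EpsAlg_rel S b
      rw [Fin.sum_univ_succ] at h3
      have h4 : S 0 b = -(∑ i, u i * s i b) := by
        rw [hS, Fin.cons_zero, Pi.neg_apply, Finset.sum_apply]
        rfl
      have h5 : ∀ j : Fin n, S j.succ b = s j b := fun j => by rw [hS, Fin.cons_succ]
      rw [h4] at h3
      simp only [h5] at h3
      simp only [Matrix.vecMul, dotProduct, Matrix.of_apply, Pi.zero_apply, sub_mul,
        Finset.sum_sub_distrib]
      have h6 : ∑ x, u x * tco S 0 * s x b = (∑ i, u i * s i b) * tco S 0 := by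
        rw [Finset.sum_mul]
        exact Finset.sum_congr rfl fun x _ => by ring
      have h7 : ∑ x : Fin n, tco S x.succ * s x b = ∑ x : Fin n, s x b * tco S x.succ :=
        Finset.sum_congr rfl fun x _ => mul_comm _ _
      rw [h6, h7]
      linarith
    have h3 := Matrix.eq_zero_of_vecMul_eq_zero hd h2
    intro j
    have h4 := congrFun h3 j
    simp only [Pi.zero_apply] at h4
    rw [h0] at h4
    linarith
  rcases lt_or_gt_of_ne hd with hg | hg
  · have e1 : ¬ (∀ i, 0 < tco S i) := by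
      intro h2
      have := h2 0
      rw [h0] at this
      exact lt_asymm this hg
    have e2 : (∀ i, tco S i < 0) ↔ ∀ i, 0 < u i := by
      constructor
      · intro h2 i
        have := h2 i.succ
        rw [h1 i] at this
        exact (EpsAlg_nn hg).1 (by rwa [mul_comm] at this)
      · intro h2 i
        refine Fin.cases ?_ (fun j => ?_) i
        · rw [h0]; exact hg
        · rw [h1 j]; exact mul_neg_of_pos_of_neg (h2 j) hg
    unfold eps
    simp only [e2]
    rw [if_neg e1, Real.sign_of_neg hg]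
    split_ifs <;> simp
  · have e1 : ¬ (∀ i, tco S i < 0) := by
      intro h2
      have := h2 0
      rw [h0] at this
      exact lt_asymm this hg
    have e2 : (∀ i, 0 < tco S i) ↔ ∀ i, 0 < u i := by
      constructor
      · intro h2 i
        have := h2 i.succ
        rw [h1 i] at this
        exact (mul_pos_iff_of_pos_right hg).1 this
      · intro h2 i
        refine Fin.cases ?_ (fun j => ?_) i
        · rw [h0]; exact hg
        · rw [h1 j]; exact mul_pos (h2 j) hg
    unfold eps
    simp only [e2]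
    rw [if_neg e1, Real.sign_of_pos hg]
    simp

theorem abs_eps_le {n : ℕ} (s : Fin (n + 1) → Fin n → ℝ) : |eps s| ≤ 1 := by
  unfold eps
  split_ifs <;> norm_num

theorem measurable_eps {n : ℕ} : Measurable (eps : (Fin (n + 1) → Fin n → ℝ) → ℝ) := by
  have h : ∀ i : Fin (n + 1), Continuous fun s : Fin (n + 1) → Fin n → ℝ => tco s i := by
    intro i
    unfold tco
    refine continuous_const.mul (Continuous.matrix_det ?_)
    exact continuous_pi fun a => continuous_pi fun b =>
      (continuous_apply b).comp (continuous_apply (i.succAbove a))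
  unfold eps
  refine Measurable.sub (Measurable.ite ?_ measurable_const measurable_const)
    (Measurable.ite ?_ measurable_const measurable_const)
  · have : {s : Fin (n + 1) → Fin n → ℝ | ∀ i, 0 < tco s i} = ⋂ i, {s | 0 < tco s i} := by
      ext s; simp
    rw [this]
    exact MeasurableSet.iInter fun i => (isOpen_lt continuous_const (h i)).measurableSet
  · have : {s : Fin (n + 1) → Fin n → ℝ | ∀ i, tco s i < 0} = ⋂ i, {s | tco s i < 0} := by
      ext s; simp
    rw [this]
    exact MeasurableSet.iInter fun i => (isOpen_lt (h i) continuous_const).measurableSet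


/-- The combinatorial core: a rank two alternating form has a top iff it has a bottom. -/
private theorem EpsAlg_comb {N : ℕ} (B : Fin N → Fin N → ℝ) (hN : 2 ≤ N)
    (anti : ∀ j k, B j k = -B k j) (ne : ∀ j k, j ≠ k → B j k ≠ 0)
    (pl : ∀ j k p q, B p q * B j k = B j q * B p k - B j p * B q k)
    (h : ∃ j, ∀ k, k ≠ j → 0 < B j k) : ∃ b, ∀ k, k ≠ b → B b k < 0 := by
  obtain ⟨j, hj⟩ := h
  have hne : (Finset.univ.filter fun k : Fin N => k ≠ j).Nonempty := by
    have : Nontrivial (Fin N) := Fin.nontrivial_iff_two_le.2 hN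
    obtain ⟨k, hk⟩ := exists_ne j
    exact ⟨k, Finset.mem_filter.2 ⟨Finset.mem_univ _, hk⟩⟩
  obtain ⟨l, hl0⟩ := hne
  have hl : l ≠ j := (Finset.mem_filter.1 hl0).2
  obtain ⟨b, hb0, hb1⟩ := Finset.exists_min_image (Finset.univ.filter fun k : Fin N => k ≠ j)
    (fun k => B k l / B j k) ⟨l, hl0⟩
  have hb : b ≠ j := (Finset.mem_filter.1 hb0).2
  refine ⟨b, fun k hk => ?_⟩
  by_cases hkj : k = j
  · rw [hkj, anti]
    exact neg_neg_of_pos (hj b hb)
  · have h1 : B b l / B j b ≤ B k l / B j k :=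
      hb1 k (Finset.mem_filter.2 ⟨Finset.mem_univ _, hkj⟩)
    rw [div_le_div_iff₀ (hj b hb) (hj k hkj)] at h1
    -- numerator
    have h2 := pl k l j b
    have h3 := anti k b
    have h4 : B b k * B j l ≤ 0 := by
      have e1 := anti k j
      rw [e1, h3] at h2
      nlinarith
    have h5 : B b k ≤ 0 := by
      by_contra h6
      exact absurd h4 (not_le.2 (mul_pos (not_le.1 h6) (hj l hl)))
    exact lt_of_le_of_ne h5 (ne b k hk.symm)

private theorem EpsAlg_count {N : ℕ} (B : Fin N → Fin N → ℝ) (hN : 2 ≤ N)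
    (anti : ∀ j k, B j k = -B k j) (ne : ∀ j k, j ≠ k → B j k ≠ 0)
    (pl : ∀ j k p q, B p q * B j k = B j q * B p k - B j p * B q k) :
    ∑ j, ((if ∀ k, k ≠ j → 0 < B j k then (1 : ℝ) else 0) -
      (if ∀ k, k ≠ j → B j k < 0 then 1 else 0)) = 0 := by
  have hsum : ∀ P : Fin N → Prop, ∀ _ : DecidablePred P, (∀ i j, P i → P j → i = j) →
      ∑ j, (if P j then (1 : ℝ) else 0) = if ∃ j, P j then 1 else 0 := by
    intro P _ hP
    by_cases h : ∃ j, P j
    · obtain ⟨j, hj⟩ := h
      rw [if_pos ⟨j, hj⟩, Finset.sum_eq_single j]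
      · rw [if_pos hj]
      · intro i _ hi
        rw [if_neg fun h0 => hi (hP _ _ h0 hj)]
      · intro h0
        exact absurd (Finset.mem_univ _) h0
    · rw [if_neg h]
      exact Finset.sum_eq_zero fun j _ => if_neg fun h0 => h ⟨j, h0⟩
  rw [Finset.sum_sub_distrib, hsum, hsum]
  · have h1 := EpsAlg_comb B hN anti ne pl
    have h2 := EpsAlg_comb (fun j k => -B j k) hN (fun j k => by rw [anti j k])
      (fun j k hjk => neg_ne_zero.2 (ne j k hjk))
      (fun j k p q => by have := pl j k p q; linarith)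
    by_cases h : ∃ j, ∀ k, k ≠ j → 0 < B j k
    · rw [if_pos h, if_pos (h1 h), sub_self]
    · rw [if_neg h, if_neg, sub_zero]
      rintro ⟨b, hb⟩
      apply h
      obtain ⟨c, hc⟩ := h2 ⟨b, fun k hk => by simpa using hb k hk⟩
      exact ⟨c, fun k hk => by simpa using hc k hk⟩
  · intro i j hi hj
    by_contra hij
    have := hi j (fun h => hij h.symm)
    have h2 := hj i hij
    rw [anti] at h2
    linarith
  · intro i j hi hj
    by_contra hij
    have := hi j (fun h => hij h.symm)
    have h2 := hj i hij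
    rw [anti] at h2
    linarith

private noncomputable def EpsAlg_D {n : ℕ} (s : Fin (n + 2) → Fin n → ℝ)
    (c d : Fin (n + 2) → ℝ) : ℝ :=
  Matrix.det (Matrix.of fun i : Fin (n + 2) =>
    (Fin.cons (c i) (Fin.cons (d i) (s i) : Fin (n + 1) → ℝ) : Fin (n + 2) → ℝ))

private theorem EpsAlg_D_single {n : ℕ} (s : Fin (n + 2) → Fin n → ℝ) (j : Fin (n + 2))
    (d : Fin (n + 2) → ℝ) :
    EpsAlg_D s (Pi.single j 1) d =
      (-1) ^ (j : ℕ) * ∑ i, d (j.succAbove i) * tco (fun a => s (j.succAbove a)) i := by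
  unfold EpsAlg_D
  rw [Matrix.det_succ_column_zero, Finset.sum_eq_single j]
  · have h1 : (Matrix.of fun i : Fin (n + 2) =>
        (Fin.cons ((Pi.single j (1 : ℝ) : Fin (n + 2) → ℝ) i)
          (Fin.cons (d i) (s i) : Fin (n + 1) → ℝ) : Fin (n + 2) → ℝ)) j 0 = 1 := by
      simp
    have h2 : (Matrix.of fun i : Fin (n + 2) =>
        (Fin.cons ((Pi.single j (1 : ℝ) : Fin (n + 2) → ℝ) i)
          (Fin.cons (d i) (s i) : Fin (n + 1) → ℝ) : Fin (n + 2) → ℝ)).submatrix
        j.succAbove Fin.succ = Matrix.of fun i : Fin (n + 1) =>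
          (Fin.cons (d (j.succAbove i)) (s (j.succAbove i)) : Fin (n + 1) → ℝ) := by
      ext a b
      rfl
    rw [h1, h2, EpsAlg_sum (fun i => d (j.succAbove i)) (fun a => s (j.succAbove a)), mul_one]
  · intro i _ hi
    have h1 : (Matrix.of fun i : Fin (n + 2) =>
        (Fin.cons ((Pi.single j (1 : ℝ) : Fin (n + 2) → ℝ) i)
          (Fin.cons (d i) (s i) : Fin (n + 1) → ℝ) : Fin (n + 2) → ℝ)) i 0 = 0 := by
      simp [Pi.single_apply, hi]
    rw [h1, mul_zero, zero_mul]
  · intro h
    exact absurd (Finset.mem_univ _) h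

private theorem EpsAlg_D_anti {n : ℕ} (s : Fin (n + 2) → Fin n → ℝ) (c d : Fin (n + 2) → ℝ) :
    EpsAlg_D s c d = -EpsAlg_D s d c := by
  have h1 : (Matrix.of fun i : Fin (n + 2) =>
      (Fin.cons (c i) (Fin.cons (d i) (s i) : Fin (n + 1) → ℝ) : Fin (n + 2) → ℝ)) =
      (Matrix.of fun i : Fin (n + 2) =>
      (Fin.cons (d i) (Fin.cons (c i) (s i) : Fin (n + 1) → ℝ) : Fin (n + 2) → ℝ)).submatrix id
        (Equiv.swap (0 : Fin (n + 2)) 1) := by
    ext i j
    simp only [Matrix.submatrix_apply, id, Matrix.of_apply]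
    refine Fin.cases ?_ (fun j => ?_) j
    · rw [Equiv.swap_apply_left]
      rfl
    · refine Fin.cases ?_ (fun j => ?_) j
      · have : (Fin.succ (0 : Fin (n + 1))) = 1 := rfl
        rw [this, Equiv.swap_apply_right]
        rfl
      · rw [Equiv.swap_apply_of_ne_of_ne]
        · rfl
        · exact Fin.succ_ne_zero _
        · intro h
          have : (Fin.succ (0 : Fin (n + 1))) = 1 := rfl
          rw [← this, Fin.succ_inj] at h
          exact Fin.succ_ne_zero _ h
  unfold EpsAlg_D
  rw [h1, Matrix.det_permute', Equiv.Perm.sign_swap (by simp)]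
  simp

private theorem EpsAlg_D_col {n : ℕ} (s : Fin (n + 2) → Fin n → ℝ) (c : Fin (n + 2) → ℝ)
    (b : Fin n) : EpsAlg_D s c (fun k => s k b) = 0 := by
  unfold EpsAlg_D
  refine Matrix.det_zero_of_column_eq (i := 1) (j := b.succ.succ) ?_ ?_
  · intro h
    have : (Fin.succ (0 : Fin (n + 1))) = 1 := rfl
    rw [← this, Fin.succ_inj] at h
    exact (Fin.succ_ne_zero _) h.symm
  · intro k
    rfl

private noncomputable def EpsAlg_B {n : ℕ} (s : Fin (n + 2) → Fin n → ℝ)
    (j k : Fin (n + 2)) : ℝ := EpsAlg_D s (Pi.single j 1) (Pi.single k 1)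

private theorem EpsAlg_B_anti {n : ℕ} (s : Fin (n + 2) → Fin n → ℝ) (j k : Fin (n + 2)) :
    EpsAlg_B s j k = -EpsAlg_B s k j := EpsAlg_D_anti _ _ _

private theorem EpsAlg_B_self {n : ℕ} (s : Fin (n + 2) → Fin n → ℝ) (j : Fin (n + 2)) :
    EpsAlg_B s j j = 0 := by
  have := EpsAlg_B_anti s j j
  linarith

private theorem EpsAlg_B_succ {n : ℕ} (s : Fin (n + 2) → Fin n → ℝ) (j : Fin (n + 2))
    (i : Fin (n + 1)) :
    EpsAlg_B s j (j.succAbove i) = (-1) ^ (j : ℕ) * tco (fun a => s (j.succAbove a)) i := by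
  unfold EpsAlg_B
  rw [EpsAlg_D_single, Finset.sum_eq_single i]
  · simp
  · intro a _ ha
    rw [Pi.single_apply, if_neg, zero_mul]
    intro h
    exact ha (Fin.succAbove_right_injective h)
  · intro h
    exact absurd (Finset.mem_univ _) h

private theorem EpsAlg_B_sum {n : ℕ} (s : Fin (n + 2) → Fin n → ℝ) (j : Fin (n + 2))
    (d : Fin (n + 2) → ℝ) : ∑ k, EpsAlg_B s j k * d k = EpsAlg_D s (Pi.single j 1) d := by
  rw [EpsAlg_D_single, Fin.sum_univ_succAbove _ j, EpsAlg_B_self, zero_mul, zero_add,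
    Finset.mul_sum]
  refine Finset.sum_congr rfl fun i _ => ?_
  rw [EpsAlg_B_succ]
  ring

private theorem EpsAlg_B_rel {n : ℕ} (s : Fin (n + 2) → Fin n → ℝ) (j : Fin (n + 2)) (b : Fin n) :
    ∑ k, EpsAlg_B s j k * s k b = 0 := by
  rw [EpsAlg_B_sum s j (fun k => s k b), EpsAlg_D_col]

private theorem EpsAlg_rel_zero {n : ℕ} (s : Fin (n + 2) → Fin n → ℝ)
    (h : ∀ e : Fin n ↪o Fin (n + 2), Matrix.det (Matrix.of fun a b => s (e a) b) ≠ 0)
    (r : Fin (n + 2) → ℝ) (hr : ∀ b, ∑ k, r k * s k b = 0) (p q : Fin (n + 2)) (hpq : p ≠ q)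
    (hp : r p = 0) (hq : r q = 0) (k : Fin (n + 2)) : r k = 0 := by
  obtain ⟨i, rfl⟩ := Fin.exists_succAbove_eq hpq.symm
  have hd := h ((Fin.succAboveOrderEmb i).trans (Fin.succAboveOrderEmb p))
  have h1 : (fun a : Fin n => r (p.succAbove (i.succAbove a))) ᵥ*
      (Matrix.of fun a b : Fin n => s (p.succAbove (i.succAbove a)) b) = 0 := by
    ext b
    have h2 := hr b
    rw [Fin.sum_univ_succAbove _ p, hp, zero_mul, zero_add, Fin.sum_univ_succAbove _ i, hq,
      zero_mul, zero_add] at h2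
    simpa [Matrix.vecMul, dotProduct] using h2
  have h3 := Matrix.eq_zero_of_vecMul_eq_zero hd h1
  by_cases hk : k = p
  · rw [hk, hp]
  · obtain ⟨i', rfl⟩ := Fin.exists_succAbove_eq hk
    by_cases hi : i' = i
    · rw [hi, hq]
    · obtain ⟨a, rfl⟩ := Fin.exists_succAbove_eq hi
      exact congrFun h3 a

private theorem EpsAlg_pl {n : ℕ} (s : Fin (n + 2) → Fin n → ℝ)
    (h : ∀ e : Fin n ↪o Fin (n + 2), Matrix.det (Matrix.of fun a b => s (e a) b) ≠ 0)
    (j k p q : Fin (n + 2)) :
    EpsAlg_B s p q * EpsAlg_B s j k =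
      EpsAlg_B s j q * EpsAlg_B s p k - EpsAlg_B s j p * EpsAlg_B s q k := by
  by_cases hpq : p = q
  · rw [hpq, EpsAlg_B_self]
    ring
  have h1 := EpsAlg_rel_zero s h (fun k => EpsAlg_B s p q * EpsAlg_B s j k -
    EpsAlg_B s j q * EpsAlg_B s p k + EpsAlg_B s j p * EpsAlg_B s q k) ?_ p q hpq ?_ ?_ k
  · linarith
  · intro b
    have e1 := EpsAlg_B_rel s j b
    have e2 := EpsAlg_B_rel s p b
    have e3 := EpsAlg_B_rel s q b
    have e4 : ∑ k, (EpsAlg_B s p q * EpsAlg_B s j k - EpsAlg_B s j q * EpsAlg_B s p k +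
        EpsAlg_B s j p * EpsAlg_B s q k) * s k b =
        EpsAlg_B s p q * ∑ k, EpsAlg_B s j k * s k b -
        EpsAlg_B s j q * ∑ k, EpsAlg_B s p k * s k b +
        EpsAlg_B s j p * ∑ k, EpsAlg_B s q k * s k b := by
      rw [Finset.mul_sum, Finset.mul_sum, Finset.mul_sum, ← Finset.sum_sub_distrib,
        ← Finset.sum_add_distrib]
      exact Finset.sum_congr rfl fun k _ => by ring
    rw [e4, e1, e2, e3]
    ring
  · simp only [EpsAlg_B_self]
    rw [EpsAlg_B_anti s q p]
    ring
  · simp only [EpsAlg_B_self]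
    ring

theorem eps_cocycle {n : ℕ} (s : Fin (n + 2) → Fin n → ℝ)
    (h : ∀ e : Fin n ↪o Fin (n + 2), Matrix.det (Matrix.of fun a b => s (e a) b) ≠ 0) :
    ∑ j : Fin (n + 2), (-1) ^ (j : ℕ) * eps (fun i => s (j.succAbove i)) = 0 := by
  have hne : ∀ j k, j ≠ k → EpsAlg_B s j k ≠ 0 := by
    intro j k hjk
    obtain ⟨i, rfl⟩ := Fin.exists_succAbove_eq hjk.symm
    rw [EpsAlg_B_succ]
    have hd := h ((Fin.succAboveOrderEmb i).trans (Fin.succAboveOrderEmb j))
    unfold tco
    exact mul_ne_zero (pow_ne_zero _ (by norm_num)) (mul_ne_zero (pow_ne_zero _ (by norm_num)) hd)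
  rw [← EpsAlg_count (EpsAlg_B s) (by omega) (EpsAlg_B_anti s) hne (EpsAlg_pl s h)]
  refine Finset.sum_congr rfl fun j _ => ?_
  have hall : ∀ P : Fin (n + 2) → Prop, (∀ k, k ≠ j → P k) ↔ ∀ i, P (j.succAbove i) := by
    intro P
    constructor
    · exact fun h0 i => h0 _ (Fin.succAbove_ne j i)
    · intro h0 k hk
      obtain ⟨i, rfl⟩ := Fin.exists_succAbove_eq hk
      exact h0 i
  rw [if_congr (hall fun k => 0 < EpsAlg_B s j k) rfl rfl,
    if_congr (hall fun k => EpsAlg_B s j k < 0) rfl rfl]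
  unfold eps
  simp only [EpsAlg_B_succ]
  rcases neg_one_pow_eq_or ℝ (j : ℕ) with hj | hj
  · rw [hj]
    simp only [one_mul]
  · rw [hj]
    simp only [neg_mul, one_mul, Left.neg_pos_iff, Left.neg_neg_iff]
    ring

end Pool.Agent.ChP
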