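import Pool.Agent.ChP.Star

/-!
# An `(n-1)`-simplex has exactly two cofaces, on opposite sides

Let `F` have `n` elements, `v₀ ∈ F`, and `τ = insert w₁ F` a simplex with `n + 1` elements
(`exists_top`).  The direction `x = dev w₁ - dev v₀` enters `τ`.  The direction `-x` enters a
unique simplex `τ' ⊇ F`; `τ' ≠ F` because `-x` is not in the direction space of `F`
(independence), so `τ' = insert w₂ F` (`card_le`), and the coefficients give the relation.
If `insert w F` is a simplex, `dev w - dev v₀ = a x + ` (direction of `F`), `a ≠ 0`; if `a > 0` the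
direction `x` enters `insert w F`, so `w = w₁`; if `a < 0` the direction `-x` does, so `w = w₂`.
-/

namespace Pool.Agent.ChP

open Matrix

namespace AffineTriangulation

variable {n : ℕ} (K : AffineTriangulation n)

private theorem Facet_indep {σ : Finset K.V} (hσ : σ ∈ K.faces) (c : K.V → ℝ)
    (h0 : ∑ v ∈ σ, c v = 0) (h1 : ∑ v ∈ σ, c v • K.dev v = 0) : ∀ v ∈ σ, c v = 0 := by
  intro v hv
  have h := (affineIndependent_iff.1 (K.indep σ hσ)) Finset.univ (fun e => c e) (by
    rw [← h0, ← Finset.sum_coe_sort σ c]) (by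
    rw [← h1, ← Finset.sum_coe_sort σ (fun v => c v • K.dev v)])
  exact h ⟨v, hv⟩ (Finset.mem_univ _)

private theorem Facet_top {G : Finset K.V} (hG : G ∈ K.faces) (hc : G.card = n + 1)
    (x : Fin n → ℝ) : ∃ c : K.V → ℝ, ∑ v ∈ G, c v = 0 ∧ ∑ v ∈ G, c v • K.dev v = x := by
  obtain ⟨τ, ⟨hτ, hsub, c, hc0, -, hcx⟩, -⟩ := K.local_homeo G hG x
  have h1 := K.card_le hτ
  have h2 : G = τ := Finset.eq_of_subset_of_card_le hsub (by omega)
  subst h2
  exact ⟨c, hc0, hcx⟩

private theorem Facet_insert {F τ : Finset K.V} (hsub : F ⊆ τ) (hF : F.card = n)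
    (hτ : τ.card = n + 1) : ∃ w, w ∉ F ∧ τ = insert w F := by
  have h1 : (τ \ F).card = 1 := by
    rw [Finset.card_sdiff_of_subset hsub]
    omega
  obtain ⟨w, hw⟩ := Finset.card_eq_one.1 h1
  have hwm : w ∈ τ \ F := by rw [hw]; exact Finset.mem_singleton_self w
  refine ⟨w, (Finset.mem_sdiff.1 hwm).2, ?_⟩
  rw [← Finset.union_sdiff_of_subset hsub, hw, Finset.union_comm, Finset.insert_eq]

theorem facet {F : Finset K.V} (hF : F ∈ K.faces) (hc : F.card = n) :
    ∃ w₁ w₂ : K.V, w₁ ∉ F ∧ w₂ ∉ F ∧ w₁ ≠ w₂ ∧ insert w₁ F ∈ K.faces ∧ insert w₂ F ∈ K.faces ∧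
      (∀ w, w ∉ F → insert w F ∈ K.faces → w = w₁ ∨ w = w₂) ∧
      ∃ (α β : ℝ) (c : K.V → ℝ), 0 < α ∧ 0 < β ∧ ∑ v ∈ F, c v = α + β ∧
        α • K.dev w₁ + β • K.dev w₂ = ∑ v ∈ F, c v • K.dev v := by
  classical
  obtain ⟨v₀, hv₀⟩ := K.nonempty_of_mem F hF
  obtain ⟨τ, hτ, hFτ, hτc⟩ := K.exists_top hF
  obtain ⟨w₁, hw₁, rfl⟩ := K.Facet_insert hFτ hc hτc
  -- a combination of the vertices of `F` is never `± (dev w₁ - dev v₀)`, nor a nonnegative one
  have key : ∀ (a : ℝ) (e : K.V → ℝ), a + ∑ v ∈ F, e v = 0 →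
      a • K.dev w₁ + ∑ v ∈ F, e v • K.dev v = 0 → a = 0 := by
    intro a e h1 h2
    have h3 := K.Facet_indep hτ (fun v => if v = w₁ then a else e v) (by
      beta_reduce
      rw [Finset.sum_insert hw₁, if_pos rfl, ← h1]
      congr 1
      refine Finset.sum_congr rfl fun v hv => ?_
      rw [if_neg]
      rintro rfl
      exact hw₁ hv) (by
      beta_reduce
      rw [Finset.sum_insert hw₁, if_pos rfl, ← h2]
      congr 1
      refine Finset.sum_congr rfl fun v hv => ?_
      rw [if_neg]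
      rintro rfl
      exact hw₁ hv) w₁ (Finset.mem_insert_self _ _)
    simpa using h3
  -- sums with the indicator of `v₀`
  have ind1 : ∑ v ∈ F, (if v = v₀ then (1 : ℝ) else 0) = 1 := by
    rw [Finset.sum_ite_eq' F v₀, if_pos hv₀]
  have ind2 : ∑ v ∈ F, (if v = v₀ then (1 : ℝ) else 0) • K.dev v = K.dev v₀ := by
    rw [Finset.sum_eq_single v₀]
    · rw [if_pos rfl, one_smul]
    · intro b _ hb
      rw [if_neg hb, zero_smul]
    · intro h
      exact absurd hv₀ h
  obtain ⟨τ', ⟨hτ', hFτ', c, hc0, hcpos, hcx⟩, huniq⟩ :=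
    K.local_homeo F hF (-(K.dev w₁ - K.dev v₀))
  have hne : F ≠ τ' := by
    rintro rfl
    have h1 := key 1 (fun v => c v - if v = v₀ then (1 : ℝ) else 0) (by
      rw [Finset.sum_sub_distrib, hc0, ind1]
      ring) (by
      simp only [sub_smul]
      rw [Finset.sum_sub_distrib, hcx, ind2, one_smul]
      abel)
    exact one_ne_zero h1
  have hτ'c : τ'.card = n + 1 := by
    have h1 := K.card_le hτ'
    have h2 := Finset.card_lt_card (Finset.ssubset_iff_subset_ne.2 ⟨hFτ', hne⟩)
    omega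
  obtain ⟨w₂, hw₂, rfl⟩ := K.Facet_insert hFτ' hc hτ'c
  have hcw₂ : 0 < c w₂ := hcpos w₂ (by
    rw [Finset.mem_sdiff]
    exact ⟨Finset.mem_insert_self _ _, hw₂⟩)
  rw [Finset.sum_insert hw₂] at hc0 hcx
  have hne12 : w₁ ≠ w₂ := by
    rintro rfl
    have h1 := key (1 + c w₁) (fun v => c v - if v = v₀ then (1 : ℝ) else 0) (by
      rw [Finset.sum_sub_distrib, ind1]
      linarith) (by
      simp only [sub_smul, add_smul, one_smul]
      rw [Finset.sum_sub_distrib, ind2]
      have : K.dev w₁ + c w₁ • K.dev w₁ + (∑ v ∈ F, c v • K.dev v - K.dev v₀) =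
        K.dev w₁ - K.dev v₀ + (c w₁ • K.dev w₁ + ∑ v ∈ F, c v • K.dev v) := by abel
      rw [this, hcx]
      abel)
    linarith
  -- the direction `dev w₁ - dev v₀` enters `insert w₁ F` only
  obtain ⟨τ₁, ⟨-, -, -⟩, huniq₁⟩ := K.local_homeo F hF (K.dev w₁ - K.dev v₀)
  have hent₁ : insert w₁ F = τ₁ := by
    refine huniq₁ _ ⟨hτ, hFτ, fun v => if v = w₁ then 1 else -(if v = v₀ then (1 : ℝ) else 0), ?_,
      ?_, ?_⟩
    · beta_reduce
      rw [Finset.sum_insert hw₁, if_pos rfl]
      have : ∑ v ∈ F, (if v = w₁ then (1 : ℝ) else -(if v = v₀ then (1 : ℝ) else 0)) =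
          ∑ v ∈ F, -(if v = v₀ then (1 : ℝ) else 0) := by
        refine Finset.sum_congr rfl fun v hv => ?_
        rw [if_neg]
        rintro rfl
        exact hw₁ hv
      rw [this, Finset.sum_neg_distrib, ind1]
      ring
    · intro v hv
      rw [Finset.mem_sdiff, Finset.mem_insert] at hv
      have h1 : v = w₁ := by tauto
      beta_reduce
      rw [if_pos h1]
      exact one_pos
    · beta_reduce
      rw [Finset.sum_insert hw₁, if_pos rfl, one_smul]
      have : ∑ v ∈ F, (if v = w₁ then (1 : ℝ) else -(if v = v₀ then (1 : ℝ) else 0)) • K.dev v =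
          ∑ v ∈ F, -((if v = v₀ then (1 : ℝ) else 0) • K.dev v) := by
        refine Finset.sum_congr rfl fun v hv => ?_
        rw [if_neg, neg_smul]
        rintro rfl
        exact hw₁ hv
      rw [this, Finset.sum_neg_distrib, ind2]
      abel
  refine ⟨w₁, w₂, hw₁, hw₂, hne12, hτ, hτ', ?_, 1, c w₂,
    fun v => (if v = v₀ then (1 : ℝ) else 0) - c v, one_pos, hcw₂, ?_, ?_⟩
  · intro w hw hwF
    have hwc : (insert w F).card = n + 1 := by rw [Finset.card_insert_of_notMem hw, hc]
    obtain ⟨e, he0, hex⟩ := K.Facet_top hwF hwc (K.dev w₁ - K.dev v₀)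
    rw [Finset.sum_insert hw] at he0 hex
    have hmem : ∀ v, v ∈ insert w F \ F → v = w := by
      intro v hv
      rw [Finset.mem_sdiff, Finset.mem_insert] at hv
      tauto
    have hcomp : ∀ w', w' ∉ F → insert w F = insert w' F → w = w' := by
      intro w' hw' h
      have h1 : w ∈ insert w' F := by rw [← h]; exact Finset.mem_insert_self _ _
      rw [Finset.mem_insert] at h1
      tauto
    rcases lt_trichotomy (e w) 0 with h | h | h
    · right
      apply hcomp w₂ hw₂
      refine huniq (insert w F) ⟨hwF, Finset.subset_insert _ _, fun v => -e v, ?_, ?_, ?_⟩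
      · rw [Finset.sum_neg_distrib, Finset.sum_insert hw, he0, neg_zero]
      · intro v hv
        rw [hmem v hv]
        linarith
      · simp only [neg_smul]
        rw [Finset.sum_neg_distrib, Finset.sum_insert hw, hex]
    · exfalso
      rw [h] at he0 hex
      have h1 := key 1 (fun v => -e v - if v = v₀ then (1 : ℝ) else 0) (by
        rw [Finset.sum_sub_distrib, ind1, Finset.sum_neg_distrib]
        linarith) (by
        simp only [sub_smul, neg_smul]
        rw [Finset.sum_sub_distrib, ind2, Finset.sum_neg_distrib, one_smul]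
        rw [zero_smul, zero_add] at hex
        rw [hex]
        abel)
      exact one_ne_zero h1
    · left
      apply hcomp w₁ hw₁
      rw [hent₁]
      refine huniq₁ (insert w F) ⟨hwF, Finset.subset_insert _ _, e, ?_, ?_, ?_⟩
      · rw [Finset.sum_insert hw, he0]
      · intro v hv
        rw [hmem v hv]
        exact h
      · rw [Finset.sum_insert hw, hex]
  · rw [Finset.sum_sub_distrib, ind1]
    linarith
  · simp only [sub_smul]
    rw [Finset.sum_sub_distrib, ind2, one_smul]
    have h1 : ∑ v ∈ F, c v • K.dev v = -(K.dev w₁ - K.dev v₀) - c w₂ • K.dev w₂ := by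
      rw [← hcx]
      abel
    rw [h1]
    abel

end AffineTriangulation

end Pool.Agent.ChP
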