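import Pool.Agent.ChP.Defs

/-!
# Tensor algebra

`tact T g = T ∘ (g, ..., g)` in coordinates, so `tact (tact T g) h = tact T (g * h)`; the Euclidean
scalar product of tensors satisfies `⟨tact T g, S⟩ = ⟨T, tact S gᵀ⟩`.
-/

set_option linter.all false

namespace Pool.Agent.ChP

open Matrix

variable {d n : ℕ}

private theorem tens_ps (f : Fin d → Fin n → ℝ) :
    ∏ k, ∑ j, f k j = ∑ J : Fin d → Fin n, ∏ k, f k (J k) := by
  rw [Finset.prod_univ_sum, Fintype.piFinset_univ]

theorem tact_one (T : Ten d n) : tact T (1 : Matrix (Fin n) (Fin n) ℝ) = T := by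
  funext I
  unfold tact
  rw [Finset.sum_eq_single I]
  · simp
  · intro J _ hJ
    obtain ⟨k, hk⟩ := Function.ne_iff.1 hJ
    have h0 : ∏ k, (1 : Matrix (Fin n) (Fin n) ℝ) (J k) (I k) = 0 :=
      Finset.prod_eq_zero (Finset.mem_univ k) (Matrix.one_apply_ne hk)
    rw [h0, mul_zero]
  · intro h
    exact absurd (Finset.mem_univ I) h

theorem tact_mul (T : Ten d n) (g h : Matrix (Fin n) (Fin n) ℝ) :
    tact (tact T g) h = tact T (g * h) := by
  funext I
  unfold tact
  simp only [Finset.sum_mul]
  rw [Finset.sum_comm]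
  refine Finset.sum_congr rfl fun K _ => ?_
  have h1 : ∏ k, (g * h) (K k) (I k) = ∑ J : Fin d → Fin n, ∏ k, (g (K k) (J k) * h (J k) (I k)) := by
    rw [← tens_ps (fun k j => g (K k) j * h j (I k))]
    exact Finset.prod_congr rfl fun k _ => Matrix.mul_apply
  rw [h1, Finset.mul_sum]
  refine Finset.sum_congr rfl fun J _ => ?_
  rw [Finset.prod_mul_distrib, mul_assoc]

theorem tact_neg (T : Ten d n) (g : Matrix (Fin n) (Fin n) ℝ) : tact (-T) g = -tact T g := by
  funext I
  simp [tact, Finset.sum_neg_distrib]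

theorem tact_smul (c : ℝ) (T : Ten d n) (g : Matrix (Fin n) (Fin n) ℝ) :
    tact (c • T) g = c • tact T g := by
  funext I
  simp only [tact, Pi.smul_apply, smul_eq_mul, Finset.mul_sum, mul_assoc]

/-- homogeneity in the matrix -/
theorem tact_smul_mat (c : ℝ) (T : Ten d n) (g : Matrix (Fin n) (Fin n) ℝ) :
    tact T (c • g) = c ^ d • tact T g := by
  funext I
  simp only [tact, Pi.smul_apply, smul_eq_mul, Finset.mul_sum, Matrix.smul_apply,
    Finset.prod_mul_distrib, Finset.prod_const, Finset.card_univ, Fintype.card_fin]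
  exact Finset.sum_congr rfl fun J _ => by ring

theorem tpoly_tact (T : Ten d n) (g : Matrix (Fin n) (Fin n) ℝ) (v : Fin n → ℝ) :
    tpoly (tact T g) v = tpoly T (g *ᵥ v) := by
  unfold tpoly tact
  simp only [Finset.sum_mul]
  rw [Finset.sum_comm]
  refine Finset.sum_congr rfl fun J _ => ?_
  have h1 : ∏ k, (g *ᵥ v) (J k) = ∑ I : Fin d → Fin n, ∏ k, (g (J k) (I k) * v (I k)) := by
    rw [← tens_ps (fun k j => g (J k) j * v j)]
    rfl
  rw [h1, Finset.mul_sum]
  refine Finset.sum_congr rfl fun I _ => ?_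
  rw [Finset.prod_mul_distrib, mul_assoc]

theorem tpoly_smul (T : Ten d n) (c : ℝ) (v : Fin n → ℝ) :
    tpoly T (c • v) = c ^ d * tpoly T v := by
  simp only [tpoly, Pi.smul_apply, smul_eq_mul, Finset.mul_sum,
    Finset.prod_mul_distrib, Finset.prod_const, Finset.card_univ, Fintype.card_fin]
  exact Finset.sum_congr rfl fun J _ => by ring

theorem TSym.tact {T : Ten d n} (hT : TSym T) (g : Matrix (Fin n) (Fin n) ℝ) :
    TSym (ChP.tact T g) := by
  intro e I
  unfold ChP.tact
  rw [← Equiv.sum_comp (Equiv.arrowCongr e.symm (Equiv.refl (Fin n)))]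
  refine Finset.sum_congr rfl fun J _ => ?_
  have h1 : (Equiv.arrowCongr e.symm (Equiv.refl (Fin n))) J = fun k => J (e k) := by
    funext k
    simp [Equiv.arrowCongr]
  rw [h1, hT e J]
  congr 1
  exact Equiv.prod_comp e (fun k => g (J k) (I k))

theorem tact_adjoint (T S : Ten d n) (g : Matrix (Fin n) (Fin n) ℝ) :
    ∑ I, tact T g I * S I = ∑ I, T I * tact S gᵀ I := by
  unfold tact
  simp only [Finset.sum_mul, Finset.mul_sum]
  rw [Finset.sum_comm]
  refine Finset.sum_congr rfl fun J _ => Finset.sum_congr rfl fun I _ => ?_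
  simp only [Matrix.transpose_apply]
  ring

theorem tact_diagonal (T : Ten d n) (l : Fin n → ℝ) (I : Fin d → Fin n) :
    tact T (diagonal l) I = (∏ k, l (I k)) * T I := by
  unfold tact
  rw [Finset.sum_eq_single I]
  · simp only [Matrix.diagonal_apply_eq]
    ring
  · intro J _ hJ
    obtain ⟨k, hk⟩ := Function.ne_iff.1 hJ
    rw [Finset.prod_eq_zero (Finset.mem_univ k) (Matrix.diagonal_apply_ne l hk), mul_zero]
  · intro h
    exact absurd (Finset.mem_univ I) h

theorem continuous_tact' (d n : ℕ) :
    Continuous (fun p : Ten d n × Matrix (Fin n) (Fin n) ℝ => tact p.1 p.2) := by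
  refine continuous_pi fun I => ?_
  unfold tact
  refine continuous_finset_sum _ fun J _ => ?_
  refine ((continuous_apply J).comp continuous_fst).mul (continuous_finset_prod _ fun k _ => ?_)
  exact Continuous.matrix_elem continuous_snd (J k) (I k)

theorem continuous_tact (T : Ten d n) :
    Continuous (fun g : Matrix (Fin n) (Fin n) ℝ => tact T g) :=
  (continuous_tact' d n).comp (Continuous.prodMk continuous_const continuous_id)

theorem tq_add (T : Ten d n) (Y Z : Matrix (Fin n) (Fin n) ℝ) : tq T (Y + Z) = tq T Y + tq T Z := by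
  simp only [tq, Matrix.add_apply, mul_add, Finset.sum_add_distrib]

theorem tq_smul (T : Ten d n) (c : ℝ) (Y : Matrix (Fin n) (Fin n) ℝ) :
    tq T (c • Y) = c * tq T Y := by
  simp only [tq, Matrix.smul_apply, smul_eq_mul, Finset.mul_sum]
  exact Finset.sum_congr rfl fun I _ => Finset.sum_congr rfl fun k _ =>
    Finset.sum_congr rfl fun j _ => by ring

/-- the moment form in an eigenbasis -/
theorem tq_conj_diagonal (T : Ten d n) {U : Matrix (Fin n) (Fin n) ℝ} (hU : U * Uᵀ = 1)
    (y : Fin n → ℝ) :
    tq T (U * diagonal y * Uᵀ) = ∑ I, (∑ k, y (I k)) * (tact T U I) ^ 2 := by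
  classical
  have hUU : ∀ a b, ∑ l, U a l * U b l = if a = b then 1 else 0 := by
    intro a b
    have h := congrFun (congrFun hU a) b
    rw [Matrix.mul_apply, Matrix.one_apply] at h
    exact h
  have hY : ∀ j i, (U * diagonal y * Uᵀ) j i = ∑ l, y l * (U i l * U j l) := by
    intro j i
    rw [Matrix.mul_apply]
    refine Finset.sum_congr rfl fun l _ => ?_
    rw [Matrix.mul_diagonal, Matrix.transpose_apply]
    ring
  -- the right side
  have hR : ∑ L : Fin d → Fin n, (∑ k, y (L k)) * (tact T U L) ^ 2 =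
      ∑ I : Fin d → Fin n, ∑ k, ∑ J : Fin d → Fin n, T I * T J *
        ∏ m, ∑ l, (if m = k then y l else 1) * (U (I m) l * U (J m) l) := by
    have h1 : ∀ L : Fin d → Fin n, (∑ k, y (L k)) * (tact T U L) ^ 2 =
        ∑ I : Fin d → Fin n, ∑ k, ∑ J : Fin d → Fin n, T I * T J *
          ∏ m, ((if m = k then y (L m) else 1) * (U (I m) (L m) * U (J m) (L m))) := by
      intro L
      have h2 : ∀ k, ∏ m, (if m = k then y (L m) else 1) = y (L k) := by
        intro k
        rw [Finset.prod_ite_eq' Finset.univ k (fun m => y (L m)), if_pos (Finset.mem_univ k)]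
      rw [sq]
      unfold tact
      rw [Finset.sum_mul_sum, Finset.mul_sum]
      refine Finset.sum_congr rfl fun I _ => ?_
      rw [Finset.sum_mul]
      refine Finset.sum_congr rfl fun k _ => ?_
      rw [Finset.mul_sum]
      refine Finset.sum_congr rfl fun J _ => ?_
      rw [Finset.prod_mul_distrib, h2, Finset.prod_mul_distrib]
      ring
    rw [Finset.sum_congr rfl fun L _ => h1 L, Finset.sum_comm]
    refine Finset.sum_congr rfl fun I _ => ?_
    rw [Finset.sum_comm]
    refine Finset.sum_congr rfl fun k _ => ?_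
    rw [Finset.sum_comm]
    refine Finset.sum_congr rfl fun J _ => ?_
    rw [tens_ps (fun m l => (if m = k then y l else 1) * (U (I m) l * U (J m) l)), Finset.mul_sum]
  rw [hR]
  unfold tq
  refine Finset.sum_congr rfl fun I _ => Finset.sum_congr rfl fun k _ => ?_
  refine Finset.sum_of_injOn (fun j => Function.update I k j)
    (Function.update_injective I k).injOn (fun _ _ => Finset.mem_coe.2 (Finset.mem_univ _)) ?_ ?_
  · intro J _ hJ
    have hex : ∃ m, m ≠ k ∧ I m ≠ J m := by
      by_contra hcon
      push Not at hcon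
      apply hJ
      refine ⟨J k, by simp, ?_⟩
      funext m
      by_cases hm : m = k
      · subst hm; simp
      · show Function.update I k (J k) m = J m
        rw [Function.update_of_ne hm]
        exact hcon m hm
    obtain ⟨m, hm, hne⟩ := hex
    have h0 : ∑ l, (if m = k then y l else 1) * (U (I m) l * U (J m) l) = 0 := by
      simp only [if_neg hm, one_mul]
      rw [hUU, if_neg hne]
    rw [Finset.prod_eq_zero (Finset.mem_univ m) h0, mul_zero]
  · intro j _
    show T I * T (Function.update I k j) * (U * diagonal y * Uᵀ) j (I k) =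
      T I * T (Function.update I k j) * ∏ m, ∑ l, (if m = k then y l else 1) *
        (U (I m) l * U (Function.update I k j m) l)
    congr 1
    rw [Finset.prod_eq_single k]
    · simp only [if_true, Function.update_self]
      rw [hY]
    · intro m _ hm
      simp only [if_neg hm, one_mul, Function.update_of_ne hm]
      rw [hUU, if_pos rfl]
    · intro h
      exact absurd (Finset.mem_univ k) h

/-- the polynomial of a tensor -/
private noncomputable def tens_p (T : Ten d n) : MvPolynomial (Fin n) ℝ :=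
  ∑ I : Fin d → Fin n, MvPolynomial.monomial (∑ k, Finsupp.single (I k) 1) (T I)

private theorem tens_eval (T : Ten d n) (v : Fin n → ℝ) :
    MvPolynomial.eval v (tens_p T) = tpoly T v := by
  unfold tens_p tpoly
  rw [map_sum]
  refine Finset.sum_congr rfl fun I _ => ?_
  have h1 : (MvPolynomial.monomial (∑ k, Finsupp.single (I k) 1) (T I) : MvPolynomial (Fin n) ℝ) =
      MvPolynomial.C (T I) * ∏ k, MvPolynomial.X (I k) := by
    rw [MvPolynomial.monomial_sum_index]
    rfl
  rw [h1, map_mul, MvPolynomial.eval_C, map_prod]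
  simp

private theorem tens_perm {I J : Fin d → Fin n}
    (h : (∑ k, Finsupp.single (I k) 1 : Fin n →₀ ℕ) = ∑ k, Finsupp.single (J k) 1) :
    ∃ e : Equiv.Perm (Fin d), ∀ k, J (e k) = I k := by
  classical
  have hcard : ∀ y, Fintype.card {x // I x = y} = Fintype.card {x // J x = y} := by
    intro y
    have h1 : ∀ K : Fin d → Fin n, (∑ k, Finsupp.single (K k) 1 : Fin n →₀ ℕ) y =
        Fintype.card {x // K x = y} := by
      intro K
      rw [Finsupp.finset_sum_apply, Fintype.card_subtype, Finset.card_filter]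
      refine Finset.sum_congr rfl fun k _ => ?_
      rw [Finsupp.single_apply]
    rw [← h1, ← h1, h]
  refine ⟨(Equiv.sigmaFiberEquiv I).symm.trans
    ((Equiv.sigmaCongrRight fun y => Fintype.equivOfCardEq (hcard y)).trans
      (Equiv.sigmaFiberEquiv J)), fun k => ?_⟩
  exact ((Fintype.equivOfCardEq (hcard (I k))) ⟨k, rfl⟩).2

/-- a symmetric tensor is determined by its polynomial -/
theorem TSym.ext {T S : Ten d n} (hT : TSym T) (hS : TSym S) (h : ∀ v, tpoly T v = tpoly S v) :
    T = S := by
  classical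
  have hp : tens_p T = tens_p S := by
    apply MvPolynomial.funext
    intro v
    rw [tens_eval, tens_eval, h]
  funext J
  have hc : ∀ R : Ten d n, TSym R →
      MvPolynomial.coeff (∑ k, Finsupp.single (J k) 1) (tens_p R) =
      ((Finset.univ.filter fun I : Fin d → Fin n =>
        (∑ k, Finsupp.single (I k) 1 : Fin n →₀ ℕ) = ∑ k, Finsupp.single (J k) 1).card : ℝ) *
          R J := by
    intro R hR
    unfold tens_p
    rw [MvPolynomial.coeff_sum]
    simp only [MvPolynomial.coeff_monomial]
    rw [← Finset.sum_filter, ← nsmul_eq_mul, ← Finset.sum_const]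
    refine Finset.sum_congr rfl fun I hI => ?_
    obtain ⟨e, he⟩ := tens_perm (Finset.mem_filter.1 hI).2
    have h1 := hR e J
    rw [← h1]
    congr 1
    funext k
    exact (he k).symm
  have h2 := congrArg (MvPolynomial.coeff (∑ k, Finsupp.single (J k) 1)) hp
  rw [hc T hT, hc S hS] at h2
  refine mul_left_cancel₀ ?_ h2
  have : 0 < (Finset.univ.filter fun I : Fin d → Fin n =>
      (∑ k, Finsupp.single (I k) 1 : Fin n →₀ ℕ) = ∑ k, Finsupp.single (J k) 1).card :=
    Finset.card_pos.2 ⟨J, Finset.mem_filter.2 ⟨Finset.mem_univ _, rfl⟩⟩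
  exact_mod_cast this.ne'

/-- the zero set of the polynomial of a non-zero symmetric tensor has dense complement -/
theorem TSym.dense_ne_zero {T : Ten d n} (hT : TSym T) (h0 : T ≠ 0) :
    Dense {v : Fin n → ℝ | tpoly T v ≠ 0} := by
  have hana : AnalyticOnNhd ℝ (tpoly T) Set.univ := by
    unfold tpoly
    refine Finset.analyticOnNhd_fun_sum _ fun I _ => ?_
    refine analyticOnNhd_const.mul (Finset.analyticOnNhd_fun_prod _ fun k _ => ?_)
    exact (ContinuousLinearMap.proj (R := ℝ) (φ := fun _ : Fin n => ℝ) (I k)).analyticOnNhd _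
  rw [dense_iff_inter_open]
  intro O hO hne
  by_contra hcon
  obtain ⟨x, hx⟩ := hne
  have hev : tpoly T =ᶠ[nhds x] 0 := by
    filter_upwards [hO.mem_nhds hx] with y hy
    by_contra h1
    exact hcon ⟨y, hy, h1⟩
  have hz := hana.eqOn_zero_of_preconnected_of_eventuallyEq_zero isPreconnected_univ
    (Set.mem_univ x) hev
  apply h0
  refine hT.ext (fun e I => rfl) fun v => ?_
  rw [hz (Set.mem_univ v)]
  simp [tpoly]

theorem Fixes.mul {T : Ten d n} {g h : Matrix (Fin n) (Fin n) ℝ} (hg : Fixes T g)
    (hh : Fixes T h) : Fixes T (g * h) := by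
  unfold Fixes at *
  rw [← tact_mul]
  rcases hg with hg | hg <;> rcases hh with hh | hh <;> rw [hg]
  · exact Or.inl hh
  · exact Or.inr hh
  · right; rw [tact_neg, hh]
  · left; rw [tact_neg, hh, neg_neg]

theorem Fixes.inv {T : Ten d n} {g : Matrix (Fin n) (Fin n) ℝ} (hg : Fixes T g)
    (hd : g.det ≠ 0) : Fixes T g⁻¹ := by
  have h1 : tact (tact T g) g⁻¹ = T := by
    rw [tact_mul, Matrix.mul_nonsing_inv _ (isUnit_iff_ne_zero.2 hd), tact_one]
  unfold Fixes at *
  rcases hg with hg | hg
  · left; rw [hg] at h1; exact h1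
  · right
    rw [hg, tact_neg] at h1
    rw [← h1, neg_neg]
    rw [h1]

end Pool.Agent.ChP
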