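import Pool.Agent.ChP.Defs

/-!
# Spectral decompositions and functional calculus of real symmetric matrices

Use `Matrix.IsHermitian.spectral_theorem` and `Matrix.IsHermitian.cfc_eq`.  `cfc_conj_diagonal`:
both sides are `*`-homomorphisms in the function; or compare with the spectral theorem by a
polynomial interpolating `φ` on the finite set of eigenvalues (`cfc` of a polynomial is `aeval`).
-/

namespace Pool.Agent.ChP

open Matrix

theorem exists_spec {n : ℕ} (A : Matrix (Fin n) (Fin n) ℝ) (hA : Aᵀ = A) :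
    ∃ (U : Matrix (Fin n) (Fin n) ℝ) (l : Fin n → ℝ), U * Uᵀ = 1 ∧ Uᵀ * U = 1 ∧
      A = U * diagonal l * Uᵀ := by
  have hH : A.IsHermitian := by
    rw [Matrix.IsHermitian, conjTranspose_eq_transpose_of_trivial]; exact hA
  have h1 : (hH.eigenvectorUnitary : Matrix (Fin n) (Fin n) ℝ) *
      (hH.eigenvectorUnitary : Matrix (Fin n) (Fin n) ℝ)ᵀ = 1 := by
    have := Unitary.mul_star_self_of_mem hH.eigenvectorUnitary.2
    rwa [star_eq_conjTranspose, conjTranspose_eq_transpose_of_trivial] at this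
  refine ⟨hH.eigenvectorUnitary, hH.eigenvalues, h1, mul_eq_one_comm.1 h1, ?_⟩
  have h2 := hH.spectral_theorem
  rw [Unitary.conjStarAlgAut_apply] at h2
  rw [star_eq_conjTranspose, conjTranspose_eq_transpose_of_trivial] at h2
  exact h2

private theorem spec_intertw {n : ℕ} {W : Matrix (Fin n) (Fin n) ℝ} {l m : Fin n → ℝ}
    (h : diagonal l * W = W * diagonal m) (φ : ℝ → ℝ) :
    diagonal (fun i => φ (l i)) * W = W * diagonal (fun i => φ (m i)) := by
  ext i j
  have h1 := congrFun (congrFun h i) j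
  rw [diagonal_mul, mul_diagonal] at h1 ⊢
  by_cases h2 : W i j = 0
  · rw [h2]; ring
  · have h3 : l i = m j := by
      have : l i * W i j = m j * W i j := by rw [h1]; ring
      exact mul_right_cancel₀ h2 this
    rw [h3]; ring

private theorem spec_herm {n : ℕ} {A U : Matrix (Fin n) (Fin n) ℝ} {l : Fin n → ℝ}
    (h : A = U * diagonal l * Uᵀ) : A.IsHermitian := by
  rw [Matrix.IsHermitian, conjTranspose_eq_transpose_of_trivial, h, transpose_mul, transpose_mul,
    transpose_transpose, diagonal_transpose, ← mul_assoc]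

theorem cfc_conj_diagonal {n : ℕ} {A U : Matrix (Fin n) (Fin n) ℝ} {l : Fin n → ℝ}
    (hU : Uᵀ * U = 1) (h : A = U * diagonal l * Uᵀ) (φ : ℝ → ℝ) :
    cfc φ A = U * diagonal (fun i => φ (l i)) * Uᵀ := by
  have hH := spec_herm h
  have hU' : U * Uᵀ = 1 := mul_eq_one_comm.1 hU
  set V : Matrix (Fin n) (Fin n) ℝ := (hH.eigenvectorUnitary : Matrix (Fin n) (Fin n) ℝ) with hVd
  have hV : V * Vᵀ = 1 := by
    have := Unitary.mul_star_self_of_mem hH.eigenvectorUnitary.2
    rwa [star_eq_conjTranspose, conjTranspose_eq_transpose_of_trivial] at this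
  have hV' : Vᵀ * V = 1 := mul_eq_one_comm.1 hV
  have h2 := hH.spectral_theorem
  rw [Unitary.conjStarAlgAut_apply, star_eq_conjTranspose,
    conjTranspose_eq_transpose_of_trivial] at h2
  have h3 : cfc φ A = V * diagonal (fun i => φ (hH.eigenvalues i)) * Vᵀ := by
    rw [hH.cfc_eq, Matrix.IsHermitian.cfc, Unitary.conjStarAlgAut_apply, star_eq_conjTranspose,
      conjTranspose_eq_transpose_of_trivial]
    rfl
  have h4 : A = V * diagonal hH.eigenvalues * Vᵀ := h2
  have h5 : diagonal l * (Uᵀ * V) = (Uᵀ * V) * diagonal hH.eigenvalues := by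
    have h6 : Uᵀ * A * V = diagonal l * (Uᵀ * V) := by
      rw [h]
      simp only [← mul_assoc]
      rw [hU, one_mul]
    have h7 : Uᵀ * A * V = (Uᵀ * V) * diagonal hH.eigenvalues := by
      conv_lhs => rw [h4]
      simp only [mul_assoc]
      rw [hV', mul_one]
    rw [← h6, h7]
  have h8 := spec_intertw h5 φ
  rw [h3]
  calc V * diagonal (fun i => φ (hH.eigenvalues i)) * Vᵀ
      = U * ((Uᵀ * V) * diagonal (fun i => φ (hH.eigenvalues i))) * Vᵀ := by
        simp only [← mul_assoc]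
        rw [hU', one_mul]
    _ = U * (diagonal (fun i => φ (l i)) * (Uᵀ * V)) * Vᵀ := by rw [h8]
    _ = U * diagonal (fun i => φ (l i)) * Uᵀ := by
        simp only [mul_assoc]
        rw [hV, mul_one]

private theorem spec_back {n : ℕ} {A U : Matrix (Fin n) (Fin n) ℝ} {l : Fin n → ℝ}
    (hU : Uᵀ * U = 1) (h : A = U * diagonal l * Uᵀ) : Uᵀ * A * U = diagonal l := by
  rw [h]
  simp only [← mul_assoc]
  rw [hU, one_mul, mul_assoc, hU, mul_one]

private theorem spec_conj_posDef {n : ℕ} {A U : Matrix (Fin n) (Fin n) ℝ}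
    (hU : Uᵀ * U = 1) : (U * A * Uᵀ).PosDef ↔ A.PosDef := by
  have hu : IsUnit U := IsUnit.of_mul_eq_one Uᵀ (mul_eq_one_comm.1 hU)
  have := hu.posDef_star_right_conjugate_iff (x := A)
  rwa [star_eq_conjTranspose, conjTranspose_eq_transpose_of_trivial] at this

private theorem spec_conj_posSemidef {n : ℕ} {A U : Matrix (Fin n) (Fin n) ℝ}
    (hU : Uᵀ * U = 1) : (U * A * Uᵀ).PosSemidef ↔ A.PosSemidef := by
  have hu : IsUnit U := IsUnit.of_mul_eq_one Uᵀ (mul_eq_one_comm.1 hU)
  have := hu.posSemidef_star_right_conjugate_iff (x := A)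
  rwa [star_eq_conjTranspose, conjTranspose_eq_transpose_of_trivial] at this

theorem posDef_iff_spec {n : ℕ} {A U : Matrix (Fin n) (Fin n) ℝ} {l : Fin n → ℝ}
    (hU : Uᵀ * U = 1) (h : A = U * diagonal l * Uᵀ) : A.PosDef ↔ ∀ i, 0 < l i := by
  rw [h, spec_conj_posDef hU, posDef_diagonal_iff]

theorem posSemidef_iff_spec {n : ℕ} {A U : Matrix (Fin n) (Fin n) ℝ} {l : Fin n → ℝ}
    (hU : Uᵀ * U = 1) (h : A = U * diagonal l * Uᵀ) : A.PosSemidef ↔ ∀ i, 0 ≤ l i := by
  rw [h, spec_conj_posSemidef hU, posSemidef_diagonal_iff]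

/-- `l i` is between the bounds of `Close δ 1 A`. -/
theorem close_one_iff_spec {n : ℕ} {A U : Matrix (Fin n) (Fin n) ℝ} {l : Fin n → ℝ} {δ : ℝ}
    (hU : Uᵀ * U = 1) (h : A = U * diagonal l * Uᵀ) :
    Close δ 1 A ↔ ∀ i, Real.exp (-δ) ≤ l i ∧ l i ≤ Real.exp δ := by
  have hU' : U * Uᵀ = 1 := mul_eq_one_comm.1 hU
  have e1 : Real.exp δ • A - 1 = U * diagonal (fun i => Real.exp δ * l i - 1) * Uᵀ := by
    have h1 : diagonal (fun i => Real.exp δ * l i - 1) = Real.exp δ • diagonal l - 1 := by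
      rw [← diagonal_one, ← diagonal_smul, diagonal_sub]
      rfl
    rw [h1, h, mul_sub, sub_mul, mul_one, hU', mul_smul_comm, smul_mul_assoc]
  have e2 : Real.exp δ • (1 : Matrix (Fin n) (Fin n) ℝ) - A =
      U * diagonal (fun i => Real.exp δ - l i) * Uᵀ := by
    have h1 : diagonal (fun i => Real.exp δ - l i) = Real.exp δ • 1 - diagonal l := by
      rw [← diagonal_one, ← diagonal_smul, diagonal_sub]
      congr 1
      funext i
      simp
    rw [h1, h, mul_sub, sub_mul, mul_smul_comm, mul_one, smul_mul_assoc, hU']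
  unfold Close
  rw [posSemidef_iff_spec hU e1, posSemidef_iff_spec hU e2, ← forall_and]
  refine forall_congr' fun i => ?_
  have hp := Real.exp_pos δ
  have h3 : 0 ≤ Real.exp δ * l i - 1 ↔ Real.exp (-δ) ≤ l i := by
    rw [Real.exp_neg, sub_nonneg, inv_le_iff_one_le_mul₀' hp]
  rw [h3, sub_nonneg]

theorem lg_transpose {n : ℕ} {P : Matrix (Fin n) (Fin n) ℝ} (hP : P.PosDef) :
    (lg P)ᵀ = lg P := by
  have hs : Pᵀ = P := by
    have := hP.1
    rwa [Matrix.IsHermitian, conjTranspose_eq_transpose_of_trivial] at this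
  obtain ⟨U, l, _, hU, h⟩ := exists_spec P hs
  unfold lg
  rw [cfc_conj_diagonal hU h, transpose_mul, transpose_mul, transpose_transpose,
    diagonal_transpose, ← mul_assoc]

/-- `B log(BᵀB) B⁻¹ = log(BBᵀ)`. -/
theorem lg_comm {n : ℕ} {B : Matrix (Fin n) (Fin n) ℝ} (hB : B.det ≠ 0) :
    B * lg (Bᵀ * B) = lg (B * Bᵀ) * B := by
  obtain ⟨U, l, hU1, hU, h⟩ := exists_spec (Bᵀ * B) (by rw [transpose_mul, transpose_transpose])
  obtain ⟨V, m, hV1, hV, h'⟩ := exists_spec (B * Bᵀ) (by rw [transpose_mul, transpose_transpose])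
  have h1 : diagonal m * (Vᵀ * B * U) = (Vᵀ * B * U) * diagonal l := by
    have h2 : Vᵀ * (B * Bᵀ) * B * U = diagonal m * (Vᵀ * B * U) := by
      rw [h']
      simp only [← mul_assoc]
      rw [hV, one_mul]
    have h3 : Vᵀ * B * (Bᵀ * B) * U = (Vᵀ * B * U) * diagonal l := by
      rw [h]
      simp only [mul_assoc]
      rw [hU, mul_one]
    rw [← h2, ← h3]
    simp only [mul_assoc]
  have h4 := spec_intertw h1 Real.log
  unfold lg
  rw [cfc_conj_diagonal hU h, cfc_conj_diagonal hV h']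
  calc B * (U * diagonal (fun i => Real.log (l i)) * Uᵀ)
      = V * ((Vᵀ * B * U) * diagonal (fun i => Real.log (l i))) * Uᵀ := by
        simp only [← mul_assoc]
        rw [hV1, one_mul]
    _ = V * (diagonal (fun i => Real.log (m i)) * (Vᵀ * B * U)) * Uᵀ := by rw [h4]
    _ = V * diagonal (fun i => Real.log (m i)) * Vᵀ * B := by
        simp only [mul_assoc]
        rw [hU1, mul_one]

theorem lg_inv {n : ℕ} {P : Matrix (Fin n) (Fin n) ℝ} (hP : P.PosDef) :
    lg P⁻¹ = -lg P := by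
  have hs : Pᵀ = P := by
    have := hP.1
    rwa [Matrix.IsHermitian, conjTranspose_eq_transpose_of_trivial] at this
  obtain ⟨U, l, hU1, hU, h⟩ := exists_spec P hs
  have hl := (posDef_iff_spec hU h).1 hP
  have h1 : P⁻¹ = U * diagonal (fun i => (l i)⁻¹) * Uᵀ := by
    apply inv_eq_right_inv
    rw [h]
    calc U * diagonal l * Uᵀ * (U * diagonal (fun i => (l i)⁻¹) * Uᵀ)
        = U * (diagonal l * (Uᵀ * U) * diagonal (fun i => (l i)⁻¹)) * Uᵀ := by
          simp only [mul_assoc]
      _ = 1 := by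
          rw [hU, mul_one, diagonal_mul_diagonal]
          have : (fun i => l i * (l i)⁻¹) = fun _ => (1 : ℝ) := by
            funext i
            exact mul_inv_cancel₀ (hl i).ne'
          rw [this, diagonal_one, mul_one, hU1]
  unfold lg
  rw [cfc_conj_diagonal hU h1, cfc_conj_diagonal hU h]
  have h2 : (fun i => Real.log (l i)⁻¹) = fun i => -Real.log (l i) := by
    funext i
    exact Real.log_inv _
  rw [h2, ← neg_mul, ← mul_neg]
  congr 2
  rw [← diagonal_neg]

end Pool.Agent.ChP
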