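import Pool.Agent.ChP.Defs

/-!
# Two determinant identities

(a) Cramer: `∑ j, (η · y_j) det (y_1, .., η (at j), .., y_n) = |η|² det (y_1, ..., y_n)` (if the
`y_j` are a basis write `η = ∑ c_j y_j`, `c_j = det (.. η ..) / det y`, and take the scalar product
with `η`; in general use the adjugate: `adj(A) A = det A`, or note that for fixed `η` the linear
form `v ↦ ∑ j, (v · y_j) det (.. η at j ..)` is `v ↦ (v · η) det y`).
(b) multilinearity, terms with `η` in two rows vanish.
-/

namespace Pool.Agent.ChP

open Matrix

theorem sum_dot_mul_det_update {n : ℕ} (y : Fin n → Fin n → ℝ) (η v : Fin n → ℝ) :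
    ∑ j, (v ⬝ᵥ y j) * Matrix.det (Matrix.of (Function.update y j η)) =
      (v ⬝ᵥ η) * Matrix.det (Matrix.of y) := by
  have h1 : ∀ j, Matrix.det (Matrix.of (Function.update y j η)) =
      Matrix.cramer (Matrix.of y)ᵀ η j := fun j => (Matrix.cramer_transpose_apply _ _ _).symm
  simp_rw [h1]
  have h2 := Matrix.mulVec_cramer (Matrix.of y)ᵀ η
  rw [Matrix.det_transpose] at h2
  have h3 : (v ⬝ᵥ η) * Matrix.det (Matrix.of y) =
      v ⬝ᵥ ((Matrix.of y)ᵀ *ᵥ Matrix.cramer (Matrix.of y)ᵀ η) := by
    rw [h2, dotProduct_smul, smul_eq_mul, mul_comm]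
  rw [h3]
  simp only [dotProduct, Matrix.mulVec, Matrix.transpose_apply, Matrix.of_apply, Finset.mul_sum,
    Finset.sum_mul]
  rw [Finset.sum_comm]
  refine Finset.sum_congr rfl fun i _ => Finset.sum_congr rfl fun j _ => ?_
  ring

private theorem AlgId_aux {n : ℕ} (y : Fin n → Fin n → ℝ) (η : Fin n → ℝ) (c : Fin n → ℝ)
    (t : Finset (Fin n)) :
    Matrix.det (Matrix.of fun i => y i - (if i ∈ t then c i else 0) • η) =
      Matrix.det (Matrix.of y) - ∑ j ∈ t, c j * Matrix.det (Matrix.of (Function.update y j η)) := by
  induction t using Finset.induction_on with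
  | empty => simp
  | insert k t hk ih =>
    rw [Finset.sum_insert hk]
    set M : Matrix (Fin n) (Fin n) ℝ :=
      Matrix.of fun i => y i - (if i ∈ t then c i else 0) • η with hM
    have hMk : M k = y k := by
      show y k - (if k ∈ t then c k else 0) • η = y k
      rw [if_neg hk, zero_smul, sub_zero]
    have h1 : (Matrix.of fun i => y i - (if i ∈ insert k t then c i else 0) • η) =
        M.updateRow k (M k + (-c k) • η) := by
      ext i j
      by_cases hi : i = k
      · subst hi
        rw [Matrix.updateRow_self, hMk]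
        simp [sub_eq_add_neg]
      · rw [Matrix.updateRow_ne hi]
        simp [hM, hi]
    have h2 : (M.updateRow k η).det = Matrix.det (Matrix.of (Function.update y k η)) := by
      refine Matrix.det_eq_of_forall_row_eq_smul_add_const
        (fun i => -(if i ∈ t then c i else 0)) k (by rw [if_neg hk, neg_zero]) fun i j => ?_
      by_cases hi : i = k
      · subst hi
        rw [Matrix.updateRow_self]
        simp [hk]
      · rw [Matrix.updateRow_ne hi]
        simp only [hM, Matrix.of_apply, Function.update_self, Function.update_of_ne hi,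
          Pi.sub_apply, Pi.smul_apply, smul_eq_mul]
        ring
    rw [h1, Matrix.det_updateRow_add, Matrix.det_updateRow_smul, Matrix.updateRow_eq_self, ih, h2]
    ring

theorem det_sub_smul_row {n : ℕ} (y : Fin n → Fin n → ℝ) (η : Fin n → ℝ) (c : Fin n → ℝ) :
    Matrix.det (Matrix.of fun i => y i - c i • η) =
      Matrix.det (Matrix.of y) - ∑ j, c j * Matrix.det (Matrix.of (Function.update y j η)) := by
  have h := AlgId_aux y η c Finset.univ
  simpa using h

end Pool.Agent.ChP
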