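import Pool.Agent.ChP.DetExp
import Pool.Agent.ChP.AlgId

/-!
# The truncated integral vanishes

By `det_exp` and `det_sub_smul_row` (with `y_i = Y_i η`, `c_i = u_i² (η·Y_i η)/2`) and the
hypothesis `det (Y_i η) = 0`, the inner integral is
`const * I^n * ∫ η, gdens 1 η * ∏ u_i exp(-u_i² |η|²/2) *
   (- ∑ j, u_j²/2 (η·Y_j η) det (Y_1 η, .., η at j, .., Y_n η))`.
Exchange the integrals over `u` (a bounded set) and `η`.  For fixed `η` the integral over the cube
of `u_j² ∏ u_i exp(-u_i² |η|²/2)` does not depend on `j` (exchange of two coordinates), call it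
`A(η)`; so the integral over `u` is `-(A(η)/2) ∑ j (η·Y_j η) det (.. η at j ..)
= -(A(η)/2) |η|² det (Y_i η) = 0` by `sum_dot_mul_det_update` with `v = η`.
-/

namespace Pool.Agent.ChP

open MeasureTheory Matrix

/-! #### functions of polynomial growth -/

private def csBd {n : ℕ} (f : (Fin n → ℝ) → ℝ) : Prop :=
  ∃ (C : ℝ) (k : ℕ), 0 ≤ C ∧ ∀ x, |f x| ≤ C * (1 + ∑ i, |x i|) ^ k

private theorem cs_one_le {n : ℕ} (x : Fin n → ℝ) : 1 ≤ 1 + ∑ i, |x i| := by
  have : 0 ≤ ∑ i, |x i| := Finset.sum_nonneg fun i _ => abs_nonneg _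
  linarith

private theorem csBd_const {n : ℕ} (c : ℝ) : csBd (fun _ : Fin n → ℝ => c) :=
  ⟨|c|, 0, abs_nonneg c, fun x => by rw [pow_zero, mul_one]⟩

private theorem csBd_coord {n : ℕ} (i : Fin n) : csBd (fun x : Fin n → ℝ => x i) := by
  refine ⟨1, 1, zero_le_one, fun x => ?_⟩
  rw [pow_one, one_mul]
  have h1 : |x i| ≤ ∑ i, |x i| :=
    Finset.single_le_sum (f := fun i => |x i|) (fun i _ => abs_nonneg _) (Finset.mem_univ i)
  linarith

private theorem csBd_mul {n : ℕ} {f g : (Fin n → ℝ) → ℝ} (hf : csBd f) (hg : csBd g) :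
    csBd (fun x => f x * g x) := by
  obtain ⟨C, k, hC, h⟩ := hf
  obtain ⟨C', k', hC', h'⟩ := hg
  refine ⟨C * C', k + k', mul_nonneg hC hC', fun x => ?_⟩
  have h0 := cs_one_le x
  rw [abs_mul, pow_add]
  calc |f x| * |g x| ≤ (C * (1 + ∑ i, |x i|) ^ k) * (C' * (1 + ∑ i, |x i|) ^ k') :=
        mul_le_mul (h x) (h' x) (abs_nonneg _) (by positivity)
    _ = _ := by ring

private theorem csBd_add {n : ℕ} {f g : (Fin n → ℝ) → ℝ} (hf : csBd f) (hg : csBd g) :
    csBd (fun x => f x + g x) := by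
  obtain ⟨C, k, hC, h⟩ := hf
  obtain ⟨C', k', hC', h'⟩ := hg
  refine ⟨C + C', max k k', add_nonneg hC hC', fun x => ?_⟩
  have h0 := cs_one_le x
  have e1 : (1 + ∑ i, |x i|) ^ k ≤ (1 + ∑ i, |x i|) ^ max k k' :=
    pow_le_pow_right₀ h0 (le_max_left _ _)
  have e2 : (1 + ∑ i, |x i|) ^ k' ≤ (1 + ∑ i, |x i|) ^ max k k' :=
    pow_le_pow_right₀ h0 (le_max_right _ _)
  calc |f x + g x| ≤ |f x| + |g x| := abs_add_le _ _
    _ ≤ C * (1 + ∑ i, |x i|) ^ k + C' * (1 + ∑ i, |x i|) ^ k' := add_le_add (h x) (h' x)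
    _ ≤ C * (1 + ∑ i, |x i|) ^ max k k' + C' * (1 + ∑ i, |x i|) ^ max k k' :=
        add_le_add (mul_le_mul_of_nonneg_left e1 hC) (mul_le_mul_of_nonneg_left e2 hC')
    _ = _ := by ring

private theorem csBd_abs {n : ℕ} {f : (Fin n → ℝ) → ℝ} (hf : csBd f) :
    csBd (fun x => |f x|) := by
  obtain ⟨C, k, hC, h⟩ := hf
  exact ⟨C, k, hC, fun x => by rw [abs_abs]; exact h x⟩

private theorem csBd_sum {n : ℕ} {ι : Type*} (s : Finset ι) (f : ι → (Fin n → ℝ) → ℝ)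
    (hf : ∀ i ∈ s, csBd (f i)) : csBd (fun x => ∑ i ∈ s, f i x) := by
  classical
  induction s using Finset.induction_on with
  | empty => simpa using csBd_const (n := n) 0
  | insert a s ha ih =>
    have h1 := hf a (Finset.mem_insert_self a s)
    have h2 := ih fun i hi => hf i (Finset.mem_insert_of_mem hi)
    have h3 := csBd_add h1 h2
    have e : (fun x => ∑ i ∈ insert a s, f i x) = fun x => f a x + ∑ i ∈ s, f i x := by
      funext x
      rw [Finset.sum_insert ha]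
    rw [e]
    exact h3

private theorem csBd_prod {n : ℕ} {ι : Type*} (s : Finset ι) (f : ι → (Fin n → ℝ) → ℝ)
    (hf : ∀ i ∈ s, csBd (f i)) : csBd (fun x => ∏ i ∈ s, f i x) := by
  classical
  induction s using Finset.induction_on with
  | empty => simpa using csBd_const (n := n) 1
  | insert a s ha ih =>
    have h1 := hf a (Finset.mem_insert_self a s)
    have h2 := ih fun i hi => hf i (Finset.mem_insert_of_mem hi)
    have h3 := csBd_mul h1 h2
    have e : (fun x => ∏ i ∈ insert a s, f i x) = fun x => f a x * ∏ i ∈ s, f i x := by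
      funext x
      rw [Finset.prod_insert ha]
    rw [e]
    exact h3

private theorem csBd_mulVec {n : ℕ} (A : Matrix (Fin n) (Fin n) ℝ) (j : Fin n) :
    csBd (fun x : Fin n → ℝ => (A *ᵥ x) j) := by
  have e : (fun x : Fin n → ℝ => (A *ᵥ x) j) = fun x => ∑ i, A j i * x i := rfl
  rw [e]
  exact csBd_sum _ _ fun i _ => csBd_mul (csBd_const _) (csBd_coord i)

private theorem csBd_dot {n : ℕ} (A : Matrix (Fin n) (Fin n) ℝ) :
    csBd (fun x : Fin n → ℝ => x ⬝ᵥ (A *ᵥ x)) := by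
  have e : (fun x : Fin n → ℝ => x ⬝ᵥ (A *ᵥ x)) = fun x => ∑ i, x i * (A *ᵥ x) i := rfl
  rw [e]
  exact csBd_sum _ _ fun i _ => csBd_mul (csBd_coord i) (csBd_mulVec A i)

/-- the determinant with `η` in the row `j` -/
private noncomputable def csD {n : ℕ} (Y : Fin n → Matrix (Fin n) (Fin n) ℝ) (j : Fin n)
    (η : Fin n → ℝ) : ℝ :=
  Matrix.det (Matrix.of (Function.update (fun i => Y i *ᵥ η) j η))

private theorem cs_update_apply {n : ℕ} (Y : Fin n → Matrix (Fin n) (Fin n) ℝ) (j i k : Fin n)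
    (η : Fin n → ℝ) : Function.update (fun i => Y i *ᵥ η) j η i k =
      if i = j then η k else (Y i *ᵥ η) k := by
  by_cases h : i = j
  · subst h
    rw [Function.update_self, if_pos rfl]
  · rw [Function.update_of_ne h, if_neg h]

private theorem csBd_D {n : ℕ} (Y : Fin n → Matrix (Fin n) (Fin n) ℝ) (j : Fin n) :
    csBd (csD Y j) := by
  have e : csD Y j = fun η => ∑ σ : Equiv.Perm (Fin n), ((Equiv.Perm.sign σ : ℤ) : ℝ) *
      ∏ i, (if σ i = j then η i else (Y (σ i) *ᵥ η) i) := by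
    funext η
    unfold csD
    rw [Matrix.det_apply']
    refine Finset.sum_congr rfl fun σ _ => ?_
    congr 1
    refine Finset.prod_congr rfl fun i _ => ?_
    rw [Matrix.of_apply, cs_update_apply]
  rw [e]
  refine csBd_sum _ _ fun σ _ => csBd_mul (csBd_const _) (csBd_prod _ _ fun i _ => ?_)
  by_cases h : σ i = j
  · simp only [if_pos h]
    exact csBd_coord i
  · simp only [if_neg h]
    exact csBd_mulVec _ _

private theorem cs_cont_mulVec {n : ℕ} (A : Matrix (Fin n) (Fin n) ℝ) (j : Fin n) :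
    Continuous (fun x : Fin n → ℝ => (A *ᵥ x) j) := by
  have e : (fun x : Fin n → ℝ => (A *ᵥ x) j) = fun x => ∑ i, A j i * x i := rfl
  rw [e]
  exact continuous_finsetSum _ fun i _ => continuous_const.mul (continuous_apply i)

private theorem cs_cont_dot {n : ℕ} (A : Matrix (Fin n) (Fin n) ℝ) :
    Continuous (fun x : Fin n → ℝ => x ⬝ᵥ (A *ᵥ x)) := by
  have e : (fun x : Fin n → ℝ => x ⬝ᵥ (A *ᵥ x)) = fun x => ∑ i, x i * (A *ᵥ x) i := rfl
  rw [e]
  exact continuous_finsetSum _ fun i _ => (continuous_apply i).mul (cs_cont_mulVec A i)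

private theorem cs_cont_D {n : ℕ} (Y : Fin n → Matrix (Fin n) (Fin n) ℝ) (j : Fin n) :
    Continuous (csD Y j) := by
  unfold csD
  apply Continuous.matrix_det
  apply continuous_matrix
  intro i k
  by_cases h : i = j
  · have e : (fun η : Fin n → ℝ => Matrix.of (Function.update (fun i => Y i *ᵥ η) j η) i k) =
        fun η => η k := by
      funext η
      rw [Matrix.of_apply, cs_update_apply, if_pos h]
    rw [e]
    exact continuous_apply k
  · have e : (fun η : Fin n → ℝ => Matrix.of (Function.update (fun i => Y i *ᵥ η) j η) i k) =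
        fun η => (Y i *ᵥ η) k := by
      funext η
      rw [Matrix.of_apply, cs_update_apply, if_neg h]
    rw [e]
    exact cs_cont_mulVec _ k

/-- the weight -/
private noncomputable def csW {n : ℕ} (u η : Fin n → ℝ) : ℝ :=
  ∏ i, (u i * Real.exp (-(u i ^ 2 * (η ⬝ᵥ η)) / 2))

/-- the integrand -/
private noncomputable def csG {n : ℕ} (Y : Fin n → Matrix (Fin n) (Fin n) ℝ)
    (u η : Fin n → ℝ) : ℝ :=
  gdens (1 : Matrix (Fin n) (Fin n) ℝ) η *
    (csW u η * (-∑ j, (u j ^ 2 * (η ⬝ᵥ (Y j *ᵥ η)) / 2) * csD Y j η))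

private theorem cs_det {n : ℕ} (Y : Fin n → Matrix (Fin n) (Fin n) ℝ)
    (h0 : ∀ η : Fin n → ℝ, Matrix.det (Matrix.of fun i => Y i *ᵥ η) = 0) (u η : Fin n → ℝ) :
    Matrix.det (Matrix.of fun i j : Fin n => Complex.I *
            ((u i * ((Y i *ᵥ η) j - u i ^ 2 * (η ⬝ᵥ (Y i *ᵥ η)) / 2 * η j) *
              Real.exp (-(u i ^ 2 * (η ⬝ᵥ η)) / 2) : ℝ) : ℂ)) =
      Complex.I ^ n * ((csW u η * (-∑ j, (u j ^ 2 * (η ⬝ᵥ (Y j *ᵥ η)) / 2) * csD Y j η) : ℝ) : ℂ) := by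
  set r : Matrix (Fin n) (Fin n) ℝ := Matrix.of fun i j : Fin n =>
    (u i * ((Y i *ᵥ η) j - u i ^ 2 * (η ⬝ᵥ (Y i *ᵥ η)) / 2 * η j) *
              Real.exp (-(u i ^ 2 * (η ⬝ᵥ η)) / 2)) with hr
  have e1 : (Matrix.of fun i j : Fin n => Complex.I *
            ((u i * ((Y i *ᵥ η) j - u i ^ 2 * (η ⬝ᵥ (Y i *ᵥ η)) / 2 * η j) *
              Real.exp (-(u i ^ 2 * (η ⬝ᵥ η)) / 2) : ℝ) : ℂ)) =
      Complex.I • (r.map (Complex.ofRealHom)) := by
    ext i j
    rfl
  rw [e1, Matrix.det_smul, Fintype.card_fin]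
  congr 1
  have e2 : (r.map Complex.ofRealHom).det = ((r.det : ℝ) : ℂ) := by
    rw [← RingHom.mapMatrix_apply, ← RingHom.map_det]
    rfl
  rw [e2]
  congr 1
  have e3 : r = Matrix.of fun i j : Fin n => (u i * Real.exp (-(u i ^ 2 * (η ⬝ᵥ η)) / 2)) *
      (Matrix.of fun i => (Y i *ᵥ η) - (u i ^ 2 * (η ⬝ᵥ (Y i *ᵥ η)) / 2) • η) i j := by
    ext i j
    simp only [hr, Matrix.of_apply, Pi.sub_apply, Pi.smul_apply, smul_eq_mul]
    ring
  rw [e3, Matrix.det_mul_column, det_sub_smul_row, h0 η, zero_sub]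
  rfl

private theorem cs_cube {n : ℕ} (R : ℝ) : {u : Fin n → ℝ | ∀ i, 0 < u i ∧ u i < R} =
    Set.pi Set.univ fun _ => Set.Ioo 0 R := by
  ext u
  simp only [Set.mem_pi, Set.mem_univ, forall_true_left, Set.mem_Ioo]
  rfl

private theorem cs_cube_meas {n : ℕ} (R : ℝ) :
    MeasurableSet {u : Fin n → ℝ | ∀ i, 0 < u i ∧ u i < R} := by
  rw [cs_cube]
  exact MeasurableSet.univ_pi fun _ => measurableSet_Ioo

private theorem cs_cube_sub {n : ℕ} (R : ℝ) :
    {u : Fin n → ℝ | ∀ i, 0 < u i ∧ u i < R} ⊆ Set.Icc 0 (fun _ => R) :=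
  fun _ hu => ⟨fun i => (hu i).1.le, fun i => (hu i).2.le⟩

private theorem cs_cube_fin {n : ℕ} (R : ℝ) :
    volume {u : Fin n → ℝ | ∀ i, 0 < u i ∧ u i < R} < ⊤ :=
  lt_of_le_of_lt (measure_mono (cs_cube_sub R)) isCompact_Icc.measure_lt_top

private theorem cs_cont_W {n : ℕ} : Continuous fun p : (Fin n → ℝ) × (Fin n → ℝ) =>
    csW p.1 p.2 := by
  unfold csW
  refine continuous_finsetProd _ fun i _ => ?_
  have h1 : Continuous fun p : (Fin n → ℝ) × (Fin n → ℝ) => p.1 i :=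
    (continuous_apply i).comp continuous_fst
  have h2 : Continuous fun p : (Fin n → ℝ) × (Fin n → ℝ) => p.2 ⬝ᵥ p.2 := by
    have e : (fun p : (Fin n → ℝ) × (Fin n → ℝ) => p.2 ⬝ᵥ p.2) = fun p => ∑ i, p.2 i * p.2 i := rfl
    rw [e]
    exact continuous_finsetSum _ fun i _ =>
      ((continuous_apply i).comp continuous_snd).mul ((continuous_apply i).comp continuous_snd)
  exact h1.mul (Real.continuous_exp.comp ((((h1.pow 2).mul h2).neg).div_const 2))

private theorem cs_cont_G {n : ℕ} (Y : Fin n → Matrix (Fin n) (Fin n) ℝ) :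
    Continuous (Function.uncurry (csG Y)) := by
  unfold csG
  have h1 : Continuous fun p : (Fin n → ℝ) × (Fin n → ℝ) =>
      gdens (1 : Matrix (Fin n) (Fin n) ℝ) p.2 := (continuous_gdens _).comp continuous_snd
  have h2 := cs_cont_W (n := n)
  have h3 : Continuous fun p : (Fin n → ℝ) × (Fin n → ℝ) =>
      -∑ j, (p.1 j ^ 2 * (p.2 ⬝ᵥ (Y j *ᵥ p.2)) / 2) * csD Y j p.2 := by
    refine (continuous_finsetSum _ fun j _ => ?_).neg
    have a1 : Continuous fun p : (Fin n → ℝ) × (Fin n → ℝ) => p.1 j :=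
      (continuous_apply j).comp continuous_fst
    have a2 : Continuous fun p : (Fin n → ℝ) × (Fin n → ℝ) => p.2 ⬝ᵥ (Y j *ᵥ p.2) :=
      (cs_cont_dot (Y j)).comp continuous_snd
    have a3 : Continuous fun p : (Fin n → ℝ) × (Fin n → ℝ) => csD Y j p.2 :=
      (cs_cont_D Y j).comp continuous_snd
    exact (((a1.pow 2).mul a2).div_const 2).mul a3
  exact h1.mul (h2.mul h3)

private theorem cs_W_bd {n : ℕ} {R : ℝ} {u : Fin n → ℝ} (hu : ∀ i, 0 < u i ∧ u i < R)
    (η : Fin n → ℝ) : |csW u η| ≤ |R| ^ n := by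
  unfold csW
  rw [Finset.abs_prod]
  have h1 : ∏ i : Fin n, |u i * Real.exp (-(u i ^ 2 * (η ⬝ᵥ η)) / 2)| ≤ ∏ _i : Fin n, |R| := by
    refine Finset.prod_le_prod (fun i _ => abs_nonneg _) fun i _ => ?_
    have h2 : 0 ≤ η ⬝ᵥ η := by
      have e : η ⬝ᵥ η = ∑ i, η i * η i := rfl
      rw [e]
      exact Finset.sum_nonneg fun i _ => mul_self_nonneg _
    rw [abs_mul, abs_of_pos (Real.exp_pos _), abs_of_pos (hu i).1]
    have h3 : Real.exp (-(u i ^ 2 * (η ⬝ᵥ η)) / 2) ≤ 1 := by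
      rw [Real.exp_le_one_iff]
      have : 0 ≤ u i ^ 2 * (η ⬝ᵥ η) := mul_nonneg (sq_nonneg _) h2
      linarith
    calc u i * Real.exp (-(u i ^ 2 * (η ⬝ᵥ η)) / 2) ≤ u i * 1 :=
          mul_le_mul_of_nonneg_left h3 (hu i).1.le
      _ = u i := mul_one _
      _ ≤ |R| := (hu i).2.le.trans (le_abs_self R)
  refine h1.trans (le_of_eq ?_)
  rw [Finset.prod_const, Finset.card_univ, Fintype.card_fin]

private theorem cs_int {n : ℕ} (Y : Fin n → Matrix (Fin n) (Fin n) ℝ) (R : ℝ) :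
    Integrable (Function.uncurry (csG Y))
      ((volume.restrict {u : Fin n → ℝ | ∀ i, 0 < u i ∧ u i < R}).prod volume) := by
  have hfin : IsFiniteMeasure
      ((volume : Measure (Fin n → ℝ)).restrict {u : Fin n → ℝ | ∀ i, 0 < u i ∧ u i < R}) := by
    refine ⟨?_⟩
    rw [Measure.restrict_apply_univ]
    exact cs_cube_fin R
  have hbd : csBd (fun η : Fin n → ℝ => |R| ^ n * ∑ j, R ^ 2 / 2 *
      |(η ⬝ᵥ (Y j *ᵥ η)) * csD Y j η|) :=
    csBd_mul (csBd_const _) (csBd_sum _ _ fun j _ => csBd_mul (csBd_const _)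
      (csBd_abs (csBd_mul (csBd_dot _) (csBd_D Y j))))
  obtain ⟨C, k, hC, hCk⟩ := hbd
  have hcont : Continuous (fun η : Fin n → ℝ => |R| ^ n * ∑ j, R ^ 2 / 2 *
      |(η ⬝ᵥ (Y j *ᵥ η)) * csD Y j η|) :=
    continuous_const.mul (continuous_finsetSum _ fun j _ => continuous_const.mul
      ((cs_cont_dot (Y j)).mul (cs_cont_D Y j)).abs)
  have hh := integrable_poly_gdens (P := (1 : Matrix (Fin n) (Fin n) ℝ)) Matrix.PosDef.one _
    hcont C k hCk
  have hh2 := hh.comp_snd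
    ((volume : Measure (Fin n → ℝ)).restrict {u : Fin n → ℝ | ∀ i, 0 < u i ∧ u i < R})
  refine hh2.mono' (cs_cont_G Y).aestronglyMeasurable ?_
  rw [Measure.restrict_prod_eq_prod_univ,
    ae_restrict_iff' ((cs_cube_meas R).prod MeasurableSet.univ)]
  refine Filter.Eventually.of_forall fun p hp => ?_
  have hu : ∀ i, 0 < p.1 i ∧ p.1 i < R := hp.1
  obtain ⟨u, η⟩ := p
  change ∀ i, 0 < u i ∧ u i < R at hu
  change ‖csG Y u η‖ ≤ (|R| ^ n * ∑ j, R ^ 2 / 2 * |(η ⬝ᵥ (Y j *ᵥ η)) * csD Y j η|) *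
    gdens (1 : Matrix (Fin n) (Fin n) ℝ) η
  unfold csG
  rw [Real.norm_eq_abs, abs_mul, abs_mul, abs_neg, abs_of_nonneg (gdens_nonneg _ _), mul_comm]
  refine mul_le_mul_of_nonneg_right ?_ (gdens_nonneg _ _)
  refine mul_le_mul (cs_W_bd hu η) ?_ (abs_nonneg _) (by positivity)
  refine (Finset.abs_sum_le_sum_abs _ _).trans (Finset.sum_le_sum fun j _ => ?_)
  have e : (u j ^ 2 * (η ⬝ᵥ (Y j *ᵥ η)) / 2) * csD Y j η =
      u j ^ 2 / 2 * ((η ⬝ᵥ (Y j *ᵥ η)) * csD Y j η) := by ring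
  rw [e, abs_mul]
  refine mul_le_mul_of_nonneg_right ?_ (abs_nonneg _)
  have h2 : 0 ≤ u j ^ 2 / 2 := by positivity
  rw [abs_of_nonneg h2]
  have h3 : u j ^ 2 ≤ R ^ 2 := pow_le_pow_left₀ (hu j).1.le (hu j).2.le 2
  linarith

/-- exchange of two coordinates -/
private theorem cs_sym {n : ℕ} (R : ℝ) (η : Fin n → ℝ) (i j : Fin n) :
    ∫ u in {u : Fin n → ℝ | ∀ i, 0 < u i ∧ u i < R}, u i ^ 2 * csW u η =
      ∫ u in {u : Fin n → ℝ | ∀ i, 0 < u i ∧ u i < R}, u j ^ 2 * csW u η := by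
  have hmp := volume_measurePreserving_piCongrLeft (fun _ : Fin n => ℝ) (Equiv.swap i j)
  have happ : ∀ (u : Fin n → ℝ) (k : Fin n),
      MeasurableEquiv.piCongrLeft (fun _ : Fin n => ℝ) (Equiv.swap i j) u k =
        u (Equiv.swap i j k) := by
    intro u k
    have h1 := MeasurableEquiv.piCongrLeft_apply_apply (Equiv.swap i j) (β := fun _ : Fin n => ℝ)
      u (Equiv.swap i j k)
    rw [Equiv.swap_apply_self] at h1
    exact h1
  have hpre : (MeasurableEquiv.piCongrLeft (fun _ : Fin n => ℝ) (Equiv.swap i j)) ⁻¹'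
      {u : Fin n → ℝ | ∀ i, 0 < u i ∧ u i < R} = {u : Fin n → ℝ | ∀ i, 0 < u i ∧ u i < R} := by
    ext u
    constructor
    · intro h k
      have h1 := h (Equiv.swap i j k)
      rw [happ, Equiv.swap_apply_self] at h1
      exact h1
    · intro h k
      rw [happ]
      exact h _
  have h2 := hmp.setIntegral_preimage_emb
    (MeasurableEquiv.piCongrLeft (fun _ : Fin n => ℝ) (Equiv.swap i j)).measurableEmbedding
    (fun u => u i ^ 2 * csW u η) {u : Fin n → ℝ | ∀ i, 0 < u i ∧ u i < R}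
  rw [hpre] at h2
  rw [← h2]
  refine setIntegral_congr_fun (cs_cube_meas R) fun u _ => ?_
  have h3 : csW (MeasurableEquiv.piCongrLeft (fun _ : Fin n => ℝ) (Equiv.swap i j) u) η =
      csW u η := by
    unfold csW
    simp only [happ]
    exact Equiv.prod_comp (Equiv.swap i j)
      (fun k => u k * Real.exp (-(u k ^ 2 * (η ⬝ᵥ η)) / 2))
  change (MeasurableEquiv.piCongrLeft (fun _ : Fin n => ℝ) (Equiv.swap i j) u i) ^ 2 *
    csW (MeasurableEquiv.piCongrLeft (fun _ : Fin n => ℝ) (Equiv.swap i j) u) η =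
      u j ^ 2 * csW u η
  rw [h3, happ, Equiv.swap_apply_left]

private theorem cs_int_u {n : ℕ} (R : ℝ) (η : Fin n → ℝ) (j : Fin n) :
    IntegrableOn (fun u : Fin n → ℝ => u j ^ 2 * csW u η)
      {u : Fin n → ℝ | ∀ i, 0 < u i ∧ u i < R} := by
  have hc : Continuous fun u : Fin n → ℝ => u j ^ 2 * csW u η := by
    have h1 : Continuous fun u : Fin n → ℝ => csW u η :=
      (cs_cont_W (n := n)).comp (continuous_id.prodMk continuous_const)
    exact ((continuous_apply j).pow 2).mul h1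
  exact (hc.continuousOn.integrableOn_compact isCompact_Icc).mono_set (cs_cube_sub R)

private theorem cs_inner {n : ℕ} (Y : Fin n → Matrix (Fin n) (Fin n) ℝ)
    (h0 : ∀ η : Fin n → ℝ, Matrix.det (Matrix.of fun i => Y i *ᵥ η) = 0) (R : ℝ)
    (η : Fin n → ℝ) :
    ∫ u in {u : Fin n → ℝ | ∀ i, 0 < u i ∧ u i < R}, csG Y u η = 0 := by
  have e1 : ∀ u : Fin n → ℝ, csG Y u η = ∑ j, (-(gdens (1 : Matrix (Fin n) (Fin n) ℝ) η) / 2 *
      ((η ⬝ᵥ (Y j *ᵥ η)) * csD Y j η)) * (u j ^ 2 * csW u η) := by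
    intro u
    unfold csG
    rw [mul_neg, mul_neg, Finset.mul_sum, Finset.mul_sum, ← Finset.sum_neg_distrib]
    refine Finset.sum_congr rfl fun j _ => ?_
    ring
  simp only [e1]
  rw [integral_finsetSum _ fun j _ => (cs_int_u R η j).const_mul _]
  simp only [integral_const_mul]
  rcases isEmpty_or_nonempty (Fin n) with hemp | ⟨⟨i0⟩⟩
  · exact Finset.sum_of_isEmpty _
  · have e2 : ∀ j : Fin n, ∫ u in {u : Fin n → ℝ | ∀ i, 0 < u i ∧ u i < R}, u j ^ 2 * csW u η =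
        ∫ u in {u : Fin n → ℝ | ∀ i, 0 < u i ∧ u i < R}, u i0 ^ 2 * csW u η :=
      fun j => cs_sym R η j i0
    simp only [e2]
    rw [← Finset.sum_mul, ← Finset.mul_sum]
    have e3 : ∑ j, (η ⬝ᵥ (Y j *ᵥ η)) * csD Y j η = 0 := by
      have h1 := sum_dot_mul_det_update (fun i => Y i *ᵥ η) η η
      rw [h0 η, mul_zero] at h1
      exact h1
    rw [e3, mul_zero, zero_mul]

theorem cube_zero {n : ℕ} (Y : Fin n → Matrix (Fin n) (Fin n) ℝ) (hY : ∀ i, (Y i)ᵀ = Y i)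
    (h0 : ∀ η : Fin n → ℝ, Matrix.det (Matrix.of fun i => Y i *ᵥ η) = 0) (R : ℝ) :
    ∫ u in {u : Fin n → ℝ | ∀ i, 0 < u i ∧ u i < R},
      ∫ s : Fin n → Fin n → ℝ, Matrix.det (Matrix.of s) *
        gdens (1 : Matrix (Fin n) (Fin n) ℝ) (∑ i, u i • s i) * ∏ i, DY (Y i) (s i) = 0 := by
  have hC : ∀ u : Fin n → ℝ,
      ((∫ s : Fin n → Fin n → ℝ, Matrix.det (Matrix.of s) *
        gdens (1 : Matrix (Fin n) (Fin n) ℝ) (∑ i, u i • s i) * ∏ i, DY (Y i) (s i) : ℝ) : ℂ) =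
      ((((Real.sqrt ((2 * Real.pi) ^ n))⁻¹ : ℝ) : ℂ) * Complex.I ^ n) *
        ((∫ η, csG Y u η : ℝ) : ℂ) := by
    intro u
    rw [det_exp Y hY u, mul_assoc]
    congr 1
    rw [← integral_complex_ofReal, ← integral_const_mul]
    refine integral_congr_ae (Filter.Eventually.of_forall fun η => ?_)
    change ((gdens (1 : Matrix (Fin n) (Fin n) ℝ) η : ℝ) : ℂ) * _ =
      Complex.I ^ n * ((csG Y u η : ℝ) : ℂ)
    rw [cs_det Y h0 u η]
    unfold csG
    push_cast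
    ring
  have hzero : ∫ u in {u : Fin n → ℝ | ∀ i, 0 < u i ∧ u i < R}, ∫ η, csG Y u η = 0 := by
    rw [integral_integral_swap (cs_int Y R)]
    simp only [cs_inner Y h0 R, integral_zero]
  have hfin : ((∫ u in {u : Fin n → ℝ | ∀ i, 0 < u i ∧ u i < R},
      ∫ s : Fin n → Fin n → ℝ, Matrix.det (Matrix.of s) *
        gdens (1 : Matrix (Fin n) (Fin n) ℝ) (∑ i, u i • s i) * ∏ i, DY (Y i) (s i) : ℝ) : ℂ) =
        0 := by
    rw [← integral_complex_ofReal]
    have e : ∀ u : Fin n → ℝ, (((∫ s : Fin n → Fin n → ℝ, Matrix.det (Matrix.of s) *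
        gdens (1 : Matrix (Fin n) (Fin n) ℝ) (∑ i, u i • s i) * ∏ i, DY (Y i) (s i) : ℝ)) : ℂ) =
      ((((Real.sqrt ((2 * Real.pi) ^ n))⁻¹ : ℝ) : ℂ) * Complex.I ^ n) *
        ((∫ η, csG Y u η : ℝ) : ℂ) := hC
    rw [integral_congr_ae (Filter.Eventually.of_forall e), integral_const_mul]
    have e2 : ∫ u in {u : Fin n → ℝ | ∀ i, 0 < u i ∧ u i < R}, ((∫ η, csG Y u η : ℝ) : ℂ) =
        ((∫ u in {u : Fin n → ℝ | ∀ i, 0 < u i ∧ u i < R}, ∫ η, csG Y u η : ℝ) : ℂ) :=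
      integral_ofReal
    rw [e2, hzero, Complex.ofReal_zero, mul_zero]
  exact_mod_cast hfin

end Pool.Agent.ChP
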