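import Pool.Agent.ChP.Core

/-!
# The Euler number of a representation with a limit fixing a tensor

If the conjugates `g_N ρ g_N⁻¹` converge to a representation `ρ'` which fixes a tensor, the Euler
number of `ρ` vanishes.
-/

namespace Pool.Agent.ChP

open MeasureTheory Matrix Filter Topology

private theorem coreLim_det_ne_zero {n : ℕ} {Γ : Type*} [Group Γ]
    (ρ : Γ →* Matrix (Fin n) (Fin n) ℝ) (γ : Γ) : (ρ γ).det ≠ 0 := by
  intro h
  have h1 : ρ γ * ρ γ⁻¹ = 1 := by rw [← map_mul, mul_inv_cancel, map_one]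
  have h2 := congrArg Matrix.det h1
  rw [Matrix.det_mul, h, zero_mul, Matrix.det_one] at h2
  exact zero_ne_one h2

private theorem coreLim_conj {n : ℕ} {Γ ι : Type} [Group Γ] [Fintype ι]
    (ρ : Γ →* Matrix (Fin n) (Fin n) ℝ) (t : ι → Fin (n + 1) → Γ) (m : ι → ℝ)
    (h : WCycle (chi ρ) t m) (g : Matrix (Fin n) (Fin n) ℝ) (hg : 0 < g.det) :
    ∑ k, m k * CC (fun i => push (g * ρ (t k i) * g⁻¹) (gdens (1 : Matrix (Fin n) (Fin n) ℝ))) =
      eul ρ t m := by
  have hg' : (g⁻¹).det ≠ 0 := by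
    rw [Matrix.det_nonsing_inv, Ring.inverse_eq_inv']
    exact inv_ne_zero hg.ne'
  have h1 : ∀ k, CC (fun i => push (g * ρ (t k i) * g⁻¹)
      (gdens (1 : Matrix (Fin n) (Fin n) ℝ))) =
      CC (fun i => push (ρ (t k i)) (push g⁻¹ (gdens (1 : Matrix (Fin n) (Fin n) ℝ)))) := by
    intro k
    have h2 := CC_push g hg.ne'
      (fun i => push (ρ (t k i)) (push g⁻¹ (gdens (1 : Matrix (Fin n) (Fin n) ℝ))))
    rw [Real.sign_of_pos hg, one_mul] at h2
    rw [← h2]
    congr 1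
    funext i
    rw [push_push, push_push, Matrix.mul_assoc]
  simp only [h1]
  unfold eul
  exact CC_indep ρ t m h
    (fun x => push (ρ x) (push g⁻¹ (gdens (1 : Matrix (Fin n) (Fin n) ℝ))))
    (fun x => push (ρ x) (gdens (1 : Matrix (Fin n) (Fin n) ℝ)))
    (fun x => integrable_push (coreLim_det_ne_zero ρ x)
      (integrable_push hg' (integrable_gdens Matrix.PosDef.one)))
    (fun x => integrable_push (coreLim_det_ne_zero ρ x) (integrable_gdens Matrix.PosDef.one))
    (fun x => by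
      rw [integral_push (coreLim_det_ne_zero ρ x), integral_push hg',
        integral_gdens Matrix.PosDef.one])
    (fun x => by
      rw [integral_push (coreLim_det_ne_zero ρ x), integral_gdens Matrix.PosDef.one])
    (fun γ x => by
      rw [smul_eq_mul, map_mul]
      exact (push_push _ _ _).symm)
    (fun γ x => by
      rw [smul_eq_mul, map_mul]
      exact (push_push _ _ _).symm)

/-- the determinants of the limit. -/
theorem det_of_limit {n : ℕ} {Γ : Type} [Group Γ]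
    (ρ ρ' : Γ →* Matrix (Fin n) (Fin n) ℝ) (g : ℕ → Matrix (Fin n) (Fin n) ℝ)
    (hg : ∀ N, 0 < (g N).det)
    (hlim : ∀ γ, Tendsto (fun N => g N * ρ γ * (g N)⁻¹) atTop (𝓝 (ρ' γ))) (γ : Γ) :
    (ρ' γ).det = (ρ γ).det := by
  have h1 : Tendsto (fun N => (g N * ρ γ * (g N)⁻¹).det) atTop (𝓝 (ρ' γ).det) :=
    ((continuous_id.matrix_det).tendsto (ρ' γ)).comp (hlim γ)
  have h2 : ∀ N, (g N * ρ γ * (g N)⁻¹).det = (ρ γ).det := by
    intro N
    rw [Matrix.det_mul, Matrix.det_mul, Matrix.det_nonsing_inv, Ring.inverse_eq_inv']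
    have := (hg N).ne'
    field_simp
  simp only [h2] at h1
  exact tendsto_nhds_unique h1 tendsto_const_nhds

theorem eul_eq_of_limit {n : ℕ} {Γ ι : Type} [Group Γ] [Fintype ι]
    (ρ ρ' : Γ →* Matrix (Fin n) (Fin n) ℝ) (g : ℕ → Matrix (Fin n) (Fin n) ℝ)
    (hg : ∀ N, 0 < (g N).det)
    (hlim : ∀ γ, Tendsto (fun N => g N * ρ γ * (g N)⁻¹) atTop (𝓝 (ρ' γ)))
    (t : ι → Fin (n + 1) → Γ) (m : ι → ℝ) (h : WCycle (chi ρ) t m) :
    eul ρ' t m = eul ρ t m := by
  have hlimE : Tendsto (fun N => ∑ k, m k * CC (fun i => push (g N * ρ (t k i) * (g N)⁻¹)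
      (gdens (1 : Matrix (Fin n) (Fin n) ℝ)))) atTop (𝓝 (eul ρ' t m)) := by
    unfold eul
    apply tendsto_finsetSum
    intro k _
    apply Tendsto.const_mul
    exact tendsto_CC_push (fun N i => g N * ρ (t k i) * (g N)⁻¹) (fun i => ρ' (t k i))
      (fun i => coreLim_det_ne_zero ρ' (t k i)) (fun i => hlim (t k i))
  have hconst : ∀ N, ∑ k, m k * CC (fun i => push (g N * ρ (t k i) * (g N)⁻¹)
      (gdens (1 : Matrix (Fin n) (Fin n) ℝ))) = eul ρ t m :=
    fun N => coreLim_conj ρ t m h (g N) (hg N)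
  simp only [hconst] at hlimE
  exact (tendsto_nhds_unique hlimE tendsto_const_nhds)

/-- The sum of the averaged cocycle vanishes for a representation `ρ` with a limit `ρ'` of
conjugates which fixes a tensor. -/
theorem sum_CC_eq_zero_of_limit {d n : ℕ} {Γ X ι : Type} [Group Γ] [MulAction Γ X] [Fintype ι]
    (T : Ten d n) (hT : TSym T) (h0 : T ≠ 0) (hd : 0 < d)
    (ρ ρ' : Γ →* Matrix (Fin n) (Fin n) ℝ) (g : ℕ → Matrix (Fin n) (Fin n) ℝ)
    (hg : ∀ N, 0 < (g N).det)
    (hlim : ∀ γ, Tendsto (fun N => g N * ρ γ * (g N)⁻¹) atTop (𝓝 (ρ' γ)))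
    (hρ : ∀ γ, Fixes T (ρ' γ))
    (κ : X → Γ) (hκ : ∀ (γ : Γ) (x : X), κ (γ • x) = γ * κ x)
    (t : ι → Fin (n + 1) → X) (m : ι → ℝ) (h : WCycle (chi ρ) t m)
    (μ : X → (Fin n → ℝ) → ℝ) (hi : ∀ x, Integrable (μ x)) (h1 : ∀ x, ∫ y, μ x y = 1)
    (he : ∀ (γ : Γ) (x : X), μ (γ • x) = push (ρ γ) (μ x)) :
    ∑ k, m k * CC (fun i => μ (t k i)) = 0 := by
  have hW : WCycle (chi ρ) (fun k i => κ (t k i)) m := by
    intro φ hφ
    exact h (fun y => φ (fun i => κ (y i))) (by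
      intro γ y
      have h3 := hφ γ (fun i => κ (y i))
      have h2 : (fun i => κ (γ • y i)) = (fun i => γ • κ (y i)) := by
        funext i
        exact hκ γ (y i)
      show φ (fun i => κ (γ • y i)) = _
      rw [h2]
      exact h3)
  have hchi : chi ρ' = chi ρ := by
    funext γ
    simp only [chi, det_of_limit ρ ρ' g hg hlim γ]
  have h2 : eul ρ (fun k i => κ (t k i)) m = 0 := by
    rw [← eul_eq_of_limit ρ ρ' g hg hlim _ m hW]
    exact eul_eq_zero T hT h0 hd ρ' hρ _ m (by rw [hchi]; exact hW)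
  rw [← h2]
  unfold eul
  exact CC_indep ρ t m h μ
    (fun x => push (ρ (κ x)) (gdens (1 : Matrix (Fin n) (Fin n) ℝ)))
    hi
    (fun x => integrable_push (coreLim_det_ne_zero ρ (κ x)) (integrable_gdens Matrix.PosDef.one))
    h1
    (fun x => by
      rw [integral_push (coreLim_det_ne_zero ρ (κ x)), integral_gdens Matrix.PosDef.one])
    he
    (fun γ x => by
      rw [hκ, map_mul, push_push])

end Pool.Agent.ChP
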