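import Mathlib

/-!
# Triangulated closed affine manifolds
-/

namespace Pool.Agent.ChP

open Matrix
open scoped Pointwise

/-- A closed affine manifold of dimension `n` together with a triangulation of a regular covering
space by affine simplices, given by the developing map on the vertices: `K = (V, faces)` is a
simplicial complex, the group `Γ` acts freely on its simplices with finitely many orbits, `dev`
maps the vertices of every simplex to affinely independent points, is equivariant for the affine
holonomy `hol`, and its extension to `|K|`, affine on each simplex, is a local homeomorphism: at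
a point in the interior of `|σ|`, every direction `x` enters the interior of `|τ|` for exactly one
simplex `τ` containing `σ`. The manifold is `|K| / Γ`. -/
structure AffineTriangulation (n : ℕ) where
  /-- the group of deck transformations -/
  Γ : Type
  /-- the vertices -/
  V : Type
  [grp : Group Γ]
  [dec : DecidableEq V]
  [act : MulAction Γ V]
  /-- the simplices (as vertex sets) -/
  faces : Set (Finset V)
  nonempty_of_mem : ∀ σ ∈ faces, σ.Nonempty
  singleton_mem : ∀ v, {v} ∈ faces
  down_closed : ∀ σ ∈ faces, ∀ τ ⊆ σ, τ.Nonempty → τ ∈ faces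
  smul_mem : ∀ (γ : Γ), ∀ σ ∈ faces, γ • σ ∈ faces
  free : ∀ (γ : Γ), ∀ σ ∈ faces, γ • σ = σ → γ = 1
  cocompact : ∃ F : Finset (Finset V), ∀ σ ∈ faces, ∃ γ : Γ, γ • σ ∈ F
  /-- the developing map on the vertices -/
  dev : V → Fin n → ℝ
  /-- the affine holonomy -/
  hol : Γ →* ((Fin n → ℝ) ≃ᵃ[ℝ] (Fin n → ℝ))
  dev_smul : ∀ (γ : Γ) (v : V), dev (γ • v) = hol γ (dev v)
  indep : ∀ σ ∈ faces, AffineIndependent ℝ (fun v : σ => dev v)
  local_homeo : ∀ σ ∈ faces, ∀ x : Fin n → ℝ, ∃! τ : Finset V, τ ∈ faces ∧ σ ⊆ τ ∧
    ∃ c : V → ℝ, (∑ v ∈ τ, c v = 0) ∧ (∀ v ∈ τ \ σ, 0 < c v) ∧ ∑ v ∈ τ, c v • dev v = x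

attribute [instance] AffineTriangulation.grp AffineTriangulation.dec AffineTriangulation.act

namespace AffineTriangulation

variable {n : ℕ} (T : AffineTriangulation n)

/-- The number of `k`-dimensional simplices of the quotient `|K| / Γ`. -/
noncomputable def numSimplices (k : ℕ) : ℕ :=
  Set.ncard {O : Set (Finset T.V) | ∃ σ ∈ T.faces, σ.card = k + 1 ∧ O = MulAction.orbit T.Γ σ}

/-- The Euler characteristic of the closed manifold `|K| / Γ`. -/
noncomputable def eulerChar : ℤ :=
  ∑ k ∈ Finset.range (n + 1), (-1 : ℤ) ^ k * (T.numSimplices k : ℤ)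

/-- The linear part of the holonomy, as a matrix. -/
noncomputable def lin : T.Γ →* Matrix (Fin n) (Fin n) ℝ where
  toFun γ := LinearMap.toMatrix' ((T.hol γ).linear : (Fin n → ℝ) →ₗ[ℝ] (Fin n → ℝ))
  map_one' := by
    rw [map_one]
    exact LinearMap.toMatrix'_id
  map_mul' a b := by
    rw [map_mul, ← LinearMap.toMatrix'_comp]
    rfl

end AffineTriangulation

end Pool.Agent.ChP
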