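import Pool.Agent.ChP.Defs

/-!
# Basic facts on Gaussian densities
-/

namespace Pool.Agent.ChP

open MeasureTheory Matrix

private theorem gaussBase_sqrt_pow (a : ℝ) (ha : 0 ≤ a) (n : ℕ) :
    Real.sqrt (a ^ n) = Real.sqrt a ^ n := by
  induction n with
  | zero => simp
  | succ n ih => rw [pow_succ, pow_succ, Real.sqrt_mul (pow_nonneg ha n), ih]

theorem gdens_one_eq' {n : ℕ} (x : Fin n → ℝ) :
    gdens (1 : Matrix (Fin n) (Fin n) ℝ) x =
      (Real.sqrt ((2 * Real.pi) ^ n))⁻¹ * Real.exp (-(∑ i, x i ^ 2) / 2) := by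
  unfold gdens
  rw [Matrix.det_one, mul_one, inv_one, Matrix.one_mulVec]
  have h : x ⬝ᵥ x = ∑ i, x i ^ 2 := by
    unfold dotProduct
    exact Finset.sum_congr rfl fun i _ => by ring
  rw [h]

theorem gdens_one_eq {n : ℕ} (x : Fin n → ℝ) :
    gdens (1 : Matrix (Fin n) (Fin n) ℝ) x = ∏ i, ProbabilityTheory.gaussianPDFReal 0 1 (x i) := by
  rw [gdens_one_eq', gaussBase_sqrt_pow _ (by positivity)]
  unfold ProbabilityTheory.gaussianPDFReal
  rw [Finset.prod_mul_distrib, Finset.prod_const, ← Real.exp_sum, Finset.card_univ,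
    Fintype.card_fin, inv_pow]
  congr 1
  · simp
  · congr 1
    rw [← Finset.sum_neg_distrib, Finset.sum_div]
    refine Finset.sum_congr rfl fun i _ => ?_
    simp

theorem gdens_nonneg {n : ℕ} (P : Matrix (Fin n) (Fin n) ℝ) (x : Fin n → ℝ) : 0 ≤ gdens P x := by
  unfold gdens
  positivity

private theorem gaussBase_cont_quad {n : ℕ} (A : Matrix (Fin n) (Fin n) ℝ) :
    Continuous fun x : Fin n → ℝ => x ⬝ᵥ (A *ᵥ x) := by
  unfold dotProduct
  refine continuous_finsetSum _ fun i _ => (continuous_apply i).mul ?_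
  unfold mulVec dotProduct
  exact continuous_finsetSum _ fun j _ => continuous_const.mul (continuous_apply j)

theorem continuous_gdens {n : ℕ} (P : Matrix (Fin n) (Fin n) ℝ) : Continuous (gdens P) := by
  unfold gdens
  exact continuous_const.mul (Real.continuous_exp.comp
    ((gaussBase_cont_quad _).neg.div_const 2))

theorem gdens_neg {n : ℕ} (P : Matrix (Fin n) (Fin n) ℝ) (x : Fin n → ℝ) :
    gdens P (-x) = gdens P x := by
  unfold gdens
  rw [Matrix.mulVec_neg, neg_dotProduct, dotProduct_neg, neg_neg]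

theorem push_push {n : ℕ} (g h : Matrix (Fin n) (Fin n) ℝ) (p : (Fin n → ℝ) → ℝ) :
    push g (push h p) = push (g * h) p := by
  funext x
  unfold push
  rw [Matrix.det_mul, abs_mul, Matrix.mul_inv_rev, Matrix.mulVec_mulVec, mul_inv, mul_assoc]

theorem push_one {n : ℕ} (p : (Fin n → ℝ) → ℝ) : push (1 : Matrix (Fin n) (Fin n) ℝ) p = p := by
  funext x
  unfold push
  simp

theorem push_sub {n : ℕ} (g : Matrix (Fin n) (Fin n) ℝ) (p q : (Fin n → ℝ) → ℝ) :
    push g (fun x => p x - q x) = fun x => push g p x - push g q x := by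
  funext x
  unfold push
  ring

private theorem gaussBase_det_inv {n : ℕ} {g : Matrix (Fin n) (Fin n) ℝ} (hg : g.det ≠ 0) :
    (g⁻¹).det = (g.det)⁻¹ := by
  rw [Matrix.det_nonsing_inv, Ring.inverse_eq_inv']

private theorem gaussBase_emb {n : ℕ} {g : Matrix (Fin n) (Fin n) ℝ} (hg : g.det ≠ 0) :
    MeasurableEmbedding (Matrix.toLin' g⁻¹) := by
  have hu : IsUnit g := (Matrix.isUnit_iff_isUnit_det g).2 (isUnit_iff_ne_zero.2 hg)
  have h1 : Continuous (Matrix.toLin' g⁻¹) := LinearMap.continuous_of_finiteDimensional _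
  have h2 : Continuous (Matrix.toLin' g) := LinearMap.continuous_of_finiteDimensional _
  have hdet : IsUnit g.det := isUnit_iff_ne_zero.2 hg
  let e : (Fin n → ℝ) ≃ₜ (Fin n → ℝ) :=
    { toFun := Matrix.toLin' g⁻¹
      invFun := Matrix.toLin' g
      left_inv := fun x => by
        rw [Matrix.toLin'_apply, Matrix.toLin'_apply, Matrix.mulVec_mulVec,
          Matrix.mul_nonsing_inv _ hdet, Matrix.one_mulVec]
      right_inv := fun x => by
        rw [Matrix.toLin'_apply, Matrix.toLin'_apply, Matrix.mulVec_mulVec,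
          Matrix.nonsing_inv_mul _ hdet, Matrix.one_mulVec]
      continuous_toFun := h1
      continuous_invFun := h2 }
  exact e.measurableEmbedding

private theorem gaussBase_map {n : ℕ} {g : Matrix (Fin n) (Fin n) ℝ} (hg : g.det ≠ 0) :
    Measure.map (Matrix.toLin' g⁻¹) (volume : Measure (Fin n → ℝ)) =
      ENNReal.ofReal |g.det| • (volume : Measure (Fin n → ℝ)) := by
  rw [Real.map_matrix_volume_pi_eq_smul_volume_pi (by
    rw [gaussBase_det_inv hg]; exact inv_ne_zero hg), gaussBase_det_inv hg, inv_inv]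

theorem integrable_push {n : ℕ} {g : Matrix (Fin n) (Fin n) ℝ} (hg : g.det ≠ 0)
    {p : (Fin n → ℝ) → ℝ} (hp : Integrable p) : Integrable (push g p) := by
  have h1 : Integrable p (Measure.map (Matrix.toLin' g⁻¹) (volume : Measure (Fin n → ℝ))) := by
    rw [gaussBase_map hg]
    exact hp.smul_measure ENNReal.ofReal_ne_top
  have h2 := (gaussBase_emb hg).integrable_map_iff.1 h1
  exact h2.const_mul _

theorem integral_push {n : ℕ} {g : Matrix (Fin n) (Fin n) ℝ} (hg : g.det ≠ 0)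
    (p : (Fin n → ℝ) → ℝ) : ∫ x, push g p x = ∫ x, p x := by
  have h1 := (gaussBase_emb hg).integral_map (μ := (volume : Measure (Fin n → ℝ))) p
  rw [gaussBase_map hg, integral_smul_measure, ENNReal.toReal_ofReal (abs_nonneg _)] at h1
  have h2 : ∫ x, push g p x = |g.det|⁻¹ * ∫ x, p (Matrix.toLin' g⁻¹ x) := by
    rw [← integral_const_mul]
    rfl
  rw [h2, ← h1, smul_eq_mul, inv_mul_cancel_left₀ (abs_ne_zero.2 hg)]

theorem integral_abs_push {n : ℕ} {g : Matrix (Fin n) (Fin n) ℝ} (hg : g.det ≠ 0)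
    (p : (Fin n → ℝ) → ℝ) : ∫ x, |push g p x| = ∫ x, |p x| := by
  rw [← integral_push hg fun x => |p x|]
  congr 1
  funext x
  unfold push
  rw [abs_mul, abs_inv, abs_abs]

theorem push_gdens {n : ℕ} {g P : Matrix (Fin n) (Fin n) ℝ} (hg : g.det ≠ 0) (hP : P.PosDef) :
    push g (gdens P) = gdens (g * P * gᵀ) := by
  funext x
  unfold push gdens
  have hdet : IsUnit g.det := isUnit_iff_ne_zero.2 hg
  have e1 : (2 * Real.pi) ^ n * (g * P * gᵀ).det = g.det ^ 2 * ((2 * Real.pi) ^ n * P.det) := by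
    rw [Matrix.det_mul, Matrix.det_mul, Matrix.det_transpose]
    ring
  rw [e1, Real.sqrt_mul (sq_nonneg _), Real.sqrt_sq_eq_abs, mul_inv, ← mul_assoc]
  congr 1
  congr 1
  congr 2
  have e2 : (g * P * gᵀ)⁻¹ = (g⁻¹)ᵀ * P⁻¹ * g⁻¹ := by
    rw [Matrix.mul_inv_rev, Matrix.mul_inv_rev, Matrix.transpose_nonsing_inv, mul_assoc]
  rw [e2, ← Matrix.mulVec_mulVec, ← Matrix.mulVec_mulVec, Matrix.dotProduct_mulVec x,
    Matrix.vecMul_transpose]

private theorem gaussBase_factor {n : ℕ} {P : Matrix (Fin n) (Fin n) ℝ} (hP : P.PosDef) :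
    ∃ A : Matrix (Fin n) (Fin n) ℝ, A.det ≠ 0 ∧ P = A * Aᵀ := by
  open scoped MatrixOrder in
  obtain ⟨B, hB⟩ := CStarAlgebra.nonneg_iff_eq_star_mul_self.mp hP.posSemidef.nonneg
  refine ⟨Bᵀ, ?_, ?_⟩
  · intro h0
    have h1 := hP.det_pos
    have h2 : P.det = 0 := by
      rw [hB, Matrix.det_mul, ← Matrix.det_transpose B, h0, mul_zero]
    exact h1.ne' h2
  · rw [hB, Matrix.transpose_transpose]
    congr 1

private theorem gaussBase_sum_le_prod {ι : Type*} (s : Finset ι) (a : ι → ℝ)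
    (ha : ∀ i, 0 ≤ a i) : 1 + ∑ i ∈ s, a i ≤ ∏ i ∈ s, (1 + a i) := by
  classical
  induction s using Finset.induction_on with
  | empty => simp
  | insert i s hi ih =>
    rw [Finset.sum_insert hi, Finset.prod_insert hi]
    have h1 : 0 ≤ ∑ i ∈ s, a i := Finset.sum_nonneg fun j _ => ha j
    have h2 := ha i
    nlinarith [mul_nonneg h1 h2, mul_le_mul_of_nonneg_left ih (show (0 : ℝ) ≤ 1 + a i by linarith)]

private theorem gaussBase_eq_push {n : ℕ} {P : Matrix (Fin n) (Fin n) ℝ} (hP : P.PosDef) :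
    ∃ A : Matrix (Fin n) (Fin n) ℝ, A.det ≠ 0 ∧ gdens P = push A (gdens 1) := by
  obtain ⟨A, hA, hPA⟩ := gaussBase_factor hP
  refine ⟨A, hA, ?_⟩
  rw [push_gdens hA Matrix.PosDef.one, Matrix.mul_one, ← hPA]

private theorem gaussBase_int_one {n : ℕ} :
    Integrable (gdens (1 : Matrix (Fin n) (Fin n) ℝ)) := by
  have h : gdens (1 : Matrix (Fin n) (Fin n) ℝ) =
      fun x => ∏ i, ProbabilityTheory.gaussianPDFReal 0 1 (x i) := funext gdens_one_eq
  rw [h]
  exact Integrable.fintype_prod (f := fun _ => ProbabilityTheory.gaussianPDFReal 0 1)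
    fun _ => ProbabilityTheory.integrable_gaussianPDFReal 0 1

private theorem gaussBase_integral_one {n : ℕ} :
    ∫ x, gdens (1 : Matrix (Fin n) (Fin n) ℝ) x = 1 := by
  have h : gdens (1 : Matrix (Fin n) (Fin n) ℝ) =
      fun x => ∏ i, ProbabilityTheory.gaussianPDFReal 0 1 (x i) := funext gdens_one_eq
  rw [h, integral_fintype_prod_volume_eq_prod (fun _ => ProbabilityTheory.gaussianPDFReal 0 1)]
  rw [ProbabilityTheory.integral_gaussianPDFReal_eq_one 0 one_ne_zero]
  simp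

theorem integrable_gdens {n : ℕ} {P : Matrix (Fin n) (Fin n) ℝ} (hP : P.PosDef) :
    Integrable (gdens P) := by
  obtain ⟨A, hA, h⟩ := gaussBase_eq_push hP
  rw [h]
  exact integrable_push hA gaussBase_int_one

theorem integral_gdens {n : ℕ} {P : Matrix (Fin n) (Fin n) ℝ} (hP : P.PosDef) :
    ∫ x, gdens P x = 1 := by
  obtain ⟨A, hA, h⟩ := gaussBase_eq_push hP
  rw [h, integral_push hA, gaussBase_integral_one]

private theorem gaussBase_bound (k : ℕ) (t : ℝ) :
    (1 + |t|) ^ k * ProbabilityTheory.gaussianPDFReal 0 1 t ≤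
      (k.factorial : ℝ) * Real.exp 2 * (Real.sqrt (2 * Real.pi))⁻¹ *
        Real.exp (-(1 / 4) * t ^ 2) := by
  have h1 : (1 + |t|) ^ k ≤ k.factorial * Real.exp (1 + |t|) := by
    have := Real.pow_div_factorial_le_exp (1 + |t|) (by positivity) k
    rwa [div_le_iff₀ (by positivity), mul_comm] at this
  have h2 : Real.exp (1 + |t|) ≤ Real.exp (2 + t ^ 2 / 4) := by
    apply Real.exp_le_exp.2
    have h3 : 0 ≤ (|t| / 2 - 1) ^ 2 := sq_nonneg _
    have h4 : |t| ^ 2 = t ^ 2 := sq_abs t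
    nlinarith
  have h5 : ProbabilityTheory.gaussianPDFReal 0 1 t =
      (Real.sqrt (2 * Real.pi))⁻¹ * Real.exp (-t ^ 2 / 2) := by
    unfold ProbabilityTheory.gaussianPDFReal
    simp
  rw [h5]
  have h6 : 0 ≤ (Real.sqrt (2 * Real.pi))⁻¹ * Real.exp (-t ^ 2 / 2) := by positivity
  calc (1 + |t|) ^ k * ((Real.sqrt (2 * Real.pi))⁻¹ * Real.exp (-t ^ 2 / 2))
      ≤ (k.factorial * Real.exp (2 + t ^ 2 / 4)) *
        ((Real.sqrt (2 * Real.pi))⁻¹ * Real.exp (-t ^ 2 / 2)) := by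
        refine mul_le_mul_of_nonneg_right (h1.trans ?_) h6
        exact mul_le_mul_of_nonneg_left h2 (by positivity)
    _ = _ := by
        have h7 : Real.exp (-(1 / 4) * t ^ 2) = Real.exp (t ^ 2 / 4) * Real.exp (-t ^ 2 / 2) := by
          rw [← Real.exp_add]
          congr 1
          ring
        rw [Real.exp_add, h7]
        ring

private theorem gaussBase_poly_one {n : ℕ} (f : (Fin n → ℝ) → ℝ) (hf : Continuous f) (C : ℝ)
    (k : ℕ) (hC : ∀ x, |f x| ≤ C * (1 + ∑ i, |x i|) ^ k) :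
    Integrable (fun x => f x * gdens (1 : Matrix (Fin n) (Fin n) ℝ) x) := by
  have hC0 : 0 ≤ C := by
    have := (abs_nonneg _).trans (hC 0)
    simpa using this
  let c : ℝ := (k.factorial : ℝ) * Real.exp 2 * (Real.sqrt (2 * Real.pi))⁻¹
  have hg : Integrable (fun x : Fin n → ℝ => ∏ i, (c * Real.exp (-(1 / 4) * x i ^ 2))) :=
    Integrable.fintype_prod (f := fun _ t => c * Real.exp (-(1 / 4) * t ^ 2))
      fun _ => (integrable_exp_neg_mul_sq (by norm_num)).const_mul c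
  refine (hg.const_mul C).mono' ?_ ?_
  · exact (hf.mul (continuous_gdens _)).aestronglyMeasurable
  · refine Filter.Eventually.of_forall fun x => ?_
    rw [Real.norm_eq_abs, abs_mul, abs_of_nonneg (gdens_nonneg _ _), gdens_one_eq]
    have h1 : 1 + ∑ i, |x i| ≤ ∏ i, (1 + |x i|) :=
      gaussBase_sum_le_prod _ _ (fun i => abs_nonneg (x i))
    have h2 : (1 + ∑ i, |x i|) ^ k ≤ ∏ i, (1 + |x i|) ^ k := by
      rw [Finset.prod_pow]
      exact pow_le_pow_left₀ (by positivity) h1 k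
    have h3 : 0 ≤ ∏ i, ProbabilityTheory.gaussianPDFReal 0 1 (x i) :=
      Finset.prod_nonneg fun i _ => ProbabilityTheory.gaussianPDFReal_nonneg _ _ _
    calc |f x| * ∏ i, ProbabilityTheory.gaussianPDFReal 0 1 (x i)
        ≤ (C * ∏ i, (1 + |x i|) ^ k) * ∏ i, ProbabilityTheory.gaussianPDFReal 0 1 (x i) := by
          refine mul_le_mul_of_nonneg_right ((hC x).trans ?_) h3
          exact mul_le_mul_of_nonneg_left h2 hC0
      _ = C * ∏ i, ((1 + |x i|) ^ k * ProbabilityTheory.gaussianPDFReal 0 1 (x i)) := by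
          rw [Finset.prod_mul_distrib, mul_assoc]
      _ ≤ C * ∏ i, (c * Real.exp (-(1 / 4) * x i ^ 2)) := by
          refine mul_le_mul_of_nonneg_left ?_ hC0
          refine Finset.prod_le_prod (fun i _ => ?_) fun i _ => gaussBase_bound k (x i)
          exact mul_nonneg (by positivity) (ProbabilityTheory.gaussianPDFReal_nonneg _ _ _)

/-- Gaussian decay dominates polynomials. -/
theorem integrable_poly_gdens {n : ℕ} {P : Matrix (Fin n) (Fin n) ℝ} (hP : P.PosDef)
    (f : (Fin n → ℝ) → ℝ) (hf : Continuous f) (C : ℝ) (k : ℕ)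
    (hC : ∀ x, |f x| ≤ C * (1 + ∑ i, |x i|) ^ k) : Integrable (fun x => f x * gdens P x) := by
  obtain ⟨A, hA, h⟩ := gaussBase_eq_push hP
  have hdet : IsUnit A.det := isUnit_iff_ne_zero.2 hA
  have hC0 : 0 ≤ C := by
    have := (abs_nonneg _).trans (hC 0)
    simpa using this
  have h1 : (fun x => f x * gdens P x) =
      push A (fun y => f (A *ᵥ y) * gdens (1 : Matrix (Fin n) (Fin n) ℝ) y) := by
    funext x
    rw [h]
    unfold push
    have e1 : A *ᵥ (A⁻¹ *ᵥ x) = x := by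
      rw [Matrix.mulVec_mulVec, Matrix.mul_nonsing_inv _ hdet, Matrix.one_mulVec]
    show f x * (|A.det|⁻¹ * gdens 1 (A⁻¹ *ᵥ x)) =
      |A.det|⁻¹ * (f (A *ᵥ (A⁻¹ *ᵥ x)) * gdens 1 (A⁻¹ *ᵥ x))
    rw [e1]
    ring
  rw [h1]
  apply integrable_push hA
  let K : ℝ := 1 + ∑ i, ∑ j, |A i j|
  have hK : 1 ≤ K := le_add_of_nonneg_right (by positivity)
  have hAc : Continuous fun y : Fin n → ℝ => A *ᵥ y := by
    have := LinearMap.continuous_of_finiteDimensional (Matrix.toLin' A)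
    exact this
  refine gaussBase_poly_one (fun y => f (A *ᵥ y)) (hf.comp hAc) (C * K ^ k) k fun y => ?_
  refine (hC _).trans ?_
  rw [mul_assoc, ← mul_pow]
  refine mul_le_mul_of_nonneg_left (pow_le_pow_left₀ (by positivity) ?_ k) hC0
  have h2 : ∑ i, |(A *ᵥ y) i| ≤ (∑ i, ∑ j, |A i j|) * (1 + ∑ i, |y i|) := by
    rw [Finset.sum_mul]
    refine Finset.sum_le_sum fun i _ => ?_
    unfold mulVec dotProduct
    refine (Finset.abs_sum_le_sum_abs _ _).trans ?_
    rw [Finset.sum_mul]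
    refine Finset.sum_le_sum fun j _ => ?_
    rw [abs_mul]
    refine mul_le_mul_of_nonneg_left ?_ (abs_nonneg _)
    have h3 : |y j| ≤ ∑ i, |y i| :=
      Finset.single_le_sum (f := fun i => |y i|) (fun i _ => abs_nonneg _) (Finset.mem_univ j)
    linarith
  have h4 : 0 ≤ ∑ i, |y i| := by positivity
  show 1 + ∑ i, |(A *ᵥ y) i| ≤ (1 + ∑ i, ∑ j, |A i j|) * (1 + ∑ i, |y i|)
  nlinarith

private theorem gaussBase_DY_bound {n : ℕ} (Y : Matrix (Fin n) (Fin n) ℝ) (x : Fin n → ℝ) :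
    |(x ⬝ᵥ (Y *ᵥ x) - Y.trace) / 2| ≤
      ((∑ i, ∑ j, |Y i j|) + |Y.trace|) * (1 + ∑ i, |x i|) ^ 2 := by
  set s := ∑ i, |x i| with hs
  have hs0 : 0 ≤ s := by positivity
  have h1 : |x ⬝ᵥ (Y *ᵥ x)| ≤ (∑ i, ∑ j, |Y i j|) * (1 + s) ^ 2 := by
    unfold dotProduct mulVec dotProduct
    refine (Finset.abs_sum_le_sum_abs _ _).trans ?_
    rw [Finset.sum_mul]
    refine Finset.sum_le_sum fun i _ => ?_
    rw [Finset.mul_sum]
    refine (Finset.abs_sum_le_sum_abs _ _).trans ?_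
    rw [Finset.sum_mul]
    refine Finset.sum_le_sum fun j _ => ?_
    have hi : |x i| ≤ s :=
      Finset.single_le_sum (f := fun i => |x i|) (fun i _ => abs_nonneg _) (Finset.mem_univ i)
    have hj : |x j| ≤ s :=
      Finset.single_le_sum (f := fun i => |x i|) (fun i _ => abs_nonneg _) (Finset.mem_univ j)
    rw [abs_mul, abs_mul]
    have h2 : |x i| * |x j| ≤ (1 + s) ^ 2 := by
      have := mul_le_mul hi hj (abs_nonneg _) hs0
      nlinarith
    calc |x i| * (|Y i j| * |x j|) = |Y i j| * (|x i| * |x j|) := by ring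
      _ ≤ _ := mul_le_mul_of_nonneg_left h2 (abs_nonneg _)
  have h3 : |Y.trace| ≤ |Y.trace| * (1 + s) ^ 2 := by
    refine le_mul_of_one_le_right (abs_nonneg _) ?_
    nlinarith
  rw [abs_div, abs_two]
  have h4 : |x ⬝ᵥ (Y *ᵥ x) - Y.trace| ≤ |x ⬝ᵥ (Y *ᵥ x)| + |Y.trace| := abs_sub _ _
  have h5 : 0 ≤ |x ⬝ᵥ (Y *ᵥ x) - Y.trace| := abs_nonneg _
  rw [add_mul]
  linarith

theorem continuous_DY {n : ℕ} (Y : Matrix (Fin n) (Fin n) ℝ) : Continuous (DY Y) := by
  unfold DY
  exact (((gaussBase_cont_quad Y).sub continuous_const).div_const 2).mul (continuous_gdens _)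

theorem integrable_DY {n : ℕ} (Y : Matrix (Fin n) (Fin n) ℝ) : Integrable (DY Y) := by
  have h := integrable_poly_gdens (P := (1 : Matrix (Fin n) (Fin n) ℝ)) Matrix.PosDef.one
    (fun x => (x ⬝ᵥ (Y *ᵥ x) - Y.trace) / 2)
    (((gaussBase_cont_quad Y).sub continuous_const).div_const 2)
    ((∑ i, ∑ j, |Y i j|) + |Y.trace|) 2 (gaussBase_DY_bound Y)
  exact h

end Pool.Agent.ChP
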