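import Pool.Agent.ChP.CCBasic
import Pool.Agent.ChP.GaussBase

/-!
# Concentrated densities

If `0` is not in the convex hull of any `n` of the vectors `s_0, ..., s_n` then `eps` is constant
near `s`: either `0` is not in the convex hull of all of them (compact, so this holds nearby, and
then `eps = 0`, since `eps s ≠ 0` gives the relation `∑ t_i s_i = 0` with all `t_i` of the same
sign), or `0 = ∑ c_i s_i` with all `c_i > 0`; then any `n` of the `s_i` are linearly independent
(otherwise one can move the coefficients along a second relation until one of them vanishes),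
so all signed minors `tco s i` are non-zero and of the same sign, which is an open condition.

`CC fun i => push (A i) (fun x => gdens (r² • 1) (x - a i))
  = ∫ ξ, eps (fun i => A i *ᵥ (a i + r • ξ i)) * ∏ gdens 1 (ξ i)` (change of variables), and the
integrand converges for `r → 0` and is bounded by `∏ gdens 1 (ξ i)`.
-/

namespace Pool.Agent.ChP

open MeasureTheory Matrix Filter Topology

private theorem EpsLim_facet {n : ℕ} (s : Fin (n + 1) → Fin n → ℝ) (c : Fin (n + 1) → ℝ)
    (hc : ∀ i, 0 ≤ c i) (hc1 : 0 < ∑ i, c i) (hrel : ∑ i, c i • s i = 0) (j : Fin (n + 1))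
    (hj : c j = 0) : (0 : Fin n → ℝ) ∈ convexHull ℝ (s '' {i | i ≠ j}) := by
  have h1 : ∑ i ∈ Finset.univ.erase j, c i = ∑ i, c i := by
    rw [← Finset.add_sum_erase _ _ (Finset.mem_univ j), hj, zero_add]
  have h2 : ∑ i ∈ Finset.univ.erase j, c i • s i = 0 := by
    rw [← hrel, ← Finset.add_sum_erase _ _ (Finset.mem_univ j), hj, zero_smul, zero_add]
  have h3 := Finset.centerMass_mem_convexHull (R := ℝ) (Finset.univ.erase j) (w := c) (z := s)
    (s := s '' {i | i ≠ j}) (fun i _ => hc i) (by rw [h1]; exact hc1)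
    (fun i hi => ⟨i, Finset.ne_of_mem_erase hi, rfl⟩)
  rwa [Finset.centerMass, h2, smul_zero] at h3

/-- the matrix of the last `n` vectors -/
private noncomputable def EpsLim_M {n : ℕ} (s : Fin (n + 1) → Fin n → ℝ) :
    Matrix (Fin n) (Fin n) ℝ :=
  Matrix.of fun i => s i.succ

private noncomputable def EpsLim_u {n : ℕ} (s : Fin (n + 1) → Fin n → ℝ) : Fin n → ℝ :=
  -((EpsLim_M s).det⁻¹ • (s 0 ᵥ* (EpsLim_M s).adjugate))

private theorem EpsLim_rel {n : ℕ} (s : Fin (n + 1) → Fin n → ℝ) (hd : (EpsLim_M s).det ≠ 0) :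
    s 0 = -∑ i, EpsLim_u s i • s i.succ := by
  have h1 : ∑ i, EpsLim_u s i • s i.succ = EpsLim_u s ᵥ* EpsLim_M s := by
    rw [Matrix.vecMul_eq_sum]
    rfl
  rw [h1, EpsLim_u, Matrix.neg_vecMul, Matrix.smul_vecMul, Matrix.vecMul_vecMul,
    Matrix.adjugate_mul, Matrix.vecMul_smul, Matrix.vecMul_one, smul_smul, inv_mul_cancel₀ hd,
    one_smul, neg_neg]

private theorem EpsLim_eps {n : ℕ} (s : Fin (n + 1) → Fin n → ℝ) (hd : (EpsLim_M s).det ≠ 0) :
    eps s = if ∀ i, 0 < EpsLim_u s i then Real.sign (EpsLim_M s).det else 0 := by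
  have h1 := eps_cons (fun i => s i.succ) (EpsLim_u s)
  rw [← EpsLim_rel s hd] at h1
  have h2 : (Fin.cons (s 0) (fun i => s i.succ) : Fin (n + 1) → Fin n → ℝ) = s :=
    Fin.cons_self_tail s
  rw [h2] at h1
  exact h1

private theorem EpsLim_eps0 {n : ℕ} (s : Fin (n + 1) → Fin n → ℝ) (hd : (EpsLim_M s).det = 0) :
    eps s = 0 := by
  have h1 := eps_cons_of_det_eq_zero (s 0) (fun i => s i.succ) hd
  have h2 : (Fin.cons (s 0) (fun i => s i.succ) : Fin (n + 1) → Fin n → ℝ) = s :=
    Fin.cons_self_tail s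
  rw [h2] at h1
  exact h1

private theorem EpsLim_contM {n : ℕ} :
    Continuous (fun s : Fin (n + 1) → Fin n → ℝ => EpsLim_M s) := by
  unfold EpsLim_M
  refine continuous_matrix fun i j => ?_
  simp only [Matrix.of_apply]
  fun_prop

private theorem EpsLim_contDet {n : ℕ} :
    Continuous (fun s : Fin (n + 1) → Fin n → ℝ => (EpsLim_M s).det) :=
  EpsLim_contM.matrix_det

private theorem EpsLim_contu {n : ℕ} (s : Fin (n + 1) → Fin n → ℝ) (hd : (EpsLim_M s).det ≠ 0)
    (i : Fin n) : ContinuousAt (fun s' : Fin (n + 1) → Fin n → ℝ => EpsLim_u s' i) s := by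
  have h1 : ContinuousAt (fun s' : Fin (n + 1) → Fin n → ℝ => (EpsLim_M s').det⁻¹) s :=
    EpsLim_contDet.continuousAt.inv₀ hd
  have h2 : Continuous (fun s' : Fin (n + 1) → Fin n → ℝ =>
      (s' 0 ᵥ* (EpsLim_M s').adjugate) i) := by
    have h3 : Continuous (fun s' : Fin (n + 1) → Fin n → ℝ => (EpsLim_M s').adjugate) :=
      EpsLim_contM.matrix_adjugate
    have h4 := Continuous.matrix_vecMul (A := fun s' : Fin (n + 1) → Fin n → ℝ => s' 0)
      (continuous_apply 0) h3
    exact (continuous_apply i).comp h4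
  unfold EpsLim_u
  simp only [Pi.neg_apply, Pi.smul_apply, smul_eq_mul]
  exact (h1.mul h2.continuousAt).neg

private theorem EpsLim_hull {n : ℕ} (s : Fin (n + 1) → Fin n → ℝ)
    (hd : (EpsLim_M s).det ≠ 0) (hu : ∀ i, 0 < EpsLim_u s i) :
    ∃ c ∈ stdSimplex ℝ (Fin (n + 1)), ∑ i, c i • s i = 0 := by
  set S : ℝ := 1 + ∑ i, EpsLim_u s i with hS
  have hS0 : 0 < S := by
    have : 0 ≤ ∑ i, EpsLim_u s i := Finset.sum_nonneg fun i _ => (hu i).le
    linarith
  refine ⟨fun i => S⁻¹ * (Fin.cons 1 (EpsLim_u s) : Fin (n + 1) → ℝ) i, ⟨fun i => ?_, ?_⟩, ?_⟩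
  · refine mul_nonneg (inv_nonneg.2 hS0.le) ?_
    refine Fin.cases ?_ (fun k => ?_) i
    · simp
    · simpa using (hu k).le
  · rw [← Finset.mul_sum, Fin.sum_univ_succ]
    simp only [Fin.cons_zero, Fin.cons_succ]
    exact inv_mul_cancel₀ hS0.ne'
  · have h1 : ∀ i : Fin (n + 1), (S⁻¹ * (Fin.cons 1 (EpsLim_u s) : Fin (n + 1) → ℝ) i) • s i =
        S⁻¹ • ((Fin.cons 1 (EpsLim_u s) : Fin (n + 1) → ℝ) i • s i) := fun i => by
      rw [smul_smul]
    simp only [h1]
    rw [← Finset.smul_sum, Fin.sum_univ_succ]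
    simp only [Fin.cons_zero, Fin.cons_succ, one_smul]
    have h2 := EpsLim_rel s hd
    rw [eq_neg_iff_add_eq_zero] at h2
    rw [h2, smul_zero]

theorem eps_eventually_eq {n : ℕ} (s : Fin (n + 1) → Fin n → ℝ)
    (hs : ∀ j, (0 : Fin n → ℝ) ∉ convexHull ℝ (s '' {i | i ≠ j})) :
    ∀ᶠ s' in 𝓝 s, eps s' = eps s := by
  by_cases hd : (EpsLim_M s).det = 0
  · rw [EpsLim_eps0 s hd]
    -- no convex relation at `s`
    have hK : ∀ c ∈ stdSimplex ℝ (Fin (n + 1)), ∑ i, c i • s i ≠ 0 := by
      rintro c ⟨hc0, hc1⟩ hrel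
      have hpos : ∀ i, 0 < c i := by
        intro i
        rcases (hc0 i).lt_or_eq with h | h
        · exact h
        · exact absurd (EpsLim_facet s c hc0 (by rw [hc1]; exact one_pos) hrel i h.symm) (hs i)
      obtain ⟨d, hd0, hd1⟩ := Matrix.exists_vecMul_eq_zero_iff.2 hd
      rw [Matrix.vecMul_eq_sum] at hd1
      have hd2 : ∑ i, d i • s i.succ = 0 := hd1
      -- a relation with a positive coefficient
      obtain ⟨e, he0, he1⟩ : ∃ e : Fin n → ℝ, (∃ i, 0 < e i) ∧ ∑ i, e i • s i.succ = 0 := by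
        by_cases h : ∃ i, 0 < d i
        · exact ⟨d, h, hd2⟩
        · push Not at h
          obtain ⟨i, hi⟩ : ∃ i, d i ≠ 0 := by
            by_contra hcon
            push Not at hcon
            exact hd0 (funext hcon)
          refine ⟨-d, ⟨i, ?_⟩, ?_⟩
          · simp only [Pi.neg_apply]
            have := lt_of_le_of_ne (h i) hi
            linarith
          · simp only [Pi.neg_apply, neg_smul, Finset.sum_neg_distrib, hd2, neg_zero]
      obtain ⟨i0, hi0⟩ := he0
      -- the maximal `t` with `c - t e` non-negative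
      obtain ⟨m, hm, hmin⟩ := Finset.exists_min_image
        (Finset.univ.filter fun i : Fin n => 0 < e i) (fun i => c i.succ / e i)
        ⟨i0, by simp [hi0]⟩
      have hem : 0 < e m := by simpa using hm
      set t : ℝ := c m.succ / e m with ht
      have ht0 : 0 < t := div_pos (hpos _) hem
      have hk : ∀ i, 0 ≤ c i.succ - t * e i := by
        intro i
        rcases le_or_gt (e i) 0 with h | h
        · have := mul_nonpos_of_nonneg_of_nonpos ht0.le h
          linarith [hpos i.succ]
        · have h1 := hmin i (by simp [h])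
          have h2 : t * e i ≤ c i.succ := by
            rw [ht]
            exact (le_div_iff₀ h).1 h1
          linarith
      have hf := EpsLim_facet s (Fin.cons (c 0) fun i => c i.succ - t * e i)
        (fun i => by
          refine Fin.cases ?_ (fun k => ?_) i
          · simpa using (hpos 0).le
          · simpa using hk k)
        (by
          rw [Fin.sum_univ_succ]
          simp only [Fin.cons_zero, Fin.cons_succ]
          have := Finset.sum_nonneg fun i (_ : i ∈ Finset.univ) => hk i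
          linarith [hpos 0])
        (by
          rw [Fin.sum_univ_succ]
          simp only [Fin.cons_zero, Fin.cons_succ, sub_smul, Finset.sum_sub_distrib]
          have h5 : ∑ i, (t * e i) • s i.succ = 0 := by
            have : ∑ i, (t * e i) • s i.succ = t • ∑ i, e i • s i.succ := by
              rw [Finset.smul_sum]
              exact Finset.sum_congr rfl fun i _ => by rw [smul_smul]
            rw [this, he1, smul_zero]
          rw [h5, sub_zero, ← hrel, Fin.sum_univ_succ])
        m.succ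
        (by
          simp only [Fin.cons_succ, ht]
          field_simp
          ring)
      exact hs _ hf
    have hev : ∀ᶠ s' in 𝓝 s, ∀ c ∈ stdSimplex ℝ (Fin (n + 1)), ∑ i, c i • s' i ≠ 0 := by
      refine (isCompact_stdSimplex ℝ (Fin (n + 1))).eventually_forall_of_forall_eventually ?_
      intro c hc
      have hcont : Continuous fun z : (Fin (n + 1) → Fin n → ℝ) × (Fin (n + 1) → ℝ) =>
          ∑ i, z.2 i • z.1 i := by fun_prop
      exact hcont.continuousAt.eventually_ne (hK c hc)
    filter_upwards [hev] with s' hs'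
    by_cases hd' : (EpsLim_M s').det = 0
    · exact EpsLim_eps0 s' hd'
    · rw [EpsLim_eps s' hd', if_neg]
      intro hu
      obtain ⟨c, hc, hc0⟩ := EpsLim_hull s' hd' hu
      exact hs' c hc hc0
  · have hsign : ∀ᶠ s' in 𝓝 s, Real.sign (EpsLim_M s').det = Real.sign (EpsLim_M s).det ∧
        (EpsLim_M s').det ≠ 0 := by
      rcases lt_or_gt_of_ne hd with h | h
      · filter_upwards [EpsLim_contDet.continuousAt.eventually_lt continuousAt_const h] with s' hs'
        exact ⟨by rw [Real.sign_of_neg hs', Real.sign_of_neg h], hs'.ne⟩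
      · filter_upwards [continuousAt_const.eventually_lt EpsLim_contDet.continuousAt h] with s' hs'
        exact ⟨by rw [Real.sign_of_pos hs', Real.sign_of_pos h], hs'.ne'⟩
    by_cases hpos : ∀ i, 0 < EpsLim_u s i
    · have hev : ∀ᶠ s' in 𝓝 s, ∀ i, 0 < EpsLim_u s' i := by
        rw [eventually_all]
        intro i
        exact continuousAt_const.eventually_lt (EpsLim_contu s hd i) (hpos i)
      filter_upwards [hev, hsign] with s' h1 h2
      rw [EpsLim_eps s' h2.2, EpsLim_eps s hd, if_pos h1, if_pos hpos, h2.1]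
    · by_cases hneg : ∃ i, EpsLim_u s i < 0
      · obtain ⟨i, hi⟩ := hneg
        filter_upwards [(EpsLim_contu s hd i).eventually_lt continuousAt_const hi, hsign]
          with s' h1 h2
        rw [EpsLim_eps s' h2.2, EpsLim_eps s hd, if_neg hpos, if_neg fun h => absurd (h i)
          (not_lt.2 h1.le)]
      · exfalso
        push Not at hneg hpos
        obtain ⟨j, hj⟩ := hpos
        have hj0 : EpsLim_u s j = 0 := le_antisymm hj (hneg j)
        refine hs j.succ (EpsLim_facet s (Fin.cons 1 (EpsLim_u s)) ?_ ?_ ?_ j.succ ?_)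
        · intro i
          refine Fin.cases ?_ (fun k => ?_) i
          · simp
          · simpa using hneg k
        · rw [Fin.sum_univ_succ]
          simp only [Fin.cons_zero, Fin.cons_succ]
          have := Finset.sum_nonneg fun i (_ : i ∈ Finset.univ) => hneg i
          linarith
        · rw [Fin.sum_univ_succ]
          simp only [Fin.cons_zero, Fin.cons_succ, one_smul]
          have h2 := EpsLim_rel s hd
          rw [eq_neg_iff_add_eq_zero] at h2
          exact h2
        · simpa using hj0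


/-- Gaussian density with centre `a` and standard deviation `r` -/
noncomputable def sg {n : ℕ} (r : ℝ) (a : Fin n → ℝ) : (Fin n → ℝ) → ℝ :=
  fun x => gdens (r ^ 2 • (1 : Matrix (Fin n) (Fin n) ℝ)) (x - a)

private theorem EpsLim_posDef {n : ℕ} {r : ℝ} (hr : 0 < r) :
    (r ^ 2 • (1 : Matrix (Fin n) (Fin n) ℝ)).PosDef :=
  Matrix.PosDef.one.smul (by positivity)

theorem integrable_sg {n : ℕ} {r : ℝ} (hr : 0 < r) (a : Fin n → ℝ) : Integrable (sg r a) :=
  (integrable_gdens (EpsLim_posDef hr)).comp_sub_right a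

theorem integral_sg {n : ℕ} {r : ℝ} (hr : 0 < r) (a : Fin n → ℝ) : ∫ x, sg r a x = 1 := by
  unfold sg
  rw [integral_sub_right_eq_self (fun x => gdens (r ^ 2 • (1 : Matrix (Fin n) (Fin n) ℝ)) x) a]
  exact integral_gdens (EpsLim_posDef hr)

/-- the standard Gaussian at a rescaled point -/
private theorem EpsLim_scale {n : ℕ} {r : ℝ} (hr : 0 < r) (a ξ : Fin n → ℝ) :
    sg r a (a + r • ξ) = (r ^ n)⁻¹ * gdens (1 : Matrix (Fin n) (Fin n) ℝ) ξ := by
  have hdet : (r • (1 : Matrix (Fin n) (Fin n) ℝ)).det ≠ 0 := by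
    rw [Matrix.det_smul, Matrix.det_one, mul_one, Fintype.card_fin]
    positivity
  have h1 := push_gdens (g := r • (1 : Matrix (Fin n) (Fin n) ℝ)) (P := 1) hdet Matrix.PosDef.one
  have h2 : r • (1 : Matrix (Fin n) (Fin n) ℝ) * 1 * (r • (1 : Matrix (Fin n) (Fin n) ℝ))ᵀ =
      r ^ 2 • (1 : Matrix (Fin n) (Fin n) ℝ) := by
    rw [mul_one, Matrix.transpose_smul, Matrix.transpose_one, Matrix.smul_mul, Matrix.mul_smul,
      mul_one, smul_smul, sq]
  rw [h2] at h1
  unfold sg
  rw [← h1, add_sub_cancel_left]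
  unfold push
  have h3 : (r • (1 : Matrix (Fin n) (Fin n) ℝ))⁻¹ = r⁻¹ • (1 : Matrix (Fin n) (Fin n) ℝ) := by
    refine Matrix.inv_eq_left_inv ?_
    rw [Matrix.smul_mul, Matrix.mul_smul, mul_one, smul_smul, inv_mul_cancel₀ hr.ne', one_smul]
  rw [h3, Matrix.smul_mulVec, Matrix.one_mulVec, smul_smul, inv_mul_cancel₀ hr.ne', one_smul,
    Matrix.det_smul, Matrix.det_one, mul_one, Fintype.card_fin, abs_of_pos (pow_pos hr n)]

private theorem EpsLim_map {n : ℕ} (A : Matrix (Fin n) (Fin n) ℝ) (hA : A.det ≠ 0) {r : ℝ}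
    (hr : 0 < r) (a : Fin n → ℝ) :
    Measure.map (fun x : Fin n → ℝ => A *ᵥ (a + r • x)) volume =
      ENNReal.ofReal (|A.det|⁻¹ * (r ^ n)⁻¹) • volume := by
  have hdet : (r • A).det ≠ 0 := by
    rw [Matrix.det_smul, Fintype.card_fin]
    exact mul_ne_zero (pow_pos hr n).ne' hA
  have h1 := Real.map_matrix_volume_pi_eq_smul_volume_pi hdet
  have h2 : (fun x : Fin n → ℝ => A *ᵥ (a + r • x)) =
      (fun y => A *ᵥ a + y) ∘ (Matrix.toLin' (r • A)) := by
    funext x
    simp only [Function.comp, Matrix.toLin'_apply, Matrix.mulVec_add, Matrix.smul_mulVec,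
      Matrix.mulVec_smul]
  rw [h2, ← Measure.map_map (measurable_const_add _)
    (LinearMap.continuous_of_finiteDimensional _).measurable, h1, Measure.map_smul,
    map_add_left_eq_self]
  congr 2
  rw [Matrix.det_smul, Fintype.card_fin, abs_inv, abs_mul, abs_of_pos (pow_pos hr n), mul_inv,
    mul_comm]

private theorem EpsLim_mapPi {n : ℕ} (A : Fin (n + 1) → Matrix (Fin n) (Fin n) ℝ)
    (hA : ∀ i, (A i).det ≠ 0) {r : ℝ} (hr : 0 < r) (a : Fin (n + 1) → Fin n → ℝ) :
    Measure.map (fun (x : Fin (n + 1) → Fin n → ℝ) i => A i *ᵥ (a i + r • x i)) volume =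
      (∏ i, ENNReal.ofReal (|(A i).det|⁻¹ * (r ^ n)⁻¹)) •
        (volume : Measure (Fin (n + 1) → Fin n → ℝ)) := by
  have hm : ∀ i, Measurable fun x : Fin n → ℝ => A i *ᵥ (a i + r • x) := by
    intro i
    refine Continuous.measurable ?_
    exact Continuous.matrix_mulVec continuous_const (by fun_prop)
  have hsf : ∀ i, SigmaFinite (Measure.map (fun x : Fin n → ℝ => A i *ᵥ (a i + r • x)) volume) := by
    intro i
    rw [EpsLim_map (A i) (hA i) hr (a i)]
    exact inferInstanceAs (SigmaFinite ((|(A i).det|⁻¹ * (r ^ n)⁻¹).toNNReal •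
      (volume : Measure (Fin n → ℝ))))
  have h1 := Measure.pi_map_pi (μ := fun _ : Fin (n + 1) => (volume : Measure (Fin n → ℝ)))
    (f := fun i (x : Fin n → ℝ) => A i *ᵥ (a i + r • x)) (fun i => (hm i).aemeasurable)
  rw [volume_pi, h1]
  refine Measure.pi_eq fun t ht => ?_
  rw [Measure.smul_apply, Measure.pi_pi, smul_eq_mul, ← Finset.prod_mul_distrib]
  refine Finset.prod_congr rfl fun i _ => ?_
  rw [EpsLim_map (A i) (hA i) hr (a i), Measure.smul_apply, smul_eq_mul]

private theorem EpsLim_CC {n : ℕ} (A : Fin (n + 1) → Matrix (Fin n) (Fin n) ℝ)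
    (hA : ∀ i, (A i).det ≠ 0) {r : ℝ} (hr : 0 < r) (a : Fin (n + 1) → Fin n → ℝ) :
    CC (fun i => push (A i) (sg r (a i))) =
      ∫ x : Fin (n + 1) → Fin n → ℝ, eps (fun i => A i *ᵥ (a i + r • x i)) *
        ∏ i, gdens (1 : Matrix (Fin n) (Fin n) ℝ) (x i) := by
  set k : Fin (n + 1) → ℝ := fun i => |(A i).det|⁻¹ * (r ^ n)⁻¹ with hk
  have hk0 : ∀ i, 0 < k i := fun i =>
    mul_pos (inv_pos.2 (abs_pos.2 (hA i))) (inv_pos.2 (pow_pos hr n))
  have hp0 : 0 < ∏ i, k i := Finset.prod_pos fun i _ => hk0 i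
  have hmeas : Measurable (fun (x : Fin (n + 1) → Fin n → ℝ) i => A i *ᵥ (a i + r • x i)) := by
    refine measurable_pi_lambda _ fun i => ?_
    refine Continuous.measurable ?_
    exact Continuous.matrix_mulVec continuous_const (by fun_prop)
  have hF : Measurable (fun s : Fin (n + 1) → Fin n → ℝ =>
      eps s * ∏ i, push (A i) (sg r (a i)) (s i)) := by
    refine measurable_eps.mul ?_
    refine Finset.measurable_fun_prod _ fun i _ => ?_
    refine Continuous.measurable ?_
    unfold push sg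
    refine continuous_const.mul ((continuous_gdens _).comp ?_)
    refine Continuous.sub ?_ continuous_const
    exact Continuous.matrix_mulVec continuous_const (continuous_apply i)
  have h1 := integral_map (μ := volume) hmeas.aemeasurable
    (f := fun s : Fin (n + 1) → Fin n → ℝ => eps s * ∏ i, push (A i) (sg r (a i)) (s i))
    hF.aestronglyMeasurable
  rw [EpsLim_mapPi A hA hr a, integral_smul_measure, ENNReal.toReal_prod] at h1
  have h2 : ∏ i, (ENNReal.ofReal (|(A i).det|⁻¹ * (r ^ n)⁻¹)).toReal = ∏ i, k i :=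
    Finset.prod_congr rfl fun i _ => ENNReal.toReal_ofReal (hk0 i).le
  rw [h2] at h1
  have h3 : ∀ x : Fin (n + 1) → Fin n → ℝ,
      eps (fun i => A i *ᵥ (a i + r • x i)) *
        ∏ i, push (A i) (sg r (a i)) (A i *ᵥ (a i + r • x i)) =
      (∏ i, k i) * (eps (fun i => A i *ᵥ (a i + r • x i)) *
        ∏ i, gdens (1 : Matrix (Fin n) (Fin n) ℝ) (x i)) := by
    intro x
    have h4 : ∀ i, push (A i) (sg r (a i)) (A i *ᵥ (a i + r • x i)) =
        k i * gdens (1 : Matrix (Fin n) (Fin n) ℝ) (x i) := by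
      intro i
      unfold push
      rw [Matrix.mulVec_mulVec, Matrix.nonsing_inv_mul _ (isUnit_iff_ne_zero.2 (hA i)),
        Matrix.one_mulVec, EpsLim_scale hr, ← mul_assoc]
    rw [Finset.prod_congr rfl fun i _ => h4 i, Finset.prod_mul_distrib]
    ring
  simp only [h3] at h1
  rw [integral_const_mul, smul_eq_mul] at h1
  exact mul_left_cancel₀ hp0.ne' h1

theorem tendsto_CC_sg {n : ℕ} (A : Fin (n + 1) → Matrix (Fin n) (Fin n) ℝ)
    (hA : ∀ i, (A i).det ≠ 0) (a : Fin (n + 1) → Fin n → ℝ)
    (hs : ∀ j, (0 : Fin n → ℝ) ∉ convexHull ℝ ((fun i => A i *ᵥ a i) '' {i | i ≠ j})) :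
    Tendsto (fun r : ℝ => CC fun i => push (A i) (sg r (a i))) (𝓝[>] 0)
      (𝓝 (eps fun i => A i *ᵥ a i)) := by
  have hint : Integrable (fun x : Fin (n + 1) → Fin n → ℝ =>
      ∏ i, gdens (1 : Matrix (Fin n) (Fin n) ℝ) (x i)) := by
    have := Integrable.fintype_prod (μ := fun _ : Fin (n + 1) => (volume : Measure (Fin n → ℝ)))
      (f := fun _ => gdens (1 : Matrix (Fin n) (Fin n) ℝ))
      (fun _ => integrable_gdens Matrix.PosDef.one)
    exact this
  have hone : ∫ x : Fin (n + 1) → Fin n → ℝ,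
      ∏ i, gdens (1 : Matrix (Fin n) (Fin n) ℝ) (x i) = 1 := by
    rw [integral_fintype_prod_volume_eq_prod
      (fun _ : Fin (n + 1) => gdens (1 : Matrix (Fin n) (Fin n) ℝ))]
    rw [Finset.prod_congr rfl fun i _ => integral_gdens Matrix.PosDef.one, Finset.prod_const_one]
  have hlim : Tendsto (fun r : ℝ => ∫ x : Fin (n + 1) → Fin n → ℝ,
      eps (fun i => A i *ᵥ (a i + r • x i)) * ∏ i, gdens (1 : Matrix (Fin n) (Fin n) ℝ) (x i))
      (𝓝[>] 0) (𝓝 (∫ x : Fin (n + 1) → Fin n → ℝ,
        eps (fun i => A i *ᵥ a i) * ∏ i, gdens (1 : Matrix (Fin n) (Fin n) ℝ) (x i))) := by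
    refine tendsto_integral_filter_of_dominated_convergence
      (fun x => ∏ i, gdens (1 : Matrix (Fin n) (Fin n) ℝ) (x i)) ?_ ?_ hint ?_
    · refine Eventually.of_forall fun r => ?_
      refine Measurable.aestronglyMeasurable ?_
      refine (measurable_eps.comp ?_).mul ?_
      · refine measurable_pi_lambda _ fun i => ?_
        refine Continuous.measurable ?_
        exact Continuous.matrix_mulVec continuous_const (by fun_prop)
      · refine Finset.measurable_fun_prod _ fun i _ => ?_
        exact (continuous_gdens _).measurable.comp (measurable_pi_apply i)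
    · refine Eventually.of_forall fun r => Eventually.of_forall fun x => ?_
      rw [norm_mul, Real.norm_eq_abs, Real.norm_eq_abs, abs_of_nonneg
        (Finset.prod_nonneg fun i _ => gdens_nonneg _ _)]
      exact mul_le_of_le_one_left (Finset.prod_nonneg fun i _ => gdens_nonneg _ _) (abs_eps_le _)
    · refine Eventually.of_forall fun x => ?_
      refine Tendsto.mul_const _ ?_
      have hc : Continuous (fun r : ℝ => (fun i => A i *ᵥ (a i + r • x i) :
          Fin (n + 1) → Fin n → ℝ)) := by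
        refine continuous_pi fun i => ?_
        exact Continuous.matrix_mulVec continuous_const (by fun_prop)
      have hc0 : Tendsto (fun r : ℝ => (fun i => A i *ᵥ (a i + r • x i) :
          Fin (n + 1) → Fin n → ℝ)) (𝓝[>] 0) (𝓝 (fun i => A i *ᵥ a i)) := by
        have h := (hc.tendsto 0).mono_left (nhdsWithin_le_nhds (s := Set.Ioi (0 : ℝ)))
        simpa using h
      have he := hc0.eventually (eps_eventually_eq _ hs)
      refine tendsto_const_nhds.congr' ?_
      filter_upwards [he] with r hr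
      exact hr.symm
  rw [integral_const_mul, hone, mul_one] at hlim
  refine hlim.congr' ?_
  filter_upwards [self_mem_nhdsWithin] with r hr
  exact (EpsLim_CC A hA hr a).symm

end Pool.Agent.ChP
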