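import Pool.Agent.ChP.OSign

/-!
# Generic equivariant vectors at the barycentres

For `σ ∈ R` choose `w σ` outside the finitely many proper subspaces spanned by
`vec t '' {i | i ≠ j}` (at most `n - 1` vectors), `t ∈ chainsFrom σ`; a real vector space is not a
finite union of proper subspaces.  Extend by `w (γ • σ) = lin γ *ᵥ w σ` (unique
representation of faces by `Reps`; outside `faces` put `0`).  Genericity is preserved:
`vec (γ • t) i = lin γ *ᵥ vec t i`.
-/

namespace Pool.Agent.ChP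

open Matrix
open scoped Pointwise

namespace AffineTriangulation

variable {n : ℕ} (K : AffineTriangulation n)

private theorem gw_linInd {t : Fin (n + 1) → K.Iv} (ht : K.IsChain t) :
    LinearIndependent ℝ (K.vec t) :=
  Matrix.linearIndependent_rows_of_det_ne_zero (K.det_vec_ne_zero ht)

private theorem gw_span {t : Fin (n + 1) → K.Iv} (ht : K.IsChain t) (j : Fin n) :
    Submodule.span ℝ (K.vec t '' {i | i ≠ j}) ≠ ⊤ := by
  intro h
  have h1 := (gw_linInd K ht).notMem_span_image (s := {i | i ≠ j}) (x := j) (by simp)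
  rw [h] at h1
  exact h1 Submodule.mem_top

private theorem gw_exists (σ : Finset K.V) : ∃ w : Fin n → ℝ,
    ∀ t : Fin (n + 1) → K.Iv, K.IsChain t → (t 0).1.1 = σ →
      ∀ j : Fin n, w ∉ Submodule.span ℝ (K.vec t '' {i | i ≠ j}) := by
  by_contra hcon
  push Not at hcon
  obtain ⟨⟨t, j⟩, htop⟩ := Subspace.exists_eq_top_of_iUnion_eq_univ
    (ι := Prod {t : Fin (n + 1) → K.Iv // t ∈ K.chainsFrom σ} (Fin n))
    (p := fun q => Submodule.span ℝ (K.vec q.1.1 '' {i | i ≠ q.2})) (by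
      rw [Set.eq_univ_iff_forall]
      intro w
      obtain ⟨t, ht, h0, j, hj⟩ := hcon w
      exact Set.mem_iUnion.2 ⟨(⟨t, K.mem_chainsFrom.2 ⟨ht, h0⟩⟩, j), hj⟩)
  exact gw_span K (K.mem_chainsFrom.1 t.2).1 j htop

private theorem gw_upper_nonempty (x : K.Iv) : x.1.2.Nonempty := x.2.1.mono x.2.2.1

private theorem gw_vec_smul (γ : K.Γ) (t : Fin (n + 1) → K.Iv) (i : Fin n) :
    K.vec (fun i => γ • t i) i = K.lin γ *ᵥ K.vec t i := by
  unfold vec
  rw [smul_lower, smul_upper, K.bary_smul γ (t i.succ).2.1,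
    K.bary_smul γ (gw_upper_nonempty K (t i.succ)), K.lin_mulVec]

private theorem gw_span_smul (γ : K.Γ) (t : Fin (n + 1) → K.Iv) (S : Set (Fin n)) (x : Fin n → ℝ)
    (h : K.lin γ *ᵥ x ∈ Submodule.span ℝ (K.vec (fun i => γ • t i) '' S)) :
    x ∈ Submodule.span ℝ (K.vec t '' S) := by
  have h1 : K.vec (fun i => γ • t i) '' S = (K.lin γ).mulVecLin '' (K.vec t '' S) := by
    rw [Set.image_image]
    refine Set.image_congr fun i _ => ?_
    exact gw_vec_smul K γ t i
  rw [h1, Submodule.span_image] at h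
  obtain ⟨y, hy, hxy⟩ := h
  have h2 : Function.Injective (K.lin γ).mulVec :=
    Matrix.mulVec_injective_iff_isUnit.2
      ((Matrix.isUnit_iff_isUnit_det _).2 (isUnit_iff_ne_zero.2 (K.det_lin_ne_zero γ)))
  have h3 : y = x := h2 hxy
  rw [← h3]
  exact hy

theorem exists_generic {R : Finset (Finset K.V)} (hR : K.Reps R) :
    ∃ w : Finset K.V → Fin n → ℝ,
      (∀ (γ : K.Γ), ∀ σ ∈ K.faces, w (γ • σ) = K.lin γ *ᵥ w σ) ∧
      ∀ σ ∈ K.faces, K.Generic w σ := by
  classical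
  choose w₀ hw₀ using gw_exists K
  choose p hp hpu using fun (τ : Finset K.V) (hτ : τ ∈ K.faces) => hR.2 τ hτ
  let w : Finset K.V → Fin n → ℝ := fun τ =>
    if hτ : τ ∈ K.faces then K.lin (p τ hτ).1 *ᵥ w₀ (p τ hτ).2 else 0
  have hw : ∀ (τ : Finset K.V) (hτ : τ ∈ K.faces), w τ = K.lin (p τ hτ).1 *ᵥ w₀ (p τ hτ).2 :=
    fun τ hτ => dif_pos hτ
  refine ⟨w, ?_, ?_⟩
  · intro γ σ hσ
    have hγ := K.smul_mem γ σ hσ
    rw [hw σ hσ, hw (γ • σ) hγ]
    have h1 : (γ * (p σ hσ).1, (p σ hσ).2) = p (γ • σ) hγ := by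
      refine hpu (γ • σ) hγ _ ⟨(hp σ hσ).1, ?_⟩
      change (γ * (p σ hσ).1) • (p σ hσ).2 = γ • σ
      rw [mul_smul, (hp σ hσ).2]
    rw [← h1, Matrix.mulVec_mulVec, map_mul]
  · intro σ hσ t ht h0 j hj
    rw [hw σ hσ] at hj
    set γ := (p σ hσ).1 with hγ
    set ρ := (p σ hσ).2 with hρ
    have h1 : γ • ρ = σ := (hp σ hσ).2
    have h2 : t = fun i => γ • (γ⁻¹ • t i) := by
      funext i
      rw [smul_inv_smul]
    rw [h2] at hj
    have h3 := gw_span_smul K γ (fun i => γ⁻¹ • t i) _ _ hj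
    refine hw₀ ρ (fun i => γ⁻¹ • t i) (ht.smul γ⁻¹) ?_ j h3
    change γ⁻¹ • (t 0).1.1 = ρ
    rw [h0, ← h1, inv_smul_smul]

/-- the vector field `sec` is equivariant -/
theorem sec_smul {w : Finset K.V → Fin n → ℝ}
    (hw : ∀ (γ : K.Γ), ∀ σ ∈ K.faces, w (γ • σ) = K.lin γ *ᵥ w σ) (γ : K.Γ) (x : K.Iv) :
    K.sec w (γ • x) = K.lin γ *ᵥ K.sec w x := by
  unfold sec
  rw [smul_lower, smul_upper]
  by_cases h : x.1.1 = x.1.2
  · have h1 : γ • x.1.1 = γ • x.1.2 := by rw [h]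
    rw [if_pos h, if_pos h1]
    refine hw γ _ ?_
    rw [h]
    exact x.2.2.2
  · have h1 : γ • x.1.1 ≠ γ • x.1.2 := fun h2 => h (smul_left_cancel γ h2)
    rw [if_neg h, if_neg h1, K.bary_smul γ x.2.1, K.bary_smul γ (gw_upper_nonempty K x),
      K.lin_mulVec]

private theorem gw_sec_zero {w : Finset K.V → Fin n → ℝ} {t : Fin (n + 1) → K.Iv}
    (ht : K.IsChain t) : K.sec w (t 0) = w (t 0).1.1 := if_pos ht.lower_zero

private theorem gw_sec_succ {w : Finset K.V → Fin n → ℝ} {t : Fin (n + 1) → K.Iv}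
    (ht : K.IsChain t) (i : Fin n) : K.sec w (t i.succ) = K.vec t i := by
  refine if_neg fun h => ?_
  have h1 := ht.card i.succ
  rw [← h, Fin.val_succ] at h1
  omega

private theorem gw_functional {t : Fin (n + 1) → K.Iv} (ht : K.IsChain t) :
    ∃ f : (Fin n → ℝ) →ₗ[ℝ] ℝ, ∀ i, f (K.vec t i) = 1 := by
  have hd := K.det_vec_ne_zero ht
  set A : Matrix (Fin n) (Fin n) ℝ := Matrix.of (K.vec t) with hA
  let y : Fin n → ℝ := A⁻¹ *ᵥ 1
  have hy : A *ᵥ y = 1 := by
    rw [Matrix.mulVec_mulVec, Matrix.mul_nonsing_inv A (isUnit_iff_ne_zero.2 hd),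
      Matrix.one_mulVec]
  refine ⟨{ toFun := fun x => x ⬝ᵥ y
            map_add' := fun a b => add_dotProduct a b y
            map_smul' := fun c a => smul_dotProduct c a y }, fun i => ?_⟩
  exact congrFun hy i

/-- genericity: no zeros of the vector field on the proper faces -/
theorem zero_notMem_convexHull {w : Finset K.V → Fin n → ℝ} {t : Fin (n + 1) → K.Iv}
    (ht : K.IsChain t) (hw : K.Generic w (t 0).1.1) (j : Fin (n + 1)) :
    (0 : Fin n → ℝ) ∉ convexHull ℝ ((fun i => K.sec w (t i)) '' {i | i ≠ j}) := by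
  obtain ⟨f, hf⟩ := gw_functional K ht
  have key : ∃ g : (Fin n → ℝ) →ₗ[ℝ] ℝ, ∀ i, i ≠ j → g (K.sec w (t i)) = 1 := by
    refine Fin.cases ?_ (fun j' => ?_) j
    · refine ⟨f, fun i hi => ?_⟩
      obtain ⟨i', rfl⟩ := Fin.exists_succ_eq_of_ne_zero hi
      rw [gw_sec_succ K ht, hf]
    · obtain ⟨g, hg1, hg2⟩ := Submodule.exists_le_ker_of_notMem (hw t ht rfl j')
      refine ⟨f + ((1 - f (w (t 0).1.1)) * (g (w (t 0).1.1))⁻¹) • g, fun i => ?_⟩
      refine Fin.cases (fun _ => ?_) (fun i' hi => ?_) i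
      · rw [gw_sec_zero K ht]
        simp only [LinearMap.add_apply, LinearMap.smul_apply, smul_eq_mul]
        field_simp
        ring
      · rw [gw_sec_succ K ht]
        have h1 : g (K.vec t i') = 0 := by
          have h2 : K.vec t i' ∈ LinearMap.ker g :=
            hg2 (Submodule.subset_span ⟨i', fun h => hi (by rw [h]), rfl⟩)
          exact h2
        simp only [LinearMap.add_apply, LinearMap.smul_apply, smul_eq_mul]
        rw [hf, h1, mul_zero, add_zero]
  obtain ⟨g, hg⟩ := key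
  intro h0
  have hsub : (fun i => K.sec w (t i)) '' {i | i ≠ j} ⊆ {x | g x = 1} := by
    rintro _ ⟨i, hi, rfl⟩
    exact hg i hi
  have h1 : (0 : Fin n → ℝ) ∈ {x | g x = 1} :=
    convexHull_min hsub (convex_hyperplane g.isLinear 1) h0
  have h2 : g 0 = 1 := h1
  rw [map_zero] at h2
  exact zero_ne_one h2

end AffineTriangulation

end Pool.Agent.ChP
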