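import Pool.Agent.ChP.CombDefs

/-!
# The cones of the chains cover

Induction on `m`.  For `m = 0` one has `L = σ = U` and `x` is constant on `σ` with sum `0`, so
`x = 0`.  For `m + 1`, let `M` be the value of `x` on `L`,
`A = |L| (M - max_{σ \ L} x)` (if `σ \ L` is not empty) and
`B = |U| min_{w ∈ U \ σ} (- x w)` (if `U \ σ` is not empty); at least one of the two sets is not
empty as `|U| - |L| = m + 1`.  Let `c ≥ 0` be the smaller one of `A`, `B` and
`x' = x - c • ev L U`.  If `c = A`, attained at `v ∈ σ \ L`, then `x'` satisfies the hypotheses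
for `(L ∪ {v}, U)`; if `c = B`, attained at `w`, then `x'` satisfies the hypotheses for
`(L, U \ {w})`.  (On `L` the value drops by `c/|L|` relative to the other elements of `U`, and all
elements of `U` are raised by `c/|U|`.)
-/

namespace Pool.Agent.ChP

private theorem CombCover_chain {V : Type*} {σ : Finset V} {m : ℕ}
    {t : Fin (m + 1) → Finset V × Finset V} (ht : CChain σ t) {L U : Finset V}
    (hL : L.Nonempty) (h1 : L ⊆ (t (Fin.last m)).1) (h2 : (t (Fin.last m)).2 ⊆ U)
    (hc : U.card = L.card + (m + 1)) :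
    CChain σ (Fin.snoc (α := fun _ => Finset V × Finset V) t (L, U)) := by
  constructor
  · have h : (0 : Fin (m + 1 + 1)) = Fin.castSucc (0 : Fin (m + 1)) := rfl
    rw [h, Fin.snoc_castSucc]
    exact ht.zero
  · intro i
    refine Fin.lastCases ?_ (fun j => ?_) i
    · rw [Fin.snoc_last]
      exact hL
    · rw [Fin.snoc_castSucc]
      exact ht.nonempty j
  · intro i
    refine Fin.lastCases ?_ (fun j => ?_) i
    · rw [Fin.snoc_last]
      simpa using hc
    · rw [Fin.snoc_castSucc]
      exact ht.card j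
  · intro i j
    refine Fin.lastCases (fun _ => ?_) (fun j' => ?_) j
    · rw [Fin.snoc_last]
      refine Fin.lastCases ?_ (fun i' => ?_) i
      · rw [Fin.snoc_last]
      · rw [Fin.snoc_castSucc]
        exact h1.trans (ht.anti i' (Fin.last m) (Fin.le_last i'))
    · refine Fin.lastCases (fun hij => ?_) (fun i' hij => ?_) i
      · exact absurd hij (not_le.2 (Fin.castSucc_lt_last j'))
      · rw [Fin.snoc_castSucc, Fin.snoc_castSucc]
        exact ht.anti i' j' (Fin.castSucc_le_castSucc_iff.1 hij)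
  · intro i j
    refine Fin.lastCases (fun _ => ?_) (fun j' => ?_) j
    · rw [Fin.snoc_last]
      refine Fin.lastCases ?_ (fun i' => ?_) i
      · rw [Fin.snoc_last]
      · rw [Fin.snoc_castSucc]
        exact (ht.mono i' (Fin.last m) (Fin.le_last i')).trans h2
    · refine Fin.lastCases (fun hij => ?_) (fun i' hij => ?_) i
      · exact absurd hij (not_le.2 (Fin.castSucc_lt_last j'))
      · rw [Fin.snoc_castSucc, Fin.snoc_castSucc]
        exact ht.mono i' j' (Fin.castSucc_le_castSucc_iff.1 hij)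

private theorem CombCover_extend {V : Type*} [DecidableEq V] {σ : Finset V} {m : ℕ}
    {L U L' U' : Finset V} (hL : L.Nonempty) (h1 : L ⊆ L') (h2 : U' ⊆ U)
    (hc : U.card = L.card + (m + 1)) {x : V → ℝ} {a : ℝ} (ha : 0 ≤ a)
    (h : ∃ t : Fin (m + 1) → Finset V × Finset V, CChain σ t ∧ t (Fin.last m) = (L', U') ∧
          ∃ c : Fin m → ℝ, (∀ i, 0 ≤ c i) ∧
            ∀ v, x v - a * ev L U v = ∑ i, c i * ev (t i.succ).1 (t i.succ).2 v) :
    ∃ t : Fin (m + 1 + 1) → Finset V × Finset V, CChain σ t ∧ t (Fin.last (m + 1)) = (L, U) ∧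
          ∃ c : Fin (m + 1) → ℝ, (∀ i, 0 ≤ c i) ∧
            ∀ v, x v = ∑ i, c i * ev (t i.succ).1 (t i.succ).2 v := by
  obtain ⟨t, ht, hlast, c, hc0, hx⟩ := h
  refine ⟨Fin.snoc (α := fun _ => Finset V × Finset V) t (L, U),
    CombCover_chain ht hL (by rw [hlast]; exact h1) (by rw [hlast]; exact h2) hc,
    Fin.snoc_last _ _, Fin.snoc (α := fun _ => ℝ) c a, ?_, ?_⟩
  · intro i
    refine Fin.lastCases ?_ (fun j => ?_) i
    · rw [Fin.snoc_last]
      exact ha
    · rw [Fin.snoc_castSucc]
      exact hc0 j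
  · intro v
    rw [Fin.sum_univ_castSucc, Fin.snoc_last, Fin.succ_last, Fin.snoc_last]
    have e : ∀ i : Fin m, (Fin.snoc (α := fun _ => ℝ) c a (Fin.castSucc i)) *
        ev (Fin.snoc (α := fun _ => Finset V × Finset V) t (L, U) (Fin.castSucc i).succ).1
          (Fin.snoc (α := fun _ => Finset V × Finset V) t (L, U) (Fin.castSucc i).succ).2 v =
        c i * ev (t i.succ).1 (t i.succ).2 v := by
      intro i
      rw [Fin.succ_castSucc, Fin.snoc_castSucc, Fin.snoc_castSucc]
    rw [Finset.sum_congr rfl fun i _ => e i, ← hx v]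
    ring

private theorem CombCover_sum {V : Type*} [DecidableEq V] {L U : Finset V} (hL : L.Nonempty)
    (hLU : L ⊆ U) : ∑ v ∈ U, ev L U v = 0 := by
  have hU : U.Nonempty := hL.mono hLU
  have h1 : (L.card : ℝ) ≠ 0 := by exact_mod_cast hL.card_pos.ne'
  have h2 : (U.card : ℝ) ≠ 0 := by exact_mod_cast hU.card_pos.ne'
  unfold ev
  rw [Finset.sum_sub_distrib, Finset.sum_ite_mem, Finset.sum_ite_mem, Finset.inter_self,
    Finset.inter_eq_right.2 hLU, Finset.sum_const, Finset.sum_const, nsmul_eq_mul, nsmul_eq_mul,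
    mul_inv_cancel₀ h1, mul_inv_cancel₀ h2, sub_self]

theorem comb_cover {V : Type*} [DecidableEq V] (σ : Finset V) (m : ℕ) :
    ∀ (L U : Finset V), L.Nonempty → L ⊆ σ → σ ⊆ U → U.card = L.card + m →
      ∀ x : V → ℝ, (∀ v, v ∉ U → x v = 0) → ∑ v ∈ U, x v = 0 → (∀ v ∈ U \ σ, x v ≤ 0) →
        (∀ v ∈ σ, ∀ v' ∈ L, x v ≤ x v') →
        ∃ t : Fin (m + 1) → Finset V × Finset V, CChain σ t ∧ t (Fin.last m) = (L, U) ∧
          ∃ c : Fin m → ℝ, (∀ i, 0 ≤ c i) ∧
            ∀ v, x v = ∑ i, c i * ev (t i.succ).1 (t i.succ).2 v := by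
  induction m with
  | zero =>
    intro L U hLn hLσ hσU hcard x hx0 hsum hneg hmax
    have hLU : L = U := Finset.eq_of_subset_of_card_le (hLσ.trans hσU) (by omega)
    have hσ : σ = U := Finset.Subset.antisymm hσU (hLU ▸ hLσ)
    subst hLU
    subst hσ
    have hconst : ∀ v ∈ σ, x v = 0 := by
      intro v hv
      have h1 : ∀ v' ∈ σ, x v' = x v := fun v' hv' =>
        le_antisymm (hmax v' hv' v hv) (hmax v hv v' hv')
      rw [Finset.sum_congr rfl h1, Finset.sum_const, nsmul_eq_mul] at hsum
      have h2 : (σ.card : ℝ) ≠ 0 := by exact_mod_cast hLn.card_pos.ne'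
      exact (mul_eq_zero.1 hsum).resolve_left h2
    refine ⟨fun _ => (σ, σ), ⟨rfl, fun _ => hLn, ?_, fun _ _ _ => Finset.Subset.refl _,
      fun _ _ _ => Finset.Subset.refl _⟩, rfl, fun _ => 0, fun _ => le_rfl, ?_⟩
    · intro i
      simp
    · intro v
      rw [Finset.univ_eq_empty, Finset.sum_empty]
      by_cases hv : v ∈ σ
      · exact hconst v hv
      · exact hx0 v hv
  | succ m ih =>
    intro L U hLn hLσ hσU hcard x hx0 hsum hneg hmax
    have hLU : L ⊆ U := hLσ.trans hσU
    have hUn : U.Nonempty := hLn.mono hLU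
    have hl : (0 : ℝ) < L.card := by exact_mod_cast hLn.card_pos
    have hu : (0 : ℝ) < U.card := by exact_mod_cast hUn.card_pos
    obtain ⟨v0, hv0⟩ := hLn
    have hLn : L.Nonempty := ⟨v0, hv0⟩
    have hM : ∀ v ∈ L, x v = x v0 := fun v hv =>
      le_antisymm (hmax v (hLσ hv) v0 hv0) (hmax v0 (hLσ hv0) v hv)
    have evL : ∀ v ∈ L, ev L U v = (L.card : ℝ)⁻¹ - (U.card : ℝ)⁻¹ := by
      intro v hv
      unfold ev
      rw [if_pos hv, if_pos (hLU hv)]
    have evU : ∀ v ∈ U, v ∉ L → ev L U v = - (U.card : ℝ)⁻¹ := by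
      intro v hv hv'
      unfold ev
      rw [if_neg hv', if_pos hv, zero_sub]
    have ev0 : ∀ v, v ∉ U → ev L U v = 0 := by
      intro v hv
      unfold ev
      rw [if_neg (fun h => hv (hLU h)), if_neg hv, sub_zero]
    have hsum' : ∀ a : ℝ, ∑ v ∈ U, (x v - a * ev L U v) = 0 := by
      intro a
      rw [Finset.sum_sub_distrib, ← Finset.mul_sum, CombCover_sum hLn hLU, hsum, mul_zero, sub_zero]
    -- the two possible steps
    have stepA : ∀ v ∈ σ, v ∉ L → (∀ u ∈ σ, u ∉ L → x u ≤ x v) →
        (∀ w ∈ U, w ∉ σ → (L.card : ℝ) * (x v0 - x v) ≤ (U.card : ℝ) * (- x w)) →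
        ∃ t : Fin (m + 1 + 1) → Finset V × Finset V, CChain σ t ∧ t (Fin.last (m + 1)) = (L, U) ∧
          ∃ c : Fin (m + 1) → ℝ, (∀ i, 0 ≤ c i) ∧
            ∀ v, x v = ∑ i, c i * ev (t i.succ).1 (t i.succ).2 v := by
      intro v hv hvL hvmax hAB
      obtain ⟨a, ha⟩ : ∃ a : ℝ, a = (L.card : ℝ) * (x v0 - x v) := ⟨_, rfl⟩
      have ha0 : 0 ≤ a := by
        rw [ha]
        exact mul_nonneg hl.le (sub_nonneg.2 (hmax v hv v0 hv0))
      have hal : a * (L.card : ℝ)⁻¹ = x v0 - x v := by
        rw [ha]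
        field_simp
      refine CombCover_extend (L' := insert v L) (U' := U) (a := a) hLn
        (Finset.subset_insert v L) (Finset.Subset.refl U) hcard ha0
        (ih (insert v L) U (Finset.insert_nonempty v L) (Finset.insert_subset hv hLσ) hσU ?_
          (fun v => x v - a * ev L U v) ?_ (hsum' a) ?_ ?_)
      · rw [Finset.card_insert_of_notMem hvL]
        omega
      · intro u hu'
        rw [hx0 u hu', ev0 u hu', mul_zero, sub_zero]
      · intro w hw
        rw [Finset.mem_sdiff] at hw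
        have hwL : w ∉ L := fun h => hw.2 (hLσ h)
        rw [evU w hw.1 hwL]
        have h1 := hAB w hw.1 hw.2
        rw [← ha] at h1
        have h2 : a * (U.card : ℝ)⁻¹ ≤ - x w := by
          rw [← div_eq_mul_inv, div_le_iff₀ hu]
          linarith
        linarith
      · have key : ∀ v' ∈ insert v L, x v' - a * ev L U v' = x v + a * (U.card : ℝ)⁻¹ := by
          intro v' hv'
          rcases Finset.mem_insert.1 hv' with h | h
          · subst h
            rw [evU _ (hσU hv) hvL]
            ring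
          · rw [evL v' h, hM v' h, mul_sub, hal]
            ring
        intro u hu' v' hv'
        rw [key v' hv']
        by_cases huL : u ∈ L
        · exact (key u (Finset.mem_insert_of_mem huL)).le
        · rw [evU u (hσU hu') huL]
          have := hvmax u hu' huL
          linarith
    have stepB : ∀ w ∈ U, w ∉ σ → (∀ u ∈ U, u ∉ σ → x u ≤ x w) →
        (∀ v ∈ σ, v ∉ L → (U.card : ℝ) * (- x w) ≤ (L.card : ℝ) * (x v0 - x v)) →
        ∃ t : Fin (m + 1 + 1) → Finset V × Finset V, CChain σ t ∧ t (Fin.last (m + 1)) = (L, U) ∧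
          ∃ c : Fin (m + 1) → ℝ, (∀ i, 0 ≤ c i) ∧
            ∀ v, x v = ∑ i, c i * ev (t i.succ).1 (t i.succ).2 v := by
      intro w hw hwσ hwmax hBA
      have hwL : w ∉ L := fun h => hwσ (hLσ h)
      obtain ⟨a, ha⟩ : ∃ a : ℝ, a = (U.card : ℝ) * (- x w) := ⟨_, rfl⟩
      have hxw : x w ≤ 0 := hneg w (Finset.mem_sdiff.2 ⟨hw, hwσ⟩)
      have ha0 : 0 ≤ a := by
        rw [ha]
        exact mul_nonneg hu.le (by linarith)
      have hau : a * (U.card : ℝ)⁻¹ = - x w := by
        rw [ha]
        field_simp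
      refine CombCover_extend (L' := L) (U' := U.erase w) (a := a) hLn
        (Finset.Subset.refl L) (Finset.erase_subset w U) hcard ha0
        (ih L (U.erase w) hLn hLσ ?_ ?_ (fun v => x v - a * ev L U v) ?_ ?_ ?_ ?_)
      · intro u hu'
        exact Finset.mem_erase.2 ⟨fun h => hwσ (h ▸ hu'), hσU hu'⟩
      · rw [Finset.card_erase_of_mem hw]
        omega
      · intro u hu'
        by_cases huw : u = w
        · subst huw
          rw [evU u hw hwL]
          linarith
        · have huU : u ∉ U := fun h => hu' (Finset.mem_erase.2 ⟨huw, h⟩)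
          rw [hx0 u huU, ev0 u huU, mul_zero, sub_zero]
      · have h1 := Finset.add_sum_erase U (fun v => x v - a * ev L U v) hw
        rw [hsum' a] at h1
        have h2 : x w - a * ev L U w = 0 := by
          rw [evU w hw hwL]
          linarith
        rw [h2, zero_add] at h1
        exact h1
      · intro u hu'
        rw [Finset.mem_sdiff, Finset.mem_erase] at hu'
        have huL : u ∉ L := fun h => hu'.2 (hLσ h)
        rw [evU u hu'.1.2 huL]
        have := hwmax u hu'.1.2 hu'.2
        linarith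
      · intro u hu' v' hv'
        by_cases huL : u ∈ L
        · rw [evL u huL, evL v' hv', hM u huL, hM v' hv']
        · rw [evU u (hσU hu') huL, evL v' hv', hM v' hv']
          have h1 := hBA u hu' huL
          rw [← ha] at h1
          have h2 : a * (L.card : ℝ)⁻¹ ≤ x v0 - x u := by
            rw [← div_eq_mul_inv, div_le_iff₀ hl]
            linarith
          linarith
    -- choose the step
    rcases (σ \ L).eq_empty_or_nonempty with hS1 | hS1
    · rcases (U \ σ).eq_empty_or_nonempty with hS2 | hS2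
      · exfalso
        have h1 : σ ⊆ L := Finset.sdiff_eq_empty_iff_subset.1 hS1
        have h2 : U ⊆ σ := Finset.sdiff_eq_empty_iff_subset.1 hS2
        have := Finset.card_le_card (h2.trans h1)
        omega
      · obtain ⟨w, hw, hwmax⟩ := Finset.exists_max_image (U \ σ) x hS2
        rw [Finset.mem_sdiff] at hw
        refine stepB w hw.1 hw.2 (fun u h1 h2 => hwmax u (Finset.mem_sdiff.2 ⟨h1, h2⟩)) ?_
        intro v hv hvL
        exact absurd (Finset.mem_sdiff.2 ⟨hv, hvL⟩) (by rw [hS1]; exact Finset.notMem_empty v)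
    · obtain ⟨v, hv, hvmax⟩ := Finset.exists_max_image (σ \ L) x hS1
      rw [Finset.mem_sdiff] at hv
      rcases (U \ σ).eq_empty_or_nonempty with hS2 | hS2
      · refine stepA v hv.1 hv.2 (fun u h1 h2 => hvmax u (Finset.mem_sdiff.2 ⟨h1, h2⟩)) ?_
        intro w hw hwσ
        exact absurd (Finset.mem_sdiff.2 ⟨hw, hwσ⟩) (by rw [hS2]; exact Finset.notMem_empty w)
      · obtain ⟨w, hw, hwmax⟩ := Finset.exists_max_image (U \ σ) x hS2
        rw [Finset.mem_sdiff] at hw
        rcases le_total ((L.card : ℝ) * (x v0 - x v)) ((U.card : ℝ) * (- x w)) with hAB | hAB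
        · refine stepA v hv.1 hv.2 (fun u h1 h2 => hvmax u (Finset.mem_sdiff.2 ⟨h1, h2⟩)) ?_
          intro u h1 h2
          refine hAB.trans (mul_le_mul_of_nonneg_left ?_ hu.le)
          have := hwmax u (Finset.mem_sdiff.2 ⟨h1, h2⟩)
          linarith
        · refine stepB w hw.1 hw.2 (fun u h1 h2 => hwmax u (Finset.mem_sdiff.2 ⟨h1, h2⟩)) ?_
          intro u h1 h2
          refine hAB.trans (mul_le_mul_of_nonneg_left ?_ hl.le)
          have := hvmax u (Finset.mem_sdiff.2 ⟨h1, h2⟩)
          linarith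

end Pool.Agent.ChP
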