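import Pool.Agent.ChP.Star
import Pool.Agent.ChP.CombCover

/-!
# Every direction lies in the cone of a chain

`local_homeo` for the direction `-x` gives `τ' ⊇ σ` and coefficients `c`; extend by zero to a top
simplex `τ ⊇ τ'` (`exists_top`); `y = -c` has sum `0`, `y ≤ 0` on `τ \ σ`,
`x = ∑_{v ∈ τ} y v • dev v`.  Let `v₀` be a point of `σ` where `y` is maximal and apply
`comb_cover` with `L = {v₀}`, `U = τ`, `m = n`.  Finally
`∑_v (ev L U v) • dev v = b_L - b_U`.
-/

namespace Pool.Agent.ChP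

namespace AffineTriangulation

variable {n : ℕ} (K : AffineTriangulation n)

private theorem CoverS_bary {τ A : Finset K.V} (hA : A ⊆ τ) :
    ∑ v ∈ τ, (if v ∈ A then (A.card : ℝ)⁻¹ else 0) • K.dev v = K.bary A := by
  have h := Finset.sum_subset (f := fun v => (if v ∈ A then (A.card : ℝ)⁻¹ else 0) • K.dev v) hA
    (fun v _ hv => by simp only [if_neg hv, zero_smul])
  rw [← h]
  unfold bary
  rw [Finset.smul_sum]
  exact Finset.sum_congr rfl fun v hv => by simp only [if_pos hv]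

private theorem CoverS_ev {τ L U : Finset K.V} (hL : L ⊆ τ) (hU : U ⊆ τ) :
    ∑ v ∈ τ, ev L U v • K.dev v = K.bary L - K.bary U := by
  rw [← CoverS_bary K hL, ← CoverS_bary K hU, ← Finset.sum_sub_distrib]
  refine Finset.sum_congr rfl fun v _ => ?_
  rw [← sub_smul]
  rfl

theorem exists_chain_cone {σ : Finset K.V} (hσ : σ ∈ K.faces) (x : Fin n → ℝ) :
    ∃ t : Fin (n + 1) → K.Iv, K.IsChain t ∧ (t 0).1.1 = σ ∧
      ∃ c : Fin n → ℝ, (∀ i, 0 ≤ c i) ∧ x = ∑ i, c i • K.vec t i := by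
  obtain ⟨τ', ⟨hτ'f, hστ', c, hc0, hcpos, hcx⟩, -⟩ := K.local_homeo σ hσ (-x)
  obtain ⟨τ, hτf, hτ'τ, hτcard⟩ := K.exists_top hτ'f
  let y : K.V → ℝ := fun v => if v ∈ τ' then -c v else 0
  have hyτ' : ∀ v ∈ τ', y v = -c v := fun v hv => if_pos hv
  have hyn : ∀ v, v ∉ τ' → y v = 0 := fun v hv => if_neg hv
  have hσne : σ.Nonempty := K.nonempty_of_mem σ hσ
  obtain ⟨v₀, hv₀σ, hv₀⟩ := Finset.exists_max_image σ y hσne
  have hsum : ∑ v ∈ τ, y v = 0 := by
    rw [← Finset.sum_subset hτ'τ (fun v _ hv => hyn v hv), Finset.sum_congr rfl hyτ',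
      Finset.sum_neg_distrib, hc0, neg_zero]
  have hyx : ∑ v ∈ τ, y v • K.dev v = x := by
    rw [← Finset.sum_subset hτ'τ (fun v _ hv => by rw [hyn v hv, zero_smul]),
      Finset.sum_congr rfl (g := fun v => -(c v • K.dev v))
        (fun v hv => by rw [hyτ' v hv, neg_smul]), Finset.sum_neg_distrib, hcx, neg_neg]
  obtain ⟨t, ht, htl, d, hd0, hdy⟩ := comb_cover σ n {v₀} τ (Finset.singleton_nonempty v₀)
    (Finset.singleton_subset_iff.2 hv₀σ) (hστ'.trans hτ'τ)
    (by rw [hτcard, Finset.card_singleton, add_comm]) y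
    (fun v hv => hyn v fun h => hv (hτ'τ h)) hsum
    (fun v hv => by
      rw [Finset.mem_sdiff] at hv
      by_cases h : v ∈ τ'
      · rw [hyτ' v h]
        have := hcpos v (Finset.mem_sdiff.2 ⟨h, hv.2⟩)
        linarith
      · rw [hyn v h])
    (fun v hv v' hv' => by
      rw [Finset.mem_singleton] at hv'
      rw [hv']
      exact hv₀ v hv)
  have hLσ : ∀ i, (t i).1 ⊆ σ := fun i => by
    have h := ht.anti 0 i (Fin.zero_le i)
    rwa [ht.zero] at h
  have hσU : ∀ i, σ ⊆ (t i).2 := fun i => by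
    have h := ht.mono 0 i (Fin.zero_le i)
    rwa [ht.zero] at h
  have hUτ : ∀ i, (t i).2 ⊆ τ := fun i => by
    have h := ht.mono i (Fin.last n) (Fin.le_last i)
    rwa [htl] at h
  let t' : Fin (n + 1) → K.Iv := fun i => ⟨t i, ht.nonempty i, (hLσ i).trans (hσU i),
    K.down_closed τ hτf _ (hUτ i) ((ht.nonempty i).mono ((hLσ i).trans (hσU i)))⟩
  refine ⟨t', ⟨fun i => ht.card i, fun i j h => ht.anti i j h, fun i j h => ht.mono i j h⟩, ?_,
    d, hd0, ?_⟩
  · change (t 0).1 = σ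
    rw [ht.zero]
  · rw [← hyx]
    have h1 : ∀ v ∈ τ, y v • K.dev v =
        ∑ i : Fin n, (d i * ev (t i.succ).1 (t i.succ).2 v) • K.dev v := fun v _ => by
      rw [hdy v, Finset.sum_smul]
    rw [Finset.sum_congr rfl h1, Finset.sum_comm]
    refine Finset.sum_congr rfl fun i _ => ?_
    change _ = d i • (K.bary (t i.succ).1 - K.bary (t i.succ).2)
    rw [← CoverS_ev K ((hLσ i.succ).trans ((hσU i.succ).trans (hUτ i.succ))) (hUτ i.succ),
      Finset.smul_sum]
    exact Finset.sum_congr rfl fun v _ => mul_smul _ _ _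

end AffineTriangulation

end Pool.Agent.ChP
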