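import Pool.Agent.ChP.CombDefs

/-!
# The open cones of the chains are disjoint

Let `P L U x` say: `x` is constant on `L`, `x v < x v'` for `v ∈ σ \ L`, `v' ∈ L`, `x w < 0` for
`w ∈ U \ σ`, `x = 0` outside `U`.  `open_prop`: if `x = ∑ c i • ev (t_{i+1})` with all `c i > 0`
then `P (t_m) x` (for `v ∈ σ \ L_m` the sum loses at least one positive term, and so on; induction
on `m` also works).

`comb_uniq`: induction on `m`.  Let `(L, U) = t_m = t'_m`, `c = c_last`, and
`x⁻ = x - c • ev L U = ∑_{i < m} ..`, `P (t_{m-1}) x⁻`.  If the last step of `t` is a removal,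
`t_{m-1} = (L ∪ {v}, U)`: then `c = |L| (M - x v)`, `x u < x v` for the other `u ∈ σ \ L`, and
`c < |U| (- x w)` for all `w ∈ U \ σ`.  If it is an addition, `t_{m-1} = (L, U \ {w})`: then
`c = |U| (- x w)`, `x u < x w` for the other `u ∈ U \ σ`, and `c < |L| (M - x v)` for all
`v ∈ σ \ L`.  The same for `t'`.  So both last steps are of the same kind, with the same element
and the same coefficient; apply the induction hypothesis to `x⁻`.
-/

namespace Pool.Agent.ChP

private theorem cu_sub1 {V : Type*} {σ : Finset V} {m : ℕ} {t : Fin (m + 1) → Finset V × Finset V}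
    (ht : CChain σ t) (i : Fin (m + 1)) : (t i).1 ⊆ σ := by
  have h := ht.anti 0 i (Fin.zero_le i)
  rwa [ht.zero] at h

private theorem cu_sub2 {V : Type*} {σ : Finset V} {m : ℕ} {t : Fin (m + 1) → Finset V × Finset V}
    (ht : CChain σ t) (i : Fin (m + 1)) : σ ⊆ (t i).2 := by
  have h := ht.mono 0 i (Fin.zero_le i)
  rwa [ht.zero] at h

private theorem cu_pos1 {V : Type*} {σ : Finset V} {m : ℕ} {t : Fin (m + 1) → Finset V × Finset V}
    (ht : CChain σ t) (i : Fin (m + 1)) : (0 : ℝ) < (t i).1.card := by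
  exact_mod_cast (ht.nonempty i).card_pos

private theorem cu_pos2 {V : Type*} {σ : Finset V} {m : ℕ} {t : Fin (m + 1) → Finset V × Finset V}
    (ht : CChain σ t) (i : Fin (m + 1)) : (0 : ℝ) < (t i).2.card := by
  have h1 := (ht.nonempty i).card_pos
  have h2 := ht.card i
  have h3 : 0 < (t i).2.card := by omega
  exact_mod_cast h3

/-- a nonempty chain of steps: the last term of the sum -/
private theorem cu_lt_sum {m : ℕ} (f : Fin m → ℝ) (hf : ∀ i, 0 ≤ f i) (hm : 0 < m)
    (hl : ∀ i : Fin m, i.succ = Fin.last m → 0 < f i) : 0 < ∑ i, f i := by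
  obtain ⟨k, rfl⟩ : ∃ k, m = k + 1 := ⟨m - 1, by omega⟩
  refine Finset.sum_pos' (fun i _ => hf i) ⟨Fin.last k, Finset.mem_univ _, hl _ ?_⟩
  exact Fin.succ_last k

theorem open_prop {V : Type*} [DecidableEq V] (σ : Finset V) (m : ℕ)
    (t : Fin (m + 1) → Finset V × Finset V) (ht : CChain σ t) (c : Fin m → ℝ)
    (hc : ∀ i, 0 < c i) (x : V → ℝ)
    (hx : ∀ v, x v = ∑ i, c i * ev (t i.succ).1 (t i.succ).2 v) :
    (∀ v ∈ (t (Fin.last m)).1, ∀ v' ∈ (t (Fin.last m)).1, x v = x v') ∧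
    (∀ v ∈ σ, v ∉ (t (Fin.last m)).1 → ∀ v' ∈ (t (Fin.last m)).1, x v < x v') ∧
    (∀ w ∈ (t (Fin.last m)).2, w ∉ σ → x w < 0) ∧ (∀ v, v ∉ (t (Fin.last m)).2 → x v = 0) ∧
    ∑ v ∈ (t (Fin.last m)).2, x v = 0 := by
  have hsub1 := cu_sub1 ht
  have hsub2 := cu_sub2 ht
  have hp1 := cu_pos1 ht
  have hp2 := cu_pos2 ht
  have hL : ∀ i : Fin m, (t (Fin.last m)).1 ⊆ (t i.succ).1 := fun i => ht.anti _ _ (Fin.le_last _)
  have hU : ∀ i : Fin m, (t i.succ).2 ⊆ (t (Fin.last m)).2 := fun i => ht.mono _ _ (Fin.le_last _)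
  refine ⟨?_, ?_, ?_, ?_, ?_⟩
  · intro v hv v' hv'
    rw [hx v, hx v']
    refine Finset.sum_congr rfl fun i _ => ?_
    unfold ev
    rw [if_pos (hL i hv), if_pos (hL i hv'), if_pos (hsub2 _ (hsub1 _ hv)),
      if_pos (hsub2 _ (hsub1 _ hv'))]
  · intro v hv hvL v' hv'
    have hm : 0 < m := by
      rcases Nat.eq_zero_or_pos m with h0 | h0
      · exfalso
        subst h0
        apply hvL
        have h1 : Fin.last 0 = 0 := rfl
        rw [h1, ht.zero]
        exact hv
      · exact h0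
    rw [← sub_pos, hx v, hx v', ← Finset.sum_sub_distrib]
    have hterm : ∀ i : Fin m, c i * ev (t i.succ).1 (t i.succ).2 v' -
        c i * ev (t i.succ).1 (t i.succ).2 v =
        c i * (if v ∈ (t i.succ).1 then 0 else ((t i.succ).1.card : ℝ)⁻¹) := by
      intro i
      unfold ev
      rw [if_pos (hL i hv'), if_pos (hsub2 _ (hsub1 _ hv')), if_pos (hsub2 _ hv)]
      by_cases h1 : v ∈ (t i.succ).1
      · rw [if_pos h1, if_pos h1]
        ring
      · rw [if_neg h1, if_neg h1]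
        ring
    simp only [hterm]
    apply cu_lt_sum _ _ hm
    · intro i hi
      rw [hi, if_neg hvL]
      exact mul_pos (hc i) (inv_pos.mpr (hp1 _))
    · intro i
      apply mul_nonneg (hc i).le
      split_ifs
      · exact le_rfl
      · exact (inv_pos.mpr (hp1 _)).le
  · intro w hw hwσ
    have hm : 0 < m := by
      rcases Nat.eq_zero_or_pos m with h0 | h0
      · exfalso
        subst h0
        apply hwσ
        have h1 : Fin.last 0 = 0 := rfl
        rw [h1, ht.zero] at hw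
        exact hw
      · exact h0
    rw [← neg_pos, hx w, ← Finset.sum_neg_distrib]
    have hterm : ∀ i : Fin m, -(c i * ev (t i.succ).1 (t i.succ).2 w) =
        c i * (if w ∈ (t i.succ).2 then ((t i.succ).2.card : ℝ)⁻¹ else 0) := by
      intro i
      unfold ev
      rw [if_neg fun h1 => hwσ (hsub1 _ h1)]
      ring
    simp only [hterm]
    apply cu_lt_sum _ _ hm
    · intro i hi
      rw [hi, if_pos hw]
      exact mul_pos (hc i) (inv_pos.mpr (hp2 _))
    · intro i
      apply mul_nonneg (hc i).le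
      split_ifs
      · exact (inv_pos.mpr (hp2 _)).le
      · exact le_rfl
  · intro v hv
    rw [hx v]
    refine Finset.sum_eq_zero fun i _ => ?_
    unfold ev
    rw [if_neg fun h1 => hv (hsub2 _ (hsub1 _ h1)), if_neg fun h1 => hv (hU i h1)]
    ring
  · simp only [hx]
    rw [Finset.sum_comm]
    refine Finset.sum_eq_zero fun i _ => ?_
    rw [← Finset.mul_sum]
    have h1 : ∑ v ∈ (t (Fin.last m)).2, ev (t i.succ).1 (t i.succ).2 v = 0 := by
      unfold ev
      rw [Finset.sum_sub_distrib, Finset.sum_ite_mem, Finset.sum_ite_mem,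
        Finset.inter_eq_right.mpr ((hsub1 _).trans (hsub2 _)), Finset.inter_eq_right.mpr (hU i),
        Finset.sum_const, Finset.sum_const, nsmul_eq_mul, nsmul_eq_mul,
        mul_inv_cancel₀ (hp1 _).ne', mul_inv_cancel₀ (hp2 _).ne', sub_self]
    rw [h1, mul_zero]

/-- the last step of a chain -/
private theorem cu_step {V : Type*} [DecidableEq V] {σ : Finset V} {m : ℕ}
    {t : Fin (m + 1 + 1) → Finset V × Finset V} (ht : CChain σ t) :
    (∃ v0 ∈ σ, v0 ∉ (t (Fin.last (m + 1))).1 ∧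
      t (Fin.last m).castSucc = (insert v0 (t (Fin.last (m + 1))).1, (t (Fin.last (m + 1))).2)) ∨
    (∃ w0 ∈ (t (Fin.last (m + 1))).2, w0 ∉ σ ∧
      t (Fin.last m).castSucc = ((t (Fin.last (m + 1))).1, (t (Fin.last (m + 1))).2.erase w0)) := by
  have h1 := ht.card (Fin.last (m + 1))
  have h2 := ht.card (Fin.last m).castSucc
  have e1 : ((Fin.last (m + 1) : Fin (m + 1 + 1)) : ℕ) = m + 1 := rfl
  have e2 : (((Fin.last m).castSucc : Fin (m + 1 + 1)) : ℕ) = m := rfl
  rw [e1] at h1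
  rw [e2] at h2
  have hle : (Fin.last m).castSucc ≤ Fin.last (m + 1) := Fin.le_last _
  have h3 := ht.anti _ _ hle
  have h4 := ht.mono _ _ hle
  have h5 := Finset.card_le_card h3
  have h6 := Finset.card_le_card h4
  have hs1 := cu_sub1 ht (Fin.last m).castSucc
  have hs2 := cu_sub2 ht (Fin.last m).castSucc
  generalize (t (Fin.last (m + 1))).1 = L at *
  generalize (t (Fin.last (m + 1))).2 = U at *
  generalize t (Fin.last m).castSucc = q at *
  obtain ⟨L', U'⟩ := q
  change L ⊆ L' at h3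
  change U' ⊆ U at h4
  change U'.card = L'.card + m at h2
  change L.card ≤ L'.card at h5
  change U'.card ≤ U.card at h6
  change L' ⊆ σ at hs1
  change σ ⊆ U' at hs2
  rcases Nat.lt_or_ge L.card L'.card with h7 | h7
  · left
    have h8 : U' = U := Finset.eq_of_subset_of_card_le h4 (by omega)
    have h9 : L ⊆ L' ∧ L.card + 1 = L'.card := ⟨h3, by omega⟩
    obtain ⟨v0, hv0, hv1⟩ := Finset.exists_eq_insert_iff.mpr h9
    refine ⟨v0, hs1 ?_, hv0, ?_⟩
    · rw [← hv1]
      exact Finset.mem_insert_self _ _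
    · rw [hv1, h8]
  · right
    have h8 : L = L' := Finset.eq_of_subset_of_card_le h3 h7
    have h9 : U' ⊆ U ∧ U'.card + 1 = U.card := ⟨h4, by subst h8; omega⟩
    obtain ⟨w0, hw0, hw1⟩ := Finset.exists_eq_insert_iff.mpr h9
    refine ⟨w0, ?_, fun h => hw0 (hs2 h), ?_⟩
    · rw [← hw1]
      exact Finset.mem_insert_self _ _
    · rw [h8, ← hw1, Finset.erase_insert hw0]

private theorem cu_init {V : Type*} {σ : Finset V} {m : ℕ}
    {t : Fin (m + 1 + 1) → Finset V × Finset V} (ht : CChain σ t) :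
    CChain σ fun i : Fin (m + 1) => t i.castSucc where
  zero := ht.zero
  nonempty _ := ht.nonempty _
  card i := ht.card i.castSucc
  anti _ _ h := ht.anti _ _ (Fin.castSucc_le_castSucc_iff.mpr h)
  mono _ _ h := ht.mono _ _ (Fin.castSucc_le_castSucc_iff.mpr h)

private theorem cu_sum {V : Type*} [DecidableEq V] {m : ℕ}
    (t : Fin (m + 1 + 1) → Finset V × Finset V) (c : Fin (m + 1) → ℝ) (v : V) :
    ∑ i, c i * ev (t i.succ).1 (t i.succ).2 v =
      ∑ i : Fin m, c i.castSucc * ev (t i.succ.castSucc).1 (t i.succ.castSucc).2 v +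
        c (Fin.last m) * ev (t (Fin.last (m + 1))).1 (t (Fin.last (m + 1))).2 v := by
  rw [Fin.sum_univ_castSucc]
  rfl

/-- data of the last step which can be read off from the sum -/
private theorem cu_data {V : Type*} [DecidableEq V] {σ : Finset V} {m : ℕ}
    {t : Fin (m + 1 + 1) → Finset V × Finset V} (ht : CChain σ t) (c : Fin (m + 1) → ℝ)
    (hc : ∀ i, 0 < c i) (x : V → ℝ)
    (hx : ∀ v, x v = ∑ i, c i * ev (t i.succ).1 (t i.succ).2 v) (L U : Finset V)
    (hLU : t (Fin.last (m + 1)) = (L, U)) :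
    (∃ v0 ∈ σ, v0 ∉ L ∧ t (Fin.last m).castSucc = (insert v0 L, U) ∧
      (∀ v' ∈ L, c (Fin.last m) = L.card * (x v' - x v0)) ∧
      (∀ u ∈ σ, u ∉ L → u ≠ v0 → x u < x v0) ∧
      (∀ w ∈ U, w ∉ σ → c (Fin.last m) < U.card * (-x w))) ∨
    (∃ w0 ∈ U, w0 ∉ σ ∧ t (Fin.last m).castSucc = (L, U.erase w0) ∧
      c (Fin.last m) = U.card * (-x w0) ∧
      (∀ u ∈ U, u ∉ σ → u ≠ w0 → x u < x w0) ∧
      (∀ v ∈ σ, v ∉ L → ∀ v' ∈ L, c (Fin.last m) < L.card * (x v' - x v))) := by
  have hstep := cu_step ht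
  have hp1 := cu_pos1 ht (Fin.last (m + 1))
  have hp2 := cu_pos2 ht (Fin.last (m + 1))
  have hs1 := cu_sub1 ht (Fin.last (m + 1))
  have hs2 := cu_sub2 ht (Fin.last (m + 1))
  have hne := ht.nonempty (Fin.last (m + 1))
  rw [hLU] at hstep hp1 hp2 hs1 hs2 hne
  change (0 : ℝ) < L.card at hp1
  change (0 : ℝ) < U.card at hp2
  change L ⊆ σ at hs1
  change σ ⊆ U at hs2
  change L.Nonempty at hne
  obtain ⟨y, hy⟩ : ∃ y : V → ℝ, ∀ v, y v = ∑ i : Fin m, c i.castSucc *
    ev (t i.succ.castSucc).1 (t i.succ.castSucc).2 v := ⟨_, fun v => rfl⟩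
  obtain ⟨o1, o2, o3, o4, -⟩ := open_prop σ m (fun i => t i.castSucc) (cu_init ht)
    (fun i => c i.castSucc) (fun i => hc _) y hy
  have hxy : ∀ v, x v = y v + c (Fin.last m) * ev L U v := by
    intro v
    rw [hx v, cu_sum, hLU, hy v]
  have hc0 := hc (Fin.last m)
  generalize c (Fin.last m) = c0 at *
  -- the values
  have v1 : ∀ v ∈ L, y v = x v - c0 * (L.card : ℝ)⁻¹ + c0 * (U.card : ℝ)⁻¹ := by
    intro v hv
    have h1 := hxy v
    unfold ev at h1
    rw [if_pos hv, if_pos (hs2 (hs1 hv))] at h1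
    linarith
  have v2 : ∀ v ∈ U, v ∉ L → y v = x v + c0 * (U.card : ℝ)⁻¹ := by
    intro v hv hvL
    have h1 := hxy v
    unfold ev at h1
    rw [if_neg hvL, if_pos hv] at h1
    linarith
  have i1 : (L.card : ℝ) * (L.card : ℝ)⁻¹ = 1 := mul_inv_cancel₀ hp1.ne'
  have i2 : (U.card : ℝ) * (U.card : ℝ)⁻¹ = 1 := mul_inv_cancel₀ hp2.ne'
  rcases hstep with ⟨v0, hv0, hv0L, hq⟩ | ⟨w0, hw0, hw0σ, hq⟩
  · left
    rw [hq] at o1 o2 o3 o4
    refine ⟨v0, hv0, hv0L, hq, ?_, ?_, ?_⟩
    · intro v' hv'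
      have h1 := o1 v' (Finset.mem_insert_of_mem hv') v0 (Finset.mem_insert_self _ _)
      rw [v1 v' hv', v2 v0 (hs2 hv0) hv0L] at h1
      have h2 : x v' - x v0 = c0 * (L.card : ℝ)⁻¹ := by linarith
      rw [h2, mul_left_comm, i1, mul_one]
    · intro u hu huL huv
      obtain ⟨v', hv'⟩ := hne
      have h1 := o2 u hu (by
        rw [Finset.mem_insert]
        push Not
        exact ⟨huv, huL⟩) v0 (Finset.mem_insert_self _ _)
      rw [v2 u (hs2 hu) huL, v2 v0 (hs2 hv0) hv0L] at h1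
      linarith
    · intro w hw hwσ
      have h1 := o3 w hw hwσ
      rw [v2 w hw (fun h => hwσ (hs1 h))] at h1
      have h2 : c0 * (U.card : ℝ)⁻¹ < -x w := by linarith
      have h3 := mul_lt_mul_of_pos_left h2 hp2
      rw [mul_left_comm, i2, mul_one] at h3
      exact h3
  · right
    rw [hq] at o1 o2 o3 o4
    refine ⟨w0, hw0, hw0σ, hq, ?_, ?_, ?_⟩
    · have h1 := o4 w0 (Finset.notMem_erase w0 U)
      rw [v2 w0 hw0 (fun h => hw0σ (hs1 h))] at h1
      have h2 : -x w0 = c0 * (U.card : ℝ)⁻¹ := by linarith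
      rw [h2, mul_left_comm, i2, mul_one]
    · intro u hu huσ huw
      have h1 := o3 u (Finset.mem_erase.mpr ⟨huw, hu⟩) huσ
      have h0 := o4 w0 (Finset.notMem_erase w0 U)
      rw [v2 w0 hw0 (fun h => hw0σ (hs1 h))] at h0
      rw [v2 u hu (fun h => huσ (hs1 h))] at h1
      linarith
    · intro v hv hvL v' hv'
      have h1 := o2 v hv hvL v' hv'
      rw [v1 v' hv', v2 v (hs2 hv) hvL] at h1
      have h2 : c0 * (L.card : ℝ)⁻¹ < x v' - x v := by linarith
      have h3 := mul_lt_mul_of_pos_left h2 hp1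
      rw [mul_left_comm, i1, mul_one] at h3
      exact h3

theorem comb_uniq {V : Type*} [DecidableEq V] (σ : Finset V) (m : ℕ)
    (t t' : Fin (m + 1) → Finset V × Finset V) (ht : CChain σ t) (ht' : CChain σ t')
    (hlast : t (Fin.last m) = t' (Fin.last m)) (c c' : Fin m → ℝ)
    (hc : ∀ i, 0 < c i) (hc' : ∀ i, 0 < c' i)
    (h : ∀ v, ∑ i, c i * ev (t i.succ).1 (t i.succ).2 v =
      ∑ i, c' i * ev (t' i.succ).1 (t' i.succ).2 v) : t = t' := by
  induction m with
  | zero =>
    funext i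
    have h1 : i = Fin.last 0 := by
      apply Fin.ext
      have := i.2
      have h2 : ((Fin.last 0 : Fin (0 + 1)) : ℕ) = 0 := rfl
      omega
    rw [h1, hlast]
  | succ m ih =>
    obtain ⟨L, U, hLU⟩ : ∃ L U, t (Fin.last (m + 1)) = (L, U) := ⟨_, _, rfl⟩
    have hLU' : t' (Fin.last (m + 1)) = (L, U) := by rw [← hlast, hLU]
    have hne := ht.nonempty (Fin.last (m + 1))
    rw [hLU] at hne
    obtain ⟨v1, hv1⟩ := hne
    change v1 ∈ L at hv1
    have d := cu_data ht c hc (fun v => ∑ i, c i * ev (t i.succ).1 (t i.succ).2 v)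
      (fun v => rfl) L U hLU
    have d' := cu_data ht' c' hc' (fun v => ∑ i, c i * ev (t i.succ).1 (t i.succ).2 v)
      (fun v => h v) L U hLU'
    have key : t (Fin.last m).castSucc = t' (Fin.last m).castSucc ∧
        c (Fin.last m) = c' (Fin.last m) := by
      rcases d with ⟨v0, hv0, hv0L, hq, d1, d2, d3⟩ | ⟨w0, hw0, hw0σ, hq, d1, d2, d3⟩ <;>
      rcases d' with ⟨v0', hv0', hv0L', hq', d1', d2', d3'⟩ | ⟨w0', hw0', hw0σ', hq', d1', d2', d3'⟩
      · have e : v0 = v0' := by
          by_contra hne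
          have a1 := d2 v0' hv0' hv0L' (Ne.symm hne)
          have a2 := d2' v0 hv0 hv0L hne
          exact lt_asymm a1 a2
        subst e
        exact ⟨hq.trans hq'.symm, (d1 v1 hv1).trans (d1' v1 hv1).symm⟩
      · exfalso
        have a1 := d3 w0' hw0' hw0σ'
        have a2 := d3' v0 hv0 hv0L v1 hv1
        rw [← d1'] at a1
        rw [← d1 v1 hv1] at a2
        exact lt_asymm a1 a2
      · exfalso
        have a1 := d3' w0 hw0 hw0σ
        have a2 := d3 v0' hv0' hv0L' v1 hv1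
        rw [← d1] at a1
        rw [← d1' v1 hv1] at a2
        exact lt_asymm a1 a2
      · have e : w0 = w0' := by
          by_contra hne
          have a1 := d2 w0' hw0' hw0σ' (Ne.symm hne)
          have a2 := d2' w0 hw0 hw0σ hne
          exact lt_asymm a1 a2
        subst e
        exact ⟨hq.trans hq'.symm, d1.trans d1'.symm⟩
    obtain ⟨k1, k2⟩ := key
    have hs := ih (fun i => t i.castSucc) (fun i => t' i.castSucc) (cu_init ht) (cu_init ht') k1
      (fun i => c i.castSucc) (fun i => c' i.castSucc) (fun i => hc _) (fun i => hc' _) (by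
        intro v
        have h1 := h v
        rw [cu_sum, cu_sum, hLU, hLU', k2] at h1
        exact add_right_cancel h1)
    funext i
    refine Fin.lastCases ?_ (fun j => ?_) i
    · exact hlast
    · exact congrFun hs j

end Pool.Agent.ChP
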