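import Pool.Agent.ChP.Star
import Pool.Agent.ChP.CombUniq

/-!
# The open cones of the chains are disjoint

Let `y = ∑ c i • ev (t_{i+1})`, a coefficient vector on the top simplex `τ = U_n`, and the same for
`t'`.  By `open_prop` `-y > 0` on `τ \ σ`, sum `0`, and
`∑_{v ∈ τ} (-y v) • dev v = -x`; the same for `y'`, `τ'`; by the uniqueness in `local_homeo`
`τ = τ'`, by `indep` `y = y'`.  By `open_prop` the last lower set `{v₀}` is the set of the strict
maximum points of `y` on `σ`, so `t_n = t'_n`; apply `comb_uniq`.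
-/

namespace Pool.Agent.ChP

namespace AffineTriangulation

variable {n : ℕ} (K : AffineTriangulation n)

theorem cchain_of_isChain {σ : Finset K.V} {t : Fin (n + 1) → K.Iv} (ht : K.IsChain t)
    (h : (t 0).1.1 = σ) : CChain σ (fun i => (t i).1) := by
  refine ⟨?_, fun i => (t i).2.1, ht.card, ht.anti, ht.mono⟩
  have h0 := ht.lower_zero
  exact Prod.ext h (h0.symm.trans h)

theorem sum_ev_dev {L U τ : Finset K.V} (hL : L ⊆ τ) (hU : U ⊆ τ) :
    ∑ v ∈ τ, ev L U v • K.dev v = K.bary L - K.bary U := by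
  have key : ∀ S : Finset K.V, S ⊆ τ →
      ∑ v ∈ τ, (if v ∈ S then (S.card : ℝ)⁻¹ else 0) • K.dev v = K.bary S := by
    intro S hS
    unfold bary
    rw [Finset.smul_sum, ← Finset.sum_subset hS]
    · apply Finset.sum_congr rfl
      intro v hv
      rw [if_pos hv]
    · intro v _ hv
      rw [if_neg hv, zero_smul]
  unfold ev
  simp only [sub_smul, Finset.sum_sub_distrib]
  rw [key L hL, key U hU]

theorem sum_vec_eq {t : Fin (n + 1) → K.Iv} (ht : K.IsChain t) (c : Fin n → ℝ) :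
    ∑ v ∈ (t (Fin.last n)).1.2,
      (∑ i, c i * ev (t i.succ).1.1 (t i.succ).1.2 v) • K.dev v = ∑ i, c i • K.vec t i := by
  simp only [Finset.sum_smul]
  rw [Finset.sum_comm]
  apply Finset.sum_congr rfl
  intro i _
  have hU : (t i.succ).1.2 ⊆ (t (Fin.last n)).1.2 := ht.mono _ _ (Fin.le_last _)
  have hL : (t i.succ).1.1 ⊆ (t (Fin.last n)).1.2 := (t i.succ).2.2.1.trans hU
  unfold vec
  rw [← K.sum_ev_dev hL hU, Finset.smul_sum]
  apply Finset.sum_congr rfl
  intro v _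
  rw [mul_smul]

theorem eq_of_affine_comb {τ : Finset K.V} (hτ : τ ∈ K.faces) (y : K.V → ℝ)
    (h0 : ∑ v ∈ τ, y v = 0) (h1 : ∑ v ∈ τ, y v • K.dev v = 0) : ∀ v ∈ τ, y v = 0 := by
  have hi := K.indep τ hτ
  rw [affineIndependent_iff] at hi
  intro v hv
  have h0' : ∑ i ∈ (Finset.univ : Finset τ), y i = 0 := by
    rw [← h0, ← Finset.sum_coe_sort τ]
  have h1' : ∑ i ∈ (Finset.univ : Finset τ), y i • K.dev i = 0 := by
    rw [← h1, ← Finset.sum_coe_sort τ (fun v => y v • K.dev v)]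
  exact hi Finset.univ (fun i => y i) h0' h1' ⟨v, hv⟩ (Finset.mem_univ _)

theorem chain_cone_unique {σ : Finset K.V} {t t' : Fin (n + 1) → K.Iv} (ht : K.IsChain t)
    (ht' : K.IsChain t') (h : (t 0).1.1 = σ) (h' : (t' 0).1.1 = σ) (c c' : Fin n → ℝ)
    (hc : ∀ i, 0 < c i) (hc' : ∀ i, 0 < c' i)
    (hx : ∑ i, c i • K.vec t i = ∑ i, c' i • K.vec t' i) : t = t' := by
  have hC := K.cchain_of_isChain ht h
  have hC' := K.cchain_of_isChain ht' h'
  have hσ : σ ∈ K.faces := by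
    have h0 := ht.lower_zero
    rw [← h, h0]
    exact (t 0).2.2.2
  set y : K.V → ℝ := fun v => ∑ i, c i * ev (t i.succ).1.1 (t i.succ).1.2 v with hy
  set y' : K.V → ℝ := fun v => ∑ i, c' i * ev (t' i.succ).1.1 (t' i.succ).1.2 v with hy'
  obtain ⟨a1, a2, a3, a4, a5⟩ := open_prop σ n (fun i => (t i).1) hC c hc y (fun v => rfl)
  obtain ⟨b1, b2, b3, b4, b5⟩ := open_prop σ n (fun i => (t' i).1) hC' c' hc' y' (fun v => rfl)
  have sy : ∑ v ∈ (t (Fin.last n)).1.2, y v • K.dev v = ∑ i, c i • K.vec t i := K.sum_vec_eq ht c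
  have sy' : ∑ v ∈ (t' (Fin.last n)).1.2, y' v • K.dev v = ∑ i, c' i • K.vec t' i :=
    K.sum_vec_eq ht' c'
  have hsub : ∀ {s : Fin (n + 1) → K.Iv}, K.IsChain s → (s 0).1.1 = σ →
      σ ⊆ (s (Fin.last n)).1.2 := by
    intro s hs h0
    have h1 := hs.lower_zero
    rw [h0] at h1
    rw [h1]
    exact hs.mono _ _ (Fin.zero_le _)
  have hlow : ∀ {s : Fin (n + 1) → K.Iv}, K.IsChain s → (s 0).1.1 = σ →
      (s (Fin.last n)).1.1 ⊆ σ := by
    intro s hs h0
    rw [← h0]
    exact hs.anti _ _ (Fin.zero_le _)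
  obtain ⟨τ₀, -, hu⟩ := K.local_homeo σ hσ (-(∑ i, c i • K.vec t i))
  have e1 : (t (Fin.last n)).1.2 = τ₀ := by
    apply hu
    refine ⟨(t (Fin.last n)).2.2.2, hsub ht h, fun v => - y v, ?_, ?_, ?_⟩
    · rw [Finset.sum_neg_distrib, a5, neg_zero]
    · intro v hv
      rw [Finset.mem_sdiff] at hv
      have := a3 v hv.1 hv.2
      linarith
    · simp only [neg_smul, Finset.sum_neg_distrib]
      rw [sy]
  have e2 : (t' (Fin.last n)).1.2 = τ₀ := by
    apply hu
    refine ⟨(t' (Fin.last n)).2.2.2, hsub ht' h', fun v => - y' v, ?_, ?_, ?_⟩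
    · rw [Finset.sum_neg_distrib, b5, neg_zero]
    · intro v hv
      rw [Finset.mem_sdiff] at hv
      have := b3 v hv.1 hv.2
      linarith
    · simp only [neg_smul, Finset.sum_neg_distrib]
      rw [sy', hx]
  have e3 : (t' (Fin.last n)).1.2 = (t (Fin.last n)).1.2 := e2.trans e1.symm
  have hyy : ∀ v ∈ (t (Fin.last n)).1.2, (y - y') v = 0 := by
    apply K.eq_of_affine_comb (t (Fin.last n)).2.2.2
    · simp only [Pi.sub_apply, Finset.sum_sub_distrib]
      rw [a5, ← e3, b5, sub_zero]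
    · simp only [Pi.sub_apply, sub_smul, Finset.sum_sub_distrib]
      rw [sy, ← e3, sy', hx, sub_self]
  have hyeq : ∀ v, y v = y' v := by
    intro v
    by_cases hv : v ∈ (t (Fin.last n)).1.2
    · have := hyy v hv
      simp only [Pi.sub_apply] at this
      linarith
    · rw [a4 v hv, b4 v (by rw [e3]; exact hv)]
  obtain ⟨v₀, hv₀⟩ := Finset.card_eq_one.1 ht.card_last.1
  obtain ⟨v₁, hv₁⟩ := Finset.card_eq_one.1 ht'.card_last.1
  have hv01 : v₀ = v₁ := by
    by_contra hne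
    have m0 : v₀ ∈ (t (Fin.last n)).1.1 := by rw [hv₀]; exact Finset.mem_singleton_self _
    have m1 : v₁ ∈ (t' (Fin.last n)).1.1 := by rw [hv₁]; exact Finset.mem_singleton_self _
    have n1 : v₁ ∉ (t (Fin.last n)).1.1 := by
      rw [hv₀, Finset.mem_singleton]
      exact fun hh => hne hh.symm
    have n0 : v₀ ∉ (t' (Fin.last n)).1.1 := by
      rw [hv₁, Finset.mem_singleton]
      exact hne
    have l1 := a2 v₁ (hlow ht' h' m1) n1 v₀ m0
    have l2 := b2 v₀ (hlow ht h m0) n0 v₁ m1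
    rw [hyeq v₁, hyeq v₀] at l1
    exact lt_asymm l1 l2
  have hlast : (fun i => (t i).1) (Fin.last n) = (fun i => (t' i).1) (Fin.last n) := by
    apply Prod.ext
    · simp only
      rw [hv₀, hv₁, hv01]
    · exact e3.symm
  have hfin := comb_uniq σ n (fun i => (t i).1) (fun i => (t' i).1) hC hC' hlast c c' hc hc' hyeq
  funext i
  apply Subtype.ext
  exact congrFun hfin i

end AffineTriangulation

end Pool.Agent.ChP
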