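import Pool.Agent.ChP.OSign
import Pool.Agent.ChP.CoverS
import Pool.Agent.ChP.UniqS
import Pool.Agent.ChP.EpsAlg

/-!
# The local index at a barycentre

Let `x = - w σ`.  For a chain `t` from `σ` the vectors `vec t i` are a basis (`det_vec_ne_zero`),
`x = ∑ u i • vec t i`; by genericity all `u i ≠ 0`.  `sec w (t 0) = w σ` (`lower_zero`),
`sec w (t i.succ) = vec t i` (the two sets have different cardinalities), so by `eps_cons`
`eps (sec w ∘ t) = sign det (vec t)` if all `u i > 0` and `0` otherwise; with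
`mor_mul_sign_det` the contribution is `(-1)^{n+1-|σ|}` or `0`.  There is exactly one chain with all
`u i > 0`: `exists_chain_cone` (the coefficients `c i ≥ 0` are the `u i`, so non-zero) and
`chain_cone_unique`.
-/

namespace Pool.Agent.ChP

namespace AffineTriangulation

variable {n : ℕ} (K : AffineTriangulation n)

private theorem locIdx_sec {σ : Finset K.V} {t : Fin (n + 1) → K.Iv} (ht : K.IsChain t)
    (h0 : (t 0).1.1 = σ) (w : Finset K.V → Fin n → ℝ) :
    (fun i => K.sec w (t i)) = (Fin.cons (w σ) (K.vec t) : Fin (n + 1) → Fin n → ℝ) := by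
  funext i
  refine Fin.cases ?_ (fun i => ?_) i
  · rw [Fin.cons_zero]
    unfold sec
    rw [if_pos ht.lower_zero, h0]
  · rw [Fin.cons_succ]
    unfold sec vec
    rw [if_neg]
    intro h
    have h1 := ht.card i.succ
    rw [← h] at h1
    simp only [Fin.val_succ] at h1
    omega

private theorem locIdx_solve {t : Fin (n + 1) → K.Iv} (ht : K.IsChain t) (x : Fin n → ℝ) :
    ∃ u : Fin n → ℝ, x = ∑ i, u i • K.vec t i := by
  classical
  have hdet := K.det_vec_ne_zero ht
  set M : Matrix (Fin n) (Fin n) ℝ := Matrix.of (K.vec t) with hM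
  have hu : IsUnit M.det := isUnit_iff_ne_zero.mpr hdet
  refine ⟨Matrix.vecMul x M⁻¹, ?_⟩
  have h1 : Matrix.vecMul (Matrix.vecMul x M⁻¹) M = x := by
    rw [Matrix.vecMul_vecMul, Matrix.nonsing_inv_mul M hu, Matrix.vecMul_one]
  have h2 : ∀ u : Fin n → ℝ, Matrix.vecMul u M = ∑ i, u i • K.vec t i := by
    intro u
    funext b
    simp only [Matrix.vecMul, dotProduct, Finset.sum_apply, Pi.smul_apply, smul_eq_mul]
    rfl
  rw [h2] at h1
  exact h1.symm

theorem local_index {σ : Finset K.V} (hσ : σ ∈ K.faces) {w : Finset K.V → Fin n → ℝ}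
    (hw : K.Generic w σ) :
    ∑ t ∈ K.chainsFrom σ, K.mor t * eps (fun i => K.sec w (t i)) =
      (-1) ^ (n + 1 - σ.card) := by
  classical
  obtain ⟨t0, ht0, h0, c, hc, hx⟩ := K.exists_chain_cone hσ (-(w σ))
  have hc' : ∀ i, 0 < c i := by
    intro j
    rcases (hc j).lt_or_eq with h | h
    · exact h
    · exfalso
      apply hw t0 ht0 h0 j
      have h1 : w σ = -∑ i, c i • K.vec t0 i := by rw [← hx, neg_neg]
      rw [h1]
      apply Submodule.neg_mem
      apply Submodule.sum_mem
      intro i _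
      by_cases hij : i = j
      · rw [hij, ← h, zero_smul]
        exact Submodule.zero_mem _
      · apply Submodule.smul_mem
        apply Submodule.subset_span
        exact ⟨i, hij, rfl⟩
  have hsec : ∀ (t : Fin (n + 1) → K.Iv) (ht : K.IsChain t) (h : (t 0).1.1 = σ)
      (u : Fin n → ℝ), -(w σ) = ∑ i, u i • K.vec t i →
      K.mor t * eps (fun i => K.sec w (t i)) =
        if ∀ i, 0 < u i then (-1) ^ (n + 1 - σ.card) else 0 := by
    intro t ht h u hu
    have h1 : w σ = -(∑ i, u i • K.vec t i) := by rw [← hu, neg_neg]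
    rw [K.locIdx_sec ht h w, h1, eps_cons]
    by_cases hp : ∀ i, 0 < u i
    · rw [if_pos hp, if_pos hp, K.mor_mul_sign_det ht, h]
    · rw [if_neg hp, if_neg hp, mul_zero]
  have hmem : t0 ∈ K.chainsFrom σ := K.mem_chainsFrom.mpr ⟨ht0, h0⟩
  rw [Finset.sum_eq_single_of_mem t0 hmem]
  · rw [hsec t0 ht0 h0 c hx, if_pos hc']
  · intro t ht hne
    obtain ⟨ht1, ht2⟩ := K.mem_chainsFrom.mp ht
    obtain ⟨u, hu⟩ := K.locIdx_solve ht1 (-(w σ))
    rw [hsec t ht1 ht2 u hu, if_neg]
    intro hp
    exact hne (K.chain_cone_unique ht1 ht0 ht2 h0 u c hp hc' (hu.symm.trans hx))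

end AffineTriangulation

end Pool.Agent.ChP
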