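import Pool.Agent.ChP.Invol

/-!
# The interval subdivision gives a weak cycle
-/

namespace Pool.Agent.ChP

open Matrix
open scoped Pointwise

namespace AffineTriangulation

variable {n : ℕ} (K : AffineTriangulation n)

open Classical in
/-- representatives of the orbits of chains -/
noncomputable def chainReps (R : Finset (Finset K.V)) : Finset (Fin (n + 1) → K.Iv) :=
  R.biUnion K.chainsFrom

private theorem WL_mem {R : Finset (Finset K.V)} {t : Fin (n + 1) → K.Iv} :
    t ∈ K.chainReps R ↔ K.IsChain t ∧ (t 0).1.1 ∈ R := by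
  classical
  unfold chainReps
  rw [Finset.mem_biUnion]
  constructor
  · rintro ⟨σ, hσ, h⟩
    rw [K.mem_chainsFrom] at h
    exact ⟨h.1, by rw [h.2]; exact hσ⟩
  · rintro ⟨h1, h2⟩
    exact ⟨_, h2, K.mem_chainsFrom.2 ⟨h1, rfl⟩⟩

private theorem WL_face {t : Fin (n + 1) → K.Iv} (ht : K.IsChain t) : (t 0).1.1 ∈ K.faces := by
  rw [ht.lower_zero]
  exact (t 0).2.2.2

/-- the representative of the orbit of a chain -/
private theorem WL_rep {R : Finset (Finset K.V)} (hR : K.Reps R) :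
    ∃ g : (Fin (n + 1) → K.Iv) → K.Γ,
      (∀ t, K.IsChain t → (fun i => (g t)⁻¹ • t i) ∈ K.chainReps R) ∧
      (∀ t, t ∈ K.chainReps R → g t = 1) ∧
      (∀ t, K.IsChain t → ∀ γ : K.Γ, g (fun i => γ • t i) = γ * g t) := by
  have h : ∀ t : Fin (n + 1) → K.Iv, ∃ γ : K.Γ, K.IsChain t →
      γ⁻¹ • (t 0).1.1 ∈ R := by
    intro t
    by_cases ht : K.IsChain t
    · obtain ⟨p, ⟨hp1, hp2⟩, -⟩ := hR.2 _ (K.WL_face ht)
      refine ⟨p.1, fun _ => ?_⟩
      rw [← hp2, inv_smul_smul]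
      exact hp1
    · exact ⟨1, fun h => absurd h ht⟩
  choose g hg using h
  have huniq : ∀ t, K.IsChain t → ∀ γ : K.Γ, γ⁻¹ • (t 0).1.1 ∈ R → γ = g t := by
    intro t ht γ hγ
    obtain ⟨p, -, hp⟩ := hR.2 _ (K.WL_face ht)
    have h1 := hp (γ, γ⁻¹ • (t 0).1.1) ⟨hγ, smul_inv_smul _ _⟩
    have h2 := hp (g t, (g t)⁻¹ • (t 0).1.1) ⟨hg t ht, smul_inv_smul _ _⟩
    have h3 := congrArg Prod.fst (h1.trans h2.symm)
    exact h3
  refine ⟨g, fun t ht => ?_, fun t ht => ?_, fun t ht γ => ?_⟩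
  · rw [WL_mem]
    exact ⟨ht.smul _, hg t ht⟩
  · rw [WL_mem] at ht
    refine (huniq t ht.1 1 ?_).symm
    rw [inv_one, one_smul]
    exact ht.2
  · refine (huniq _ (ht.smul γ) _ ?_).symm
    have h1 : ((fun i => γ • t i) 0 : K.Iv).1.1 = γ • (t 0).1.1 := rfl
    rw [h1, _root_.mul_inv_rev, mul_smul, inv_smul_smul]
    exact hg t ht

theorem wcycle_interval (hn : 0 < n) {R : Finset (Finset K.V)} (hR : K.Reps R) :
    WCycle (chi K.lin) (fun k : {t // t ∈ K.chainReps R} => (k : Fin (n + 1) → K.Iv))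
      (fun k => K.mor k) := by
  intro φ hφ
  have hchi : ∀ γ : K.Γ, chi K.lin γ * chi K.lin γ = 1 := by
    intro γ
    unfold chi
    rcases lt_or_gt_of_ne (K.det_lin_ne_zero γ) with h | h
    · rw [Real.sign_of_neg h]; norm_num
    · rw [Real.sign_of_pos h]; norm_num
  have hswap : (∑ k : {t // t ∈ K.chainReps R}, K.mor (k : Fin (n + 1) → K.Iv) *
      ∑ j : Fin (n + 1), (-1) ^ (j : ℕ) *
        φ (fun i => (k : Fin (n + 1) → K.Iv) (j.succAbove i))) =
      ∑ j : Fin (n + 1), (-1) ^ (j : ℕ) * ∑ t ∈ K.chainReps R,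
        K.mor t * φ (fun i => t (j.succAbove i)) := by
    rw [Finset.sum_coe_sort (K.chainReps R) (fun t => K.mor t *
      ∑ j : Fin (n + 1), (-1) ^ (j : ℕ) * φ (fun i => t (j.succAbove i)))]
    simp_rw [Finset.mul_sum]
    rw [Finset.sum_comm]
    refine Finset.sum_congr rfl fun j _ => Finset.sum_congr rfl fun t _ => ?_
    ring
  rw [hswap]
  refine Finset.sum_eq_zero fun j _ => ?_
  suffices h : ∑ t ∈ K.chainReps R, K.mor t * φ (fun i => t (j.succAbove i)) = 0 by
    rw [h, mul_zero]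
  obtain ⟨g, hg1, hg2, hg3⟩ := K.WL_rep hR
  have hG : ∀ (γ : K.Γ) (t : Fin (n + 1) → K.Iv),
      K.mor (fun i => γ • t i) * φ (fun i => γ • t (j.succAbove i)) =
        K.mor t * φ (fun i => t (j.succAbove i)) := by
    intro γ t
    rw [K.mor_smul, hφ γ (fun i => t (j.succAbove i))]
    calc chi K.lin γ * K.mor t * (chi K.lin γ * φ fun i => t (j.succAbove i)) =
        (chi K.lin γ * chi K.lin γ) * (K.mor t * φ fun i => t (j.succAbove i)) := by ring
      _ = _ := by rw [hchi, one_mul]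
  have hoth : ∀ t : Fin (n + 1) → K.Iv, ∃ t' : Fin (n + 1) → K.Iv, K.IsChain t →
      K.IsChain t' ∧ (∀ i, i ≠ j → t' i = t i) ∧ t' j ≠ t j ∧
      (∀ t'' : Fin (n + 1) → K.Iv, K.IsChain t'' → (∀ i, i ≠ j → t'' i = t i) →
        t'' = t ∨ t'' = t') ∧ K.mor t' = -K.mor t := by
    intro t
    by_cases ht : K.IsChain t
    · obtain ⟨t', h⟩ := K.exists_other hn ht j
      exact ⟨t', fun _ => h⟩
    · exact ⟨t, fun h => absurd h ht⟩
  choose o ho using hoth
  have hoo : ∀ t, K.IsChain t → o (o t) = t := by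
    intro t ht
    obtain ⟨h1, h2, h3, h4, h5⟩ := ho t ht
    obtain ⟨k1, k2, k3, k4, k5⟩ := ho (o t) h1
    rcases k4 t ht (fun i hi => (h2 i hi).symm) with h6 | h6
    · exact absurd (congrFun h6 j).symm h3
    · exact h6.symm
  have hos : ∀ t, K.IsChain t → ∀ γ : K.Γ, o (fun i => γ • t i) = fun i => γ • o t i := by
    intro t ht γ
    obtain ⟨h1, h2, h3, h4, h5⟩ := ho t ht
    obtain ⟨k1, k2, k3, k4, k5⟩ := ho _ (ht.smul γ)
    rcases k4 (fun i => γ • o t i) (h1.smul γ) (fun i hi => by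
      show γ • o t i = γ • t i
      rw [h2 i hi]) with h6 | h6
    · exfalso
      have h7 : γ • o t j = γ • t j := congrFun h6 j
      exact h3 (smul_left_cancel γ h7)
    · exact h6.symm
  have hsum : ∀ t ∈ K.chainReps R,
      K.mor (fun i => (g (o t))⁻¹ • o t i) * φ (fun i => (g (o t))⁻¹ • o t (j.succAbove i)) =
        -(K.mor t * φ (fun i => t (j.succAbove i))) := by
    intro t ht
    have ht1 := (K.WL_mem.1 ht).1
    obtain ⟨h1, h2, h3, h4, h5⟩ := ho t ht1
    rw [hG, h5]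
    have h6 : (fun i => o t (j.succAbove i)) = fun i => t (j.succAbove i) := by
      funext i
      exact h2 _ (Fin.succAbove_ne j i)
    rw [h6, neg_mul]
  refine Finset.sum_involution (fun t _ => fun i => (g (o t))⁻¹ • o t i) ?_ ?_ ?_ ?_
  · intro t ht
    rw [hsum t ht, add_neg_cancel]
  · intro t ht hne heq
    apply hne
    have h1 := hsum t ht
    have h2 : (fun i => (g (o t))⁻¹ • o t (j.succAbove i)) = fun i => t (j.succAbove i) := by
      funext i
      exact congrFun heq (j.succAbove i)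
    rw [heq, h2] at h1
    linarith
  · intro t ht
    have ht1 := (K.WL_mem.1 ht).1
    exact hg1 _ (ho t ht1).1
  · intro t ht
    have ht1 := (K.WL_mem.1 ht).1
    have h1 := (ho t ht1).1
    have h2 : o (fun i => (g (o t))⁻¹ • o t i) = fun i => (g (o t))⁻¹ • t i := by
      rw [hos _ h1, hoo t ht1]
    show (fun i => (g (o (fun i => (g (o t))⁻¹ • o t i)))⁻¹ •
      o (fun i => (g (o t))⁻¹ • o t i) i) = t
    rw [h2, hg3 t ht1, hg2 t ht, mul_one]
    funext i
    rw [inv_smul_smul]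

end AffineTriangulation

end Pool.Agent.ChP
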