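import Pool.Agent.ChP.Defs

/-!
# The doubling operator is a chain map

`∑ a, sgnA a • path t a` is `EZ (AW t)`: Alexander-Whitney diagonal followed by the
Eilenberg-Zilber shuffles (front face `t_0..t_p` for the first coordinate, back face `t_p..t_n`
for the second one).  Claim: for every `φ` on `n`-tuples of `X × X`,

`∑ a : Fin n → Bool, sgnA a * ∑ l : Fin (n+1), (-1)^l * φ (path t a ∘ l.succAbove)`
`  = ∑ j : Fin (n+1), (-1)^j * ∑ a' : Fin (n-1) → Bool, sgnA a' * φ (path (t ∘ j.succAbove) a')`.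

Proof (as formalised).  For `x y : ℕ → X` and a word `a` with `m` letters let `pt x y a` be the
tuple `l ↦ (x (number of true among the first l letters), y (number of false among them))`, and let
`c : ℕ → ℝ` be a weight depending on the number `tt a` of `true` letters.  Put
`G m c x y φ = ∑_a c (tt a) sgnA a φ (pt x y a)` and let `L` be the same with `φ` replaced by the
alternating sum of the faces.  Splitting off the first letter one gets recursions for `G`, `L` and for
the two sums `DX`, `DY` of the Leibniz rule (faces of `x`, faces of `y`), which give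
`L = DX + DY` by induction.  With `x = t`, `y = t (p + ·)`, `p` the number of `true` letters, the
last face of the front part cancels against the first face of the back part, and the other terms
are the right hand side.

Given the claim, the theorem follows: for a `χ`-equivariant `φ` on `n`-tuples of `X × X` the
function `y ↦ ∑ a', sgnA a' * φ (path y a')` on `n`-tuples of `X` is `χ`-equivariant.
For `n = 0` everything is trivial (`n - 1` is meant for `n ≥ 1`).
-/

namespace Pool.Agent.ChP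

open MeasureTheory Matrix

/-- number of `false` among the first `l` entries -/
private def sdCycle_fl {n : ℕ} (a : Fin n → Bool) (l : ℕ) : ℕ :=
  (Finset.univ.filter fun r : Fin n => (r : ℕ) < l ∧ a r = false).card

private theorem sdCycle_lo_zero {n : ℕ} (a : Fin n → Bool) : lo a 0 = 0 := by
  unfold lo
  rw [Finset.card_eq_zero, Finset.filter_eq_empty_iff]
  rintro r - ⟨h, _⟩
  exact absurd h (Nat.not_lt_zero _)

private theorem sdCycle_fl_zero {n : ℕ} (a : Fin n → Bool) : sdCycle_fl a 0 = 0 := by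
  unfold sdCycle_fl
  rw [Finset.card_eq_zero, Finset.filter_eq_empty_iff]
  rintro r - ⟨h, _⟩
  exact absurd h (Nat.not_lt_zero _)

private theorem sdCycle_lo_cons {n : ℕ} (b : Bool) (a : Fin n → Bool) (l : ℕ) :
    lo (Fin.cons b a : Fin (n + 1) → Bool) (l + 1) = (if b = true then 1 else 0) + lo a l := by
  unfold lo
  rw [Finset.card_filter, Finset.card_filter, Fin.sum_univ_succ]
  congr 1
  · simp
  · apply Finset.sum_congr rfl
    intro r _
    simp

private theorem sdCycle_fl_cons {n : ℕ} (b : Bool) (a : Fin n → Bool) (l : ℕ) :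
    sdCycle_fl (Fin.cons b a : Fin (n + 1) → Bool) (l + 1) =
      (if b = false then 1 else 0) + sdCycle_fl a l := by
  unfold sdCycle_fl
  rw [Finset.card_filter, Finset.card_filter, Fin.sum_univ_succ]
  congr 1
  · simp
  · apply Finset.sum_congr rfl
    intro r _
    simp

private theorem sdCycle_lo_mono {n : ℕ} (a : Fin n → Bool) {l l' : ℕ} (h : l ≤ l') :
    lo a l ≤ lo a l' := by
  unfold lo
  apply Finset.card_le_card
  intro r hr
  rw [Finset.mem_filter] at hr ⊢
  exact ⟨hr.1, lt_of_lt_of_le hr.2.1 h, hr.2.2⟩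

private theorem sdCycle_lo_add_fl {n : ℕ} (a : Fin n → Bool) : lo a n + sdCycle_fl a n = n := by
  induction n with
  | zero => simp [lo, sdCycle_fl]
  | succ n ih =>
    rw [← Fin.cons_self_tail a, sdCycle_lo_cons, sdCycle_fl_cons]
    have h := ih (Fin.tail a)
    cases a 0 <;> simp <;> omega

private theorem sdCycle_sgn_cons {n : ℕ} (b : Bool) (a : Fin n → Bool) :
    sgnA (Fin.cons b a : Fin (n + 1) → Bool) =
      (if b = true then 1 else (-1 : ℝ) ^ (lo a n)) * sgnA a := by
  unfold sgnA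
  have h : (Finset.univ.filter fun p : Fin (n + 1) × Fin (n + 1) =>
      p.1 < p.2 ∧ (Fin.cons b a : Fin (n + 1) → Bool) p.1 = false ∧
        (Fin.cons b a : Fin (n + 1) → Bool) p.2 = true).card =
      (if b = true then 0 else lo a n) + (Finset.univ.filter fun p : Fin n × Fin n =>
      p.1 < p.2 ∧ a p.1 = false ∧ a p.2 = true).card := by
    unfold lo
    rw [Finset.card_filter, Finset.card_filter, Finset.card_filter, Fintype.sum_prod_type,
      Fintype.sum_prod_type, Fin.sum_univ_succ]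
    congr 1
    · rw [Fin.sum_univ_succ]
      cases b
      · simp
      · simp
    · apply Finset.sum_congr rfl
      intro r _
      rw [Fin.sum_univ_succ]
      simp
  rw [h, pow_add]
  cases b <;> simp

/-- the tuple of a word -/
private def sdCycle_pt {X : Type*} {m : ℕ} (x y : ℕ → X) (a : Fin m → Bool) :
    Fin (m + 1) → X × X := fun l => (x (lo a l), y (sdCycle_fl a l))

private theorem sdCycle_pt_true {X : Type*} {m : ℕ} (x y : ℕ → X) (a : Fin m → Bool) :
    sdCycle_pt x y (Fin.cons true a : Fin (m + 1) → Bool) =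
      Fin.cons (x 0, y 0) (sdCycle_pt (fun k => x (k + 1)) y a) := by
  funext l
  refine Fin.cases ?_ (fun l => ?_) l
  · simp only [sdCycle_pt, Fin.val_zero, sdCycle_lo_zero, sdCycle_fl_zero, Fin.cons_zero]
  · simp only [sdCycle_pt, Fin.val_succ, sdCycle_lo_cons, sdCycle_fl_cons, Fin.cons_succ]
    simp [add_comm]

private theorem sdCycle_pt_false {X : Type*} {m : ℕ} (x y : ℕ → X) (a : Fin m → Bool) :
    sdCycle_pt x y (Fin.cons false a : Fin (m + 1) → Bool) =
      Fin.cons (x 0, y 0) (sdCycle_pt x (fun k => y (k + 1)) a) := by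
  funext l
  refine Fin.cases ?_ (fun l => ?_) l
  · simp only [sdCycle_pt, Fin.val_zero, sdCycle_lo_zero, sdCycle_fl_zero, Fin.cons_zero]
  · simp only [sdCycle_pt, Fin.val_succ, sdCycle_lo_cons, sdCycle_fl_cons, Fin.cons_succ]
    simp [add_comm]

/-- sum over words, first letter split off -/
private theorem sdCycle_sum_cons {m : ℕ} (F : (Fin (m + 1) → Bool) → ℝ) :
    ∑ a, F a = ∑ a : Fin m → Bool, F (Fin.cons true a) +
      ∑ a : Fin m → Bool, F (Fin.cons false a) := by
  rw [← (Fin.consEquiv (fun _ : Fin (m + 1) => Bool)).sum_comp, Fintype.sum_prod_type,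
    Fintype.sum_bool]
  rfl

/-- faces of a tuple with a first point -/
private theorem sdCycle_faces {Z : Type*} {m : ℕ} (φ : (Fin (m + 1) → Z) → ℝ) (z : Z)
    (f : Fin (m + 1) → Z) :
    ∑ l : Fin (m + 2), (-1 : ℝ) ^ (l : ℕ) *
        φ (fun i => (Fin.cons z f : Fin (m + 2) → Z) (l.succAbove i)) =
      φ f - ∑ l : Fin (m + 1), (-1 : ℝ) ^ (l : ℕ) *
        φ (fun i => (Fin.cons z f : Fin (m + 2) → Z) (l.succ.succAbove i)) := by
  rw [Fin.sum_univ_succ]
  have h1 : ∑ i : Fin (m + 1), (-1 : ℝ) ^ (i.succ : ℕ) *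
        φ (fun i_1 => (Fin.cons z f : Fin (m + 2) → Z) (i.succ.succAbove i_1)) =
      - ∑ l : Fin (m + 1), (-1 : ℝ) ^ (l : ℕ) *
        φ (fun i => (Fin.cons z f : Fin (m + 2) → Z) (l.succ.succAbove i)) := by
    rw [← Finset.sum_neg_distrib]
    apply Finset.sum_congr rfl
    intro i _
    rw [Fin.val_succ, pow_succ]
    ring
  rw [h1]
  simp [sub_eq_add_neg]

private theorem sdCycle_face_succ {Z : Type*} {m : ℕ} (z : Z) (f : Fin (m + 2) → Z)
    (l : Fin (m + 2)) :
    (fun i => (Fin.cons z f : Fin (m + 3) → Z) (l.succ.succAbove i)) =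
      Fin.cons z (fun i => f (l.succAbove i)) := by
  funext i
  refine Fin.cases ?_ (fun i => ?_) i
  · simp
  · simp

/-- weighted sum over words -/
private noncomputable def sdCycle_G {X : Type*} (m : ℕ) (c : ℕ → ℝ) (x y : ℕ → X)
    (φ : (Fin (m + 1) → X × X) → ℝ) : ℝ :=
  ∑ a : Fin m → Bool, c (lo a m) * (sgnA a * φ (sdCycle_pt x y a))

/-- weighted sum over words of the alternating sum of the faces -/
private noncomputable def sdCycle_L {X : Type*} (m : ℕ) (c : ℕ → ℝ) (x y : ℕ → X)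
    (φ : (Fin (m + 1) → X × X) → ℝ) : ℝ :=
  ∑ a : Fin (m + 1) → Bool, c (lo a (m + 1)) * (sgnA a * ∑ l : Fin (m + 2), (-1 : ℝ) ^ (l : ℕ) *
    φ (fun i => sdCycle_pt x y a (l.succAbove i)))

/-- the increasing function which omits `i` -/
private def sdCycle_sk (i k : ℕ) : ℕ := if k < i then k else k + 1

private theorem sdCycle_sk_zero (k : ℕ) : sdCycle_sk 0 k = k + 1 := by
  unfold sdCycle_sk
  simp

private theorem sdCycle_sk_succ_zero (i : ℕ) : sdCycle_sk (i + 1) 0 = 0 := by
  unfold sdCycle_sk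
  simp

private theorem sdCycle_sk_succ (i k : ℕ) : sdCycle_sk (i + 1) (k + 1) = sdCycle_sk i k + 1 := by
  unfold sdCycle_sk
  split_ifs <;> omega

private noncomputable def sdCycle_DX {X : Type*} (m : ℕ) (c : ℕ → ℝ) (x y : ℕ → X)
    (φ : (Fin (m + 1) → X × X) → ℝ) : ℝ :=
  ∑ a : Fin m → Bool, c (lo a m + 1) * (sgnA a * ∑ i ∈ Finset.range (lo a m + 2),
    (-1 : ℝ) ^ i * φ (sdCycle_pt (fun k => x (sdCycle_sk i k)) y a))

private noncomputable def sdCycle_DY {X : Type*} (m : ℕ) (c : ℕ → ℝ) (x y : ℕ → X)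
    (φ : (Fin (m + 1) → X × X) → ℝ) : ℝ :=
  ∑ a : Fin m → Bool, (-1 : ℝ) ^ (lo a m) * c (lo a m) * (sgnA a *
    ∑ i ∈ Finset.range (sdCycle_fl a m + 2),
    (-1 : ℝ) ^ i * φ (sdCycle_pt x (fun k => y (sdCycle_sk i k)) a))

private theorem sdCycle_L_succ {X : Type*} (m : ℕ) (c : ℕ → ℝ) (x y : ℕ → X)
    (φ : (Fin (m + 2) → X × X) → ℝ) :
    sdCycle_L (m + 1) c x y φ =
      sdCycle_G (m + 1) (fun r => c (r + 1)) (fun k => x (k + 1)) y φ +
      sdCycle_G (m + 1) (fun r => (-1) ^ r * c r) x (fun k => y (k + 1)) φ -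
      sdCycle_L m (fun r => c (r + 1)) (fun k => x (k + 1)) y
        (fun f => φ (Fin.cons (x 0, y 0) f)) -
      sdCycle_L m (fun r => (-1) ^ r * c r) x (fun k => y (k + 1))
        (fun f => φ (Fin.cons (x 0, y 0) f)) := by
  have key : ∀ (b : Bool) (a : Fin (m + 1) → Bool) (x' y' : ℕ → X),
      sdCycle_pt x y (Fin.cons b a : Fin (m + 2) → Bool) =
        Fin.cons (x 0, y 0) (sdCycle_pt x' y' a) →
      ∑ l : Fin (m + 3), (-1 : ℝ) ^ (l : ℕ) *
        φ (fun i => sdCycle_pt x y (Fin.cons b a : Fin (m + 2) → Bool) (l.succAbove i)) =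
      φ (sdCycle_pt x' y' a) - ∑ l : Fin (m + 2), (-1 : ℝ) ^ (l : ℕ) *
        φ (Fin.cons (x 0, y 0) (fun i => sdCycle_pt x' y' a (l.succAbove i))) := by
    intro b a x' y' h
    rw [h, sdCycle_faces]
    congr 1
    apply Finset.sum_congr rfl
    intro l _
    rw [sdCycle_face_succ]
  unfold sdCycle_L sdCycle_G
  rw [sdCycle_sum_cons]
  have e1 : ∑ a : Fin (m + 1) → Bool, c (lo (Fin.cons true a : Fin (m + 2) → Bool) (m + 1 + 1)) *
      (sgnA (Fin.cons true a : Fin (m + 2) → Bool) * ∑ l : Fin (m + 3), (-1 : ℝ) ^ (l : ℕ) *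
        φ (fun i => sdCycle_pt x y (Fin.cons true a : Fin (m + 2) → Bool) (l.succAbove i))) =
      ∑ a : Fin (m + 1) → Bool, (c (lo a (m + 1) + 1) * (sgnA a *
        φ (sdCycle_pt (fun k => x (k + 1)) y a)) -
        c (lo a (m + 1) + 1) * (sgnA a * ∑ l : Fin (m + 2), (-1 : ℝ) ^ (l : ℕ) *
        φ (Fin.cons (x 0, y 0)
          (fun i => sdCycle_pt (fun k => x (k + 1)) y a (l.succAbove i))))) := by
    apply Finset.sum_congr rfl
    intro a _
    rw [key true a _ _ (sdCycle_pt_true x y a), sdCycle_lo_cons, sdCycle_sgn_cons, if_pos rfl,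
      if_pos rfl, one_mul, add_comm 1]
    ring
  have e2 : ∑ a : Fin (m + 1) → Bool, c (lo (Fin.cons false a : Fin (m + 2) → Bool) (m + 1 + 1)) *
      (sgnA (Fin.cons false a : Fin (m + 2) → Bool) * ∑ l : Fin (m + 3), (-1 : ℝ) ^ (l : ℕ) *
        φ (fun i => sdCycle_pt x y (Fin.cons false a : Fin (m + 2) → Bool) (l.succAbove i))) =
      ∑ a : Fin (m + 1) → Bool, ((-1) ^ (lo a (m + 1)) * c (lo a (m + 1)) * (sgnA a *
        φ (sdCycle_pt x (fun k => y (k + 1)) a)) -
        (-1) ^ (lo a (m + 1)) * c (lo a (m + 1)) * (sgnA a * ∑ l : Fin (m + 2), (-1 : ℝ) ^ (l : ℕ) *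
        φ (Fin.cons (x 0, y 0)
          (fun i => sdCycle_pt x (fun k => y (k + 1)) a (l.succAbove i))))) := by
    apply Finset.sum_congr rfl
    intro a _
    rw [key false a _ _ (sdCycle_pt_false x y a), sdCycle_lo_cons, sdCycle_sgn_cons,
      if_neg (by decide), if_neg (by decide), zero_add]
    ring
  rw [e1, e2, Finset.sum_sub_distrib, Finset.sum_sub_distrib]
  ring

private theorem sdCycle_DX_succ {X : Type*} (m : ℕ) (c : ℕ → ℝ) (x y : ℕ → X)
    (φ : (Fin (m + 2) → X × X) → ℝ) :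
    sdCycle_DX (m + 1) c x y φ =
      sdCycle_G (m + 1) (fun r => c (r + 1)) (fun k => x (k + 1)) y φ -
      sdCycle_DX m (fun r => c (r + 1)) (fun k => x (k + 1)) y
        (fun f => φ (Fin.cons (x 0, y 0) f)) -
      sdCycle_DX m (fun r => (-1) ^ r * c r) x (fun k => y (k + 1))
        (fun f => φ (Fin.cons (x 0, y 0) f)) -
      sdCycle_G m (fun r => (-1) ^ r * c (r + 1)) (fun k => x (k + 1)) (fun k => y (k + 1))
        (fun f => φ (Fin.cons (x 0, y 0) f)) := by
  have h0 : ∀ (a : Fin (m + 1) → Bool), ∑ i ∈ Finset.range (lo a (m + 1) + 2),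
      (-1 : ℝ) ^ i * φ (sdCycle_pt (fun k => x (sdCycle_sk i k)) y a) =
      φ (sdCycle_pt (fun k => x (k + 1)) y a) - ∑ i ∈ Finset.range (lo a (m + 1) + 1),
      (-1 : ℝ) ^ i * φ (sdCycle_pt (fun k => x (sdCycle_sk (i + 1) k)) y a) := by
    intro a
    rw [Finset.sum_range_succ' (fun i => (-1 : ℝ) ^ i *
      φ (sdCycle_pt (fun k => x (sdCycle_sk i k)) y a)) (lo a (m + 1) + 1)]
    have h1 : ∑ i ∈ Finset.range (lo a (m + 1) + 1), (-1 : ℝ) ^ (i + 1) *
        φ (sdCycle_pt (fun k => x (sdCycle_sk (i + 1) k)) y a) =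
        - ∑ i ∈ Finset.range (lo a (m + 1) + 1),
      (-1 : ℝ) ^ i * φ (sdCycle_pt (fun k => x (sdCycle_sk (i + 1) k)) y a) := by
      rw [← Finset.sum_neg_distrib]
      apply Finset.sum_congr rfl
      intro i _
      rw [pow_succ]
      ring
    rw [h1]
    simp only [sdCycle_sk_zero, pow_zero, one_mul]
    ring
  have hA : sdCycle_DX (m + 1) c x y φ =
      sdCycle_G (m + 1) (fun r => c (r + 1)) (fun k => x (k + 1)) y φ -
      ∑ a : Fin (m + 1) → Bool, c (lo a (m + 1) + 1) * (sgnA a *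
        ∑ i ∈ Finset.range (lo a (m + 1) + 1),
      (-1 : ℝ) ^ i * φ (sdCycle_pt (fun k => x (sdCycle_sk (i + 1) k)) y a)) := by
    unfold sdCycle_DX sdCycle_G
    rw [← Finset.sum_sub_distrib]
    apply Finset.sum_congr rfl
    intro a _
    rw [h0 a]
    ring
  rw [hA, sdCycle_sum_cons]
  have e1 : ∑ a : Fin m → Bool, c (lo (Fin.cons true a : Fin (m + 1) → Bool) (m + 1) + 1) *
      (sgnA (Fin.cons true a : Fin (m + 1) → Bool) *
        ∑ i ∈ Finset.range (lo (Fin.cons true a : Fin (m + 1) → Bool) (m + 1) + 1),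
        (-1 : ℝ) ^ i * φ (sdCycle_pt (fun k => x (sdCycle_sk (i + 1) k)) y
          (Fin.cons true a : Fin (m + 1) → Bool))) =
      sdCycle_DX m (fun r => c (r + 1)) (fun k => x (k + 1)) y
        (fun f => φ (Fin.cons (x 0, y 0) f)) := by
    unfold sdCycle_DX
    apply Finset.sum_congr rfl
    intro a _
    rw [sdCycle_lo_cons, sdCycle_sgn_cons, if_pos rfl, if_pos rfl, one_mul, add_comm 1 (lo a m)]
    congr 2
    apply Finset.sum_congr rfl
    intro i _
    rw [sdCycle_pt_true]
    simp only [sdCycle_sk_succ_zero, sdCycle_sk_succ]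
  have e2 : ∑ a : Fin m → Bool, c (lo (Fin.cons false a : Fin (m + 1) → Bool) (m + 1) + 1) *
      (sgnA (Fin.cons false a : Fin (m + 1) → Bool) *
        ∑ i ∈ Finset.range (lo (Fin.cons false a : Fin (m + 1) → Bool) (m + 1) + 1),
        (-1 : ℝ) ^ i * φ (sdCycle_pt (fun k => x (sdCycle_sk (i + 1) k)) y
          (Fin.cons false a : Fin (m + 1) → Bool))) =
      sdCycle_DX m (fun r => (-1) ^ r * c r) x (fun k => y (k + 1))
        (fun f => φ (Fin.cons (x 0, y 0) f)) +
      sdCycle_G m (fun r => (-1) ^ r * c (r + 1)) (fun k => x (k + 1)) (fun k => y (k + 1))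
        (fun f => φ (Fin.cons (x 0, y 0) f)) := by
    unfold sdCycle_DX sdCycle_G
    rw [← Finset.sum_add_distrib]
    apply Finset.sum_congr rfl
    intro a _
    rw [sdCycle_lo_cons, sdCycle_sgn_cons, if_neg (by decide), if_neg (by decide), zero_add,
      Finset.sum_range_succ' _ (lo a m + 1)]
    have h2 : ∀ i : ℕ, sdCycle_pt (fun k => x (sdCycle_sk (i + 1) k)) y
          (Fin.cons false a : Fin (m + 1) → Bool) =
        Fin.cons (x 0, y 0) (sdCycle_pt (fun k => x (sdCycle_sk (i + 1) k))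
          (fun k => y (k + 1)) a) := by
      intro i
      rw [sdCycle_pt_false, sdCycle_sk_succ_zero]
    simp only [h2, sdCycle_sk_zero, pow_zero, one_mul]
    have h3 : ∑ i ∈ Finset.range (lo a m + 1), (-1 : ℝ) ^ (i + 1) *
        φ (Fin.cons (x 0, y 0) (sdCycle_pt (fun k => x (sdCycle_sk (i + 1) k))
          (fun k => y (k + 1)) a)) = - ∑ i ∈ Finset.range (lo a m + 1), (-1 : ℝ) ^ i *
        φ (Fin.cons (x 0, y 0) (sdCycle_pt (fun k => x (sdCycle_sk (i + 1) k))
          (fun k => y (k + 1)) a)) := by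
      rw [← Finset.sum_neg_distrib]
      apply Finset.sum_congr rfl
      intro i _
      rw [pow_succ]
      ring
    rw [h3, pow_succ]
    ring
  rw [e1, e2]
  ring

private theorem sdCycle_DY_succ {X : Type*} (m : ℕ) (c : ℕ → ℝ) (x y : ℕ → X)
    (φ : (Fin (m + 2) → X × X) → ℝ) :
    sdCycle_DY (m + 1) c x y φ =
      sdCycle_G (m + 1) (fun r => (-1) ^ r * c r) x (fun k => y (k + 1)) φ -
      sdCycle_DY m (fun r => c (r + 1)) (fun k => x (k + 1)) y
        (fun f => φ (Fin.cons (x 0, y 0) f)) -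
      sdCycle_DY m (fun r => (-1) ^ r * c r) x (fun k => y (k + 1))
        (fun f => φ (Fin.cons (x 0, y 0) f)) +
      sdCycle_G m (fun r => (-1) ^ r * c (r + 1)) (fun k => x (k + 1)) (fun k => y (k + 1))
        (fun f => φ (Fin.cons (x 0, y 0) f)) := by
  have h0 : ∀ (a : Fin (m + 1) → Bool), ∑ i ∈ Finset.range (sdCycle_fl a (m + 1) + 2),
      (-1 : ℝ) ^ i * φ (sdCycle_pt x (fun k => y (sdCycle_sk i k)) a) =
      φ (sdCycle_pt x (fun k => y (k + 1)) a) - ∑ i ∈ Finset.range (sdCycle_fl a (m + 1) + 1),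
      (-1 : ℝ) ^ i * φ (sdCycle_pt x (fun k => y (sdCycle_sk (i + 1) k)) a) := by
    intro a
    rw [Finset.sum_range_succ' (fun i => (-1 : ℝ) ^ i *
      φ (sdCycle_pt x (fun k => y (sdCycle_sk i k)) a)) (sdCycle_fl a (m + 1) + 1)]
    have h1 : ∑ i ∈ Finset.range (sdCycle_fl a (m + 1) + 1), (-1 : ℝ) ^ (i + 1) *
        φ (sdCycle_pt x (fun k => y (sdCycle_sk (i + 1) k)) a) =
        - ∑ i ∈ Finset.range (sdCycle_fl a (m + 1) + 1),
      (-1 : ℝ) ^ i * φ (sdCycle_pt x (fun k => y (sdCycle_sk (i + 1) k)) a) := by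
      rw [← Finset.sum_neg_distrib]
      apply Finset.sum_congr rfl
      intro i _
      rw [pow_succ]
      ring
    rw [h1]
    simp only [sdCycle_sk_zero, pow_zero, one_mul]
    ring
  have hA : sdCycle_DY (m + 1) c x y φ =
      sdCycle_G (m + 1) (fun r => (-1) ^ r * c r) x (fun k => y (k + 1)) φ -
      ∑ a : Fin (m + 1) → Bool, (-1 : ℝ) ^ (lo a (m + 1)) * c (lo a (m + 1)) * (sgnA a *
        ∑ i ∈ Finset.range (sdCycle_fl a (m + 1) + 1),
      (-1 : ℝ) ^ i * φ (sdCycle_pt x (fun k => y (sdCycle_sk (i + 1) k)) a)) := by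
    unfold sdCycle_DY sdCycle_G
    rw [← Finset.sum_sub_distrib]
    apply Finset.sum_congr rfl
    intro a _
    rw [h0 a]
    ring
  rw [hA, sdCycle_sum_cons]
  have e2 : ∑ a : Fin m → Bool, (-1 : ℝ) ^ (lo (Fin.cons false a : Fin (m + 1) → Bool) (m + 1)) *
      c (lo (Fin.cons false a : Fin (m + 1) → Bool) (m + 1)) *
      (sgnA (Fin.cons false a : Fin (m + 1) → Bool) *
        ∑ i ∈ Finset.range (sdCycle_fl (Fin.cons false a : Fin (m + 1) → Bool) (m + 1) + 1),
        (-1 : ℝ) ^ i * φ (sdCycle_pt x (fun k => y (sdCycle_sk (i + 1) k))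
          (Fin.cons false a : Fin (m + 1) → Bool))) =
      sdCycle_DY m (fun r => (-1) ^ r * c r) x (fun k => y (k + 1))
        (fun f => φ (Fin.cons (x 0, y 0) f)) := by
    unfold sdCycle_DY
    apply Finset.sum_congr rfl
    intro a _
    rw [sdCycle_lo_cons, sdCycle_fl_cons, sdCycle_sgn_cons, if_neg (by decide), if_pos rfl,
      if_neg (by decide), zero_add, add_comm 1 (sdCycle_fl a m)]
    have h3 : ∑ i ∈ Finset.range (sdCycle_fl a m + 1 + 1), (-1 : ℝ) ^ i *
        φ (sdCycle_pt x (fun k => y (sdCycle_sk (i + 1) k))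
          (Fin.cons false a : Fin (m + 1) → Bool)) =
        ∑ i ∈ Finset.range (sdCycle_fl a m + 2), (-1 : ℝ) ^ i *
        φ (Fin.cons (x 0, y 0) (sdCycle_pt x (fun k => y (sdCycle_sk i k + 1)) a)) := by
      apply Finset.sum_congr rfl
      intro i _
      rw [sdCycle_pt_false]
      simp only [sdCycle_sk_succ_zero, sdCycle_sk_succ]
    rw [h3]
    ring
  have e1 : ∑ a : Fin m → Bool, (-1 : ℝ) ^ (lo (Fin.cons true a : Fin (m + 1) → Bool) (m + 1)) *
      c (lo (Fin.cons true a : Fin (m + 1) → Bool) (m + 1)) *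
      (sgnA (Fin.cons true a : Fin (m + 1) → Bool) *
        ∑ i ∈ Finset.range (sdCycle_fl (Fin.cons true a : Fin (m + 1) → Bool) (m + 1) + 1),
        (-1 : ℝ) ^ i * φ (sdCycle_pt x (fun k => y (sdCycle_sk (i + 1) k))
          (Fin.cons true a : Fin (m + 1) → Bool))) =
      sdCycle_DY m (fun r => c (r + 1)) (fun k => x (k + 1)) y
        (fun f => φ (Fin.cons (x 0, y 0) f)) -
      sdCycle_G m (fun r => (-1) ^ r * c (r + 1)) (fun k => x (k + 1)) (fun k => y (k + 1))
        (fun f => φ (Fin.cons (x 0, y 0) f)) := by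
    unfold sdCycle_DY sdCycle_G
    rw [← Finset.sum_sub_distrib]
    apply Finset.sum_congr rfl
    intro a _
    rw [sdCycle_lo_cons, sdCycle_fl_cons, sdCycle_sgn_cons, if_pos rfl, if_pos rfl,
      if_neg (by decide), zero_add, one_mul, add_comm 1 (lo a m),
      Finset.sum_range_succ' _ (sdCycle_fl a m + 1)]
    have h2 : ∀ i : ℕ, sdCycle_pt x (fun k => y (sdCycle_sk (i + 1) k))
          (Fin.cons true a : Fin (m + 1) → Bool) =
        Fin.cons (x 0, y 0) (sdCycle_pt (fun k => x (k + 1))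
          (fun k => y (sdCycle_sk (i + 1) k)) a) := by
      intro i
      rw [sdCycle_pt_true, sdCycle_sk_succ_zero]
    simp only [h2, sdCycle_sk_zero, pow_zero, one_mul]
    have h3 : ∑ i ∈ Finset.range (sdCycle_fl a m + 1), (-1 : ℝ) ^ (i + 1) *
        φ (Fin.cons (x 0, y 0) (sdCycle_pt (fun k => x (k + 1))
          (fun k => y (sdCycle_sk (i + 1) k)) a)) =
        - ∑ i ∈ Finset.range (sdCycle_fl a m + 1), (-1 : ℝ) ^ i *
        φ (Fin.cons (x 0, y 0) (sdCycle_pt (fun k => x (k + 1))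
          (fun k => y (sdCycle_sk (i + 1) k)) a)) := by
      rw [← Finset.sum_neg_distrib]
      apply Finset.sum_congr rfl
      intro i _
      rw [pow_succ]
      ring
    rw [h3, pow_succ]
    ring
  rw [e1, e2]
  ring

private theorem sdCycle_leibniz {X : Type*} (m : ℕ) : ∀ (c : ℕ → ℝ) (x y : ℕ → X)
    (φ : (Fin (m + 1) → X × X) → ℝ),
    sdCycle_L m c x y φ = sdCycle_DX m c x y φ + sdCycle_DY m c x y φ := by
  induction m with
  | zero =>
    intro c x y φ
    unfold sdCycle_L sdCycle_DX sdCycle_DY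
    rw [sdCycle_sum_cons]
    simp only [sdCycle_pt_true, sdCycle_pt_false, sdCycle_faces, sdCycle_lo_cons,
      sdCycle_sgn_cons]
    have hl : ∀ a : Fin 0 → Bool, lo a 0 = 0 := fun a => sdCycle_lo_zero a
    have hf : ∀ a : Fin 0 → Bool, sdCycle_fl a 0 = 0 := fun a => sdCycle_fl_zero a
    have hc : ∀ (z : X × X) (f : Fin (0 + 1) → X × X),
        φ (fun i => (Fin.cons z f : Fin (0 + 2) → X × X) (Fin.succAbove 1 i)) =
        φ (fun _ => z) := by
      intro z f
      congr 1
      funext i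
      refine Fin.cases ?_ (fun j => j.elim0) i
      rfl
    have hp : ∀ (x y : ℕ → X) (a : Fin 0 → Bool), sdCycle_pt x y a = fun _ => (x 0, y 0) := by
      intro x y a
      funext i
      refine Fin.cases ?_ (fun j => j.elim0) i
      unfold sdCycle_pt
      rw [Fin.val_zero, sdCycle_lo_zero, sdCycle_fl_zero]
    simp only [hl, hf, Finset.univ_unique, Finset.sum_singleton, hp,
      Finset.sum_range_succ, Finset.sum_range_zero, sdCycle_sk_zero, sdCycle_sk_succ_zero]
    simp
    rw [hc, hc]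
    ring
  | succ m ih =>
    intro c x y φ
    rw [sdCycle_L_succ, sdCycle_DX_succ, sdCycle_DY_succ, ih, ih]
    ring

private theorem sdCycle_pt_congr {X : Type*} {m : ℕ} {x x' y y' : ℕ → X} (a : Fin m → Bool)
    (hx : ∀ k, k ≤ lo a m → x k = x' k) (hy : ∀ k, y k = y' k) :
    sdCycle_pt x y a = sdCycle_pt x' y' a := by
  funext l
  unfold sdCycle_pt
  rw [hx _ (sdCycle_lo_mono a (Nat.le_of_lt_succ l.2)), hy]

/-- extension to the natural numbers -/
private def sdCycle_ext {X : Type*} {n : ℕ} (t : Fin (n + 1) → X) (k : ℕ) : X :=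
  t ⟨min k n, by omega⟩

private theorem sdCycle_ext_eq {X : Type*} {n : ℕ} (t : Fin (n + 1) → X) (k : ℕ) (hk : k < n + 1) :
    t ⟨k, hk⟩ = sdCycle_ext t k := by
  unfold sdCycle_ext
  congr 1
  apply Fin.ext
  simp only
  omega

private theorem sdCycle_path {X : Type*} {n : ℕ} (t : Fin (n + 1) → X) (a : Fin n → Bool) :
    path t a = sdCycle_pt (sdCycle_ext t) (fun k => sdCycle_ext t (lo a n + k)) a := by
  funext l
  unfold path sdCycle_pt
  have h1 := sdCycle_ext_eq t (lo a l) (lo_le a l)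
  have h2 := sdCycle_ext_eq t (hi a l) (hi_le a l)
  exact Prod.ext h1 h2

private theorem sdCycle_skip {X : Type*} {n : ℕ} (t : Fin (n + 2) → X) (j : Fin (n + 2)) (k : ℕ)
    (hk : k < n + 1) :
    t (j.succAbove ⟨k, hk⟩) = sdCycle_ext t (sdCycle_sk j k) := by
  unfold sdCycle_ext
  congr 1
  apply Fin.ext
  have hj := j.2
  by_cases h1 : k < (j : ℕ)
  · rw [Fin.succAbove_of_castSucc_lt j ⟨k, hk⟩ (by rw [Fin.lt_def]; exact h1)]
    simp only [Fin.val_castSucc, sdCycle_sk, if_pos h1]
    omega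
  · rw [Fin.succAbove_of_le_castSucc j ⟨k, hk⟩ (by rw [Fin.le_def]; exact not_lt.1 h1)]
    simp only [Fin.val_succ, sdCycle_sk, if_neg h1]
    omega

private theorem sdCycle_path_face {X : Type*} {n : ℕ} (t : Fin (n + 2) → X) (j : Fin (n + 2))
    (a : Fin n → Bool) :
    path (fun i => t (j.succAbove i)) a =
      sdCycle_pt (fun k => sdCycle_ext t (sdCycle_sk j k))
        (fun k => sdCycle_ext t (sdCycle_sk j (lo a n + k))) a := by
  funext l
  unfold path sdCycle_pt
  have h1 := sdCycle_skip t j (lo a l) (lo_le a l)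
  have h2 := sdCycle_skip t j (hi a l) (hi_le a l)
  exact Prod.ext h1 h2

private theorem sdCycle_sel {A : Type*} [Fintype A] (N : ℕ) (g : A → ℕ) (hg : ∀ a, g a < N)
    (F : ℕ → A → ℝ) :
    ∑ p ∈ Finset.range N, ∑ a, (if g a = p then 1 else 0) * F p a = ∑ a, F (g a) a := by
  rw [Finset.sum_comm]
  apply Finset.sum_congr rfl
  intro a _
  have h : ∀ p ∈ Finset.range N, (if g a = p then (1 : ℝ) else 0) * F p a =
      if g a = p then F p a else 0 := by
    intro p _
    split_ifs <;> simp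
  rw [Finset.sum_congr rfl h, Finset.sum_ite_eq, if_pos (Finset.mem_range.2 (hg a))]

/-- the sum over the cut points -/
private theorem sdCycle_aw {X : Type*} {n : ℕ} (T : ℕ → X) (φ : (Fin (n + 1) → X × X) → ℝ)
    (a : Fin n → Bool) :
    ∑ i ∈ Finset.range (lo a n + 2), (-1 : ℝ) ^ i *
        φ (sdCycle_pt (fun k => T (sdCycle_sk i k)) (fun k => T (lo a n + 1 + k)) a) +
      (-1) ^ (lo a n) * ∑ i ∈ Finset.range (sdCycle_fl a n + 2), (-1 : ℝ) ^ i *
        φ (sdCycle_pt T (fun k => T (lo a n + sdCycle_sk i k)) a) =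
      ∑ j ∈ Finset.range (n + 2), (-1 : ℝ) ^ j *
        φ (sdCycle_pt (fun k => T (sdCycle_sk j k))
          (fun k => T (sdCycle_sk j (lo a n + k))) a) := by
  have hrs := sdCycle_lo_add_fl a
  have e0 : n + 2 = (lo a n + 1) + (sdCycle_fl a n + 1) := by omega
  have e00 : ∑ j ∈ Finset.range (n + 2), (-1 : ℝ) ^ j *
        φ (sdCycle_pt (fun k => T (sdCycle_sk j k))
          (fun k => T (sdCycle_sk j (lo a n + k))) a) =
      ∑ j ∈ Finset.range (lo a n + 1), (-1 : ℝ) ^ j *
        φ (sdCycle_pt (fun k => T (sdCycle_sk j k))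
          (fun k => T (sdCycle_sk j (lo a n + k))) a) +
      ∑ i ∈ Finset.range (sdCycle_fl a n + 1), (-1 : ℝ) ^ (lo a n + 1 + i) *
        φ (sdCycle_pt (fun k => T (sdCycle_sk (lo a n + 1 + i) k))
          (fun k => T (sdCycle_sk (lo a n + 1 + i) (lo a n + k))) a) := by
    rw [e0, Finset.sum_range_add]
  rw [Finset.sum_range_succ _ (lo a n + 1), Finset.sum_range_succ' _ (sdCycle_fl a n + 1), e00]
  have h1 : ∑ i ∈ Finset.range (lo a n + 1), (-1 : ℝ) ^ i *
        φ (sdCycle_pt (fun k => T (sdCycle_sk i k)) (fun k => T (lo a n + 1 + k)) a) =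
      ∑ j ∈ Finset.range (lo a n + 1), (-1 : ℝ) ^ j *
        φ (sdCycle_pt (fun k => T (sdCycle_sk j k))
          (fun k => T (sdCycle_sk j (lo a n + k))) a) := by
    apply Finset.sum_congr rfl
    intro i hi
    rw [Finset.mem_range] at hi
    congr 2
    apply sdCycle_pt_congr
    · intro k _
      rfl
    · intro k
      unfold sdCycle_sk
      rw [if_neg (by omega)]
      congr 1
      omega
  have h2 : sdCycle_pt (fun k => T (sdCycle_sk (lo a n + 1) k)) (fun k => T (lo a n + 1 + k)) a =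
      sdCycle_pt T (fun k => T (lo a n + sdCycle_sk 0 k)) a := by
    apply sdCycle_pt_congr
    · intro k hk
      unfold sdCycle_sk
      rw [if_pos (by omega)]
    · intro k
      rw [sdCycle_sk_zero]
      congr 1
      omega
  have h3 : ∑ i ∈ Finset.range (sdCycle_fl a n + 1), (-1 : ℝ) ^ (lo a n + 1 + i) *
        φ (sdCycle_pt (fun k => T (sdCycle_sk (lo a n + 1 + i) k))
          (fun k => T (sdCycle_sk (lo a n + 1 + i) (lo a n + k))) a) =
      (-1) ^ (lo a n) * ∑ i ∈ Finset.range (sdCycle_fl a n + 1), (-1 : ℝ) ^ (i + 1) *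
        φ (sdCycle_pt T (fun k => T (lo a n + sdCycle_sk (i + 1) k)) a) := by
    rw [Finset.mul_sum]
    apply Finset.sum_congr rfl
    intro i _
    have h4 : sdCycle_pt (fun k => T (sdCycle_sk (lo a n + 1 + i) k))
          (fun k => T (sdCycle_sk (lo a n + 1 + i) (lo a n + k))) a =
        sdCycle_pt T (fun k => T (lo a n + sdCycle_sk (i + 1) k)) a := by
      apply sdCycle_pt_congr
      · intro k hk
        unfold sdCycle_sk
        rw [if_pos (by omega)]
      · intro k
        congr 1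
        unfold sdCycle_sk
        split_ifs <;> omega
    rw [h4, ← mul_assoc, ← pow_add]
    congr 2
    omega
  rw [h1, h2, h3, pow_succ (-1 : ℝ) (lo a n)]
  ring

/-- chain map property of the doubling operator, `n = n' + 1` -/
theorem path_chain {n : ℕ} {X : Type*} (t : Fin (n + 2) → X)
    (φ : (Fin (n + 1) → X × X) → ℝ) :
    ∑ a : Fin (n + 1) → Bool, sgnA a * ∑ l : Fin (n + 2), (-1) ^ (l : ℕ) *
        φ (fun i => path t a (l.succAbove i)) =
      ∑ j : Fin (n + 2), (-1) ^ (j : ℕ) * ∑ a : Fin n → Bool, sgnA a *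
        φ (path (fun i => t (j.succAbove i)) a) := by
  obtain ⟨T, hT⟩ : ∃ T : ℕ → X, T = sdCycle_ext t := ⟨_, rfl⟩
  have hL : ∑ a : Fin (n + 1) → Bool, sgnA a * ∑ l : Fin (n + 2), (-1 : ℝ) ^ (l : ℕ) *
        φ (fun i => path t a (l.succAbove i)) =
      ∑ p ∈ Finset.range (n + 2), sdCycle_L n (fun r => if r = p then 1 else 0) T
        (fun k => T (p + k)) φ := by
    unfold sdCycle_L
    rw [sdCycle_sel (n + 2) (fun a : Fin (n + 1) → Bool => lo a (n + 1)) (fun a => lo_le a _)
      (fun p a => sgnA a * ∑ l : Fin (n + 2), (-1 : ℝ) ^ (l : ℕ) *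
        φ (fun i => sdCycle_pt T (fun k => T (p + k)) a (l.succAbove i)))]
    apply Finset.sum_congr rfl
    intro a _
    rw [sdCycle_path, ← hT]
  have hDX : ∑ p ∈ Finset.range (n + 2), sdCycle_DX n (fun r => if r = p then 1 else 0) T
        (fun k => T (p + k)) φ =
      ∑ a : Fin n → Bool, sgnA a * ∑ i ∈ Finset.range (lo a n + 2), (-1 : ℝ) ^ i *
        φ (sdCycle_pt (fun k => T (sdCycle_sk i k)) (fun k => T (lo a n + 1 + k)) a) := by
    unfold sdCycle_DX
    exact sdCycle_sel (n + 2) (fun a : Fin n → Bool => lo a n + 1)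
      (fun a => Nat.succ_lt_succ (lo_le a _))
      (fun p a => sgnA a * ∑ i ∈ Finset.range (lo a n + 2), (-1 : ℝ) ^ i *
        φ (sdCycle_pt (fun k => T (sdCycle_sk i k)) (fun k => T (p + k)) a))
  have hDY : ∑ p ∈ Finset.range (n + 2), sdCycle_DY n (fun r => if r = p then 1 else 0) T
        (fun k => T (p + k)) φ =
      ∑ a : Fin n → Bool, sgnA a * ((-1) ^ (lo a n) * ∑ i ∈ Finset.range (sdCycle_fl a n + 2),
        (-1 : ℝ) ^ i * φ (sdCycle_pt T (fun k => T (lo a n + sdCycle_sk i k)) a)) := by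
    unfold sdCycle_DY
    have h := sdCycle_sel (n + 2) (fun a : Fin n → Bool => lo a n)
      (fun a => (lo_le a _).trans (Nat.lt_succ_self _))
      (fun p a => sgnA a * ((-1) ^ (lo a n) * ∑ i ∈ Finset.range (sdCycle_fl a n + 2),
        (-1 : ℝ) ^ i * φ (sdCycle_pt T (fun k => T (p + sdCycle_sk i k)) a)))
    rw [← h]
    apply Finset.sum_congr rfl
    intro p _
    apply Finset.sum_congr rfl
    intro a _
    ring
  have hR : ∑ j : Fin (n + 2), (-1 : ℝ) ^ (j : ℕ) * ∑ a : Fin n → Bool, sgnA a *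
        φ (path (fun i => t (j.succAbove i)) a) =
      ∑ a : Fin n → Bool, sgnA a * ∑ j ∈ Finset.range (n + 2), (-1 : ℝ) ^ j *
        φ (sdCycle_pt (fun k => T (sdCycle_sk j k))
          (fun k => T (sdCycle_sk j (lo a n + k))) a) := by
    simp only [Finset.mul_sum]
    rw [Finset.sum_comm]
    apply Finset.sum_congr rfl
    intro a _
    rw [← Fin.sum_univ_eq_sum_range (fun j => sgnA a * ((-1 : ℝ) ^ j *
        φ (sdCycle_pt (fun k => T (sdCycle_sk j k))
          (fun k => T (sdCycle_sk j (lo a n + k))) a))) (n + 2)]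
    apply Finset.sum_congr rfl
    intro j _
    rw [sdCycle_path_face, ← hT]
    ring
  have hLD : ∑ p ∈ Finset.range (n + 2), sdCycle_L n (fun r => if r = p then 1 else 0) T
        (fun k => T (p + k)) φ =
      ∑ p ∈ Finset.range (n + 2), sdCycle_DX n (fun r => if r = p then 1 else 0) T
        (fun k => T (p + k)) φ +
      ∑ p ∈ Finset.range (n + 2), sdCycle_DY n (fun r => if r = p then 1 else 0) T
        (fun k => T (p + k)) φ := by
    rw [← Finset.sum_add_distrib]
    exact Finset.sum_congr rfl fun p _ => sdCycle_leibniz n _ _ _ _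
  rw [hL, hLD, hDX, hDY, hR, ← Finset.sum_add_distrib]
  apply Finset.sum_congr rfl
  intro a _
  rw [← sdCycle_aw T φ a]
  ring

theorem WCycle.path {n : ℕ} {Γ X ι : Type*} [Group Γ] [MulAction Γ X] [Fintype ι] {χ : Γ → ℝ}
    {t : ι → Fin (n + 1) → X} {m : ι → ℝ} (h : WCycle χ t m) :
    WCycle χ (fun k : ι × (Fin n → Bool) => ChP.path (t k.1) k.2)
      (fun k => m k.1 * sgnA k.2) := by
  intro φ hφ
  cases n with
  | zero =>
    have h1 := h (fun _ => φ (fun i => i.elim0)) (fun γ y => by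
      have h2 := hφ γ (fun i => i.elim0)
      have h3 : (fun i : Fin 0 => γ • (Fin.elim0 i : X × X)) = fun i => i.elim0 := by
        funext i
        exact i.elim0
      rw [h3] at h2
      exact h2)
    rw [Fintype.sum_prod_type]
    have h4 : ∀ f : Fin 0 → X × X, φ f = φ (fun i => i.elim0) := by
      intro f
      congr 1
      funext i
      exact i.elim0
    have h5 : ∀ a : Fin 0 → Bool, sgnA a = 1 := by
      intro a
      unfold sgnA
      rw [Finset.univ_eq_empty, Finset.filter_empty, Finset.card_empty, pow_zero]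
    rw [← h1]
    apply Finset.sum_congr rfl
    intro k _
    rw [Fintype.sum_unique]
    simp only
    rw [h5, mul_one]
    congr 1
    apply Finset.sum_congr rfl
    intro j _
    rw [h4]
  | succ n =>
    have h1 := h (fun y => ∑ a : Fin n → Bool, sgnA a * φ (ChP.path y a)) (fun γ y => by
      rw [Finset.mul_sum]
      apply Finset.sum_congr rfl
      intro a _
      have h2 := hφ γ (ChP.path y a)
      have h3 : (fun i => γ • ChP.path y a i) = ChP.path (fun i => γ • y i) a := by
        funext i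
        rfl
      rw [h3] at h2
      rw [h2]
      ring)
    rw [Fintype.sum_prod_type, ← h1]
    apply Finset.sum_congr rfl
    intro k _
    rw [← path_chain (t k) φ, Finset.mul_sum]
    apply Finset.sum_congr rfl
    intro a _
    ring

end Pool.Agent.ChP
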