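import Pool.Agent.ChP.Prism
import Pool.Agent.ChP.SdCycle

/-!
# The Euler number does not change under doubling

By `CC_indep` for the weak cycle `WCycle.path` on `X × X`, the right hand side may be computed with
`ν' (x, y) = μ x` instead of `ν`.  For a word `a` which is not constantly `true` there is an index
`l` with `a l = false`, then `lo a l = lo a (l+1)`, two of the densities coincide and
`CC_eq_zero_of_eq` gives `0`.  For `a` constantly `true`: `lo a l = l`, `sgnA a = 1`, and the
term is `CC (μ ∘ t)`.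
-/

namespace Pool.Agent.ChP

open MeasureTheory Matrix

private theorem sdEul_lo_succ {n : ℕ} (a : Fin n → Bool) (l : Fin n) (h : a l = false) :
    lo a (l : ℕ) = lo a ((l : ℕ) + 1) := by
  unfold lo
  congr 1
  ext r
  simp only [Finset.mem_filter, Finset.mem_univ, true_and]
  constructor
  · rintro ⟨h1, h2⟩
    exact ⟨by omega, h2⟩
  · rintro ⟨h1, h2⟩
    refine ⟨?_, h2⟩
    rcases Nat.lt_succ_iff_lt_or_eq.1 h1 with h3 | h3
    · exact h3
    · exfalso
      have : r = l := Fin.ext h3
      rw [this, h] at h2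
      exact Bool.false_ne_true h2

private theorem sdEul_lo_true {n : ℕ} (l : Fin (n + 1)) :
    lo (fun _ : Fin n => true) (l : ℕ) = l := by
  unfold lo
  have h1 : (Finset.univ.filter fun r : Fin n => (r : ℕ) < l ∧ (fun _ : Fin n => true) r = true) =
      Finset.univ.filter fun r : Fin n => (r : ℕ) < l := by
    ext r
    simp
  rw [h1, Fin.card_filter_val_lt]
  have := l.2
  omega

private theorem sdEul_sgnA_true {n : ℕ} : sgnA (fun _ : Fin n => true) = 1 := by
  unfold sgnA
  simp

theorem CC_double {n : ℕ} {Γ X ι : Type*} [Group Γ] [MulAction Γ X] [Fintype ι]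
    (ρ : Γ →* Matrix (Fin n) (Fin n) ℝ) (t : ι → Fin (n + 1) → X) (m : ι → ℝ)
    (h : WCycle (chi ρ) t m) (μ : X → (Fin n → ℝ) → ℝ) (ν : X × X → (Fin n → ℝ) → ℝ)
    (hi : ∀ x, Integrable (μ x)) (hi' : ∀ x, Integrable (ν x))
    (h1 : ∀ x, ∫ y, μ x y = 1) (h1' : ∀ x, ∫ y, ν x y = 1)
    (he : ∀ (γ : Γ) (x : X), μ (γ • x) = push (ρ γ) (μ x))
    (he' : ∀ (γ : Γ) (x : X × X), ν (γ • x) = push (ρ γ) (ν x)) :
    ∑ k, m k * CC (fun i => μ (t k i)) =
      ∑ k : ι × (Fin n → Bool), (m k.1 * sgnA k.2) * CC (fun i => ν (path (t k.1) k.2 i)) := by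
  classical
  rw [← CC_indep ρ (fun k : ι × (Fin n → Bool) => path (t k.1) k.2)
    (fun k => m k.1 * sgnA k.2) h.path (fun x => μ x.1) ν (fun x => hi _) hi' (fun x => h1 _) h1'
    (fun γ x => he γ x.1) he']
  rw [Fintype.sum_prod_type]
  refine Finset.sum_congr rfl fun k _ => ?_
  simp only
  rw [Finset.sum_eq_single (fun _ : Fin n => true)]
  · rw [sdEul_sgnA_true, mul_one]
    congr 2
    funext i
    show μ (t k i) = μ (t k ⟨lo (fun _ : Fin n => true) (i : ℕ), _⟩)
    congr 2
    exact Fin.ext (sdEul_lo_true i).symm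
  · intro a _ ha
    obtain ⟨l, hl⟩ : ∃ l, a l = false := by
      by_contra hcon
      push Not at hcon
      apply ha
      funext l
      simpa using hcon l
    rw [CC_eq_zero_of_eq _ l.castSucc l.succ (by
      intro h2
      have := congrArg Fin.val h2
      simp at this), mul_zero]
    show μ (t k ⟨lo a ((l.castSucc : Fin (n + 1)) : ℕ), _⟩) =
      μ (t k ⟨lo a ((l.succ : Fin (n + 1)) : ℕ), _⟩)
    congr 2
    apply Fin.ext
    simp only [Fin.val_castSucc, Fin.val_succ]
    exact sdEul_lo_succ a l hl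
  · intro h2
    exact absurd (Finset.mem_univ _) h2

end Pool.Agent.ChP
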