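import Pool.Agent.ChP.LocalEst
import Pool.Agent.ChP.SdEul

/-!
# The self-adjoint case

`X = PSet T` (subtype) is a `Γ`-set by `γ • P = ρ γ * P * (ρ γ)ᵀ` (`conj_mem_PSet`), and
`γ ↦ ρ γ * (ρ γ)ᵀ` is equivariant, `push (ρ γ) (gdens 1) = gdens (ρ γ * (ρ γ)ᵀ)`.

`iter`: by induction on `k`.  `k = 0` is `local_est` (the path bound gives
`Close δ (x 0) (x i)` by `Close.trans`, `Close.mono`).  Step: `CC_double` with
`ν (P, Q) = gdens (gm P Q)`; the new weak cycle on `PSet T` is the image of `WCycle.path` under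
`gm : X × X → X` (equivariant by `gm_conj`); consecutive vertices of the new simplices are
`gm (x_i) (x_j)`, `gm (x_{i+1}) (x_j)` or `gm (x_i) (x_{j+1})` and each step `i → i+1` of the old
simplex is used exactly once, so the path bound is halved (`close_gm_left`, `close_gm_right`); the
sum of the absolute values of the coefficients is multiplied by `2^n`.

Then `eul_eq_zero_of_fixes` follows by letting `k → ∞`: `2^{nk} (2^{-k})^{n+1} = 2^{-k}`.
-/

namespace Pool.Agent.ChP

open MeasureTheory Matrix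

/-- the path `x_0, ..., x_n` has multiplicative length at most `δ` -/
def PathBound {n : ℕ} (x : Fin (n + 1) → Matrix (Fin n) (Fin n) ℝ) (δ : ℝ) : Prop :=
  ∃ e : Fin n → ℝ, (∀ i, 0 ≤ e i) ∧ (∑ i, e i ≤ δ) ∧
    ∀ i : Fin n, Close (e i) (x i.castSucc) (x i.succ)

private theorem iter_cnt_succ {n : ℕ} (a : Fin n → Bool) (c : Bool) (l : Fin n) :
    (Finset.univ.filter fun r : Fin n => (r : ℕ) < (l : ℕ) + 1 ∧ a r = c).card =
      (Finset.univ.filter fun r : Fin n => (r : ℕ) < (l : ℕ) ∧ a r = c).card +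
        (if a l = c then 1 else 0) := by
  by_cases h : a l = c
  · rw [if_pos h]
    have e : (Finset.univ.filter fun r : Fin n => (r : ℕ) < (l : ℕ) + 1 ∧ a r = c) =
        insert l (Finset.univ.filter fun r : Fin n => (r : ℕ) < (l : ℕ) ∧ a r = c) := by
      ext r
      simp only [Finset.mem_filter, Finset.mem_univ, true_and, Finset.mem_insert]
      constructor
      · rintro ⟨h1, h2⟩
        rcases Nat.lt_succ_iff_lt_or_eq.1 h1 with h3 | h3
        · exact Or.inr ⟨h3, h2⟩
        · exact Or.inl (Fin.ext h3)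
      · rintro (h1 | ⟨h1, h2⟩)
        · subst h1
          exact ⟨Nat.lt_succ_self _, h⟩
        · exact ⟨by omega, h2⟩
    rw [e, Finset.card_insert_of_notMem]
    simp
  · rw [if_neg h, add_zero]
    congr 1
    ext r
    simp only [Finset.mem_filter, Finset.mem_univ, true_and]
    constructor
    · rintro ⟨h1, h2⟩
      rcases Nat.lt_succ_iff_lt_or_eq.1 h1 with h3 | h3
      · exact ⟨h3, h2⟩
      · have h4 : r = l := Fin.ext h3
        subst h4
        exact absurd h2 h
    · rintro ⟨h1, h2⟩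
      exact ⟨by omega, h2⟩

private theorem iter_cnt_mono {n : ℕ} (a : Fin n → Bool) (c : Bool) {l l' : ℕ} (h : l ≤ l') :
    (Finset.univ.filter fun r : Fin n => (r : ℕ) < l ∧ a r = c).card ≤
      (Finset.univ.filter fun r : Fin n => (r : ℕ) < l' ∧ a r = c).card := by
  refine Finset.card_le_card ?_
  intro r
  simp only [Finset.mem_filter, Finset.mem_univ, true_and]
  rintro ⟨h1, h2⟩
  exact ⟨by omega, h2⟩

private theorem iter_lo_true {n : ℕ} (a : Fin n → Bool) (l : Fin n) (h : a l = true) :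
    lo a ((l : ℕ) + 1) = lo a l + 1 := by
  unfold lo
  rw [iter_cnt_succ, if_pos h]

private theorem iter_lo_false {n : ℕ} (a : Fin n → Bool) (l : Fin n) (h : a l = false) :
    lo a ((l : ℕ) + 1) = lo a l := by
  unfold lo
  rw [iter_cnt_succ, if_neg (by rw [h]; simp), add_zero]

private theorem iter_hi_true {n : ℕ} (a : Fin n → Bool) (l : Fin n) (h : a l = true) :
    hi a ((l : ℕ) + 1) = hi a l := by
  unfold hi
  rw [iter_cnt_succ, if_neg (by rw [h]; simp), add_zero]

private theorem iter_hi_false {n : ℕ} (a : Fin n → Bool) (l : Fin n) (h : a l = false) :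
    hi a ((l : ℕ) + 1) = hi a l + 1 := by
  unfold hi
  rw [iter_cnt_succ, if_pos h, add_assoc]

private theorem iter_lo_mono {n : ℕ} (a : Fin n → Bool) {l l' : ℕ} (h : l ≤ l') :
    lo a l ≤ lo a l' := iter_cnt_mono a true h

private theorem iter_hi_mono {n : ℕ} (a : Fin n → Bool) {l l' : ℕ} (h : l ≤ l') :
    hi a l ≤ hi a l' := by
  unfold hi
  exact Nat.add_le_add_left (iter_cnt_mono a false h) _

/-- the step of the old path used by the step `l` of the new one -/
private def iterSig {n : ℕ} (a : Fin n → Bool) (l : Fin n) : ℕ :=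
  if a l = true then lo a l else hi a l

private theorem iterSig_lt {n : ℕ} (a : Fin n → Bool) (l : Fin n) : iterSig a l < n := by
  unfold iterSig
  have h1 : (l : ℕ) + 1 ≤ n := l.2
  split_ifs with h
  · have h2 := iter_lo_true a l h
    have h3 := lo_le a ((l : ℕ) + 1)
    omega
  · have h2 := iter_hi_false a l (by simpa using h)
    have h3 := hi_le a ((l : ℕ) + 1)
    omega

private theorem iterSig_inj {n : ℕ} (a : Fin n → Bool) {l l' : Fin n} (h : (l : ℕ) < l') :
    iterSig a l ≠ iterSig a l' := by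
  unfold iterSig
  have hn : (l : ℕ) + 1 ≤ n := l.2
  have hn' : (l' : ℕ) + 1 ≤ n := l'.2
  split_ifs with h1 h2 h2
  · have h3 := iter_lo_true a l h1
    have h4 := iter_lo_mono a (show (l : ℕ) + 1 ≤ l' from h)
    omega
  · have h3 := iter_lo_true a l h1
    have h4 := iter_lo_mono a hn
    have h5 : lo a n ≤ hi a l' := by unfold hi; omega
    omega
  · have h3 := iter_lo_true a l' h2
    have h4 := iter_lo_mono a hn'
    have h5 : lo a n ≤ hi a l := by unfold hi; omega
    omega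
  · have h3 := iter_hi_false a l (by simpa using h1)
    have h4 := iter_hi_mono a (show (l : ℕ) + 1 ≤ l' from h)
    omega

private theorem iter_sum {n : ℕ} (a : Fin n → Bool) (e : Fin n → ℝ) :
    ∑ l : Fin n, e ⟨iterSig a l, iterSig_lt a l⟩ = ∑ i, e i := by
  have hinj : Function.Injective (fun l : Fin n => (⟨iterSig a l, iterSig_lt a l⟩ : Fin n)) := by
    intro l l' h
    have h1 : iterSig a l = iterSig a l' := congrArg Fin.val h
    rcases lt_trichotomy (l : ℕ) l' with h2 | h2 | h2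
    · exact absurd h1 (iterSig_inj a h2)
    · exact Fin.ext h2
    · exact absurd h1.symm (iterSig_inj a h2)
  have hb := Finite.injective_iff_bijective.1 hinj
  exact Function.Bijective.sum_comp hb e

theorem PathBound.path {n : ℕ} {x : Fin (n + 1) → Matrix (Fin n) (Fin n) ℝ} {δ : ℝ}
    (hx : ∀ i, (x i).PosDef) (h : PathBound x δ) (a : Fin n → Bool) :
    PathBound (fun l => gm (ChP.path x a l).1 (ChP.path x a l).2) (δ / 2) := by
  obtain ⟨e, he0, hes, hec⟩ := h
  refine ⟨fun l => e ⟨iterSig a l, iterSig_lt a l⟩ / 2, fun l => ?_, ?_, fun l => ?_⟩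
  · exact div_nonneg (he0 _) (by norm_num)
  · rw [← Finset.sum_div, iter_sum a e]
    linarith
  · by_cases hl : a l = true
    · have h1 := hec ⟨iterSig a l, iterSig_lt a l⟩
      have h2 := iter_lo_true a l hl
      have h3 := iter_hi_true a l hl
      have e1 : (⟨iterSig a l, iterSig_lt a l⟩ : Fin n).castSucc =
          ⟨lo a (l : ℕ), lo_le a l⟩ := Fin.ext (by simp [iterSig, hl])
      have e2 : (⟨iterSig a l, iterSig_lt a l⟩ : Fin n).succ =
          ⟨lo a ((l : ℕ) + 1), lo_le a ((l : ℕ) + 1)⟩ := Fin.ext (by simp [iterSig, hl, h2])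
      have e3 : (⟨hi a ((l : ℕ) + 1), hi_le a ((l : ℕ) + 1)⟩ : Fin (n + 1)) =
          ⟨hi a (l : ℕ), hi_le a l⟩ := Fin.ext (by simp [h3])
      rw [e1, e2] at h1
      have h4 := close_gm_left (hx _) (hx _) (hx ⟨hi a (l : ℕ), hi_le a l⟩) h1
      simp only [ChP.path, Fin.val_castSucc, Fin.val_succ]
      rw [e3]
      exact h4
    · have hl' : a l = false := by simpa using hl
      have h1 := hec ⟨iterSig a l, iterSig_lt a l⟩
      have h2 := iter_lo_false a l hl'
      have h3 := iter_hi_false a l hl'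
      have e1 : (⟨iterSig a l, iterSig_lt a l⟩ : Fin n).castSucc =
          ⟨hi a (l : ℕ), hi_le a l⟩ := Fin.ext (by simp [iterSig, hl])
      have e2 : (⟨iterSig a l, iterSig_lt a l⟩ : Fin n).succ =
          ⟨hi a ((l : ℕ) + 1), hi_le a ((l : ℕ) + 1)⟩ := Fin.ext (by simp [iterSig, hl, h3])
      have e3 : (⟨lo a ((l : ℕ) + 1), lo_le a ((l : ℕ) + 1)⟩ : Fin (n + 1)) =
          ⟨lo a (l : ℕ), lo_le a l⟩ := Fin.ext (by simp [h2])
      rw [e1, e2] at h1
      have h4 := close_gm_right (hx ⟨lo a (l : ℕ), lo_le a l⟩) (hx _) (hx _) h1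
      simp only [ChP.path, Fin.val_castSucc, Fin.val_succ]
      rw [e3]
      exact h4

theorem PathBound.close {n : ℕ} {x : Fin (n + 1) → Matrix (Fin n) (Fin n) ℝ} {δ : ℝ}
    (hx : ∀ i, (x i).PosDef) (h : PathBound x δ) (i : Fin (n + 1)) : Close δ (x 0) (x i) := by
  obtain ⟨e, he0, hes, hec⟩ := h
  have key : ∀ k : ℕ, ∀ hk : k < n + 1,
      Close (∑ j ∈ Finset.univ.filter (fun j : Fin n => (j : ℕ) < k), e j) (x 0) (x ⟨k, hk⟩) := by
    intro k
    induction k with
    | zero =>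
      intro hk
      simp only [Nat.not_lt_zero, Finset.filter_false, Finset.sum_empty]
      exact Close.refl _
    | succ k ih =>
      intro hk
      have hkn : k < n := by omega
      have h1 := ih (by omega)
      have h2 := hec ⟨k, hkn⟩
      have e1 : (Finset.univ.filter (fun j : Fin n => (j : ℕ) < k + 1)) =
          insert ⟨k, hkn⟩ (Finset.univ.filter (fun j : Fin n => (j : ℕ) < k)) := by
        ext j
        simp only [Finset.mem_filter, Finset.mem_univ, true_and, Finset.mem_insert]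
        constructor
        · intro h3
          rcases Nat.lt_succ_iff_lt_or_eq.1 h3 with h4 | h4
          · exact Or.inr h4
          · exact Or.inl (Fin.ext h4)
        · rintro (h3 | h3)
          · rw [h3]
            exact Nat.lt_succ_self _
          · omega
      rw [e1, Finset.sum_insert (by simp), add_comm]
      exact h1.trans h2
  have h1 := key i i.2
  refine Close.mono (hx 0).posSemidef (hx i).posSemidef h1 ?_
  refine le_trans ?_ hes
  exact Finset.sum_le_sum_of_subset_of_nonneg (Finset.filter_subset _ _) (fun j _ _ => he0 j)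

private theorem iter_wcycle_map {n : ℕ} {Γ X Y ι : Type*} [Group Γ] [MulAction Γ X]
    [MulAction Γ Y] [Fintype ι] {χ : Γ → ℝ} {t : ι → Fin (n + 1) → Y} {m : ι → ℝ}
    (h : WCycle χ t m) (f : Y → X) (hf : ∀ (γ : Γ) (y : Y), f (γ • y) = γ • f y) :
    WCycle χ (fun k i => f (t k i)) m := by
  intro φ hφ
  refine h (fun y => φ (fun i => f (y i))) ?_
  intro γ y
  rw [← hφ γ]
  congr 1
  funext i
  exact hf γ (y i)

private theorem iter_abs_sgnA {n : ℕ} (a : Fin n → Bool) : |sgnA a| = 1 := by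
  unfold sgnA
  rw [abs_pow, abs_neg, abs_one, one_pow]

private theorem iter_main {d n : ℕ} {Γ : Type} [Group Γ] (T : Ten d n)
    (h0 : T ≠ 0) (ρ : Γ →* Matrix (Fin n) (Fin n) ℝ)
    (hdet : ∀ γ, (ρ γ).det ≠ 0)
    [MulAction Γ {P : Matrix (Fin n) (Fin n) ℝ // P ∈ PSet T}]
    (hA : ∀ (γ : Γ) (P : {P : Matrix (Fin n) (Fin n) ℝ // P ∈ PSet T}),
      (γ • P).1 = ρ γ * P.1 * (ρ γ)ᵀ)
    (C : ℝ) (hC : ∀ (x : Fin (n + 1) → Matrix (Fin n) (Fin n) ℝ) (δ : ℝ),
      (∀ i, x i ∈ PSet T) → 0 ≤ δ → (∀ i, Close δ (x 0) (x i)) →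
      |CC fun i => gdens (x i)| ≤ C * δ ^ (n + 1)) (j : ℕ) :
    ∀ (ι : Type) [Fintype ι]
      (t : ι → Fin (n + 1) → {P : Matrix (Fin n) (Fin n) ℝ // P ∈ PSet T}) (m : ι → ℝ) (δ : ℝ),
      0 ≤ δ → WCycle (chi ρ) t m → (∀ k, PathBound (fun i => (t k i).1) δ) →
      |∑ k, m k * CC (fun i => gdens (t k i).1)| ≤
        C * (∑ k, |m k|) * δ ^ (n + 1) / 2 ^ j := by
  induction j with
  | zero =>
    intro ι _ t m δ hδ _ hp
    rw [pow_zero, div_one]
    refine (Finset.abs_sum_le_sum_abs _ _).trans ?_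
    rw [mul_assoc, mul_comm C, Finset.sum_mul, Finset.sum_mul]
    refine Finset.sum_le_sum fun k _ => ?_
    rw [abs_mul]
    have h1 := hC (fun i => (t k i).1) δ (fun i => (t k i).2) hδ
      (fun i => PathBound.close (fun i => (t k i).2.1) (hp k) i)
    calc |m k| * |CC fun i => gdens (t k i).1| ≤ |m k| * (C * δ ^ (n + 1)) :=
          mul_le_mul_of_nonneg_left h1 (abs_nonneg _)
      _ = |m k| * δ ^ (n + 1) * C := by ring
  | succ j ih =>
    intro ι _ t m δ hδ hw hp
    -- the geometric mean as an equivariant map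
    let f : {P : Matrix (Fin n) (Fin n) ℝ // P ∈ PSet T} ×
        {P : Matrix (Fin n) (Fin n) ℝ // P ∈ PSet T} →
        {P : Matrix (Fin n) (Fin n) ℝ // P ∈ PSet T} :=
      fun x => ⟨gm x.1.1 x.2.1, gm_mem_PSet h0 x.1.2 x.2.2⟩
    have hf : ∀ (γ : Γ) (x : {P : Matrix (Fin n) (Fin n) ℝ // P ∈ PSet T} ×
        {P : Matrix (Fin n) (Fin n) ℝ // P ∈ PSet T}), f (γ • x) = γ • f x := by
      intro γ x
      refine Subtype.ext ?_
      rw [hA]
      change gm (γ • x.1).1 (γ • x.2).1 = _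
      rw [hA, hA]
      exact gm_conj x.1.2.1 x.2.2.1 (hdet γ)
    have hdouble := CC_double ρ t m hw (fun P => gdens P.1) (fun x => gdens (f x).1)
      (fun P => integrable_gdens P.2.1) (fun x => integrable_gdens (f x).2.1)
      (fun P => integral_gdens P.2.1) (fun x => integral_gdens (f x).2.1)
      (fun γ P => by
        change gdens (γ • P).1 = push (ρ γ) (gdens P.1)
        rw [hA, push_gdens (hdet γ) P.2.1])
      (fun γ x => by
        change gdens (f (γ • x)).1 = push (ρ γ) (gdens (f x).1)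
        rw [hf, hA, push_gdens (hdet γ) (f x).2.1])
    rw [hdouble]
    have hw' := iter_wcycle_map hw.path f hf
    have h1 := ih (ι × (Fin n → Bool)) (fun k i => f (ChP.path (t k.1) k.2 i))
      (fun k => m k.1 * sgnA k.2) (δ / 2) (by linarith) hw' (fun k => by
        have h2 := PathBound.path (fun i => (t k.1 i).2.1) (hp k.1) k.2
        exact h2)
    refine h1.trans (le_of_eq ?_)
    have h3 : ∑ k : ι × (Fin n → Bool), |m k.1 * sgnA k.2| = 2 ^ n * ∑ k, |m k| := by
      rw [Fintype.sum_prod_type]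
      simp only [abs_mul, iter_abs_sgnA, mul_one, Finset.sum_const, Finset.card_univ,
        Fintype.card_fun, Fintype.card_bool, Fintype.card_fin, nsmul_eq_mul]
      rw [← Finset.mul_sum]
      push_cast
      rfl
    rw [h3, div_pow, pow_succ (2 : ℝ) n, pow_succ (2 : ℝ) j]
    have h4 : (2 : ℝ) ^ n ≠ 0 := by positivity
    field_simp

theorem eul_eq_zero_of_fixes {d n : ℕ} {Γ ι : Type} [Group Γ] [Fintype ι] (T : Ten d n)
    (hT : TSym T) (h0 : T ≠ 0) (hd : 0 < d) (ρ : Γ →* Matrix (Fin n) (Fin n) ℝ)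
    (hρ : ∀ γ, Fixes T (ρ γ)) (hρ' : ∀ γ, Fixes T (ρ γ)ᵀ)
    (t : ι → Fin (n + 1) → Γ) (m : ι → ℝ) (h : WCycle (chi ρ) t m) : eul ρ t m = 0 := by
  have hdet : ∀ γ, (ρ γ).det ≠ 0 := by
    intro γ h1
    have h2 : (ρ γ * ρ γ⁻¹).det = 1 := by
      rw [← map_mul, mul_inv_cancel, map_one, det_one]
    rw [det_mul, h1, zero_mul] at h2
    exact zero_ne_one h2
  obtain ⟨C, hC0, hC⟩ := local_est T hT h0 hd
  let _ : MulAction Γ {P : Matrix (Fin n) (Fin n) ℝ // P ∈ PSet T} :=
    { smul := fun γ P => ⟨ρ γ * P.1 * (ρ γ)ᵀ, conj_mem_PSet h0 P.2 (hdet γ) (hρ γ) (hρ' γ)⟩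
      one_smul := fun P => by
        refine Subtype.ext ?_
        change ρ 1 * P.1 * (ρ 1)ᵀ = P.1
        rw [map_one, transpose_one, mul_one, one_mul]
      mul_smul := fun a b P => by
        refine Subtype.ext ?_
        change ρ (a * b) * P.1 * (ρ (a * b))ᵀ = ρ a * (ρ b * P.1 * (ρ b)ᵀ) * (ρ a)ᵀ
        rw [map_mul, transpose_mul]
        simp only [Matrix.mul_assoc] }
  have hA : ∀ (γ : Γ) (P : {P : Matrix (Fin n) (Fin n) ℝ // P ∈ PSet T}),
      (γ • P).1 = ρ γ * P.1 * (ρ γ)ᵀ := fun γ P => rfl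
  have h1mem : (1 : Matrix (Fin n) (Fin n) ℝ) ∈ PSet T := ⟨PosDef.one, tact_one T⟩
  let f : Γ → {P : Matrix (Fin n) (Fin n) ℝ // P ∈ PSet T} := fun γ => γ • ⟨1, h1mem⟩
  have hf : ∀ (γ y : Γ), f (γ • y) = γ • f y := by
    intro γ y
    change (γ * y) • _ = γ • (y • _)
    rw [mul_smul]
  have hw := iter_wcycle_map h f hf
  -- the initial path bound
  have hex : ∀ k : ι, ∃ δ : ℝ, 0 ≤ δ ∧ PathBound (fun i => (f (t k i)).1) δ := by
    intro k
    choose e he0 hec using fun i : Fin n =>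
      exists_close (f (t k i.castSucc)).2.1 (f (t k i.succ)).2.1
    exact ⟨∑ i, e i, Finset.sum_nonneg fun i _ => he0 i, e, he0, le_rfl, hec⟩
  choose δ hδ0 hδ using hex
  have hpb : ∀ k : ι, PathBound (fun i => (f (t k i)).1) (∑ k, δ k) := by
    intro k
    obtain ⟨e, he0, hes, hec⟩ := hδ k
    exact ⟨e, he0, hes.trans (Finset.single_le_sum (fun i _ => hδ0 i) (Finset.mem_univ k)), hec⟩
  have hD : 0 ≤ ∑ k, δ k := Finset.sum_nonneg fun k _ => hδ0 k
  have heul : eul ρ t m = ∑ k, m k * CC (fun i => gdens (f (t k i)).1) := by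
    unfold eul
    refine Finset.sum_congr rfl fun k _ => ?_
    congr 2
    funext i
    change _ = gdens (ρ (t k i) * 1 * (ρ (t k i))ᵀ)
    rw [push_gdens (hdet _) PosDef.one]
  have hbound : ∀ j : ℕ, |eul ρ t m| ≤ C * (∑ k, |m k|) * (∑ k, δ k) ^ (n + 1) / 2 ^ j := by
    intro j
    rw [heul]
    exact iter_main T h0 ρ hdet hA C hC j ι (fun k i => f (t k i)) m (∑ k, δ k) hD hw hpb
  have hlim : Filter.Tendsto (fun j : ℕ => C * (∑ k, |m k|) * (∑ k, δ k) ^ (n + 1) / 2 ^ j)
      Filter.atTop (nhds 0) :=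
    (tendsto_pow_atTop_atTop_of_one_lt (by norm_num : (1 : ℝ) < 2)).const_div_atTop _
  have h5 : |eul ρ t m| ≤ 0 := ge_of_tendsto' hlim hbound
  exact abs_nonpos_iff.1 h5

end Pool.Agent.ChP
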