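import Pool.Agent.ChP.GM
import Pool.Agent.ChP.Tens

/-!
# The positive definite matrices which fix a tensor

`P = U diag(l) Uᵀ` and `T' = tact T U`: `tact T P = T` means `(∏ k, l (I k)) * T' I = T' I` for all
`I` (`tact_mul`, `tact_diagonal`), i.e. `∏ k, l (I k) = 1` whenever `T' I ≠ 0`.  Hence every power
`U diag(l^s) Uᵀ` fixes `T` as well.  If only `tact T P = ± T` is known, then `T' I ≠ 0` gives
`∏ l = ± 1`, so `= 1` (all `l > 0`), so `tact T P = T`.

`tangent`: for `P ∈ PSet T` and `P^s = U diag(l^s) Uᵀ` one has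
`tpoly T (P^s v) = tpoly T v` for all `s`; differentiating at `s = 0` gives
`(d tpoly T)_v (lg P v) = 0`.  If `tpoly T v ≠ 0` then the linear form
`(d tpoly T)_v` is not zero (its value at `v` is `d * tpoly T v`), so the `n` vectors
`lg (P i) v` are linearly dependent and the determinant vanishes.  Both sides being continuous in
`v` the determinant vanishes everywhere (`TSym.dense_ne_zero`).
-/

namespace Pool.Agent.ChP

open Matrix

variable {d n : ℕ}

private theorem PSet_zero (g : Matrix (Fin n) (Fin n) ℝ) : tact (0 : Ten d n) g = 0 := by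
  funext I
  simp [tact]

private theorem PSet_T' {T : Ten d n} (h0 : T ≠ 0) {U : Matrix (Fin n) (Fin n) ℝ}
    (hU : U * Uᵀ = 1) : ∃ I, tact T U I ≠ 0 := by
  by_contra h
  push Not at h
  apply h0
  have h1 : tact T U = 0 := funext h
  rw [← tact_one T, ← hU, ← tact_mul, h1, PSet_zero]

private theorem PSet_prod {T : Ten d n} {U : Matrix (Fin n) (Fin n) ℝ} {l : Fin n → ℝ}
    (hU' : Uᵀ * U = 1) {c : ℝ} (h : tact T (U * diagonal l * Uᵀ) = c • T)
    {I : Fin d → Fin n} (hI : tact T U I ≠ 0) : ∏ k, l (I k) = c := by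
  have h1 : tact (tact T (U * diagonal l * Uᵀ)) U = tact (tact T U) (diagonal l) := by
    rw [tact_mul, tact_mul, mul_assoc, hU', mul_one]
  rw [h, tact_smul] at h1
  have h2 := congrFun h1 I
  rw [tact_diagonal] at h2
  simp only [Pi.smul_apply, smul_eq_mul] at h2
  exact (mul_right_cancel₀ hI h2).symm

private theorem PSet_fix {T : Ten d n} {U : Matrix (Fin n) (Fin n) ℝ} {m : Fin n → ℝ}
    (hU : U * Uᵀ = 1) (h : ∀ I, tact T U I ≠ 0 → ∏ k, m (I k) = 1) :
    tact T (U * diagonal m * Uᵀ) = T := by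
  have h1 : tact (tact T U) (diagonal m) = tact T U := by
    funext I
    rw [tact_diagonal]
    by_cases hI : tact T U I = 0
    · rw [hI, mul_zero]
    · rw [h I hI, one_mul]
  rw [← tact_mul, ← tact_mul, h1, tact_mul, hU, tact_one]

private theorem PSet_spec {P : Matrix (Fin n) (Fin n) ℝ} (hP : P.PosDef) :
    ∃ (U : Matrix (Fin n) (Fin n) ℝ) (l : Fin n → ℝ), U * Uᵀ = 1 ∧ Uᵀ * U = 1 ∧
      P = U * diagonal l * Uᵀ ∧ ∀ i, 0 < l i := by
  obtain ⟨U, l, h1, h2, h3⟩ := exists_spec P (by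
    have := hP.isHermitian
    rwa [IsHermitian, conjTranspose_eq_transpose_of_trivial] at this)
  exact ⟨U, l, h1, h2, h3, (posDef_iff_spec h2 h3).1 hP⟩

private theorem PSet_symm {P : Matrix (Fin n) (Fin n) ℝ} (hP : P.PosDef) : Pᵀ = P := by
  have := hP.isHermitian
  rwa [IsHermitian, conjTranspose_eq_transpose_of_trivial] at this

theorem mem_PSet_of_fixes {T : Ten d n} (h0 : T ≠ 0) {P : Matrix (Fin n) (Fin n) ℝ}
    (hP : P.PosDef) (h : Fixes T P) : P ∈ PSet T := by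
  refine ⟨hP, ?_⟩
  rcases h with h | h
  · exact h
  · exfalso
    obtain ⟨U, l, h1, h2, h3, h4⟩ := PSet_spec hP
    obtain ⟨I, hI⟩ := PSet_T' h0 h1
    have h5 : tact T (U * diagonal l * Uᵀ) = (-1 : ℝ) • T := by
      rw [← h3, h, neg_one_smul]
    have h6 := PSet_prod h2 h5 hI
    have h7 : 0 < ∏ k, l (I k) := Finset.prod_pos fun k _ => h4 (I k)
    rw [h6] at h7
    norm_num at h7

theorem cfc_mem_PSet {T : Ten d n} {P : Matrix (Fin n) (Fin n) ℝ} (hP : P ∈ PSet T) (s : ℝ) :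
    cfc (fun x : ℝ => x ^ s) P ∈ PSet T := by
  obtain ⟨hP1, hP2⟩ := hP
  obtain ⟨U, l, h1, h2, h3, h4⟩ := PSet_spec hP1
  have h5 := cfc_conj_diagonal h2 h3 (fun x : ℝ => x ^ s)
  have h6 : tact T (U * diagonal l * Uᵀ) = (1 : ℝ) • T := by
    rw [← h3, hP2, one_smul]
  refine ⟨?_, ?_⟩
  · exact (posDef_iff_spec h2 h5).2 fun i => Real.rpow_pos_of_pos (h4 i) s
  · rw [h5]
    apply PSet_fix h1
    intro I hI
    rw [Real.finsetProd_rpow _ _ (fun k _ => (h4 (I k)).le), PSet_prod h2 h6 hI, Real.one_rpow]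

theorem sqrt_mem_PSet {T : Ten d n} {P : Matrix (Fin n) (Fin n) ℝ} (hP : P ∈ PSet T) :
    cfc Real.sqrt P ∈ PSet T := by
  have h := cfc_mem_PSet hP (1 / 2)
  have e : Real.sqrt = fun x : ℝ => x ^ (1 / 2 : ℝ) := by
    funext x
    rw [Real.sqrt_eq_rpow]
  rw [e]
  exact h

theorem inv_mem_PSet {T : Ten d n} {P : Matrix (Fin n) (Fin n) ℝ} (hP : P ∈ PSet T) :
    P⁻¹ ∈ PSet T := by
  obtain ⟨hP1, hP2⟩ := hP
  refine ⟨hP1.inv, ?_⟩
  have hu : IsUnit P.det := (Matrix.isUnit_iff_isUnit_det P).1 hP1.isUnit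
  conv_lhs => rw [← hP2]
  rw [tact_mul, Matrix.mul_nonsing_inv _ hu, tact_one]

theorem conj_mem_PSet {T : Ten d n} (h0 : T ≠ 0) {P g : Matrix (Fin n) (Fin n) ℝ}
    (hP : P ∈ PSet T) (hd : g.det ≠ 0) (hg : Fixes T g) (hg' : Fixes T gᵀ) :
    g * P * gᵀ ∈ PSet T := by
  obtain ⟨hP1, hP2⟩ := hP
  apply mem_PSet_of_fixes h0
  · have hinj : Function.Injective (fun v : Fin n → ℝ => v ᵥ* g) := by
      intro v w hvw
      have hu : IsUnit g.det := isUnit_iff_ne_zero.2 hd
      have h1 : v ᵥ* g ᵥ* g⁻¹ = w ᵥ* g ᵥ* g⁻¹ := by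
        have h2 : v ᵥ* g = w ᵥ* g := hvw
        rw [h2]
      rwa [Matrix.vecMul_vecMul, Matrix.vecMul_vecMul, Matrix.mul_nonsing_inv _ hu,
        Matrix.vecMul_one, Matrix.vecMul_one] at h1
    have h3 := hP1.mul_mul_conjTranspose_same (B := g) hinj
    rwa [conjTranspose_eq_transpose_of_trivial] at h3
  · exact (hg.mul (Or.inl hP2)).mul hg'

theorem gm_mem_PSet {T : Ten d n} (h0 : T ≠ 0) {P Q : Matrix (Fin n) (Fin n) ℝ}
    (hP : P ∈ PSet T) (hQ : Q ∈ PSet T) : gm P Q ∈ PSet T := by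
  unfold gm
  have hR := sqrt_mem_PSet hP
  generalize cfc Real.sqrt P = R at hR ⊢
  have hRt : Rᵀ = R := PSet_symm hR.1
  have hRi := inv_mem_PSet hR
  have hRit : R⁻¹ᵀ = R⁻¹ := PSet_symm hRi.1
  have hdet : ∀ {X : Matrix (Fin n) (Fin n) ℝ}, X ∈ PSet T → X.det ≠ 0 := by
    intro X hX
    exact isUnit_iff_ne_zero.1 ((Matrix.isUnit_iff_isUnit_det X).1 hX.1.isUnit)
  have h1 : R⁻¹ * Q * R⁻¹ ∈ PSet T := by
    have := conj_mem_PSet h0 hQ (hdet hRi) (Or.inl hRi.2) (Or.inl (by rw [hRit]; exact hRi.2))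
    rwa [hRit] at this
  have h2 := sqrt_mem_PSet h1
  have := conj_mem_PSet h0 h2 (hdet hR) (Or.inl hR.2) (Or.inl (by rw [hRt]; exact hR.2))
  rwa [hRt] at this

/-- the derivative of `tpoly T` at `v` -/
private noncomputable def PSet_D (T : Ten d n) (v : Fin n → ℝ) : (Fin n → ℝ) →ₗ[ℝ] ℝ where
  toFun w := ∑ I : Fin d → Fin n, T I * ∑ k : Fin d, (∏ j ∈ Finset.univ.erase k, v (I j)) * w (I k)
  map_add' w1 w2 := by
    rw [← Finset.sum_add_distrib]
    refine Finset.sum_congr rfl fun I _ => ?_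
    rw [← mul_add, ← Finset.sum_add_distrib]
    congr 1
    refine Finset.sum_congr rfl fun k _ => ?_
    simp only [Pi.add_apply]
    ring
  map_smul' c w := by
    simp only [RingHom.id_apply, smul_eq_mul]
    rw [Finset.mul_sum]
    refine Finset.sum_congr rfl fun I _ => ?_
    rw [Finset.mul_sum, Finset.mul_sum, Finset.mul_sum]
    refine Finset.sum_congr rfl fun k _ => ?_
    simp only [Pi.smul_apply, smul_eq_mul]
    ring

private theorem PSet_D_self (T : Ten d n) (v : Fin n → ℝ) : PSet_D T v v = d * tpoly T v := by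
  unfold tpoly
  simp only [PSet_D, LinearMap.coe_mk, AddHom.coe_mk]
  rw [Finset.mul_sum]
  refine Finset.sum_congr rfl fun I _ => ?_
  have h : ∀ k : Fin d, (∏ j ∈ Finset.univ.erase k, v (I j)) * v (I k) = ∏ j, v (I j) := by
    intro k
    rw [Finset.prod_erase_mul _ _ (Finset.mem_univ k)]
  simp only [h, Finset.sum_const, Finset.card_univ, Fintype.card_fin, nsmul_eq_mul]
  ring

private theorem PSet_deriv (T : Ten d n) {γ : ℝ → Fin n → ℝ} {w : Fin n → ℝ}
    (h : ∀ i, HasDerivAt (fun s => γ s i) (w i) 0) :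
    HasDerivAt (fun s => tpoly T (γ s)) (PSet_D T (γ 0) w) 0 := by
  unfold tpoly
  have e : PSet_D T (γ 0) w = ∑ I : Fin d → Fin n, T I *
      ∑ k : Fin d, (∏ j ∈ Finset.univ.erase k, γ 0 (I j)) * w (I k) := rfl
  rw [e]
  refine HasDerivAt.fun_sum fun I _ => ?_
  refine HasDerivAt.const_mul _ ?_
  have := HasDerivAt.fun_finsetProd (u := Finset.univ) (f := fun (k : Fin d) (s : ℝ) => γ s (I k))
    (f' := fun k => w (I k)) (x := 0) (fun k _ => h (I k))
  simpa only [smul_eq_mul] using this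

private theorem PSet_tangent {T : Ten d n} {P : Matrix (Fin n) (Fin n) ℝ} (hP : P ∈ PSet T)
    (v : Fin n → ℝ) : PSet_D T v (lg P *ᵥ v) = 0 := by
  obtain ⟨U, l, h1, h2, h3, h4⟩ := PSet_spec hP.1
  have hcfc := cfc_conj_diagonal h2 h3
  obtain ⟨γ, hγ⟩ : ∃ γ : ℝ → Fin n → ℝ, γ = fun s => cfc (fun x : ℝ => x ^ s) P *ᵥ v := ⟨_, rfl⟩
  have hexp : ∀ (m : Fin n → ℝ) (i : Fin n), ((U * diagonal m * Uᵀ) *ᵥ v) i =
      ∑ j, U i j * (m j * (Uᵀ *ᵥ v) j) := by
    intro m i
    rw [← Matrix.mulVec_mulVec, ← Matrix.mulVec_mulVec]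
    rw [Matrix.mulVec, dotProduct]
    refine Finset.sum_congr rfl fun j _ => ?_
    rw [Matrix.mulVec_diagonal]
  have hγ0 : γ 0 = v := by
    rw [hγ]
    simp only
    rw [hcfc]
    have : (fun i => l i ^ (0 : ℝ)) = fun _ => (1 : ℝ) := by
      funext i
      rw [Real.rpow_zero]
    rw [this, Matrix.diagonal_one, mul_one, h1, Matrix.one_mulVec]
  have hd : ∀ i, HasDerivAt (fun s => γ s i) ((lg P *ᵥ v) i) 0 := by
    intro i
    rw [hγ]
    unfold lg
    simp only
    have e : (fun s : ℝ => (cfc (fun x : ℝ => x ^ s) P *ᵥ v) i) =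
        fun s : ℝ => ∑ j, U i j * (l j ^ s * (Uᵀ *ᵥ v) j) := by
      funext s
      rw [hcfc, hexp]
    rw [e, hcfc Real.log, hexp]
    refine HasDerivAt.fun_sum fun j _ => ?_
    refine HasDerivAt.const_mul _ ?_
    refine HasDerivAt.mul_const ?_ _
    have := (Real.hasStrictDerivAt_const_rpow (h4 j) 0).hasDerivAt
    rwa [Real.rpow_zero, one_mul] at this
  have h5 := PSet_deriv T hd
  have h6 : (fun s => tpoly T (γ s)) = fun _ => tpoly T v := by
    funext s
    rw [hγ]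
    simp only
    rw [← tpoly_tact, (cfc_mem_PSet hP s).2]
  rw [h6] at h5
  rw [hγ0] at h5
  exact h5.unique (hasDerivAt_const _ _)

theorem tangent {T : Ten d n} (hT : TSym T) (h0 : T ≠ 0) (hd : 0 < d)
    (P : Fin n → Matrix (Fin n) (Fin n) ℝ) (hP : ∀ i, P i ∈ PSet T) (η : Fin n → ℝ) :
    Matrix.det (Matrix.of fun i => lg (P i) *ᵥ η) = 0 := by
  have hc1 : Continuous fun v : Fin n → ℝ => Matrix.det (Matrix.of fun i => lg (P i) *ᵥ v) := by
    apply Continuous.matrix_det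
    refine continuous_pi fun i => ?_
    exact Continuous.matrix_mulVec continuous_const continuous_id
  have key := Continuous.ext_on (hT.dense_ne_zero h0) hc1 (continuous_const (y := (0 : ℝ))) (by
    intro v hv
    simp only [Set.mem_ofPred_eq] at hv
    simp only
    rw [← Matrix.exists_mulVec_eq_zero_iff]
    refine ⟨fun j => PSet_D T v (fun i => if j = i then 1 else 0), ?_, ?_⟩
    · intro hcon
      have h1 := PSet_D_self T v
      rw [LinearMap.pi_apply_eq_sum_univ (PSet_D T v) v] at h1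
      have h2 : ∀ j, PSet_D T v (fun i => if j = i then 1 else 0) = 0 := fun j => congrFun hcon j
      simp only [h2, smul_zero, Finset.sum_const_zero] at h1
      have h3 : (d : ℝ) ≠ 0 := by
        exact_mod_cast hd.ne'
      exact (mul_ne_zero h3 hv) h1.symm
    · funext i
      have h1 := PSet_tangent (hP i) v
      rw [LinearMap.pi_apply_eq_sum_univ (PSet_D T v) (lg (P i) *ᵥ v)] at h1
      rw [Matrix.mulVec, dotProduct]
      simp only [Matrix.of_apply, Pi.zero_apply]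
      simpa only [smul_eq_mul] using h1)
  exact congrFun key η

end Pool.Agent.ChP
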