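import Pool.Agent.ChP.Spec
import Pool.Agent.ChP.Tens

/-!
# Balanced tuples: the transposes fix the tensor too

Let `B` fix `T` up to sign, `B * Bᵀ = U diag(l) Uᵀ`, `T' = tact T U`, `l_I = ∏ k, l (I k) > 0`.
`∑ T'_I² = ‖T‖² = ‖tact T B‖² = ⟨T, tact T (B * Bᵀ)⟩ = ∑ l_I T'_I²` (`tact_adjoint`,
`tact_mul`), so `∑ (l_I - 1) T'_I² = 0`, hence, as `log x ≤ x - 1`,
`tq T (lg (B * Bᵀ)) = ∑ (log l_I) T'_I² ≤ 0` (`tq_conj_diagonal`), with equality only if `l_I = 1`
whenever `T'_I ≠ 0`, i.e. only if `tact T (B * Bᵀ) = T`.  Applying this to `B⁻¹`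
(`B⁻¹ * B⁻¹ᵀ = (Bᵀ * B)⁻¹`, `lg_inv`) gives `tq T (lg (Bᵀ * B)) ≥ 0`.  Summing over `s` and using
the hypothesis and linearity of `tq T`, all these numbers are `0`.  So
`T = tact T (B * Bᵀ) = tact (tact T B) Bᵀ = ± tact T Bᵀ`.
-/

namespace Pool.Agent.ChP

open Matrix

private theorem selfAdj_zero {d n : ℕ} (T : Ten d n) :
    tq T (0 : Matrix (Fin n) (Fin n) ℝ) = 0 := by
  have h := tq_smul T 0 (0 : Matrix (Fin n) (Fin n) ℝ)
  rwa [zero_smul, zero_mul] at h

private theorem selfAdj_neg {d n : ℕ} (T : Ten d n) (Y : Matrix (Fin n) (Fin n) ℝ) :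
    tq T (-Y) = -tq T Y := by
  have h := tq_smul T (-1) Y
  rwa [neg_one_smul, neg_one_mul] at h

private theorem selfAdj_sum {d n : ℕ} {S : Type} [Fintype S] (T : Ten d n)
    (Y : S → Matrix (Fin n) (Fin n) ℝ) : tq T (∑ s, Y s) = ∑ s, tq T (Y s) :=
  map_sum ({ toFun := tq T, map_zero' := selfAdj_zero T, map_add' := tq_add T } :
    Matrix (Fin n) (Fin n) ℝ →+ ℝ) Y Finset.univ

/-- the estimate for one matrix. -/
private theorem selfAdj_key {d n : ℕ} (T : Ten d n) {B : Matrix (Fin n) (Fin n) ℝ}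
    (hB : B.det ≠ 0) (hT : Fixes T B) :
    tq T (lg (B * Bᵀ)) ≤ 0 ∧ (tq T (lg (B * Bᵀ)) = 0 → tact T (B * Bᵀ) = T) := by
  have hsym : (B * Bᵀ)ᵀ = B * Bᵀ := by
    rw [transpose_mul, transpose_transpose]
  obtain ⟨U, l, hU1, hU2, hP⟩ := exists_spec (B * Bᵀ) hsym
  have hpd : (B * Bᵀ).PosDef := by
    have hu : IsUnit B := (Matrix.isUnit_iff_isUnit_det B).2 (isUnit_iff_ne_zero.2 hB)
    have h1 := Matrix.PosDef.mul_conjTranspose_self B
      (Matrix.vecMul_injective_iff_isUnit.2 hu)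
    rwa [conjTranspose_eq_transpose_of_trivial] at h1
  have hl : ∀ i, 0 < l i := (posDef_iff_spec hU2 hP).1 hpd
  set T' : Ten d n := tact T U with hT'
  set L : (Fin d → Fin n) → ℝ := fun I => ∏ k, l (I k) with hL
  have hLpos : ∀ I, 0 < L I := fun I => Finset.prod_pos fun k _ => hl _
  have e1 : ∑ I, T' I * T' I = ∑ I, T I * T I := by
    rw [hT', tact_adjoint, tact_mul, hU1, tact_one]
  have e2 : ∑ I, T I * tact T (B * Bᵀ) I = ∑ I, T I * T I := by
    rw [← tact_mul, ← tact_adjoint]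
    rcases hT with h | h
    · rw [h]
    · rw [h]
      refine Finset.sum_congr rfl fun I _ => ?_
      rw [Pi.neg_apply, neg_mul_neg]
  have e3 : tact T (B * Bᵀ) = tact (tact T' (diagonal l)) Uᵀ := by
    rw [hP, hT', tact_mul, tact_mul, Matrix.mul_assoc]
  have e4 : ∑ I, T' I * (L I * T' I) = ∑ I, T I * T I := by
    rw [← e2, e3, ← tact_adjoint]
    refine Finset.sum_congr rfl fun I _ => ?_
    rw [tact_diagonal]
  have e5 : tq T (lg (B * Bᵀ)) = ∑ I, Real.log (L I) * (T' I) ^ 2 := by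
    have h1 : lg (B * Bᵀ) = U * diagonal (fun i => Real.log (l i)) * Uᵀ :=
      cfc_conj_diagonal hU2 hP Real.log
    rw [h1, tq_conj_diagonal T hU1]
    refine Finset.sum_congr rfl fun I _ => ?_
    rw [hL]
    simp only []
    rw [Real.log_prod (fun k _ => (hl (I k)).ne')]
  have e6 : ∑ I, (L I - 1) * (T' I) ^ 2 = 0 := by
    have h1 : ∑ I, (L I - 1) * (T' I) ^ 2 = ∑ I, T' I * (L I * T' I) - ∑ I, T' I * T' I := by
      rw [← Finset.sum_sub_distrib]
      refine Finset.sum_congr rfl fun I _ => ?_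
      ring
    rw [h1, e4, e1, sub_self]
  have hle : ∀ I, Real.log (L I) * (T' I) ^ 2 ≤ (L I - 1) * (T' I) ^ 2 := fun I =>
    mul_le_mul_of_nonneg_right (Real.log_le_sub_one_of_pos (hLpos I)) (sq_nonneg _)
  refine ⟨?_, fun h0 => ?_⟩
  · rw [e5, ← e6]
    exact Finset.sum_le_sum fun I _ => hle I
  · rw [e5] at h0
    have h1 : ∀ I ∈ Finset.univ, Real.log (L I) * (T' I) ^ 2 = (L I - 1) * (T' I) ^ 2 :=
      (Finset.sum_eq_sum_iff_of_le fun I _ => hle I).1 (h0.trans e6.symm)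
    have h2 : tact T' (diagonal l) = T' := by
      funext I
      rw [tact_diagonal]
      by_cases hTI : T' I = 0
      · rw [hTI, mul_zero]
      · have h3 := h1 I (Finset.mem_univ I)
        have h4 : Real.log (L I) = L I - 1 :=
          mul_right_cancel₀ (pow_ne_zero 2 hTI) h3
        have h5 : L I = 1 := by
          by_contra hne
          have h6 := Real.log_lt_sub_one_of_pos (hLpos I) hne
          rw [h4] at h6
          exact lt_irrefl _ h6
        change L I * T' I = T' I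
        rw [h5, one_mul]
    rw [e3, h2, hT', tact_mul, hU1, tact_one]

theorem fixes_transpose_of_balanced {d n : ℕ} {S : Type} [Fintype S] (T : Ten d n)
    (B : S → Matrix (Fin n) (Fin n) ℝ) (hB : ∀ s, (B s).det ≠ 0) (hT : ∀ s, Fixes T (B s))
    (hW : ∑ s, (lg (B s * (B s)ᵀ) - lg ((B s)ᵀ * B s)) = 0) (s : S) : Fixes T (B s)ᵀ := by
  have hf : ∀ s, tq T (lg (B s * (B s)ᵀ)) ≤ 0 := fun s => (selfAdj_key T (hB s) (hT s)).1
  have hg : ∀ s, 0 ≤ tq T (lg ((B s)ᵀ * B s)) := by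
    intro s
    have hdi : (B s)⁻¹.det ≠ 0 := by
      rw [Matrix.det_nonsing_inv, Ring.inverse_eq_inv']
      exact inv_ne_zero (hB s)
    have h1 := (selfAdj_key T hdi ((hT s).inv (hB s))).1
    have h2 : (B s)⁻¹ * ((B s)⁻¹)ᵀ = ((B s)ᵀ * B s)⁻¹ := by
      rw [Matrix.mul_inv_rev, Matrix.transpose_nonsing_inv]
    have hpd : ((B s)ᵀ * B s).PosDef := by
      have hu : IsUnit (B s) :=
        (Matrix.isUnit_iff_isUnit_det (B s)).2 (isUnit_iff_ne_zero.2 (hB s))
      have h3 := Matrix.PosDef.conjTranspose_mul_self (B s)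
        (Matrix.mulVec_injective_iff_isUnit.2 hu)
      rwa [conjTranspose_eq_transpose_of_trivial] at h3
    rw [h2, lg_inv hpd, selfAdj_neg] at h1
    linarith
  have hz : tq T (∑ s, (lg (B s * (B s)ᵀ) - lg ((B s)ᵀ * B s))) = 0 := by
    rw [hW]
    exact selfAdj_zero T
  rw [selfAdj_sum] at hz
  have hs : ∀ s, tq T (lg (B s * (B s)ᵀ) - lg ((B s)ᵀ * B s)) =
      tq T (lg (B s * (B s)ᵀ)) - tq T (lg ((B s)ᵀ * B s)) := by
    intro s
    rw [sub_eq_add_neg, tq_add, selfAdj_neg]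
    ring
  have hle : ∀ s, tq T (lg (B s * (B s)ᵀ) - lg ((B s)ᵀ * B s)) ≤ 0 := by
    intro s
    rw [hs]
    linarith [hf s, hg s]
  have h1 := (Finset.sum_eq_zero_iff_of_nonpos fun s _ => hle s).1 hz s (Finset.mem_univ s)
  rw [hs] at h1
  have h2 : tq T (lg (B s * (B s)ᵀ)) = 0 := by linarith [hf s, hg s]
  have h3 := (selfAdj_key T (hB s) (hT s)).2 h2
  rw [← tact_mul] at h3
  rcases hT s with h | h
  · rw [h] at h3
    exact Or.inl h3
  · rw [h, tact_neg] at h3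
    right
    rw [← h3, neg_neg, h3]

end Pool.Agent.ChP
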