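import Pool.Agent.ChP.Balanced
import Pool.Agent.ChP.SelfAdj

/-!
# A limit representation which is self-adjoint for a limit tensor

Apply `exists_balanced_limit` to the generators `s ∈ S` of `Γ`, `B s = ρ s`.  The set of `γ` for
which `g_m * ρ γ * g_m⁻¹` converges to an invertible matrix is a subgroup containing `S`, so it is
everything; the limits form a homomorphism `ρ'`.  Put `T_m = tact T (g_m⁻¹)`, normalised to norm
one; pass to a subsequence with `T_m → T'`, `T' ≠ 0` symmetric.  `tact T_m (g_m ρ γ g_m⁻¹) = ± T_m`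
with a sign which does not depend on `m`, so `Fixes T' (ρ' γ)` (`continuous_tact'`).  By
`fixes_transpose_of_balanced` the transposes of the generators fix `T'`, hence
(`Fixes.mul`, `Fixes.inv`) all `(ρ' γ)ᵀ` do.
-/

namespace Pool.Agent.ChP

open Matrix Filter Topology

private theorem limitRep_det {n : ℕ} {Γ : Type} [Group Γ] (ρ : Γ →* Matrix (Fin n) (Fin n) ℝ)
    (γ : Γ) : (ρ γ).det ≠ 0 := by
  intro h
  have h1 : ρ γ * ρ γ⁻¹ = 1 := by
    rw [← map_mul, mul_inv_cancel, map_one]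
  have h2 := congrArg Matrix.det h1
  rw [Matrix.det_mul, h, zero_mul, Matrix.det_one] at h2
  exact zero_ne_one h2

private theorem limitRep_inv {n : ℕ} {Γ : Type} [Group Γ] (ρ : Γ →* Matrix (Fin n) (Fin n) ℝ)
    (γ : Γ) : ρ γ⁻¹ = (ρ γ)⁻¹ := by
  symm
  apply Matrix.inv_eq_right_inv
  rw [← map_mul, mul_inv_cancel, map_one]

private theorem limitRep_tendsto_inv {n : ℕ} {A : ℕ → Matrix (Fin n) (Fin n) ℝ}
    {L : Matrix (Fin n) (Fin n) ℝ} (h : Tendsto A atTop (𝓝 L)) (hL : L.det ≠ 0) :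
    Tendsto (fun m => (A m)⁻¹) atTop (𝓝 L⁻¹) := by
  have h1 : Tendsto (fun m => (A m).det) atTop (𝓝 L.det) :=
    ((continuous_id.matrix_det).tendsto L).comp h
  have h2 : Tendsto (fun m => (A m).adjugate) atTop (𝓝 L.adjugate) :=
    ((continuous_id.matrix_adjugate).tendsto L).comp h
  have h3 := (h1.inv₀ hL).smul h2
  simp only [Matrix.inv_def, Ring.inverse_eq_inv']
  exact h3

private theorem limitRep_lim {n : ℕ} {Γ : Type} [Group Γ] (S : Finset Γ)
    (hS : Subgroup.closure (S : Set Γ) = ⊤) (ρ : Γ →* Matrix (Fin n) (Fin n) ℝ)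
    (g : ℕ → Matrix (Fin n) (Fin n) ℝ) (hg : ∀ m, (g m).det ≠ 0)
    (hl : ∀ s ∈ S, ∃ L, Tendsto (fun m => g m * ρ s * (g m)⁻¹) atTop (𝓝 L)) :
    ∃ ρ' : Γ →* Matrix (Fin n) (Fin n) ℝ,
      ∀ γ, Tendsto (fun m => g m * ρ γ * (g m)⁻¹) atTop (𝓝 (ρ' γ)) := by
  have hgi : ∀ m, (g m)⁻¹ * g m = 1 := fun m =>
    Matrix.nonsing_inv_mul _ (isUnit_iff_ne_zero.2 (hg m))
  have hgi' : ∀ m, g m * (g m)⁻¹ = 1 := fun m =>
    Matrix.mul_nonsing_inv _ (isUnit_iff_ne_zero.2 (hg m))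
  have hmul : ∀ (γ δ : Γ) (m : ℕ), (g m * ρ γ * (g m)⁻¹) * (g m * ρ δ * (g m)⁻¹) =
      g m * ρ (γ * δ) * (g m)⁻¹ := by
    intro γ δ m
    calc (g m * ρ γ * (g m)⁻¹) * (g m * ρ δ * (g m)⁻¹)
        = g m * ρ γ * ((g m)⁻¹ * g m) * ρ δ * (g m)⁻¹ := by simp only [mul_assoc]
      _ = g m * ρ (γ * δ) * (g m)⁻¹ := by
        rw [hgi, mul_one, map_mul, mul_assoc (g m)]
  have hone : ∀ m : ℕ, g m * ρ 1 * (g m)⁻¹ = 1 := by
    intro m
    rw [map_one, mul_one, hgi']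
  have hdet : ∀ (γ : Γ) (m : ℕ), (g m * ρ γ * (g m)⁻¹).det = (ρ γ).det := by
    intro γ m
    rw [Matrix.det_mul, Matrix.det_mul, mul_comm (g m).det, mul_assoc, ← Matrix.det_mul, hgi',
      Matrix.det_one, mul_one]
  let H : Subgroup Γ :=
    { carrier := {γ | ∃ L, Tendsto (fun m => g m * ρ γ * (g m)⁻¹) atTop (𝓝 L)}
      mul_mem' := by
        rintro γ δ ⟨L, h1⟩ ⟨M, h2⟩
        refine ⟨L * M, ?_⟩
        have h3 := h1.mul h2
        simp only [hmul] at h3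
        exact h3
      one_mem' := by
        refine ⟨1, ?_⟩
        simp only [hone]
        exact tendsto_const_nhds
      inv_mem' := by
        rintro γ ⟨L, h1⟩
        have h2 : L.det = (ρ γ).det := by
          have h3 : Tendsto (fun m => (g m * ρ γ * (g m)⁻¹).det) atTop (𝓝 L.det) :=
            ((continuous_id.matrix_det).tendsto L).comp h1
          simp only [hdet] at h3
          exact tendsto_nhds_unique h3 tendsto_const_nhds
        refine ⟨L⁻¹, ?_⟩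
        have h3 := limitRep_tendsto_inv h1 (by rw [h2]; exact limitRep_det ρ γ)
        have h4 : ∀ m, (g m * ρ γ * (g m)⁻¹)⁻¹ = g m * ρ γ⁻¹ * (g m)⁻¹ := by
          intro m
          apply Matrix.inv_eq_right_inv
          rw [hmul, mul_inv_cancel, hone]
        simp only [h4] at h3
        exact h3 }
  have hH : ∀ γ, γ ∈ H := by
    have h1 : Subgroup.closure (S : Set Γ) ≤ H := by
      rw [Subgroup.closure_le]
      exact fun s hs => hl s hs
    rw [hS] at h1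
    exact fun γ => h1 (Subgroup.mem_top γ)
  choose L hL using hH
  refine ⟨⟨⟨L, ?_⟩, ?_⟩, hL⟩
  · refine tendsto_nhds_unique (hL 1) ?_
    simp only [hone]
    exact tendsto_const_nhds
  · intro γ δ
    refine tendsto_nhds_unique (hL (γ * δ)) ?_
    have h3 := (hL γ).mul (hL δ)
    simp only [hmul] at h3
    exact h3

private theorem limitRep_fixes {d n : ℕ} {Γ : Type} [Group Γ] (S : Finset Γ)
    (hS : Subgroup.closure (S : Set Γ) = ⊤) (ρ : Γ →* Matrix (Fin n) (Fin n) ℝ) (T : Ten d n)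
    (h : ∀ s ∈ S, Fixes T (ρ s)ᵀ) (γ : Γ) : Fixes T (ρ γ)ᵀ := by
  have hone : Fixes T (1 : Matrix (Fin n) (Fin n) ℝ) := Or.inl (tact_one T)
  let H : Subgroup Γ :=
    { carrier := {γ | Fixes T (ρ γ)ᵀ}
      mul_mem' := by
        intro γ δ h1 h2
        change Fixes T (ρ (γ * δ))ᵀ
        rw [map_mul, Matrix.transpose_mul]
        exact Fixes.mul h2 h1
      one_mem' := by
        change Fixes T (ρ 1)ᵀ
        rw [map_one, Matrix.transpose_one]
        exact hone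
      inv_mem' := by
        intro γ h1
        change Fixes T (ρ γ⁻¹)ᵀ
        rw [limitRep_inv, Matrix.transpose_nonsing_inv]
        refine Fixes.inv h1 ?_
        rw [Matrix.det_transpose]
        exact limitRep_det ρ γ }
  have h1 : Subgroup.closure (S : Set Γ) ≤ H := by
    rw [Subgroup.closure_le]
    exact fun s hs => h s hs
  rw [hS] at h1
  exact h1 (Subgroup.mem_top γ)

theorem exists_limit_rep {d n : ℕ} {Γ : Type} [Group Γ] (S : Finset Γ)
    (hS : Subgroup.closure (S : Set Γ) = ⊤) (ρ : Γ →* Matrix (Fin n) (Fin n) ℝ) (T : Ten d n)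
    (hT : TSym T) (h0 : T ≠ 0) (hρ : ∀ γ, Fixes T (ρ γ)) :
    ∃ (g : ℕ → Matrix (Fin n) (Fin n) ℝ) (ρ' : Γ →* Matrix (Fin n) (Fin n) ℝ) (T' : Ten d n),
      (∀ m, 0 < (g m).det) ∧
      (∀ γ, Tendsto (fun m => g m * ρ γ * (g m)⁻¹) atTop (𝓝 (ρ' γ))) ∧
      TSym T' ∧ T' ≠ 0 ∧ (∀ γ, Fixes T' (ρ' γ)) ∧ (∀ γ, Fixes T' (ρ' γ)ᵀ) := by
  obtain ⟨g, B', hg, hdB, hlim, hW⟩ := exists_balanced_limit (S := {s // s ∈ S})
    (fun s => ρ s.1) (fun s => limitRep_det ρ s.1)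
  obtain ⟨ρ', hρ'⟩ := limitRep_lim S hS ρ g (fun m => (hg m).ne')
    (fun s hs => ⟨B' ⟨s, hs⟩, hlim ⟨s, hs⟩⟩)
  have hB' : ∀ s : {s // s ∈ S}, B' s = ρ' s.1 := fun s =>
    tendsto_nhds_unique (hlim s) (hρ' s.1)
  have hgi : ∀ m, (g m)⁻¹ * g m = 1 := fun m =>
    Matrix.nonsing_inv_mul _ (isUnit_iff_ne_zero.2 (hg m).ne')
  have hTm : ∀ m, tact T (g m)⁻¹ ≠ 0 := by
    intro m h
    apply h0
    have h1 : tact (tact T (g m)⁻¹) (g m) = T := by
      rw [tact_mul, hgi, tact_one]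
    have h2 : tact (0 : Ten d n) (g m) = 0 := by
      have h3 := tact_smul 0 (0 : Ten d n) (g m)
      rwa [zero_smul, zero_smul] at h3
    rw [← h1, h, h2]
  let U : ℕ → Ten d n := fun m => (‖tact T (g m)⁻¹‖)⁻¹ • tact T (g m)⁻¹
  have hU : ∀ m, U m ∈ Metric.sphere (0 : Ten d n) 1 := by
    intro m
    rw [mem_sphere_zero_iff_norm]
    change ‖(‖tact T (g m)⁻¹‖)⁻¹ • tact T (g m)⁻¹‖ = 1
    rw [norm_smul, norm_inv, norm_norm, inv_mul_cancel₀ (norm_ne_zero_iff.2 (hTm m))]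
  obtain ⟨T', hT'1, φ, hφ, hT'2⟩ := (isCompact_sphere (0 : Ten d n) 1).tendsto_subseq hU
  have hT'0 : T' ≠ 0 := by
    rintro rfl
    rw [mem_sphere_zero_iff_norm, norm_zero] at hT'1
    exact zero_ne_one hT'1
  have hsym : TSym T' := by
    intro e I
    have h1 : Tendsto (fun m => (U ∘ φ) m (fun k => I (e k))) atTop (𝓝 (T' fun k => I (e k))) :=
      (tendsto_pi_nhds.1 hT'2) _
    have h2 : Tendsto (fun m => (U ∘ φ) m I) atTop (𝓝 (T' I)) := (tendsto_pi_nhds.1 hT'2) _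
    refine tendsto_nhds_unique h1 ?_
    have h3 : ∀ m, (U ∘ φ) m (fun k => I (e k)) = (U ∘ φ) m I := by
      intro m
      change (‖tact T (g (φ m))⁻¹‖)⁻¹ * tact T (g (φ m))⁻¹ (fun k => I (e k)) =
        (‖tact T (g (φ m))⁻¹‖)⁻¹ * tact T (g (φ m))⁻¹ I
      rw [hT.tact (g (φ m))⁻¹ e I]
    simp only [h3]
    exact h2
  have hfix : ∀ γ, Fixes T' (ρ' γ) := by
    intro γ
    have hlimact : Tendsto (fun m => tact ((U ∘ φ) m) (g (φ m) * ρ γ * (g (φ m))⁻¹)) atTop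
        (𝓝 (tact T' (ρ' γ))) :=
      ((continuous_tact' d n).tendsto (T', ρ' γ)).comp
        (hT'2.prodMk_nhds ((hρ' γ).comp hφ.tendsto_atTop))
    have hcomp : ∀ m, tact ((U ∘ φ) m) (g (φ m) * ρ γ * (g (φ m))⁻¹) =
        (‖tact T (g (φ m))⁻¹‖)⁻¹ • tact (tact T (ρ γ)) (g (φ m))⁻¹ := by
      intro m
      change tact ((‖tact T (g (φ m))⁻¹‖)⁻¹ • tact T (g (φ m))⁻¹) _ = _
      rw [tact_smul, tact_mul, tact_mul]
      congr 2
      rw [← mul_assoc, ← mul_assoc, hgi, one_mul]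
    simp only [hcomp] at hlimact
    rcases hρ γ with h1 | h1
    · left
      simp only [h1] at hlimact
      exact tendsto_nhds_unique hlimact hT'2
    · right
      simp only [h1, tact_neg, smul_neg] at hlimact
      exact tendsto_nhds_unique hlimact hT'2.neg
  refine ⟨g ∘ φ, ρ', T', fun m => hg _, fun γ => (hρ' γ).comp hφ.tendsto_atTop, hsym, hT'0, hfix,
    ?_⟩
  refine limitRep_fixes S hS ρ' T' ?_
  intro s hs
  have h1 := fixes_transpose_of_balanced T' B' hdB (fun s => by rw [hB' s]; exact hfix s.1) hW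
    ⟨s, hs⟩
  rwa [hB' ⟨s, hs⟩] at h1

end Pool.Agent.ChP
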