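import Pool.Agent.ChP.GaussBase
import Pool.Agent.ChP.Spec

/-!
# First order Taylor expansion of Gaussian densities in `L¹`

By orthogonal invariance (`P = U diag(l) Uᵀ`, `lg P = U diag(log l) Uᵀ`, substitute `x = U y`)
it is enough to treat diagonal `P = diag (exp z_i)`, `|z_i| ≤ δ ≤ 1`.  Then
`gdens P x = ∏ φ_{z_i}(x_i)`, `φ_z(x) = e^{-z/2} φ(e^{-z/2} x)`,
`DY (lg P) x = ∑ i, (z_i/2) (x_i² - 1) ∏ φ(x_j)`.  In one dimension
`‖φ_z - φ - (z/2)(x²-1) φ‖_1 ≤ C z²` and `‖φ_z - φ‖_1 ≤ C |z|` for `|z| ≤ 1`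
(Taylor with integral remainder: `∂_z φ_z = (1/2)(e^{-z}x² - 1) φ_z`,
`∂_z² φ_z = ((1/4)(e^{-z}x² - 1)² - (1/2) e^{-z} x²) φ_z`), and products of
densities are handled by telescoping.  Alternatively argue directly in dimension `n` along
`τ ↦ gdens (exp (τ lg P))`, whose second derivative has `L¹` norm at most `C δ²`.
-/

namespace Pool.Agent.ChP

open MeasureTheory Matrix

private theorem Taylor_dot {n : ℕ} {U : Matrix (Fin n) (Fin n) ℝ} (hU : Uᵀ * U = 1)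
    (x y : Fin n → ℝ) : (U *ᵥ x) ⬝ᵥ (U *ᵥ y) = x ⬝ᵥ y := by
  rw [dotProduct_mulVec, ← mulVec_transpose, mulVec_mulVec, hU, one_mulVec]

private theorem Taylor_quad {n : ℕ} {U : Matrix (Fin n) (Fin n) ℝ} (hU : Uᵀ * U = 1)
    (d x : Fin n → ℝ) :
    (U *ᵥ x) ⬝ᵥ ((U * diagonal d * Uᵀ) *ᵥ (U *ᵥ x)) = ∑ i, d i * x i ^ 2 := by
  have h1 : (U * diagonal d * Uᵀ) *ᵥ (U *ᵥ x) = U *ᵥ (diagonal d *ᵥ x) := by
    rw [mulVec_mulVec, Matrix.mul_assoc, hU, Matrix.mul_one, ← mulVec_mulVec]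
  rw [h1, Taylor_dot hU]
  simp only [dotProduct, mulVec_diagonal]
  exact Finset.sum_congr rfl fun i _ => by ring

private theorem Taylor_det {n : ℕ} {U : Matrix (Fin n) (Fin n) ℝ} (hU : Uᵀ * U = 1) :
    U.det * U.det = 1 := by
  have h3 : Uᵀ.det * U.det = 1 := by rw [← det_mul, hU, det_one]
  rwa [det_transpose] at h3

private theorem Taylor_pushT {n : ℕ} {U : Matrix (Fin n) (Fin n) ℝ} (hU : Uᵀ * U = 1)
    (p : (Fin n → ℝ) → ℝ) : push Uᵀ p = fun x => p (U *ᵥ x) := by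
  funext x
  unfold push
  have h1 : (Uᵀ)⁻¹ = U := Matrix.inv_eq_right_inv hU
  have h2 : |Uᵀ.det| = 1 := by
    rw [det_transpose]
    have h4 : |U.det| * |U.det| = 1 := by rw [← abs_mul, Taylor_det hU, abs_one]
    nlinarith [abs_nonneg U.det]
  rw [h1, h2, inv_one, one_mul]

private theorem Taylor_int {n : ℕ} {U : Matrix (Fin n) (Fin n) ℝ} (hU : Uᵀ * U = 1)
    (p : (Fin n → ℝ) → ℝ) : ∫ x, |p x| = ∫ x, |p (U *ᵥ x)| := by
  have hd : Uᵀ.det ≠ 0 := by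
    rw [det_transpose]
    intro h
    have := Taylor_det hU
    rw [h] at this
    norm_num at this
  have h := integral_abs_push hd p
  rw [Taylor_pushT hU] at h
  exact h.symm

private theorem Taylor_gd {n : ℕ} {U P : Matrix (Fin n) (Fin n) ℝ} (hU : Uᵀ * U = 1)
    (hU' : U * Uᵀ = 1) {l : Fin n → ℝ} (hl : ∀ i, 0 < l i) (hP : P = U * diagonal l * Uᵀ)
    (x : Fin n → ℝ) : gdens P (U *ᵥ x) = (Real.sqrt ((2 * Real.pi) ^ n))⁻¹ *
      Real.exp (-(∑ i, Real.log (l i)) / 2 - (∑ i, (l i)⁻¹ * x i ^ 2) / 2) := by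
  have h1 : P⁻¹ = U * diagonal (fun i => (l i)⁻¹) * Uᵀ := by
    refine Matrix.inv_eq_right_inv ?_
    have h2 : diagonal l * diagonal (fun i => (l i)⁻¹) = 1 := by
      rw [diagonal_mul_diagonal, ← diagonal_one]
      congr 1
      funext i
      exact mul_inv_cancel₀ (hl i).ne'
    calc P * (U * diagonal (fun i => (l i)⁻¹) * Uᵀ)
        = U * (diagonal l * ((Uᵀ * U) * diagonal (fun i => (l i)⁻¹))) * Uᵀ := by
          rw [hP]
          simp only [Matrix.mul_assoc]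
      _ = 1 := by rw [hU, Matrix.one_mul, h2, Matrix.mul_one, hU']
  have h3 : P.det = Real.exp (∑ i, Real.log (l i)) := by
    rw [hP, det_mul, det_mul, det_transpose, det_diagonal, Real.exp_sum]
    have h4 : ∏ i, Real.exp (Real.log (l i)) = ∏ i, l i :=
      Finset.prod_congr rfl fun i _ => Real.exp_log (hl i)
    rw [h4]
    have h5 := Taylor_det hU
    linear_combination (∏ i, l i) * h5
  unfold gdens
  rw [h1, Taylor_quad hU, h3, Real.sqrt_mul (by positivity), ← Real.exp_half, mul_inv,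
    ← Real.exp_neg, mul_assoc, ← Real.exp_add]
  congr 2
  ring

private theorem Taylor_exp (u : ℝ) : |Real.exp u - 1 - u| ≤ u ^ 2 * (1 + Real.exp u) := by
  have h1 := Real.add_one_le_exp u
  have h2 := Real.add_one_le_exp (-u)
  have h3 : 0 < Real.exp u := Real.exp_pos u
  have h4 : Real.exp u * Real.exp (-u) = 1 := by rw [← Real.exp_add, add_neg_cancel, Real.exp_zero]
  have h5 : Real.exp u - 1 ≤ u * Real.exp u := by nlinarith
  rw [abs_of_nonneg (by linarith)]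
  rcases le_or_gt 0 u with hu | hu
  · nlinarith [mul_le_mul_of_nonneg_left h5 hu, sq_nonneg u]
  · have h6 : u * (Real.exp u - 1) ≤ u * u := by nlinarith
    nlinarith [mul_nonneg (sq_nonneg u) h3.le]

private theorem Taylor_abs (h0 u v : ℝ) :
    |Real.exp (h0 + u) - Real.exp h0 - v * Real.exp h0| ≤
      u ^ 2 * (Real.exp h0 + Real.exp (h0 + u)) + |u - v| * Real.exp h0 := by
  have h1 : Real.exp (h0 + u) - Real.exp h0 - v * Real.exp h0 =
      Real.exp h0 * (Real.exp u - 1 - u) + (u - v) * Real.exp h0 := by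
    rw [Real.exp_add]
    ring
  rw [h1]
  refine (abs_add_le _ _).trans ?_
  rw [abs_mul, abs_mul, abs_of_pos (Real.exp_pos h0)]
  refine add_le_add ?_ le_rfl
  have h2 := mul_le_mul_of_nonneg_left (Taylor_exp u) (Real.exp_pos h0).le
  rw [Real.exp_add]
  linarith

private theorem Taylor_pt {n : ℕ} {δ : ℝ} (hδ : 0 ≤ δ) (hδ1 : δ ≤ 1) (z x : Fin n → ℝ)
    (hz : ∀ i, |z i| ≤ δ) :
    |Real.exp (-(∑ i, z i) / 2 - (∑ i, Real.exp (-z i) * x i ^ 2) / 2) -
        Real.exp (-(∑ i, x i ^ 2) / 2) -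
        (∑ i, z i * x i ^ 2 - ∑ i, z i) / 2 * Real.exp (-(∑ i, x i ^ 2) / 2)| ≤
      δ ^ 2 * (((∑ i, x i ^ 2) + n) ^ 2 * (1 + Real.exp ((n : ℝ) / 2)) + ∑ i, x i ^ 2) *
        Real.exp (-(Real.exp (-1) * ∑ i, x i ^ 2) / 2) := by
  have hS : 0 ≤ ∑ i, x i ^ 2 := Finset.sum_nonneg fun i _ => sq_nonneg _
  have hq0 : 0 < Real.exp (-1) := Real.exp_pos _
  have hq1 : Real.exp (-1) ≤ 1 := by
    rw [Real.exp_le_one_iff]
    norm_num
  have hn : (0 : ℝ) ≤ n := Nat.cast_nonneg n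
  -- the sum of the `z i`
  have hZ : |∑ i, z i| ≤ n * δ := by
    refine (Finset.abs_sum_le_sum_abs _ _).trans ?_
    refine (Finset.sum_le_sum fun i _ => hz i).trans ?_
    rw [Finset.sum_const, Finset.card_univ, Fintype.card_fin, nsmul_eq_mul]
  have hZx : |∑ i, z i * x i ^ 2| ≤ δ * ∑ i, x i ^ 2 := by
    refine (Finset.abs_sum_le_sum_abs _ _).trans ?_
    rw [Finset.mul_sum]
    refine Finset.sum_le_sum fun i _ => ?_
    rw [abs_mul, abs_of_nonneg (sq_nonneg (x i))]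
    exact mul_le_mul_of_nonneg_right (hz i) (sq_nonneg _)
  have hR : |∑ i, Real.exp (-z i) * x i ^ 2 - ∑ i, x i ^ 2 + ∑ i, z i * x i ^ 2| ≤
      δ ^ 2 * ∑ i, x i ^ 2 := by
    rw [← Finset.sum_sub_distrib, ← Finset.sum_add_distrib]
    refine (Finset.abs_sum_le_sum_abs _ _).trans ?_
    rw [Finset.mul_sum]
    refine Finset.sum_le_sum fun i _ => ?_
    have h1 : Real.exp (-z i) * x i ^ 2 - x i ^ 2 + z i * x i ^ 2 =
        (Real.exp (-z i) - 1 - -z i) * x i ^ 2 := by ring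
    rw [h1, abs_mul, abs_of_nonneg (sq_nonneg (x i))]
    refine mul_le_mul_of_nonneg_right ?_ (sq_nonneg _)
    have h2 := Real.abs_exp_sub_one_sub_id_le (x := -z i) (by
      rw [abs_neg]
      exact (hz i).trans hδ1)
    refine h2.trans ?_
    rw [← sq_abs (-z i), abs_neg]
    exact pow_le_pow_left₀ (abs_nonneg _) (hz i) 2
  have hA : Real.exp (-1) * ∑ i, x i ^ 2 ≤ ∑ i, Real.exp (-z i) * x i ^ 2 := by
    rw [Finset.mul_sum]
    refine Finset.sum_le_sum fun i _ => ?_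
    refine mul_le_mul_of_nonneg_right (Real.exp_le_exp.2 ?_) (sq_nonneg _)
    have := (le_abs_self (z i)).trans ((hz i).trans hδ1)
    linarith
  generalize ∑ i, x i ^ 2 = s at *
  generalize ∑ i, z i * x i ^ 2 = t at *
  generalize ∑ i, Real.exp (-z i) * x i ^ 2 = A at *
  generalize ∑ i, z i = Z at *
  have hu : -Z / 2 - A / 2 = -s / 2 + (s / 2 - Z / 2 - A / 2) := by ring
  have key := Taylor_abs (-s / 2) (s / 2 - Z / 2 - A / 2) ((t - Z) / 2)
  rw [← hu] at key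
  refine key.trans ?_
  have huv : |(s / 2 - Z / 2 - A / 2) - (t - Z) / 2| ≤ δ ^ 2 * s / 2 := by
    have h1 : (s / 2 - Z / 2 - A / 2) - (t - Z) / 2 = -(A - s + t) / 2 := by ring
    rw [h1, abs_div, abs_neg, abs_of_pos (by norm_num : (0 : ℝ) < 2)]
    linarith
  have hδ2 : δ ^ 2 ≤ δ := by nlinarith
  have hv : |(t - Z) / 2| ≤ δ * (s + n) / 2 := by
    rw [abs_div, abs_of_pos (by norm_num : (0 : ℝ) < 2)]
    have := abs_sub t Z
    linarith
  have hu1 : |s / 2 - Z / 2 - A / 2| ≤ δ * (s + n) := by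
    have h1 : s / 2 - Z / 2 - A / 2 = ((s / 2 - Z / 2 - A / 2) - (t - Z) / 2) + (t - Z) / 2 := by ring
    rw [h1]
    have h2 := abs_add_le ((s / 2 - Z / 2 - A / 2) - (t - Z) / 2) ((t - Z) / 2)
    have h3 : δ ^ 2 * s ≤ δ * s := mul_le_mul_of_nonneg_right hδ2 hS
    have h4 : 0 ≤ δ * n := by positivity
    linarith
  have hu2 : (s / 2 - Z / 2 - A / 2) ^ 2 ≤ δ ^ 2 * (s + n) ^ 2 := by
    rw [← sq_abs, ← mul_pow]
    exact pow_le_pow_left₀ (abs_nonneg _) hu1 2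
  have hE0 : Real.exp (-s / 2) ≤ Real.exp (-(Real.exp (-1) * s) / 2) := by
    refine Real.exp_le_exp.2 ?_
    nlinarith
  have hE1 : Real.exp (-Z / 2 - A / 2) ≤
      Real.exp ((n : ℝ) / 2) * Real.exp (-(Real.exp (-1) * s) / 2) := by
    rw [← Real.exp_add]
    refine Real.exp_le_exp.2 ?_
    have h1 := neg_abs_le Z
    have h2 : n * δ ≤ n := by nlinarith
    linarith
  generalize hEd : Real.exp (-(Real.exp (-1) * s) / 2) = E at *
  have hEpos : 0 < E := by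
    rw [← hEd]
    exact Real.exp_pos _
  have h1 : Real.exp (-s / 2) + Real.exp (-Z / 2 - A / 2) ≤ (1 + Real.exp ((n : ℝ) / 2)) * E := by
    linarith
  have h2 : (s / 2 - Z / 2 - A / 2) ^ 2 * (Real.exp (-s / 2) + Real.exp (-Z / 2 - A / 2)) ≤
      (δ ^ 2 * (s + n) ^ 2) * ((1 + Real.exp ((n : ℝ) / 2)) * E) :=
    mul_le_mul hu2 h1 (by positivity) (by positivity)
  have h3 : |(s / 2 - Z / 2 - A / 2) - (t - Z) / 2| * Real.exp (-s / 2) ≤ (δ ^ 2 * s) * E := by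
    refine mul_le_mul (huv.trans ?_) hE0 (Real.exp_pos _).le (by positivity)
    have : 0 ≤ δ ^ 2 * s := by positivity
    linarith
  have h4 : δ ^ 2 * ((s + n) ^ 2 * (1 + Real.exp ((n : ℝ) / 2)) + s) * E =
      (δ ^ 2 * (s + n) ^ 2) * ((1 + Real.exp ((n : ℝ) / 2)) * E) + (δ ^ 2 * s) * E := by ring
  rw [h4]
  exact add_le_add h2 h3

private theorem Taylor_S {n : ℕ} (x : Fin n → ℝ) : ∑ i, x i ^ 2 ≤ (1 + ∑ i, |x i|) ^ 2 := by
  have h0 : 0 ≤ ∑ i, |x i| := Finset.sum_nonneg fun i _ => abs_nonneg _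
  have h1 : ∑ i, x i ^ 2 ≤ ∑ i, |x i| * ∑ j, |x j| := by
    refine Finset.sum_le_sum fun i _ => ?_
    rw [← sq_abs, sq]
    exact mul_le_mul_of_nonneg_left
      (Finset.single_le_sum (f := fun j => |x j|) (fun j _ => abs_nonneg _) (Finset.mem_univ i))
      (abs_nonneg _)
  rw [← Finset.sum_mul] at h1
  nlinarith

private theorem Taylor_K {n : ℕ} : Integrable fun x : Fin n → ℝ =>
    (Real.sqrt ((2 * Real.pi) ^ n))⁻¹ *
      ((((∑ i, x i ^ 2) + n) ^ 2 * (1 + Real.exp ((n : ℝ) / 2)) + ∑ i, x i ^ 2) *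
        Real.exp (-(Real.exp (-1) * ∑ i, x i ^ 2) / 2)) := by
  have hPD : (diagonal (fun _ : Fin n => Real.exp 1)).PosDef :=
    Matrix.PosDef.diagonal fun i => Real.exp_pos 1
  have hn : (0 : ℝ) ≤ n := Nat.cast_nonneg n
  have hcont : Continuous fun x : Fin n → ℝ =>
      ((((∑ i, x i ^ 2) + n) ^ 2 * (1 + Real.exp ((n : ℝ) / 2)) + ∑ i, x i ^ 2) *
        Real.exp ((n : ℝ) / 2)) := by fun_prop
  have h1 := integrable_poly_gdens hPD (fun x : Fin n → ℝ =>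
      ((((∑ i, x i ^ 2) + n) ^ 2 * (1 + Real.exp ((n : ℝ) / 2)) + ∑ i, x i ^ 2) *
        Real.exp ((n : ℝ) / 2))) hcont
      (((1 + n) ^ 2 * (1 + Real.exp ((n : ℝ) / 2)) + 1) * Real.exp ((n : ℝ) / 2)) 4 ?_
  · refine h1.congr (Filter.Eventually.of_forall fun x => ?_)
    have h2 := Taylor_gd (n := n) (U := 1) (P := diagonal (fun _ : Fin n => Real.exp 1))
      (by simp) (by simp) (l := fun _ => Real.exp 1) (fun _ => Real.exp_pos 1) (by simp) x
    rw [one_mulVec] at h2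
    change _ * gdens (diagonal (fun _ : Fin n => Real.exp 1)) x = _
    rw [h2]
    simp only [Real.log_exp, Finset.sum_const, Finset.card_univ, Fintype.card_fin, nsmul_eq_mul,
      mul_one]
    rw [← Finset.mul_sum, ← Real.exp_neg, sub_eq_add_neg, Real.exp_add]
    have h3 : Real.exp ((n : ℝ) / 2) * Real.exp (-(n : ℝ) / 2) = 1 := by
      rw [← Real.exp_add]
      have : (n : ℝ) / 2 + -(n : ℝ) / 2 = 0 := by ring
      rw [this, Real.exp_zero]
    have h4 : -(Real.exp (-1) * ∑ i, x i ^ 2) / 2 = -((Real.exp (-1) * ∑ i, x i ^ 2) / 2) := by ring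
    rw [h4]
    linear_combination (((∑ i, x i ^ 2) + n) ^ 2 * (1 + Real.exp ((n : ℝ) / 2)) + ∑ i, x i ^ 2) *
      (Real.sqrt ((2 * Real.pi) ^ n))⁻¹ * Real.exp (-((Real.exp (-1) * ∑ i, x i ^ 2) / 2)) * h3
  · intro x
    have hS : 0 ≤ ∑ i, x i ^ 2 := Finset.sum_nonneg fun i _ => sq_nonneg _
    have hS2 := Taylor_S x
    have ht : 1 ≤ 1 + ∑ i, |x i| := by
      have h0 : 0 ≤ ∑ i, |x i| := Finset.sum_nonneg fun i _ => abs_nonneg _
      linarith
    generalize ∑ i, x i ^ 2 = s at *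
    generalize 1 + ∑ i, |x i| = t at *
    have ht2 : 1 ≤ t ^ 2 := one_le_pow₀ ht
    have ht4 : t ^ 2 ≤ t ^ 4 := pow_le_pow_right₀ ht (by norm_num)
    rw [abs_of_nonneg (by positivity)]
    have e1 : s + n ≤ (1 + n) * t ^ 2 := by nlinarith
    have e2 : (s + n) ^ 2 ≤ (1 + n) ^ 2 * t ^ 4 := by
      have := pow_le_pow_left₀ (by positivity) e1 2
      calc (s + n) ^ 2 ≤ ((1 + n) * t ^ 2) ^ 2 := this
        _ = _ := by ring
    have e3 : s ≤ 1 * t ^ 4 := by linarith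
    have e4 : (s + n) ^ 2 * (1 + Real.exp ((n : ℝ) / 2)) ≤
        ((1 + n) ^ 2 * t ^ 4) * (1 + Real.exp ((n : ℝ) / 2)) :=
      mul_le_mul_of_nonneg_right e2 (by positivity)
    calc ((s + n) ^ 2 * (1 + Real.exp ((n : ℝ) / 2)) + s) * Real.exp ((n : ℝ) / 2)
        ≤ (((1 + n) ^ 2 * t ^ 4) * (1 + Real.exp ((n : ℝ) / 2)) + 1 * t ^ 4) *
          Real.exp ((n : ℝ) / 2) :=
          mul_le_mul_of_nonneg_right (add_le_add e4 e3) (Real.exp_pos _).le
      _ = _ := by ring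

private theorem Taylor_K' {n : ℕ} : Integrable fun x : Fin n → ℝ =>
    ((∑ i, x i ^ 2) + n) * gdens (1 : Matrix (Fin n) (Fin n) ℝ) x := by
  have hcont : Continuous fun x : Fin n → ℝ => (∑ i, x i ^ 2) + (n : ℝ) := by fun_prop
  refine integrable_poly_gdens Matrix.PosDef.one _ hcont (1 + n) 2 fun x => ?_
  have hn : (0 : ℝ) ≤ n := Nat.cast_nonneg n
  have hS : 0 ≤ ∑ i, x i ^ 2 := Finset.sum_nonneg fun i _ => sq_nonneg _
  have hS2 := Taylor_S x
  have ht : 1 ≤ 1 + ∑ i, |x i| := by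
    have h0 : 0 ≤ ∑ i, |x i| := Finset.sum_nonneg fun i _ => abs_nonneg _
    linarith
  generalize ∑ i, x i ^ 2 = s at *
  generalize 1 + ∑ i, |x i| = t at *
  have ht2 : 1 ≤ t ^ 2 := one_le_pow₀ ht
  rw [abs_of_nonneg (by positivity)]
  nlinarith

theorem exists_taylor (n : ℕ) : ∃ C : ℝ, 0 < C ∧
    ∀ (P : Matrix (Fin n) (Fin n) ℝ) (δ : ℝ), P.PosDef → 0 ≤ δ → δ ≤ 1 → Close δ 1 P →
      (∫ x, |gdens P x - gdens 1 x - DY (lg P) x| ≤ C * δ ^ 2) ∧
      (∫ x, |DY (lg P) x| ≤ C * δ) := by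
  have hK0 : ∀ x : Fin n → ℝ, 0 ≤ (Real.sqrt ((2 * Real.pi) ^ n))⁻¹ *
      ((((∑ i, x i ^ 2) + n) ^ 2 * (1 + Real.exp ((n : ℝ) / 2)) + ∑ i, x i ^ 2) *
        Real.exp (-(Real.exp (-1) * ∑ i, x i ^ 2) / 2)) := by
    intro x
    have hS : 0 ≤ ∑ i, x i ^ 2 := Finset.sum_nonneg fun i _ => sq_nonneg _
    positivity
  have hK0' : ∀ x : Fin n → ℝ, 0 ≤ ((∑ i, x i ^ 2) + n) * gdens (1 : Matrix (Fin n) (Fin n) ℝ) x := by
    intro x
    have hS : 0 ≤ ∑ i, x i ^ 2 := Finset.sum_nonneg fun i _ => sq_nonneg _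
    have := gdens_nonneg (1 : Matrix (Fin n) (Fin n) ℝ) x
    positivity
  have hI0 : 0 ≤ ∫ x : Fin n → ℝ, (Real.sqrt ((2 * Real.pi) ^ n))⁻¹ *
      ((((∑ i, x i ^ 2) + n) ^ 2 * (1 + Real.exp ((n : ℝ) / 2)) + ∑ i, x i ^ 2) *
        Real.exp (-(Real.exp (-1) * ∑ i, x i ^ 2) / 2)) := integral_nonneg fun x => hK0 x
  have hI0' : 0 ≤ ∫ x : Fin n → ℝ, ((∑ i, x i ^ 2) + n) *
      gdens (1 : Matrix (Fin n) (Fin n) ℝ) x := integral_nonneg fun x => hK0' x
  refine ⟨(∫ x : Fin n → ℝ, (Real.sqrt ((2 * Real.pi) ^ n))⁻¹ *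
      ((((∑ i, x i ^ 2) + n) ^ 2 * (1 + Real.exp ((n : ℝ) / 2)) + ∑ i, x i ^ 2) *
        Real.exp (-(Real.exp (-1) * ∑ i, x i ^ 2) / 2))) +
      (∫ x : Fin n → ℝ, ((∑ i, x i ^ 2) + n) * gdens (1 : Matrix (Fin n) (Fin n) ℝ) x) + 1,
      by positivity, fun P δ hP hδ hδ1 hcl => ?_⟩
  obtain ⟨U, l, hU', hU, hPU⟩ := exists_spec P hP.isHermitian.eq
  have hl := (posDef_iff_spec hU hPU).1 hP
  have hle := (close_one_iff_spec hU hPU).1 hcl
  have hz : ∀ i, |Real.log (l i)| ≤ δ := by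
    intro i
    rw [abs_le]
    constructor
    · rw [← Real.log_exp (-δ)]
      exact Real.log_le_log (Real.exp_pos _) (hle i).1
    · rw [← Real.log_exp δ]
      exact Real.log_le_log (hl i) (hle i).2
  have hlg : lg P = U * diagonal (fun i => Real.log (l i)) * Uᵀ := cfc_conj_diagonal hU hPU Real.log
  have h1U : ∀ x, gdens (1 : Matrix (Fin n) (Fin n) ℝ) (U *ᵥ x) =
      (Real.sqrt ((2 * Real.pi) ^ n))⁻¹ * Real.exp (-(∑ i, x i ^ 2) / 2) := by
    intro x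
    rw [gdens_one_eq']
    have h2 : ∑ i, (U *ᵥ x) i ^ 2 = ∑ i, x i ^ 2 := by
      have h3 := Taylor_dot hU x x
      simp only [dotProduct, ← sq] at h3
      exact h3
    rw [h2]
  have hDY : ∀ x, DY (lg P) (U *ᵥ x) = (∑ i, Real.log (l i) * x i ^ 2 - ∑ i, Real.log (l i)) / 2 *
      ((Real.sqrt ((2 * Real.pi) ^ n))⁻¹ * Real.exp (-(∑ i, x i ^ 2) / 2)) := by
    intro x
    unfold DY
    rw [h1U, hlg, Taylor_quad hU]
    have h2 : (U * diagonal (fun i => Real.log (l i)) * Uᵀ).trace = ∑ i, Real.log (l i) := by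
      rw [trace_mul_comm, ← Matrix.mul_assoc, hU, Matrix.one_mul, trace_diagonal]
    rw [h2]
  have hc0 : 0 ≤ (Real.sqrt ((2 * Real.pi) ^ n))⁻¹ := by positivity
  constructor
  · rw [Taylor_int hU]
    have hpt : ∀ x : Fin n → ℝ,
        |gdens P (U *ᵥ x) - gdens 1 (U *ᵥ x) - DY (lg P) (U *ᵥ x)| ≤ δ ^ 2 *
        ((Real.sqrt ((2 * Real.pi) ^ n))⁻¹ *
      ((((∑ i, x i ^ 2) + n) ^ 2 * (1 + Real.exp ((n : ℝ) / 2)) + ∑ i, x i ^ 2) *
        Real.exp (-(Real.exp (-1) * ∑ i, x i ^ 2) / 2))) := by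
      intro x
      rw [hDY, h1U, Taylor_gd hU hU' hl hPU]
      have h2 := Taylor_pt hδ hδ1 (fun i => Real.log (l i)) x hz
      have h3 : ∀ i, Real.exp (-Real.log (l i)) = (l i)⁻¹ := fun i => by
        rw [Real.exp_neg, Real.exp_log (hl i)]
      simp only [h3] at h2
      have h4 := mul_le_mul_of_nonneg_left h2 hc0
      rw [← abs_of_nonneg hc0, ← abs_mul, abs_of_nonneg hc0] at h4
      refine le_trans (le_of_eq ?_) (h4.trans_eq ?_)
      · congr 1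
        ring
      · ring
    refine (integral_mono_of_nonneg (Filter.Eventually.of_forall fun x => abs_nonneg _)
      (Taylor_K.const_mul (δ ^ 2)) (Filter.Eventually.of_forall hpt)).trans ?_
    rw [integral_const_mul]
    nlinarith [sq_nonneg δ, mul_nonneg hI0' (sq_nonneg δ)]
  · rw [Taylor_int hU]
    have hpt : ∀ x : Fin n → ℝ, |DY (lg P) (U *ᵥ x)| ≤ δ *
        (((∑ i, x i ^ 2) + n) * gdens (1 : Matrix (Fin n) (Fin n) ℝ) x) := by
      intro x
      rw [hDY, ← gdens_one_eq', abs_mul, abs_of_nonneg (gdens_nonneg _ _), ← mul_assoc]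
      refine mul_le_mul_of_nonneg_right ?_ (gdens_nonneg _ _)
      have hS : 0 ≤ ∑ i, x i ^ 2 := Finset.sum_nonneg fun i _ => sq_nonneg _
      have hZ : |∑ i, Real.log (l i)| ≤ n * δ := by
        refine (Finset.abs_sum_le_sum_abs _ _).trans ?_
        refine (Finset.sum_le_sum fun i _ => hz i).trans ?_
        rw [Finset.sum_const, Finset.card_univ, Fintype.card_fin, nsmul_eq_mul]
      have hZx : |∑ i, Real.log (l i) * x i ^ 2| ≤ δ * ∑ i, x i ^ 2 := by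
        refine (Finset.abs_sum_le_sum_abs _ _).trans ?_
        rw [Finset.mul_sum]
        refine Finset.sum_le_sum fun i _ => ?_
        rw [abs_mul, abs_of_nonneg (sq_nonneg (x i))]
        exact mul_le_mul_of_nonneg_right (hz i) (sq_nonneg _)
      rw [abs_div, abs_of_pos (by norm_num : (0 : ℝ) < 2)]
      have h2 := abs_sub (∑ i, Real.log (l i) * x i ^ 2) (∑ i, Real.log (l i))
      have h3 : 0 ≤ δ * ∑ i, x i ^ 2 := by positivity
      have h4 : 0 ≤ n * δ := by positivity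
      linarith
    refine (integral_mono_of_nonneg (Filter.Eventually.of_forall fun x => abs_nonneg _)
      (Taylor_K'.const_mul δ) (Filter.Eventually.of_forall hpt)).trans ?_
    rw [integral_const_mul]
    nlinarith [mul_nonneg hI0 hδ]

end Pool.Agent.ChP
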