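import Pool.Agent.ChP.PolyTen

/-!
# Polynomials on invariant subspaces: limit representations

If `W` is an invariant subspace of `ρ` and `f` is a homogeneous polynomial which is semi-invariant
on `W`, the conjugates of `ρ` by `ε P + (1 - P)`, `P` a projection onto `W`, converge for `ε → 0`
to `P ρ P + (1 - P) ρ (1 - P)`, for which `f ∘ P` is semi-invariant.
-/

namespace Pool.Agent.ChP

open Matrix Filter Topology

/-- `ε P + (1 - P)` -/
noncomputable def scaleP {n : ℕ} (P : Matrix (Fin n) (Fin n) ℝ) (e : ℝ) :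
    Matrix (Fin n) (Fin n) ℝ :=
  e • P + (1 - P)

theorem scaleP_mul {n : ℕ} {P : Matrix (Fin n) (Fin n) ℝ} (hP : P * P = P) (a b : ℝ) :
    scaleP P a * scaleP P b = scaleP P (a * b) := by
  unfold scaleP
  have h1 : (1 - P) * P = 0 := by rw [Matrix.sub_mul, hP, Matrix.one_mul, sub_self]
  have h2 : P * (1 - P) = 0 := by rw [Matrix.mul_sub, hP, Matrix.mul_one, sub_self]
  have h3 : (1 - P) * (1 - P) = 1 - P := by rw [Matrix.mul_sub, h1, Matrix.mul_one, sub_zero]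
  rw [Matrix.add_mul, Matrix.mul_add, Matrix.mul_add, Matrix.smul_mul, Matrix.smul_mul,
    Matrix.mul_smul, Matrix.mul_smul, hP, h1, h2, h3, smul_zero, smul_zero, smul_smul, add_zero,
    zero_add]

theorem scaleP_one {n : ℕ} (P : Matrix (Fin n) (Fin n) ℝ) : scaleP P 1 = 1 := by
  unfold scaleP
  rw [one_smul]
  abel

theorem scaleP_inv {n : ℕ} {P : Matrix (Fin n) (Fin n) ℝ} (hP : P * P = P) {e : ℝ} (he : e ≠ 0) :
    (scaleP P e)⁻¹ = scaleP P e⁻¹ := by
  apply Matrix.inv_eq_right_inv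
  rw [scaleP_mul hP, mul_inv_cancel₀ he, scaleP_one]

theorem scaleP_det {n : ℕ} {P : Matrix (Fin n) (Fin n) ℝ} (hP : P * P = P) {e : ℝ} (he : 0 < e) :
    0 < (scaleP P e).det := by
  have h1 : (scaleP P e).det = (scaleP P (Real.sqrt e)).det ^ 2 := by
    rw [sq, ← Matrix.det_mul, scaleP_mul hP, Real.mul_self_sqrt he.le]
  have h2 : (scaleP P e).det ≠ 0 := by
    intro h
    have h3 : (scaleP P e * scaleP P e⁻¹).det = 1 := by
      rw [scaleP_mul hP, mul_inv_cancel₀ he.ne', scaleP_one, Matrix.det_one]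
    rw [Matrix.det_mul, h, zero_mul] at h3
    exact zero_ne_one h3
  have h3 : 0 ≤ (scaleP P e).det := by
    rw [h1]
    positivity
  exact lt_of_le_of_ne h3 h2.symm

theorem scaleP_conj {n : ℕ} {P A : Matrix (Fin n) (Fin n) ℝ} (hP : P * P = P)
    (hA : P * (A * P) = A * P) {e : ℝ} (he : e ≠ 0) :
    scaleP P e * A * (scaleP P e)⁻¹ =
      P * A * P + (1 - P) * A * (1 - P) + e • (P * A * (1 - P)) := by
  rw [scaleP_inv hP he]
  unfold scaleP
  have h1 : (1 - P) * A * P = 0 := by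
    rw [Matrix.mul_assoc, Matrix.sub_mul, Matrix.one_mul, hA, sub_self]
  rw [Matrix.add_mul, Matrix.add_mul, Matrix.mul_add, Matrix.mul_add, Matrix.mul_smul,
    Matrix.mul_smul, h1, smul_zero, Matrix.smul_mul, Matrix.smul_mul, Matrix.smul_mul,
    smul_smul, inv_mul_cancel₀ he, one_smul, zero_add]
  abel

/-- the block diagonal part -/
noncomputable def blockRep {n : ℕ} {Γ : Type} [Group Γ] (ρ : Γ →* Matrix (Fin n) (Fin n) ℝ)
    (P : Matrix (Fin n) (Fin n) ℝ) (hP : P * P = P) (hA : ∀ γ, P * (ρ γ * P) = ρ γ * P) :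
    Γ →* Matrix (Fin n) (Fin n) ℝ where
  toFun γ := P * ρ γ * P + (1 - P) * ρ γ * (1 - P)
  map_one' := by
    have h1 : (1 - P) * P = 0 := by rw [Matrix.sub_mul, hP, Matrix.one_mul, sub_self]
    have h3 : (1 - P) * (1 - P) = 1 - P := by rw [Matrix.mul_sub, h1, Matrix.mul_one, sub_zero]
    rw [map_one, Matrix.mul_one, Matrix.mul_one, hP, h3]
    abel
  map_mul' a b := by
    have h1 : (1 - P) * P = 0 := by rw [Matrix.sub_mul, hP, Matrix.one_mul, sub_self]
    have h2 : P * (1 - P) = 0 := by rw [Matrix.mul_sub, hP, Matrix.mul_one, sub_self]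
    have h3 : (1 - P) * (1 - P) = 1 - P := by rw [Matrix.mul_sub, h1, Matrix.mul_one, sub_zero]
    have h4 : ∀ γ, (1 - P) * (ρ γ * P) = 0 := fun γ => by
      rw [Matrix.sub_mul, Matrix.one_mul, hA, sub_self]
    have e1 : P * (ρ a * ρ b) * P = (P * ρ a * P) * (P * ρ b * P) := by
      have : (P * ρ a * P) * (P * ρ b * P) = P * ρ a * ((P * P) * (ρ b * P)) := by
        simp only [Matrix.mul_assoc]
      rw [this, hP, hA]
      simp only [Matrix.mul_assoc]
    have e2 : (1 - P) * (ρ a * ρ b) * (1 - P) =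
        ((1 - P) * ρ a * (1 - P)) * ((1 - P) * ρ b * (1 - P)) := by
      have e3 : ((1 - P) * ρ a * (1 - P)) * ((1 - P) * ρ b * (1 - P)) =
          (1 - P) * ρ a * (((1 - P) * (1 - P)) * (ρ b * (1 - P))) := by
        simp only [Matrix.mul_assoc]
      have e4 : (1 - P) * ρ a * ((1 - P) * (ρ b * (1 - P))) =
          (1 - P) * (ρ a * ρ b) * (1 - P) := by
        have e5 : (1 - P) * ρ a * ((1 - P) * (ρ b * (1 - P))) =
            (1 - P) * ρ a * (ρ b * (1 - P)) - ((1 - P) * (ρ a * P)) * (ρ b * (1 - P)) := by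
          rw [Matrix.sub_mul 1 P (ρ b * (1 - P)), Matrix.one_mul, Matrix.mul_sub]
          simp only [Matrix.mul_assoc]
        rw [e5, h4, Matrix.zero_mul, sub_zero]
        simp only [Matrix.mul_assoc]
      rw [e3, h3, e4]
    have e6 : (P * ρ a * P) * ((1 - P) * ρ b * (1 - P)) = 0 := by
      have : (P * ρ a * P) * ((1 - P) * ρ b * (1 - P)) =
          P * ρ a * (P * (1 - P)) * (ρ b * (1 - P)) := by
        simp only [Matrix.mul_assoc]
      rw [this, h2, Matrix.mul_zero, Matrix.zero_mul]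
    have e7 : ((1 - P) * ρ a * (1 - P)) * (P * ρ b * P) = 0 := by
      have : ((1 - P) * ρ a * (1 - P)) * (P * ρ b * P) =
          (1 - P) * ρ a * ((1 - P) * P) * (ρ b * P) := by
        simp only [Matrix.mul_assoc]
      rw [this, h1, Matrix.mul_zero, Matrix.zero_mul]
    rw [Matrix.add_mul, Matrix.mul_add, Matrix.mul_add, e6, e7, ← e1, ← e2, map_mul, add_zero,
      zero_add]

/-- a projection matrix onto a subspace -/
theorem exists_projection {n : ℕ} (W : Submodule ℝ (Fin n → ℝ)) :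
    ∃ P : Matrix (Fin n) (Fin n) ℝ, (∀ v, P *ᵥ v ∈ W) ∧ ∀ v ∈ W, P *ᵥ v = v := by
  obtain ⟨g, hg⟩ := LinearMap.exists_leftInverse_of_injective W.subtype
    (LinearMap.ker_eq_bot.2 W.subtype_injective)
  have hP : ∀ v, LinearMap.toMatrix' (W.subtype ∘ₗ g) *ᵥ v = (g v : Fin n → ℝ) := by
    intro v
    rw [← Matrix.toLin'_apply, Matrix.toLin'_toMatrix']
    rfl
  refine ⟨LinearMap.toMatrix' (W.subtype ∘ₗ g), fun v => ?_, fun v hv => ?_⟩
  · rw [hP]
    exact (g v).2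
  · rw [hP]
    have := LinearMap.congr_fun hg ⟨v, hv⟩
    simp only [LinearMap.comp_apply, LinearMap.id_apply] at this
    have h2 : g v = ⟨v, hv⟩ := this
    rw [h2]

/-- composition of a polynomial with a matrix -/
noncomputable def polyComp {n : ℕ} (f : MvPolynomial (Fin n) ℝ) (P : Matrix (Fin n) (Fin n) ℝ) :
    MvPolynomial (Fin n) ℝ :=
  MvPolynomial.aeval (fun i => ∑ j, MvPolynomial.C (P i j) * MvPolynomial.X j) f

theorem eval_polyComp {n : ℕ} (f : MvPolynomial (Fin n) ℝ) (P : Matrix (Fin n) (Fin n) ℝ)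
    (v : Fin n → ℝ) : MvPolynomial.eval v (polyComp f P) = MvPolynomial.eval (P *ᵥ v) f := by
  unfold polyComp
  induction f using MvPolynomial.induction_on with
  | C a => simp
  | add p q hp hq => rw [map_add, map_add, map_add, hp, hq]
  | mul_X p i hp =>
    rw [map_mul, map_mul, map_mul, hp, MvPolynomial.aeval_X, MvPolynomial.eval_X, map_sum]
    congr 1
    show _ = ∑ j, P i j * v j
    refine Finset.sum_congr rfl fun j _ => ?_
    rw [map_mul, MvPolynomial.eval_C, MvPolynomial.eval_X]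

theorem isHomogeneous_polyComp {n d : ℕ} {f : MvPolynomial (Fin n) ℝ} (hf : f.IsHomogeneous d)
    (P : Matrix (Fin n) (Fin n) ℝ) : (polyComp f P).IsHomogeneous d := by
  unfold polyComp
  have := hf.aeval (R := ℝ) (fun i => ∑ j, MvPolynomial.C (P i j) * MvPolynomial.X (R := ℝ) j)
    (n := 1) (fun i => by
      apply MvPolynomial.IsHomogeneous.sum
      intro j _
      exact MvPolynomial.IsHomogeneous.C_mul (MvPolynomial.isHomogeneous_X ℝ j) _)
  rwa [one_mul] at this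

theorem exists_limit_data {n : ℕ} {Γ : Type} [Group Γ] (ρ : Γ →* Matrix (Fin n) (Fin n) ℝ)
    (W : Submodule ℝ (Fin n → ℝ)) (hW : ∀ γ, ∀ v ∈ W, ρ γ *ᵥ v ∈ W) {d : ℕ} (hd : 0 < d)
    (f : MvPolynomial (Fin n) ℝ) (hf : f.IsHomogeneous d)
    (h0 : ∃ v ∈ W, MvPolynomial.eval v f ≠ 0)
    (h : ∀ γ, ∃ c : ℝ, ∀ v ∈ W, MvPolynomial.eval (ρ γ *ᵥ v) f = c * MvPolynomial.eval v f) :
    ∃ (T : Ten d n) (κ : Γ →* ℝ) (ρ' : Γ →* Matrix (Fin n) (Fin n) ℝ)
      (gN : ℕ → Matrix (Fin n) (Fin n) ℝ), TSym T ∧ T ≠ 0 ∧ (∀ γ, 0 < κ γ) ∧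
      (∀ N, 0 < (gN N).det) ∧
      (∀ γ, Tendsto (fun N => gN N * (κ γ • ρ γ) * (gN N)⁻¹) atTop (𝓝 (ρ' γ))) ∧
      ∀ γ, Fixes T (ρ' γ) := by
  obtain ⟨P, hP1, hP2⟩ := exists_projection W
  have hext : ∀ A B : Matrix (Fin n) (Fin n) ℝ, (∀ v, A *ᵥ v = B *ᵥ v) → A = B := by
    intro A B hAB
    apply Matrix.toLin'.injective
    apply LinearMap.ext
    intro v
    rw [Matrix.toLin'_apply, Matrix.toLin'_apply]
    exact hAB v
  have hPP : P * P = P := by
    apply hext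
    intro v
    rw [← Matrix.mulVec_mulVec]
    exact hP2 _ (hP1 v)
  have hA : ∀ γ, P * (ρ γ * P) = ρ γ * P := by
    intro γ
    apply hext
    intro v
    rw [← Matrix.mulVec_mulVec, ← Matrix.mulVec_mulVec]
    exact hP2 _ (hW γ _ (hP1 v))
  set ρ₀ := blockRep ρ P hPP hA with hρ₀
  have hρ₀P : ∀ γ v, P *ᵥ (ρ₀ γ *ᵥ v) = ρ γ *ᵥ (P *ᵥ v) := by
    intro γ v
    rw [Matrix.mulVec_mulVec, Matrix.mulVec_mulVec]
    congr 1
    show P * (P * ρ γ * P + (1 - P) * ρ γ * (1 - P)) = ρ γ * P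
    have h2 : P * (1 - P) = 0 := by rw [Matrix.mul_sub, hPP, Matrix.mul_one, sub_self]
    have e1 : P * (P * ρ γ * P) = (P * P) * (ρ γ * P) := by
      simp only [Matrix.mul_assoc]
    have e2 : P * ((1 - P) * ρ γ * (1 - P)) = (P * (1 - P)) * (ρ γ * (1 - P)) := by
      simp only [Matrix.mul_assoc]
    rw [Matrix.mul_add, e1, e2, hPP, h2, Matrix.zero_mul, add_zero, hA]
  have h0' : polyComp f P ≠ 0 := by
    obtain ⟨v, hv, hne⟩ := h0
    intro h1
    apply hne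
    have h2 := eval_polyComp f P v
    rw [h1, hP2 v hv, map_zero] at h2
    exact h2.symm
  obtain ⟨T, κ, hT, hT0, hκ, hfix⟩ := exists_normalised hd (polyComp f P)
    (isHomogeneous_polyComp hf P) h0' ρ₀ (by
      intro γ
      obtain ⟨c, hc⟩ := h γ
      refine ⟨c, fun v => ?_⟩
      rw [eval_polyComp, eval_polyComp, hρ₀P]
      exact hc _ (hP1 v))
  have hN : ∀ N : ℕ, (0 : ℝ) < 1 / ((N : ℝ) + 1) := fun N => by positivity
  refine ⟨T, κ, ⟨⟨fun γ => κ γ • ρ₀ γ, by rw [map_one, map_one, one_smul]⟩, fun a b => by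
    show κ (a * b) • ρ₀ (a * b) = (κ a • ρ₀ a) * (κ b • ρ₀ b)
    rw [map_mul, map_mul, Matrix.smul_mul, Matrix.mul_smul, smul_smul]⟩,
    fun N => scaleP P (1 / ((N : ℝ) + 1)), hT, hT0, hκ, fun N => scaleP_det hPP (hN N), ?_,
    fun γ => hfix γ⟩
  intro γ
  have e1 : ∀ N : ℕ, scaleP P (1 / ((N : ℝ) + 1)) * (κ γ • ρ γ) *
      (scaleP P (1 / ((N : ℝ) + 1)))⁻¹ = κ γ • ρ₀ γ +
        (1 / ((N : ℝ) + 1)) • (P * (κ γ • ρ γ) * (1 - P)) := by
    intro N
    rw [scaleP_conj hPP _ (hN N).ne']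
    · congr 1
      show _ = κ γ • (P * ρ γ * P + (1 - P) * ρ γ * (1 - P))
      rw [smul_add, Matrix.mul_smul, Matrix.smul_mul, Matrix.mul_smul, Matrix.smul_mul]
    · rw [Matrix.smul_mul, Matrix.mul_smul, hA]
  simp only [e1]
  have e2 : Tendsto (fun N : ℕ => κ γ • ρ₀ γ +
      (1 / ((N : ℝ) + 1)) • (P * (κ γ • ρ γ) * (1 - P))) atTop
      (𝓝 (κ γ • ρ₀ γ + (0 : ℝ) • (P * (κ γ • ρ γ) * (1 - P)))) :=
    tendsto_const_nhds.add (tendsto_one_div_add_atTop_nhds_zero_nat.smul tendsto_const_nhds)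
  rw [zero_smul, add_zero] at e2
  exact e2

end Pool.Agent.ChP
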