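import Pool.Agent.ChP.LogEst

/-!
# Balanced limits of a tuple of matrices

Let `J B = ∑ s, tr ((lg (B_sᵀ B_s))²)` and let `g m` be matrices with positive determinant such
that `J (g_m B g_m⁻¹)` tends to the infimum of `J (g B g⁻¹)` over all `g` with `0 < det g`.  Since
`J` is bounded, the eigenvalues of `C_sᵀ C_s`, `C_s = g_m B_s g_m⁻¹`, stay in a compact subset of
`(0, ∞)`, so after passing to a subsequence `g_m B_s g_m⁻¹ → B'_s`, `B'_s` invertible.  `J` is
continuous on invertible tuples (e.g. from `trace_log_sq_le` used in both directions, or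
continuity of `cfc`), so `J B'` is the infimum and `J (g B' g⁻¹) = lim J (g g_m B g_m⁻¹ g⁻¹)
≥ J B'` for all `g` with `0 < det g`.

First variation: let `W = ∑ s, (lg (B'_s B'_sᵀ) - lg (B'_sᵀ B'_s))` (symmetric), `g_τ = 1 - τ W`,
`B_τ = g_τ B' g_τ⁻¹`, `M_τ = B_τᵀ B_τ`.  `M_τ` is differentiable at `0` with derivative
`M' = W M + M W - 2 B'ᵀ W B'` (`M = B'ᵀ B'`), and by `trace_log_sq_le` and `lg_comm`
`J B_τ ≤ J B' + 2 τ ∑ s tr (lg M_s M_s⁻¹ M'_s) + o(τ) = J B' - 4 τ tr (W W) + o(τ)`.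
As `J B_τ ≥ J B'` for small `τ > 0`, `tr (W W) = 0`, so `W = 0`.
-/

namespace Pool.Agent.ChP

open Matrix Filter Topology

private noncomputable def BalT {n : ℕ} (C : Matrix (Fin n) (Fin n) ℝ) : ℝ :=
  (lg (Cᵀ * C) * lg (Cᵀ * C)).trace

private theorem Bal_posDef {n : ℕ} {C : Matrix (Fin n) (Fin n) ℝ} (hC : C.det ≠ 0) :
    (Cᵀ * C).PosDef := by
  have h : Function.Injective C.mulVec := Matrix.mulVec_injective_iff_isUnit.2
    ((Matrix.isUnit_iff_isUnit_det C).2 (isUnit_iff_ne_zero.2 hC))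
  have h1 := Matrix.PosDef.conjTranspose_mul_self C h
  rwa [Matrix.conjTranspose_eq_transpose_of_trivial] at h1

private theorem Bal_trace_sq {n : ℕ} {L : Matrix (Fin n) (Fin n) ℝ} (hL : Lᵀ = L) :
    (L * L).trace = ∑ i, ∑ j, (L i j) ^ 2 := by
  rw [Matrix.trace]
  refine Finset.sum_congr rfl fun i _ => ?_
  rw [Matrix.diag_apply, Matrix.mul_apply]
  refine Finset.sum_congr rfl fun j _ => ?_
  have h : L j i = L i j := by
    conv_lhs => rw [← hL]
    rfl
  rw [h, sq]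

private theorem BalT_nonneg {n : ℕ} {C : Matrix (Fin n) (Fin n) ℝ} (hC : C.det ≠ 0) :
    0 ≤ BalT C := by
  unfold BalT
  rw [Bal_trace_sq (lg_transpose (Bal_posDef hC))]
  positivity

private theorem Bal_trace_bound {n : ℕ} {Z X : Matrix (Fin n) (Fin n) ℝ} {c : ℝ}
    (hZ : ∀ i j, |Z i j| ≤ c) : |(Z * X).trace| ≤ c * ∑ i, ∑ j, |X j i| := by
  rw [Matrix.trace]
  refine (Finset.abs_sum_le_sum_abs _ _).trans ?_
  rw [Finset.mul_sum]
  refine Finset.sum_le_sum fun i _ => ?_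
  rw [Matrix.diag_apply, Matrix.mul_apply, Finset.mul_sum]
  refine (Finset.abs_sum_le_sum_abs _ _).trans ?_
  refine Finset.sum_le_sum fun j _ => ?_
  rw [abs_mul]
  exact mul_le_mul_of_nonneg_right (hZ i j) (abs_nonneg _)

private theorem Bal_orth {n : ℕ} {U : Matrix (Fin n) (Fin n) ℝ} (hU : Uᵀ * U = 1) (i j : Fin n) :
    |U i j| ≤ 1 := by
  have h : ∑ k, U k j * U k j = 1 := by
    have := congrFun (congrFun hU j) j
    rw [Matrix.mul_apply, Matrix.one_apply_eq] at this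
    exact this
  have h2 : U i j * U i j ≤ 1 := by
    rw [← h]
    exact Finset.single_le_sum (f := fun k => U k j * U k j) (fun k _ => mul_self_nonneg _)
      (Finset.mem_univ i)
  rw [← sq] at h2
  exact (sq_le_one_iff_abs_le_one _).1 h2

/-- the main bound -/
private theorem Bal_bound {n : ℕ} {C : Matrix (Fin n) (Fin n) ℝ} (hC : C.det ≠ 0) {K : ℝ}
    (hK0 : 0 ≤ K) (hK : BalT C ≤ K ^ 2) :
    ((Cᵀ * C) - Real.exp (-K) • (1 : Matrix (Fin n) (Fin n) ℝ)).PosSemidef ∧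
      (∀ i j, (C i j) ^ 2 ≤ n * Real.exp K) ∧
      (∀ i j, |(lg (Cᵀ * C) * (Cᵀ * C)⁻¹) i j| ≤ n * (K * Real.exp K)) := by
  have hP := Bal_posDef hC
  have hsym : (Cᵀ * C)ᵀ = Cᵀ * C := by
    rw [Matrix.transpose_mul, Matrix.transpose_transpose]
  obtain ⟨U, l, hU1, hU2, hA⟩ := exists_spec (Cᵀ * C) hsym
  have hl : ∀ i, 0 < l i := (posDef_iff_spec hU2 hA).1 hP
  have hlg : lg (Cᵀ * C) = U * diagonal (fun i => Real.log (l i)) * Uᵀ :=
    cfc_conj_diagonal hU2 hA Real.log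
  have hconj : ∀ a b : Fin n → ℝ, (U * diagonal a * Uᵀ) * (U * diagonal b * Uᵀ) =
      U * diagonal (fun i => a i * b i) * Uᵀ := by
    intro a b
    calc (U * diagonal a * Uᵀ) * (U * diagonal b * Uᵀ)
        = U * diagonal a * (Uᵀ * U) * diagonal b * Uᵀ := by simp only [Matrix.mul_assoc]
      _ = U * (diagonal a * diagonal b) * Uᵀ := by
          rw [hU2, Matrix.mul_one]; simp only [Matrix.mul_assoc]
      _ = U * diagonal (fun i => a i * b i) * Uᵀ := by rw [Matrix.diagonal_mul_diagonal]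
  have htr : ∀ a : Fin n → ℝ, (U * diagonal a * Uᵀ).trace = ∑ i, a i := by
    intro a
    rw [Matrix.trace_mul_comm, ← Matrix.mul_assoc, hU2, Matrix.one_mul, Matrix.trace_diagonal]
  have hT : ∑ i, Real.log (l i) ^ 2 ≤ K ^ 2 := by
    refine le_trans (le_of_eq ?_) hK
    unfold BalT
    rw [hlg, hconj, htr]
    exact Finset.sum_congr rfl fun i _ => sq _
  have hlog : ∀ i, |Real.log (l i)| ≤ K := by
    intro i
    have h1 : Real.log (l i) ^ 2 ≤ K ^ 2 :=
      le_trans (Finset.single_le_sum (f := fun i => Real.log (l i) ^ 2)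
        (fun k _ => sq_nonneg _) (Finset.mem_univ i)) hT
    exact abs_le_of_sq_le_sq h1 hK0
  have hlo : ∀ i, Real.exp (-K) ≤ l i := by
    intro i
    rw [← Real.exp_log (hl i)]
    exact Real.exp_le_exp.2 (abs_le.1 (hlog i)).1
  have hhi : ∀ i, l i ≤ Real.exp K := by
    intro i
    rw [← Real.exp_log (hl i)]
    exact Real.exp_le_exp.2 (abs_le.1 (hlog i)).2
  refine ⟨?_, ?_, ?_⟩
  · have h1 : (Cᵀ * C) - Real.exp (-K) • (1 : Matrix (Fin n) (Fin n) ℝ) =
        U * diagonal (fun i => l i - Real.exp (-K)) * Uᵀ := by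
      have h2 : (diagonal (fun i => l i - Real.exp (-K)) : Matrix (Fin n) (Fin n) ℝ) =
          diagonal l - Real.exp (-K) • (1 : Matrix (Fin n) (Fin n) ℝ) := by
        ext i j
        by_cases hij : i = j
        · subst hij; simp
        · simp [hij]
      rw [h2, Matrix.mul_sub, Matrix.sub_mul, ← hA, Matrix.mul_smul, Matrix.smul_mul,
        Matrix.mul_one, hU1]
    exact (posSemidef_iff_spec hU2 h1).2 fun i => sub_nonneg.2 (hlo i)
  · intro i j
    have h1 : (C i j) ^ 2 ≤ (Cᵀ * C).trace := by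
      have h2 : (Cᵀ * C).trace = ∑ a, ∑ b, (C b a) ^ 2 := by
        rw [Matrix.trace]
        refine Finset.sum_congr rfl fun a _ => ?_
        rw [Matrix.diag_apply, Matrix.mul_apply]
        exact Finset.sum_congr rfl fun b _ => by rw [Matrix.transpose_apply, sq]
      rw [h2]
      refine le_trans (Finset.single_le_sum (f := fun b => (C b j) ^ 2)
        (fun k _ => sq_nonneg _) (Finset.mem_univ i)) ?_
      exact Finset.single_le_sum (f := fun a => ∑ b, (C b a) ^ 2)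
        (fun k _ => Finset.sum_nonneg fun _ _ => sq_nonneg _) (Finset.mem_univ j)
    refine h1.trans ?_
    rw [hA, htr]
    calc ∑ i, l i ≤ ∑ _i : Fin n, Real.exp K := Finset.sum_le_sum fun i _ => hhi i
      _ = n * Real.exp K := by simp
  · have hinv : (Cᵀ * C)⁻¹ = U * diagonal (fun i => (l i)⁻¹) * Uᵀ := by
      apply Matrix.inv_eq_left_inv
      conv_lhs => rw [hA]
      rw [hconj]
      have : (fun i => (l i)⁻¹ * l i) = fun _ => (1 : ℝ) := by
        funext i
        exact inv_mul_cancel₀ (hl i).ne'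
      rw [this, Matrix.diagonal_one, Matrix.mul_one, hU1]
    intro i j
    rw [hlg, hinv, hconj, Matrix.mul_apply]
    refine (Finset.abs_sum_le_sum_abs _ _).trans ?_
    calc ∑ k, |(U * diagonal (fun i => Real.log (l i) * (l i)⁻¹)) i k * Uᵀ k j|
        ≤ ∑ _k : Fin n, K * Real.exp K := by
          refine Finset.sum_le_sum fun k _ => ?_
          rw [Matrix.mul_diagonal, Matrix.transpose_apply, abs_mul, abs_mul, abs_mul]
          have h1 := Bal_orth hU2 i k
          have h2 := Bal_orth hU2 j k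
          have h3 : |(l k)⁻¹| ≤ Real.exp K := by
            rw [abs_of_pos (inv_pos.2 (hl k))]
            rw [inv_le_comm₀ (hl k) (Real.exp_pos _), ← Real.exp_neg]
            exact hlo k
          have h4 : |Real.log (l k)| * |(l k)⁻¹| ≤ K * Real.exp K :=
            mul_le_mul (hlog k) h3 (abs_nonneg _) hK0
          have h5 : 0 ≤ |Real.log (l k)| * |(l k)⁻¹| := by positivity
          calc |U i k| * (|Real.log (l k)| * |(l k)⁻¹|) * |U j k|
              ≤ 1 * (|Real.log (l k)| * |(l k)⁻¹|) * 1 := by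
                apply mul_le_mul _ h2 (abs_nonneg _) (by positivity)
                exact mul_le_mul_of_nonneg_right h1 h5
            _ ≤ K * Real.exp K := by linarith
      _ = n * (K * Real.exp K) := by simp

private theorem Bal_small {n : ℕ} {Y : Matrix (Fin n) (Fin n) ℝ} (hY : Yᵀ = Y) {c : ℝ}
    (hc : 0 ≤ c) (h : ∀ i j, |Y i j| ≤ c / (n + 1)) :
    (c • (1 : Matrix (Fin n) (Fin n) ℝ) + Y).PosSemidef := by
  refine Matrix.PosSemidef.of_dotProduct_mulVec_nonneg ?_ fun x => ?_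
  · rw [Matrix.IsHermitian, Matrix.conjTranspose_eq_transpose_of_trivial, Matrix.transpose_add,
      Matrix.transpose_smul, Matrix.transpose_one, hY]
  · rw [star_trivial, Matrix.add_mulVec, Matrix.smul_mulVec, Matrix.one_mulVec, dotProduct_add,
      dotProduct_smul, smul_eq_mul]
    have h1 : x ⬝ᵥ (Y *ᵥ x) = ∑ i, ∑ j, x i * (Y i j * x j) := by
      simp only [dotProduct, mulVec, Finset.mul_sum]
    have h2 : -(c / (n + 1) * ((n : ℝ) * ∑ i, x i ^ 2)) ≤ x ⬝ᵥ (Y *ᵥ x) := by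
      rw [h1]
      have h3 : ∀ i j, -(c / (n + 1) * ((x i ^ 2 + x j ^ 2) / 2)) ≤ x i * (Y i j * x j) := by
        intro i j
        have h4 : |x i * (Y i j * x j)| ≤ c / (n + 1) * ((x i ^ 2 + x j ^ 2) / 2) := by
          rw [abs_mul, abs_mul]
          have h5 : |x i| * |x j| ≤ (x i ^ 2 + x j ^ 2) / 2 := by
            nlinarith [sq_nonneg (|x i| - |x j|), sq_abs (x i), sq_abs (x j)]
          have h6 : 0 ≤ |x i| * |x j| := by positivity
          calc |x i| * (|Y i j| * |x j|) = |Y i j| * (|x i| * |x j|) := by ring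
            _ ≤ c / (n + 1) * (|x i| * |x j|) := mul_le_mul_of_nonneg_right (h i j) h6
            _ ≤ c / (n + 1) * ((x i ^ 2 + x j ^ 2) / 2) :=
                mul_le_mul_of_nonneg_left h5 (by positivity)
        exact (abs_le.1 h4).1
      have h7 : ∑ i : Fin n, ∑ j : Fin n, -(c / (n + 1) * ((x i ^ 2 + x j ^ 2) / 2)) =
          -(c / (n + 1) * ((n : ℝ) * ∑ i, x i ^ 2)) := by
        simp only [Finset.sum_neg_distrib, ← Finset.mul_sum, ← Finset.sum_div,
          Finset.sum_add_distrib, Finset.sum_const, Finset.card_univ, Fintype.card_fin,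
          nsmul_eq_mul]
        ring
      rw [← h7]
      exact Finset.sum_le_sum fun i _ => Finset.sum_le_sum fun j _ => h3 i j
    have h8 : x ⬝ᵥ x = ∑ i, x i ^ 2 := by
      simp only [dotProduct, sq]
    rw [h8]
    have h9 : 0 ≤ ∑ i, x i ^ 2 := Finset.sum_nonneg fun _ _ => sq_nonneg _
    have h10 : c / (n + 1) * ((n : ℝ) * ∑ i, x i ^ 2) ≤ c * ∑ i, x i ^ 2 := by
      rw [← mul_assoc]
      apply mul_le_mul_of_nonneg_right _ h9
      rw [div_mul_eq_mul_div, div_le_iff₀ (by positivity)]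
      nlinarith
    linarith

private theorem Bal_ev {n : ℕ} {ι : Type*} {l : Filter ι} {X : ι → Matrix (Fin n) (Fin n) ℝ}
    {X0 : Matrix (Fin n) (Fin n) ℝ} (hX : Tendsto X l (𝓝 X0)) (hs : ∀ i, (X i)ᵀ = X i)
    (hs0 : X0ᵀ = X0) {a b : ℝ} (hab : b < a)
    (h0 : (X0 - a • (1 : Matrix (Fin n) (Fin n) ℝ)).PosSemidef) :
    ∀ᶠ i in l, (X i - b • (1 : Matrix (Fin n) (Fin n) ℝ)).PosSemidef := by
  have h1 : ∀ p q : Fin n, ∀ᶠ i in l, |(X i - X0) p q| ≤ (a - b) / (n + 1) := by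
    intro p q
    have h2 : Tendsto (fun i => |(X i - X0) p q|) l (𝓝 0) := by
      have h3 : Tendsto (fun i => X i p q) l (𝓝 (X0 p q)) :=
        ((continuous_apply_apply p q).tendsto X0).comp hX
      have h4 := (h3.sub_const (X0 p q)).abs
      rw [sub_self, abs_zero] at h4
      exact h4
    have h3 : (0 : ℝ) < (a - b) / (n + 1) := by
      have : 0 < a - b := by linarith
      positivity
    exact h2.eventually (eventually_le_nhds h3)
  have h2 : ∀ᶠ i in l, ∀ p q : Fin n, |(X i - X0) p q| ≤ (a - b) / (n + 1) := by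
    rw [eventually_all]
    intro p
    rw [eventually_all]
    exact h1 p
  filter_upwards [h2] with i hi
  have h3 : X i - b • (1 : Matrix (Fin n) (Fin n) ℝ) =
      (X0 - a • (1 : Matrix (Fin n) (Fin n) ℝ)) +
        ((a - b) • (1 : Matrix (Fin n) (Fin n) ℝ) + (X i - X0)) := by
    rw [sub_smul]; abel
  rw [h3]
  refine h0.add (Bal_small ?_ (by linarith) hi)
  rw [Matrix.transpose_sub, hs, hs0]

private theorem Bal_sym {n : ℕ} (C : Matrix (Fin n) (Fin n) ℝ) : (Cᵀ * C)ᵀ = Cᵀ * C := by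
  rw [Matrix.transpose_mul, Matrix.transpose_transpose]

private theorem Bal_lower {n : ℕ} {P : Matrix (Fin n) (Fin n) ℝ} (hP : P.PosDef)
    (hs : Pᵀ = P) : ∃ a : ℝ, 0 < a ∧ (P - a • (1 : Matrix (Fin n) (Fin n) ℝ)).PosSemidef := by
  obtain ⟨U, l, hU1, hU2, hA⟩ := exists_spec P hs
  have hl : ∀ i, 0 < l i := (posDef_iff_spec hU2 hA).1 hP
  obtain ⟨a, ha, hal⟩ : ∃ a : ℝ, 0 < a ∧ ∀ i, a ≤ l i := by
    rcases isEmpty_or_nonempty (Fin n) with h | h
    · exact ⟨1, one_pos, fun i => (h.false i).elim⟩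
    · obtain ⟨i0, hi0⟩ := Finite.exists_min l
      exact ⟨l i0, hl i0, hi0⟩
  refine ⟨a, ha, ?_⟩
  have h1 : P - a • (1 : Matrix (Fin n) (Fin n) ℝ) = U * diagonal (fun i => l i - a) * Uᵀ := by
    have h2 : (diagonal (fun i => l i - a) : Matrix (Fin n) (Fin n) ℝ) =
        diagonal l - a • (1 : Matrix (Fin n) (Fin n) ℝ) := by
      ext i j
      by_cases hij : i = j
      · subst hij; simp
      · simp [hij]
    rw [h2, Matrix.mul_sub, Matrix.sub_mul, ← hA, Matrix.mul_smul, Matrix.smul_mul,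
      Matrix.mul_one, hU1]
  exact (posSemidef_iff_spec hU2 h1).2 fun i => sub_nonneg.2 (hal i)

private theorem Bal_up {n : ℕ} {ι : Type*} {l : Filter ι} {C : ι → Matrix (Fin n) (Fin n) ℝ}
    {C0 : Matrix (Fin n) (Fin n) ℝ} (hC : Tendsto C l (𝓝 C0)) (h0 : C0.det ≠ 0) :
    ∃ A : ℝ, 0 ≤ A ∧ ∀ᶠ i in l, BalT (C i) ≤ BalT C0 +
      2 * (lg (C0ᵀ * C0) * (C0ᵀ * C0)⁻¹ * ((C i)ᵀ * C i - C0ᵀ * C0)).trace +
      A * (((C i)ᵀ * C i - C0ᵀ * C0) * ((C i)ᵀ * C i - C0ᵀ * C0)).trace := by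
  obtain ⟨a, ha, hal⟩ := Bal_lower (Bal_posDef h0) (Bal_sym C0)
  obtain ⟨A, hA0, hA⟩ := trace_log_sq_le (n := n) (a / 2) (by positivity)
  refine ⟨A, hA0, ?_⟩
  have hN : Tendsto (fun i => (C i)ᵀ * C i) l (𝓝 (C0ᵀ * C0)) := by
    have hc : Continuous fun X : Matrix (Fin n) (Fin n) ℝ => Xᵀ * X :=
      continuous_id.matrix_transpose.matrix_mul continuous_id
    exact (hc.tendsto C0).comp hC
  have h1 := Bal_ev hN (fun i => Bal_sym _) (Bal_sym C0) (show a / 2 < a by linarith) hal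
  have h2 : (C0ᵀ * C0 - (a / 2) • (1 : Matrix (Fin n) (Fin n) ℝ)).PosSemidef := by
    have h3 : C0ᵀ * C0 - (a / 2) • (1 : Matrix (Fin n) (Fin n) ℝ) =
        (C0ᵀ * C0 - a • (1 : Matrix (Fin n) (Fin n) ℝ)) +
          ((a / 2) • (1 : Matrix (Fin n) (Fin n) ℝ) + 0) := by
      have h4 : a • (1 : Matrix (Fin n) (Fin n) ℝ) = (a / 2) • 1 + (a / 2) • 1 := by
        rw [← add_smul]; congr 1; ring
      rw [h4, add_zero]; abel
    rw [h3]
    refine hal.add (Bal_small Matrix.transpose_zero (by linarith) fun i j => ?_)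
    rw [Matrix.zero_apply, abs_zero]
    positivity
  filter_upwards [h1] with i hi
  exact hA _ _ h2 hi

private theorem Bal_usc {n : ℕ} {S : Type} [Fintype S] {ι : Type*} {l : Filter ι} [l.NeBot]
    {C : ι → S → Matrix (Fin n) (Fin n) ℝ} {C0 : S → Matrix (Fin n) (Fin n) ℝ}
    (hC : ∀ s, Tendsto (fun i => C i s) l (𝓝 (C0 s))) (h0 : ∀ s, (C0 s).det ≠ 0) {v : ℝ}
    (hv : ∀ᶠ i in l, v ≤ ∑ s, BalT (C i s)) : v ≤ ∑ s, BalT (C0 s) := by
  have key : ∀ s, ∃ r : ι → ℝ, Tendsto r l (𝓝 (BalT (C0 s))) ∧ ∀ᶠ i in l, BalT (C i s) ≤ r i := by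
    intro s
    obtain ⟨A, hA0, hA⟩ := Bal_up (hC s) (h0 s)
    refine ⟨_, ?_, hA⟩
    have hc : Continuous fun X : Matrix (Fin n) (Fin n) ℝ => BalT (C0 s) +
        2 * (lg ((C0 s)ᵀ * C0 s) * ((C0 s)ᵀ * C0 s)⁻¹ * (Xᵀ * X - (C0 s)ᵀ * C0 s)).trace +
        A * ((Xᵀ * X - (C0 s)ᵀ * C0 s) * (Xᵀ * X - (C0 s)ᵀ * C0 s)).trace := by
      have h1 : Continuous fun X : Matrix (Fin n) (Fin n) ℝ => Xᵀ * X - (C0 s)ᵀ * C0 s :=
        (continuous_id.matrix_transpose.matrix_mul continuous_id).sub continuous_const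
      exact (continuous_const.add (continuous_const.mul
        (continuous_const.matrix_mul h1).matrix_trace)).add
          (continuous_const.mul (h1.matrix_mul h1).matrix_trace)
    have h2 := (hc.tendsto (C0 s)).comp (hC s)
    simp only [sub_self, Matrix.trace_zero, mul_zero, add_zero] at h2
    exact h2
  choose r hr1 hr2 using key
  have h1 : Tendsto (fun i => ∑ s, r s i) l (𝓝 (∑ s, BalT (C0 s))) :=
    tendsto_finsetSum _ fun s _ => hr1 s
  refine ge_of_tendsto h1 ?_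
  have h2 : ∀ᶠ i in l, ∀ s, BalT (C i s) ≤ r s i := eventually_all.2 hr2
  filter_upwards [hv, h2] with i hi1 hi2
  exact hi1.trans (Finset.sum_le_sum fun s _ => hi2 s)

private theorem Bal_detconj {n : ℕ} {g B : Matrix (Fin n) (Fin n) ℝ} (hg : g.det ≠ 0)
    (hB : B.det ≠ 0) : (g * B * g⁻¹).det ≠ 0 := by
  rw [Matrix.det_mul, Matrix.det_mul, Matrix.det_nonsing_inv, Ring.inverse_eq_inv']
  exact mul_ne_zero (mul_ne_zero hg hB) (inv_ne_zero hg)

/-- the first variation of `M` -/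
private theorem Bal_first {n : ℕ} {B W : Matrix (Fin n) (Fin n) ℝ} (hB : B.det ≠ 0)
    (hW : Wᵀ = W) :
    (lg (Bᵀ * B) * (Bᵀ * B)⁻¹ * ((B * W - W * B)ᵀ * B + Bᵀ * (B * W - W * B))).trace =
      2 * ((lg (Bᵀ * B) - lg (B * Bᵀ)) * W).trace := by
  have hP := Bal_posDef hB
  set M := Bᵀ * B with hM
  set L := lg M with hL
  have hMdet : IsUnit M.det := by
    rw [hM, Matrix.det_mul, Matrix.det_transpose]
    exact isUnit_iff_ne_zero.2 (mul_ne_zero hB hB)
  have hBdet : IsUnit B.det := isUnit_iff_ne_zero.2 hB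
  have hBtdet : IsUnit Bᵀ.det := by rw [Matrix.det_transpose]; exact hBdet
  have hcomm : L * M = M * L := by
    obtain ⟨U, l, hU1, hU2, hA⟩ := exists_spec M (Bal_sym B)
    have hlg : L = U * diagonal (fun i => Real.log (l i)) * Uᵀ :=
      cfc_conj_diagonal hU2 hA Real.log
    have hconj : ∀ a b : Fin n → ℝ, (U * diagonal a * Uᵀ) * (U * diagonal b * Uᵀ) =
        U * diagonal (fun i => a i * b i) * Uᵀ := by
      intro a b
      calc (U * diagonal a * Uᵀ) * (U * diagonal b * Uᵀ)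
          = U * diagonal a * (Uᵀ * U) * diagonal b * Uᵀ := by simp only [Matrix.mul_assoc]
        _ = U * (diagonal a * diagonal b) * Uᵀ := by
            rw [hU2, Matrix.mul_one]; simp only [Matrix.mul_assoc]
        _ = U * diagonal (fun i => a i * b i) * Uᵀ := by rw [Matrix.diagonal_mul_diagonal]
    rw [hlg, hA, hconj, hconj]
    congr 3
    funext i
    exact mul_comm _ _
  have hE : (B * W - W * B)ᵀ * B + Bᵀ * (B * W - W * B) =
      W * M + M * W - (Bᵀ * W * B + Bᵀ * W * B) := by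
    rw [Matrix.transpose_sub, Matrix.transpose_mul, Matrix.transpose_mul, hW, hM]
    simp only [Matrix.sub_mul, Matrix.mul_sub, Matrix.mul_assoc]
    abel
  have h1 : (L * M⁻¹ * (W * M)).trace = (L * W).trace := by
    rw [← Matrix.mul_assoc, Matrix.trace_mul_comm, ← Matrix.mul_assoc, ← Matrix.mul_assoc,
      ← hcomm, Matrix.mul_assoc L M, Matrix.mul_nonsing_inv _ hMdet, Matrix.mul_one]
  have h2 : (L * M⁻¹ * (M * W)).trace = (L * W).trace := by
    rw [← Matrix.mul_assoc, Matrix.mul_assoc L, Matrix.nonsing_inv_mul _ hMdet, Matrix.mul_one]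
  have h3 : (L * M⁻¹ * (Bᵀ * W * B)).trace = (lg (B * Bᵀ) * W).trace := by
    have h4 : M⁻¹ * Bᵀ = B⁻¹ := by
      rw [hM, Matrix.mul_inv_rev, Matrix.mul_assoc, Matrix.nonsing_inv_mul _ hBtdet,
        Matrix.mul_one]
    calc (L * M⁻¹ * (Bᵀ * W * B)).trace = (L * (M⁻¹ * Bᵀ) * W * B).trace := by
          simp only [Matrix.mul_assoc]
      _ = (B * L * B⁻¹ * W).trace := by
          rw [h4, Matrix.trace_mul_comm]
          simp only [Matrix.mul_assoc]
      _ = (lg (B * Bᵀ) * W).trace := by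
          rw [hL, hM, lg_comm hB, Matrix.mul_assoc (lg (B * Bᵀ)), Matrix.mul_nonsing_inv _ hBdet,
            Matrix.mul_one]
  rw [hE, Matrix.mul_sub, Matrix.mul_add, Matrix.mul_add, Matrix.trace_sub, Matrix.trace_add,
    Matrix.trace_add, h1, h2, h3, Matrix.sub_mul, Matrix.trace_sub]
  ring

private theorem Bal_Gdet {n : ℕ} (W : Matrix (Fin n) (Fin n) ℝ) :
    ∀ᶠ τ : ℝ in 𝓝[>] 0, 0 < ((1 : Matrix (Fin n) (Fin n) ℝ) - τ • W).det := by
  have hc : Continuous fun τ : ℝ => ((1 : Matrix (Fin n) (Fin n) ℝ) - τ • W).det :=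
    (continuous_const.sub (continuous_id.smul continuous_const)).matrix_det
  have h1 := hc.tendsto 0
  simp only [zero_smul, sub_zero, Matrix.det_one] at h1
  exact (h1.mono_left nhdsWithin_le_nhds).eventually (eventually_gt_nhds one_pos)

private theorem Bal_Ginv {n : ℕ} (W : Matrix (Fin n) (Fin n) ℝ) :
    Tendsto (fun τ : ℝ => ((1 : Matrix (Fin n) (Fin n) ℝ) - τ • W)⁻¹) (𝓝[>] 0) (𝓝 1) := by
  have h1 : ContinuousAt Inv.inv (1 : Matrix (Fin n) (Fin n) ℝ) := by
    apply continuousAt_matrix_inv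
    rw [Matrix.det_one]
    have : (Ring.inverse : ℝ → ℝ) = fun x => x⁻¹ := by
      funext x; exact Ring.inverse_eq_inv x
    rw [this]
    exact continuousAt_inv₀ one_ne_zero
  have hc : Continuous fun τ : ℝ => ((1 : Matrix (Fin n) (Fin n) ℝ) - τ • W) :=
    continuous_const.sub (continuous_id.smul continuous_const)
  have h2 := hc.tendsto 0
  simp only [zero_smul, sub_zero] at h2
  have h3 : Tendsto (fun τ : ℝ => ((1 : Matrix (Fin n) (Fin n) ℝ) - τ • W)⁻¹) (𝓝[>] 0)
      (𝓝 (1⁻¹)) := (h1.tendsto).comp (h2.mono_left nhdsWithin_le_nhds)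
  rwa [inv_one] at h3

theorem exists_balanced_limit {n : ℕ} {S : Type} [Fintype S]
    (B : S → Matrix (Fin n) (Fin n) ℝ) (hB : ∀ s, (B s).det ≠ 0) :
    ∃ (g : ℕ → Matrix (Fin n) (Fin n) ℝ) (B' : S → Matrix (Fin n) (Fin n) ℝ),
      (∀ m, 0 < (g m).det) ∧ (∀ s, (B' s).det ≠ 0) ∧
      (∀ s, Tendsto (fun m => g m * B s * (g m)⁻¹) atTop (𝓝 (B' s))) ∧
      ∑ s, (lg (B' s * (B' s)ᵀ) - lg ((B' s)ᵀ * B' s)) = 0 := by
  set V : Set ℝ := {v | ∃ g : Matrix (Fin n) (Fin n) ℝ, 0 < g.det ∧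
    v = ∑ s, BalT (g * B s * g⁻¹)} with hV
  have hVne : V.Nonempty := ⟨_, 1, by rw [Matrix.det_one]; exact one_pos, rfl⟩
  have hVb : BddBelow V := by
    refine ⟨0, ?_⟩
    rintro v ⟨g, hg, rfl⟩
    exact Finset.sum_nonneg fun s _ => BalT_nonneg (Bal_detconj hg.ne' (hB s))
  obtain ⟨u, hu1, hu2, hu3⟩ := exists_seq_tendsto_sInf hVne hVb
  set I := sInf V with hI
  have hImin : ∀ g : Matrix (Fin n) (Fin n) ℝ, 0 < g.det → I ≤ ∑ s, BalT (g * B s * g⁻¹) :=
    fun g hg => csInf_le hVb ⟨g, hg, rfl⟩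
  choose g hg hgu using hu3
  have hCdet : ∀ m s, (g m * B s * (g m)⁻¹).det ≠ 0 := fun m s =>
    Bal_detconj (hg m).ne' (hB s)
  set K := Real.sqrt (u 0) with hK
  have hK0 : 0 ≤ K := Real.sqrt_nonneg _
  have hu0 : 0 ≤ u 0 := by
    rw [hgu 0]
    exact Finset.sum_nonneg fun s _ => BalT_nonneg (hCdet 0 s)
  have hTK : ∀ m s, BalT (g m * B s * (g m)⁻¹) ≤ K ^ 2 := by
    intro m s
    rw [hK, Real.sq_sqrt hu0]
    refine le_trans ?_ (hu1 (Nat.zero_le m))
    rw [hgu m]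
    exact Finset.single_le_sum (f := fun s => BalT (g m * B s * (g m)⁻¹))
      (fun s _ => BalT_nonneg (hCdet m s)) (Finset.mem_univ s)
  have hbd := fun m s => Bal_bound (hCdet m s) hK0 (hTK m s)
  set R := Real.sqrt (n * Real.exp K) with hR
  have hcomp : IsCompact (Set.pi Set.univ fun _ : S => Set.pi Set.univ fun _ : Fin n =>
      Set.pi Set.univ fun _ : Fin n => Set.Icc (-R) R :
      Set (S → Matrix (Fin n) (Fin n) ℝ)) :=
    isCompact_univ_pi fun _ => isCompact_univ_pi fun _ => isCompact_univ_pi fun _ => isCompact_Icc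
  have hmem : ∀ m, (fun s => g m * B s * (g m)⁻¹) ∈
      (Set.pi Set.univ fun _ : S => Set.pi Set.univ fun _ : Fin n =>
      Set.pi Set.univ fun _ : Fin n => Set.Icc (-R) R :
      Set (S → Matrix (Fin n) (Fin n) ℝ)) := by
    intro m s _ i _ j _
    have h1 := (hbd m s).2.1 i j
    have h2 : |(g m * B s * (g m)⁻¹) i j| ≤ R := Real.abs_le_sqrt h1
    exact abs_le.1 h2
  have : FirstCountableTopology (S → Matrix (Fin n) (Fin n) ℝ) :=
    inferInstanceAs (FirstCountableTopology (S → Fin n → Fin n → ℝ))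
  obtain ⟨B', -, φ, hφ, hlim⟩ := hcomp.tendsto_subseq hmem
  have hlims : ∀ s, Tendsto (fun m => g (φ m) * B s * (g (φ m))⁻¹) atTop (𝓝 (B' s)) := by
    intro s
    exact ((continuous_apply s).tendsto B').comp hlim
  have hlimN : ∀ s, Tendsto (fun m => (g (φ m) * B s * (g (φ m))⁻¹)ᵀ *
      (g (φ m) * B s * (g (φ m))⁻¹)) atTop (𝓝 ((B' s)ᵀ * B' s)) := by
    intro s
    have hc : Continuous fun X : Matrix (Fin n) (Fin n) ℝ => Xᵀ * X :=
      continuous_id.matrix_transpose.matrix_mul continuous_id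
    exact (hc.tendsto (B' s)).comp (hlims s)
  set a := Real.exp (-K) with ha
  have ha0 : 0 < a := Real.exp_pos _
  have hB'psd : ∀ s, ((B' s)ᵀ * B' s - a • (1 : Matrix (Fin n) (Fin n) ℝ)).PosSemidef := by
    intro s
    refine Matrix.PosSemidef.of_dotProduct_mulVec_nonneg ?_ fun x => ?_
    · rw [Matrix.IsHermitian, Matrix.conjTranspose_eq_transpose_of_trivial,
        Matrix.transpose_sub, Matrix.transpose_smul, Matrix.transpose_one, Bal_sym]
    · have hc : Continuous fun X : Matrix (Fin n) (Fin n) ℝ =>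
          star x ⬝ᵥ ((X - a • (1 : Matrix (Fin n) (Fin n) ℝ)) *ᵥ x) :=
        continuous_const.dotProduct ((continuous_id.sub continuous_const).matrix_mulVec
          continuous_const)
      have h1 := (hc.tendsto ((B' s)ᵀ * B' s)).comp (hlimN s)
      refine ge_of_tendsto h1 (Eventually.of_forall fun m => ?_)
      exact (hbd (φ m) s).1.dotProduct_mulVec_nonneg x
  have hB'det : ∀ s, (B' s).det ≠ 0 := by
    intro s h0
    have h1 : ((B' s)ᵀ * B' s).PosDef := by
      have h2 : (B' s)ᵀ * B' s = a • (1 : Matrix (Fin n) (Fin n) ℝ) +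
          ((B' s)ᵀ * B' s - a • (1 : Matrix (Fin n) (Fin n) ℝ)) := by abel
      rw [h2]
      exact (Matrix.PosDef.one.smul ha0).add_posSemidef (hB'psd s)
    have h3 := h1.det_pos
    rw [Matrix.det_mul, h0, mul_zero] at h3
    exact lt_irrefl _ h3
  -- the limit is a minimiser
  have hJle : ∑ s, BalT (B' s) ≤ I := by
    obtain ⟨A, hA0, hA⟩ := trace_log_sq_le (n := n) a ha0
    set c : ℝ := n * (K * Real.exp K) with hc
    set D : ℕ → S → Matrix (Fin n) (Fin n) ℝ := fun m s => (B' s)ᵀ * B' s -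
      (g (φ m) * B s * (g (φ m))⁻¹)ᵀ * (g (φ m) * B s * (g (φ m))⁻¹) with hD
    have h1 : ∀ m, ∑ s, BalT (B' s) ≤ u (φ m) + ∑ s, (2 * (c * ∑ i, ∑ j, |D m s j i|) +
        A * (D m s * D m s).trace) := by
      intro m
      rw [hgu (φ m), ← Finset.sum_add_distrib]
      refine Finset.sum_le_sum fun s _ => ?_
      have h2 := hA _ _ (hbd (φ m) s).1 (hB'psd s)
      have h3 := (abs_le.1 (Bal_trace_bound (X := D m s) (hbd (φ m) s).2.2)).2
      have h4 : BalT (B' s) ≤ BalT (g (φ m) * B s * (g (φ m))⁻¹) +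
          2 * (lg ((g (φ m) * B s * (g (φ m))⁻¹)ᵀ * (g (φ m) * B s * (g (φ m))⁻¹)) *
            ((g (φ m) * B s * (g (φ m))⁻¹)ᵀ * (g (φ m) * B s * (g (φ m))⁻¹))⁻¹ *
              D m s).trace + A * (D m s * D m s).trace := h2
      linarith
    have h2 : ∀ s, Tendsto (fun m => 2 * (c * ∑ i, ∑ j, |D m s j i|) +
        A * (D m s * D m s).trace) atTop (𝓝 0) := by
      intro s
      have hcont : Continuous fun X : Matrix (Fin n) (Fin n) ℝ =>
          2 * (c * ∑ i, ∑ j, |((B' s)ᵀ * B' s - X) j i|) +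
            A * (((B' s)ᵀ * B' s - X) * ((B' s)ᵀ * B' s - X)).trace := by
        have h3 : Continuous fun X : Matrix (Fin n) (Fin n) ℝ => (B' s)ᵀ * B' s - X :=
          continuous_const.sub continuous_id
        refine Continuous.add (continuous_const.mul (continuous_const.mul ?_))
          (continuous_const.mul (h3.matrix_mul h3).matrix_trace)
        refine continuous_finsetSum _ fun i _ => continuous_finsetSum _ fun j _ => ?_
        exact ((continuous_apply_apply j i).comp h3).abs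
      have h3 := (hcont.tendsto ((B' s)ᵀ * B' s)).comp (hlimN s)
      simp only [sub_self, Matrix.zero_apply, abs_zero, Finset.sum_const_zero, mul_zero,
        Matrix.trace_zero, add_zero] at h3
      exact h3
    have h3 := (hu2.comp hφ.tendsto_atTop).add (tendsto_finsetSum Finset.univ fun s _ => h2 s)
    rw [Finset.sum_const_zero, add_zero] at h3
    exact ge_of_tendsto h3 (Eventually.of_forall h1)
  have hJge : ∀ h : Matrix (Fin n) (Fin n) ℝ, 0 < h.det →
      I ≤ ∑ s, BalT (h * B' s * h⁻¹) := by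
    intro h hh
    refine Bal_usc (l := atTop) (C := fun m s => (h * g (φ m)) * B s * (h * g (φ m))⁻¹)
      (fun s => ?_) (fun s => Bal_detconj hh.ne' (hB'det s)) (Eventually.of_forall fun m => ?_)
    · have hc : Continuous fun X : Matrix (Fin n) (Fin n) ℝ => h * X * h⁻¹ :=
        (continuous_const.matrix_mul continuous_id).matrix_mul continuous_const
      have h1 := (hc.tendsto (B' s)).comp (hlims s)
      refine h1.congr fun m => ?_
      simp only [Function.comp_apply]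
      rw [Matrix.mul_inv_rev]
      simp only [Matrix.mul_assoc]
    · apply hImin
      rw [Matrix.det_mul]
      exact mul_pos hh (hg _)
  refine ⟨fun m => g (φ m), B', fun m => hg _, hB'det, hlims, ?_⟩
  set W := ∑ s, (lg (B' s * (B' s)ᵀ) - lg ((B' s)ᵀ * B' s)) with hWdef
  have hWs : Wᵀ = W := by
    rw [hWdef, Matrix.transpose_sum]
    refine Finset.sum_congr rfl fun s _ => ?_
    have h1 : (B' s * (B' s)ᵀ).PosDef := by
      have h2 : ((B' s)ᵀ).det ≠ 0 := by rw [Matrix.det_transpose]; exact hB'det s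
      have h3 := Bal_posDef h2
      rwa [Matrix.transpose_transpose] at h3
    rw [Matrix.transpose_sub, lg_transpose h1, lg_transpose (Bal_posDef (hB'det s))]
  set G : ℝ → Matrix (Fin n) (Fin n) ℝ := fun τ => 1 - τ • W with hG
  have hGd : ∀ᶠ τ in 𝓝[>] (0 : ℝ), 0 < (G τ).det := Bal_Gdet W
  have hGi : Tendsto (fun τ => (G τ)⁻¹) (𝓝[>] 0) (𝓝 1) := Bal_Ginv W
  set Vt : ℝ → Matrix (Fin n) (Fin n) ℝ := fun τ => (G τ)⁻¹ * W with hVt
  have hVlim : Tendsto Vt (𝓝[>] 0) (𝓝 W) := by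
    have hc : Continuous fun X : Matrix (Fin n) (Fin n) ℝ => X * W :=
      continuous_id.matrix_mul continuous_const
    have h1 := (hc.tendsto 1).comp hGi
    rw [Matrix.one_mul] at h1
    exact h1
  have hGinv : ∀ τ, 0 < (G τ).det → (G τ)⁻¹ = 1 + τ • Vt τ := by
    intro τ hτ
    have h1 : (G τ)⁻¹ * G τ = 1 := Matrix.nonsing_inv_mul _ (isUnit_iff_ne_zero.2 hτ.ne')
    have h2 : (G τ)⁻¹ * G τ = (G τ)⁻¹ - τ • ((G τ)⁻¹ * W) := by
      simp only [hG, Matrix.mul_sub, Matrix.mul_one, Matrix.mul_smul]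
    rw [h2, sub_eq_iff_eq_add] at h1
    exact h1
  set Dt : ℝ → S → Matrix (Fin n) (Fin n) ℝ := fun τ s =>
    B' s * Vt τ - W * B' s - τ • (W * B' s * Vt τ) with hDt
  have hconj : ∀ τ s, 0 < (G τ).det → G τ * B' s * (G τ)⁻¹ = B' s + τ • Dt τ s := by
    intro τ s hτ
    rw [hGinv τ hτ]
    simp only [hG, hDt, Matrix.sub_mul, Matrix.mul_add, Matrix.mul_one, Matrix.one_mul,
      Matrix.mul_smul, Matrix.smul_mul, smul_sub]
    abel
  have hτ0 : Tendsto (fun τ : ℝ => τ) (𝓝[>] 0) (𝓝 0) := tendsto_id.mono_left nhdsWithin_le_nhds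
  have hDlim : ∀ s, Tendsto (fun τ => Dt τ s) (𝓝[>] 0) (𝓝 (B' s * W - W * B' s)) := by
    intro s
    have hc : Continuous fun p : ℝ × Matrix (Fin n) (Fin n) ℝ =>
        B' s * p.2 - W * B' s - p.1 • (W * B' s * p.2) :=
      ((continuous_const.matrix_mul continuous_snd).sub continuous_const).sub
        (continuous_fst.smul (continuous_const.matrix_mul continuous_snd))
    have h1 := (hc.tendsto (0, W)).comp (hτ0.prodMk_nhds hVlim)
    simp only [zero_smul, sub_zero] at h1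
    exact h1
  set Et : ℝ → S → Matrix (Fin n) (Fin n) ℝ := fun τ s =>
    (Dt τ s)ᵀ * B' s + (B' s)ᵀ * Dt τ s + τ • ((Dt τ s)ᵀ * Dt τ s) with hEt
  have hElim : ∀ s, Tendsto (fun τ => Et τ s) (𝓝[>] 0)
      (𝓝 ((B' s * W - W * B' s)ᵀ * B' s + (B' s)ᵀ * (B' s * W - W * B' s))) := by
    intro s
    have hc : Continuous fun p : ℝ × Matrix (Fin n) (Fin n) ℝ =>
        (p.2)ᵀ * B' s + (B' s)ᵀ * p.2 + p.1 • ((p.2)ᵀ * p.2) :=
      ((continuous_snd.matrix_transpose.matrix_mul continuous_const).add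
        (continuous_const.matrix_mul continuous_snd)).add
        (continuous_fst.smul (continuous_snd.matrix_transpose.matrix_mul continuous_snd))
    have h1 := (hc.tendsto (0, B' s * W - W * B' s)).comp (hτ0.prodMk_nhds (hDlim s))
    simp only [zero_smul, add_zero] at h1
    exact h1
  have hN : ∀ τ s, (B' s + τ • Dt τ s)ᵀ * (B' s + τ • Dt τ s) - (B' s)ᵀ * B' s = τ • Et τ s := by
    intro τ s
    simp only [hEt, Matrix.transpose_add, Matrix.transpose_smul, Matrix.add_mul, Matrix.mul_add,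
      Matrix.mul_smul, Matrix.smul_mul, smul_add]
    abel
  have hconjlim : ∀ s, Tendsto (fun τ => G τ * B' s * (G τ)⁻¹) (𝓝[>] 0) (𝓝 (B' s)) := by
    intro s
    have hc : Continuous fun p : ℝ × Matrix (Fin n) (Fin n) ℝ =>
        ((1 : Matrix (Fin n) (Fin n) ℝ) - p.1 • W) * B' s * p.2 :=
      ((continuous_const.sub (continuous_fst.smul continuous_const)).matrix_mul
        continuous_const).matrix_mul continuous_snd
    have h1 := (hc.tendsto (0, 1)).comp (hτ0.prodMk_nhds hGi)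
    simp only [zero_smul, sub_zero, Matrix.one_mul, Matrix.mul_one] at h1
    exact h1
  have hup := fun s => Bal_up (hconjlim s) (hB'det s)
  choose A hA0 hA using hup
  have hineq : ∀ᶠ τ in 𝓝[>] (0 : ℝ), 0 ≤ ∑ s, (2 * (lg ((B' s)ᵀ * B' s) *
      ((B' s)ᵀ * B' s)⁻¹ * Et τ s).trace + A s * τ * (Et τ s * Et τ s).trace) := by
    filter_upwards [hGd, eventually_all.2 hA, self_mem_nhdsWithin] with τ h1 h2 h3
    have hτ : 0 < τ := h3
    have h4 := hJge (G τ) h1
    have h5 : ∀ s, BalT (G τ * B' s * (G τ)⁻¹) ≤ BalT (B' s) + τ * (2 * (lg ((B' s)ᵀ * B' s) *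
        ((B' s)ᵀ * B' s)⁻¹ * Et τ s).trace + A s * τ * (Et τ s * Et τ s).trace) := by
      intro s
      have h6 := h2 s
      have h7 : (G τ * B' s * (G τ)⁻¹)ᵀ * (G τ * B' s * (G τ)⁻¹) - (B' s)ᵀ * B' s =
          τ • Et τ s := by
        rw [hconj τ s h1]
        exact hN τ s
      rw [h7, Matrix.mul_smul, Matrix.smul_mul, Matrix.mul_smul, Matrix.trace_smul,
        Matrix.trace_smul, Matrix.trace_smul] at h6
      simp only [smul_eq_mul] at h6
      linarith
    have h6 : ∑ s, BalT (G τ * B' s * (G τ)⁻¹) ≤ ∑ s, BalT (B' s) +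
        τ * ∑ s, (2 * (lg ((B' s)ᵀ * B' s) *
        ((B' s)ᵀ * B' s)⁻¹ * Et τ s).trace + A s * τ * (Et τ s * Et τ s).trace) := by
      rw [Finset.mul_sum, ← Finset.sum_add_distrib]
      exact Finset.sum_le_sum fun s _ => h5 s
    have h7 : 0 ≤ τ * ∑ s, (2 * (lg ((B' s)ᵀ * B' s) *
        ((B' s)ᵀ * B' s)⁻¹ * Et τ s).trace + A s * τ * (Et τ s * Et τ s).trace) := by
      linarith
    exact nonneg_of_mul_nonneg_right h7 hτ
  have hlimfin : ∀ s, Tendsto (fun τ => 2 * (lg ((B' s)ᵀ * B' s) *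
      ((B' s)ᵀ * B' s)⁻¹ * Et τ s).trace + A s * τ * (Et τ s * Et τ s).trace) (𝓝[>] 0)
      (𝓝 (2 * (2 * ((lg ((B' s)ᵀ * B' s) - lg (B' s * (B' s)ᵀ)) * W).trace))) := by
    intro s
    have hc : Continuous fun p : ℝ × Matrix (Fin n) (Fin n) ℝ => 2 * (lg ((B' s)ᵀ * B' s) *
        ((B' s)ᵀ * B' s)⁻¹ * p.2).trace + A s * p.1 * (p.2 * p.2).trace :=
      (continuous_const.mul (continuous_const.matrix_mul continuous_snd).matrix_trace).add
        ((continuous_const.mul continuous_fst).mul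
          (continuous_snd.matrix_mul continuous_snd).matrix_trace)
    have h1 := (hc.tendsto (0, (B' s * W - W * B' s)ᵀ * B' s +
      (B' s)ᵀ * (B' s * W - W * B' s))).comp (hτ0.prodMk_nhds (hElim s))
    simp only [mul_zero, zero_mul, add_zero] at h1
    rw [Bal_first (hB'det s) hWs] at h1
    exact h1
  have hfin := ge_of_tendsto (tendsto_finsetSum Finset.univ fun s _ => hlimfin s) hineq
  have hsum : ∑ s, (2 * (2 * ((lg ((B' s)ᵀ * B' s) - lg (B' s * (B' s)ᵀ)) * W).trace)) =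
      -(4 * (W * W).trace) := by
    have h1 : (W * W).trace = ∑ s, ((lg (B' s * (B' s)ᵀ) - lg ((B' s)ᵀ * B' s)) * W).trace := by
      conv_lhs => rw [hWdef]
      rw [Matrix.sum_mul, Matrix.trace_sum]
    rw [h1, Finset.mul_sum, ← Finset.sum_neg_distrib]
    refine Finset.sum_congr rfl fun s _ => ?_
    have h2 : lg ((B' s)ᵀ * B' s) - lg (B' s * (B' s)ᵀ) =
        -(lg (B' s * (B' s)ᵀ) - lg ((B' s)ᵀ * B' s)) := by abel
    rw [h2, Matrix.neg_mul, Matrix.trace_neg]
    ring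
  rw [hsum, Bal_trace_sq hWs] at hfin
  have hz : ∑ i, ∑ j, (W i j) ^ 2 = 0 :=
    le_antisymm (by linarith)
      (Finset.sum_nonneg fun _ _ => Finset.sum_nonneg fun _ _ => sq_nonneg _)
  ext i j
  have h1 := (Finset.sum_eq_zero_iff_of_nonneg
    (fun i _ => Finset.sum_nonneg fun j _ => sq_nonneg (W i j))).1 hz i (Finset.mem_univ i)
  have h2 := (Finset.sum_eq_zero_iff_of_nonneg
    (fun j _ => sq_nonneg (W i j))).1 h1 j (Finset.mem_univ j)
  exact pow_eq_zero_iff (two_ne_zero) |>.1 h2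

end Pool.Agent.ChP
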