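import Pool.Agent.ChP.EpsAlg

/-!
# Basic properties of the averaged cocycle

The integrand is bounded by `∏ |p i (s i)|`, whose integral is a product (Fubini for finite
products).  Multilinearity is clear.  Antisymmetry: the transposition of two coordinates of
`Fin (n+1) → ℝ^n` preserves the measure.  `CC_push`: change of variables `s i = g *ᵥ s' i` in
every coordinate and `eps_mulVec`.  Cocycle identity: integrate `eps_cocycle` against
`∏ p i (s i)` over `Fin (n+2) → ℝ^n`; the exceptional set (some `n` of the vectors dependent) is a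
null set, and `∫ eps (s ∘ j.succAbove) ∏ p i (s i) = (∫ p j) * CC (p ∘ j.succAbove)` by Fubini.
-/

namespace Pool.Agent.ChP

open MeasureTheory Matrix

private theorem CCBasic_prod {n : ℕ} (p : Fin (n + 1) → (Fin n → ℝ) → ℝ)
    (hp : ∀ i, Integrable (p i)) :
    Integrable (fun s : Fin (n + 1) → Fin n → ℝ => ∏ i, p i (s i)) :=
  Integrable.fintype_prod hp

private theorem CCBasic_upd {n : ℕ} (p : Fin (n + 1) → (Fin n → ℝ) → ℝ) (i : Fin (n + 1))
    (f : (Fin n → ℝ) → ℝ) (s : Fin (n + 1) → Fin n → ℝ) :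
    ∏ j, Function.update p i f j (s j) = f (s i) * ∏ j ∈ Finset.univ.erase i, p j (s j) := by
  rw [← Finset.mul_prod_erase Finset.univ _ (Finset.mem_univ i), Function.update_self]
  congr 1
  refine Finset.prod_congr rfl fun j hj => ?_
  rw [Function.update_of_ne (Finset.ne_of_mem_erase hj)]

private theorem CCBasic_int_upd {n : ℕ} (p : Fin (n + 1) → (Fin n → ℝ) → ℝ)
    (hp : ∀ i, Integrable (p i)) (i : Fin (n + 1)) (f : (Fin n → ℝ) → ℝ) (hf : Integrable f) :
    ∀ j, Integrable (Function.update p i f j) := by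
  intro j
  by_cases h : j = i
  · subst h
    rw [Function.update_self]
    exact hf
  · rw [Function.update_of_ne h]
    exact hp j

theorem CC_integrable {n : ℕ} (p : Fin (n + 1) → (Fin n → ℝ) → ℝ) (hp : ∀ i, Integrable (p i)) :
    Integrable (fun s : Fin (n + 1) → Fin n → ℝ => eps s * ∏ i, p i (s i)) := by
  refine (CCBasic_prod p hp).bdd_mul (c := 1) measurable_eps.aestronglyMeasurable ?_
  exact Filter.Eventually.of_forall fun s => by
    rw [Real.norm_eq_abs]
    exact abs_eps_le s

theorem abs_CC_le {n : ℕ} (p : Fin (n + 1) → (Fin n → ℝ) → ℝ) (hp : ∀ i, Integrable (p i)) :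
    |CC p| ≤ ∏ i, ∫ x, |p i x| := by
  unfold CC
  have h1 : |∫ s : Fin (n + 1) → Fin n → ℝ, eps s * ∏ i, p i (s i)| ≤
      ∫ s : Fin (n + 1) → Fin n → ℝ, ∏ i, |p i (s i)| := by
    rw [← Real.norm_eq_abs]
    refine norm_integral_le_of_norm_le (Integrable.fintype_prod fun i => (hp i).abs) ?_
    refine Filter.Eventually.of_forall fun s => ?_
    rw [norm_mul, Real.norm_eq_abs, Real.norm_eq_abs, Finset.abs_prod]
    have h2 : 0 ≤ ∏ i, |p i (s i)| := Finset.prod_nonneg fun i _ => abs_nonneg _
    calc |eps s| * ∏ i, |p i (s i)| ≤ 1 * ∏ i, |p i (s i)| :=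
          mul_le_mul_of_nonneg_right (abs_eps_le s) h2
      _ = _ := one_mul _
  refine h1.trans (le_of_eq ?_)
  exact integral_fintype_prod_volume_eq_prod (fun i x => |p i x|)

theorem CC_update_add {n : ℕ} (p : Fin (n + 1) → (Fin n → ℝ) → ℝ) (hp : ∀ i, Integrable (p i))
    (i : Fin (n + 1)) (f g : (Fin n → ℝ) → ℝ) (hf : Integrable f) (hg : Integrable g) :
    CC (Function.update p i (fun x => f x + g x)) =
      CC (Function.update p i f) + CC (Function.update p i g) := by
  have h1 := CC_integrable _ (CCBasic_int_upd p hp i f hf)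
  have h2 := CC_integrable _ (CCBasic_int_upd p hp i g hg)
  unfold CC
  rw [← integral_add h1 h2]
  refine integral_congr_ae (Filter.Eventually.of_forall fun s => ?_)
  simp only [CCBasic_upd]
  ring

theorem CC_update_smul {n : ℕ} (p : Fin (n + 1) → (Fin n → ℝ) → ℝ)
    (i : Fin (n + 1)) (c : ℝ) (f : (Fin n → ℝ) → ℝ) :
    CC (Function.update p i (fun x => c * f x)) = c * CC (Function.update p i f) := by
  unfold CC
  rw [← integral_const_mul]
  refine integral_congr_ae (Filter.Eventually.of_forall fun s => ?_)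
  simp only [CCBasic_upd]
  ring

theorem CC_eq_zero_of_eq {n : ℕ} (p : Fin (n + 1) → (Fin n → ℝ) → ℝ)
    (i j : Fin (n + 1)) (hij : i ≠ j) (h : p i = p j) : CC p = 0 := by
  have hmp := volume_measurePreserving_piCongrLeft (fun _ : Fin (n + 1) => Fin n → ℝ)
    (Equiv.swap i j)
  have hev : ∀ (s : Fin (n + 1) → Fin n → ℝ),
      (MeasurableEquiv.piCongrLeft (fun _ : Fin (n + 1) => Fin n → ℝ) (Equiv.swap i j)) s =
        fun k => s (Equiv.swap i j k) := by
    intro s
    funext k
    have h1 := MeasurableEquiv.piCongrLeft_apply_apply (β := fun _ : Fin (n + 1) => Fin n → ℝ)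
      (Equiv.swap i j) s (Equiv.swap i j k)
    rw [Equiv.swap_apply_self] at h1
    exact h1
  have h1 := hmp.integral_comp' (g := fun s : Fin (n + 1) → Fin n → ℝ => eps s * ∏ k, p k (s k))
  have h2 : ∀ s : Fin (n + 1) → Fin n → ℝ, ∏ k, p k (s (Equiv.swap i j k)) = ∏ k, p k (s k) := by
    intro s
    rw [← Equiv.prod_comp (Equiv.swap i j) fun k => p k (s k)]
    refine Finset.prod_congr rfl fun k _ => ?_
    have h5 : p (Equiv.swap i j k) = p k := by
      by_cases hk : k = i
      · rw [hk, Equiv.swap_apply_left, h]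
      · by_cases hk' : k = j
        · rw [hk', Equiv.swap_apply_right, h]
        · rw [Equiv.swap_apply_of_ne_of_ne hk hk']
    rw [h5]
  simp only [hev, h2, eps_perm, Equiv.Perm.sign_swap hij] at h1
  have h3 : ∫ s : Fin (n + 1) → Fin n → ℝ, eps s * ∏ k, p k (s k) =
      -∫ s : Fin (n + 1) → Fin n → ℝ, eps s * ∏ k, p k (s k) := by
    rw [← integral_neg]
    refine h1.symm.trans ?_
    refine integral_congr_ae (Filter.Eventually.of_forall fun s => ?_)
    push_cast
    ring
  unfold CC
  linarith

theorem CC_push {n : ℕ} (g : Matrix (Fin n) (Fin n) ℝ) (hg : g.det ≠ 0)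
    (p : Fin (n + 1) → (Fin n → ℝ) → ℝ) :
    CC (fun i => push g (p i)) = Real.sign g.det * CC p := by
  have hG : (0 : ℝ) < |g.det|⁻¹ := inv_pos.2 (abs_pos.2 hg)
  have hgi : g⁻¹ * g = 1 := Matrix.nonsing_inv_mul g (isUnit_iff_ne_zero.2 hg)
  have hmap : Measure.map (fun s : Fin (n + 1) → Fin n → ℝ => fun i => g *ᵥ s i) volume =
      ENNReal.ofReal (|g.det|⁻¹ ^ (n + 1)) • volume := by
    have h1 : Measure.map (fun x : Fin n → ℝ => g *ᵥ x) volume =
        ENNReal.ofReal |g.det|⁻¹ • volume := by
      have := Real.map_matrix_volume_pi_eq_smul_volume_pi hg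
      rw [abs_inv] at this
      exact this
    have hm : Measurable (fun x : Fin n → ℝ => g *ᵥ x) :=
      (Matrix.toLin' g).continuous_of_finiteDimensional.measurable
    have hs : SigmaFinite (Measure.map (fun x : Fin n → ℝ => g *ᵥ x) volume) := by
      rw [h1]
      have h0 : ENNReal.ofReal |g.det|⁻¹ ≠ 0 := (ENNReal.ofReal_pos.2 hG).ne'
      have := Measure.IsAddHaarMeasure.smul (volume : Measure (Fin n → ℝ)) h0 ENNReal.ofReal_ne_top
      infer_instance
    have h2 : Measure.map (fun s : Fin (n + 1) → Fin n → ℝ => fun i => g *ᵥ s i) volume =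
        Measure.pi fun _ : Fin (n + 1) => Measure.map (fun x : Fin n → ℝ => g *ᵥ x) volume :=
      Measure.pi_map_pi (μ := fun _ : Fin (n + 1) => (volume : Measure (Fin n → ℝ)))
        fun _ => hm.aemeasurable
    rw [h2]
    refine Measure.pi_eq fun t ht => ?_
    rw [h1]
    simp only [Measure.smul_apply, smul_eq_mul, Finset.prod_mul_distrib, Finset.prod_const,
      Finset.card_univ, Fintype.card_fin]
    rw [ENNReal.ofReal_pow hG.le, volume_pi_pi]
  have hM : MeasurableEmbedding (fun s : Fin (n + 1) → Fin n → ℝ => fun i => g *ᵥ s i) := by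
    have hc : Continuous (fun s : Fin (n + 1) → Fin n → ℝ => fun i => g *ᵥ s i) := by
      refine continuous_pi fun i => ?_
      exact (Matrix.toLin' g).continuous_of_finiteDimensional.comp (continuous_apply i)
    refine hc.measurableEmbedding ?_
    intro s t hst
    funext i
    have h3 := congrFun hst i
    have h4 := congrArg (fun v => g⁻¹ *ᵥ v) h3
    simp only [Matrix.mulVec_mulVec, hgi, Matrix.one_mulVec] at h4
    exact h4
  have h1 := hM.integral_map (μ := volume)
    (fun s : Fin (n + 1) → Fin n → ℝ => eps s * ∏ i, push g (p i) (s i))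
  rw [hmap, integral_smul_measure, ENNReal.toReal_ofReal (by positivity), smul_eq_mul] at h1
  have h2 : ∀ s : Fin (n + 1) → Fin n → ℝ,
      eps (fun i => g *ᵥ s i) * ∏ i, push g (p i) (g *ᵥ s i) =
        (|g.det|⁻¹ ^ (n + 1) * Real.sign g.det) * (eps s * ∏ i, p i (s i)) := by
    intro s
    have h3 : ∏ i, push g (p i) (g *ᵥ s i) = |g.det|⁻¹ ^ (n + 1) * ∏ i, p i (s i) := by
      unfold push
      rw [Finset.prod_mul_distrib, Finset.prod_const, Finset.card_univ, Fintype.card_fin]
      congr 1
      refine Finset.prod_congr rfl fun i _ => ?_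
      rw [Matrix.mulVec_mulVec, hgi, Matrix.one_mulVec]
    rw [h3, eps_mulVec]
    ring
  simp only [h2] at h1
  rw [integral_const_mul, mul_assoc] at h1
  exact mul_left_cancel₀ (by positivity) h1

/-- Almost every tuple of vectors is in general position. -/
theorem ae_det_ne_zero {n k : ℕ} (e : Fin n ↪ Fin k) :
    ∀ᵐ s : Fin k → Fin n → ℝ, Matrix.det (Matrix.of fun a b => s (e a) b) ≠ 0 := by
  have hcont : Continuous fun s : Fin k → Fin n → ℝ =>
      Matrix.det (Matrix.of fun a b => s (e a) b) := by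
    refine Continuous.matrix_det ?_
    refine continuous_pi fun a => continuous_pi fun b => ?_
    exact (continuous_apply b).comp (continuous_apply (e a))
  have hmeas : MeasurableSet {s : Fin k → Fin n → ℝ |
      Matrix.det (Matrix.of fun a b => s (e a) b) ≠ 0} :=
    (hcont.measurable (measurableSet_singleton 0)).compl
  let v : Fin k → Fin n → ℝ := fun c b => if e b = c then 1 else 0
  refine ae_mem_of_ae_add_linearMap_mem (LinearMap.toSpanSingleton ℝ _ v) (volume : Measure ℝ)
    volume hmeas fun s => ?_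
  have hfin : {t : ℝ | ¬ (s + LinearMap.toSpanSingleton ℝ _ v t ∈ {s : Fin k → Fin n → ℝ |
      Matrix.det (Matrix.of fun a b => s (e a) b) ≠ 0})}.Finite := by
    have hpoly : (-(Matrix.of fun a b => s (e a) b)).charpoly ≠ 0 :=
      (Matrix.charpoly_monic _).ne_zero
    refine (Polynomial.finite_setOfPred_isRoot hpoly).subset fun t ht => ?_
    have ht' : Matrix.det (Matrix.of fun a b => (s + LinearMap.toSpanSingleton ℝ _ v t) (e a) b)
        = 0 := not_not.1 ht
    change Polynomial.eval t _ = 0
    rw [Matrix.eval_charpoly, ← ht']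
    congr 1
    ext a b
    simp only [LinearMap.toSpanSingleton_apply, Matrix.scalar_apply, Matrix.sub_apply,
      Matrix.neg_apply, Matrix.of_apply, Pi.add_apply, Pi.smul_apply, smul_eq_mul, v]
    rcases eq_or_ne a b with rfl | hab
    · simp
      ring
    · have h3 : e b ≠ e a := fun h => hab (e.injective h).symm
      simp [hab, h3]
  exact hfin.countable.ae_notMem (volume : Measure ℝ) |>.mono fun t ht => not_not.1 ht

theorem CC_cocycle {n : ℕ} (p : Fin (n + 2) → (Fin n → ℝ) → ℝ) (hp : ∀ i, Integrable (p i)) :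
    ∑ j : Fin (n + 2), (-1) ^ (j : ℕ) *
      ((∫ x, p j x) * CC (fun i => p (j.succAbove i))) = 0 := by
  have hint : ∀ j : Fin (n + 2), Integrable (fun s : Fin (n + 2) → Fin n → ℝ =>
      eps (fun i => s (j.succAbove i)) * ∏ i, p i (s i)) := by
    intro j
    have h1 : Integrable (fun s : Fin (n + 2) → Fin n → ℝ => ∏ i, p i (s i)) :=
      Integrable.fintype_prod hp
    refine h1.bdd_mul (c := 1) ?_ ?_
    · refine (measurable_eps.comp ?_).aestronglyMeasurable
      exact measurable_pi_lambda _ fun i => measurable_pi_apply _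
    · exact Filter.Eventually.of_forall fun s => by
        rw [Real.norm_eq_abs]
        exact abs_eps_le _
  have hval : ∀ j : Fin (n + 2), ∫ s : Fin (n + 2) → Fin n → ℝ,
      eps (fun i => s (j.succAbove i)) * ∏ i, p i (s i) =
        (∫ x, p j x) * CC (fun i => p (j.succAbove i)) := by
    intro j
    have hmp := volume_preserving_piFinSuccAbove (fun _ : Fin (n + 2) => Fin n → ℝ) j
    have h1 := hmp.integral_comp' (g := fun z : (Fin n → ℝ) × (Fin (n + 1) → Fin n → ℝ) =>
      p j z.1 * (eps z.2 * ∏ i, p (j.succAbove i) (z.2 i)))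
    have h2 : ∀ s : Fin (n + 2) → Fin n → ℝ,
        p j ((MeasurableEquiv.piFinSuccAbove (fun _ : Fin (n + 2) => Fin n → ℝ) j) s).1 *
        (eps ((MeasurableEquiv.piFinSuccAbove (fun _ : Fin (n + 2) => Fin n → ℝ) j) s).2 *
        ∏ i, p (j.succAbove i)
          (((MeasurableEquiv.piFinSuccAbove (fun _ : Fin (n + 2) => Fin n → ℝ) j) s).2 i)) =
        eps (fun i => s (j.succAbove i)) * ∏ i, p i (s i) := by
      intro s
      rw [Fin.prod_univ_succAbove _ j]
      change p j (s j) * (eps (fun i => s (j.succAbove i)) *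
        ∏ i, p (j.succAbove i) (s (j.succAbove i))) = _
      ring
    simp only [h2] at h1
    rw [h1, Measure.volume_eq_prod]
    exact integral_prod_mul (p j)
      (fun s : Fin (n + 1) → Fin n → ℝ => eps s * ∏ i, p (j.succAbove i) (s i))
  have hzero : ∀ᵐ s : Fin (n + 2) → Fin n → ℝ, ∑ j : Fin (n + 2), (-1) ^ (j : ℕ) *
      (eps (fun i => s (j.succAbove i)) * ∏ i, p i (s i)) = 0 := by
    have h1 : ∀ᵐ s : Fin (n + 2) → Fin n → ℝ, ∀ e : Fin n ↪o Fin (n + 2),
        Matrix.det (Matrix.of fun a b => s (e a) b) ≠ 0 :=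
      ae_all_iff.2 fun e => ae_det_ne_zero e.toEmbedding
    filter_upwards [h1] with s hs
    have h2 := eps_cocycle s hs
    have h3 : ∑ j : Fin (n + 2), (-1) ^ (j : ℕ) *
        (eps (fun i => s (j.succAbove i)) * ∏ i, p i (s i)) =
        (∑ j : Fin (n + 2), (-1) ^ (j : ℕ) * eps (fun i => s (j.succAbove i))) *
          ∏ i, p i (s i) := by
      rw [Finset.sum_mul]
      exact Finset.sum_congr rfl fun j _ => by ring
    rw [h3, h2, zero_mul]
  have h1 : ∫ s : Fin (n + 2) → Fin n → ℝ, ∑ j : Fin (n + 2), (-1) ^ (j : ℕ) *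
      (eps (fun i => s (j.succAbove i)) * ∏ i, p i (s i)) = 0 := by
    rw [integral_congr_ae hzero]
    exact integral_zero _ _
  rw [integral_finsetSum _ fun j _ => (hint j).const_mul _] at h1
  rw [← h1]
  refine Finset.sum_congr rfl fun j _ => ?_
  rw [integral_const_mul, hval j]

end Pool.Agent.ChP
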