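import Mathlib

/-!
# The squared norm of a complex homogeneous polynomial on real vectors
-/

namespace Pool.Agent.ChP

open MvPolynomial

theorem exists_real_normSq {n d : ℕ} (f : MvPolynomial (Fin n) ℂ) (hf : f.IsHomogeneous d) :
    ∃ g : MvPolynomial (Fin n) ℝ, g.IsHomogeneous (d + d) ∧
      ∀ v : Fin n → ℝ, eval v g = Complex.normSq (eval (fun i => (v i : ℂ)) f) := by
  classical
  obtain ⟨a, ha⟩ : ∃ a : MvPolynomial (Fin n) ℝ,
      a = ∑ m ∈ f.support, monomial m (coeff m f).re := ⟨_, rfl⟩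
  obtain ⟨b, hb⟩ : ∃ b : MvPolynomial (Fin n) ℝ,
      b = ∑ m ∈ f.support, monomial m (coeff m f).im := ⟨_, rfl⟩
  have hdeg : ∀ m ∈ f.support, m.degree = d := by
    intro m hm
    by_contra h
    exact (mem_support_iff.1 hm) (hf.coeff_eq_zero h)
  have ha' : a.IsHomogeneous d := by
    rw [ha]
    exact IsHomogeneous.sum _ _ _ fun m hm => isHomogeneous_monomial _ (hdeg m hm)
  have hb' : b.IsHomogeneous d := by
    rw [hb]
    exact IsHomogeneous.sum _ _ _ fun m hm => isHomogeneous_monomial _ (hdeg m hm)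
  refine ⟨a * a + b * b, (ha'.mul ha').add (hb'.mul hb'), fun v => ?_⟩
  have hmon : ∀ m : Fin n →₀ ℕ, (∏ i ∈ m.support, ((v i : ℂ)) ^ m i) =
      ((∏ i ∈ m.support, (v i) ^ m i : ℝ) : ℂ) := by
    intro m
    push_cast
    rfl
  have h1 : eval (fun i => (v i : ℂ)) f =
      ∑ m ∈ f.support, coeff m f * ((∏ i ∈ m.support, (v i) ^ m i : ℝ) : ℂ) := by
    rw [eval_eq]
    exact Finset.sum_congr rfl fun m _ => by rw [hmon]
  have h2 : eval v a = (eval (fun i => (v i : ℂ)) f).re := by
    rw [h1, Complex.re_sum, ha, map_sum]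
    refine Finset.sum_congr rfl fun m _ => ?_
    rw [Complex.re_mul_ofReal, eval_monomial, Finsupp.prod]
  have h3 : eval v b = (eval (fun i => (v i : ℂ)) f).im := by
    rw [h1, Complex.im_sum, hb, map_sum]
    refine Finset.sum_congr rfl fun m _ => ?_
    rw [Complex.im_mul_ofReal, eval_monomial, Finsupp.prod]
  rw [map_add, map_mul, map_mul, h2, h3, Complex.normSq_apply]

end Pool.Agent.ChP
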