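import Pool.Agent.ChP.IndexLim
import Pool.Agent.ChP.SubRep
import Pool.Agent.ChP.CxPoly
import Pool.Agent.ChP.Restrict
import Pool.Agent.ChP.LocIdx

/-!
# The Euler characteristic vanishes: invariant subspaces, finite coverings, complex polynomials
-/

namespace Pool.Agent.ChP

open Matrix

namespace AffineTriangulation

theorem eulerChar_eq_zero_of_limit {n : ℕ} (K : AffineTriangulation n) (hn : 0 < n)
    {d : ℕ} (hd : 0 < d) (T : Ten d n) (hT : TSym T)
    (hT0 : T ≠ 0) (κ : K.Γ →* ℝ) (hκ : ∀ γ, 0 < κ γ)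
    (ρ' : K.Γ →* Matrix (Fin n) (Fin n) ℝ) (gN : ℕ → Matrix (Fin n) (Fin n) ℝ)
    (hgN : ∀ N, 0 < (gN N).det)
    (hlimN : ∀ γ, Filter.Tendsto (fun N => gN N * (κ γ • K.lin γ) * (gN N)⁻¹) Filter.atTop
      (nhds (ρ' γ)))
    (hfix : ∀ γ, Fixes T (ρ' γ)) :
    K.eulerChar = 0 := by
  obtain ⟨R, hR⟩ := K.exists_reps
  obtain ⟨w, hw, hg⟩ := K.exists_generic hR
  have hz := K.index_zero_lim hn hd T hT hT0 κ hκ ρ' gN hgN hlimN hfix hR w hw hg
  have hdisj : ∀ σ ∈ R, ∀ τ ∈ R, σ ≠ τ → Disjoint (K.chainsFrom σ) (K.chainsFrom τ) := by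
    intro σ _ τ _ hne
    rw [Finset.disjoint_left]
    intro t ht ht'
    rw [K.mem_chainsFrom] at ht ht'
    exact hne (ht.2.symm.trans ht'.2)
  classical
  rw [chainReps, Finset.sum_biUnion hdisj,
    Finset.sum_congr rfl (fun σ hσ => K.local_index (hR.1 σ hσ) (hg σ (hR.1 σ hσ)))] at hz
  have he := K.eulerChar_eq hR
  have hr : (K.eulerChar : ℝ) = (-1) ^ n * ∑ σ ∈ R, (-1 : ℝ) ^ (n + 1 - σ.card) := by
    rw [he]
    push_cast
    rw [Finset.mul_sum]
    refine Finset.sum_congr rfl fun σ hσ => ?_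
    have hc := K.card_le (hR.1 σ hσ)
    rw [← pow_add]
    have h2 : (-1 : ℝ) ^ (σ.card + 1) * (-1) ^ (n + (n + 1 - σ.card)) = 1 := by
      rw [← pow_add]
      have : σ.card + 1 + (n + (n + 1 - σ.card)) = 2 * (n + 1) := by omega
      rw [this, pow_mul]
      simp
    have h3 : (-1 : ℝ) ^ (σ.card + 1) * (-1) ^ (σ.card + 1) = 1 := by
      rw [← pow_add, ← two_mul, pow_mul]
      simp
    have h4 : (-1 : ℝ) ^ (σ.card + 1) ≠ 0 := by simp
    exact mul_left_cancel₀ h4 (h3.trans h2.symm)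
  rw [hz, mul_zero] at hr
  exact_mod_cast hr

theorem lin_mulVec_eq {n : ℕ} (K : AffineTriangulation n) (γ : K.Γ) (v : Fin n → ℝ) :
    K.lin γ *ᵥ v = (K.hol γ).linear v := by
  have : K.lin γ =
      LinearMap.toMatrix' ((K.hol γ).linear : (Fin n → ℝ) →ₗ[ℝ] (Fin n → ℝ)) := rfl
  rw [this, ← Matrix.toLin'_apply, Matrix.toLin'_toMatrix']
  rfl

/-- Version with a polynomial on an invariant subspace. -/
theorem eulerChar_eq_zero_of_invariant {n : ℕ} (K : AffineTriangulation n)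
    (W : Submodule ℝ (Fin n → ℝ)) (hW : ∀ γ : K.Γ, ∀ v ∈ W, (K.hol γ).linear v ∈ W)
    {d : ℕ} (hd : 0 < d) (f : MvPolynomial (Fin n) ℝ) (hf : f.IsHomogeneous d)
    (h0 : ∃ v ∈ W, MvPolynomial.eval v f ≠ 0)
    (h : ∀ γ : K.Γ, ∃ c : ℝ, ∀ v ∈ W,
      MvPolynomial.eval ((K.hol γ).linear v) f = c * MvPolynomial.eval v f) :
    K.eulerChar = 0 := by
  rcases Nat.eq_zero_or_pos n with hn | hn
  · subst hn
    exfalso
    obtain ⟨v, -, hne⟩ := h0
    have : f = 0 := by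
      ext m
      by_contra hm
      have h1 := hf hm
      have h2 : m = 0 := Subsingleton.elim _ _
      rw [h2] at h1
      simp at h1
      omega
    rw [this, map_zero] at hne
    exact hne rfl
  obtain ⟨T, κ, ρ', gN, hT, hT0, hκ, hgN, hlim, hfix⟩ := exists_limit_data K.lin W
    (fun γ v hv => by
      rw [K.lin_mulVec_eq]
      exact hW γ v hv) hd f hf h0 (fun γ => by
      obtain ⟨c, hc⟩ := h γ
      refine ⟨c, fun v hv => ?_⟩
      rw [K.lin_mulVec_eq]
      exact hc v hv)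
  exact K.eulerChar_eq_zero_of_limit hn hd T hT hT0 κ hκ ρ' gN hgN hlim hfix

/-- General version: a complex polynomial on a subspace, both invariant (up to scalars) under the
linear holonomy of a finite covering. -/
theorem eulerChar_eq_zero_of_virtual {n : ℕ} (K : AffineTriangulation n)
    (H : Subgroup K.Γ) (hH : H.FiniteIndex)
    (W : Submodule ℝ (Fin n → ℝ)) (hW : ∀ γ ∈ H, ∀ v ∈ W, (K.hol γ).linear v ∈ W)
    {d : ℕ} (hd : 0 < d) (f : MvPolynomial (Fin n) ℂ) (hf : f.IsHomogeneous d)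
    (h0 : ∃ v ∈ W, MvPolynomial.eval (fun i => (v i : ℂ)) f ≠ 0)
    (h : ∀ γ ∈ H, ∃ c : ℂ, ∀ v ∈ W,
      MvPolynomial.eval (fun i => ((K.hol γ).linear v i : ℂ)) f =
        c * MvPolynomial.eval (fun i => (v i : ℂ)) f) :
    K.eulerChar = 0 := by
  obtain ⟨g, hg, hgv⟩ := exists_real_normSq f hf
  have h1 : (K.restrict H).eulerChar = 0 := by
    have hWH : ∀ γ : H, ∀ v ∈ W, (K.hol (γ : K.Γ)).linear v ∈ W := fun γ v hv => hW γ γ.2 v hv
    have hfH : ∀ γ : H, ∃ c : ℝ, ∀ v ∈ W,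
        MvPolynomial.eval ((K.hol (γ : K.Γ)).linear v) g = c * MvPolynomial.eval v g := by
      intro γ
      obtain ⟨c, hc⟩ := h γ γ.2
      refine ⟨Complex.normSq c, fun v hv => ?_⟩
      rw [hgv, hgv, hc v hv, Complex.normSq_mul]
    have h0' : ∃ v ∈ W, MvPolynomial.eval v g ≠ 0 := by
      obtain ⟨v, hv, hne⟩ := h0
      refine ⟨v, hv, ?_⟩
      rw [hgv]
      intro h2
      exact hne (Complex.normSq_eq_zero.1 h2)
    exact (K.restrict H).eulerChar_eq_zero_of_invariant W hWH (d := d + d) (by omega) g hg h0' hfH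
  rw [K.restrict_eulerChar H] at h1
  rcases mul_eq_zero.1 h1 with h2 | h2
  · exfalso
    exact hH.index_ne_zero (by exact_mod_cast h2)
  · exact h2

end AffineTriangulation

end Pool.Agent.ChP
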