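import Pool.Agent.ChP.IndexZero
import Pool.Agent.ChP.LocIdx

/-!
# The Euler characteristic vanishes

`n = 0` is impossible (a homogeneous polynomial of positive degree in no variables is zero).
Choose `R` (`exists_reps`) and `w` (`exists_generic`); the sum of `index_zero` over `chainReps R`
is, by `local_index` (the `chainsFrom σ`, `σ ∈ R`, are disjoint),
`∑_{σ ∈ R} (-1)^{n+1-|σ|} = ± eulerChar` (`eulerChar_eq`, `card_le`).
-/

namespace Pool.Agent.ChP

open Matrix

namespace AffineTriangulation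

theorem eulerChar_eq_zero {n : ℕ} (K : AffineTriangulation n) {d : ℕ} (hd : 0 < d)
    (f : MvPolynomial (Fin n) ℝ) (hf : f.IsHomogeneous d) (h0 : f ≠ 0)
    (h : ∀ γ : K.Γ, ∃ c : ℝ, ∀ v : Fin n → ℝ,
      MvPolynomial.eval ((K.hol γ).linear v) f = c * MvPolynomial.eval v f) :
    K.eulerChar = 0 := by
  rcases Nat.eq_zero_or_pos n with hn | hn
  · subst hn
    exfalso
    apply h0
    ext m
    by_contra hm
    have h1 := hf hm
    have h2 : m = 0 := Subsingleton.elim _ _
    rw [h2] at h1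
    simp at h1
    omega
  have h' : ∀ γ : K.Γ, ∃ c : ℝ, ∀ v : Fin n → ℝ,
      MvPolynomial.eval (K.lin γ *ᵥ v) f = c * MvPolynomial.eval v f := by
    intro γ
    obtain ⟨c, hc⟩ := h γ
    refine ⟨c, fun v => ?_⟩
    have h1 : K.lin γ *ᵥ v = (K.hol γ).linear v := by
      have : K.lin γ =
          LinearMap.toMatrix' ((K.hol γ).linear : (Fin n → ℝ) →ₗ[ℝ] (Fin n → ℝ)) := rfl
      rw [this, ← Matrix.toLin'_apply, Matrix.toLin'_toMatrix']
      rfl
    rw [h1]
    exact hc v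
  obtain ⟨R, hR⟩ := K.exists_reps
  obtain ⟨w, hw, hg⟩ := K.exists_generic hR
  have hz := K.index_zero hn hd f hf h0 h' hR w hw hg
  have hdisj : ∀ σ ∈ R, ∀ τ ∈ R, σ ≠ τ → Disjoint (K.chainsFrom σ) (K.chainsFrom τ) := by
    intro σ _ τ _ hne
    rw [Finset.disjoint_left]
    intro t ht ht'
    rw [K.mem_chainsFrom] at ht ht'
    exact hne (ht.2.symm.trans ht'.2)
  classical
  rw [chainReps, Finset.sum_biUnion hdisj,
    Finset.sum_congr rfl (fun σ hσ => K.local_index (hR.1 σ hσ) (hg σ (hR.1 σ hσ)))] at hz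
  have he := K.eulerChar_eq hR
  have hr : (K.eulerChar : ℝ) = (-1) ^ n * ∑ σ ∈ R, (-1 : ℝ) ^ (n + 1 - σ.card) := by
    rw [he]
    push_cast
    rw [Finset.mul_sum]
    refine Finset.sum_congr rfl fun σ hσ => ?_
    have hc := K.card_le (hR.1 σ hσ)
    rw [← pow_add]
    have h2 : (-1 : ℝ) ^ (σ.card + 1) * (-1) ^ (n + (n + 1 - σ.card)) = 1 := by
      rw [← pow_add]
      have : σ.card + 1 + (n + (n + 1 - σ.card)) = 2 * (n + 1) := by omega
      rw [this, pow_mul]
      simp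
    have h3 : (-1 : ℝ) ^ (σ.card + 1) * (-1) ^ (σ.card + 1) = 1 := by
      rw [← pow_add, ← two_mul, pow_mul]
      simp
    have h4 : (-1 : ℝ) ^ (σ.card + 1) ≠ 0 := by simp
    exact mul_left_cancel₀ h4 (h3.trans h2.symm)
  rw [hz, mul_zero] at hr
  exact_mod_cast hr

end AffineTriangulation

end Pool.Agent.ChP
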