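import Mathlib

/-!
# Chains of intervals of finite sets: definitions
-/

namespace Pool.Agent.ChP

/-- the coefficient vector of `b_L - b_U` -/
noncomputable def ev {V : Type*} [DecidableEq V] (L U : Finset V) (v : V) : ℝ :=
  (if v ∈ L then (L.card : ℝ)⁻¹ else 0) - (if v ∈ U then (U.card : ℝ)⁻¹ else 0)

/-- a chain of intervals starting at `(σ, σ)`, `m` steps -/
structure CChain {V : Type*} (σ : Finset V) {m : ℕ}
    (t : Fin (m + 1) → Finset V × Finset V) : Prop where
  zero : t 0 = (σ, σ)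
  nonempty : ∀ i, (t i).1.Nonempty
  card : ∀ i, (t i).2.card = (t i).1.card + i
  anti : ∀ i j, i ≤ j → (t j).1 ⊆ (t i).1
  mono : ∀ i j, i ≤ j → (t i).2 ⊆ (t j).2

end Pool.Agent.ChP
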