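import Pool.Agent.ChP.CCBasic
import Pool.Agent.ChP.GaussBase

/-!
# Continuity of the averaged cocycle in the matrices

Dominated convergence: for `g` near `g' i` one has `|det g|⁻¹ ≤ C` and
`|g⁻¹ x|² ≥ c |x|²`, so `push g (gdens 1) x ≤ C' exp (-c |x|²/2)` uniformly, and
`push (g m i) (gdens 1) x → push (g' i) (gdens 1) x` for every `x`.
-/

namespace Pool.Agent.ChP

open MeasureTheory Matrix Filter Topology

private lemma cont_abs_eps_le {n : ℕ} (s : Fin (n + 1) → Fin n → ℝ) : |eps s| ≤ 1 := by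
  unfold eps
  by_cases h1 : ∀ i, 0 < tco s i
  · by_cases h2 : ∀ i, tco s i < 0
    · simp [h1, h2]
    · simp [h1, h2]
  · by_cases h2 : ∀ i, tco s i < 0
    · simp [h1, h2]
    · simp [h1, h2]

private lemma cont_sq_le {n : ℕ} (G : Matrix (Fin n) (Fin n) ℝ) (y : Fin n → ℝ) :
    ∑ j, (G *ᵥ y) j ^ 2 ≤ (∑ a, ∑ b, G a b ^ 2) * ∑ j, y j ^ 2 := by
  rw [Finset.sum_mul]
  refine Finset.sum_le_sum fun a _ => ?_
  simp only [Matrix.mulVec, dotProduct]
  exact Finset.sum_mul_sq_le_sq_mul_sq _ _ _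

private lemma cont_bound {n : ℕ} (G : ℕ → Matrix (Fin n) (Fin n) ℝ)
    (G' : Matrix (Fin n) (Fin n) ℝ) (hG' : G'.det ≠ 0) (h : Tendsto G atTop (𝓝 G')) :
    ∃ C c : ℝ, 0 < c ∧ ∀ᶠ m in atTop, (G m).det ≠ 0 ∧
      ∀ x, |push (G m) (gdens (1 : Matrix (Fin n) (Fin n) ℝ)) x| ≤
        C * Real.exp (-c * ∑ j, x j ^ 2) := by
  have hdet : Tendsto (fun m => (G m).det) atTop (𝓝 G'.det) :=
    ((continuous_id.matrix_det).tendsto G').comp h
  have hK : Tendsto (fun m => ∑ a, ∑ b, G m a b ^ 2) atTop (𝓝 (∑ a, ∑ b, G' a b ^ 2)) := by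
    refine tendsto_finsetSum _ fun a _ => tendsto_finsetSum _ fun b _ => ?_
    have h1 : Tendsto (fun m => G m a b) atTop (𝓝 (G' a b)) :=
      (tendsto_pi_nhds.1 ((tendsto_pi_nhds.1 h) a)) b
    exact h1.pow 2
  set K : ℝ := (∑ a, ∑ b, G' a b ^ 2) + 1 with hKdef
  have hKpos : 0 < K := by
    have : 0 ≤ ∑ a, ∑ b, G' a b ^ 2 :=
      Finset.sum_nonneg fun a _ => Finset.sum_nonneg fun b _ => sq_nonneg _
    linarith
  have hD : Tendsto (fun m => |(G m).det|⁻¹) atTop (𝓝 |G'.det|⁻¹) :=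
    (hdet.abs).inv₀ (abs_ne_zero.2 hG')
  refine ⟨(|G'.det|⁻¹ + 1) * (Real.sqrt ((2 * Real.pi) ^ n))⁻¹, 1 / (2 * K), by positivity, ?_⟩
  have e1 : ∀ᶠ m in atTop, (G m).det ≠ 0 := hdet.eventually_ne hG'
  have e2 : ∀ᶠ m in atTop, |(G m).det|⁻¹ < |G'.det|⁻¹ + 1 :=
    hD.eventually_lt_const (by linarith)
  have e3 : ∀ᶠ m in atTop, ∑ a, ∑ b, G m a b ^ 2 < K :=
    hK.eventually_lt_const (by rw [hKdef]; linarith)
  filter_upwards [e1, e2, e3] with m h1 h2 h3
  refine ⟨h1, fun x => ?_⟩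
  have hy : G m *ᵥ ((G m)⁻¹ *ᵥ x) = x := by
    rw [Matrix.mulVec_mulVec, Matrix.mul_nonsing_inv _ (Ne.isUnit h1), Matrix.one_mulVec]
  set y := (G m)⁻¹ *ᵥ x with hydef
  have hsq : ∑ j, x j ^ 2 ≤ K * ∑ j, y j ^ 2 := by
    have := cont_sq_le (G m) y
    rw [hy] at this
    refine this.trans ?_
    exact mul_le_mul_of_nonneg_right h3.le (Finset.sum_nonneg fun j _ => sq_nonneg _)
  unfold push
  rw [← hydef, gdens_one_eq',
    abs_of_nonneg (mul_nonneg (inv_nonneg.2 (abs_nonneg _)) (by positivity)), mul_assoc]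
  refine mul_le_mul h2.le ?_ (by positivity) (by positivity)
  refine mul_le_mul_of_nonneg_left ?_ (by positivity)
  apply Real.exp_le_exp.2
  have : 1 / (2 * K) * ∑ j, x j ^ 2 ≤ (∑ j, y j ^ 2) / 2 := by
    rw [div_mul_eq_mul_div, one_mul, div_le_div_iff₀ (by positivity) (by norm_num)]
    nlinarith
  linarith

private lemma cont_integrable_bound {n : ℕ} (C c : Fin (n + 1) → ℝ) (hc : ∀ i, 0 < c i) :
    Integrable (fun s : Fin (n + 1) → Fin n → ℝ =>
      ∏ i, (C i * Real.exp (-(c i) * ∑ j, s i j ^ 2))) := by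
  refine Integrable.fintype_prod (f := fun i (x : Fin n → ℝ) =>
    C i * Real.exp (-(c i) * ∑ j, x j ^ 2)) (fun i => ?_)
  refine Integrable.const_mul ?_ _
  have : (fun x : Fin n → ℝ => Real.exp (-(c i) * ∑ j, x j ^ 2)) =
      fun x => ∏ j, Real.exp (-(c i) * x j ^ 2) := by
    funext x
    rw [Finset.mul_sum, Real.exp_sum]
  rw [this]
  exact Integrable.fintype_prod (f := fun (_ : Fin n) (t : ℝ) => Real.exp (-(c i) * t ^ 2))
    (fun _ => integrable_exp_neg_mul_sq (hc i))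

private lemma cont_pointwise {n : ℕ} (G : ℕ → Matrix (Fin n) (Fin n) ℝ)
    (G' : Matrix (Fin n) (Fin n) ℝ) (hG' : G'.det ≠ 0) (h : Tendsto G atTop (𝓝 G'))
    (x : Fin n → ℝ) :
    Tendsto (fun m => push (G m) (gdens (1 : Matrix (Fin n) (Fin n) ℝ)) x) atTop
      (𝓝 (push G' (gdens (1 : Matrix (Fin n) (Fin n) ℝ)) x)) := by
  have hdet : Tendsto (fun m => (G m).det) atTop (𝓝 G'.det) :=
    ((continuous_id.matrix_det).tendsto G').comp h
  have hadj : Tendsto (fun m => (G m).adjugate) atTop (𝓝 G'.adjugate) :=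
    ((continuous_id.matrix_adjugate).tendsto G').comp h
  have hinv : Tendsto (fun m => (G m)⁻¹) atTop (𝓝 G'⁻¹) := by
    simp only [Matrix.inv_def, Ring.inverse_eq_inv']
    exact (hdet.inv₀ hG').smul hadj
  unfold push
  refine ((hdet.abs).inv₀ (abs_ne_zero.2 hG')).mul ?_
  have h1 : Tendsto (fun m => (G m)⁻¹ *ᵥ x) atTop (𝓝 (G'⁻¹ *ᵥ x)) := by
    have : Continuous fun A : Matrix (Fin n) (Fin n) ℝ => A *ᵥ x :=
      continuous_id.matrix_mulVec continuous_const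
    exact (this.tendsto _).comp hinv
  exact ((continuous_gdens (1 : Matrix (Fin n) (Fin n) ℝ)).tendsto _).comp h1

theorem tendsto_CC_push {n : ℕ} (g : ℕ → Fin (n + 1) → Matrix (Fin n) (Fin n) ℝ)
    (g' : Fin (n + 1) → Matrix (Fin n) (Fin n) ℝ) (hg' : ∀ i, (g' i).det ≠ 0)
    (h : ∀ i, Tendsto (fun m => g m i) atTop (𝓝 (g' i))) :
    Tendsto (fun m => CC fun i => push (g m i) (gdens (1 : Matrix (Fin n) (Fin n) ℝ))) atTop
      (𝓝 (CC fun i => push (g' i) (gdens (1 : Matrix (Fin n) (Fin n) ℝ)))) := by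
  choose C c hc hb using fun i => cont_bound (fun m => g m i) (g' i) (hg' i) (h i)
  have hev : ∀ᶠ m in atTop, ∀ i, (g m i).det ≠ 0 ∧
      ∀ x, |push (g m i) (gdens (1 : Matrix (Fin n) (Fin n) ℝ)) x| ≤
        C i * Real.exp (-(c i) * ∑ j, x j ^ 2) := eventually_all.2 hb
  unfold CC
  refine tendsto_integral_filter_of_dominated_convergence
    (fun s : Fin (n + 1) → Fin n → ℝ => ∏ i, (C i * Real.exp (-(c i) * ∑ j, s i j ^ 2)))
    ?_ ?_ (cont_integrable_bound C c hc) ?_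
  · filter_upwards [hev] with m hm
    exact (CC_integrable _ fun i =>
      integrable_push (hm i).1 (integrable_gdens Matrix.PosDef.one)).aestronglyMeasurable
  · filter_upwards [hev] with m hm
    refine ae_of_all _ fun s => ?_
    rw [Real.norm_eq_abs, abs_mul, Finset.abs_prod]
    refine (mul_le_of_le_one_left (Finset.prod_nonneg fun i _ => abs_nonneg _)
      (cont_abs_eps_le s)).trans ?_
    exact Finset.prod_le_prod (fun i _ => abs_nonneg _) fun i _ => (hm i).2 (s i)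
  · refine ae_of_all _ fun s => ?_
    refine Tendsto.const_mul _ ?_
    exact tendsto_finsetProd _ fun i _ => cont_pointwise _ _ (hg' i) (h i) (s i)

end Pool.Agent.ChP
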