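import Pool.Agent.ChP.Defs

/-!
# Only finitely many group elements matter in a weak cycle

Linear algebra: let `V = (Fin n → X) →₀ ℝ` and `z = ∑ k, m k * ∑ j, (-1)^j single (t k ∘ succAbove j)`,
`W` the span of the elements `single (γ • y) 1 - χ γ • single y 1`.  A linear functional on `V` is
the same as a function `φ`; it vanishes on `W` iff `φ (γ • y) = χ γ * φ y`.  By hypothesis all
functionals vanishing on `W` vanish at `z`, so `z ∈ W` (a subspace of a vector space is the
intersection of the kernels of the functionals vanishing on it, e.g. `Submodule.exists_le_ker_of...`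
or `Submodule.exists_dual_map_eq_bot_of_notMem`).  So `z` is a finite combination of generators and
only finitely many `γ` occur.
-/

namespace Pool.Agent.ChP

/-- the generators of the subspace -/
private noncomputable def FG_gen {n : ℕ} {Γ X : Type*} [Group Γ] [MulAction Γ X] (χ : Γ → ℝ)
    (p : Γ × (Fin n → X)) : (Fin n → X) →₀ ℝ :=
  Finsupp.single (fun i => p.1 • p.2 i) (1 : ℝ) - χ p.1 • Finsupp.single p.2 (1 : ℝ)

/-- the chain -/
private noncomputable def FG_z {n : ℕ} {X ι : Type*} [Fintype ι]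
    (t : ι → Fin (n + 1) → X) (m : ι → ℝ) : (Fin n → X) →₀ ℝ :=
  ∑ k, m k • ∑ j : Fin (n + 1), ((-1 : ℝ)) ^ (j : ℕ) •
    Finsupp.single (fun i => t k (j.succAbove i)) (1 : ℝ)

private theorem FG_z_eval {n : ℕ} {X ι : Type*} [Fintype ι]
    (t : ι → Fin (n + 1) → X) (m : ι → ℝ) (L : ((Fin n → X) →₀ ℝ) →ₗ[ℝ] ℝ) :
    L (FG_z t m) = ∑ k, m k * ∑ j : Fin (n + 1), (-1) ^ (j : ℕ) *
      L (Finsupp.single (fun i => t k (j.succAbove i)) (1 : ℝ)) := by
  unfold FG_z
  simp only [map_sum, map_smul, smul_eq_mul]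

theorem exists_finset_of_WCycle {n : ℕ} {Γ X ι : Type*} [Group Γ] [MulAction Γ X] [Fintype ι]
    {χ : Γ → ℝ} {t : ι → Fin (n + 1) → X} {m : ι → ℝ} (h : WCycle χ t m) :
    ∃ S : Finset Γ, ∀ φ : (Fin n → X) → ℝ,
      (∀ γ ∈ S, ∀ y : Fin n → X, φ (fun i => γ • y i) = χ γ * φ y) →
      ∑ k, m k * ∑ j : Fin (n + 1), (-1) ^ (j : ℕ) * φ (fun i => t k (j.succAbove i)) = 0 := by
  classical
  have hz : FG_z t m ∈ Submodule.span ℝ (Set.range (FG_gen (n := n) (X := X) χ)) := by
    by_contra hz
    obtain ⟨f, hf1, hf2⟩ := Submodule.exists_dual_map_eq_bot_of_notMem hz inferInstance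
    apply hf1
    rw [FG_z_eval]
    refine h (fun y => f (Finsupp.single y 1)) ?_
    intro γ y
    have h1 : f (FG_gen χ (γ, y)) = 0 := by
      have h2 : f (FG_gen χ (γ, y)) ∈
          (Submodule.span ℝ (Set.range (FG_gen (n := n) (X := X) χ))).map f :=
        Submodule.mem_map_of_mem (Submodule.subset_span ⟨(γ, y), rfl⟩)
      rw [hf2] at h2
      simpa using h2
    unfold FG_gen at h1
    simp only [map_sub, map_smul, smul_eq_mul] at h1
    show f (Finsupp.single (fun i => γ • y i) 1) = χ γ * f (Finsupp.single y 1)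
    linarith
  rw [Finsupp.mem_span_range_iff_exists_finsupp] at hz
  obtain ⟨c, hc⟩ := hz
  refine ⟨c.support.image Prod.fst, ?_⟩
  intro φ hφ
  have hL : ∀ y, Finsupp.linearCombination ℝ φ (Finsupp.single y (1 : ℝ)) = φ y := by
    intro y
    rw [Finsupp.linearCombination_single, one_smul]
  have h3 := FG_z_eval t m (Finsupp.linearCombination ℝ φ)
  simp only [hL] at h3
  rw [← h3, ← hc, Finsupp.sum, map_sum]
  refine Finset.sum_eq_zero ?_
  intro p hp
  rw [map_smul]
  have h4 : Finsupp.linearCombination ℝ φ (FG_gen χ p) = 0 := by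
    unfold FG_gen
    rw [map_sub, map_smul, hL, hL, hφ p.1 (Finset.mem_image_of_mem _ hp) p.2, smul_eq_mul, sub_self]
  rw [h4, smul_zero]

end Pool.Agent.ChP
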