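import Pool.Agent.ChP.Iter
import Pool.Agent.ChP.LimitRep
import Pool.Agent.ChP.Cont
import Pool.Agent.ChP.FG

/-!
# The Euler number vanishes if the representation fixes a tensor with non-zero polynomial

Finitely generated case: let `g, ρ', T'` be as in `exists_limit_rep`.  For every `m`,
`eul (g_m ρ g_m⁻¹) = eul ρ`: `push (g_m ρ γ g_m⁻¹) (gdens 1) = push g_m (push (ρ γ) μ₀)` with
`μ₀ = push g_m⁻¹ (gdens 1)` of mass one, `CC_push` with `0 < det g_m`, and `CC_indep` for `X = Γ`
(`μ γ = push (ρ γ) μ₀`, `μ' γ = push (ρ γ) (gdens 1)`).  By `tendsto_CC_push`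
`eul ρ = eul ρ'`, and `eul ρ' = 0` by `eul_eq_zero_of_fixes` (`det (ρ' γ) = det (ρ γ)`, so
`chi ρ' = chi ρ`).

General case: take the finite set `S` of `exists_finset_of_WCycle`, `Γ₀ = Subgroup.closure S`;
`(t, m)` is a weak cycle for `Γ₀` acting on `Γ`; there is a `Γ₀`-equivariant map `κ : Γ → Γ₀`
(choose representatives of the right cosets), `(κ ∘ t, m)` is a weak cycle on `Γ₀`, and by
`CC_indep` on the `Γ₀`-set `Γ`, `eul ρ t m = eul (ρ|Γ₀) (κ ∘ t) m = 0`.
-/

namespace Pool.Agent.ChP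

open MeasureTheory Matrix Filter Topology

private theorem core_det_ne_zero {n : ℕ} {Γ : Type*} [Group Γ]
    (ρ : Γ →* Matrix (Fin n) (Fin n) ℝ) (γ : Γ) : (ρ γ).det ≠ 0 := by
  intro h
  have h1 : ρ γ * ρ γ⁻¹ = 1 := by rw [← map_mul, mul_inv_cancel, map_one]
  have h2 := congrArg Matrix.det h1
  rw [Matrix.det_mul, h, zero_mul, Matrix.det_one] at h2
  exact zero_ne_one h2

private theorem core_one_posDef {n : ℕ} : (1 : Matrix (Fin n) (Fin n) ℝ).PosDef :=
  Matrix.PosDef.one

/-- conjugation by a matrix with positive determinant does not change the Euler number. -/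
private theorem core_conj {n : ℕ} {Γ ι : Type} [Group Γ] [Fintype ι]
    (ρ : Γ →* Matrix (Fin n) (Fin n) ℝ) (t : ι → Fin (n + 1) → Γ) (m : ι → ℝ)
    (h : WCycle (chi ρ) t m) (g : Matrix (Fin n) (Fin n) ℝ) (hg : 0 < g.det) :
    ∑ k, m k * CC (fun i => push (g * ρ (t k i) * g⁻¹) (gdens (1 : Matrix (Fin n) (Fin n) ℝ))) =
      eul ρ t m := by
  have hg' : (g⁻¹).det ≠ 0 := by
    rw [Matrix.det_nonsing_inv, Ring.inverse_eq_inv']
    exact inv_ne_zero hg.ne'
  have h1 : ∀ k, CC (fun i => push (g * ρ (t k i) * g⁻¹)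
      (gdens (1 : Matrix (Fin n) (Fin n) ℝ))) =
      CC (fun i => push (ρ (t k i)) (push g⁻¹ (gdens (1 : Matrix (Fin n) (Fin n) ℝ)))) := by
    intro k
    have h2 := CC_push g hg.ne'
      (fun i => push (ρ (t k i)) (push g⁻¹ (gdens (1 : Matrix (Fin n) (Fin n) ℝ))))
    rw [Real.sign_of_pos hg, one_mul] at h2
    rw [← h2]
    congr 1
    funext i
    rw [push_push, push_push, Matrix.mul_assoc]
  simp only [h1]
  unfold eul
  exact CC_indep ρ t m h
    (fun x => push (ρ x) (push g⁻¹ (gdens (1 : Matrix (Fin n) (Fin n) ℝ))))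
    (fun x => push (ρ x) (gdens (1 : Matrix (Fin n) (Fin n) ℝ)))
    (fun x => integrable_push (core_det_ne_zero ρ x)
      (integrable_push hg' (integrable_gdens core_one_posDef)))
    (fun x => integrable_push (core_det_ne_zero ρ x) (integrable_gdens core_one_posDef))
    (fun x => by
      rw [integral_push (core_det_ne_zero ρ x), integral_push hg',
        integral_gdens core_one_posDef])
    (fun x => by
      rw [integral_push (core_det_ne_zero ρ x), integral_gdens core_one_posDef])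
    (fun γ x => by
      rw [smul_eq_mul, map_mul]
      exact (push_push _ _ _).symm)
    (fun γ x => by
      rw [smul_eq_mul, map_mul]
      exact (push_push _ _ _).symm)

/-- the finitely generated case. -/
private theorem core_fg {d n : ℕ} {Γ ι : Type} [Group Γ] [Fintype ι] (S : Finset Γ)
    (hS : Subgroup.closure (S : Set Γ) = ⊤) (T : Ten d n)
    (hT : TSym T) (h0 : T ≠ 0) (hd : 0 < d) (ρ : Γ →* Matrix (Fin n) (Fin n) ℝ)
    (hρ : ∀ γ, Fixes T (ρ γ)) (t : ι → Fin (n + 1) → Γ) (m : ι → ℝ)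
    (h : WCycle (chi ρ) t m) : eul ρ t m = 0 := by
  obtain ⟨g, ρ', T', hg, hlim, hT', h0', hf, hf'⟩ := exists_limit_rep S hS ρ T hT h0 hρ
  have hdet : ∀ γ, (ρ' γ).det = (ρ γ).det := by
    intro γ
    have h1 : Tendsto (fun N => (g N * ρ γ * (g N)⁻¹).det) atTop (𝓝 (ρ' γ).det) :=
      ((continuous_id.matrix_det).tendsto (ρ' γ)).comp (hlim γ)
    have h2 : ∀ N, (g N * ρ γ * (g N)⁻¹).det = (ρ γ).det := by
      intro N
      rw [Matrix.det_mul, Matrix.det_mul, Matrix.det_nonsing_inv, Ring.inverse_eq_inv']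
      have := (hg N).ne'
      field_simp
    simp only [h2] at h1
    exact tendsto_nhds_unique h1 tendsto_const_nhds
  have hchi : chi ρ' = chi ρ := by
    funext γ
    simp only [chi, hdet γ]
  have hlimE : Tendsto (fun N => ∑ k, m k * CC (fun i => push (g N * ρ (t k i) * (g N)⁻¹)
      (gdens (1 : Matrix (Fin n) (Fin n) ℝ)))) atTop (𝓝 (eul ρ' t m)) := by
    unfold eul
    apply tendsto_finsetSum
    intro k _
    apply Tendsto.const_mul
    exact tendsto_CC_push (fun N i => g N * ρ (t k i) * (g N)⁻¹) (fun i => ρ' (t k i))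
      (fun i => core_det_ne_zero ρ' (t k i)) (fun i => hlim (t k i))
  have hconst : ∀ N, ∑ k, m k * CC (fun i => push (g N * ρ (t k i) * (g N)⁻¹)
      (gdens (1 : Matrix (Fin n) (Fin n) ℝ))) = eul ρ t m :=
    fun N => core_conj ρ t m h (g N) (hg N)
  simp only [hconst] at hlimE
  have he : eul ρ' t m = eul ρ t m := tendsto_nhds_unique hlimE tendsto_const_nhds |>.symm ▸ rfl
  rw [← he]
  exact eul_eq_zero_of_fixes T' hT' h0' hd ρ' hf hf' t m (by rw [hchi]; exact h)

/-- an equivariant map to a subgroup. -/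
private theorem core_exists_kappa {Γ : Type} [Group Γ] (H : Subgroup Γ) :
    ∃ κ : Γ → H, ∀ (γ : H) (x : Γ), κ (γ • x) = γ * κ x := by
  classical
  let rp : Γ → Γ := fun x => (Quotient.mk (QuotientGroup.rightRel H) x).out
  have hrp : ∀ x, x * (rp x)⁻¹ ∈ H := by
    intro x
    have h1 : (QuotientGroup.rightRel H) (rp x) x := Quotient.exact (Quotient.out_eq _)
    rw [QuotientGroup.rightRel_apply] at h1
    exact h1
  refine ⟨fun x => ⟨x * (rp x)⁻¹, hrp x⟩, ?_⟩
  intro γ x
  have h2 : rp (γ • x) = rp x := by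
    have : (Quotient.mk (QuotientGroup.rightRel H) (γ • x)) =
        Quotient.mk (QuotientGroup.rightRel H) x := by
      apply Quotient.sound
      show (QuotientGroup.rightRel H) (γ • x) x
      rw [QuotientGroup.rightRel_apply]
      have h3 : x * (γ • x)⁻¹ = (γ : Γ)⁻¹ := by
        rw [Subgroup.smul_def, smul_eq_mul, _root_.mul_inv_rev, mul_inv_cancel_left]
      rw [h3]
      exact H.inv_mem γ.2
    simp only [rp, this]
  apply Subtype.ext
  simp only [Subgroup.coe_mul, h2]
  rw [Subgroup.smul_def, smul_eq_mul, mul_assoc]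

theorem eul_eq_zero {d n : ℕ} {Γ ι : Type} [Group Γ] [Fintype ι] (T : Ten d n)
    (hT : TSym T) (h0 : T ≠ 0) (hd : 0 < d) (ρ : Γ →* Matrix (Fin n) (Fin n) ℝ)
    (hρ : ∀ γ, Fixes T (ρ γ)) (t : ι → Fin (n + 1) → Γ) (m : ι → ℝ)
    (h : WCycle (chi ρ) t m) : eul ρ t m = 0 := by
  classical
  obtain ⟨S, hS⟩ := exists_finset_of_WCycle h
  set H : Subgroup Γ := Subgroup.closure (S : Set Γ) with hH
  set ρ₀ : H →* Matrix (Fin n) (Fin n) ℝ := ρ.comp H.subtype with hρ₀
  obtain ⟨κ, hκ⟩ := core_exists_kappa H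
  have hSH : ∀ γ ∈ S, γ ∈ H := fun γ hγ => Subgroup.subset_closure hγ
  -- the weak cycle for the subgroup acting on the group
  have hW1 : WCycle (X := Γ) (chi ρ₀) t m := by
    intro φ hφ
    apply hS φ
    intro γ hγ y
    exact hφ ⟨γ, hSH γ hγ⟩ y
  have hW2 : WCycle (chi ρ₀) (fun k i => κ (t k i)) m := by
    intro φ hφ
    have := hS (fun y => φ (fun i => κ (y i))) (by
      intro γ hγ y
      have h1 := hφ ⟨γ, hSH γ hγ⟩ (fun i => κ (y i))
      have h2 : (fun i => κ (γ • y i)) =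
          (fun i => (⟨γ, hSH γ hγ⟩ : H) • κ (y i)) := by
        funext i
        exact hκ ⟨γ, hSH γ hγ⟩ (y i)
      show φ (fun i => κ (γ • y i)) = _
      rw [h2]
      exact h1)
    exact this
  have hfg : Subgroup.closure ((S.preimage (Subtype.val : H → Γ)
      (Subtype.val_injective.injOn) : Finset H) : Set H) = ⊤ := by
    rw [Finset.coe_preimage]
    exact Subgroup.closure_closure_coe_preimage
  have h2 : eul ρ₀ (fun k i => κ (t k i)) m = 0 :=
    core_fg _ hfg T hT h0 hd ρ₀ (fun γ => hρ γ) _ m hW2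
  rw [← h2]
  unfold eul
  exact CC_indep (X := Γ) ρ₀ t m hW1
    (fun x => push (ρ x) (gdens (1 : Matrix (Fin n) (Fin n) ℝ)))
    (fun x => push (ρ₀ (κ x)) (gdens (1 : Matrix (Fin n) (Fin n) ℝ)))
    (fun x => integrable_push (core_det_ne_zero ρ x) (integrable_gdens core_one_posDef))
    (fun x => integrable_push (core_det_ne_zero ρ₀ (κ x)) (integrable_gdens core_one_posDef))
    (fun x => by
      rw [integral_push (core_det_ne_zero ρ x), integral_gdens core_one_posDef])
    (fun x => by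
      rw [integral_push (core_det_ne_zero ρ₀ (κ x)), integral_gdens core_one_posDef])
    (fun γ x => by
      rw [push_push, Subgroup.smul_def, smul_eq_mul, map_mul]
      rfl)
    (fun γ x => by
      rw [hκ, map_mul, push_push])

/-- The version for a `Γ`-set with an equivariant map `κ` to `Γ` (a free `Γ`-set). -/
theorem sum_CC_eq_zero {d n : ℕ} {Γ X ι : Type} [Group Γ] [MulAction Γ X] [Fintype ι]
    (T : Ten d n) (hT : TSym T) (h0 : T ≠ 0) (hd : 0 < d)
    (ρ : Γ →* Matrix (Fin n) (Fin n) ℝ) (hρ : ∀ γ, Fixes T (ρ γ))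
    (κ : X → Γ) (hκ : ∀ (γ : Γ) (x : X), κ (γ • x) = γ * κ x)
    (t : ι → Fin (n + 1) → X) (m : ι → ℝ) (h : WCycle (chi ρ) t m)
    (μ : X → (Fin n → ℝ) → ℝ) (hi : ∀ x, Integrable (μ x)) (h1 : ∀ x, ∫ y, μ x y = 1)
    (he : ∀ (γ : Γ) (x : X), μ (γ • x) = push (ρ γ) (μ x)) :
    ∑ k, m k * CC (fun i => μ (t k i)) = 0 := by
  have hW : WCycle (chi ρ) (fun k i => κ (t k i)) m := by
    intro φ hφ
    exact h (fun y => φ (fun i => κ (y i))) (by
      intro γ y
      have h3 := hφ γ (fun i => κ (y i))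
      have h2 : (fun i => κ (γ • y i)) = (fun i => γ • κ (y i)) := by
        funext i
        exact hκ γ (y i)
      show φ (fun i => κ (γ • y i)) = _
      rw [h2]
      exact h3)
  have h2 : eul ρ (fun k i => κ (t k i)) m = 0 := eul_eq_zero T hT h0 hd ρ hρ _ m hW
  rw [← h2]
  unfold eul
  exact CC_indep ρ t m h μ
    (fun x => push (ρ (κ x)) (gdens (1 : Matrix (Fin n) (Fin n) ℝ)))
    hi
    (fun x => integrable_push (core_det_ne_zero ρ (κ x)) (integrable_gdens core_one_posDef))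
    h1
    (fun x => by
      rw [integral_push (core_det_ne_zero ρ (κ x)), integral_gdens core_one_posDef])
    he
    (fun γ x => by
      rw [hκ, map_mul, push_push])

end Pool.Agent.ChP
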