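import Mathlib

/-!
# Euler number of flat bundles with a polynomial semi-invariant: definitions

Vectors are functions `Fin n → ℝ`, linear maps are matrices acting by `mulVec`.
-/

namespace Pool.Agent.ChP

open MeasureTheory Matrix

/-- The signed minors `t_i` of `n + 1` vectors `s_0, ..., s_n` of `ℝ^n`; one has
`∑ t_i s_i = 0`. -/
noncomputable def tco {n : ℕ} (s : Fin (n + 1) → Fin n → ℝ) (i : Fin (n + 1)) : ℝ :=
  (-1) ^ (i : ℕ) * Matrix.det (Matrix.of fun a b : Fin n => s (i.succAbove a) b)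

/-- The elementary Euler cocycle: `1` if all signed minors are positive, `-1` if all of them are
negative, `0` otherwise. -/
noncomputable def eps {n : ℕ} (s : Fin (n + 1) → Fin n → ℝ) : ℝ :=
  (if ∀ i, 0 < tco s i then 1 else 0) - (if ∀ i, tco s i < 0 then 1 else 0)

/-- The averaged Euler cocycle of `n + 1` (signed) densities. -/
noncomputable def CC {n : ℕ} (p : Fin (n + 1) → (Fin n → ℝ) → ℝ) : ℝ :=
  ∫ s : Fin (n + 1) → Fin n → ℝ, eps s * ∏ i, p i (s i)

/-- Push forward of a density by an invertible matrix. -/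
noncomputable def push {n : ℕ} (g : Matrix (Fin n) (Fin n) ℝ) (p : (Fin n → ℝ) → ℝ) :
    (Fin n → ℝ) → ℝ :=
  fun x => |g.det|⁻¹ * p (g⁻¹ *ᵥ x)

/-- The centred Gaussian density with covariance matrix `P`. -/
noncomputable def gdens {n : ℕ} (P : Matrix (Fin n) (Fin n) ℝ) (x : Fin n → ℝ) : ℝ :=
  (Real.sqrt ((2 * Real.pi) ^ n * P.det))⁻¹ * Real.exp (-(x ⬝ᵥ (P⁻¹ *ᵥ x)) / 2)

/-- The derivative of `gdens` at the identity in the direction of the symmetric matrix `Y`. -/
noncomputable def DY {n : ℕ} (Y : Matrix (Fin n) (Fin n) ℝ) (x : Fin n → ℝ) : ℝ :=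
  (x ⬝ᵥ (Y *ᵥ x) - Y.trace) / 2 * gdens (1 : Matrix (Fin n) (Fin n) ℝ) x

/-- Weak cycle: `∑ m_k t_k` is an `n`-cycle in the `χ`-twisted coinvariants of the complex of
tuples of points of the `Γ`-set `X` (stated by duality). -/
def WCycle {n : ℕ} {Γ X ι : Type*} [Group Γ] [MulAction Γ X] [Fintype ι] (χ : Γ → ℝ)
    (t : ι → Fin (n + 1) → X) (m : ι → ℝ) : Prop :=
  ∀ φ : (Fin n → X) → ℝ, (∀ (γ : Γ) (y : Fin n → X), φ (fun i => γ • y i) = χ γ * φ y) →
    ∑ k, m k * ∑ j : Fin (n + 1), (-1) ^ (j : ℕ) * φ (fun i => t k (j.succAbove i)) = 0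

/-- The sign of the determinant of a matrix representation. -/
noncomputable def chi {n : ℕ} {Γ : Type*} [Group Γ] (ρ : Γ →* Matrix (Fin n) (Fin n) ℝ) (γ : Γ) :
    ℝ :=
  Real.sign (ρ γ).det

/-- The Euler number of a chain of tuples of elements of `Γ`. -/
noncomputable def eul {n : ℕ} {Γ ι : Type*} [Group Γ] [Fintype ι]
    (ρ : Γ →* Matrix (Fin n) (Fin n) ℝ) (t : ι → Fin (n + 1) → Γ) (m : ι → ℝ) : ℝ :=
  ∑ k, m k * CC fun i => push (ρ (t k i)) (gdens 1)

/-! ### The doubling operator -/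

/-- number of `true` among the first `l` entries -/
def lo {n : ℕ} (a : Fin n → Bool) (l : ℕ) : ℕ :=
  (Finset.univ.filter fun r : Fin n => (r : ℕ) < l ∧ a r = true).card

/-- total number of `true` plus the number of `false` among the first `l` entries -/
def hi {n : ℕ} (a : Fin n → Bool) (l : ℕ) : ℕ :=
  lo a n + (Finset.univ.filter fun r : Fin n => (r : ℕ) < l ∧ a r = false).card

theorem lo_le {n : ℕ} (a : Fin n → Bool) (l : ℕ) : lo a l < n + 1 := by
  have h : lo a l ≤ (Finset.univ : Finset (Fin n)).card := Finset.card_filter_le _ _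
  simp at h
  omega

theorem hi_le {n : ℕ} (a : Fin n → Bool) (l : ℕ) : hi a l < n + 1 := by
  have h : hi a l ≤ (Finset.univ : Finset (Fin n)).card := by
    unfold hi lo
    rw [← Finset.card_union_of_disjoint]
    · exact Finset.card_le_card (Finset.subset_univ _)
    · rw [Finset.disjoint_filter]
      rintro x - ⟨_, h1⟩ ⟨_, h2⟩
      simp [h1] at h2
  simp at h
  omega

/-- The sign of a shuffle. -/
def sgnA {n : ℕ} (a : Fin n → Bool) : ℝ :=
  (-1) ^ (Finset.univ.filter fun p : Fin n × Fin n =>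
    p.1 < p.2 ∧ a p.1 = false ∧ a p.2 = true).card

/-- The `n`-simplex of `X × X` given by the shuffle `a`: the first index runs through the front
face `t_0, ..., t_p`, the second one through the back face `t_p, ..., t_n`, `p` the number of
`true` entries of `a`. -/
def path {n : ℕ} {X : Type*} (t : Fin (n + 1) → X) (a : Fin n → Bool) : Fin (n + 1) → X × X :=
  fun l => (t ⟨lo a l, lo_le a l⟩, t ⟨hi a l, hi_le a l⟩)

/-! ### Positive definite matrices -/

/-- `P` and `Q` are within multiplicative distance `exp δ`. -/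
def Close {n : ℕ} (δ : ℝ) (P Q : Matrix (Fin n) (Fin n) ℝ) : Prop :=
  (Real.exp δ • Q - P).PosSemidef ∧ (Real.exp δ • P - Q).PosSemidef

/-- The logarithm of a positive definite matrix. -/
noncomputable def lg {n : ℕ} (P : Matrix (Fin n) (Fin n) ℝ) : Matrix (Fin n) (Fin n) ℝ :=
  cfc Real.log P

/-- The geometric mean of two positive definite matrices. -/
noncomputable def gm {n : ℕ} (P Q : Matrix (Fin n) (Fin n) ℝ) : Matrix (Fin n) (Fin n) ℝ :=
  cfc Real.sqrt P * cfc Real.sqrt ((cfc Real.sqrt P)⁻¹ * Q * (cfc Real.sqrt P)⁻¹) * cfc Real.sqrt P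

/-! ### Tensors -/

/-- covariant tensors of degree `d` on `ℝ^n` -/
abbrev Ten (d n : ℕ) := (Fin d → Fin n) → ℝ

/-- `T ∘ (g, ..., g)` -/
noncomputable def tact {d n : ℕ} (T : Ten d n) (g : Matrix (Fin n) (Fin n) ℝ) : Ten d n :=
  fun I => ∑ J : Fin d → Fin n, T J * ∏ k, g (J k) (I k)

/-- the homogeneous polynomial function of a tensor -/
noncomputable def tpoly {d n : ℕ} (T : Ten d n) (v : Fin n → ℝ) : ℝ :=
  ∑ I : Fin d → Fin n, T I * ∏ k, v (I k)

/-- symmetric tensors -/
def TSym {d n : ℕ} (T : Ten d n) : Prop :=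
  ∀ (e : Equiv.Perm (Fin d)) (I : Fin d → Fin n), T (fun k => I (e k)) = T I

/-- the quadratic moment form `⟨T, Y · T⟩` -/
noncomputable def tq {d n : ℕ} (T : Ten d n) (Y : Matrix (Fin n) (Fin n) ℝ) : ℝ :=
  ∑ I : Fin d → Fin n, ∑ k : Fin d, ∑ j : Fin n,
    T I * T (Function.update I k j) * Y j (I k)

/-- `T ∘ g = ± T` -/
def Fixes {d n : ℕ} (T : Ten d n) (g : Matrix (Fin n) (Fin n) ℝ) : Prop :=
  tact T g = T ∨ tact T g = -T

/-- The positive definite matrices which fix the tensor `T`. -/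
def PSet {d n : ℕ} (T : Ten d n) : Set (Matrix (Fin n) (Fin n) ℝ) :=
  {P | P.PosDef ∧ tact T P = T}

end Pool.Agent.ChP
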