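import Pool.Agent.ChP.FourM

/-!
# The expectation of the determinant for fixed weights

Insert `gdens_fourier` for `w = ∑ u_i s_i`, exchange the integrals (everything is dominated by
`|det s| ∏ |DY (s_i)| gdens 1 η`), expand the determinant over permutations; for fixed `η` the
integral over `s` of each term is a product over `i` of the integrals `moment_DY` at
`ξ = u_i η` (`η ⬝ᵥ (u_i s_i) = (u_i η) ⬝ᵥ s_i`); put the determinant together again.
-/

namespace Pool.Agent.ChP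

open MeasureTheory Matrix

private theorem detExp_quad {n : ℕ} (Y : Matrix (Fin n) (Fin n) ℝ) (x : Fin n → ℝ) :
    |x ⬝ᵥ (Y *ᵥ x)| ≤ (∑ a, ∑ b, |Y a b|) * (1 + ∑ i, |x i|) ^ 2 := by
  have hS : ∀ a, |x a| ≤ 1 + ∑ i, |x i| := by
    intro a
    have := Finset.single_le_sum (f := fun i => |x i|) (fun i _ => abs_nonneg (x i))
      (Finset.mem_univ a)
    have h2 : |x a| ≤ ∑ i, |x i| := this
    linarith
  have hS0 : 0 ≤ 1 + ∑ i, |x i| := by positivity
  have e : x ⬝ᵥ (Y *ᵥ x) = ∑ a, ∑ b, x a * (Y a b * x b) := by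
    simp only [dotProduct, mulVec, Finset.mul_sum]
  rw [e, Finset.sum_mul]
  refine (Finset.abs_sum_le_sum_abs _ _).trans (Finset.sum_le_sum fun a _ => ?_)
  rw [Finset.sum_mul]
  refine (Finset.abs_sum_le_sum_abs _ _).trans (Finset.sum_le_sum fun b _ => ?_)
  rw [abs_mul, abs_mul]
  have h1 : |x a| * |x b| ≤ (1 + ∑ i, |x i|) * (1 + ∑ i, |x i|) :=
    mul_le_mul (hS a) (hS b) (abs_nonneg _) hS0
  have h2 := mul_le_mul_of_nonneg_left h1 (abs_nonneg (Y a b))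
  calc |x a| * (|Y a b| * |x b|) = |Y a b| * (|x a| * |x b|) := by ring
    _ ≤ |Y a b| * ((1 + ∑ i, |x i|) * (1 + ∑ i, |x i|)) := h2
    _ = |Y a b| * (1 + ∑ i, |x i|) ^ 2 := by ring

private theorem detExp_int1 {n : ℕ} (Y : Matrix (Fin n) (Fin n) ℝ) (j : Fin n) :
    Integrable (fun x : Fin n → ℝ => x j * DY Y x) := by
  have h := integrable_poly_gdens (P := (1 : Matrix (Fin n) (Fin n) ℝ)) Matrix.PosDef.one
    (fun x => x j * ((x ⬝ᵥ (Y *ᵥ x) - Y.trace) / 2))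
    (by
      have h1 : Continuous fun x : Fin n → ℝ => x ⬝ᵥ (Y *ᵥ x) :=
        continuous_id.dotProduct (continuous_const.matrix_mulVec continuous_id)
      exact (continuous_apply j).mul ((h1.sub continuous_const).div_const 2))
    (((∑ a, ∑ b, |Y a b|) + |Y.trace|) / 2) 3 (by
      intro x
      have hS : |x j| ≤ 1 + ∑ i, |x i| := by
        have := Finset.single_le_sum (f := fun i => |x i|) (fun i _ => abs_nonneg (x i))
          (Finset.mem_univ j)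
        have h2 : |x j| ≤ ∑ i, |x i| := this
        linarith
      have hS1 : 1 ≤ 1 + ∑ i, |x i| := by
        have : 0 ≤ ∑ i, |x i| := Finset.sum_nonneg fun i _ => abs_nonneg _
        linarith
      have h2 := detExp_quad Y x
      have h3 : |Y.trace| ≤ |Y.trace| * (1 + ∑ i, |x i|) ^ 2 :=
        le_mul_of_one_le_right (abs_nonneg _) (one_le_pow₀ hS1)
      have h4 : |(x ⬝ᵥ (Y *ᵥ x) - Y.trace) / 2| ≤
          (((∑ a, ∑ b, |Y a b|) + |Y.trace|) / 2) * (1 + ∑ i, |x i|) ^ 2 := by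
        rw [abs_div, abs_two]
        have := abs_sub (x ⬝ᵥ (Y *ᵥ x)) Y.trace
        rw [div_mul_eq_mul_div]
        refine div_le_div_of_nonneg_right ?_ (by norm_num)
        linarith
      rw [abs_mul]
      calc |x j| * |(x ⬝ᵥ (Y *ᵥ x) - Y.trace) / 2| ≤ (1 + ∑ i, |x i|) *
            ((((∑ a, ∑ b, |Y a b|) + |Y.trace|) / 2) * (1 + ∑ i, |x i|) ^ 2) :=
            mul_le_mul hS h4 (abs_nonneg _) (by linarith)
        _ = (((∑ a, ∑ b, |Y a b|) + |Y.trace|) / 2) * (1 + ∑ i, |x i|) ^ 3 := by ring)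
  refine h.congr (Filter.Eventually.of_forall fun x => ?_)
  show x j * ((x ⬝ᵥ (Y *ᵥ x) - Y.trace) / 2) * gdens (1 : Matrix (Fin n) (Fin n) ℝ) x =
    x j * DY Y x
  unfold DY
  ring

private theorem detExp_det {n : ℕ} {R : Type*} [CommRing R] (M : Fin n → Fin n → R) :
    Matrix.det (Matrix.of M) =
      ∑ σ : Equiv.Perm (Fin n), ((Equiv.Perm.sign σ : ℤ) : R) * ∏ i, M i (σ i) := by
  rw [← Matrix.det_transpose, Matrix.det_apply']
  rfl

private theorem detExp_expand {n : ℕ} (Y : Fin n → Matrix (Fin n) (Fin n) ℝ)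
    (s : Fin n → Fin n → ℝ) :
    Matrix.det (Matrix.of s) * ∏ i, DY (Y i) (s i) =
      ∑ σ : Equiv.Perm (Fin n), ((Equiv.Perm.sign σ : ℤ) : ℝ) *
        ∏ i, (s i (σ i) * DY (Y i) (s i)) := by
  rw [detExp_det, Finset.sum_mul]
  refine Finset.sum_congr rfl fun σ _ => ?_
  rw [Finset.prod_mul_distrib, mul_assoc]

private theorem detExp_int2 {n : ℕ} (Y : Fin n → Matrix (Fin n) (Fin n) ℝ) :
    Integrable (fun s : Fin n → Fin n → ℝ =>
      Matrix.det (Matrix.of s) * ∏ i, DY (Y i) (s i)) := by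
  have h : (fun s : Fin n → Fin n → ℝ => Matrix.det (Matrix.of s) * ∏ i, DY (Y i) (s i)) =
      fun s => ∑ σ : Equiv.Perm (Fin n), ((Equiv.Perm.sign σ : ℤ) : ℝ) *
        ∏ i, (s i (σ i) * DY (Y i) (s i)) := funext fun s => detExp_expand Y s
  rw [h]
  refine integrable_finsetSum _ fun σ _ => Integrable.const_mul ?_ _
  exact Integrable.fintype_prod (𝕜 := ℝ) (f := fun i (x : Fin n → ℝ) => x (σ i) * DY (Y i) x)
    (μ := fun _ => volume) fun i => detExp_int1 (Y i) (σ i)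

/-- the phase has norm one -/
private theorem detExp_norm (r : ℝ) : ‖Complex.exp (Complex.I * (r : ℂ))‖ = 1 := by
  rw [mul_comm]
  exact Complex.norm_exp_ofReal_mul_I r

private theorem detExp_int3 {n : ℕ} (Y : Matrix (Fin n) (Fin n) ℝ) (ξ : Fin n → ℝ)
    (j : Fin n) :
    Integrable (fun x : Fin n → ℝ => ((x j * DY Y x : ℝ) : ℂ) *
      Complex.exp (Complex.I * ((ξ ⬝ᵥ x : ℝ) : ℂ))) := by
  have h1 : Integrable (fun x : Fin n → ℝ => ((x j * DY Y x : ℝ) : ℂ)) :=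
    (detExp_int1 Y j).ofReal
  refine h1.mul_bdd (c := 1) ?_ (Filter.Eventually.of_forall fun x => (detExp_norm _).le)
  refine Continuous.aestronglyMeasurable ?_
  have h2 : Continuous fun x : Fin n → ℝ => ξ ⬝ᵥ x := continuous_const.dotProduct continuous_id
  fun_prop

/-- the phase is a product -/
private theorem detExp_phase {n : ℕ} (u : Fin n → ℝ) (η : Fin n → ℝ) (s : Fin n → Fin n → ℝ) :
    Complex.exp (Complex.I * ((η ⬝ᵥ (∑ i, u i • s i) : ℝ) : ℂ)) =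
      ∏ i, Complex.exp (Complex.I * (((u i • η) ⬝ᵥ s i : ℝ) : ℂ)) := by
  rw [← Complex.exp_sum, ← Finset.mul_sum]
  congr 2
  rw [dotProduct_sum]
  push_cast
  refine Finset.sum_congr rfl fun i _ => ?_
  rw [dotProduct_smul, smul_dotProduct]

/-- the inner integral -/
private theorem detExp_inner {n : ℕ} (Y : Fin n → Matrix (Fin n) (Fin n) ℝ)
    (hY : ∀ i, (Y i)ᵀ = Y i) (u : Fin n → ℝ) (η : Fin n → ℝ) :
    ∫ s : Fin n → Fin n → ℝ, ((Matrix.det (Matrix.of s) * ∏ i, DY (Y i) (s i) : ℝ) : ℂ) *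
        Complex.exp (Complex.I * ((η ⬝ᵥ (∑ i, u i • s i) : ℝ) : ℂ)) =
      Matrix.det (Matrix.of fun i j : Fin n => Complex.I *
            ((u i * ((Y i *ᵥ η) j - u i ^ 2 * (η ⬝ᵥ (Y i *ᵥ η)) / 2 * η j) *
              Real.exp (-(u i ^ 2 * (η ⬝ᵥ η)) / 2) : ℝ) : ℂ)) := by
  have h1 : ∀ s : Fin n → Fin n → ℝ,
      ((Matrix.det (Matrix.of s) * ∏ i, DY (Y i) (s i) : ℝ) : ℂ) *
        Complex.exp (Complex.I * ((η ⬝ᵥ (∑ i, u i • s i) : ℝ) : ℂ)) =
      ∑ σ : Equiv.Perm (Fin n), ((Equiv.Perm.sign σ : ℤ) : ℂ) *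
        ∏ i, (((s i (σ i) * DY (Y i) (s i) : ℝ) : ℂ) *
          Complex.exp (Complex.I * (((u i • η) ⬝ᵥ s i : ℝ) : ℂ))) := by
    intro s
    rw [detExp_expand, detExp_phase, Complex.ofReal_sum, Finset.sum_mul]
    refine Finset.sum_congr rfl fun σ _ => ?_
    have e : ((((Equiv.Perm.sign σ : ℤ) : ℝ) * ∏ i, (s i (σ i) * DY (Y i) (s i)) : ℝ) : ℂ) =
        ((Equiv.Perm.sign σ : ℤ) : ℂ) * ∏ i, ((s i (σ i) * DY (Y i) (s i) : ℝ) : ℂ) := by
      rw [Complex.ofReal_mul, Complex.ofReal_prod, Complex.ofReal_intCast]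
    rw [e, Finset.prod_mul_distrib (f := fun i => ((s i (σ i) * DY (Y i) (s i) : ℝ) : ℂ)),
      mul_assoc]
  rw [integral_congr_ae (Filter.Eventually.of_forall h1), integral_finsetSum, detExp_det]
  · refine Finset.sum_congr rfl fun σ _ => ?_
    rw [integral_const_mul]
    congr 1
    rw [integral_fintype_prod_volume_eq_prod (𝕜 := ℂ)
      (fun i (x : Fin n → ℝ) => ((x (σ i) * DY (Y i) x : ℝ) : ℂ) *
        Complex.exp (Complex.I * (((u i • η) ⬝ᵥ x : ℝ) : ℂ)))]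
    refine Finset.prod_congr rfl fun i _ => ?_
    rw [moment_DY (Y i) (hY i) (u i • η) (σ i)]
    congr 2
    have e1 : (u i • η) ⬝ᵥ (u i • η) = u i ^ 2 * (η ⬝ᵥ η) := by
      rw [dotProduct_smul, smul_dotProduct, smul_eq_mul, smul_eq_mul]
      ring
    have e2 : (Y i *ᵥ (u i • η)) (σ i) = u i * (Y i *ᵥ η) (σ i) := by
      rw [mulVec_smul]
      rfl
    have e3 : (u i • η) ⬝ᵥ (Y i *ᵥ (u i • η)) = u i ^ 2 * (η ⬝ᵥ (Y i *ᵥ η)) := by
      rw [mulVec_smul, dotProduct_smul, smul_dotProduct, smul_eq_mul, smul_eq_mul]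
      ring
    rw [e1, e2, e3]
    have e4 : (u i • η) (σ i) = u i * η (σ i) := rfl
    rw [e4]
    ring
  · intro σ _
    refine Integrable.const_mul ?_ _
    exact Integrable.fintype_prod (𝕜 := ℂ)
      (f := fun i (x : Fin n → ℝ) => ((x (σ i) * DY (Y i) x : ℝ) : ℂ) *
        Complex.exp (Complex.I * (((u i • η) ⬝ᵥ x : ℝ) : ℂ)))
      (μ := fun _ => volume) fun i => detExp_int3 (Y i) (u i • η) (σ i)

theorem det_exp {n : ℕ} (Y : Fin n → Matrix (Fin n) (Fin n) ℝ) (hY : ∀ i, (Y i)ᵀ = Y i)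
    (u : Fin n → ℝ) :
    ((∫ s : Fin n → Fin n → ℝ, Matrix.det (Matrix.of s) *
        gdens (1 : Matrix (Fin n) (Fin n) ℝ) (∑ i, u i • s i) * ∏ i, DY (Y i) (s i) : ℝ) : ℂ) =
      (((Real.sqrt ((2 * Real.pi) ^ n))⁻¹ : ℝ) : ℂ) *
        ∫ η : Fin n → ℝ, ((gdens (1 : Matrix (Fin n) (Fin n) ℝ) η : ℝ) : ℂ) *
          Matrix.det (Matrix.of fun i j : Fin n => Complex.I *
            ((u i * ((Y i *ᵥ η) j - u i ^ 2 * (η ⬝ᵥ (Y i *ᵥ η)) / 2 * η j) *
              Real.exp (-(u i ^ 2 * (η ⬝ᵥ η)) / 2) : ℝ) : ℂ)) := by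
  rw [← integral_complex_ofReal]
  have h1 : ∀ s : Fin n → Fin n → ℝ,
      ((Matrix.det (Matrix.of s) * gdens (1 : Matrix (Fin n) (Fin n) ℝ) (∑ i, u i • s i) *
        ∏ i, DY (Y i) (s i) : ℝ) : ℂ) =
      (((Real.sqrt ((2 * Real.pi) ^ n))⁻¹ : ℝ) : ℂ) * ∫ η : Fin n → ℝ,
        ((Matrix.det (Matrix.of s) * ∏ i, DY (Y i) (s i) : ℝ) : ℂ) *
        (((gdens (1 : Matrix (Fin n) (Fin n) ℝ) η : ℝ) : ℂ) *
          Complex.exp (Complex.I * ((η ⬝ᵥ (∑ i, u i • s i) : ℝ) : ℂ))) := by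
    intro s
    rw [integral_const_mul, mul_left_comm, ← gdens_fourier]
    push_cast
    ring
  rw [integral_congr_ae (Filter.Eventually.of_forall h1), integral_const_mul]
  congr 1
  rw [integral_integral_swap]
  · refine integral_congr_ae (Filter.Eventually.of_forall fun η => ?_)
    show ∫ s : Fin n → Fin n → ℝ,
        ((Matrix.det (Matrix.of s) * ∏ i, DY (Y i) (s i) : ℝ) : ℂ) *
        (((gdens (1 : Matrix (Fin n) (Fin n) ℝ) η : ℝ) : ℂ) *
          Complex.exp (Complex.I * ((η ⬝ᵥ (∑ i, u i • s i) : ℝ) : ℂ))) =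
        ((gdens (1 : Matrix (Fin n) (Fin n) ℝ) η : ℝ) : ℂ) *
          Matrix.det (Matrix.of fun i j : Fin n => Complex.I *
            ((u i * ((Y i *ᵥ η) j - u i ^ 2 * (η ⬝ᵥ (Y i *ᵥ η)) / 2 * η j) *
              Real.exp (-(u i ^ 2 * (η ⬝ᵥ η)) / 2) : ℝ) : ℂ))
    rw [← detExp_inner Y hY u η, ← integral_const_mul]
    refine integral_congr_ae (Filter.Eventually.of_forall fun s => ?_)
    show _ = ((gdens (1 : Matrix (Fin n) (Fin n) ℝ) η : ℝ) : ℂ) *
      (((Matrix.det (Matrix.of s) * ∏ i, DY (Y i) (s i) : ℝ) : ℂ) *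
        Complex.exp (Complex.I * ((η ⬝ᵥ (∑ i, u i • s i) : ℝ) : ℂ)))
    ring
  · have h2 : Integrable (fun z : (Fin n → Fin n → ℝ) × (Fin n → ℝ) =>
        ((Matrix.det (Matrix.of z.1) * ∏ i, DY (Y i) (z.1 i) : ℝ) : ℂ) *
          ((gdens (1 : Matrix (Fin n) (Fin n) ℝ) z.2 : ℝ) : ℂ))
        (volume.prod volume) :=
      Integrable.mul_prod (detExp_int2 Y).ofReal (integrable_gdens Matrix.PosDef.one).ofReal
    have h3 : Integrable (fun z : (Fin n → Fin n → ℝ) × (Fin n → ℝ) =>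
        (((Matrix.det (Matrix.of z.1) * ∏ i, DY (Y i) (z.1 i) : ℝ) : ℂ) *
          ((gdens (1 : Matrix (Fin n) (Fin n) ℝ) z.2 : ℝ) : ℂ)) *
          Complex.exp (Complex.I * ((z.2 ⬝ᵥ (∑ i, u i • z.1 i) : ℝ) : ℂ)))
        (volume.prod volume) := by
      refine h2.mul_bdd (c := 1) ?_ (Filter.Eventually.of_forall fun z => (detExp_norm _).le)
      refine Continuous.aestronglyMeasurable ?_
      have h4 : Continuous fun z : (Fin n → Fin n → ℝ) × (Fin n → ℝ) =>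
          z.2 ⬝ᵥ (∑ i, u i • z.1 i) := by
        refine continuous_snd.dotProduct ?_
        refine continuous_finsetSum _ fun i _ => ?_
        exact ((continuous_apply i).comp continuous_fst).const_smul (u i)
      fun_prop
    refine h3.congr (Filter.Eventually.of_forall fun z => ?_)
    show _ = ((Matrix.det (Matrix.of z.1) * ∏ i, DY (Y i) (z.1 i) : ℝ) : ℂ) *
      (((gdens (1 : Matrix (Fin n) (Fin n) ℝ) z.2 : ℝ) : ℂ) *
        Complex.exp (Complex.I * ((z.2 ⬝ᵥ (∑ i, u i • z.1 i) : ℝ) : ℂ)))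
    ring

end Pool.Agent.ChP
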