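import Pool.Agent.ChP.GaussBase

/-!
# Fourier integrals of Gaussian moments

`gdens 1 s` is a product of one dimensional densities and `exp (i ξ·s)` is a product, so
everything reduces (Fubini, expand `s · Y s` in coordinates) to the one dimensional integrals
`∫ x^k φ(x) exp(i ξ x) dx = e^{-ξ²/2} * (1, iξ, 1 - ξ², 3iξ - iξ³)` for `k = 0, 1, 2, 3`.
Shift form: `∫ f(s) gdens 1 s exp (i ξ·s) ds = e^{-|ξ|²/2} E f(s + iξ)` for polynomials `f`; with
`f(s) = s_j (s·Ys - tr Y)/2` one gets `e^{-|ξ|²/2} * (i (Yξ)_j - i (ξ·Yξ) ξ_j / 2)`.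
-/

namespace Pool.Agent.ChP

open MeasureTheory Matrix

/-- `x^k φ(x) e^{iξx}` -/
private noncomputable def fourmF (ξ : ℝ) (k : ℕ) (x : ℝ) : ℂ :=
  (x : ℂ) ^ k * ((((Real.sqrt (2 * Real.pi))⁻¹ : ℝ) : ℂ) *
    Complex.exp (-(x : ℂ) ^ 2 / 2 + Complex.I * ((ξ : ℂ) * (x : ℂ))))

private theorem fourm_norm (ξ : ℝ) (k : ℕ) (x : ℝ) :
    ‖fourmF ξ k x‖ = ‖(Real.sqrt (2 * Real.pi))⁻¹ * (x ^ (k : ℝ) * Real.exp (-(1 / 2) * x ^ 2))‖ := by
  unfold fourmF
  have : (-(x : ℂ) ^ 2 / 2 + Complex.I * ((ξ : ℂ) * (x : ℂ))).re = -(1 / 2) * x ^ 2 := by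
    have h1 : (-(x : ℂ) ^ 2 / 2 : ℂ) = ((-(1 / 2) * x ^ 2 : ℝ) : ℂ) := by push_cast; ring
    have h2 : (Complex.I * ((ξ : ℂ) * (x : ℂ))) = Complex.I * ((ξ * x : ℝ) : ℂ) := by push_cast; ring
    rw [h1, h2, Complex.add_re, Complex.ofReal_re, Complex.I_mul_re, Complex.ofReal_im]
    simp
  rw [norm_mul, norm_mul, norm_pow, Complex.norm_real, Complex.norm_exp, Complex.norm_real,
    Real.rpow_natCast, norm_mul, norm_mul, norm_pow, this]
  rw [Real.norm_eq_abs (Real.exp _), abs_of_pos (Real.exp_pos _)]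
  ring

private theorem fourm_cont (ξ : ℝ) (k : ℕ) : Continuous (fourmF ξ k) := by
  unfold fourmF
  fun_prop

private theorem fourm_int (ξ : ℝ) (k : ℕ) : Integrable (fourmF ξ k) := by
  have h := (integrable_rpow_mul_exp_neg_mul_sq (b := 1 / 2) (by norm_num) (s := (k : ℝ))
    (by have : (0 : ℝ) ≤ k := Nat.cast_nonneg k
        linarith)).const_mul ((Real.sqrt (2 * Real.pi))⁻¹)
  exact h.congr' (fourm_cont ξ k).aestronglyMeasurable
    (Filter.Eventually.of_forall fun x => (fourm_norm ξ k x).symm)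

private theorem fourm_deriv (ξ : ℝ) (k : ℕ) (x : ℝ) :
    HasDerivAt (fourmF ξ k)
      ((k : ℂ) * fourmF ξ (k - 1) x + (Complex.I * ξ * fourmF ξ k x - fourmF ξ (k + 1) x)) x := by
  have h0 : HasDerivAt (fun y : ℝ => (y : ℂ)) 1 x := Complex.ofRealCLM.hasDerivAt
  have h1 : HasDerivAt (fun y : ℝ => (-(y : ℂ) ^ 2 / 2 + Complex.I * ((ξ : ℂ) * (y : ℂ))))
      (-(x : ℂ) + Complex.I * ξ) x := by
    have h2 : HasDerivAt (fun y : ℝ => (y : ℂ) ^ 2) (2 * x) x := by
      have := h0.pow 2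
      simp only [Nat.cast_ofNat, Nat.add_one_sub_one, pow_one, mul_one] at this
      exact this
    have := (h2.neg.div_const 2).add ((h0.const_mul (ξ : ℂ)).const_mul Complex.I)
    have e : -(x : ℂ) + Complex.I * ξ = -(2 * (x : ℂ)) / 2 + Complex.I * ((ξ : ℂ) * 1) := by ring
    rw [e]
    exact this
  have h2 := (h1.cexp).const_mul (((Real.sqrt (2 * Real.pi))⁻¹ : ℝ) : ℂ)
  have h3 := (h0.pow k).mul h2
  have h4 : (k : ℂ) * fourmF ξ (k - 1) x + (Complex.I * ξ * fourmF ξ k x - fourmF ξ (k + 1) x) =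
      (k : ℂ) * (x : ℂ) ^ (k - 1) * 1 * ((((Real.sqrt (2 * Real.pi))⁻¹ : ℝ) : ℂ) *
        Complex.exp (-(x : ℂ) ^ 2 / 2 + Complex.I * ((ξ : ℂ) * (x : ℂ)))) +
      (x : ℂ) ^ k * ((((Real.sqrt (2 * Real.pi))⁻¹ : ℝ) : ℂ) *
        (Complex.exp (-(x : ℂ) ^ 2 / 2 + Complex.I * ((ξ : ℂ) * (x : ℂ))) *
          (-(x : ℂ) + Complex.I * ξ))) := by
    simp only [fourmF]
    ring
  rw [h4]
  exact h3

private theorem fourm_rec (ξ : ℝ) (k : ℕ) :
    ∫ x, fourmF ξ (k + 1) x = Complex.I * ξ * (∫ x, fourmF ξ k x) +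
      (k : ℂ) * ∫ x, fourmF ξ (k - 1) x := by
  have h := integral_eq_zero_of_hasDerivAt_of_integrable (fourm_deriv ξ k)
    (((fourm_int ξ (k - 1)).const_mul _).add
      (((fourm_int ξ k).const_mul _).sub (fourm_int ξ (k + 1)))) (fourm_int ξ k)
  have a1 : Integrable (fun x => (k : ℂ) * fourmF ξ (k - 1) x) :=
    (fourm_int ξ (k - 1)).const_mul _
  have a2 : Integrable (fun x => Complex.I * ξ * fourmF ξ k x) := (fourm_int ξ k).const_mul _
  have a3 : Integrable (fun x => Complex.I * ξ * fourmF ξ k x - fourmF ξ (k + 1) x) :=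
    a2.sub (fourm_int ξ (k + 1))
  rw [integral_add a1 a3, integral_sub a2 (fourm_int ξ (k + 1)),
    integral_const_mul, integral_const_mul] at h
  linear_combination -h

private theorem fourm_zero (ξ : ℝ) :
    ∫ x, fourmF ξ 0 x = ((Real.exp (-(ξ * ξ) / 2) : ℝ) : ℂ) := by
  have h := fourierIntegral_gaussian (b := 1 / 2) (by norm_num) (ξ : ℂ)
  have e : ∀ x : ℝ, fourmF ξ 0 x = (((Real.sqrt (2 * Real.pi))⁻¹ : ℝ) : ℂ) *
      (Complex.exp (Complex.I * ξ * x) * Complex.exp (-(1 / 2) * (x : ℂ) ^ 2)) := by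
    intro x
    unfold fourmF
    rw [← Complex.exp_add, pow_zero, one_mul]
    congr 2
    ring
  simp_rw [e]
  rw [integral_const_mul, h]
  have h1 : ((Real.pi : ℂ) / (1 / 2)) ^ (1 / 2 : ℂ) = ((Real.sqrt (2 * Real.pi) : ℝ) : ℂ) := by
    have h2 : ((Real.pi : ℂ) / (1 / 2)) = ((2 * Real.pi : ℝ) : ℂ) := by push_cast; ring
    have h3 : (1 / 2 : ℂ) = ((1 / 2 : ℝ) : ℂ) := by push_cast; ring
    rw [h2, h3, ← Complex.ofReal_cpow (by positivity), Real.sqrt_eq_rpow]
  rw [h1, ← mul_assoc, ← Complex.ofReal_mul, inv_mul_cancel₀ (by positivity), Complex.ofReal_one,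
    one_mul, Complex.ofReal_exp]
  congr 1
  push_cast
  ring

/-- polynomial factor -/
private noncomputable def fourmH (z : ℂ) (k : ℕ) : ℂ :=
  match k with
  | 0 => 1
  | 1 => z
  | 2 => z * z + 1
  | _ => z * z * z + 3 * z

private theorem fourm_J (ξ : ℝ) (k : ℕ) (hk : k ≤ 3) :
    ∫ x, fourmF ξ k x = ((Real.exp (-(ξ * ξ) / 2) : ℝ) : ℂ) * fourmH (Complex.I * ξ) k := by
  have j0 := fourm_zero ξ
  have j1 := fourm_rec ξ 0
  have j2 := fourm_rec ξ 1
  have j3 := fourm_rec ξ 2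
  norm_num at j1 j2 j3
  rcases (by omega : k = 0 ∨ k = 1 ∨ k = 2 ∨ k = 3) with rfl | rfl | rfl | rfl
  · rw [j0]; simp [fourmH]
  · rw [j1, j0]; simp only [fourmH]; ring
  · rw [j2, j1, j0]; simp only [fourmH]; ring
  · rw [j3, j2, j1, j0]; simp only [fourmH]; ring

/-- the general product integrand -/
private noncomputable def fourmP {n : ℕ} (ξ : Fin n → ℝ) (e : Fin n → ℕ) (s : Fin n → ℝ) : ℂ :=
  ∏ i, fourmF (ξ i) (e i) (s i)

private theorem fourm_P {n : ℕ} (ξ : Fin n → ℝ) (e : Fin n → ℕ) (s : Fin n → ℝ) :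
    fourmP ξ e s = (∏ i, (s i : ℂ) ^ e i) *
      (((gdens (1 : Matrix (Fin n) (Fin n) ℝ) s : ℝ) : ℂ) *
        Complex.exp (Complex.I * ((ξ ⬝ᵥ s : ℝ) : ℂ))) := by
  unfold fourmP fourmF
  rw [Finset.prod_mul_distrib, gdens_one_eq]
  congr 1
  rw [dotProduct]
  push_cast
  rw [Finset.mul_sum, Complex.exp_sum, ← Finset.prod_mul_distrib]
  refine Finset.prod_congr rfl fun i _ => ?_
  rw [Complex.exp_add, ← mul_assoc]
  congr 1
  rw [ProbabilityTheory.gaussianPDFReal]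
  push_cast
  simp

private theorem fourm_Pint {n : ℕ} (ξ : Fin n → ℝ) (e : Fin n → ℕ) :
    Integrable (fourmP ξ e) := by
  unfold fourmP
  exact Integrable.fintype_prod fun i => fourm_int (ξ i) (e i)

private theorem fourm_PJ {n : ℕ} (ξ : Fin n → ℝ) (e : Fin n → ℕ) (he : ∀ i, e i ≤ 3) :
    ∫ s, fourmP ξ e s = ((Real.exp (-(ξ ⬝ᵥ ξ) / 2) : ℝ) : ℂ) *
      ∏ i, fourmH (Complex.I * ξ i) (e i) := by
  unfold fourmP
  rw [integral_fintype_prod_volume_eq_prod]
  simp_rw [fun i => fourm_J (ξ i) (e i) (he i)]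
  rw [Finset.prod_mul_distrib, ← Complex.ofReal_prod, ← Real.exp_sum, dotProduct]
  congr 3
  rw [← Finset.sum_div, Finset.sum_neg_distrib]

theorem gdens_fourier {n : ℕ} (w : Fin n → ℝ) :
    ((gdens (1 : Matrix (Fin n) (Fin n) ℝ) w : ℝ) : ℂ) =
      (((Real.sqrt ((2 * Real.pi) ^ n))⁻¹ : ℝ) : ℂ) *
        ∫ η : Fin n → ℝ, ((gdens (1 : Matrix (Fin n) (Fin n) ℝ) η : ℝ) : ℂ) *
          Complex.exp (Complex.I * ((η ⬝ᵥ w : ℝ) : ℂ)) := by
  have h := fourm_PJ w (fun _ => 0) (by simp)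
  simp only [fourm_P, pow_zero, Finset.prod_const_one, one_mul, fourmH, mul_one] at h
  simp_rw [fun η : Fin n → ℝ => dotProduct_comm η w]
  rw [h, gdens_one_eq', Complex.ofReal_mul, dotProduct]
  have hs : ∑ i, w i ^ 2 = ∑ i, w i * w i := Finset.sum_congr rfl fun i _ => by ring
  rw [hs]

/-- the exponent vector of `s_j s_a s_b` -/
private def fourmE {n : ℕ} (j a b : Fin n) (i : Fin n) : ℕ :=
  (if i = j then 1 else 0) + (if i = a then 1 else 0) + (if i = b then 1 else 0)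

private theorem fourm_E3 {n : ℕ} (j a b i : Fin n) : fourmE j a b i ≤ 3 := by
  unfold fourmE
  split_ifs <;> omega

private theorem fourm_Epow {n : ℕ} (j a b : Fin n) (s : Fin n → ℝ) :
    ∏ i, (s i : ℂ) ^ fourmE j a b i = s j * s a * s b := by
  unfold fourmE
  simp_rw [pow_add, Finset.prod_mul_distrib, pow_ite, pow_one, pow_zero]
  simp

private theorem fourm_EH {n : ℕ} (j a b : Fin n) (z : Fin n → ℂ) :
    ∏ i, fourmH (z i) (fourmE j a b i) =
      z j * z a * z b + (if a = b then z j else 0) + (if j = a then z b else 0) +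
        (if j = b then z a else 0) := by
  classical
  have h0 : ∏ i, fourmH (z i) (fourmE j a b i) =
      ∏ i ∈ ({j, a, b} : Finset (Fin n)), fourmH (z i) (fourmE j a b i) := by
    symm
    refine Finset.prod_subset (Finset.subset_univ _) fun i _ hi => ?_
    simp only [Finset.mem_insert, Finset.mem_singleton, not_or] at hi
    simp [fourmE, hi.1, hi.2.1, hi.2.2, fourmH]
  rw [h0]
  by_cases h1 : j = a
  · subst h1
    by_cases h2 : j = b
    · subst h2
      simp [fourmE, fourmH]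
      ring
    · have h3 : b ≠ j := fun h => h2 h.symm
      simp [fourmE, fourmH, h2, h3]
      ring
  · have h1' : a ≠ j := fun h => h1 h.symm
    by_cases h2 : j = b
    · subst h2
      simp [fourmE, fourmH, h1, h1']
      ring
    · have h2' : b ≠ j := fun h => h2 h.symm
      by_cases h3 : a = b
      · subst h3
        simp [fourmE, fourmH, h1, h1']
        ring
      · have h3' : b ≠ a := fun h => h3 h.symm
        rw [Finset.prod_insert (by simp [h1, h2]), Finset.prod_insert (by simp [h3]),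
          Finset.prod_singleton]
        simp [fourmE, fourmH, h1, h1', h2, h2', h3, h3']
        ring

theorem moment_DY {n : ℕ} (Y : Matrix (Fin n) (Fin n) ℝ) (hY : Yᵀ = Y) (ξ : Fin n → ℝ)
    (j : Fin n) :
    ∫ s : Fin n → ℝ, ((s j * DY Y s : ℝ) : ℂ) *
        Complex.exp (Complex.I * ((ξ ⬝ᵥ s : ℝ) : ℂ)) =
      Complex.I * ((((Y *ᵥ ξ) j - (ξ ⬝ᵥ (Y *ᵥ ξ)) / 2 * ξ j) *
        Real.exp (-(ξ ⬝ᵥ ξ) / 2) : ℝ) : ℂ) := by
  have hb : ∀ s : Fin n → ℝ, ((s j * DY Y s : ℝ) : ℂ) *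
        Complex.exp (Complex.I * ((ξ ⬝ᵥ s : ℝ) : ℂ)) =
      (∑ a, ∑ b, ((Y a b / 2 : ℝ) : ℂ) * fourmP ξ (fourmE j a b) s) -
        ((Y.trace / 2 : ℝ) : ℂ) * fourmP ξ (fun i => if i = j then 1 else 0) s := by
    intro s
    simp_rw [fourm_P, fourm_Epow]
    have e1 : ∏ i, (s i : ℂ) ^ (if i = j then 1 else 0) = s j := by
      simp_rw [pow_ite, pow_one, pow_zero]
      simp
    rw [e1, DY]
    have e2 : s ⬝ᵥ (Y *ᵥ s) = ∑ a, ∑ b, Y a b * (s a * s b) := by
      rw [dotProduct]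
      refine Finset.sum_congr rfl fun a _ => ?_
      rw [mulVec, dotProduct, Finset.mul_sum]
      exact Finset.sum_congr rfl fun b _ => by ring
    rw [e2]
    push_cast
    simp_rw [← mul_assoc, ← Finset.sum_mul]
    have e3 : ∑ a, ∑ b, (Y a b : ℂ) / 2 * s j * s a * s b =
        s j / 2 * ∑ a, ∑ b, (Y a b : ℂ) * s a * s b := by
      rw [Finset.mul_sum]
      refine Finset.sum_congr rfl fun a _ => ?_
      rw [Finset.mul_sum]
      exact Finset.sum_congr rfl fun b _ => by ring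
    rw [e3]
    ring
  simp_rw [hb]
  have hi : ∀ a b : Fin n, Integrable (fun s : Fin n → ℝ =>
      ((Y a b / 2 : ℝ) : ℂ) * fourmP ξ (fourmE j a b) s) := fun a b =>
    (fourm_Pint ξ _).const_mul _
  rw [integral_sub (integrable_finsetSum _ fun a _ => integrable_finsetSum _ fun b _ => hi a b)
    ((fourm_Pint ξ _).const_mul _), integral_finsetSum _
      (fun a _ => integrable_finsetSum _ fun b _ => hi a b)]
  simp_rw [fun a => integral_finsetSum (μ := (volume : Measure (Fin n → ℝ))) Finset.univ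
    (fun b _ => hi a b), integral_const_mul, fun a b => fourm_PJ ξ (fourmE j a b)
      (fourm_E3 j a b), fourm_EH]
  rw [fourm_PJ ξ _ (by intro i; split_ifs <;> omega)]
  have e1 : ∏ i, fourmH (Complex.I * ξ i) (if i = j then 1 else 0) = Complex.I * ξ j := by
    rw [Finset.prod_eq_single j]
    · simp [fourmH]
    · intro b _ hb
      simp [hb, fourmH]
    · simp
  rw [e1]
  have e2 : ∑ a, ∑ b, ((Y a b / 2 : ℝ) : ℂ) * (((Real.exp (-(ξ ⬝ᵥ ξ) / 2) : ℝ) : ℂ) *
      (Complex.I * ξ j * (Complex.I * ξ a) * (Complex.I * ξ b) +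
        (if a = b then Complex.I * ξ j else 0) + (if j = a then Complex.I * ξ b else 0) +
        (if j = b then Complex.I * ξ a else 0))) =
      ((Real.exp (-(ξ ⬝ᵥ ξ) / 2) : ℝ) : ℂ) * (-(Complex.I * ξ j / 2 * (((ξ ⬝ᵥ (Y *ᵥ ξ)) : ℝ) : ℂ)) +
        Complex.I * ξ j * ((Y.trace / 2 : ℝ) : ℂ) + Complex.I * (((Y *ᵥ ξ) j : ℝ) : ℂ)) := by
    have d1 : (((ξ ⬝ᵥ (Y *ᵥ ξ)) : ℝ) : ℂ) = ∑ a, ∑ b, (Y a b : ℂ) * (ξ a * ξ b) := by
      rw [dotProduct]
      push_cast
      refine Finset.sum_congr rfl fun a _ => ?_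
      rw [mulVec, dotProduct]
      push_cast
      rw [Finset.mul_sum]
      exact Finset.sum_congr rfl fun b _ => by ring
    have d2 : ((Y.trace / 2 : ℝ) : ℂ) = ∑ a, (Y a a : ℂ) / 2 := by
      rw [trace]
      push_cast
      rw [Finset.sum_div]
      rfl
    have d3 : (((Y *ᵥ ξ) j : ℝ) : ℂ) = ∑ b, (Y j b : ℂ) * ξ b := by
      rw [mulVec, dotProduct]
      push_cast
      rfl
    have d4 : ∑ a, ∑ b, ((Y a b : ℂ) / 2) * (if j = b then Complex.I * ξ a else 0) =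
        ∑ b, (Y j b : ℂ) / 2 * (Complex.I * ξ b) := by
      refine Finset.sum_congr rfl fun a _ => ?_
      rw [Finset.sum_eq_single j (by intro b _ hb; rw [if_neg (fun h => hb h.symm)]; ring)
        (by simp)]
      have : Y a j = Y j a := by
        conv_lhs => rw [← hY]
        rfl
      simp [this]
    have d5 : ∑ a, ∑ b, ((Y a b : ℂ) / 2) * (if j = a then Complex.I * ξ b else 0) =
        ∑ b, (Y j b : ℂ) / 2 * (Complex.I * ξ b) := by
      rw [Finset.sum_eq_single j (by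
        intro b _ hb
        exact Finset.sum_eq_zero fun c _ => by rw [if_neg (fun h => hb h.symm)]; ring) (by simp)]
      simp
    have d6 : ∑ a, ∑ b, ((Y a b : ℂ) / 2) * (if a = b then Complex.I * ξ j else 0) =
        ∑ a, (Y a a : ℂ) / 2 * (Complex.I * ξ j) := by
      refine Finset.sum_congr rfl fun a _ => ?_
      rw [Finset.sum_eq_single a (by intro b _ hb; rw [if_neg (fun h => hb h.symm)]; ring)
        (by simp)]
      simp
    have d7 : ∑ a, ∑ b, ((Y a b : ℂ) / 2) * (Complex.I * ξ j * (Complex.I * ξ a) * (Complex.I * ξ b)) =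
        -(Complex.I * ξ j / 2 * ∑ a, ∑ b, (Y a b : ℂ) * (ξ a * ξ b)) := by
      rw [Finset.mul_sum, ← Finset.sum_neg_distrib]
      refine Finset.sum_congr rfl fun a _ => ?_
      rw [Finset.mul_sum, ← Finset.sum_neg_distrib]
      refine Finset.sum_congr rfl fun b _ => ?_
      linear_combination ((Y a b : ℂ) / 2) * Complex.I * ξ j * ξ a * ξ b * Complex.I_mul_I
    rw [d1, d2, d3, ← d7]
    have : ∀ a b : Fin n, ((Y a b / 2 : ℝ) : ℂ) * (((Real.exp (-(ξ ⬝ᵥ ξ) / 2) : ℝ) : ℂ) *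
      (Complex.I * ξ j * (Complex.I * ξ a) * (Complex.I * ξ b) +
        (if a = b then Complex.I * ξ j else 0) + (if j = a then Complex.I * ξ b else 0) +
        (if j = b then Complex.I * ξ a else 0))) = ((Real.exp (-(ξ ⬝ᵥ ξ) / 2) : ℝ) : ℂ) *
        (((Y a b : ℂ) / 2) * (Complex.I * ξ j * (Complex.I * ξ a) * (Complex.I * ξ b)) +
        ((Y a b : ℂ) / 2) * (if a = b then Complex.I * ξ j else 0) +
        ((Y a b : ℂ) / 2) * (if j = a then Complex.I * ξ b else 0) +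
        ((Y a b : ℂ) / 2) * (if j = b then Complex.I * ξ a else 0)) := by
      intro a b
      push_cast
      ring
    simp_rw [this, ← Finset.mul_sum, Finset.sum_add_distrib]
    rw [d4, d5, d6, Finset.mul_sum (s := Finset.univ) (f := fun a => (Y a a : ℂ) / 2),
      Finset.mul_sum (s := Finset.univ) (f := fun b => (Y j b : ℂ) * ξ b)]
    congr 1
    rw [add_assoc, add_assoc, add_assoc]
    congr 1
    congr 1
    · exact Finset.sum_congr rfl fun a _ => by ring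
    · rw [← Finset.sum_add_distrib]
      exact Finset.sum_congr rfl fun a _ => by ring
  rw [e2]
  push_cast
  ring

end Pool.Agent.ChP
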