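import Pool.Agent.ChP.Spec

/-!
# Geometric means and the multiplicative distance

`X = gm P Q` is the unique positive definite solution of `X * P⁻¹ * X = Q`:
`(P^{-1/2} X P^{-1/2})² = P^{-1/2} Q P^{-1/2}` and positive square roots are unique.  From this:
`gm P P = P`, equivariance (`(g X gᵀ)(g P gᵀ)⁻¹(g X gᵀ) = g Q gᵀ`), symmetry (`X Q⁻¹ X = P`, take
inverses of `X P⁻¹ X = Q` and multiply by `X` on both sides), and homogeneity
`gm P (c • Q) = √c • gm P Q`.  Monotonicity in `Q`: the square root is operator monotone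
(`CFC.sqrt_le_sqrt` or: for positive definite `A, B` with `A² ≤ B²` one has `A ≤ B`: an eigenvector
`(B - A) v = μ v` gives `0 ≤ ⟨(B² - A²) v, v⟩ = ⟨B v, (B-A) v⟩ + ⟨(B-A) v, A v⟩ = μ ⟨(A+B)v, v⟩`).
So if `Q ≤ e^δ Q'` and `Q' ≤ e^δ Q` then `gm P Q ≤ gm P (e^δ Q') = e^{δ/2} gm P Q'` and
conversely.
-/

namespace Pool.Agent.ChP

open Matrix

variable {n : ℕ}

private theorem gM_symm {P : Matrix (Fin n) (Fin n) ℝ} (hP : P.PosDef) : Pᵀ = P := by
  have := hP.isHermitian.eq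
  rwa [conjTranspose_eq_transpose_of_trivial] at this

private theorem gM_det {P : Matrix (Fin n) (Fin n) ℝ} (hP : P.PosDef) : P.det ≠ 0 :=
  hP.det_pos.ne'

private theorem gM_unit {P : Matrix (Fin n) (Fin n) ℝ} (hP : P.PosDef) : IsUnit P.det :=
  isUnit_iff_ne_zero.2 (gM_det hP)

/-- conjugation by an invertible matrix -/
private theorem gM_conj_posDef {P g : Matrix (Fin n) (Fin n) ℝ} (hP : P.PosDef)
    (hg : g.det ≠ 0) : (g * P * gᵀ).PosDef := by
  have hu : IsUnit g := (Matrix.isUnit_iff_isUnit_det g).2 (isUnit_iff_ne_zero.2 hg)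
  have := (Matrix.IsUnit.posDef_star_right_conjugate_iff (x := P) hu).2 hP
  rwa [star_eq_conjTranspose, conjTranspose_eq_transpose_of_trivial] at this

private theorem gM_conj_psd {P : Matrix (Fin n) (Fin n) ℝ} (g : Matrix (Fin n) (Fin n) ℝ)
    (hP : P.PosSemidef) : (g * P * gᵀ).PosSemidef := by
  have := hP.mul_mul_conjTranspose_same g
  rwa [conjTranspose_eq_transpose_of_trivial] at this

/-- The square root of a positive definite matrix. -/
private theorem gM_sqrt {P : Matrix (Fin n) (Fin n) ℝ} (hP : P.PosDef) :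
    (cfc Real.sqrt P).PosDef ∧ cfc Real.sqrt P * cfc Real.sqrt P = P := by
  obtain ⟨U, l, hU, hU', h⟩ := exists_spec P (gM_symm hP)
  have hl := (posDef_iff_spec hU' h).1 hP
  have hc := cfc_conj_diagonal hU' h Real.sqrt
  refine ⟨(posDef_iff_spec hU' hc).2 fun i => Real.sqrt_pos.2 (hl i), ?_⟩
  rw [hc]
  calc U * diagonal (fun i => Real.sqrt (l i)) * Uᵀ * (U * diagonal (fun i => Real.sqrt (l i)) * Uᵀ)
      = U * diagonal (fun i => Real.sqrt (l i)) * (Uᵀ * U) *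
          (diagonal (fun i => Real.sqrt (l i)) * Uᵀ) := by simp only [Matrix.mul_assoc]
    _ = U * (diagonal (fun i => Real.sqrt (l i)) * diagonal (fun i => Real.sqrt (l i))) * Uᵀ := by
        rw [hU']; simp only [Matrix.mul_assoc, Matrix.mul_one]
    _ = U * diagonal l * Uᵀ := by
        rw [diagonal_mul_diagonal]
        congr 3
        funext i
        exact Real.mul_self_sqrt (hl i).le
    _ = P := h.symm

/-- The square root is operator monotone. -/
private theorem gM_mono {A B : Matrix (Fin n) (Fin n) ℝ} (hA : A.PosDef) (hB : B.PosDef)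
    (h : (B * B - A * A).PosSemidef) : (B - A).PosSemidef := by
  have hs : (B - A)ᵀ = B - A := by rw [transpose_sub, gM_symm hA, gM_symm hB]
  obtain ⟨U, l, hU, hU', hd⟩ := exists_spec (B - A) hs
  rw [posSemidef_iff_spec hU' hd]
  intro i
  -- the i-th column of U
  set v : Fin n → ℝ := fun k => U k i with hv
  have hvv : v ⬝ᵥ v = 1 := by
    have := congrFun (congrFun hU' i) i
    simpa [Matrix.mul_apply, dotProduct] using this
  have hv0 : v ≠ 0 := by
    rintro h0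
    rw [h0] at hvv
    simp at hvv
  have hev : (B - A) *ᵥ v = l i • v := by
    have h1 : (B - A) * U = U * diagonal l := by
      rw [hd]
      simp only [Matrix.mul_assoc, hU', Matrix.mul_one]
    funext k
    have h2 := congrFun (congrFun h1 k) i
    rw [Matrix.mul_diagonal] at h2
    have h3 : ((B - A) *ᵥ v) k = ((B - A) * U) k i := by
      simp [Matrix.mulVec, dotProduct, Matrix.mul_apply, hv]
    rw [h3, h2]
    simp [hv, mul_comm]
  have hpos : 0 < v ⬝ᵥ ((A + B) *ᵥ v) := by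
    have := (hA.add hB).dotProduct_mulVec_pos hv0
    simpa using this
  have hnn : 0 ≤ v ⬝ᵥ ((B * B - A * A) *ᵥ v) := by
    have := h.dotProduct_mulVec_nonneg v
    simpa using this
  have hid : v ⬝ᵥ ((B * B - A * A) *ᵥ v) = l i * (v ⬝ᵥ ((A + B) *ᵥ v)) := by
    have e1 : B * B - A * A = B * (B - A) + (B - A) * A := by noncomm_ring
    rw [e1, Matrix.add_mulVec, dotProduct_add, ← Matrix.mulVec_mulVec, ← Matrix.mulVec_mulVec, hev]
    have e2 : v ⬝ᵥ ((B - A) *ᵥ (A *ᵥ v)) = (l i • v) ⬝ᵥ (A *ᵥ v) := by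
      rw [Matrix.dotProduct_mulVec, ← hev]
      congr 1
      rw [← Matrix.mulVec_transpose, hs]
    rw [e2, Matrix.mulVec_smul, dotProduct_smul, smul_dotProduct, Matrix.add_mulVec, dotProduct_add]
    simp only [smul_eq_mul]
    ring
  rw [hid] at hnn
  exact nonneg_of_mul_nonneg_left hnn hpos

private theorem gM_antisymm {A B : Matrix (Fin n) (Fin n) ℝ} (h : (B - A).PosSemidef)
    (h' : (A - B).PosSemidef) : A = B := by
  open scoped MatrixOrder in
  exact le_antisymm (Matrix.le_iff.2 h) (Matrix.le_iff.2 h')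

private theorem gM_sq_unique {A B : Matrix (Fin n) (Fin n) ℝ} (hA : A.PosDef) (hB : B.PosDef)
    (h : A * A = B * B) : A = B := by
  apply gM_antisymm
  · apply gM_mono hA hB
    rw [h, sub_self]
    exact PosSemidef.zero
  · apply gM_mono hB hA
    rw [h, sub_self]
    exact PosSemidef.zero

private theorem gM_core {P Q : Matrix (Fin n) (Fin n) ℝ} (hP : P.PosDef) (hQ : Q.PosDef) :
    ((cfc Real.sqrt P)⁻¹ * Q * (cfc Real.sqrt P)⁻¹).PosDef := by
  have hS := (gM_sqrt hP).1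
  have h1 := gM_conj_posDef (g := (cfc Real.sqrt P)⁻¹) hQ (gM_det hS.inv)
  rwa [gM_symm hS.inv] at h1

theorem gm_posDef {P Q : Matrix (Fin n) (Fin n) ℝ} (hP : P.PosDef) (hQ : Q.PosDef) :
    (gm P Q).PosDef := by
  have hS := (gM_sqrt hP).1
  have h1 := gM_conj_posDef (g := cfc Real.sqrt P) (gM_sqrt (gM_core hP hQ)).1 (gM_det hS)
  rwa [gM_symm hS] at h1

/-- `P = S²` gives `P⁻¹ = S⁻¹ S⁻¹`. -/
private theorem gM_inv {P : Matrix (Fin n) (Fin n) ℝ} (hP : P.PosDef) :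
    P⁻¹ = (cfc Real.sqrt P)⁻¹ * (cfc Real.sqrt P)⁻¹ := by
  conv_lhs => rw [← (gM_sqrt hP).2]
  rw [Matrix.mul_inv_rev]

theorem gm_riccati {P Q : Matrix (Fin n) (Fin n) ℝ} (hP : P.PosDef) (hQ : Q.PosDef) :
    gm P Q * P⁻¹ * gm P Q = Q := by
  have hS := (gM_sqrt hP).1
  have hu := gM_unit hS
  set S := cfc Real.sqrt P with hSdef
  set R := cfc Real.sqrt (S⁻¹ * Q * S⁻¹) with hR
  have hRR : R * R = S⁻¹ * Q * S⁻¹ := (gM_sqrt (gM_core hP hQ)).2
  have hg : gm P Q = S * R * S := rfl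
  rw [hg, gM_inv hP, ← hSdef]
  calc S * R * S * (S⁻¹ * S⁻¹) * (S * R * S)
      = S * R * (S * S⁻¹) * (S⁻¹ * S) * R * S := by simp only [Matrix.mul_assoc]
    _ = S * (R * R) * S := by
        rw [Matrix.mul_nonsing_inv _ hu, Matrix.nonsing_inv_mul _ hu]
        simp only [Matrix.mul_assoc, Matrix.mul_one]
    _ = (S * S⁻¹) * Q * (S⁻¹ * S) := by rw [hRR]; simp only [Matrix.mul_assoc]
    _ = Q := by
        rw [Matrix.mul_nonsing_inv _ hu, Matrix.nonsing_inv_mul _ hu, Matrix.one_mul,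
          Matrix.mul_one]

theorem gm_unique {P Q X : Matrix (Fin n) (Fin n) ℝ} (hP : P.PosDef) (hQ : Q.PosDef)
    (hX : X.PosDef) (h : X * P⁻¹ * X = Q) : X = gm P Q := by
  have hS := (gM_sqrt hP).1
  have hu := gM_unit hS
  have hinv := gM_inv hP
  have hcore := gM_core hP hQ
  have hg : gm P Q = cfc Real.sqrt P * cfc Real.sqrt ((cfc Real.sqrt P)⁻¹ * Q *
    (cfc Real.sqrt P)⁻¹) * cfc Real.sqrt P := rfl
  rw [hg]
  set S := cfc Real.sqrt P with hSdef
  have hY : (S⁻¹ * X * S⁻¹).PosDef := by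
    have h1 := gM_conj_posDef (g := S⁻¹) hX (gM_det hS.inv)
    rwa [gM_symm hS.inv] at h1
  have hYY : S⁻¹ * X * S⁻¹ * (S⁻¹ * X * S⁻¹) = cfc Real.sqrt (S⁻¹ * Q * S⁻¹) *
      cfc Real.sqrt (S⁻¹ * Q * S⁻¹) := by
    rw [(gM_sqrt hcore).2, ← h, hinv]
    simp only [Matrix.mul_assoc]
  have hE := gM_sq_unique hY (gM_sqrt hcore).1 hYY
  rw [← hE]
  calc X = (S * S⁻¹) * X * (S⁻¹ * S) := by
        rw [Matrix.mul_nonsing_inv _ hu, Matrix.nonsing_inv_mul _ hu, Matrix.one_mul,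
          Matrix.mul_one]
    _ = S * (S⁻¹ * X * S⁻¹) * S := by simp only [Matrix.mul_assoc]

theorem gm_self {P : Matrix (Fin n) (Fin n) ℝ} (hP : P.PosDef) : gm P P = P := by
  refine (gm_unique hP hP hP ?_).symm
  rw [Matrix.mul_nonsing_inv _ (gM_unit hP), Matrix.one_mul]

theorem gm_comm {P Q : Matrix (Fin n) (Fin n) ℝ} (hP : P.PosDef) (hQ : Q.PosDef) :
    gm P Q = gm Q P := by
  have hX := gm_posDef hP hQ
  refine gm_unique hQ hP hX ?_
  have hr := gm_riccati hP hQ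
  set X := gm P Q with hXdef
  have hu := gM_unit hX
  have hq : Q⁻¹ = X⁻¹ * P * X⁻¹ := by
    rw [← hr, Matrix.mul_inv_rev, Matrix.mul_inv_rev, Matrix.nonsing_inv_nonsing_inv _ (gM_unit hP)]
    simp only [Matrix.mul_assoc]
  rw [hq]
  calc X * (X⁻¹ * P * X⁻¹) * X = (X * X⁻¹) * P * (X⁻¹ * X) := by simp only [Matrix.mul_assoc]
    _ = P := by
        rw [Matrix.mul_nonsing_inv _ hu, Matrix.nonsing_inv_mul _ hu, Matrix.one_mul,
          Matrix.mul_one]

theorem gm_conj {P Q g : Matrix (Fin n) (Fin n) ℝ} (hP : P.PosDef) (hQ : Q.PosDef)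
    (hg : g.det ≠ 0) : gm (g * P * gᵀ) (g * Q * gᵀ) = g * gm P Q * gᵀ := by
  have hgu : IsUnit g.det := isUnit_iff_ne_zero.2 hg
  have hgtu : IsUnit gᵀ.det := by rw [Matrix.det_transpose]; exact hgu
  refine (gm_unique (gM_conj_posDef hP hg) (gM_conj_posDef hQ hg)
    (gM_conj_posDef (gm_posDef hP hQ) hg) ?_).symm
  have hr := gm_riccati hP hQ
  set X := gm P Q with hXdef
  rw [Matrix.mul_inv_rev, Matrix.mul_inv_rev]
  calc g * X * gᵀ * (gᵀ⁻¹ * (P⁻¹ * g⁻¹)) * (g * X * gᵀ)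
      = g * X * (gᵀ * gᵀ⁻¹) * P⁻¹ * (g⁻¹ * g) * X * gᵀ := by simp only [Matrix.mul_assoc]
    _ = g * (X * P⁻¹ * X) * gᵀ := by
        rw [Matrix.mul_nonsing_inv _ hgtu, Matrix.nonsing_inv_mul _ hgu]
        simp only [Matrix.mul_assoc, Matrix.mul_one]
    _ = g * Q * gᵀ := by rw [hr]

private theorem gM_smul_posDef {P : Matrix (Fin n) (Fin n) ℝ} (hP : P.PosDef) {c : ℝ}
    (hc : 0 < c) : (c • P).PosDef := hP.smul hc

private theorem gM_smul_psd {P : Matrix (Fin n) (Fin n) ℝ} (hP : P.PosSemidef) {c : ℝ}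
    (hc : 0 ≤ c) : (c • P).PosSemidef := hP.smul hc

/-- monotonicity of the geometric mean in the second variable -/
private theorem gM_gm_mono {P Q Q' : Matrix (Fin n) (Fin n) ℝ} (hP : P.PosDef)
    (hQ : Q.PosDef) (hQ' : Q'.PosDef) (h : (Q' - Q).PosSemidef) :
    (gm P Q' - gm P Q).PosSemidef := by
  have hS := (gM_sqrt hP).1
  have h1 : ((cfc Real.sqrt P)⁻¹ * Q' * (cfc Real.sqrt P)⁻¹ -
      (cfc Real.sqrt P)⁻¹ * Q * (cfc Real.sqrt P)⁻¹).PosSemidef := by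
    have h2 := gM_conj_psd (cfc Real.sqrt P)⁻¹ h
    rw [gM_symm hS.inv] at h2
    have e : (cfc Real.sqrt P)⁻¹ * Q' * (cfc Real.sqrt P)⁻¹ -
      (cfc Real.sqrt P)⁻¹ * Q * (cfc Real.sqrt P)⁻¹ =
      (cfc Real.sqrt P)⁻¹ * (Q' - Q) * (cfc Real.sqrt P)⁻¹ := by noncomm_ring
    rw [e]
    exact h2
  have hQc := gM_sqrt (gM_core hP hQ)
  have hQc' := gM_sqrt (gM_core hP hQ')
  have h3 := gM_mono hQc.1 hQc'.1 (by rw [hQc.2, hQc'.2]; exact h1)
  have h4 := gM_conj_psd (cfc Real.sqrt P) h3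
  rw [gM_symm hS] at h4
  have e : gm P Q' - gm P Q = cfc Real.sqrt P * (cfc Real.sqrt ((cfc Real.sqrt P)⁻¹ * Q' *
      (cfc Real.sqrt P)⁻¹) - cfc Real.sqrt ((cfc Real.sqrt P)⁻¹ * Q *
      (cfc Real.sqrt P)⁻¹)) * cfc Real.sqrt P := by
    unfold gm
    noncomm_ring
  rw [e]
  exact h4

private theorem gM_gm_smul {P Q : Matrix (Fin n) (Fin n) ℝ} (hP : P.PosDef)
    (hQ : Q.PosDef) (δ : ℝ) : gm P (Real.exp δ • Q) = Real.exp (δ / 2) • gm P Q := by
  refine (gm_unique hP (gM_smul_posDef hQ (Real.exp_pos _))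
    (gM_smul_posDef (gm_posDef hP hQ) (Real.exp_pos _)) ?_).symm
  rw [Matrix.smul_mul, Matrix.smul_mul, Matrix.mul_smul, smul_smul, ← Real.exp_add,
    gm_riccati hP hQ]
  congr 2
  ring

theorem close_gm_right {P Q Q' : Matrix (Fin n) (Fin n) ℝ} {δ : ℝ} (hP : P.PosDef)
    (hQ : Q.PosDef) (hQ' : Q'.PosDef) (h : Close δ Q Q') :
    Close (δ / 2) (gm P Q) (gm P Q') := by
  obtain ⟨h1, h2⟩ := h
  constructor
  · have := gM_gm_mono hP hQ (gM_smul_posDef hQ' (Real.exp_pos δ)) h1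
    rwa [gM_gm_smul hP hQ'] at this
  · have := gM_gm_mono hP hQ' (gM_smul_posDef hQ (Real.exp_pos δ)) h2
    rwa [gM_gm_smul hP hQ] at this

theorem close_gm_left {P P' Q : Matrix (Fin n) (Fin n) ℝ} {δ : ℝ} (hP : P.PosDef)
    (hP' : P'.PosDef) (hQ : Q.PosDef) (h : Close δ P P') :
    Close (δ / 2) (gm P Q) (gm P' Q) := by
  rw [gm_comm hP hQ, gm_comm hP' hQ]
  exact close_gm_right hQ hP hP' h

theorem Close.refl (P : Matrix (Fin n) (Fin n) ℝ) : Close 0 P P := by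
  constructor <;> simp [PosSemidef.zero]

theorem Close.symm {P Q : Matrix (Fin n) (Fin n) ℝ} {δ : ℝ} (h : Close δ P Q) :
    Close δ Q P := ⟨h.2, h.1⟩

private theorem gM_trans {P Q R : Matrix (Fin n) (Fin n) ℝ} {δ δ' : ℝ}
    (h : (Real.exp δ • Q - P).PosSemidef) (h' : (Real.exp δ' • R - Q).PosSemidef) :
    (Real.exp (δ + δ') • R - P).PosSemidef := by
  have e : Real.exp (δ + δ') • R - P = Real.exp δ • (Real.exp δ' • R - Q) +
      (Real.exp δ • Q - P) := by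
    rw [smul_sub, smul_smul, ← Real.exp_add]
    abel
  rw [e]
  exact (gM_smul_psd h' (Real.exp_pos _).le).add h

theorem Close.trans {P Q R : Matrix (Fin n) (Fin n) ℝ} {δ δ' : ℝ}
    (h : Close δ P Q) (h' : Close δ' Q R) : Close (δ + δ') P R := by
  refine ⟨gM_trans h.1 h'.1, ?_⟩
  rw [add_comm]
  exact gM_trans h'.2 h.2

private theorem gM_monoD {P Q : Matrix (Fin n) (Fin n) ℝ} {δ δ' : ℝ}
    (hQ : Q.PosSemidef) (h : (Real.exp δ • Q - P).PosSemidef) (hd : δ ≤ δ') :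
    (Real.exp δ' • Q - P).PosSemidef := by
  have e : Real.exp δ' • Q - P = (Real.exp δ' - Real.exp δ) • Q + (Real.exp δ • Q - P) := by
    rw [sub_smul]
    abel
  rw [e]
  exact (gM_smul_psd hQ (sub_nonneg.2 (Real.exp_le_exp.2 hd))).add h

theorem Close.mono {P Q : Matrix (Fin n) (Fin n) ℝ} {δ δ' : ℝ} (hP : P.PosSemidef)
    (hQ : Q.PosSemidef) (h : Close δ P Q) (hd : δ ≤ δ') : Close δ' P Q :=
  ⟨gM_monoD hQ h.1 hd, gM_monoD hP h.2 hd⟩

private theorem gM_conjD {P Q : Matrix (Fin n) (Fin n) ℝ} {δ : ℝ}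
    (h : (Real.exp δ • Q - P).PosSemidef) (g : Matrix (Fin n) (Fin n) ℝ) :
    (Real.exp δ • (g * Q * gᵀ) - g * P * gᵀ).PosSemidef := by
  have h1 := gM_conj_psd g h
  have e : Real.exp δ • (g * Q * gᵀ) - g * P * gᵀ = g * (Real.exp δ • Q - P) * gᵀ := by
    rw [Matrix.mul_sub, Matrix.sub_mul, Matrix.mul_smul, Matrix.smul_mul]
  rw [e]
  exact h1

theorem Close.conj {P Q : Matrix (Fin n) (Fin n) ℝ} {δ : ℝ} (h : Close δ P Q)
    (g : Matrix (Fin n) (Fin n) ℝ) : Close δ (g * P * gᵀ) (g * Q * gᵀ) :=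
  ⟨gM_conjD h.1 g, gM_conjD h.2 g⟩

/-- every positive definite matrix is close to `1` -/
private theorem gM_close_one {A : Matrix (Fin n) (Fin n) ℝ} (hA : A.PosDef) :
    ∃ δ : ℝ, 0 ≤ δ ∧ Close δ 1 A := by
  obtain ⟨U, l, hU, hU', h⟩ := exists_spec A (gM_symm hA)
  have hl := (posDef_iff_spec hU' h).1 hA
  refine ⟨∑ i, |Real.log (l i)|, Finset.sum_nonneg fun i _ => abs_nonneg _, ?_⟩
  rw [close_one_iff_spec hU' h]
  intro i
  have hi : |Real.log (l i)| ≤ ∑ i, |Real.log (l i)| :=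
    Finset.single_le_sum (f := fun i => |Real.log (l i)|) (fun i _ => abs_nonneg _)
      (Finset.mem_univ i)
  have h1 := abs_le.1 hi
  constructor
  · calc Real.exp (-∑ i, |Real.log (l i)|) ≤ Real.exp (Real.log (l i)) :=
          Real.exp_le_exp.2 h1.1
      _ = l i := Real.exp_log (hl i)
  · calc l i = Real.exp (Real.log (l i)) := (Real.exp_log (hl i)).symm
      _ ≤ _ := Real.exp_le_exp.2 h1.2

theorem exists_close {P Q : Matrix (Fin n) (Fin n) ℝ} (hP : P.PosDef) (hQ : Q.PosDef) :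
    ∃ δ : ℝ, 0 ≤ δ ∧ Close δ P Q := by
  obtain ⟨a, ha, h1⟩ := gM_close_one hP
  obtain ⟨b, hb, h2⟩ := gM_close_one hQ
  exact ⟨a + b, add_nonneg ha hb, h1.symm.trans h2⟩

end Pool.Agent.ChP
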