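import Pool.Agent.ChP.Tens

/-!
# From homogeneous polynomials to symmetric tensors

A homogeneous polynomial `f` of degree `d` has a symmetric tensor `T` with
`tpoly T v = eval v f` (distribute the coefficient of each monomial evenly over the words `I` with
that content, or use iterated partial derivatives divided by `d!`).  If
`f (g v) = c f(v)` then `tact T g = c • T` by `TSym.ext`.  `c = c(γ)` is unique, as
`f ≠ 0`, non-zero and multiplicative in `γ`; put `κ γ = |c(γ)|^{-1/d}`: then
`tact T (κ γ • ρ γ) = κ^d c • T = ± T`.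
-/

namespace Pool.Agent.ChP

open Matrix

private theorem polyTen_word {n : ℕ} (d : ℕ) : ∀ m : Fin n →₀ ℕ, (∑ i, m i) = d →
    ∃ I : Fin d → Fin n, (∑ k, Finsupp.single (I k) 1 : Fin n →₀ ℕ) = m := by
  classical
  induction d with
  | zero =>
    intro m hm
    refine ⟨Fin.elim0, ?_⟩
    ext i
    have h1 : m i ≤ ∑ j, m j := Finset.single_le_sum (fun _ _ => Nat.zero_le _) (Finset.mem_univ i)
    rw [hm] at h1
    simp
    omega
  | succ d ih =>
    intro m hm
    have hex : ∃ i, m i ≠ 0 := by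
      by_contra hcon
      push Not at hcon
      rw [Finset.sum_eq_zero fun i _ => hcon i] at hm
      omega
    obtain ⟨i, hi⟩ := hex
    have hle : Finsupp.single i 1 ≤ m := by
      rw [Finsupp.single_le_iff]
      omega
    have hdec : m - Finsupp.single i 1 + Finsupp.single i 1 = m := tsub_add_cancel_of_le hle
    have hsum : (∑ j, (m - Finsupp.single i 1 : Fin n →₀ ℕ) j) = d := by
      have h1 : (∑ j, (m - Finsupp.single i 1 + Finsupp.single i 1 : Fin n →₀ ℕ) j) = d + 1 := by
        rw [hdec, hm]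
      simp only [Finsupp.add_apply, Finset.sum_add_distrib] at h1
      have h2 : (∑ j, (Finsupp.single i 1 : Fin n →₀ ℕ) j) = 1 := by
        simp [Finsupp.single_apply]
      omega
    obtain ⟨I, hI⟩ := ih _ hsum
    refine ⟨Fin.cons i I, ?_⟩
    rw [Fin.sum_univ_succ]
    simp only [Fin.cons_zero, Fin.cons_succ]
    rw [hI, add_comm]
    exact hdec

private theorem polyTen_eval {d n : ℕ} (I : Fin d → Fin n) (c : ℝ) (v : Fin n → ℝ) :
    MvPolynomial.eval v (MvPolynomial.monomial (∑ k, Finsupp.single (I k) 1) c) =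
      c * ∏ k, v (I k) := by
  have h1 : (MvPolynomial.monomial (∑ k, Finsupp.single (I k) 1) c : MvPolynomial (Fin n) ℝ) =
      MvPolynomial.C c * ∏ k, MvPolynomial.X (I k) := by
    rw [MvPolynomial.monomial_sum_index]
    rfl
  rw [h1, map_mul, MvPolynomial.eval_C, map_prod]
  simp

theorem exists_tensor {d n : ℕ} (f : MvPolynomial (Fin n) ℝ) (hf : f.IsHomogeneous d) :
    ∃ T : Ten d n, TSym T ∧ ∀ v, tpoly T v = MvPolynomial.eval v f := by
  classical
  have hw : ∀ m : f.support, ∃ I : Fin d → Fin n,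
      (∑ k, Finsupp.single (I k) 1 : Fin n →₀ ℕ) = m := by
    intro m
    have hdeg : (∑ i, (m : Fin n →₀ ℕ) i) = d := by
      have h1 := hf (MvPolynomial.mem_support_iff.1 m.2)
      rw [← h1, Finsupp.weight_apply, Finsupp.sum_fintype]
      · simp
      · simp
    exact polyTen_word d (m : Fin n →₀ ℕ) hdeg
  choose w hwm using hw
  set T0 : Ten d n := fun I => ∑ m : f.support, if I = w m then f.coeff m else 0 with hT0
  have hp0 : ∀ v, tpoly T0 v = MvPolynomial.eval v f := by
    intro v
    have h1 : MvPolynomial.eval v f =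
        ∑ m : f.support, MvPolynomial.eval v (MvPolynomial.monomial (m : Fin n →₀ ℕ) (f.coeff m)) := by
      conv_lhs => rw [← MvPolynomial.support_sum_monomial_coeff f]
      rw [map_sum]
      exact (Finset.sum_coe_sort f.support
        (fun m => MvPolynomial.eval v (MvPolynomial.monomial m (f.coeff m)))).symm
    have h2 : ∀ m : f.support,
        MvPolynomial.eval v (MvPolynomial.monomial (m : Fin n →₀ ℕ) (f.coeff m)) =
          f.coeff m * ∏ k, v (w m k) := by
      intro m
      have h3 := polyTen_eval (w m) (f.coeff m) v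
      rw [hwm m] at h3
      exact h3
    rw [h1, Finset.sum_congr rfl fun m _ => h2 m]
    unfold tpoly
    simp only [hT0, Finset.sum_mul]
    rw [Finset.sum_comm]
    refine Finset.sum_congr rfl fun m _ => ?_
    rw [Finset.sum_eq_single (w m)]
    · rw [if_pos rfl]
    · intro I _ hI
      rw [if_neg hI, zero_mul]
    · intro h
      exact absurd (Finset.mem_univ _) h
  -- symmetrisation
  refine ⟨fun I => ((Fintype.card (Equiv.Perm (Fin d)) : ℕ) : ℝ)⁻¹ *
    ∑ e : Equiv.Perm (Fin d), T0 (fun k => I (e k)), ?_, ?_⟩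
  · intro e I
    show _ * ∑ e' : Equiv.Perm (Fin d), T0 (fun k => I (e (e' k))) = _
    congr 1
    exact Equiv.sum_comp (Equiv.mulLeft e) (fun s : Equiv.Perm (Fin d) => T0 (fun k => I (s k)))
  · intro v
    rw [← hp0 v]
    have hcard : ((Fintype.card (Equiv.Perm (Fin d)) : ℕ) : ℝ) ≠ 0 := by
      exact_mod_cast Fintype.card_ne_zero
    have h1 : ∀ e : Equiv.Perm (Fin d),
        ∑ I : Fin d → Fin n, T0 (fun k => I (e k)) * ∏ k, v (I k) = tpoly T0 v := by
      intro e
      unfold tpoly
      rw [← Equiv.sum_comp (Equiv.arrowCongr e.symm (Equiv.refl (Fin n)))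
        (fun I : Fin d → Fin n => T0 I * ∏ k, v (I k))]
      refine Finset.sum_congr rfl fun J _ => ?_
      have h2 : (Equiv.arrowCongr e.symm (Equiv.refl (Fin n))) J = fun k => J (e k) := by
        funext k
        simp [Equiv.arrowCongr]
      rw [h2]
      congr 1
      exact (Equiv.prod_comp e (fun k => v (J k))).symm
    unfold tpoly
    simp only [mul_assoc, Finset.sum_mul]
    rw [← Finset.mul_sum, Finset.sum_comm, Finset.sum_congr rfl fun e _ => h1 e,
      Finset.sum_const, Finset.card_univ, nsmul_eq_mul, inv_mul_cancel_left₀ hcard]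
    rfl

private theorem polyTen_smul {d n : ℕ} (T : Ten d n) (c : ℝ) (v : Fin n → ℝ) :
    tpoly (c • T) v = c * tpoly T v := by
  simp only [tpoly, Pi.smul_apply, smul_eq_mul, Finset.mul_sum, mul_assoc]

private theorem polyTen_sym_smul {d n : ℕ} {T : Ten d n} (hT : TSym T) (c : ℝ) : TSym (c • T) := by
  intro e I
  simp only [Pi.smul_apply]
  rw [hT e I]

theorem exists_normalised {d n : ℕ} {Γ : Type*} [Group Γ] (hd : 0 < d)
    (f : MvPolynomial (Fin n) ℝ) (hf : f.IsHomogeneous d) (h0 : f ≠ 0)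
    (ρ : Γ →* Matrix (Fin n) (Fin n) ℝ)
    (h : ∀ γ, ∃ c : ℝ, ∀ v : Fin n → ℝ,
      MvPolynomial.eval (ρ γ *ᵥ v) f = c * MvPolynomial.eval v f) :
    ∃ (T : Ten d n) (κ : Γ →* ℝ), TSym T ∧ T ≠ 0 ∧ (∀ γ, 0 < κ γ) ∧
      ∀ γ, Fixes T (κ γ • ρ γ) := by
  obtain ⟨T, hT, hTf⟩ := exists_tensor f hf
  have hT0 : T ≠ 0 := by
    intro hz
    apply h0
    apply MvPolynomial.funext
    intro v
    rw [← hTf v, hz, map_zero]
    simp [tpoly]
  choose c hc using h
  have hact : ∀ γ, tact T (ρ γ) = c γ • T := by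
    intro γ
    refine TSym.ext (hT.tact _) (polyTen_sym_smul hT _) fun v => ?_
    rw [tpoly_tact, polyTen_smul, hTf, hTf, hc]
  have huniq : ∀ a b : ℝ, a • T = b • T → a = b := by
    intro a b hab
    by_contra hne
    have h1 : (a - b) • T = 0 := by rw [sub_smul, hab, sub_self]
    rcases smul_eq_zero.1 h1 with h2 | h2
    · exact hne (sub_eq_zero.1 h2)
    · exact hT0 h2
  have hc1 : c 1 = 1 := by
    apply huniq
    rw [← hact, map_one, tact_one, one_smul]
  have hcm : ∀ a b, c (a * b) = c a * c b := by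
    intro a b
    apply huniq
    rw [← hact, map_mul, ← tact_mul, hact, tact_smul, hact, smul_smul]
  have hcne : ∀ γ, c γ ≠ 0 := by
    intro γ hz
    have h1 := hcm γ γ⁻¹
    rw [mul_inv_cancel, hc1, hz, zero_mul] at h1
    exact one_ne_zero h1
  refine ⟨T, { toFun := fun γ => |c γ| ^ (-(1 / (d : ℝ))), map_one' := ?_, map_mul' := ?_ },
    hT, hT0, ?_, ?_⟩
  · simp [hc1]
  · intro a b
    rw [hcm, abs_mul, Real.mul_rpow (abs_nonneg _) (abs_nonneg _)]
  · intro γ
    exact Real.rpow_pos_of_pos (abs_pos.2 (hcne γ)) _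
  · intro γ
    show Fixes T ((|c γ| ^ (-(1 / (d : ℝ)))) • ρ γ)
    have hpow : (|c γ| ^ (-(1 / (d : ℝ)))) ^ d = |c γ|⁻¹ := by
      rw [← Real.rpow_natCast, ← Real.rpow_mul (abs_nonneg _), ← Real.rpow_neg_one]
      congr 1
      have : (d : ℝ) ≠ 0 := by exact_mod_cast hd.ne'
      field_simp
    unfold Fixes
    rw [tact_smul_mat, hact, hpow, smul_smul]
    rcases lt_or_gt_of_ne (hcne γ) with h1 | h1
    · right
      rw [abs_of_neg h1, inv_neg, neg_mul, inv_mul_cancel₀ (hcne γ), neg_one_smul]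
    · left
      rw [abs_of_pos h1, inv_mul_cancel₀ (hcne γ), one_smul]

end Pool.Agent.ChP
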