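import Pool.Agent.ChP.Star

/-!
# Orientation signs of the simplices of the interval subdivision

Let `t` be a chain, `σ = (t 0).1.1`, top simplex `τ = U_n`, `L_n = {v₀}`.  All `b_L`, `L ⊆ σ`, lie
in the affine span of `dev σ`; `b_U - b_σ = (1/|U|) ∑_{w ∈ U \ σ} (dev w - b_σ)` for `U ⊇ σ`.
The vectors `dev v - dev v₀` (`v ∈ σ`, `v ≠ v₀`) and `dev w - b_σ` (`w ∈ τ \ σ`) form a basis of
`ℝ^n` (`indep`).  The differences `pos t_i - pos t_{i-1}` are positive multiples of
`b_L - dev v` (if `v` is removed from `L = L_{i-1}`) or of `dev w - b_U` (if `w` is added to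
`U = U_{i-1}`); the additions are triangular modulo the span of the first part of the basis, the
removals are triangular in the first part (in the reverse order).  So the
`pos t_i - pos t_0` are a basis.

`mor_mul_sign_det`: the linear map `θ` with `θ = 1` on the first part of the basis and `-1` on the
second part maps `pos t_i - pos t_0 = (b_L - b_σ) + (b_U - b_σ)` to
`vec t_i = (b_L - b_σ) - (b_U - b_σ)` and has determinant `(-1)^{n + 1 - |σ|}`.

`mor_eq_neg`: use the function `O(x_0, ..., x_n) = det (x_a - x_0)_{a = 1..n}`, i.e. the determinant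
of the `(n+1)`-matrix with rows `(1, x_i)`; it is linear in each row, so the relation gives
`α O(t) + β O(t') = ∑ a_i O(.. row i at place j ..) = 0`.
-/

namespace Pool.Agent.ChP

open Matrix

private theorem OSign_sign_mul (a b : ℝ) : Real.sign (a * b) = Real.sign a * Real.sign b := by
  rcases lt_trichotomy a 0 with ha | rfl | ha
  · rcases lt_trichotomy b 0 with hb | rfl | hb
    · rw [Real.sign_of_neg ha, Real.sign_of_neg hb, Real.sign_of_pos (mul_pos_of_neg_of_neg ha hb)]
      norm_num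
    · rw [mul_zero, Real.sign_zero, mul_zero]
    · rw [Real.sign_of_neg ha, Real.sign_of_pos hb, Real.sign_of_neg (mul_neg_of_neg_of_pos ha hb)]
      norm_num
  · rw [zero_mul, Real.sign_zero, zero_mul]
  · rcases lt_trichotomy b 0 with hb | rfl | hb
    · rw [Real.sign_of_pos ha, Real.sign_of_neg hb, Real.sign_of_neg (mul_neg_of_pos_of_neg ha hb)]
      norm_num
    · rw [mul_zero, Real.sign_zero, mul_zero]
    · rw [Real.sign_of_pos ha, Real.sign_of_pos hb, Real.sign_of_pos (mul_pos ha hb)]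
      norm_num

private theorem OSign_detD {n : ℕ} (h : ℝ) (x : Fin (n + 1) → Fin n → ℝ) :
    Matrix.det (Matrix.of fun i => (Fin.cons h (x i) : Fin (n + 1) → ℝ)) =
      h * Matrix.det (Matrix.of fun a : Fin n => x a.succ - x 0) := by
  have h1 : Matrix.det (Matrix.of fun i => (Fin.cons h (x i) : Fin (n + 1) → ℝ)) =
      Matrix.det (Matrix.of fun i : Fin (n + 1) =>
        if i = 0 then (Fin.cons h (x 0) : Fin (n + 1) → ℝ) else Fin.cons 0 (x i - x 0)) := by
    refine Matrix.det_eq_of_forall_row_eq_smul_add_const (fun i => if i = 0 then 0 else 1) 0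
      (if_pos rfl) ?_
    intro i j
    by_cases hi : i = 0
    · subst hi
      simp
    · refine Fin.cases ?_ ?_ j
      · simp [hi]
      · intro j
        simp [hi]
  rw [h1, Matrix.det_succ_column_zero, Fin.sum_univ_succ, Finset.sum_eq_zero, add_zero]
  · have h2 : ((Matrix.of fun i : Fin (n + 1) =>
        if i = 0 then (Fin.cons h (x 0) : Fin (n + 1) → ℝ) else Fin.cons 0 (x i - x 0)).submatrix
        (0 : Fin (n + 1)).succAbove Fin.succ) = Matrix.of fun a : Fin n => x a.succ - x 0 := by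
      ext a b
      simp [Fin.succ_ne_zero]
    rw [h2]
    simp
  · intro i _
    simp [Fin.succ_ne_zero]

/-- tails -/
private theorem OSign_split {n : ℕ} (x : Fin (n + 1) → ℝ) (k : ℕ) (hk : k < n + 1) :
    ∑ i : Fin (n + 1), (if k ≤ i.val then x i else 0) =
      x ⟨k, hk⟩ + ∑ i : Fin (n + 1), (if k + 1 ≤ i.val then x i else 0) := by
  have h1 : ∀ i : Fin (n + 1), (if k ≤ i.val then x i else 0) =
      (if i = ⟨k, hk⟩ then x i else 0) + (if k + 1 ≤ i.val then x i else 0) := by
    intro i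
    by_cases h : i = ⟨k, hk⟩
    · have h2 : i.val = k := by rw [h]
      rw [if_pos h, if_pos (by omega), if_neg (by omega), add_zero]
    · have h2 : i.val ≠ k := fun h3 => h (Fin.ext h3)
      rw [if_neg h, zero_add]
      by_cases h4 : k ≤ i.val
      · rw [if_pos h4, if_pos (by omega)]
      · rw [if_neg h4, if_neg (by omega)]
  rw [Finset.sum_congr rfl fun i _ => h1 i, Finset.sum_add_distrib, Finset.sum_ite_eq' Finset.univ,
    if_pos (Finset.mem_univ _)]

private theorem OSign_end {n : ℕ} (x : Fin (n + 1) → ℝ) :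
    ∑ i : Fin (n + 1), (if n + 1 ≤ i.val then x i else 0) = 0 := by
  refine Finset.sum_eq_zero fun i _ => ?_
  rw [if_neg]
  have := i.2
  omega

private theorem OSign_tail {n : ℕ} (α g : Fin (n + 1) → ℝ) (hg : ∀ i, g i ≠ 0)
    (h : ∀ k : ℕ, ∀ hk : k + 1 < n + 1, g ⟨k + 1, hk⟩ = g ⟨k, by omega⟩ ∨
      ∑ i : Fin (n + 1), (if k + 1 ≤ i.val then α i * (g i)⁻¹ else 0) = 0) :
    ∀ m k : ℕ, k + m = n → ∀ hk : k < n + 1,
      g ⟨k, hk⟩ * ∑ i : Fin (n + 1), (if k ≤ i.val then α i * (g i)⁻¹ else 0) =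
        ∑ i : Fin (n + 1), (if k ≤ i.val then α i else 0) := by
  intro m
  induction m with
  | zero =>
    intro k hkm hk
    obtain rfl : k = n := by omega
    rw [OSign_split _ _ hk, OSign_split _ _ hk, OSign_end, OSign_end, add_zero, add_zero]
    have := hg ⟨k, hk⟩
    field_simp
  | succ m ih =>
    intro k hkm hk
    have hk1 : k + 1 < n + 1 := by omega
    have ih1 := ih (k + 1) (by omega) hk1
    rw [OSign_split _ _ hk, OSign_split α k hk, ← ih1, mul_add]
    have h0 := hg ⟨k, hk⟩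
    have e1 : g ⟨k, hk⟩ * (α ⟨k, hk⟩ * (g ⟨k, hk⟩)⁻¹) = α ⟨k, hk⟩ := by field_simp
    rw [e1]
    rcases h k hk1 with h2 | h2
    · rw [h2]
    · rw [h2, mul_zero, mul_zero]

/-- coefficients of a barycentre -/
private noncomputable def OSign_cf {V : Type*} [DecidableEq V] (A : Finset V) (v : V) : ℝ :=
  if v ∈ A then (A.card : ℝ)⁻¹ else 0

private theorem OSign_cf_sum {V : Type*} [DecidableEq V] {A τ : Finset V} (hA : A.Nonempty)
    (h : A ⊆ τ) : ∑ v ∈ τ, OSign_cf A v = 1 := by
  unfold OSign_cf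
  rw [Finset.sum_ite_mem, Finset.inter_eq_right.2 h, Finset.sum_const, nsmul_eq_mul]
  have : (A.card : ℝ) ≠ 0 := by exact_mod_cast (Finset.card_pos.2 hA).ne'
  field_simp

namespace AffineTriangulation

variable {n : ℕ} (K : AffineTriangulation n)

private theorem OSign_bary {A τ : Finset K.V} (h : A ⊆ τ) :
    ∑ v ∈ τ, OSign_cf A v • K.dev v = K.bary A := by
  unfold OSign_cf bary
  rw [Finset.smul_sum]
  simp only [ite_smul, zero_smul]
  rw [Finset.sum_ite_mem, Finset.inter_eq_right.2 h]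

private theorem OSign_step {t : Fin (n + 1) → K.Iv} (ht : K.IsChain t) (k : ℕ)
    (hk : k + 1 < n + 1) :
    ((t ⟨k + 1, hk⟩).1.1 = (t ⟨k, by omega⟩).1.1 ∧
      ∃ w, w ∈ (t ⟨k + 1, hk⟩).1.2 ∧ w ∉ (t ⟨k, by omega⟩).1.2) ∨
    ((t ⟨k + 1, hk⟩).1.2 = (t ⟨k, by omega⟩).1.2 ∧
      ∃ v, v ∈ (t ⟨k, by omega⟩).1.1 ∧ v ∉ (t ⟨k + 1, hk⟩).1.1) := by
  have hle : (⟨k, by omega⟩ : Fin (n + 1)) ≤ ⟨k + 1, hk⟩ := by
    rw [Fin.le_def]
    exact Nat.le_succ k
  have h1 := ht.card ⟨k, by omega⟩
  have h2 := ht.card ⟨k + 1, hk⟩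
  have h3 := ht.anti _ _ hle
  have h4 := ht.mono _ _ hle
  have h5 := Finset.card_le_card h3
  have h6 := Finset.card_le_card h4
  simp only at h1 h2
  rcases Nat.eq_or_lt_of_le h5 with h7 | h7
  · left
    refine ⟨Finset.eq_of_subset_of_card_le h3 h7.ge, ?_⟩
    by_contra hc
    push Not at hc
    have h8 := Finset.card_le_card (fun w hw => hc w hw)
    omega
  · right
    refine ⟨(Finset.eq_of_subset_of_card_le h4 (by omega)).symm, ?_⟩
    by_contra hc
    push Not at hc
    have h8 := Finset.card_le_card (fun w hw => hc w hw)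
    omega

private theorem OSign_indep {t : Fin (n + 1) → K.Iv} (ht : K.IsChain t) (α : Fin (n + 1) → ℝ)
    (h : ∀ v ∈ (t (Fin.last n)).1.2,
      ∑ i, α i * (OSign_cf (t i).1.1 v + OSign_cf (t i).1.2 v) = 0) : α = 0 := by
  have hL0 : ∀ i, ((t i).1.1.card : ℝ) ≠ 0 := fun i => by
    exact_mod_cast (Finset.card_pos.2 (t i).2.1).ne'
  have hU0 : ∀ i, ((t i).1.2.card : ℝ) ≠ 0 := fun i => by
    exact_mod_cast (Finset.card_pos.2 ((t i).2.1.mono (t i).2.2.1)).ne'
  have hσ := ht.lower_zero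
  have hLσ : ∀ i, (t i).1.1 ⊆ (t 0).1.1 := fun i => ht.anti 0 i (Fin.zero_le i)
  have hUσ : ∀ i, (t 0).1.1 ⊆ (t i).1.2 := fun i => by
    rw [hσ]
    exact ht.mono 0 i (Fin.zero_le i)
  have hUτ : ∀ i, (t i).1.2 ⊆ (t (Fin.last n)).1.2 := fun i => ht.mono i _ (Fin.le_last i)
  -- the vertex which is never removed
  obtain ⟨v0, hv0⟩ := (t (Fin.last n)).2.1
  have hv0L : ∀ i, v0 ∈ (t i).1.1 := fun i => ht.anti i _ (Fin.le_last i) hv0
  have e0 : ∑ i, α i * ((t i).1.1.card : ℝ)⁻¹ + ∑ i, α i * ((t i).1.2.card : ℝ)⁻¹ = 0 := by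
    rw [← Finset.sum_add_distrib]
    refine Eq.trans ?_ (h v0 (hUτ 0 (hUσ 0 (hv0L 0))))
    refine Finset.sum_congr rfl fun i _ => ?_
    unfold OSign_cf
    rw [if_pos (hv0L i), if_pos (hUσ i (hv0L 0))]
    ring
  -- additions
  have hadd : ∀ (k : ℕ) (hk : k + 1 < n + 1), (∃ w, w ∈ (t ⟨k + 1, hk⟩).1.2 ∧
      w ∉ (t ⟨k, by omega⟩).1.2) →
      ∑ i : Fin (n + 1), (if k + 1 ≤ i.val then α i * ((t i).1.2.card : ℝ)⁻¹ else 0) = 0 := by
    rintro k hk ⟨w, hw1, hw2⟩
    refine Eq.trans ?_ (h w (hUτ _ hw1))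
    refine Finset.sum_congr rfl fun i _ => ?_
    have hwL : w ∉ (t i).1.1 := fun h1 => by
      have h2 := hUσ ⟨k, by omega⟩ (hLσ i h1)
      exact hw2 h2
    unfold OSign_cf
    rw [if_neg hwL, zero_add]
    by_cases hi : k + 1 ≤ i.val
    · have h3 : w ∈ (t i).1.2 := ht.mono ⟨k + 1, hk⟩ i (by rw [Fin.le_def]; exact hi) hw1
      rw [if_pos hi, if_pos h3]
    · have h3 : w ∉ (t i).1.2 := fun h4 => hw2 (ht.mono i ⟨k, by omega⟩ (by
        rw [Fin.le_def]
        change i.val ≤ k
        omega) h4)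
      rw [if_neg hi, if_neg h3, mul_zero]
  -- removals
  have hrem : ∀ (k : ℕ) (hk : k + 1 < n + 1), (∃ v, v ∈ (t ⟨k, by omega⟩).1.1 ∧
      v ∉ (t ⟨k + 1, hk⟩).1.1) →
      ∑ i : Fin (n + 1), (if k + 1 ≤ i.val then α i * ((t i).1.1.card : ℝ)⁻¹ else 0) = 0 := by
    rintro k hk ⟨v, hv1, hv2⟩
    have hvσ := hLσ _ hv1
    have h2 := h v (hUτ _ (hUσ 0 hvσ))
    have h3 : ∑ i, α i * (OSign_cf (t i).1.1 v + OSign_cf (t i).1.2 v) +
        ∑ i : Fin (n + 1), (if k + 1 ≤ i.val then α i * ((t i).1.1.card : ℝ)⁻¹ else 0) =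
        ∑ i, α i * ((t i).1.1.card : ℝ)⁻¹ + ∑ i, α i * ((t i).1.2.card : ℝ)⁻¹ := by
      rw [← Finset.sum_add_distrib, ← Finset.sum_add_distrib]
      refine Finset.sum_congr rfl fun i _ => ?_
      unfold OSign_cf
      rw [if_pos (hUσ i hvσ)]
      by_cases hi : k + 1 ≤ i.val
      · have h3 : v ∉ (t i).1.1 := fun h4 => hv2 (ht.anti ⟨k + 1, hk⟩ i (by
          rw [Fin.le_def]
          exact hi) h4)
        rw [if_pos hi, if_neg h3]
        ring
      · have h3 : v ∈ (t i).1.1 := ht.anti i ⟨k, by omega⟩ (by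
          rw [Fin.le_def]
          change i.val ≤ k
          omega) hv1
        rw [if_neg hi, if_pos h3]
        ring
    rw [h2, e0, zero_add] at h3
    exact h3
  have hTU := OSign_tail α (fun i => ((t i).1.2.card : ℝ)) hU0 (fun k hk => by
    rcases OSign_step K ht k hk with ⟨h1, h2⟩ | ⟨h1, h2⟩
    · exact Or.inr (hadd k hk h2)
    · left
      simp only [h1])
  have hTL := OSign_tail α (fun i => ((t i).1.1.card : ℝ)) hL0 (fun k hk => by
    rcases OSign_step K ht k hk with ⟨h1, h2⟩ | ⟨h1, h2⟩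
    · left
      simp only [h1]
    · exact Or.inr (hrem k hk h2))
  have hT : ∀ k : ℕ, k < n + 1 + 1 →
      ∑ i : Fin (n + 1), (if k ≤ i.val then α i else 0) = 0 := by
    intro k hk
    rcases Nat.lt_or_ge k (n + 1) with hk1 | hk1
    · rcases k with _ | k
      · have h1 := hTU n 0 (by omega) (by omega)
        have h2 := hTL n 0 (by omega) (by omega)
        have h3 : (t ⟨0, by omega⟩).1.1.card = (t ⟨0, by omega⟩).1.2.card := congrArg _ hσ
        simp only [Nat.zero_le, if_true, h3] at h1 h2 ⊢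
        have h4 : ((t ⟨0, by omega⟩).1.2.card : ℝ) * (∑ i, α i * ((t i).1.1.card : ℝ)⁻¹ +
            ∑ i, α i * ((t i).1.2.card : ℝ)⁻¹) = 0 := by rw [e0, mul_zero]
        linarith
      · rcases OSign_step K ht k hk1 with ⟨h1, h2⟩ | ⟨h1, h2⟩
        · rw [← hTU (n - (k + 1)) (k + 1) (by omega) hk1, hadd k hk1 h2, mul_zero]
        · rw [← hTL (n - (k + 1)) (k + 1) (by omega) hk1, hrem k hk1 h2, mul_zero]
    · obtain rfl : k = n + 1 := by omega
      exact OSign_end _
  funext i
  have h1 := hT i.val (by omega)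
  rw [OSign_split α i.val i.2, hT (i.val + 1) (by omega), add_zero] at h1
  exact h1

/-- The basic data attached to the top simplex. -/
private theorem OSign_data {t : Fin (n + 1) → K.Iv} (ht : K.IsChain t) :
    ∃ (D m : ℝ), D ≠ 0 ∧ (m = (-1) ^ (n + 1 - (t 0).1.1.card)) ∧
      Matrix.det (Matrix.of fun a : Fin n => K.pos (t a.succ) - K.pos (t 0)) = D ∧
      Matrix.det (Matrix.of (K.vec t)) = m * D := by
  have hτc : (t (Fin.last n)).1.2.card = n + 1 := ht.card_last.2
  have hτ : (t (Fin.last n)).1.2 ∈ K.faces := (t (Fin.last n)).2.2.2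
  have hind := K.indep _ hτ
  have hσ := ht.lower_zero
  have hLσ : ∀ i, (t i).1.1 ⊆ (t 0).1.1 := fun i => ht.anti 0 i (Fin.zero_le i)
  have hUσ : ∀ i, (t 0).1.1 ⊆ (t i).1.2 := fun i => by
    rw [hσ]
    exact ht.mono 0 i (Fin.zero_le i)
  have hUτ : ∀ i, (t i).1.2 ⊆ (t (Fin.last n)).1.2 := fun i => ht.mono i _ (Fin.le_last i)
  have hLτ : ∀ i, (t i).1.1 ⊆ (t (Fin.last n)).1.2 := fun i => ((t i).2.2.1).trans (hUτ i)
  have hindep := OSign_indep K ht
  generalize (t (Fin.last n)).1.2 = τ at hτc hτ hind hUτ hLτ hindep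
  obtain ⟨e⟩ : Nonempty (Fin (n + 1) ≃ τ) := ⟨(Finset.equivFinOfCardEq hτc).symm⟩
  have hsum : ∀ g : K.V → ℝ, ∑ a : Fin (n + 1), g (e a) = ∑ v ∈ τ, g v := fun g => by
    rw [← Finset.sum_coe_sort τ g]
    exact Equiv.sum_comp e fun v : τ => g v
  have hsumV : ∀ g : K.V → Fin n → ℝ, ∑ a : Fin (n + 1), g (e a) = ∑ v ∈ τ, g v := fun g => by
    rw [← Finset.sum_coe_sort τ g]
    exact Equiv.sum_comp e fun v : τ => g v
  -- the matrix of the developed vertices
  set M : Matrix (Fin (n + 1)) (Fin (n + 1)) ℝ :=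
    Matrix.of fun a => (Fin.cons 1 (K.dev (e a)) : Fin (n + 1) → ℝ) with hM
  have hM0 : M.det ≠ 0 := by
    intro h0
    obtain ⟨c, hc, hc0⟩ := Matrix.exists_vecMul_eq_zero_iff.2 h0
    apply hc
    have h1 : ∑ a, c a = 0 := by
      have := congrFun hc0 0
      simpa [Matrix.vecMul, dotProduct, hM] using this
    have h2 : ∑ a, c a • K.dev (e a) = 0 := by
      funext b
      have := congrFun hc0 b.succ
      simp only [Matrix.vecMul, dotProduct, hM, Matrix.of_apply, Fin.cons_succ,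
        Pi.zero_apply] at this
      rw [Finset.sum_apply, Pi.zero_apply]
      exact this
    rw [affineIndependent_iff] at hind
    have h3 := hind Finset.univ (fun v => c (e.symm v)) (by
      rw [← h1]
      exact Equiv.sum_comp e.symm c) (by
      rw [← h2]
      have := Equiv.sum_comp e.symm (fun a => c a • K.dev (e a))
      simpa using this)
    funext a
    have := h3 (e a) (Finset.mem_univ _)
    simpa using this
  -- products with `M`
  have hprod : ∀ (C : Matrix (Fin (n + 1)) (Fin (n + 1)) ℝ) (x : Fin (n + 1) → Fin n → ℝ) (h : ℝ),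
      (∀ i, ∑ a, C i a = h) → (∀ i, ∑ a, C i a • K.dev (e a) = x i) →
      C * M = Matrix.of fun i => (Fin.cons h (x i) : Fin (n + 1) → ℝ) := by
    intro C x h h1 h2
    ext i b
    refine Fin.cases ?_ (fun b => ?_) b
    · rw [Matrix.mul_apply]
      simp only [hM, Matrix.of_apply, Fin.cons_zero, mul_one]
      exact h1 i
    · rw [Matrix.mul_apply]
      simp only [hM, Matrix.of_apply, Fin.cons_succ]
      rw [← h2 i, Finset.sum_apply]
      rfl
  set C : Matrix (Fin (n + 1)) (Fin (n + 1)) ℝ :=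
    Matrix.of fun i a => OSign_cf (t i).1.1 (e a : K.V) + OSign_cf (t i).1.2 (e a : K.V) with hC
  have hCM : C * M = Matrix.of fun i => (Fin.cons 2 (K.pos (t i)) : Fin (n + 1) → ℝ) := by
    refine hprod C _ 2 (fun i => ?_) fun i => ?_
    · simp only [hC, Matrix.of_apply]
      rw [hsum (fun v => OSign_cf (t i).1.1 v + OSign_cf (t i).1.2 v), Finset.sum_add_distrib,
        OSign_cf_sum (t i).2.1 (hLτ i), OSign_cf_sum ((t i).2.1.mono (t i).2.2.1) (hUτ i)]
      norm_num
    · simp only [hC, Matrix.of_apply]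
      rw [hsumV (fun v => (OSign_cf (t i).1.1 v + OSign_cf (t i).1.2 v) • K.dev v)]
      simp only [add_smul]
      rw [Finset.sum_add_distrib, OSign_bary K (hLτ i), OSign_bary K (hUτ i)]
      rfl
  have hC0 : C.det ≠ 0 := by
    intro h0
    obtain ⟨c, hc, hc0⟩ := Matrix.exists_vecMul_eq_zero_iff.2 h0
    apply hc
    refine hindep c fun v hv => ?_
    obtain ⟨a, ha⟩ := e.surjective ⟨v, hv⟩
    have h1 := congrFun hc0 a
    simp only [Matrix.vecMul, dotProduct, hC, Matrix.of_apply, Pi.zero_apply, ha] at h1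
    exact h1
  -- the reflection
  set Θ : Matrix (Fin (n + 1)) (Fin (n + 1)) ℝ :=
    Matrix.of fun a b => if (e a : K.V) ∈ (t 0).1.1 then (if a = b then 1 else 0)
      else 2 * OSign_cf (t 0).1.1 (e b : K.V) - (if a = b then 1 else 0) with hΘ
  have hΘd : Θ.det = (-1) ^ (n + 1 - (t 0).1.1.card) := by
    rw [Matrix.twoBlockTriangular_det' Θ (fun a => (e a : K.V) ∈ (t 0).1.1)]
    · have e1 : Matrix.toSquareBlockProp Θ (fun a => (e a : K.V) ∈ (t 0).1.1) = 1 := by
        ext a b
        simp only [Matrix.toSquareBlockProp_def, hΘ, Matrix.of_apply, a.2, if_true,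
          Matrix.one_apply, Subtype.ext_iff]
      have e2 : Matrix.toSquareBlockProp Θ (fun a => ¬ (e a : K.V) ∈ (t 0).1.1) = -1 := by
        ext a b
        have hb := b.2
        simp only [Matrix.toSquareBlockProp_def, hΘ, Matrix.of_apply, a.2, if_false,
          Matrix.neg_apply, Matrix.one_apply, Subtype.ext_iff, OSign_cf, hb]
        ring
      rw [e1, e2, Matrix.det_one, one_mul, Matrix.det_neg, Matrix.det_one, mul_one]
      congr 1
      rw [Fintype.card_subtype_compl, Fintype.card_fin]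
      congr 1
      rw [Fintype.card_subtype]
      have h1 : (Finset.univ.filter fun a => (e a : K.V) ∈ (t 0).1.1).card = (t 0).1.1.card := by
        have h2 : ((Finset.univ.filter fun a => (e a : K.V) ∈ (t 0).1.1).image
            fun a => (e a : K.V)) = (t 0).1.1 := by
          ext v
          simp only [Finset.mem_image, Finset.mem_filter, Finset.mem_univ, true_and]
          constructor
          · rintro ⟨a, ha, rfl⟩
            exact ha
          · intro hv
            obtain ⟨a, ha⟩ := e.surjective ⟨v, hLτ 0 hv⟩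
            refine ⟨a, ?_, ?_⟩
            · rw [ha]
              exact hv
            · rw [ha]
        rw [← h2, Finset.card_image_of_injective]
        · rw [h2]
        · intro a b hab
          exact e.injective (Subtype.ext hab)
      exact h1
    · intro a ha b hb
      simp only [hΘ, Matrix.of_apply, ha, if_true]
      rw [if_neg]
      rintro rfl
      exact hb ha
  have hCΘ : C * Θ = Matrix.of fun i a => OSign_cf (t i).1.1 (e a : K.V) -
      OSign_cf (t i).1.2 (e a : K.V) + 2 * OSign_cf (t 0).1.1 (e a : K.V) := by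
    ext i b
    rw [Matrix.mul_apply]
    simp only [hC, hΘ, Matrix.of_apply]
    have hUc : ((t i).1.2.card : ℝ) ≠ 0 := by
      exact_mod_cast (Finset.card_pos.2 ((t i).2.1.mono (t i).2.2.1)).ne'
    have hσc : ((t 0).1.1.card : ℝ) ≠ 0 := by exact_mod_cast (Finset.card_pos.2 (t 0).2.1).ne'
    have f1 : ∀ a : Fin (n + 1), (OSign_cf (t i).1.1 (e a : K.V) + OSign_cf (t i).1.2 (e a : K.V)) *
        (if (e a : K.V) ∈ (t 0).1.1 then (if a = b then 1 else 0)
          else 2 * OSign_cf (t 0).1.1 (e b : K.V) - (if a = b then 1 else 0)) =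
        (if a = b then (OSign_cf (t i).1.1 (e a : K.V) + OSign_cf (t i).1.2 (e a : K.V)) *
          (if (e a : K.V) ∈ (t 0).1.1 then 1 else -1) else 0) +
        2 * OSign_cf (t 0).1.1 (e b : K.V) *
          (if (e a : K.V) ∈ (t 0).1.1 then 0 else OSign_cf (t i).1.2 (e a : K.V)) := by
      intro a
      by_cases ha : (e a : K.V) ∈ (t 0).1.1
      · simp only [ha, if_true]
        split_ifs <;> ring
      · have hL : OSign_cf (t i).1.1 (e a : K.V) = 0 := by
          unfold OSign_cf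
          exact if_neg fun h => ha (hLσ i h)
        simp only [ha, if_false, hL]
        split_ifs <;> ring
    have f2 : ∑ a : Fin (n + 1),
        (if (e a : K.V) ∈ (t 0).1.1 then 0 else OSign_cf (t i).1.2 (e a : K.V)) =
        1 - ((t 0).1.1.card : ℝ) * ((t i).1.2.card : ℝ)⁻¹ := by
      rw [hsum (fun v => if v ∈ (t 0).1.1 then 0 else OSign_cf (t i).1.2 v)]
      have f3 : ∀ v ∈ τ, (if v ∈ (t 0).1.1 then 0 else OSign_cf (t i).1.2 v) =
          OSign_cf (t i).1.2 v - (if v ∈ (t 0).1.1 then ((t i).1.2.card : ℝ)⁻¹ else 0) := by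
        intro v _
        by_cases hv : v ∈ (t 0).1.1
        · rw [if_pos hv, if_pos hv]
          unfold OSign_cf
          rw [if_pos (hUσ i hv), sub_self]
        · rw [if_neg hv, if_neg hv, sub_zero]
      rw [Finset.sum_congr rfl f3, Finset.sum_sub_distrib,
        OSign_cf_sum ((t i).2.1.mono (t i).2.2.1) (hUτ i), Finset.sum_ite_mem,
        Finset.inter_eq_right.2 (hLτ 0), Finset.sum_const, nsmul_eq_mul]
    rw [Finset.sum_congr rfl fun a _ => f1 a, Finset.sum_add_distrib, ← Finset.mul_sum, f2,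
      Finset.sum_ite_eq' Finset.univ, if_pos (Finset.mem_univ _)]
    by_cases hb : (e b : K.V) ∈ (t 0).1.1
    · rw [if_pos hb]
      have g1 : OSign_cf (t i).1.2 (e b : K.V) = ((t i).1.2.card : ℝ)⁻¹ := by
        unfold OSign_cf
        exact if_pos (hUσ i hb)
      have g2 : OSign_cf (t 0).1.1 (e b : K.V) = ((t 0).1.1.card : ℝ)⁻¹ := by
        unfold OSign_cf
        exact if_pos hb
      rw [g1, g2]
      field_simp
      ring
    · rw [if_neg hb]
      have g1 : OSign_cf (t i).1.1 (e b : K.V) = 0 := by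
        unfold OSign_cf
        exact if_neg fun h => hb (hLσ i h)
      have g2 : OSign_cf (t 0).1.1 (e b : K.V) = 0 := by
        unfold OSign_cf
        exact if_neg hb
      rw [g1, g2]
      ring
  have hCΘM : C * Θ * M = Matrix.of fun i => (Fin.cons 2 (K.bary (t i).1.1 - K.bary (t i).1.2 +
      (2 : ℝ) • K.bary (t 0).1.1) : Fin (n + 1) → ℝ) := by
    rw [hCΘ]
    refine hprod _ (fun i => K.bary (t i).1.1 - K.bary (t i).1.2 + (2 : ℝ) • K.bary (t 0).1.1) 2
      (fun i => ?_) fun i => ?_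
    · simp only [Matrix.of_apply]
      rw [hsum (fun v => OSign_cf (t i).1.1 v - OSign_cf (t i).1.2 v + 2 * OSign_cf (t 0).1.1 v),
        Finset.sum_add_distrib, Finset.sum_sub_distrib, ← Finset.mul_sum,
        OSign_cf_sum (t i).2.1 (hLτ i), OSign_cf_sum ((t i).2.1.mono (t i).2.2.1) (hUτ i),
        OSign_cf_sum (t 0).2.1 (hLτ 0)]
      norm_num
    · simp only [Matrix.of_apply]
      rw [hsumV (fun v => (OSign_cf (t i).1.1 v - OSign_cf (t i).1.2 v +
        2 * OSign_cf (t 0).1.1 v) • K.dev v)]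
      simp only [add_smul, sub_smul, mul_smul]
      rw [Finset.sum_add_distrib, Finset.sum_sub_distrib, ← Finset.smul_sum,
        OSign_bary K (hLτ i), OSign_bary K (hUτ i), OSign_bary K (hLτ 0)]
  have d1 : C.det * M.det =
      2 * Matrix.det (Matrix.of fun a : Fin n => K.pos (t a.succ) - K.pos (t 0)) := by
    rw [← Matrix.det_mul, hCM, OSign_detD 2 (fun i => K.pos (t i))]
  have d2 : C.det * Θ.det * M.det = 2 * Matrix.det (Matrix.of (K.vec t)) := by
    rw [← Matrix.det_mul, ← Matrix.det_mul, hCΘM,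
      OSign_detD 2 (fun i => K.bary (t i).1.1 - K.bary (t i).1.2 + (2 : ℝ) • K.bary (t 0).1.1)]
    congr 3
    funext a
    unfold vec
    rw [← hσ]
    abel
  refine ⟨_, Θ.det, ?_, hΘd, rfl, ?_⟩
  · intro h0
    rw [h0, mul_zero] at d1
    exact (mul_ne_zero hC0 hM0) d1
  · linear_combination (-1 / 2 : ℝ) * d2 + (Θ.det / 2) * d1

theorem det_pos_ne_zero {t : Fin (n + 1) → K.Iv} (ht : K.IsChain t) :
    Matrix.det (Matrix.of fun a : Fin n => K.pos (t a.succ) - K.pos (t 0)) ≠ 0 := by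
  obtain ⟨D, m, h1, h2, h3, h4⟩ := OSign_data K ht
  rw [h3]
  exact h1

theorem det_vec_ne_zero {t : Fin (n + 1) → K.Iv} (ht : K.IsChain t) :
    Matrix.det (Matrix.of (K.vec t)) ≠ 0 := by
  obtain ⟨D, m, h1, h2, h3, h4⟩ := OSign_data K ht
  rw [h4]
  refine mul_ne_zero ?_ h1
  rw [h2]
  exact pow_ne_zero _ (by norm_num)

theorem mor_mul_sign_det {t : Fin (n + 1) → K.Iv} (ht : K.IsChain t) :
    K.mor t * Real.sign (Matrix.det (Matrix.of (K.vec t))) =
      (-1) ^ (n + 1 - (t 0).1.1.card) := by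
  obtain ⟨D, m, h1, h2, h3, h4⟩ := OSign_data K ht
  unfold mor
  rw [h3, h4, ← h2]
  have h5 : m = 1 ∨ m = -1 := by
    rw [h2]
    exact neg_one_pow_eq_or ℝ _
  rcases h5 with h5 | h5
  · rw [h5, one_mul]
    rcases Real.sign_apply_eq_of_ne_zero D h1 with h6 | h6 <;> rw [h6] <;> norm_num
  · have h7 : (-1 : ℝ) * D = -D := by ring
    rw [h5, h7, Real.sign_neg]
    rcases Real.sign_apply_eq_of_ne_zero D h1 with h6 | h6 <;> rw [h6] <;> norm_num

theorem mor_smul (γ : K.Γ) (t : Fin (n + 1) → K.Iv) :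
    K.mor (fun i => γ • t i) = chi K.lin γ * K.mor t := by
  unfold mor chi
  have h1 : (Matrix.of fun a : Fin n => K.pos (γ • t a.succ) - K.pos (γ • t 0)) =
      (Matrix.of fun a : Fin n => K.pos (t a.succ) - K.pos (t 0)) * (K.lin γ)ᵀ := by
    ext a b
    rw [Matrix.mul_apply]
    simp only [Matrix.of_apply, Matrix.transpose_apply]
    rw [K.pos_smul_sub]
    simp only [Matrix.mulVec, dotProduct]
    exact Finset.sum_congr rfl fun c _ => mul_comm _ _
  rw [h1, Matrix.det_mul, Matrix.det_transpose, OSign_sign_mul, mul_comm]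

theorem mor_eq_neg {t t' : Fin (n + 1) → K.Iv} (ht : K.IsChain t) (ht' : K.IsChain t')
    (j : Fin (n + 1)) (h : ∀ i, i ≠ j → t' i = t i) (α β : ℝ) (hα : 0 < α) (hβ : 0 < β)
    (a : Fin (n + 1) → ℝ) (ha : a j = 0) (hs : ∑ i, a i = α + β)
    (hr : α • K.pos (t j) + β • K.pos (t' j) = ∑ i, a i • K.pos (t i)) :
    K.mor t' = -K.mor t := by
  have hD := K.det_pos_ne_zero ht
  unfold mor
  set M : Matrix (Fin (n + 1)) (Fin (n + 1)) ℝ :=
    Matrix.of fun i => (Fin.cons 1 (K.pos (t i)) : Fin (n + 1) → ℝ) with hM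
  set M' : Matrix (Fin (n + 1)) (Fin (n + 1)) ℝ :=
    Matrix.of fun i => (Fin.cons 1 (K.pos (t' i)) : Fin (n + 1) → ℝ) with hM'
  have e1 : M.det = Matrix.det (Matrix.of fun a : Fin n => K.pos (t a.succ) - K.pos (t 0)) := by
    rw [hM, OSign_detD 1 (fun i => K.pos (t i)), one_mul]
  have e2 : M'.det = Matrix.det (Matrix.of fun a : Fin n => K.pos (t' a.succ) - K.pos (t' 0)) := by
    rw [hM', OSign_detD 1 (fun i => K.pos (t' i)), one_mul]
  rw [← e1] at hD ⊢
  rw [← e2]
  have h1 : M' = M.updateRow j (M' j) := by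
    ext i b
    by_cases hi : i = j
    · subst hi
      rw [Matrix.updateRow_self]
    · rw [Matrix.updateRow_ne hi]
      simp only [hM, hM', Matrix.of_apply, h i hi]
  have h2 : α • M j + β • M' j = ∑ k, a k • M k := by
    funext b
    rw [Pi.add_apply, Pi.smul_apply, Pi.smul_apply, Finset.sum_apply]
    refine Fin.cases ?_ (fun b => ?_) b
    · simp only [hM, hM', Matrix.of_apply, Fin.cons_zero, Pi.smul_apply, smul_eq_mul, mul_one]
      exact hs.symm
    · have h3 := congrFun hr b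
      rw [Pi.add_apply, Pi.smul_apply, Pi.smul_apply, Finset.sum_apply] at h3
      simp only [hM, hM', Matrix.of_apply, Fin.cons_succ, Pi.smul_apply] at h3 ⊢
      exact h3
  have h3 : α * M.det + β * M'.det = 0 := by
    have h4 := Matrix.det_updateRow_sum M j a
    rw [← h2, Matrix.det_updateRow_add, Matrix.det_updateRow_smul, Matrix.det_updateRow_smul,
      Matrix.updateRow_eq_self, ← h1, ha, zero_smul] at h4
    exact h4
  have h5 : M'.det = -((α / β) * M.det) := by
    field_simp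
    linarith
  rw [h5, Real.sign_neg, OSign_sign_mul, Real.sign_of_pos (div_pos hα hβ), one_mul]

end AffineTriangulation

end Pool.Agent.ChP
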