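import Pool.Agent.ChP.Facet
import Pool.Agent.ChP.OSign

/-!
# Exchanging one vertex of a chain

Let `t` be a chain, `n ≥ 1`, and `j` an index.  There is exactly one other chain `t'` which agrees
with `t` outside `j`.

* `j = 0`: `t_1 = (L, U)` with `|U| = |L| + 1`, so `t_0 = (L, L)` or `(U, U)`; exchange them.
  `pos t_0 + pos t'_0 = 2 b_L + 2 b_U = 2 pos t_1`.
* `0 < j < n`: from `t_{j-1}` to `t_{j+1}` there are two steps.  One removal `p` and one addition
  `q`: exchange their order; `pos t_j + pos t'_j = pos t_{j-1} + pos t_{j+1}`.  Two removals `p, q`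
  from `L`: exchange their order; with `r = |L| - 2`,
  `b_{L \ p} + b_{L \ q} = ((r+2) b_L + r b_{L \ {p,q}}) / (r+1)`, so `(r+1) (pos t_j + pos t'_j)`
  is `(r+2) pos t_{j-1} + r pos t_{j+1}` (note `L \ {p,q}` is not empty, `r ≥ 1`).  Two additions:
  similarly, with `r = |U_{j-1}|`, `(r+1)(b_{U ∪ p} + b_{U ∪ q}) = r b_U + (r+2) b_{U ∪ {p,q}}`.
* `j = n`: if `L_{n-1} = {v, v'}` (last step is a removal) exchange `v` and `v'`:
  `pos t_n + pos t'_n = dev v + dev v' + 2 b_τ = 2 pos t_{n-1}`.
  If the last step is an addition, `U_{n-1} = F` has `n` elements, use `facet`: the relation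
  `α dev w₁ + β dev w₂ = ∑_{v ∈ F} c v dev v` gives a relation between `pos t_n`, `pos t'_n` and
  points of the affine span of `dev F`; this affine span is the affine span of
  `pos t_0 / 2, ..., pos t_{n-1} / 2` (these `n` points are affinely independent by
  `det_pos_ne_zero` and lie in it).
-/

namespace Pool.Agent.ChP

open Matrix

open scoped Pointwise

namespace AffineTriangulation

variable {n : ℕ} (K : AffineTriangulation n)

/-- the conditions on the vertex with index `j` -/
def InvolOK (t : Fin (n + 1) → K.Iv) (j : Fin (n + 1)) (x : K.Iv) : Prop :=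
  x.1.2.card = x.1.1.card + (j : ℕ) ∧
  (∀ i, i < j → x.1.1 ⊆ (t i).1.1 ∧ (t i).1.2 ⊆ x.1.2) ∧
  (∀ i, j < i → (t i).1.1 ⊆ x.1.1 ∧ x.1.2 ⊆ (t i).1.2)

theorem invol_update {t : Fin (n + 1) → K.Iv} (ht : K.IsChain t) {j : Fin (n + 1)} {x : K.Iv}
    (hx : K.InvolOK t j x) : K.IsChain (Function.update t j x) := by
  refine ⟨fun i => ?_, fun i i' h => ?_, fun i i' h => ?_⟩
  · by_cases hi : i = j
    · subst hi
      rw [Function.update_self]
      exact hx.1
    · rw [Function.update_of_ne hi]
      exact ht.card i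
  · by_cases hi : i = j
    · by_cases hi' : i' = j
      · rw [hi, hi']
      · subst hi
        rw [Function.update_self, Function.update_of_ne hi']
        exact (hx.2.2 i' (lt_of_le_of_ne h (Ne.symm hi'))).1
    · by_cases hi' : i' = j
      · subst hi'
        rw [Function.update_of_ne hi, Function.update_self]
        exact (hx.2.1 i (lt_of_le_of_ne h hi)).1
      · rw [Function.update_of_ne hi, Function.update_of_ne hi']
        exact ht.anti i i' h
  · by_cases hi : i = j
    · by_cases hi' : i' = j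
      · rw [hi, hi']
      · subst hi
        rw [Function.update_self, Function.update_of_ne hi']
        exact (hx.2.2 i' (lt_of_le_of_ne h (Ne.symm hi'))).2
    · by_cases hi' : i' = j
      · subst hi'
        rw [Function.update_of_ne hi, Function.update_self]
        exact (hx.2.1 i (lt_of_le_of_ne h hi)).2
      · rw [Function.update_of_ne hi, Function.update_of_ne hi']
        exact ht.mono i i' h

theorem invol_ok {t t' : Fin (n + 1) → K.Iv} (ht' : K.IsChain t') {j : Fin (n + 1)}
    (h : ∀ i, i ≠ j → t' i = t i) : K.InvolOK t j (t' j) := by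
  refine ⟨ht'.card j, fun i hi => ?_, fun i hi => ?_⟩
  · rw [← h i hi.ne]
    exact ⟨ht'.anti i j hi.le, ht'.mono i j hi.le⟩
  · rw [← h i hi.ne']
    exact ⟨ht'.anti j i hi.le, ht'.mono j i hi.le⟩

theorem invol_ok_nbr {t : Fin (n + 1) → K.Iv} (ht : K.IsChain t) {j i k : Fin (n + 1)}
    (hi : (i : ℕ) + 1 = j) (hk : (j : ℕ) + 1 = k) {x : K.Iv}
    (hc : x.1.2.card = x.1.1.card + (j : ℕ)) (h1 : x.1.1 ⊆ (t i).1.1) (h2 : (t i).1.2 ⊆ x.1.2)
    (h3 : (t k).1.1 ⊆ x.1.1) (h4 : x.1.2 ⊆ (t k).1.2) : K.InvolOK t j x := by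
  refine ⟨hc, fun l hl => ?_, fun l hl => ?_⟩
  · have hli : l ≤ i := by
      rw [Fin.lt_def] at hl
      rw [Fin.le_def]
      omega
    exact ⟨h1.trans (ht.anti l i hli), (ht.mono l i hli).trans h2⟩
  · have hkl : k ≤ l := by
      rw [Fin.lt_def] at hl
      rw [Fin.le_def]
      omega
    exact ⟨(ht.anti k l hkl).trans h3, h4.trans (ht.mono k l hkl)⟩

/-- two solutions with a relation -/
def InvolTwo (t : Fin (n + 1) → K.Iv) (j : Fin (n + 1)) : Prop :=
  ∃ y1 y2 : K.Iv, y1 ≠ y2 ∧ K.InvolOK t j y1 ∧ K.InvolOK t j y2 ∧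
    (∀ x, K.InvolOK t j x → x = y1 ∨ x = y2) ∧
    ∃ (α β : ℝ) (a : Fin (n + 1) → ℝ), 0 < α ∧ 0 < β ∧ a j = 0 ∧ ∑ i, a i = α + β ∧
      α • K.pos y1 + β • K.pos y2 = ∑ i, a i • K.pos (t i)

theorem invol_fin {t : Fin (n + 1) → K.Iv} (ht : K.IsChain t) (j : Fin (n + 1)) {y : K.Iv}
    (hne : y ≠ t j) (hok : K.InvolOK t j y) (hu : ∀ x, K.InvolOK t j x → x = t j ∨ x = y)
    (α β : ℝ) (a : Fin (n + 1) → ℝ) (hα : 0 < α) (hβ : 0 < β) (ha : a j = 0)
    (hs : ∑ i, a i = α + β) (hr : α • K.pos (t j) + β • K.pos y = ∑ i, a i • K.pos (t i)) :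
    ∃ t' : Fin (n + 1) → K.Iv, K.IsChain t' ∧ (∀ i, i ≠ j → t' i = t i) ∧ t' j ≠ t j ∧
      (∀ t'' : Fin (n + 1) → K.Iv, K.IsChain t'' → (∀ i, i ≠ j → t'' i = t i) →
        t'' = t ∨ t'' = t') ∧
      K.mor t' = -K.mor t := by
  have hc := K.invol_update ht hok
  refine ⟨Function.update t j y, hc, fun i hi => Function.update_of_ne hi _ _, ?_, ?_, ?_⟩
  · rw [Function.update_self]
    exact hne
  · intro t'' ht'' h
    rcases hu (t'' j) (K.invol_ok ht'' h) with e | e
    · left
      funext i
      by_cases hi : i = j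
      · rw [hi, e]
      · exact h i hi
    · right
      funext i
      by_cases hi : i = j
      · rw [hi, e, Function.update_self]
      · rw [h i hi, Function.update_of_ne hi]
  · refine K.mor_eq_neg ht hc j (fun i hi => Function.update_of_ne hi _ _) α β hα hβ a ha hs ?_
    rw [Function.update_self]
    exact hr

theorem invol_of_two {t : Fin (n + 1) → K.Iv} (ht : K.IsChain t) (j : Fin (n + 1))
    (h : K.InvolTwo t j) :
    ∃ t' : Fin (n + 1) → K.Iv, K.IsChain t' ∧ (∀ i, i ≠ j → t' i = t i) ∧ t' j ≠ t j ∧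
      (∀ t'' : Fin (n + 1) → K.Iv, K.IsChain t'' → (∀ i, i ≠ j → t'' i = t i) →
        t'' = t ∨ t'' = t') ∧
      K.mor t' = -K.mor t := by
  obtain ⟨y1, y2, hne, ok1, ok2, hu, α, β, a, hα, hβ, ha, hs, hr⟩ := h
  rcases hu (t j) (K.invol_ok ht (fun _ _ => rfl)) with e | e
  · refine K.invol_fin ht j (y := y2) (by rw [e]; exact hne.symm) ok2 ?_ α β a hα hβ ha hs ?_
    · rw [e]
      exact hu
    · rw [e]
      exact hr
  · refine K.invol_fin ht j (y := y1) (by rw [e]; exact hne) ok1 ?_ β α a hβ hα ha ?_ ?_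
    · rw [e]
      exact fun x hx => (hu x hx).symm
    · rw [hs, add_comm]
    · rw [e, add_comm]
      exact hr

theorem invol_sum2 (f : Fin (n + 1) → Fin n → ℝ) (i1 i2 : Fin (n + 1)) (c1 c2 : ℝ) :
    ∑ i, (Pi.single i1 c1 + Pi.single i2 c2 : Fin (n + 1) → ℝ) i • f i =
      c1 • f i1 + c2 • f i2 := by
  simp [add_smul, Finset.sum_add_distrib, Pi.single_apply, ite_smul]

theorem invol_sum2' (i1 i2 : Fin (n + 1)) (c1 c2 : ℝ) :
    ∑ i, (Pi.single i1 c1 + Pi.single i2 c2 : Fin (n + 1) → ℝ) i = c1 + c2 := by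
  simp [Finset.sum_add_distrib, Pi.single_apply]

theorem invol_sum2_ne (i1 i2 j : Fin (n + 1)) (c1 c2 : ℝ) (h1 : j ≠ i1) (h2 : j ≠ i2) :
    (Pi.single i1 c1 + Pi.single i2 c2 : Fin (n + 1) → ℝ) j = 0 := by
  simp [h1, h2]

theorem invol_bary {σ : Finset K.V} (h : σ.Nonempty) {c : ℝ} (hc : (σ.card : ℝ) = c) :
    c • K.bary σ = ∑ v ∈ σ, K.dev v := by
  have h0 : (σ.card : ℝ) ≠ 0 := by
    have := h.card_pos
    positivity
  unfold bary
  rw [← hc, smul_smul, mul_inv_cancel₀ h0, one_smul]

/-- the case `j = 0` -/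
theorem invol_zero (hn : 0 < n) {t : Fin (n + 1) → K.Iv} (ht : K.IsChain t) :
    K.InvolTwo t 0 := by
  set i : Fin (n + 1) := ⟨1, by omega⟩ with hi
  rcases hti : t i with ⟨⟨L, U⟩, hne, hsub, hf⟩
  dsimp only at hne hsub hf
  have hc : U.card = L.card + 1 := by
    have := ht.card i
    rw [hti] at this
    exact this
  have hLf : L ∈ K.faces := K.down_closed U hf L hsub hne
  have hanti : ∀ k, (0 : Fin (n + 1)) < k → (t k).1.1 ⊆ L ∧ U ⊆ (t k).1.2 := by
    intro k hk
    have hik : i ≤ k := by
      rw [Fin.lt_def] at hk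
      rw [Fin.le_def]
      have hk' : 0 < (k : ℕ) := hk
      show 1 ≤ (k : ℕ)
      omega
    have h1 := ht.anti i k hik
    have h2 := ht.mono i k hik
    rw [hti] at h1 h2
    exact ⟨h1, h2⟩
  refine ⟨⟨(L, L), hne, subset_rfl, hLf⟩, ⟨(U, U), hne.mono hsub, subset_rfl, hf⟩, ?_, ?_, ?_, ?_,
    1, 1, Pi.single i 1 + Pi.single i 1, one_pos, one_pos, ?_, ?_, ?_⟩
  · intro e
    have e1 : L = U := congrArg (fun x : K.Iv => x.1.1) e
    rw [e1] at hc
    omega
  · refine ⟨by simp, fun k hk => absurd hk (Fin.not_lt_zero k), fun k hk => ?_⟩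
    exact ⟨(hanti k hk).1, hsub.trans (hanti k hk).2⟩
  · refine ⟨by simp, fun k hk => absurd hk (Fin.not_lt_zero k), fun k hk => ?_⟩
    exact ⟨(hanti k hk).1.trans hsub, (hanti k hk).2⟩
  · rintro ⟨⟨A, B⟩, hA, hAB, hB⟩ ⟨h1, -, h3⟩
    have hAB' : A = B := by
      refine Finset.eq_of_subset_of_card_le hAB ?_
      have : B.card = A.card + ((0 : Fin (n + 1)) : ℕ) := h1
      simpa using this.le
    have h4 := h3 i (by rw [Fin.lt_def]; simp [hi])
    rw [hti] at h4
    obtain ⟨h5, h6⟩ : L ⊆ A ∧ B ⊆ U := h4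
    subst hAB'
    have c1 := Finset.card_le_card h5
    have c2 := Finset.card_le_card h6
    by_cases h7 : A.card = L.card
    · left
      apply Subtype.ext
      have : L = A := Finset.eq_of_subset_of_card_le h5 h7.le
      show (A, A) = (L, L)
      rw [this]
    · right
      apply Subtype.ext
      have : A = U := Finset.eq_of_subset_of_card_le h6 (by omega)
      show (A, A) = (U, U)
      rw [this]
  · refine invol_sum2_ne _ _ _ _ _ ?_ ?_ <;>
    · intro e
      have := congrArg Fin.val e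
      simp [hi] at this
  · rw [invol_sum2']
  · rw [invol_sum2 (fun k => K.pos (t k)), hti]
    show (1 : ℝ) • (K.bary L + K.bary L) + (1 : ℝ) • (K.bary U + K.bary U) =
      (1 : ℝ) • (K.bary L + K.bary U) + (1 : ℝ) • (K.bary L + K.bary U)
    module

/-- the case `0 < j < n` -/
theorem invol_mid {t : Fin (n + 1) → K.Iv} (ht : K.IsChain t) {j i k : Fin (n + 1)}
    (hi : (i : ℕ) + 1 = j) (hk : (j : ℕ) + 1 = k) : K.InvolTwo t j := by
  rcases hti : t i with ⟨⟨L, U⟩, hne, hsub, hf⟩
  dsimp only at hne hsub hf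
  rcases htk : t k with ⟨⟨L', U'⟩, hne', hsub', hf'⟩
  dsimp only at hne' hsub' hf'
  have hik : i ≤ k := by
    rw [Fin.le_def]
    omega
  have hcL : U.card = L.card + i := by
    have := ht.card i
    rw [hti] at this
    exact this
  have hcL' : U'.card = L'.card + k := by
    have := ht.card k
    rw [htk] at this
    exact this
  have hLL : L' ⊆ L := by
    have := ht.anti i k hik
    rw [hti, htk] at this
    exact this
  have hUU : U ⊆ U' := by
    have := ht.mono i k hik
    rw [hti, htk] at this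
    exact this
  have hji : j ≠ i := by
    intro e
    have := congrArg Fin.val e
    omega
  have hjk : j ≠ k := by
    intro e
    have := congrArg Fin.val e
    omega
  have hok : ∀ {A B : Finset K.V} (hA : A.Nonempty) (hAB : A ⊆ B) (hB : B ∈ K.faces),
      B.card = A.card + (j : ℕ) → A ⊆ L → U ⊆ B → L' ⊆ A → B ⊆ U' →
      K.InvolOK t j ⟨(A, B), hA, hAB, hB⟩ := by
    intro A B hA hAB hB h1 h2 h3 h4 h5
    refine K.invol_ok_nbr ht hi hk h1 ?_ ?_ ?_ ?_
    · rw [hti]
      exact h2
    · rw [hti]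
      exact h3
    · rw [htk]
      exact h4
    · rw [htk]
      exact h5
  have hun : ∀ {A B : Finset K.V} {hA : A.Nonempty} {hAB : A ⊆ B} {hB : B ∈ K.faces},
      K.InvolOK t j ⟨(A, B), hA, hAB, hB⟩ →
      B.card = A.card + (j : ℕ) ∧ A ⊆ L ∧ U ⊆ B ∧ L' ⊆ A ∧ B ⊆ U' := by
    intro A B hA hAB hB h
    obtain ⟨h1, h2, h3⟩ := h
    have h4 := h2 i (by rw [Fin.lt_def]; omega)
    have h5 := h3 k (by rw [Fin.lt_def]; omega)
    rw [hti] at h4
    rw [htk] at h5
    exact ⟨h1, h4.1, h4.2, h5.1, h5.2⟩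
  have hLf : U ∈ K.faces := hf
  have cL := Finset.card_le_card hLL
  have cU := Finset.card_le_card hUU
  have hcase : (L.card = L'.card + 1 ∧ U'.card = U.card + 1) ∨
      (L.card = L'.card + 2 ∧ U'.card = U.card) ∨ (L.card = L'.card ∧ U'.card = U.card + 2) := by
    omega
  rcases hcase with ⟨h1, h2⟩ | ⟨h1, h2⟩ | ⟨h1, h2⟩
  · refine ⟨⟨(L', U), hne', hLL.trans hsub, hf⟩, ⟨(L, U'), hne, hsub.trans hUU, hf'⟩, ?_,
      hok hne' (hLL.trans hsub) hf (by omega) hLL subset_rfl subset_rfl hUU,
      hok hne (hsub.trans hUU) hf' (by omega) subset_rfl hUU hLL subset_rfl, ?_,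
      1, 1, Pi.single i 1 + Pi.single k 1, one_pos, one_pos, invol_sum2_ne _ _ _ _ _ hji hjk,
      invol_sum2' _ _ _ _, ?_⟩
    · intro e
      have e1 : L' = L := congrArg (fun x : K.Iv => x.1.1) e
      rw [e1] at h1
      omega
    · rintro ⟨⟨A, B⟩, hA, hAB, hB⟩ h
      obtain ⟨g1, g2, g3, g4, g5⟩ : B.card = A.card + (j : ℕ) ∧ A ⊆ L ∧ U ⊆ B ∧ L' ⊆ A ∧ B ⊆ U' :=
        hun (hA := hA) (hAB := hAB) (hB := hB) h
      have c1 := Finset.card_le_card g2
      have c2 := Finset.card_le_card g3
      have c3 := Finset.card_le_card g4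
      have c4 := Finset.card_le_card g5
      by_cases h7 : A.card = L'.card
      · left
        apply Subtype.ext
        have e1 : L' = A := Finset.eq_of_subset_of_card_le g4 h7.le
        have e2 : U = B := Finset.eq_of_subset_of_card_le g3 (by omega)
        show (A, B) = (L', U)
        rw [e1, e2]
      · right
        apply Subtype.ext
        have e1 : A = L := Finset.eq_of_subset_of_card_le g2 (by omega)
        have e2 : B = U' := Finset.eq_of_subset_of_card_le g5 (by omega)
        show (A, B) = (L, U')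
        rw [e1, e2]
    · rw [invol_sum2 (fun k => K.pos (t k)), hti, htk]
      show (1 : ℝ) • (K.bary L' + K.bary U) + (1 : ℝ) • (K.bary L + K.bary U') =
        (1 : ℝ) • (K.bary L + K.bary U) + (1 : ℝ) • (K.bary L' + K.bary U')
      module
  · have hUe : U = U' := Finset.eq_of_subset_of_card_le hUU (by omega)
    have hd : (L \ L').card = 2 := by
      rw [Finset.card_sdiff_of_subset hLL]
      omega
    obtain ⟨p, q, hpq, hd2⟩ := Finset.card_eq_two.1 hd
    have hp : p ∈ L ∧ p ∉ L' := by
      rw [← Finset.mem_sdiff, hd2]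
      simp
    have hq : q ∈ L ∧ q ∉ L' := by
      rw [← Finset.mem_sdiff, hd2]
      simp
    have hsubp : L' ⊆ L.erase p := Finset.subset_erase.2 ⟨hLL, hp.2⟩
    have hsubq : L' ⊆ L.erase q := Finset.subset_erase.2 ⟨hLL, hq.2⟩
    have cp : (L.erase p).card + 1 = L.card := Finset.card_erase_add_one hp.1
    have cq : (L.erase q).card + 1 = L.card := Finset.card_erase_add_one hq.1
    have hs : (0 : ℝ) ≤ L'.card := Nat.cast_nonneg _
    refine ⟨⟨(L.erase p, U), hne'.mono hsubp, (Finset.erase_subset _ _).trans hsub, hf⟩,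
      ⟨(L.erase q, U), hne'.mono hsubq, (Finset.erase_subset _ _).trans hsub, hf⟩, ?_,
      hok (hne'.mono hsubp) ((Finset.erase_subset _ _).trans hsub) hf (by omega)
        (Finset.erase_subset _ _) subset_rfl hsubp hUU,
      hok (hne'.mono hsubq) ((Finset.erase_subset _ _).trans hsub) hf (by omega)
        (Finset.erase_subset _ _) subset_rfl hsubq hUU, ?_,
      (L'.card : ℝ) + 1, (L'.card : ℝ) + 1,
      Pi.single i ((L'.card : ℝ) + 2) + Pi.single k (L'.card : ℝ), by positivity, by positivity,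
      invol_sum2_ne _ _ _ _ _ hji hjk, ?_, ?_⟩
    · intro e
      have e1 : L.erase p = L.erase q := congrArg (fun x : K.Iv => x.1.1) e
      have e2 : q ∈ L.erase p := Finset.mem_erase.2 ⟨hpq.symm, hq.1⟩
      rw [e1] at e2
      exact Finset.notMem_erase q L e2
    · rintro ⟨⟨A, B⟩, hA, hAB, hB⟩ h
      obtain ⟨g1, g2, g3, g4, g5⟩ : B.card = A.card + (j : ℕ) ∧ A ⊆ L ∧ U ⊆ B ∧ L' ⊆ A ∧ B ⊆ U' :=
        hun (hA := hA) (hAB := hAB) (hB := hB) h
      have c1 := Finset.card_le_card g2
      have c2 := Finset.card_le_card g3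
      have c3 := Finset.card_le_card g4
      have c4 := Finset.card_le_card g5
      have hBe : U = B := Finset.eq_of_subset_of_card_le g3 (by omega)
      have cA : A.card + 1 = L.card := by omega
      have hdA : (L \ A).card = 1 := by
        rw [Finset.card_sdiff_of_subset g2]
        omega
      obtain ⟨w, hw⟩ := Finset.card_eq_one.1 hdA
      have hw' : w ∈ L ∧ w ∉ A := by
        rw [← Finset.mem_sdiff, hw]
        simp
      have hAe : A = L.erase w := by
        refine Finset.eq_of_subset_of_card_le (Finset.subset_erase.2 ⟨g2, hw'.2⟩) ?_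
        have := Finset.card_erase_add_one hw'.1
        omega
      have hwpq : w ∈ ({p, q} : Finset K.V) := by
        rw [← hd2, Finset.mem_sdiff]
        exact ⟨hw'.1, fun hwL => hw'.2 (g4 hwL)⟩
      rw [Finset.mem_insert, Finset.mem_singleton] at hwpq
      rcases hwpq with rfl | rfl
      · left
        apply Subtype.ext
        show (A, B) = (L.erase w, U)
        rw [hAe, hBe]
      · right
        apply Subtype.ext
        show (A, B) = (L.erase w, U)
        rw [hAe, hBe]
    · rw [invol_sum2']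
      ring
    · rw [invol_sum2 (fun k => K.pos (t k)), hti, htk]
      show ((L'.card : ℝ) + 1) • (K.bary (L.erase p) + K.bary U) +
        ((L'.card : ℝ) + 1) • (K.bary (L.erase q) + K.bary U) =
        ((L'.card : ℝ) + 2) • (K.bary L + K.bary U) + (L'.card : ℝ) • (K.bary L' + K.bary U')
      have b1 : ((L'.card : ℝ) + 1) • K.bary (L.erase p) = ∑ v ∈ L, K.dev v - K.dev p := by
        rw [K.invol_bary (hne'.mono hsubp) (by
          have : (L.erase p).card = L'.card + 1 := by omega
          rw [this]; push_cast; rfl), Finset.sum_erase_eq_sub hp.1]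
      have b2 : ((L'.card : ℝ) + 1) • K.bary (L.erase q) = ∑ v ∈ L, K.dev v - K.dev q := by
        rw [K.invol_bary (hne'.mono hsubq) (by
          have : (L.erase q).card = L'.card + 1 := by omega
          rw [this]; push_cast; rfl), Finset.sum_erase_eq_sub hq.1]
      have b3 : ((L'.card : ℝ) + 2) • K.bary L = ∑ v ∈ L, K.dev v :=
        K.invol_bary hne (by rw [h1]; push_cast; rfl)
      have b4 : (L'.card : ℝ) • K.bary L' = ∑ v ∈ L, K.dev v - K.dev p - K.dev q := by
        rw [K.invol_bary hne' rfl]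
        have e1 := Finset.sum_sdiff hLL (f := K.dev)
        rw [hd2, Finset.sum_pair hpq] at e1
        rw [← e1]
        abel
      rw [← hUe]
      calc ((L'.card : ℝ) + 1) • (K.bary (L.erase p) + K.bary U) +
            ((L'.card : ℝ) + 1) • (K.bary (L.erase q) + K.bary U) =
            ((L'.card : ℝ) + 1) • K.bary (L.erase p) + ((L'.card : ℝ) + 1) • K.bary (L.erase q) +
              (2 * ((L'.card : ℝ) + 1)) • K.bary U := by module
        _ = ((L'.card : ℝ) + 2) • K.bary L + (L'.card : ℝ) • K.bary L' +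
              (2 * ((L'.card : ℝ) + 1)) • K.bary U := by
            rw [b1, b2, b3, b4]
            abel
        _ = ((L'.card : ℝ) + 2) • (K.bary L + K.bary U) +
              (L'.card : ℝ) • (K.bary L' + K.bary U) := by module
  · have hLe : L' = L := Finset.eq_of_subset_of_card_le hLL (by omega)
    have hd : (U' \ U).card = 2 := by
      rw [Finset.card_sdiff_of_subset hUU]
      omega
    obtain ⟨p, q, hpq, hd2⟩ := Finset.card_eq_two.1 hd
    have hp : p ∈ U' ∧ p ∉ U := by
      rw [← Finset.mem_sdiff, hd2]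
      simp
    have hq : q ∈ U' ∧ q ∉ U := by
      rw [← Finset.mem_sdiff, hd2]
      simp
    have hsubp : insert p U ⊆ U' := Finset.insert_subset hp.1 hUU
    have hsubq : insert q U ⊆ U' := Finset.insert_subset hq.1 hUU
    have cp : (insert p U).card = U.card + 1 := Finset.card_insert_of_notMem hp.2
    have cq : (insert q U).card = U.card + 1 := Finset.card_insert_of_notMem hq.2
    have hUne : U.Nonempty := hne.mono hsub
    have hs : (0 : ℝ) ≤ U.card := Nat.cast_nonneg _
    refine ⟨⟨(L, insert p U), hne, hsub.trans (Finset.subset_insert _ _),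
        K.down_closed U' hf' _ hsubp (Finset.insert_nonempty _ _)⟩,
      ⟨(L, insert q U), hne, hsub.trans (Finset.subset_insert _ _),
        K.down_closed U' hf' _ hsubq (Finset.insert_nonempty _ _)⟩, ?_,
      hok hne (hsub.trans (Finset.subset_insert _ _))
        (K.down_closed U' hf' _ hsubp (Finset.insert_nonempty _ _)) (by omega) subset_rfl
        (Finset.subset_insert _ _) hLL hsubp,
      hok hne (hsub.trans (Finset.subset_insert _ _))
        (K.down_closed U' hf' _ hsubq (Finset.insert_nonempty _ _)) (by omega) subset_rfl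
        (Finset.subset_insert _ _) hLL hsubq, ?_,
      (U.card : ℝ) + 1, (U.card : ℝ) + 1,
      Pi.single i (U.card : ℝ) + Pi.single k ((U.card : ℝ) + 2), by positivity, by positivity,
      invol_sum2_ne _ _ _ _ _ hji hjk, ?_, ?_⟩
    · intro e
      have e1 : insert p U = insert q U := congrArg (fun x : K.Iv => x.1.2) e
      have e2 : p ∈ insert q U := by
        rw [← e1]
        exact Finset.mem_insert_self p U
      rw [Finset.mem_insert] at e2
      rcases e2 with e2 | e2
      · exact hpq e2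
      · exact hp.2 e2
    · rintro ⟨⟨A, B⟩, hA, hAB, hB⟩ h
      obtain ⟨g1, g2, g3, g4, g5⟩ : B.card = A.card + (j : ℕ) ∧ A ⊆ L ∧ U ⊆ B ∧ L' ⊆ A ∧ B ⊆ U' :=
        hun (hA := hA) (hAB := hAB) (hB := hB) h
      have c1 := Finset.card_le_card g2
      have c2 := Finset.card_le_card g3
      have c3 := Finset.card_le_card g4
      have c4 := Finset.card_le_card g5
      have hAe : A = L := Finset.eq_of_subset_of_card_le g2 (by omega)
      have cB : B.card = U.card + 1 := by
        rw [hAe] at g1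
        omega
      have hdB : (B \ U).card = 1 := by
        rw [Finset.card_sdiff_of_subset g3]
        omega
      obtain ⟨w, hw⟩ := Finset.card_eq_one.1 hdB
      have hw' : w ∈ B ∧ w ∉ U := by
        rw [← Finset.mem_sdiff, hw]
        simp
      have hBe : insert w U = B := by
        refine Finset.eq_of_subset_of_card_le (Finset.insert_subset hw'.1 g3) ?_
        have := Finset.card_insert_of_notMem hw'.2
        omega
      have hwpq : w ∈ ({p, q} : Finset K.V) := by
        rw [← hd2, Finset.mem_sdiff]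
        exact ⟨g5 hw'.1, hw'.2⟩
      rw [Finset.mem_insert, Finset.mem_singleton] at hwpq
      rcases hwpq with rfl | rfl
      · left
        apply Subtype.ext
        show (A, B) = (L, insert w U)
        rw [hAe, hBe]
      · right
        apply Subtype.ext
        show (A, B) = (L, insert w U)
        rw [hAe, hBe]
    · rw [invol_sum2']
      ring
    · rw [invol_sum2 (fun k => K.pos (t k)), hti, htk]
      show ((U.card : ℝ) + 1) • (K.bary L + K.bary (insert p U)) +
        ((U.card : ℝ) + 1) • (K.bary L + K.bary (insert q U)) =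
        (U.card : ℝ) • (K.bary L + K.bary U) + ((U.card : ℝ) + 2) • (K.bary L' + K.bary U')
      have b1 : ((U.card : ℝ) + 1) • K.bary (insert p U) = ∑ v ∈ U, K.dev v + K.dev p := by
        rw [K.invol_bary (Finset.insert_nonempty _ _) (by rw [cp]; push_cast; rfl),
          Finset.sum_insert hp.2, add_comm]
      have b2 : ((U.card : ℝ) + 1) • K.bary (insert q U) = ∑ v ∈ U, K.dev v + K.dev q := by
        rw [K.invol_bary (Finset.insert_nonempty _ _) (by rw [cq]; push_cast; rfl),
          Finset.sum_insert hq.2, add_comm]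
      have b3 : (U.card : ℝ) • K.bary U = ∑ v ∈ U, K.dev v := K.invol_bary hUne rfl
      have b4 : ((U.card : ℝ) + 2) • K.bary U' = ∑ v ∈ U, K.dev v + K.dev p + K.dev q := by
        rw [K.invol_bary (hUne.mono hUU) (by rw [h2]; push_cast; rfl)]
        have e1 := Finset.sum_sdiff hUU (f := K.dev)
        rw [hd2, Finset.sum_pair hpq] at e1
        rw [← e1]
        abel
      rw [hLe]
      calc ((U.card : ℝ) + 1) • (K.bary L + K.bary (insert p U)) +
            ((U.card : ℝ) + 1) • (K.bary L + K.bary (insert q U)) =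
            ((U.card : ℝ) + 1) • K.bary (insert p U) + ((U.card : ℝ) + 1) • K.bary (insert q U) +
              (2 * ((U.card : ℝ) + 1)) • K.bary L := by module
        _ = (U.card : ℝ) • K.bary U + ((U.card : ℝ) + 2) • K.bary U' +
              (2 * ((U.card : ℝ) + 1)) • K.bary L := by
            rw [b1, b2, b3, b4]
            abel
        _ = (U.card : ℝ) • (K.bary L + K.bary U) +
              ((U.card : ℝ) + 2) • (K.bary L + K.bary U') := by module

/-- the direction space of a simplex -/
theorem invol_bary_mem {σ U : Finset K.V} (hσ : σ.Nonempty) (hs : σ ⊆ U) {u : K.V} (hu : u ∈ U) :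
    K.bary σ - K.dev u ∈ vectorSpan ℝ ((U.image K.dev : Finset (Fin n → ℝ)) : Set (Fin n → ℝ)) := by
  have h0 : (σ.card : ℝ) ≠ 0 := by
    have := hσ.card_pos
    positivity
  have e : K.bary σ - K.dev u = (σ.card : ℝ)⁻¹ • ∑ v ∈ σ, (K.dev v - K.dev u) := by
    unfold bary
    rw [Finset.sum_sub_distrib, Finset.sum_const, smul_sub, ← Nat.cast_smul_eq_nsmul ℝ, smul_smul,
      inv_mul_cancel₀ h0, one_smul]
  rw [e]
  refine Submodule.smul_mem _ _ (Submodule.sum_mem _ fun v hv => ?_)
  exact vsub_mem_vectorSpan ℝ (Finset.mem_coe.2 (Finset.mem_image_of_mem _ (hs hv)))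
    (Finset.mem_coe.2 (Finset.mem_image_of_mem _ hu))

end AffineTriangulation

/-- the points of a chain below the top one span the direction space of `U` -/
theorem invol_span {m : ℕ} (K : AffineTriangulation (m + 1)) {t : Fin (m + 1 + 1) → K.Iv}
    (ht : K.IsChain t) {U : Finset K.V} (hU : ∀ k : Fin (m + 1 + 1), (k : ℕ) ≤ m → (t k).1.2 ⊆ U)
    (hc : U.card = m + 1) {z : Fin (m + 1) → ℝ}
    (hz : z ∈ vectorSpan ℝ ((U.image K.dev : Finset (Fin (m + 1) → ℝ)) :
      Set (Fin (m + 1) → ℝ))) :
    ∃ e : Fin m → ℝ, ∑ i : Fin m, e i • (K.pos (t i.castSucc.succ) - K.pos (t 0)) = z := by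
  set W := vectorSpan ℝ ((U.image K.dev : Finset (Fin (m + 1) → ℝ)) : Set (Fin (m + 1) → ℝ))
    with hW
  set v : Fin m → Fin (m + 1) → ℝ := fun i => K.pos (t i.castSucc.succ) - K.pos (t 0) with hv
  have hrows : LinearIndependent ℝ (fun a : Fin (m + 1) => K.pos (t a.succ) - K.pos (t 0)) :=
    Matrix.linearIndependent_rows_of_det_ne_zero (K.det_pos_ne_zero ht)
  have hli : LinearIndependent ℝ v := hrows.comp Fin.castSucc (Fin.castSucc_injective m)
  obtain ⟨u, hu⟩ : U.Nonempty := by
    rw [← Finset.card_pos]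
    omega
  have hmem : ∀ k : Fin (m + 1 + 1), (k : ℕ) ≤ m → K.pos (t k) - (2 : ℝ) • K.dev u ∈ W := by
    intro k hk
    have h1 := K.invol_bary_mem (t k).2.1 ((t k).2.2.1.trans (hU k hk)) hu
    have h2 := K.invol_bary_mem ((t k).2.1.mono (t k).2.2.1) (hU k hk) hu
    have h3 : K.pos (t k) - (2 : ℝ) • K.dev u =
        (K.bary (t k).1.1 - K.dev u) + (K.bary (t k).1.2 - K.dev u) := by
      unfold AffineTriangulation.pos
      module
    rw [h3]
    exact W.add_mem h1 h2
  have hle : Submodule.span ℝ (Set.range v) ≤ W := by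
    rw [Submodule.span_le]
    rintro _ ⟨i, rfl⟩
    have h1 := hmem i.castSucc.succ (by
      rw [Fin.val_succ, Fin.val_castSucc]
      omega)
    have h2 := hmem 0 (by simp)
    have h3 : v i = (K.pos (t i.castSucc.succ) - (2 : ℝ) • K.dev u) -
        (K.pos (t 0) - (2 : ℝ) • K.dev u) := by
      rw [hv]
      simp only []
      abel
    show v i ∈ W
    rw [h3]
    exact W.sub_mem h1 h2
  have hfW : Module.finrank ℝ W ≤ m := by
    rw [hW]
    exact finrank_vectorSpan_image_finset_le ℝ K.dev U hc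
  have heq : Submodule.span ℝ (Set.range v) = W := by
    refine Submodule.eq_of_le_of_finrank_le hle ?_
    rw [finrank_span_eq_card hli, Fintype.card_fin]
    exact hfW
  rw [← heq] at hz
  exact (Submodule.mem_span_range_iff_exists_fun ℝ).1 hz

/-- the case `j = n` -/
theorem invol_last {m : ℕ} (K : AffineTriangulation (m + 1)) {t : Fin (m + 1 + 1) → K.Iv}
    (ht : K.IsChain t) : K.InvolTwo t (Fin.last (m + 1)) := by
  set j : Fin (m + 1 + 1) := Fin.last (m + 1) with hj
  set i : Fin (m + 1 + 1) := ⟨m, by omega⟩ with hi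
  have hjv : (j : ℕ) = m + 1 := rfl
  have hiv : (i : ℕ) = m := rfl
  rcases hti : t i with ⟨⟨L, U⟩, hne, hsub, hf⟩
  dsimp only at hne hsub hf
  have hcL : U.card = L.card + m := by
    have := ht.card i
    rw [hti] at this
    exact this
  have hij : i ≤ j := by
    rw [Fin.le_def]
    omega
  have hji : j ≠ i := by
    intro e
    have := congrArg Fin.val e
    omega
  obtain ⟨hl1, hl2⟩ := ht.card_last
  have hLj : (t j).1.1 ⊆ L := by
    have := ht.anti i j hij
    rw [hti] at this
    exact this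
  have hUj : U ⊆ (t j).1.2 := by
    have := ht.mono i j hij
    rw [hti] at this
    exact this
  have hok : ∀ {A B : Finset K.V} (hA : A.Nonempty) (hAB : A ⊆ B) (hB : B ∈ K.faces),
      B.card = A.card + (j : ℕ) → A ⊆ L → U ⊆ B → K.InvolOK t j ⟨(A, B), hA, hAB, hB⟩ := by
    intro A B hA hAB hB h1 h2 h3
    refine ⟨h1, fun l hl => ?_, fun l hl => ?_⟩
    · have hli : l ≤ i := by
        rw [Fin.lt_def] at hl
        rw [Fin.le_def]
        omega
      have g1 := ht.anti l i hli
      have g2 := ht.mono l i hli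
      rw [hti] at g1 g2
      exact ⟨h2.trans g1, g2.trans h3⟩
    · exfalso
      rw [Fin.lt_def] at hl
      have := l.2
      omega
  have hun : ∀ {A B : Finset K.V} {hA : A.Nonempty} {hAB : A ⊆ B} {hB : B ∈ K.faces},
      K.InvolOK t j ⟨(A, B), hA, hAB, hB⟩ → A.card = 1 ∧ B.card = m + 2 ∧ A ⊆ L ∧ U ⊆ B := by
    intro A B hA hAB hB h
    obtain ⟨h1, h2, -⟩ := h
    have h4 := h2 i (by rw [Fin.lt_def]; omega)
    rw [hti] at h4
    have h5 : B.card = A.card + (j : ℕ) := h1
    have h6 := K.card_le hB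
    have h7 := hA.card_pos
    exact ⟨by omega, by omega, h4.1, h4.2⟩
  have cL := Finset.card_le_card hLj
  have cU := Finset.card_le_card hUj
  have hcase : (L.card = 2 ∧ U.card = m + 2) ∨ (L.card = 1 ∧ U.card = m + 1) := by
    have : (t j).1.1.card = 1 := hl1
    have : (t j).1.2.card = m + 1 + 1 := hl2
    omega
  rcases hcase with ⟨h1, h2⟩ | ⟨h1, h2⟩
  · obtain ⟨p, q, hpq, hL⟩ := Finset.card_eq_two.1 h1
    have hp : {p} ⊆ L := by
      rw [hL]
      simp
    have hq : {q} ⊆ L := by
      rw [hL]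
      simp
    refine ⟨⟨({p}, U), Finset.singleton_nonempty p, hp.trans hsub, hf⟩,
      ⟨({q}, U), Finset.singleton_nonempty q, hq.trans hsub, hf⟩, ?_,
      hok (Finset.singleton_nonempty p) (hp.trans hsub) hf
        (by rw [Finset.card_singleton]; omega) hp subset_rfl,
      hok (Finset.singleton_nonempty q) (hq.trans hsub) hf
        (by rw [Finset.card_singleton]; omega) hq subset_rfl, ?_,
      1, 1, Pi.single i 1 + Pi.single i 1, one_pos, one_pos,
      AffineTriangulation.invol_sum2_ne _ _ _ _ _ hji hji,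
      AffineTriangulation.invol_sum2' _ _ _ _, ?_⟩
    · intro e
      have e1 : ({p} : Finset K.V) = {q} := congrArg (fun x : K.Iv => x.1.1) e
      exact hpq (Finset.singleton_injective e1)
    · rintro ⟨⟨A, B⟩, hA, hAB, hB⟩ h
      obtain ⟨g1, g2, g3, g4⟩ : A.card = 1 ∧ B.card = m + 2 ∧ A ⊆ L ∧ U ⊆ B :=
        hun (hA := hA) (hAB := hAB) (hB := hB) h
      have hBe : U = B := Finset.eq_of_subset_of_card_le g4 (by omega)
      obtain ⟨w, rfl⟩ := Finset.card_eq_one.1 g1
      have hwL : w ∈ L := g3 (Finset.mem_singleton_self w)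
      rw [hL, Finset.mem_insert, Finset.mem_singleton] at hwL
      rcases hwL with rfl | rfl
      · left
        apply Subtype.ext
        show ({w}, B) = ({w}, U)
        rw [hBe]
      · right
        apply Subtype.ext
        show ({w}, B) = ({w}, U)
        rw [hBe]
    · rw [AffineTriangulation.invol_sum2 (fun k => K.pos (t k)), hti]
      show (1 : ℝ) • (K.bary {p} + K.bary U) + (1 : ℝ) • (K.bary {q} + K.bary U) =
        (1 : ℝ) • (K.bary L + K.bary U) + (1 : ℝ) • (K.bary L + K.bary U)
      have b1 : (1 : ℝ) • K.bary {p} = K.dev p := by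
        rw [K.invol_bary (Finset.singleton_nonempty p) (by simp), Finset.sum_singleton]
      have b2 : (1 : ℝ) • K.bary {q} = K.dev q := by
        rw [K.invol_bary (Finset.singleton_nonempty q) (by simp), Finset.sum_singleton]
      have b3 : (2 : ℝ) • K.bary L = K.dev p + K.dev q := by
        rw [K.invol_bary hne (by rw [h1]; norm_num), hL, Finset.sum_pair hpq]
      calc (1 : ℝ) • (K.bary {p} + K.bary U) + (1 : ℝ) • (K.bary {q} + K.bary U) =
            (1 : ℝ) • K.bary {p} + (1 : ℝ) • K.bary {q} + (2 : ℝ) • K.bary U := by module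
        _ = (2 : ℝ) • K.bary L + (2 : ℝ) • K.bary U := by rw [b1, b2, b3]
        _ = _ := by module
  · obtain ⟨w1, w2, hw1, hw2, hne12, hf1, hf2, hun12, α, β, c, hα, hβ, hcs, hrel⟩ :=
      K.facet hf h2
    have cw1 : (insert w1 U).card = m + 2 := by
      rw [Finset.card_insert_of_notMem hw1]
      omega
    have cw2 : (insert w2 U).card = m + 2 := by
      rw [Finset.card_insert_of_notMem hw2]
      omega
    have hUne : U.Nonempty := hne.mono hsub
    obtain ⟨u, hu⟩ := hUne
    set W := vectorSpan ℝ ((U.image K.dev : Finset (Fin (m + 1) → ℝ)) : Set (Fin (m + 1) → ℝ))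
      with hW
    have hUk : ∀ k : Fin (m + 1 + 1), (k : ℕ) ≤ m → (t k).1.2 ⊆ U := by
      intro k hk
      have := ht.mono k i (by rw [Fin.le_def]; omega)
      rw [hti] at this
      exact this
    have hDv : ∀ v ∈ U, K.dev v - K.dev u ∈ W := fun v hv =>
      vsub_mem_vectorSpan ℝ (Finset.mem_coe.2 (Finset.mem_image_of_mem _ hv))
        (Finset.mem_coe.2 (Finset.mem_image_of_mem _ hu))
    set y1 : K.Iv := ⟨(L, insert w1 U), hne, hsub.trans (Finset.subset_insert _ _), hf1⟩ with hy1
    set y2 : K.Iv := ⟨(L, insert w2 U), hne, hsub.trans (Finset.subset_insert _ _), hf2⟩ with hy2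
    set S : Fin (m + 1) → ℝ := ∑ v ∈ U, K.dev v with hS
    have hm2 : ((m : ℝ) + 2) ≠ 0 := by positivity
    have b1 : K.bary (insert w1 U) = ((m : ℝ) + 2)⁻¹ • (S + K.dev w1) := by
      unfold AffineTriangulation.bary
      rw [cw1, Finset.sum_insert hw1, add_comm (K.dev w1)]
      push_cast
      rfl
    have b2 : K.bary (insert w2 U) = ((m : ℝ) + 2)⁻¹ • (S + K.dev w2) := by
      unfold AffineTriangulation.bary
      rw [cw2, Finset.sum_insert hw2, add_comm (K.dev w2)]
      push_cast
      rfl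
    have eS : S = ((m : ℝ) + 1) • K.dev u + ∑ v ∈ U, (K.dev v - K.dev u) := by
      rw [Finset.sum_sub_distrib, Finset.sum_const, h2, ← Nat.cast_smul_eq_nsmul ℝ]
      push_cast
      abel
    have eC : ∑ v ∈ U, c v • K.dev v = (α + β) • K.dev u + ∑ v ∈ U, c v • (K.dev v - K.dev u) := by
      have e1 : ∑ v ∈ U, c v • (K.dev v - K.dev u) =
          ∑ v ∈ U, c v • K.dev v - (∑ v ∈ U, c v) • K.dev u := by
        rw [Finset.sum_smul, ← Finset.sum_sub_distrib]
        refine Finset.sum_congr rfl fun v _ => ?_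
        rw [smul_sub]
      rw [e1, hcs]
      abel
    have hT : (α • K.pos y1 + β • K.pos y2) - (α + β) • K.pos (t 0) ∈ W := by
      have e1 : (α • K.pos y1 + β • K.pos y2) - (α + β) • K.pos (t 0) =
          (α + β) • (K.bary L - K.dev u) + ((m : ℝ) + 2)⁻¹ •
            ((α + β) • ∑ v ∈ U, (K.dev v - K.dev u) + ∑ v ∈ U, c v • (K.dev v - K.dev u)) -
            (α + β) • ((K.bary (t 0).1.1 - K.dev u) + (K.bary (t 0).1.2 - K.dev u)) := by
        have e2 : α • K.pos y1 + β • K.pos y2 = (α + β) • K.bary L + ((m : ℝ) + 2)⁻¹ •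
            ((α + β) • S + (α • K.dev w1 + β • K.dev w2)) := by
          show α • (K.bary L + K.bary (insert w1 U)) + β • (K.bary L + K.bary (insert w2 U)) = _
          rw [b1, b2]
          module
        rw [e2, hrel, eC, eS]
        unfold AffineTriangulation.pos
        set D := ∑ v ∈ U, (K.dev v - K.dev u)
        set C := ∑ v ∈ U, c v • (K.dev v - K.dev u)
        have e3 : (α + β) • (((m : ℝ) + 1) • K.dev u + D) + ((α + β) • K.dev u + C) =
            ((m : ℝ) + 2) • ((α + β) • K.dev u) + ((α + β) • D + C) := by module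
        rw [e3, smul_add (((m : ℝ) + 2)⁻¹), inv_smul_smul₀ hm2]
        module
      rw [e1]
      refine W.sub_mem (W.add_mem (W.smul_mem _ (K.invol_bary_mem hne hsub hu))
        (W.smul_mem _ (W.add_mem (W.smul_mem _ (W.sum_mem fun v hv => hDv v hv))
          (W.sum_mem fun v hv => W.smul_mem _ (hDv v hv))))) (W.smul_mem _ (W.add_mem ?_ ?_))
      · exact K.invol_bary_mem (t 0).2.1 ((t 0).2.2.1.trans (hUk 0 (by simp))) hu
      · exact K.invol_bary_mem ((t 0).2.1.mono (t 0).2.2.1) (hUk 0 (by simp)) hu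
    obtain ⟨e, he⟩ := invol_span K ht hUk h2 hT
    refine ⟨y1, y2, ?_, hok hne (hsub.trans (Finset.subset_insert _ _)) hf1
        (by rw [cw1, h1]; omega) subset_rfl (Finset.subset_insert _ _),
      hok hne (hsub.trans (Finset.subset_insert _ _)) hf2
        (by rw [cw2, h1]; omega) subset_rfl (Finset.subset_insert _ _), ?_,
      α, β, Fin.cons ((α + β) - ∑ i, e i) (Fin.snoc e 0), hα, hβ, ?_, ?_, ?_⟩
    · intro e'
      have e1 : insert w1 U = insert w2 U := congrArg (fun x : K.Iv => x.1.2) e'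
      have e2 : w1 ∈ insert w2 U := by
        rw [← e1]
        exact Finset.mem_insert_self w1 U
      rw [Finset.mem_insert] at e2
      rcases e2 with e2 | e2
      · exact hne12 e2
      · exact hw1 e2
    · rintro ⟨⟨A, B⟩, hA, hAB, hB⟩ h
      obtain ⟨g1, g2, g3, g4⟩ : A.card = 1 ∧ B.card = m + 2 ∧ A ⊆ L ∧ U ⊆ B :=
        hun (hA := hA) (hAB := hAB) (hB := hB) h
      have hAe : A = L := Finset.eq_of_subset_of_card_le g3 (by omega)
      have hdB : (B \ U).card = 1 := by
        rw [Finset.card_sdiff_of_subset g4]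
        omega
      obtain ⟨w, hw⟩ := Finset.card_eq_one.1 hdB
      have hw' : w ∈ B ∧ w ∉ U := by
        rw [← Finset.mem_sdiff, hw]
        simp
      have hBe : insert w U = B := by
        refine Finset.eq_of_subset_of_card_le (Finset.insert_subset hw'.1 g4) ?_
        have := Finset.card_insert_of_notMem hw'.2
        omega
      rcases hun12 w hw'.2 (by rw [hBe]; exact hB) with e1 | e1
      · left
        apply Subtype.ext
        show (A, B) = (L, insert w1 U)
        rw [hAe, ← e1, hBe]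
      · right
        apply Subtype.ext
        show (A, B) = (L, insert w2 U)
        rw [hAe, ← e1, hBe]
    · rw [hj, show Fin.last (m + 1) = (Fin.last m).succ from rfl, Fin.cons_succ, Fin.snoc_last]
    · rw [Fin.sum_univ_succ, Fin.cons_zero]
      simp only [Fin.cons_succ]
      rw [Fin.sum_univ_castSucc]
      simp only [Fin.snoc_castSucc, Fin.snoc_last]
      ring
    · rw [Fin.sum_univ_succ, Fin.cons_zero]
      simp only [Fin.cons_succ]
      rw [Fin.sum_univ_castSucc]
      simp only [Fin.snoc_castSucc, Fin.snoc_last, zero_smul, add_zero]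
      have e1 : ∑ i : Fin m, e i • (K.pos (t i.castSucc.succ) - K.pos (t 0)) =
          ∑ i : Fin m, e i • K.pos (t i.castSucc.succ) - (∑ i, e i) • K.pos (t 0) := by
        rw [Finset.sum_smul, ← Finset.sum_sub_distrib]
        refine Finset.sum_congr rfl fun i _ => ?_
        rw [smul_sub]
      rw [e1] at he
      have e2 : α • K.pos y1 + β • K.pos y2 =
          (∑ i : Fin m, e i • K.pos (t i.castSucc.succ) - (∑ i, e i) • K.pos (t 0)) +
            (α + β) • K.pos (t 0) := by
        rw [he]
        abel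
      rw [e2, sub_smul]
      abel

namespace AffineTriangulation

variable {n : ℕ} (K : AffineTriangulation n)

theorem exists_other (hn : 0 < n) {t : Fin (n + 1) → K.Iv} (ht : K.IsChain t)
    (j : Fin (n + 1)) :
    ∃ t' : Fin (n + 1) → K.Iv, K.IsChain t' ∧ (∀ i, i ≠ j → t' i = t i) ∧ t' j ≠ t j ∧
      (∀ t'' : Fin (n + 1) → K.Iv, K.IsChain t'' → (∀ i, i ≠ j → t'' i = t i) →
        t'' = t ∨ t'' = t') ∧
      K.mor t' = -K.mor t := by
  refine K.invol_of_two ht j ?_
  by_cases h0 : (j : ℕ) = 0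
  · have : j = 0 := Fin.ext h0
    rw [this]
    exact K.invol_zero hn ht
  · by_cases h1 : (j : ℕ) = n
    · obtain ⟨m, rfl⟩ : ∃ m, n = m + 1 := ⟨n - 1, by omega⟩
      have : j = Fin.last (m + 1) := Fin.ext h1
      rw [this]
      exact invol_last K ht
    · have hj := j.2
      exact K.invol_mid ht (i := ⟨j - 1, by omega⟩) (k := ⟨j + 1, by omega⟩)
        (by show (j : ℕ) - 1 + 1 = j; omega) rfl

end AffineTriangulation

end Pool.Agent.ChP
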