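import Pool.Agent.ChP.Defs
import Pool.Agent.ChP.TriDefs

/-!
# The interval subdivision of a triangulated affine manifold: definitions

The vertices of the interval subdivision are the pairs `(L, U)`, `L ⊆ U` simplices, placed at the
midpoint of the two barycentres (we drop the factor `1/2` in `pos`).  Its `n`-simplices are the
chains `t_0 ⊂ t_1 ⊂ ... ⊂ t_n` of intervals, `t_i = (L_i, U_i)` with `|U_i| - |L_i| = i`; in each
step either `L` loses one element or `U` gains one.
-/

namespace Pool.Agent.ChP

open Matrix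
open scoped Pointwise

namespace AffineTriangulation

variable {n : ℕ} (K : AffineTriangulation n)

/-- The barycentre of a developed simplex. -/
noncomputable def bary (σ : Finset K.V) : Fin n → ℝ := (σ.card : ℝ)⁻¹ • ∑ v ∈ σ, K.dev v

/-- The intervals `(L, U)` of simplices. -/
def Iv : Type := {x : Finset K.V × Finset K.V // x.1.Nonempty ∧ x.1 ⊆ x.2 ∧ x.2 ∈ K.faces}

instance : MulAction K.Γ K.Iv where
  smul γ x := ⟨(γ • x.1.1, γ • x.1.2),
    Finset.Nonempty.smul_finset x.2.1, Finset.smul_finset_subset_smul_finset x.2.2.1,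
    K.smul_mem γ _ x.2.2.2⟩
  one_smul x := by
    apply Subtype.ext
    exact Prod.ext (one_smul _ _) (one_smul _ _)
  mul_smul a b x := by
    apply Subtype.ext
    exact Prod.ext (mul_smul _ _ _) (mul_smul _ _ _)

theorem smul_lower (γ : K.Γ) (x : K.Iv) : (γ • x).1.1 = γ • x.1.1 := rfl

theorem smul_upper (γ : K.Γ) (x : K.Iv) : (γ • x).1.2 = γ • x.1.2 := rfl

/-- The position (times two) of a vertex of the interval subdivision. -/
noncomputable def pos (x : K.Iv) : Fin n → ℝ := K.bary x.1.1 + K.bary x.1.2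

/-- The `n`-simplices of the interval subdivision, with ordered vertices. -/
structure IsChain (t : Fin (n + 1) → K.Iv) : Prop where
  card : ∀ i, (t i).1.2.card = (t i).1.1.card + i
  anti : ∀ i j, i ≤ j → (t j).1.1 ⊆ (t i).1.1
  mono : ∀ i j, i ≤ j → (t i).1.2 ⊆ (t j).1.2

/-- The orientation sign of an `n`-simplex of the interval subdivision. -/
noncomputable def mor (t : Fin (n + 1) → K.Iv) : ℝ :=
  Real.sign (Matrix.det (Matrix.of fun a : Fin n => K.pos (t a.succ) - K.pos (t 0)))

/-- The vectors `b_L - b_U` at the vertices `t_1, ..., t_n`. -/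
noncomputable def vec (t : Fin (n + 1) → K.Iv) (i : Fin n) : Fin n → ℝ :=
  K.bary (t i.succ).1.1 - K.bary (t i.succ).1.2

/-- The vector field on the vertices of the interval subdivision. -/
noncomputable def sec (w : Finset K.V → Fin n → ℝ) (x : K.Iv) : Fin n → ℝ :=
  if x.1.1 = x.1.2 then w x.1.1 else K.bary x.1.1 - K.bary x.1.2

/-- `R` is a set of representatives of the orbits of simplices. -/
def Reps (R : Finset (Finset K.V)) : Prop :=
  (∀ σ ∈ R, σ ∈ K.faces) ∧ ∀ τ ∈ K.faces, ∃! p : K.Γ × Finset K.V, p.2 ∈ R ∧ p.1 • p.2 = τ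

/-- `w` is a generic choice of vectors at the barycentres of the simplices. -/
def Generic (w : Finset K.V → Fin n → ℝ) (σ : Finset K.V) : Prop :=
  ∀ t : Fin (n + 1) → K.Iv, K.IsChain t → (t 0).1.1 = σ →
    ∀ j : Fin n, w σ ∉ Submodule.span ℝ (K.vec t '' {i | i ≠ j})

end AffineTriangulation

end Pool.Agent.ChP
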