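import Pool.Agent.ChP.ConeForm
import Pool.Agent.ChP.Taylor
import Pool.Agent.ChP.PSet

/-!
# The local estimate

Let `a = (x 0)^{1/2}`, `P i = a⁻¹ * x (i+1) * a⁻¹`.  Then `P i ∈ PSet T`, `Close δ 1 (P i)`
(`Close.conj`), and by `CC_push` and `push_gdens`
`|CC (gdens ∘ x)| = |CC (gdens 1, gdens (P 1), ..., gdens (P n))|`.
If `δ ≥ 1` use `abs_CC_le`.  If `δ ≤ 1`: `CC` does not change if `gdens (P i)` is replaced by
`gdens (P i) - gdens 1 = DY (lg (P i)) + R i` (`CC_eq_zero_of_eq`), with
`‖DY (lg (P i))‖_1 ≤ C δ`, `‖R i‖_1 ≤ C δ²` (`exists_taylor`).  Expand by multilinearity: the term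
with all entries `DY` is `0` by `CC_DY_eq_zero` and `tangent`, each of the other `2^n - 1` terms is
at most `C^n δ^{n+1}` (`abs_CC_le`).  For `n = 0` there is nothing to do (`T ≠ 0`, `0 < d` is
impossible).
-/

namespace Pool.Agent.ChP

open MeasureTheory Matrix

private theorem LocalEst_if_integrable {n : ℕ} {S : Finset (Fin n)}
    {g0 : (Fin n → ℝ) → ℝ} {D E : Fin n → (Fin n → ℝ) → ℝ} (hg : Integrable g0)
    (hD : ∀ i, Integrable (D i)) (hE : ∀ i, Integrable (E i)) (i : Fin (n + 1)) :
    Integrable ((Fin.cons g0 (fun i => if i ∈ S then D i else E i) :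
      Fin (n + 1) → (Fin n → ℝ) → ℝ) i) := by
  refine Fin.cases ?_ (fun i => ?_) i
  · simpa using hg
  · rw [Fin.cons_succ]
    split_ifs
    · exact hD i
    · exact hE i

/-- one step of the replacement of `E` by `D` -/
private theorem LocalEst_step {n : ℕ} {S : Finset (Fin n)} {j : Fin n} (hj : j ∉ S)
    (g0 : (Fin n → ℝ) → ℝ) (D E R : Fin n → (Fin n → ℝ) → ℝ) (hg : Integrable g0)
    (hD : ∀ i, Integrable (D i)) (hE : ∀ i, Integrable (E i)) (hR : Integrable (R j))
    (hs : E j = fun x => D j x + R j x) :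
    CC (Fin.cons g0 (fun i => if i ∈ S then D i else E i) : Fin (n + 1) → (Fin n → ℝ) → ℝ) =
      CC (Fin.cons g0 (fun i => if i ∈ insert j S then D i else E i) :
        Fin (n + 1) → (Fin n → ℝ) → ℝ) +
      CC (Function.update (Fin.cons g0 (fun i => if i ∈ S then D i else E i) :
        Fin (n + 1) → (Fin n → ℝ) → ℝ) j.succ (R j)) := by
  have h1 : (Fin.cons g0 (fun i => if i ∈ S then D i else E i) :
      Fin (n + 1) → (Fin n → ℝ) → ℝ) =
      Function.update (Fin.cons g0 (fun i => if i ∈ S then D i else E i) :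
        Fin (n + 1) → (Fin n → ℝ) → ℝ) j.succ (fun x => D j x + R j x) := by
    rw [← hs]
    symm
    rw [Function.update_eq_self_iff, Fin.cons_succ, if_neg hj]
  have h2 : Function.update (Fin.cons g0 (fun i => if i ∈ S then D i else E i) :
      Fin (n + 1) → (Fin n → ℝ) → ℝ) j.succ (D j) =
      (Fin.cons g0 (fun i => if i ∈ insert j S then D i else E i) :
        Fin (n + 1) → (Fin n → ℝ) → ℝ) := by
    funext i
    refine Fin.cases ?_ (fun i => ?_) i
    · rw [Function.update_of_ne (Fin.succ_ne_zero j).symm]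
      rfl
    · by_cases hi : i = j
      · subst hi
        rw [Function.update_self, Fin.cons_succ, if_pos (Finset.mem_insert_self _ _)]
      · rw [Function.update_of_ne (fun h => hi (Fin.succ_injective _ h)), Fin.cons_succ,
          Fin.cons_succ]
        by_cases hS : i ∈ S
        · rw [if_pos hS, if_pos (Finset.mem_insert_of_mem hS)]
        · rw [if_neg hS, if_neg]
          rw [Finset.mem_insert, not_or]
          exact ⟨hi, hS⟩
  conv_lhs => rw [h1]
  rw [CC_update_add _ (LocalEst_if_integrable hg hD hE) _ _ _ (hD j) hR, h2]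

/-- subtracting `g0` in all entries but the first does not change `CC` -/
private theorem LocalEst_drop {n : ℕ} (g0 : (Fin n → ℝ) → ℝ) (G : Fin n → (Fin n → ℝ) → ℝ)
    (hg : Integrable g0) (hG : ∀ i, Integrable (G i)) (S : Finset (Fin n)) :
    CC (Fin.cons g0 G : Fin (n + 1) → (Fin n → ℝ) → ℝ) =
      CC (Fin.cons g0 (fun i => if i ∈ S then (fun x => G i x - g0 x) else G i) :
        Fin (n + 1) → (Fin n → ℝ) → ℝ) := by
  classical
  induction S using Finset.induction_on with
  | empty => simp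
  | insert j S hj ih =>
    rw [ih, LocalEst_step hj g0 (fun i x => G i x - g0 x) G (fun _ => g0) hg
      (fun i => (hG i).sub hg) hG hg (by funext x; ring)]
    have hz : CC (Function.update (Fin.cons g0
        (fun i => if i ∈ S then (fun x => G i x - g0 x) else G i) :
        Fin (n + 1) → (Fin n → ℝ) → ℝ) j.succ g0) = 0 := by
      refine CC_eq_zero_of_eq _ 0 j.succ (Fin.succ_ne_zero j).symm ?_
      rw [Function.update_self, Function.update_of_ne (Fin.succ_ne_zero j).symm]
      rfl
    rw [hz, add_zero]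

private theorem LocalEst_tele {n : ℕ} (g0 : (Fin n → ℝ) → ℝ) (D E R : Fin n → (Fin n → ℝ) → ℝ)
    (hg : Integrable g0) (hD : ∀ i, Integrable (D i)) (hE : ∀ i, Integrable (E i))
    (hR : ∀ i, Integrable (R i)) (hs : ∀ i, E i = fun x => D i x + R i x)
    (hg1 : ∫ x, |g0 x| ≤ 1) {K δ : ℝ} (hK : 0 ≤ K) (hδ : 0 ≤ δ)
    (hD' : ∀ i, ∫ x, |D i x| ≤ K * δ) (hE' : ∀ i, ∫ x, |E i x| ≤ K * δ)
    (hR' : ∀ i, ∫ x, |R i x| ≤ K * δ * δ) (S : Finset (Fin n)) :
    |CC (Fin.cons g0 E : Fin (n + 1) → (Fin n → ℝ) → ℝ) -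
      CC (Fin.cons g0 (fun i => if i ∈ S then D i else E i) :
        Fin (n + 1) → (Fin n → ℝ) → ℝ)| ≤ S.card * ((K * δ) ^ n * δ) := by
  classical
  induction S using Finset.induction_on with
  | empty => simp
  | insert j S hj ih =>
    have h1 := LocalEst_step hj g0 D E R hg hD hE (hR j) (hs j)
    have h2 : |CC (Function.update (Fin.cons g0 (fun i => if i ∈ S then D i else E i) :
        Fin (n + 1) → (Fin n → ℝ) → ℝ) j.succ (R j))| ≤ (K * δ) ^ n * δ := by
      have h3 : ∀ i, Integrable (Function.update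
          (Fin.cons g0 (fun i => if i ∈ S then D i else E i) :
          Fin (n + 1) → (Fin n → ℝ) → ℝ) j.succ (R j) i) := by
        intro i
        by_cases hi : i = j.succ
        · subst hi
          rw [Function.update_self]
          exact hR j
        · rw [Function.update_of_ne hi]
          exact LocalEst_if_integrable hg hD hE i
      refine (abs_CC_le _ h3).trans ?_
      rw [Fin.prod_univ_succ, Function.update_of_ne (Fin.succ_ne_zero j).symm, Fin.cons_zero]
      have h4 : ∀ i : Fin n, ∫ x, |Function.update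
          (Fin.cons g0 (fun i => if i ∈ S then D i else E i) :
          Fin (n + 1) → (Fin n → ℝ) → ℝ) j.succ (R j) i.succ x| ≤
          K * δ * (if j = i then δ else 1) := by
        intro i
        by_cases hi : j = i
        · subst hi
          rw [Function.update_self, if_pos rfl]
          exact hR' j
        · rw [Function.update_of_ne (fun h => hi (Fin.succ_injective _ h).symm), Fin.cons_succ,
            if_neg hi, mul_one]
          split_ifs
          · exact hD' i
          · exact hE' i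
      have h5 : ∏ i : Fin n, ∫ x, |Function.update
          (Fin.cons g0 (fun i => if i ∈ S then D i else E i) :
          Fin (n + 1) → (Fin n → ℝ) → ℝ) j.succ (R j) i.succ x| ≤ (K * δ) ^ n * δ := by
        refine (Finset.prod_le_prod (fun i _ => integral_nonneg fun x => abs_nonneg _)
          (fun i _ => h4 i)).trans ?_
        rw [Finset.prod_mul_distrib, Finset.prod_ite_eq]
        simp
      have h6 : 0 ≤ (K * δ) ^ n * δ := by positivity
      calc _ ≤ 1 * ((K * δ) ^ n * δ) :=
            mul_le_mul hg1 h5 (Finset.prod_nonneg fun i _ => integral_nonneg fun x => abs_nonneg _)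
              zero_le_one
        _ = _ := one_mul _
    rw [Finset.card_insert_of_notMem hj]
    push_cast
    have h7 : CC (Fin.cons g0 E : Fin (n + 1) → (Fin n → ℝ) → ℝ) -
        CC (Fin.cons g0 (fun i => if i ∈ insert j S then D i else E i) :
          Fin (n + 1) → (Fin n → ℝ) → ℝ) =
        (CC (Fin.cons g0 E : Fin (n + 1) → (Fin n → ℝ) → ℝ) -
        CC (Fin.cons g0 (fun i => if i ∈ S then D i else E i) :
          Fin (n + 1) → (Fin n → ℝ) → ℝ)) +
        CC (Function.update (Fin.cons g0 (fun i => if i ∈ S then D i else E i) :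
        Fin (n + 1) → (Fin n → ℝ) → ℝ) j.succ (R j)) := by
      rw [h1]
      ring
    rw [h7]
    calc _ ≤ _ := abs_add_le _ _
      _ ≤ S.card * ((K * δ) ^ n * δ) + (K * δ) ^ n * δ := add_le_add ih h2
      _ = _ := by ring

private theorem LocalEst_sqrt {n : ℕ} {P : Matrix (Fin n) (Fin n) ℝ} (hP : P.PosDef) :
    cfc Real.sqrt P * cfc Real.sqrt P = P := by
  have hPt : Pᵀ = P := by
    have := hP.isHermitian.eq
    rwa [conjTranspose_eq_transpose_of_trivial] at this
  obtain ⟨U, l, hU, hU', h⟩ := exists_spec P hPt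
  have hl := (posDef_iff_spec hU' h).1 hP
  have hc := cfc_conj_diagonal hU' h Real.sqrt
  rw [hc]
  calc U * diagonal (fun i => Real.sqrt (l i)) * Uᵀ * (U * diagonal (fun i => Real.sqrt (l i)) * Uᵀ)
      = U * diagonal (fun i => Real.sqrt (l i)) * (Uᵀ * U) *
          (diagonal (fun i => Real.sqrt (l i)) * Uᵀ) := by simp only [Matrix.mul_assoc]
    _ = U * (diagonal (fun i => Real.sqrt (l i)) * diagonal (fun i => Real.sqrt (l i))) * Uᵀ := by
        rw [hU']; simp only [Matrix.mul_assoc, Matrix.mul_one]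
    _ = U * diagonal l * Uᵀ := by
        rw [diagonal_mul_diagonal]
        congr 3
        funext i
        exact Real.mul_self_sqrt (hl i).le
    _ = P := h.symm

/-- the case `x 0 = 1` -/
private theorem LocalEst_one {d n : ℕ} (T : Ten d n) (hT : TSym T) (h0 : T ≠ 0) (hd : 0 < d) :
    ∃ C : ℝ, 0 < C ∧ ∀ (P : Fin n → Matrix (Fin n) (Fin n) ℝ) (δ : ℝ),
      (∀ i, P i ∈ PSet T) → 0 ≤ δ → (∀ i, Close δ 1 (P i)) →
      |CC (Fin.cons (gdens (1 : Matrix (Fin n) (Fin n) ℝ)) (fun i => gdens (P i)) :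
        Fin (n + 1) → (Fin n → ℝ) → ℝ)| ≤ C * δ ^ (n + 1) := by
  obtain ⟨C, hC, hCt⟩ := exists_taylor n
  have h1d : (1 : Matrix (Fin n) (Fin n) ℝ).PosDef := Matrix.PosDef.one
  refine ⟨1 + n * (2 * C) ^ n, by positivity, fun P δ hP hδ hc => ?_⟩
  have habs : ∀ {Q : Matrix (Fin n) (Fin n) ℝ}, Q.PosDef → ∫ x, |gdens Q x| = 1 := by
    intro Q hQ
    rw [← integral_gdens hQ]
    exact integral_congr_ae (Filter.Eventually.of_forall fun x => abs_of_nonneg (gdens_nonneg Q x))
  by_cases hδ1 : δ ≤ 1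
  · set D : Fin n → (Fin n → ℝ) → ℝ := fun i => DY (lg (P i)) with hDdef
    set E : Fin n → (Fin n → ℝ) → ℝ := fun i x => gdens (P i) x - gdens 1 x with hEdef
    set R : Fin n → (Fin n → ℝ) → ℝ := fun i x => gdens (P i) x - gdens 1 x - DY (lg (P i)) x
      with hRdef
    have hg := integrable_gdens h1d
    have hG : ∀ i, Integrable (gdens (P i)) := fun i => integrable_gdens (hP i).1
    have hD : ∀ i, Integrable (D i) := fun i => integrable_DY _
    have hE : ∀ i, Integrable (E i) := fun i => (hG i).sub hg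
    have hR : ∀ i, Integrable (R i) := fun i => (hE i).sub (hD i)
    have hs : ∀ i, E i = fun x => D i x + R i x := by
      intro i
      funext x
      simp only [hEdef, hDdef, hRdef]
      ring
    have hD1 : ∀ i, ∫ x, |D i x| ≤ C * δ := fun i => (hCt (P i) δ (hP i).1 hδ hδ1 (hc i)).2
    have hR1 : ∀ i, ∫ x, |R i x| ≤ C * δ ^ 2 := fun i => (hCt (P i) δ (hP i).1 hδ hδ1 (hc i)).1
    have hδ2 : δ ^ 2 ≤ δ := by nlinarith
    have hE1 : ∀ i, ∫ x, |E i x| ≤ 2 * C * δ := by
      intro i
      calc ∫ x, |E i x| ≤ ∫ x, (|D i x| + |R i x|) := by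
            refine integral_mono (hE i).abs ((hD i).abs.add (hR i).abs) fun x => ?_
            simp only [hs i]
            exact abs_add_le _ _
        _ = (∫ x, |D i x|) + ∫ x, |R i x| := integral_add (hD i).abs (hR i).abs
        _ ≤ C * δ + C * δ ^ 2 := add_le_add (hD1 i) (hR1 i)
        _ ≤ 2 * C * δ := by nlinarith
    have e1 := LocalEst_drop (gdens (1 : Matrix (Fin n) (Fin n) ℝ)) (fun i => gdens (P i)) hg hG
      Finset.univ
    simp only [Finset.mem_univ, if_true] at e1
    have e2 := LocalEst_tele (gdens (1 : Matrix (Fin n) (Fin n) ℝ)) D E R hg hD hE hR hs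
      (habs h1d).le (K := 2 * C) (δ := δ) (by positivity) hδ
      (fun i => (hD1 i).trans (by nlinarith)) hE1
      (fun i => (hR1 i).trans (by nlinarith [sq_nonneg δ])) Finset.univ
    simp only [Finset.mem_univ, if_true, Finset.card_univ, Fintype.card_fin] at e2
    have e3 : CC (Fin.cons (gdens (1 : Matrix (Fin n) (Fin n) ℝ)) (fun i => D i) :
        Fin (n + 1) → (Fin n → ℝ) → ℝ) = 0 :=
      CC_DY_eq_zero (fun i => lg (P i)) (fun i => lg_transpose (hP i).1)
        (fun η => tangent hT h0 hd P hP η)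
    rw [e3, sub_zero] at e2
    rw [e1]
    refine e2.trans ?_
    have h8 : (2 * C * δ) ^ n * δ = (2 * C) ^ n * δ ^ (n + 1) := by
      rw [mul_pow, pow_succ]
      ring
    rw [h8]
    have h9 : 0 ≤ δ ^ (n + 1) := by positivity
    nlinarith
  · push Not at hδ1
    have h2 : |CC (Fin.cons (gdens (1 : Matrix (Fin n) (Fin n) ℝ)) (fun i => gdens (P i)) :
        Fin (n + 1) → (Fin n → ℝ) → ℝ)| ≤ 1 := by
      refine (abs_CC_le _ ?_).trans ?_
      · intro i
        refine Fin.cases ?_ (fun i => ?_) i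
        · exact integrable_gdens h1d
        · exact integrable_gdens (hP i).1
      · rw [Fin.prod_univ_succ]
        simp only [Fin.cons_zero, Fin.cons_succ, habs h1d, habs (hP _).1]
        simp
    refine h2.trans ?_
    have h3 : 1 ≤ δ ^ (n + 1) := one_le_pow₀ hδ1.le
    have h4 : 0 ≤ (n : ℝ) * (2 * C) ^ n := by positivity
    nlinarith

theorem local_est {d n : ℕ} (T : Ten d n) (hT : TSym T) (h0 : T ≠ 0) (hd : 0 < d) :
    ∃ C : ℝ, 0 < C ∧ ∀ (x : Fin (n + 1) → Matrix (Fin n) (Fin n) ℝ) (δ : ℝ),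
      (∀ i, x i ∈ PSet T) → 0 ≤ δ → (∀ i, Close δ (x 0) (x i)) →
      |CC fun i => gdens (x i)| ≤ C * δ ^ (n + 1) := by
  obtain ⟨C, hC, h⟩ := LocalEst_one T hT h0 hd
  refine ⟨C, hC, fun x δ hx hδ hc => ?_⟩
  have hx0 := hx 0
  set b : Matrix (Fin n) (Fin n) ℝ := (cfc Real.sqrt (x 0))⁻¹ with hb
  have hbP : b ∈ PSet T := inv_mem_PSet (sqrt_mem_PSet hx0)
  have hbd : b.det ≠ 0 := hbP.1.det_pos.ne'
  have hbs : bᵀ = b := by
    have := hbP.1.isHermitian.eq
    rwa [conjTranspose_eq_transpose_of_trivial] at this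
  have hb1 : b * x 0 * bᵀ = 1 := by
    have hs := sqrt_mem_PSet hx0
    have hsu : IsUnit (cfc Real.sqrt (x 0)).det := isUnit_iff_ne_zero.2 hs.1.det_pos.ne'
    rw [hbs]
    calc b * x 0 * b = b * (cfc Real.sqrt (x 0) * cfc Real.sqrt (x 0)) * b := by
          rw [LocalEst_sqrt hx0.1]
      _ = (b * cfc Real.sqrt (x 0)) * (cfc Real.sqrt (x 0) * b) := by
          simp only [Matrix.mul_assoc]
      _ = 1 := by
          rw [hb, Matrix.nonsing_inv_mul _ hsu, Matrix.mul_nonsing_inv _ hsu, Matrix.mul_one]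
  have hmem : ∀ i, b * x i * bᵀ ∈ PSet T := by
    intro i
    refine conj_mem_PSet h0 (hx i) hbd (Or.inl hbP.2) ?_
    rw [hbs]
    exact Or.inl hbP.2
  have hcl : ∀ i, Close δ 1 (b * x i * bᵀ) := by
    intro i
    rw [← hb1]
    exact (hc i).conj b
  have h1 := h (fun i => b * x i.succ * bᵀ) δ (fun i => hmem _) hδ (fun i => hcl _)
  have h2 : (Fin.cons (gdens (1 : Matrix (Fin n) (Fin n) ℝ))
      (fun i : Fin n => gdens (b * x i.succ * bᵀ)) : Fin (n + 1) → (Fin n → ℝ) → ℝ) =
      fun i => push b (gdens (x i)) := by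
    funext i
    rw [push_gdens hbd (hx i).1]
    refine Fin.cases ?_ (fun i => ?_) i
    · rw [hb1]
      rfl
    · rfl
  rw [h2, CC_push b hbd, abs_mul] at h1
  have h3 : |Real.sign b.det| = 1 := by
    rw [Real.sign_of_pos hbP.1.det_pos, abs_one]
  rw [h3, one_mul] at h1
  exact h1

end Pool.Agent.ChP
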