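import Pool.Agent.ChP.Spec

/-!
# Quadratic upper bound for the trace of the square of the logarithm

`φ(x) = (log x)²` has `φ'(x) = 2 log x / x` and `φ''(x) = 2(1 - log x)/x² ≤ A` on `[a, ∞)`, so
`φ(ν) ≤ φ(μ) + φ'(μ)(ν - μ) + (A/2)(ν - μ)²` for `μ, ν ≥ a`.  For `M = U diag(μ) Uᵀ`,
`N = V diag(ν) Vᵀ` and `w i j = (Uᵀ V) i j ^ 2` (doubly stochastic): `tr φ(N) = ∑ w i j φ(ν j)`,
`tr φ(M) = ∑ w i j φ(μ i)`, `tr (φ'(M) (N - M)) = ∑ w i j φ'(μ i)(ν j - μ i)`,
`tr (N - M)² = ∑ w i j (ν j - μ i)²`.  Sum up.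
-/

namespace Pool.Agent.ChP

open Matrix

private theorem logEst_scalar {a μ ν : ℝ} (ha : 0 < a) (hμ : a ≤ μ) (hν : a ≤ ν) :
    Real.log ν ^ 2 ≤ Real.log μ ^ 2 + 2 * (Real.log μ * μ⁻¹ * (ν - μ)) +
      ((1 + 2 * |Real.log a|) / a ^ 2) * (ν - μ) ^ 2 := by
  have hμ0 : 0 < μ := lt_of_lt_of_le ha hμ
  have hν0 : 0 < ν := lt_of_lt_of_le ha hν
  set x := ν / μ with hx
  have hx0 : 0 < x := div_pos hν0 hμ0
  have hνx : ν = x * μ := by rw [hx]; field_simp
  have hlog : Real.log ν = Real.log x + Real.log μ := by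
    rw [hνx, Real.log_mul hx0.ne' hμ0.ne']
  have h1 : Real.log x ≤ x - 1 := Real.log_le_sub_one_of_pos hx0
  have h2 : 1 - x⁻¹ ≤ Real.log x := Real.one_sub_inv_le_log_of_pos hx0
  have e1 : x - 1 = (ν - μ) / μ := by rw [hx]; field_simp
  have e2 : 1 - x⁻¹ = (ν - μ) / ν := by rw [hx]; field_simp
  have ha2 : 0 < a ^ 2 := by positivity
  have hq : 0 ≤ (ν - μ) ^ 2 / a ^ 2 := by positivity
  -- square of the logarithm
  have hsq : Real.log x ^ 2 ≤ (ν - μ) ^ 2 / a ^ 2 := by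
    rcases le_total 0 (Real.log x) with h | h
    · have h3 : Real.log x ^ 2 ≤ ((ν - μ) / μ) ^ 2 := by
        rw [← e1]
        exact pow_le_pow_left₀ h h1 2
      refine h3.trans ?_
      rw [div_pow]
      exact div_le_div_of_nonneg_left (sq_nonneg _) ha2 (pow_le_pow_left₀ ha.le hμ 2)
    · have h3 : Real.log x ^ 2 ≤ ((ν - μ) / ν) ^ 2 := by
        rw [← e2]
        nlinarith
      refine h3.trans ?_
      rw [div_pow]
      exact div_le_div_of_nonneg_left (sq_nonneg _) ha2 (pow_le_pow_left₀ ha.le hν 2)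
  -- first order term
  have hfo : 0 ≤ (x - 1) - Real.log x := by linarith
  have hfo2 : (x - 1) - Real.log x ≤ (ν - μ) ^ 2 / a ^ 2 := by
    have h3 : (x - 1) - Real.log x ≤ (ν - μ) / μ - (ν - μ) / ν := by
      rw [← e1, ← e2]; linarith
    have h4 : (ν - μ) / μ - (ν - μ) / ν = (ν - μ) ^ 2 / (μ * ν) := by
      field_simp
    rw [h4] at h3
    refine h3.trans ?_
    refine div_le_div_of_nonneg_left (sq_nonneg _) ha2 ?_
    rw [sq]
    exact mul_le_mul hμ hν ha.le hμ0.le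
  have hkey : -(2 * Real.log μ * ((x - 1) - Real.log x)) ≤
      2 * |Real.log a| * ((ν - μ) ^ 2 / a ^ 2) := by
    have hl : -Real.log μ ≤ |Real.log a| := by
      have := Real.log_le_log ha hμ
      have := neg_abs_le (Real.log a)
      linarith
    have h5 : -Real.log μ * ((x - 1) - Real.log x) ≤ |Real.log a| * ((x - 1) - Real.log x) :=
      mul_le_mul_of_nonneg_right hl hfo
    have h6 : |Real.log a| * ((x - 1) - Real.log x) ≤ |Real.log a| * ((ν - μ) ^ 2 / a ^ 2) :=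
      mul_le_mul_of_nonneg_left hfo2 (abs_nonneg _)
    nlinarith
  have e3 : Real.log μ * μ⁻¹ * (ν - μ) = Real.log μ * (x - 1) := by
    rw [e1]; ring
  have e4 : ((1 + 2 * |Real.log a|) / a ^ 2) * (ν - μ) ^ 2 =
      (ν - μ) ^ 2 / a ^ 2 + 2 * |Real.log a| * ((ν - μ) ^ 2 / a ^ 2) := by ring
  rw [e3, e4, hlog]
  nlinarith

private theorem logEst_trace {n : ℕ} (U V : Matrix (Fin n) (Fin n) ℝ) (x y : Fin n → ℝ) :
    (U * diagonal x * Uᵀ * (V * diagonal y * Vᵀ)).trace =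
      ∑ i, ∑ j, x i * y j * (Uᵀ * V) i j ^ 2 := by
  have h : (U * diagonal x * Uᵀ * (V * diagonal y * Vᵀ)).trace =
      (diagonal x * (Uᵀ * V) * (diagonal y * (Uᵀ * V)ᵀ)).trace := by
    rw [transpose_mul, transpose_transpose]
    calc (U * diagonal x * Uᵀ * (V * diagonal y * Vᵀ)).trace
        = (U * (diagonal x * Uᵀ * (V * diagonal y * Vᵀ))).trace := by
          simp only [Matrix.mul_assoc]
      _ = ((diagonal x * Uᵀ * (V * diagonal y * Vᵀ)) * U).trace := Matrix.trace_mul_comm _ _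
      _ = _ := by simp only [Matrix.mul_assoc]
  rw [h, Matrix.trace]
  refine Finset.sum_congr rfl fun i _ => ?_
  rw [Matrix.diag_apply, Matrix.mul_apply]
  refine Finset.sum_congr rfl fun j _ => ?_
  rw [Matrix.diagonal_mul, Matrix.diagonal_mul, Matrix.transpose_apply]
  ring

private theorem logEst_row {n : ℕ} {W : Matrix (Fin n) (Fin n) ℝ} (h : W * Wᵀ = 1) (i : Fin n) :
    ∑ j, W i j ^ 2 = 1 := by
  have := congrFun (congrFun h i) i
  rw [Matrix.mul_apply, Matrix.one_apply_eq] at this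
  rw [← this]
  refine Finset.sum_congr rfl fun j _ => ?_
  rw [Matrix.transpose_apply, sq]

private theorem logEst_col {n : ℕ} {W : Matrix (Fin n) (Fin n) ℝ} (h : Wᵀ * W = 1) (j : Fin n) :
    ∑ i, W i j ^ 2 = 1 := by
  have := congrFun (congrFun h j) j
  rw [Matrix.mul_apply, Matrix.one_apply_eq] at this
  rw [← this]
  refine Finset.sum_congr rfl fun i _ => ?_
  rw [Matrix.transpose_apply, sq]

private theorem logEst_mul {n : ℕ} {U : Matrix (Fin n) (Fin n) ℝ} (hU : Uᵀ * U = 1)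
    (x y : Fin n → ℝ) :
    U * diagonal x * Uᵀ * (U * diagonal y * Uᵀ) = U * diagonal (fun i => x i * y i) * Uᵀ := by
  calc U * diagonal x * Uᵀ * (U * diagonal y * Uᵀ)
      = U * diagonal x * (Uᵀ * U) * diagonal y * Uᵀ := by simp only [Matrix.mul_assoc]
    _ = U * (diagonal x * diagonal y) * Uᵀ := by
        rw [hU, Matrix.mul_one]; simp only [Matrix.mul_assoc]
    _ = _ := by rw [Matrix.diagonal_mul_diagonal]

theorem trace_log_sq_le {n : ℕ} (a : ℝ) (ha : 0 < a) : ∃ A : ℝ, 0 ≤ A ∧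
    ∀ M N : Matrix (Fin n) (Fin n) ℝ, (M - a • (1 : Matrix (Fin n) (Fin n) ℝ)).PosSemidef →
      (N - a • (1 : Matrix (Fin n) (Fin n) ℝ)).PosSemidef →
      (lg N * lg N).trace ≤ (lg M * lg M).trace + 2 * (lg M * M⁻¹ * (N - M)).trace +
        A * ((N - M) * (N - M)).trace := by
  refine ⟨(1 + 2 * |Real.log a|) / a ^ 2, by positivity, ?_⟩
  intro M N hM hN
  have symm : ∀ P : Matrix (Fin n) (Fin n) ℝ,
      (P - a • (1 : Matrix (Fin n) (Fin n) ℝ)).PosSemidef → Pᵀ = P := by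
    intro P hP
    have h := hP.isHermitian
    unfold Matrix.IsHermitian at h
    rw [Matrix.conjTranspose_eq_transpose_of_trivial, Matrix.transpose_sub,
      Matrix.transpose_smul, Matrix.transpose_one] at h
    exact sub_left_injective h
  have spec : ∀ P : Matrix (Fin n) (Fin n) ℝ,
      (P - a • (1 : Matrix (Fin n) (Fin n) ℝ)).PosSemidef →
      ∃ (U : Matrix (Fin n) (Fin n) ℝ) (l : Fin n → ℝ), U * Uᵀ = 1 ∧ Uᵀ * U = 1 ∧
        P = U * diagonal l * Uᵀ ∧ ∀ i, a ≤ l i := by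
    intro P hP
    obtain ⟨U, l, h1, h2, h3⟩ := exists_spec P (symm P hP)
    refine ⟨U, l, h1, h2, h3, ?_⟩
    have h4 : P - a • (1 : Matrix (Fin n) (Fin n) ℝ) =
        U * diagonal (fun i => l i - a) * Uᵀ := by
      have h5 : diagonal (fun i => l i - a) =
          diagonal l - a • (1 : Matrix (Fin n) (Fin n) ℝ) := by
        ext i j
        by_cases hij : i = j
        · subst hij; simp
        · simp [Matrix.diagonal_apply_ne _ hij, Matrix.one_apply_ne hij]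
      rw [h5, Matrix.mul_sub, Matrix.sub_mul, ← h3]
      congr 1
      rw [Matrix.mul_smul, Matrix.mul_one, Matrix.smul_mul, h1]
    intro i
    have := (posSemidef_iff_spec h2 h4).1 hP i
    linarith
  obtain ⟨U, μ, hU1, hU2, hMe, hμ⟩ := spec M hM
  obtain ⟨V, ν, hV1, hV2, hNe, hν⟩ := spec N hN
  have hW1 : (Uᵀ * V) * (Uᵀ * V)ᵀ = 1 := by
    rw [Matrix.transpose_mul, Matrix.transpose_transpose]
    calc Uᵀ * V * (Vᵀ * U) = Uᵀ * (V * Vᵀ) * U := by simp only [Matrix.mul_assoc]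
      _ = 1 := by rw [hV1, Matrix.mul_one, hU2]
  have hW2 : (Uᵀ * V)ᵀ * (Uᵀ * V) = 1 := by
    rw [Matrix.transpose_mul, Matrix.transpose_transpose]
    calc Vᵀ * U * (Uᵀ * V) = Vᵀ * (U * Uᵀ) * V := by simp only [Matrix.mul_assoc]
      _ = 1 := by rw [hU1, Matrix.mul_one, hV2]
  have hμ0 : ∀ i, μ i ≠ 0 := fun i => (lt_of_lt_of_le ha (hμ i)).ne'
  have hlM : lg M = U * diagonal (fun i => Real.log (μ i)) * Uᵀ :=
    cfc_conj_diagonal hU2 hMe Real.log
  have hlN : lg N = V * diagonal (fun i => Real.log (ν i)) * Vᵀ :=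
    cfc_conj_diagonal hV2 hNe Real.log
  have hMi : M⁻¹ = U * diagonal (fun i => (μ i)⁻¹) * Uᵀ := by
    refine Matrix.inv_eq_right_inv ?_
    rw [hMe, logEst_mul hU2]
    have : (fun i => μ i * (μ i)⁻¹) = fun _ => (1 : ℝ) := by
      funext i; exact mul_inv_cancel₀ (hμ0 i)
    rw [this, Matrix.diagonal_one, Matrix.mul_one, hU1]
  have hlMi : lg M * M⁻¹ = U * diagonal (fun i => Real.log (μ i) * (μ i)⁻¹) * Uᵀ := by
    rw [hlM, hMi, logEst_mul hU2]
  have one_trace : ∀ (x : Fin n → ℝ), (U * diagonal x * Uᵀ).trace =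
      ∑ i, ∑ j, x i * (Uᵀ * V) i j ^ 2 := by
    intro x
    rw [Matrix.trace_mul_comm, ← Matrix.mul_assoc, hU2, Matrix.one_mul, Matrix.trace_diagonal]
    refine Finset.sum_congr rfl fun i _ => ?_
    rw [← Finset.mul_sum, logEst_row hW1, mul_one]
  have one_trace' : ∀ (x : Fin n → ℝ), (V * diagonal x * Vᵀ).trace =
      ∑ i, ∑ j, x j * (Uᵀ * V) i j ^ 2 := by
    intro x
    rw [Matrix.trace_mul_comm, ← Matrix.mul_assoc, hV2, Matrix.one_mul, Matrix.trace_diagonal,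
      Finset.sum_comm]
    refine Finset.sum_congr rfl fun i _ => ?_
    rw [← Finset.mul_sum, logEst_col hW2, mul_one]
  have t1 : (lg N * lg N).trace =
      ∑ i, ∑ j, (Real.log (ν j) * Real.log (ν j)) * (Uᵀ * V) i j ^ 2 := by
    rw [hlN, logEst_mul hV2, one_trace']
  have t2 : (lg M * lg M).trace =
      ∑ i, ∑ j, (Real.log (μ i) * Real.log (μ i)) * (Uᵀ * V) i j ^ 2 := by
    rw [hlM, logEst_mul hU2, one_trace]
  have t3 : (lg M * M⁻¹ * (N - M)).trace =
      ∑ i, ∑ j, (Real.log (μ i) * (μ i)⁻¹ * (ν j - μ i)) * (Uᵀ * V) i j ^ 2 := by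
    rw [Matrix.mul_sub, Matrix.trace_sub, hlMi]
    have e1 : (U * diagonal (fun i => Real.log (μ i) * (μ i)⁻¹) * Uᵀ * N).trace =
        ∑ i, ∑ j, (Real.log (μ i) * (μ i)⁻¹) * ν j * (Uᵀ * V) i j ^ 2 := by
      conv_lhs => rw [hNe]
      rw [logEst_trace]
    have e2 : (U * diagonal (fun i => Real.log (μ i) * (μ i)⁻¹) * Uᵀ * M).trace =
        ∑ i, ∑ j, (Real.log (μ i) * (μ i)⁻¹ * μ i) * (Uᵀ * V) i j ^ 2 := by
      conv_lhs => rw [hMe]
      rw [logEst_mul hU2, one_trace]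
    rw [e1, e2, ← Finset.sum_sub_distrib]
    refine Finset.sum_congr rfl fun i _ => ?_
    rw [← Finset.sum_sub_distrib]
    refine Finset.sum_congr rfl fun j _ => ?_
    ring
  have t4 : ((N - M) * (N - M)).trace =
      ∑ i, ∑ j, (ν j - μ i) ^ 2 * (Uᵀ * V) i j ^ 2 := by
    have e0 : ((N - M) * (N - M)).trace = (N * N).trace - 2 * (M * N).trace + (M * M).trace := by
      rw [Matrix.sub_mul, Matrix.mul_sub, Matrix.mul_sub, Matrix.trace_sub, Matrix.trace_sub,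
        Matrix.trace_sub, Matrix.trace_mul_comm N M]
      ring
    have e1 : (N * N).trace = ∑ i, ∑ j, (ν j * ν j) * (Uᵀ * V) i j ^ 2 := by
      conv_lhs => rw [hNe]
      rw [logEst_mul hV2, one_trace']
    have e2 : (M * M).trace = ∑ i, ∑ j, (μ i * μ i) * (Uᵀ * V) i j ^ 2 := by
      conv_lhs => rw [hMe]
      rw [logEst_mul hU2, one_trace]
    have e3 : (M * N).trace = ∑ i, ∑ j, μ i * ν j * (Uᵀ * V) i j ^ 2 := by
      conv_lhs => rw [hMe, hNe]
      rw [logEst_trace]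
    rw [e0, e1, e2, e3, Finset.mul_sum, ← Finset.sum_sub_distrib, ← Finset.sum_add_distrib]
    refine Finset.sum_congr rfl fun i _ => ?_
    rw [Finset.mul_sum, ← Finset.sum_sub_distrib, ← Finset.sum_add_distrib]
    refine Finset.sum_congr rfl fun j _ => ?_
    ring
  rw [t1, t2, t3, t4, Finset.mul_sum, Finset.mul_sum, ← Finset.sum_add_distrib,
    ← Finset.sum_add_distrib]
  refine Finset.sum_le_sum fun i _ => ?_
  rw [Finset.mul_sum, Finset.mul_sum, ← Finset.sum_add_distrib, ← Finset.sum_add_distrib]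
  refine Finset.sum_le_sum fun j _ => ?_
  have hs := logEst_scalar ha (hμ i) (hν j)
  have hw : 0 ≤ (Uᵀ * V) i j ^ 2 := sq_nonneg _
  have := mul_le_mul_of_nonneg_right hs hw
  nlinarith

end Pool.Agent.ChP
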